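import Pool.Agent.Helper69.FF.Defs

/-!
# FF-DivS: divisor sums

`τ(r)^k` and `r/φ(r) ≤ τ(r)` (squarefree `r`: `p/(p-1) ≤ 2`). For every `ε > 0`: `τ(r) ≤ C r^ε` (classical; or Mathlib). Alternatively prove directly the bounds below by
`∑_{r ≤ x} τ(r)^3/r ≤ (1 + log x)^8`-type estimates, or by the pointwise divisor bound.
-/

open MeasureTheory Set Filter Topology
open Pool.Agent.Helper57.Zeta Pool.Agent.Helper57.PC Pool.Agent.Helper57.LH Pool.Agent.Helper78.SG
open Pool.Agent.Helper4.SH (om)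
open scoped ContDiff

namespace Pool.Agent.Helper69.FF

private theorem d53_loc {ε : ℝ} (hε : 0 < ε) (p v : ℕ) (hp : 2 ≤ p) :
    ((v : ℝ) + 1) ≤ (if (p : ℝ) ^ ε < 2 then max 1 (1 / (ε * Real.log 2)) else 1) * ((p : ℝ) ^ v) ^ ε := by
  have hp2 : (2 : ℝ) ≤ p := by exact_mod_cast hp
  have hp0 : (0 : ℝ) < p := by linarith
  have e : ((p : ℝ) ^ v) ^ ε = ((p : ℝ) ^ ε) ^ v := by
    rw [← Real.rpow_natCast, ← Real.rpow_mul hp0.le, mul_comm, Real.rpow_mul hp0.le, Real.rpow_natCast]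
  split_ifs with h
  · have hl2 : 0 < Real.log 2 := Real.log_pos (by norm_num)
    have h1 : (2 : ℝ) ^ (ε * v) ≤ ((p : ℝ) ^ v) ^ ε := by
      rw [e, ← Real.rpow_natCast, ← Real.rpow_mul hp0.le]
      exact Real.rpow_le_rpow (by norm_num) hp2 (by positivity)
    have h2 : 1 + v * (ε * Real.log 2) ≤ (2 : ℝ) ^ (ε * v) := by
      rw [Real.rpow_def_of_pos (by norm_num)]
      have := Real.add_one_le_exp (Real.log 2 * (ε * v))
      linarith
    have h3 : 0 < ε * Real.log 2 := by positivity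
    have h4 : (1 : ℝ) ≤ max 1 (1 / (ε * Real.log 2)) := le_max_left _ _
    have h5 : 1 / (ε * Real.log 2) ≤ max 1 (1 / (ε * Real.log 2)) := le_max_right _ _
    have h6 : 1 ≤ max 1 (1 / (ε * Real.log 2)) * (ε * Real.log 2) := by
      rw [div_le_iff₀ h3] at h5
      exact h5
    calc (v : ℝ) + 1 ≤ max 1 (1 / (ε * Real.log 2)) * (1 + v * (ε * Real.log 2)) := by
          have hv : (0 : ℝ) ≤ v := Nat.cast_nonneg v
          nlinarith
      _ ≤ max 1 (1 / (ε * Real.log 2)) * ((p : ℝ) ^ v) ^ ε := by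
          refine mul_le_mul_of_nonneg_left (h2.trans h1) (by linarith)
  · rw [not_lt] at h
    rw [one_mul, e]
    have h1 : ((v : ℝ) + 1) ≤ (2 : ℝ) ^ v := by
      have : v + 1 ≤ 2 ^ v := Nat.lt_two_pow_self
      exact_mod_cast this
    exact h1.trans (pow_le_pow_left₀ (by norm_num) h v)

private theorem d53_prod {n : ℕ} (hn : n ≠ 0) : (n : ℝ) = ∏ p ∈ n.primeFactors, (p : ℝ) ^ (n.factorization p) := by
  have h := Nat.prod_factorization_pow_eq_self hn
  rw [Finsupp.prod, Nat.support_factorization] at h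
  conv_lhs => rw [← h]
  push_cast
  rfl

theorem div_bound {ε : ℝ} (hε : 0 < ε) : ∃ C : ℝ, 0 < C ∧ ∀ n : ℕ, n ≠ 0 → (n.divisors.card : ℝ) ≤ C * (n : ℝ) ^ ε := by
  obtain ⟨K, hK⟩ : ∃ K : ℝ, K = max 1 (1 / (ε * Real.log 2)) := ⟨_, rfl⟩
  have hK1 : 1 ≤ K := by rw [hK]; exact le_max_left _ _
  refine ⟨K ^ (⌈(2 : ℝ) ^ (1 / ε)⌉₊ + 1), by positivity, fun n hn => ?_⟩
  rw [Nat.card_divisors hn]
  push_cast
  have h1 : ∏ p ∈ n.primeFactors, ((n.factorization p : ℝ) + 1) ≤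
      ∏ p ∈ n.primeFactors, ((if (p : ℝ) ^ ε < 2 then K else 1) * ((p : ℝ) ^ (n.factorization p)) ^ ε) := by
    refine Finset.prod_le_prod (fun p _ => by positivity) fun p hp => ?_
    rw [hK]
    exact d53_loc hε p _ (Nat.prime_of_mem_primeFactors hp).two_le
  refine h1.trans ?_
  rw [Finset.prod_mul_distrib, Real.finsetProd_rpow _ _ (fun p _ => by positivity), ← d53_prod hn]
  refine mul_le_mul_of_nonneg_right ?_ (by positivity)
  rw [← Finset.prod_filter, Finset.prod_const]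
  refine pow_le_pow_right₀ hK1 ?_
  have h2 : n.primeFactors.filter (fun p : ℕ => ((p : ℕ) : ℝ) ^ ε < 2) ⊆ Finset.range (⌈(2 : ℝ) ^ (1 / ε)⌉₊ + 1) := by
    intro p hp
    rw [Finset.mem_filter] at hp
    rw [Finset.mem_range, Nat.lt_succ_iff]
    have h3 : (p : ℝ) < (2 : ℝ) ^ (1 / ε) := by
      have h4 := Real.rpow_lt_rpow (by positivity) hp.2 (by positivity : 0 < 1 / ε)
      rwa [← Real.rpow_mul (Nat.cast_nonneg p), mul_one_div_cancel hε.ne', Real.rpow_one] at h4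
    have h5 : (p : ℝ) ≤ (⌈(2 : ℝ) ^ (1 / ε)⌉₊ : ℝ) := h3.le.trans (Nat.le_ceil _)
    exact_mod_cast h5
  have h3 := Finset.card_le_card h2
  rwa [Finset.card_range] at h3

theorem tot_ge {r : ℕ} (hr : Squarefree r) : (r : ℝ) ≤ (r.divisors.card : ℝ) * (Nat.totient r : ℝ) := by
  have hr0 : r ≠ 0 := hr.ne_zero
  have h1 := Nat.totient_mul_prod_primeFactors r
  rw [Nat.prod_primeFactors_of_squarefree hr, mul_comm] at h1
  have h2 : Nat.totient r = ∏ p ∈ r.primeFactors, (p - 1) := Nat.eq_of_mul_eq_mul_left (Nat.pos_of_ne_zero hr0) h1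
  have h3 : r ≤ r.divisors.card * Nat.totient r := by
    rw [h2, Nat.card_divisors hr0, ← Finset.prod_mul_distrib]
    conv_lhs => rw [← Nat.prod_primeFactors_of_squarefree hr]
    refine Finset.prod_le_prod' fun p hp => ?_
    have hp2 := (Nat.prime_of_mem_primeFactors hp).two_le
    have hv : 1 ≤ r.factorization p := by
      have := (Nat.prime_of_mem_primeFactors hp).factorization_pos_of_dvd hr0 (Nat.dvd_of_mem_primeFactors hp)
      omega
    calc p ≤ (1 + 1) * (p - 1) := by omega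
      _ ≤ (r.factorization p + 1) * (p - 1) := Nat.mul_le_mul_right _ (by omega)
  exact_mod_cast h3

end Pool.Agent.Helper69.FF
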