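import Pool.Agent.Helper69.FF.Defs

/-!
# FF-Lim: choice of the cut-offs

Let `χ0, χ1` be smooth, values in `[0,1]`, `χ0 = 1` for `x ≤ 1 - 2η`, `0` for `x ≥ 1 - η`, `χ1 = 1` for `x ≥ 1 + 2η`, `0` for `x ≤ 1 + η`; `w0 = χ0 w`, `v = χ1 w`
(then `b' = b < 3/2`, `a' = 1 + η`, `b0 = 1 - η`, `a0 = min a (..)`). `2 w w0 - w0² = (2χ0 - χ0²) w² ≥ 1_{x ≤ 1-2η} w²` etc. As `η, e → 0` the difference to the limit is at most
`sup w² · (6η) + 2e ∫ w²`. (If `b < 1` take `v = 0` with any `a', b'`; `WR 0 a' b'` holds.) 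
-/

open MeasureTheory Set Filter Topology
open Pool.Agent.Helper57.Zeta Pool.Agent.Helper57.PC Pool.Agent.Helper57.LH Pool.Agent.Helper78.SG
open Pool.Agent.Helper4.SH (om)
open scoped ContDiff

namespace Pool.Agent.Helper69.FF

/-- the lower bound for the form factor: `∫_0^1 x w² + ∫_1^(3/2) (3/2 - x) w²` -/
noncomputable def VV (w : ℝ → ℝ) : ℝ :=
  (∫ x in (0:ℝ)..1, x * w x ^ 2) + ∫ x in (1:ℝ)..(3 / 2), (3 / 2 - x) * w x ^ 2

private lemma int97 {f : ℝ → ℝ} {a b : ℝ} (hf : Continuous f) (h : ∀ x, f x ≠ 0 → a ≤ x ∧ x ≤ b) :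
    Integrable f :=
  hf.integrable_of_hasCompactSupport
    (HasCompactSupport.intro (isCompact_Icc (a := a) (b := b)) (fun x hx => by
      by_contra h'
      exact hx (h x h')))

private lemma con97 (c u v : ℝ) : IntegrableOn (fun _ : ℝ => c) (Ioc u v) :=
  continuous_const.integrableOn_Ioc

private lemma A97 {w χ : ℝ → ℝ} {a b : ℝ} (hw : Continuous w) (hs : ∀ x, w x ≠ 0 → a ≤ x ∧ x ≤ b)
    (hχ : Continuous χ) (h0 : ∀ x, 0 ≤ χ x) (h1 : ∀ x, χ x ≤ 1) {η M : ℝ} (hη : 0 < η) (hη2 : 2 * η ≤ 1)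
    (hχ1 : ∀ x, x ≤ 1 - 2 * η → χ x = 1) (hM : ∀ x, w x ^ 2 ≤ M) :
    (∫ x in (0:ℝ)..1, x * w x ^ 2) - 2 * η * M ≤
      2 * (∫ x in Ioi (0:ℝ), x * (w x * (χ x * w x))) - ∫ x in Ioi (0:ℝ), x * ((χ x * w x) * (χ x * w x)) := by
  have hM0 : 0 ≤ M := (sq_nonneg _).trans (hM 0)
  have i1 : Integrable (fun x => x * (w x * (χ x * w x))) :=
    int97 (by fun_prop) (fun x hx => hs x (fun h => hx (by rw [h]; ring)))
  have i2 : Integrable (fun x => x * ((χ x * w x) * (χ x * w x))) :=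
    int97 (by fun_prop) (fun x hx => hs x (fun h => hx (by rw [h]; ring)))
  have i3 : Integrable (fun x => x * w x ^ 2) :=
    int97 (by fun_prop) (fun x hx => hs x (fun h => hx (by rw [h]; ring)))
  have e1 : 2 * (∫ x in Ioi (0:ℝ), x * (w x * (χ x * w x))) - ∫ x in Ioi (0:ℝ), x * ((χ x * w x) * (χ x * w x)) =
      ∫ x in Ioi (0:ℝ), (2 * (x * (w x * (χ x * w x))) - x * ((χ x * w x) * (χ x * w x))) := by
    rw [integral_sub (i1.const_mul 2).integrableOn i2.integrableOn, integral_const_mul]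
  have i4 : Integrable (fun x => 2 * (x * (w x * (χ x * w x))) - x * ((χ x * w x) * (χ x * w x))) :=
    (i1.const_mul 2).sub i2
  have hq : ∀ x, 2 * (x * (w x * (χ x * w x))) - x * ((χ x * w x) * (χ x * w x)) =
      x * w x ^ 2 - x * w x ^ 2 * (1 - χ x) ^ 2 := by
    intro x
    ring
  have e2 : ∫ x in Ioc (0:ℝ) 1, (2 * (x * (w x * (χ x * w x))) - x * ((χ x * w x) * (χ x * w x))) ≤
      ∫ x in Ioi (0:ℝ), (2 * (x * (w x * (χ x * w x))) - x * ((χ x * w x) * (χ x * w x))) := by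
    refine setIntegral_mono_set i4.integrableOn ?_ (HasSubset.Subset.eventuallyLE Ioc_subset_Ioi_self)
    refine (ae_restrict_mem measurableSet_Ioi).mono fun x hx => ?_
    have hx0 : (0:ℝ) < x := hx
    show (0:ℝ) ≤ 2 * (x * (w x * (χ x * w x))) - x * ((χ x * w x) * (χ x * w x))
    rw [hq]
    have h2 : (1 - χ x) ^ 2 ≤ 1 := by nlinarith [h0 x, h1 x]
    nlinarith [mul_nonneg hx0.le (sq_nonneg (w x))]
  have e3 : (∫ x in (0:ℝ)..1, x * w x ^ 2) = ∫ x in Ioc (0:ℝ) 1, x * w x ^ 2 :=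
    intervalIntegral.integral_of_le zero_le_one
  have hind : IntegrableOn (fun x : ℝ => indicator (Ioc (1 - 2 * η) 1) (fun _ => M) x) (Ioc (0:ℝ) 1) := by
    refine Integrable.integrableOn ?_
    rw [integrable_indicator_iff measurableSet_Ioc]
    exact con97 _ _ _
  have e4 : ∫ x in Ioc (0:ℝ) 1, indicator (Ioc (1 - 2 * η) 1) (fun _ => M) x = 2 * η * M := by
    rw [setIntegral_indicator measurableSet_Ioc]
    have : Ioc (0:ℝ) 1 ∩ Ioc (1 - 2 * η) 1 = Ioc (1 - 2 * η) 1 := by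
      apply inter_eq_right.mpr
      exact Ioc_subset_Ioc_left (by linarith)
    rw [this, setIntegral_const]
    simp [Measure.real]
    left
    linarith
  have e5 : ∫ x in Ioc (0:ℝ) 1, (x * w x ^ 2 - indicator (Ioc (1 - 2 * η) 1) (fun _ => M) x) ≤
      ∫ x in Ioc (0:ℝ) 1, (2 * (x * (w x * (χ x * w x))) - x * ((χ x * w x) * (χ x * w x))) := by
    refine setIntegral_mono_on (i3.integrableOn.sub hind) i4.integrableOn measurableSet_Ioc fun x hx => ?_
    rw [hq]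
    have hx0 : 0 < x := hx.1
    by_cases hx1 : x ≤ 1 - 2 * η
    · rw [hχ1 x hx1, indicator_of_notMem (fun h => absurd h.1 (not_lt.mpr hx1))]
      simp
    · rw [indicator_of_mem (show x ∈ Ioc (1 - 2 * η) 1 from ⟨not_le.mp hx1, hx.2⟩)]
      have h2 : (1 - χ x) ^ 2 ≤ 1 := by nlinarith [h0 x, h1 x]
      have h3 : x * w x ^ 2 ≤ M := by nlinarith [hM x, sq_nonneg (w x), hx.2]
      nlinarith [mul_nonneg hx0.le (sq_nonneg (w x)), sq_nonneg (1 - χ x)]
  rw [integral_sub i3.integrableOn hind, e4] at e5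
  rw [e1, e3]
  linarith

private lemma B97 {w χ : ℝ → ℝ} {a b : ℝ} (hw : Continuous w) (hs : ∀ x, w x ≠ 0 → a ≤ x ∧ x ≤ b)
    (hχ : Continuous χ) (h0 : ∀ x, 0 ≤ χ x) (h1 : ∀ x, χ x ≤ 1) {η M e : ℝ} (hη : 0 < η) (hη2 : 2 * η ≤ 1 / 2)
    (he : 0 < e) (hχ1 : ∀ x, 1 + 2 * η ≤ x → χ x = 1) (hM : ∀ x, w x ^ 2 ≤ M) :
    (∫ x in (1:ℝ)..(3 / 2), (3 / 2 - x) * w x ^ 2) - (e + 2 * η) * M ≤
      2 * VE e (fun x => w x * (χ x * w x)) - VE e (fun x => (χ x * w x) ^ 2) := by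
  have hM0 : 0 ≤ M := (sq_nonneg _).trans (hM 0)
  unfold VE
  have i1 : Integrable (fun x => max (3 / 2 - x - 2 * e) 0 * (w x * (χ x * w x))) :=
    int97 (by fun_prop) (fun x hx => hs x (fun h => hx (by rw [h]; ring)))
  have i2 : Integrable (fun x => max (3 / 2 - x - 2 * e) 0 * (χ x * w x) ^ 2) :=
    int97 (by fun_prop) (fun x hx => hs x (fun h => hx (by rw [h]; ring)))
  have i3 : Integrable (fun x => (3 / 2 - x) * w x ^ 2) :=
    int97 (by fun_prop) (fun x hx => hs x (fun h => hx (by rw [h]; ring)))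
  have e1 : 2 * (∫ x in Ioi (1:ℝ), max (3 / 2 - x - 2 * e) 0 * (w x * (χ x * w x))) -
      ∫ x in Ioi (1:ℝ), max (3 / 2 - x - 2 * e) 0 * (χ x * w x) ^ 2 =
      ∫ x in Ioi (1:ℝ), (2 * (max (3 / 2 - x - 2 * e) 0 * (w x * (χ x * w x))) -
        max (3 / 2 - x - 2 * e) 0 * (χ x * w x) ^ 2) := by
    rw [integral_sub (i1.const_mul 2).integrableOn i2.integrableOn, integral_const_mul]
  have i4 : Integrable (fun x => 2 * (max (3 / 2 - x - 2 * e) 0 * (w x * (χ x * w x))) -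
      max (3 / 2 - x - 2 * e) 0 * (χ x * w x) ^ 2) :=
    (i1.const_mul 2).sub i2
  have hq : ∀ x, 2 * (max (3 / 2 - x - 2 * e) 0 * (w x * (χ x * w x))) -
      max (3 / 2 - x - 2 * e) 0 * (χ x * w x) ^ 2 =
      max (3 / 2 - x - 2 * e) 0 * w x ^ 2 - max (3 / 2 - x - 2 * e) 0 * w x ^ 2 * (1 - χ x) ^ 2 := by
    intro x
    ring
  have hm0 : ∀ x : ℝ, 0 ≤ max (3 / 2 - x - 2 * e) 0 := fun x => le_max_right _ _
  have e2 : ∫ x in Ioc (1:ℝ) (3 / 2), (2 * (max (3 / 2 - x - 2 * e) 0 * (w x * (χ x * w x))) -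
        max (3 / 2 - x - 2 * e) 0 * (χ x * w x) ^ 2) ≤
      ∫ x in Ioi (1:ℝ), (2 * (max (3 / 2 - x - 2 * e) 0 * (w x * (χ x * w x))) -
        max (3 / 2 - x - 2 * e) 0 * (χ x * w x) ^ 2) := by
    refine setIntegral_mono_set i4.integrableOn ?_ (HasSubset.Subset.eventuallyLE Ioc_subset_Ioi_self)
    refine Eventually.of_forall fun x => ?_
    show (0:ℝ) ≤ 2 * (max (3 / 2 - x - 2 * e) 0 * (w x * (χ x * w x))) -
        max (3 / 2 - x - 2 * e) 0 * (χ x * w x) ^ 2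
    rw [hq]
    have h2 : (1 - χ x) ^ 2 ≤ 1 := by nlinarith [h0 x, h1 x]
    nlinarith [mul_nonneg (hm0 x) (sq_nonneg (w x))]
  have e3 : (∫ x in (1:ℝ)..(3 / 2), (3 / 2 - x) * w x ^ 2) = ∫ x in Ioc (1:ℝ) (3 / 2), (3 / 2 - x) * w x ^ 2 :=
    intervalIntegral.integral_of_le (by norm_num)
  have hind : IntegrableOn (fun x : ℝ => indicator (Ioc (1:ℝ) (1 + 2 * η)) (fun _ => M) x) (Ioc (1:ℝ) (3 / 2)) := by
    refine Integrable.integrableOn ?_
    rw [integrable_indicator_iff measurableSet_Ioc]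
    exact con97 _ _ _
  have hcon : IntegrableOn (fun _ : ℝ => 2 * e * M) (Ioc (1:ℝ) (3 / 2)) :=
    con97 _ _ _
  have e4 : ∫ x in Ioc (1:ℝ) (3 / 2), indicator (Ioc (1:ℝ) (1 + 2 * η)) (fun _ => M) x = 2 * η * M := by
    rw [setIntegral_indicator measurableSet_Ioc]
    have : Ioc (1:ℝ) (3 / 2) ∩ Ioc (1:ℝ) (1 + 2 * η) = Ioc (1:ℝ) (1 + 2 * η) := by
      apply inter_eq_right.mpr
      exact Ioc_subset_Ioc_right (by linarith)
    rw [this, setIntegral_const]
    simp [Measure.real]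
    left
    linarith
  have hsum : IntegrableOn (fun x : ℝ => indicator (Ioc (1:ℝ) (1 + 2 * η)) (fun _ => M) x + 2 * e * M)
      (Ioc (1:ℝ) (3 / 2)) := hind.add hcon
  have e6 : ∫ x in Ioc (1:ℝ) (3 / 2), 2 * e * M = e * M := by
    rw [setIntegral_const]
    simp only [Measure.real, Real.volume_Ioc, smul_eq_mul]
    rw [ENNReal.toReal_ofReal (by norm_num)]
    ring
  have e5 : ∫ x in Ioc (1:ℝ) (3 / 2), ((3 / 2 - x) * w x ^ 2 - (indicator (Ioc (1:ℝ) (1 + 2 * η)) (fun _ => M) x + 2 * e * M)) ≤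
      ∫ x in Ioc (1:ℝ) (3 / 2), (2 * (max (3 / 2 - x - 2 * e) 0 * (w x * (χ x * w x))) -
        max (3 / 2 - x - 2 * e) 0 * (χ x * w x) ^ 2) := by
    refine setIntegral_mono_on (i3.integrableOn.sub hsum) i4.integrableOn measurableSet_Ioc fun x hx => ?_
    rw [hq]
    have hx0 : 1 < x := hx.1
    have hx3 : x ≤ 3 / 2 := hx.2
    have hm1 : 3 / 2 - x - 2 * e ≤ max (3 / 2 - x - 2 * e) 0 := le_max_left _ _
    have hm2 : max (3 / 2 - x - 2 * e) 0 ≤ 1 / 2 := max_le (by linarith) (by norm_num)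
    have hm3 := hm0 x
    generalize max (3 / 2 - x - 2 * e) 0 = m at hm1 hm2 hm3 ⊢
    have h5 : (3 / 2 - x) * w x ^ 2 ≤ m * w x ^ 2 + 2 * e * M := by
      have : (3 / 2 - x) * w x ^ 2 ≤ (m + 2 * e) * w x ^ 2 := mul_le_mul_of_nonneg_right (by linarith) (sq_nonneg _)
      have h6 : 2 * e * w x ^ 2 ≤ 2 * e * M := mul_le_mul_of_nonneg_left (hM x) (by linarith)
      linarith
    by_cases hx1 : 1 + 2 * η < x
    · rw [hχ1 x hx1.le, indicator_of_notMem (fun h => absurd h.2 (not_le.mpr hx1))]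
      simp only [sub_self, ne_eq, OfNat.ofNat_ne_zero, not_false_eq_true, zero_pow, mul_zero, sub_zero, zero_add]
      linarith
    · rw [indicator_of_mem (show x ∈ Ioc (1:ℝ) (1 + 2 * η) from ⟨hx0, not_lt.mp hx1⟩)]
      have h2 : (1 - χ x) ^ 2 ≤ 1 := by nlinarith [h0 x, h1 x]
      have h3 : m * w x ^ 2 ≤ M := by nlinarith [hM x, sq_nonneg (w x)]
      have h4 : m * w x ^ 2 * (1 - χ x) ^ 2 ≤ M := by
        calc m * w x ^ 2 * (1 - χ x) ^ 2 ≤ m * w x ^ 2 * 1 :=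
              mul_le_mul_of_nonneg_left h2 (mul_nonneg hm3 (sq_nonneg _))
          _ ≤ M := by linarith
      linarith
  rw [integral_sub i3.integrableOn hsum, integral_add hind hcon, e4, e6] at e5
  rw [e1, e3]
  linarith

theorem cut {w : ℝ → ℝ} {a b : ℝ} (hw : WR w a b) (hb : b < 3 / 2) {ε : ℝ} (hε : 0 < ε) :
    ∃ (w0 v : ℝ → ℝ) (a0 b0 a' b' e : ℝ), WR w0 a0 b0 ∧ b0 < 1 ∧ WR v a' b' ∧ 1 < a' ∧ b' < 3 / 2 ∧ 0 < e ∧ e < 1 / 4 ∧
      VV w - ε ≤ 2 * (∫ x in Ioi (0:ℝ), x * (w x * w0 x)) + 2 * VE e (fun x => w x * v x) -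
        (∫ x in Ioi (0:ℝ), x * (w0 x * w0 x)) - VE e (fun x => v x ^ 2) := by
  obtain ⟨hws, ha, hab, hsupp⟩ := hw
  have hwc : Continuous w := hws.continuous
  have hcs : HasCompactSupport w := HasCompactSupport.intro (isCompact_Icc (a := a) (b := b)) (fun x hx => by
    by_contra h
    exact hx (hsupp x h))
  obtain ⟨C, hC⟩ := hcs.exists_bound_of_continuous hwc
  have hM : ∀ x, w x ^ 2 ≤ C ^ 2 + 1 := by
    intro x
    have h1 := hC x
    rw [Real.norm_eq_abs] at h1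
    have h2 : |w x| ^ 2 ≤ C ^ 2 := pow_le_pow_left₀ (abs_nonneg _) h1 2
    rw [sq_abs] at h2
    linarith
  set M : ℝ := C ^ 2 + 1 with hMdef
  have hMpos : 0 < M := by positivity
  set η : ℝ := min (1 / 8) (ε / (5 * M)) with hηdef
  have hη : 0 < η := lt_min (by norm_num) (by positivity)
  have hη8 : η ≤ 1 / 8 := min_le_left _ _
  have hηε : 5 * η * M ≤ ε := by
    have h1 : η ≤ ε / (5 * M) := min_le_right _ _
    rw [le_div_iff₀ (by positivity)] at h1
    linarith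
  set χ0 : ℝ → ℝ := fun x => Real.smoothTransition ((1 - η - x) / η) with hχ0
  set χ1 : ℝ → ℝ := fun x => Real.smoothTransition ((x - 1 - η) / η) with hχ1
  have s0 : ContDiff ℝ ∞ χ0 := by
    refine Real.smoothTransition.contDiff.comp ?_
    exact (contDiff_const.sub contDiff_id).div_const _
  have s1 : ContDiff ℝ ∞ χ1 := by
    refine Real.smoothTransition.contDiff.comp ?_
    exact ((contDiff_id.sub contDiff_const).sub contDiff_const).div_const _
  refine ⟨fun x => χ0 x * w x, fun x => χ1 x * w x, min a (1 - η), 1 - η, 1 + η, max b (1 + η), η,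
    ⟨s0.mul hws, lt_min ha (by linarith), min_le_right _ _, ?_⟩, by linarith,
    ⟨s1.mul hws, by linarith, le_max_right _ _, ?_⟩, by linarith, max_lt hb (by linarith), hη, by linarith, ?_⟩
  · intro x hx
    refine ⟨(min_le_left _ _).trans (hsupp x (right_ne_zero_of_mul hx)).1, ?_⟩
    by_contra h
    apply left_ne_zero_of_mul hx
    exact Real.smoothTransition.zero_of_nonpos (div_nonpos_of_nonpos_of_nonneg (by linarith) hη.le)
  · intro x hx
    refine ⟨?_, (hsupp x (right_ne_zero_of_mul hx)).2.trans (le_max_left _ _)⟩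
    by_contra h
    apply left_ne_zero_of_mul hx
    exact Real.smoothTransition.zero_of_nonpos (div_nonpos_of_nonpos_of_nonneg (by linarith) hη.le)
  · have h1 := A97 hwc hsupp s0.continuous (fun x => Real.smoothTransition.nonneg _)
      (fun x => Real.smoothTransition.le_one _) hη (by linarith) (fun x hx =>
        Real.smoothTransition.one_of_one_le (by rw [le_div_iff₀ hη]; linarith)) hM
    have h2 := B97 hwc hsupp s1.continuous (fun x => Real.smoothTransition.nonneg _)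
      (fun x => Real.smoothTransition.le_one _) hη (by linarith) hη (fun x hx =>
        Real.smoothTransition.one_of_one_le (by rw [le_div_iff₀ hη]; linarith)) hM
    unfold VV
    linarith

end Pool.Agent.Helper69.FF
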