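import Pool.Agent.Helper69.FF.KDefs

/-!
# FF-KSup: the support of the weight FW

`FW(r,a,n) = w(log n/L) v(1 + log(r/a)/L) ψ(2π a n/(rT))`, `ψ(u) = g.h(u - 1/2)` vanishes unless `|u - 1/2| < g.th < 1/2`. So on the support:
`v ≠ 0` gives `1 < a' ≤ 1 + log(r/a)/L ≤ b'`: `a < r` and `r ≤ a T^(b'-1)`; `w ≠ 0` gives `n ≤ T^b < T^(3/2)`; `ψ ≠ 0` gives
`c r T ≤ a n ≤ r T` with `c = (1/2 - g.th)/(2π)`. Boundedness: `w, v, g.h` are continuous with compact support (`|g.h|`: `TF.smooth`, `TF.supp`).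
-/

open MeasureTheory Set Filter Topology
open Pool.Agent.Helper57.Zeta Pool.Agent.Helper57.PC Pool.Agent.Helper57.LH Pool.Agent.Helper78.SG
open Pool.Agent.Helper4.SH (om)
open scoped ContDiff

namespace Pool.Agent.Helper69.FF

private lemma bdd15 {f : ℝ → ℝ} (hf : Continuous f) {c : ℝ} (hs : ∀ x, c ≤ |x| → f x = 0) :
    ∃ C : ℝ, 0 < C ∧ ∀ x, |f x| ≤ C := by
  have hcs : HasCompactSupport f := by
    refine HasCompactSupport.intro (isCompact_Icc (a := -c) (b := c)) ?_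
    intro x hx
    refine hs x ?_
    by_contra h
    rw [not_le, abs_lt] at h
    exact hx ⟨h.1.le, h.2.le⟩
  obtain ⟨C, hC⟩ := hcs.exists_bound_of_continuous hf
  refine ⟨|C| + 1, by positivity, fun x => ?_⟩
  have h1 := hC x
  rw [Real.norm_eq_abs] at h1
  have h2 := le_abs_self C
  linarith

private lemma bddWR15 {w : ℝ → ℝ} {a b : ℝ} (hw : WR w a b) : ∃ C : ℝ, 0 < C ∧ ∀ x, |w x| ≤ C := by
  obtain ⟨h1, h2, h3, h4⟩ := hw
  refine bdd15 h1.continuous (c := b + 1) ?_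
  intro x hx
  by_contra h0
  obtain ⟨h5, h6⟩ := h4 x h0
  rw [abs_of_pos (h2.trans_le h5)] at hx
  linarith

theorem fw_bound (g : TF) {w v : ℝ → ℝ} {a b a' b' : ℝ} (hw : WR w a b) (hv : WR v a' b') :
    ∃ C : ℝ, 0 < C ∧ ∀ (T : ℝ) (x : ℕ × ℕ) (n : ℕ), |FW g w v T x n| ≤ C := by
  obtain ⟨A, hA0, hA⟩ := bddWR15 hw
  obtain ⟨B, hB0, hB⟩ := bddWR15 hv
  obtain ⟨H, hH0, hH⟩ := bdd15 (f := g.h) g.smooth.continuous g.supp
  refine ⟨A * B * H, by positivity, fun T x n => ?_⟩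
  unfold FW
  rw [abs_mul, abs_mul]
  exact mul_le_mul (mul_le_mul (hA _) (hB _) (abs_nonneg _) hA0.le) (hH _) (abs_nonneg _) (by positivity)

theorem fw_supp (g : TF) {w v : ℝ → ℝ} {a b a' b' : ℝ} (hw : WR w a b) (hb : b < 3 / 2)
    (hv : WR v a' b') (ha' : 1 < a') :
    ∃ c : ℝ, 0 < c ∧ ∀ T : ℝ, 1 < T → ∀ r m n : ℕ, 1 ≤ r → 1 ≤ m → FW g w v T (r, m) n ≠ 0 →
      m < r ∧ (r : ℝ) ≤ m * T ^ (b' - 1) ∧ (n : ℝ) < T ^ (3 / 2 : ℝ) ∧ c * (r * T) ≤ m * n ∧ (m : ℝ) * n ≤ r * T := by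
  have hπ := Real.pi_gt_three
  have hth := g.th1
  obtain ⟨c, hc⟩ : ∃ c : ℝ, c = (1 / 2 - g.th) / (2 * Real.pi) := ⟨_, rfl⟩
  have hc0 : 0 < c := by
    rw [hc]
    exact div_pos (by linarith) (by linarith)
  refine ⟨c, hc0, fun T hT r m n hr hm h0 => ?_⟩
  have hL : 0 < Real.log T := Real.log_pos hT
  have hT0 : 0 < T := by linarith
  have hr' : (0 : ℝ) < r := by exact_mod_cast hr
  have hm' : (0 : ℝ) < m := by exact_mod_cast hm
  unfold FW at h0
  have h1 : w (Real.log n / Real.log T) ≠ 0 := fun h => h0 (by rw [h]; ring)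
  have h2 : v (lr T (r, m)) ≠ 0 := fun h => h0 (by rw [h]; ring)
  have h3 : g.h (2 * Real.pi * (((r, m).2 : ℝ) * n / (r, m).1) / T - 1 / 2) ≠ 0 := fun h => h0 (by rw [h]; ring)
  have h4 := (hw.2.2.2 _ h1).1
  have h5 := (hw.2.2.2 _ h1).2
  have h6 := (hv.2.2.2 _ h2).1
  have h7 := (hv.2.2.2 _ h2).2
  unfold lr at h6 h7
  simp only at h6 h7 h3
  have hn : (0 : ℝ) < n := by
    rcases Nat.eq_zero_or_pos n with hn | hn
    · rw [hn, Nat.cast_zero, Real.log_zero, zero_div] at h4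
      exact absurd hw.2.1 (not_lt.2 h4)
    · exact_mod_cast hn
  have h8 : |2 * Real.pi * ((m : ℝ) * n / r) / T - 1 / 2| < g.th := by
    by_contra h
    exact h3 (g.supp _ (not_lt.1 h))
  rw [abs_lt] at h8
  have e1 : 2 * Real.pi * ((m : ℝ) * n / r) / T = 2 * Real.pi * ((m : ℝ) * n) / (r * T) := by
    field_simp
  rw [e1] at h8
  have hrT : (0 : ℝ) < r * T := mul_pos hr' hT0
  refine ⟨?_, ?_, ?_, ?_, ?_⟩
  · have h9 : 0 < (Real.log r - Real.log m) / Real.log T := by linarith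
    have h10 : 0 < Real.log r - Real.log m := by
      by_contra h
      exact absurd h9 (not_lt.2 (div_nonpos_of_nonpos_of_nonneg (not_lt.1 h) hL.le))
    have h11 : Real.log m < Real.log r := by linarith
    exact_mod_cast (Real.log_lt_log_iff hm' hr').1 h11
  · have h9 : (Real.log r - Real.log m) / Real.log T ≤ b' - 1 := by linarith
    rw [div_le_iff₀ hL] at h9
    rw [← Real.log_le_log_iff hr' (mul_pos hm' (Real.rpow_pos_of_pos hT0 _)),
      Real.log_mul hm'.ne' (Real.rpow_pos_of_pos hT0 _).ne', Real.log_rpow hT0]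
    linarith
  · rw [div_le_iff₀ hL] at h5
    rw [← Real.log_lt_log_iff hn (Real.rpow_pos_of_pos hT0 _), Real.log_rpow hT0]
    have h9 : b * Real.log T < 3 / 2 * Real.log T := mul_lt_mul_of_pos_right hb hL
    linarith
  · have h9 : 1 / 2 - g.th < 2 * Real.pi * ((m : ℝ) * n) / (r * T) := by linarith [h8.1]
    rw [lt_div_iff₀ hrT] at h9
    have h10 : c * (r * T) = (1 / 2 - g.th) * (r * T) / (2 * Real.pi) := by
      rw [hc]
      ring
    rw [h10, div_le_iff₀ (by linarith)]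
    linarith
  · have h9 : 2 * Real.pi * ((m : ℝ) * n) / (r * T) < 1 := by linarith [h8.2]
    rw [div_lt_one hrT] at h9
    have h10 : 0 < (m : ℝ) * n := mul_pos hm' hn
    nlinarith

end Pool.Agent.Helper69.FF
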