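import Pool.Agent.Helper69.FF.KDefs
import Pool.Agent.Helper69.FF.DivS

/-!
# FF-KLC: the large sieve core

Write `R = 2^jr`, `Q = 2^jq`, `A = 2^ja`, `M = 2^jm`, `K = 2^jk`. If `r ∈ DB jr`, `q ∣ r`, `q ∈ DB jq`, then `r = q s` with `s ≤ 2R/Q`. Fix `s` (`≤ 2R/Q` of them; none if `Q > 2R`).
`φ(r)⁻² ≤ (τ(r)/r)² ≤ C R^ε/R²` (FF.DivS), `√q ≤ √(2Q)`. `(l, q s) = 1` iff `(l, q) = 1` and `(l, s) = 1`, and `χ(l) = 0` if `(l, q) > 1`, so the `l`-sum is `∑_{(l,s)=1} γ(l) χ(l)`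
(independent of `q`). Join it to the `k`-sum: `∑_n b(n) χ(n)`, `n ∈ [A K, 4 A K)`, `|b(n)| ≤ B τ(n) ≤ C B (4AK)^ε`. `Helper93.MLS.mls_bilinear` with `Q → 2Q` gives
`∑_{q ≤ 2Q} ∑_χ ‖..‖ ≤ 4 √((4Q²+M)(4Q²+3AK)) · B √M · C B (4AK)^ε √(3AK)`. Total `≤ (2R/Q) · C R^ε R⁻² √(2Q) · C B² (4AK)^ε √((Q²+M)(Q²+AK)) √(M A K)`.
(`XB` is symmetric in `(α, jm) ↔ (β, jk)`: `xb_symm`.)
-/

open MeasureTheory Set Filter Topology
open Pool.Agent.Helper57.Zeta Pool.Agent.Helper57.PC Pool.Agent.Helper57.LH Pool.Agent.Helper78.SG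
open Pool.Agent.Helper4.SH (om)
open scoped ContDiff

namespace Pool.Agent.Helper69.FF

private noncomputable def bn (γ β : ℕ → ℂ) (ja jk s n : ℕ) : ℂ :=
  ∑ x ∈ n.divisorsAntidiagonal, if (x.1 ∈ DB ja ∧ Nat.Coprime x.1 s) ∧ x.2 ∈ DB jk then γ x.1 * β x.2 else 0

private lemma h93_join (γ β : ℕ → ℂ) (ja jk s : ℕ) {q : ℕ} (χ : DirichletCharacter ℂ q) :
    (∑ a ∈ (DB ja).filter (fun a => Nat.Coprime a s), γ a * χ a) * (∑ k ∈ DB jk, β k * χ k) =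
      ∑ n ∈ Finset.Ioc (2 ^ ja * 2 ^ jk - 1) (2 ^ ja * 2 ^ jk - 1 + 3 * (2 ^ ja * 2 ^ jk)), bn γ β ja jk s n * χ n := by
  rw [Finset.sum_mul_sum, ← Finset.sum_product']
  have hmaps : ∀ x ∈ (DB ja).filter (fun a => Nat.Coprime a s) ×ˢ DB jk,
      x.1 * x.2 ∈ Finset.Ioc (2 ^ ja * 2 ^ jk - 1) (2 ^ ja * 2 ^ jk - 1 + 3 * (2 ^ ja * 2 ^ jk)) := by
    intro x hx
    rw [Finset.mem_product, Finset.mem_filter] at hx
    obtain ⟨⟨h1, -⟩, h2⟩ := hx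
    unfold DB at h1 h2
    rw [Finset.mem_Ico] at h1 h2
    rw [Finset.mem_Ioc]
    have g1 : 2 ^ ja * 2 ^ jk ≤ x.1 * x.2 := Nat.mul_le_mul h1.1 h2.1
    have g2 : x.1 * x.2 < 2 ^ (ja + 1) * 2 ^ (jk + 1) := Nat.mul_lt_mul'' h1.2 h2.2
    have g3 : 2 ^ (ja + 1) * 2 ^ (jk + 1) = 4 * (2 ^ ja * 2 ^ jk) := by ring
    have g4 : 0 < 2 ^ ja * 2 ^ jk := by positivity
    omega
  rw [← Finset.sum_fiberwise_of_maps_to hmaps]
  refine Finset.sum_congr rfl fun n hn => ?_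
  have hn0 : n ≠ 0 := by
    rw [Finset.mem_Ioc] at hn
    omega
  have h3 : ((DB ja).filter (fun a => Nat.Coprime a s) ×ˢ DB jk).filter (fun x => x.1 * x.2 = n) =
      n.divisorsAntidiagonal.filter (fun x => (x.1 ∈ DB ja ∧ Nat.Coprime x.1 s) ∧ x.2 ∈ DB jk) := by
    ext x
    simp only [Finset.mem_filter, Finset.mem_product, Nat.mem_divisorsAntidiagonal]
    tauto
  rw [h3, Finset.sum_filter]
  unfold bn
  rw [Finset.sum_mul]
  refine Finset.sum_congr rfl fun x hx => ?_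
  split_ifs
  · have h4 : (n : ZMod q) = (x.1 : ZMod q) * (x.2 : ZMod q) := by
      rw [← (Nat.mem_divisorsAntidiagonal.1 hx).1]
      push_cast
      rfl
    rw [h4, map_mul]
    ring
  · rw [zero_mul]

private lemma h93_bn_le {γ β : ℕ → ℂ} {ja jk : ℕ} {B : ℝ} (hB : 0 ≤ B) (hγ : ∀ l ∈ DB ja, ‖γ l‖ ≤ 1) (hβ : ∀ k ∈ DB jk, ‖β k‖ ≤ B)
    (s n : ℕ) : ‖bn γ β ja jk s n‖ ≤ B * n.divisors.card := by
  unfold bn
  refine (norm_sum_le _ _).trans ?_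
  have h1 : ∀ x ∈ n.divisorsAntidiagonal, ‖(if (x.1 ∈ DB ja ∧ Nat.Coprime x.1 s) ∧ x.2 ∈ DB jk then γ x.1 * β x.2 else 0 : ℂ)‖ ≤ B := by
    intro x _
    split_ifs with h
    · rw [norm_mul]
      calc ‖γ x.1‖ * ‖β x.2‖ ≤ 1 * B := mul_le_mul (hγ _ h.1.1) (hβ _ h.2) (norm_nonneg _) zero_le_one
        _ = B := one_mul B
    · rw [norm_zero]; exact hB
  refine (Finset.sum_le_sum h1).trans ?_
  rw [Finset.sum_const, nsmul_eq_mul]
  have h2 : n.divisorsAntidiagonal.card = n.divisors.card := by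
    rw [← Nat.map_div_right_divisors, Finset.card_map]
  rw [h2, mul_comm]

private lemma h93_DB_Ioc (j : ℕ) : DB j = Finset.Ioc (2 ^ j - 1) (2 ^ j - 1 + 2 ^ j) := by
  ext m
  unfold DB
  rw [Finset.mem_Ico, Finset.mem_Ioc]
  have h1 : 0 < 2 ^ j := by positivity
  have h2 : 2 ^ (j + 1) = 2 * 2 ^ j := by ring
  omega

private lemma h93_coprime {q s a : ℕ} (χ : DirichletCharacter ℂ q) (γ : ℂ) :
    (if Nat.Coprime a (q * s) then γ * χ a else 0) = if Nat.Coprime a s then γ * χ a else 0 := by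
  by_cases h1 : Nat.Coprime a q
  · by_cases h2 : Nat.Coprime a s
    · rw [if_pos (Nat.Coprime.mul_right h1 h2), if_pos h2]
    · rw [if_neg h2, if_neg (fun h => h2 (Nat.Coprime.coprime_mul_left_right h))]
  · have h3 : χ a = 0 := by
      apply MulChar.map_nonunit
      rw [ZMod.isUnit_iff_coprime]
      exact h1
    rw [h3]
    simp

private lemma h93_sum_coprime {q s ja : ℕ} (χ : DirichletCharacter ℂ q) (γ : ℕ → ℂ) :
    ∑ a ∈ (DB ja).filter (fun a => Nat.Coprime a (q * s)), γ a * χ a = ∑ a ∈ (DB ja).filter (fun a => Nat.Coprime a s), γ a * χ a := by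
  rw [Finset.sum_filter, Finset.sum_filter]
  exact Finset.sum_congr rfl fun a _ => h93_coprime χ (γ a)

theorem klc {ε : ℝ} (hε : 0 < ε) : ∃ C : ℝ, 0 < C ∧ ∀ (jr jq ja jm jk : ℕ) (γ α β : ℕ → ℂ) (B : ℝ),
    (∀ l ∈ DB ja, ‖γ l‖ ≤ 1) → (∀ m ∈ DB jm, ‖α m‖ ≤ B) → (∀ k ∈ DB jk, ‖β k‖ ≤ B) →
    XB γ α β jr jq ja jm jk ≤ C * B ^ 2 * ((2:ℝ) ^ (jr + ja + jk)) ^ ε * (((2:ℝ) ^ jr)⁻¹ * (Real.sqrt (2 ^ jq))⁻¹ *
      (Real.sqrt (((2 ^ jq) ^ 2 + 2 ^ jm) * ((2 ^ jq) ^ 2 + 2 ^ ja * 2 ^ jk)) * Real.sqrt (2 ^ jm * 2 ^ ja * 2 ^ jk))) := by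
  classical
  obtain ⟨C1, hC1, hd1⟩ := div_bound (ε := ε / 2) (by positivity)
  obtain ⟨C2, hC2, hd2⟩ := div_bound (ε := ε) hε
  refine ⟨2 * (C1 ^ 2 * 2 ^ ε) * Real.sqrt 2 * (4 * (4 * (Real.sqrt 3 * (C2 * 4 ^ ε)))), by positivity, ?_⟩
  intro jr jq ja jm jk γ α β B hγ hα hβ
  have hB : 0 ≤ B := by
    have h1 : 2 ^ jk ∈ DB jk := by
      unfold DB
      rw [Finset.mem_Ico]
      exact ⟨le_rfl, Nat.pow_lt_pow_right (by norm_num) (Nat.lt_succ_self _)⟩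
    exact (norm_nonneg _).trans (hβ _ h1)
  set R : ℝ := (2:ℝ) ^ jr with hR
  set Q : ℝ := (2:ℝ) ^ jq with hQ
  set A : ℝ := (2:ℝ) ^ ja with hA
  set M : ℝ := (2:ℝ) ^ jm with hM
  set K : ℝ := (2:ℝ) ^ jk with hK
  have hR0 : 0 < R := by positivity
  have hQ0 : 0 < Q := by positivity
  have hA0 : 0 < A := by positivity
  have hM0 : 0 < M := by positivity
  have hK0 : 0 < K := by positivity
  set cR : ℝ := C1 ^ 2 * 2 ^ ε * R ^ ε / R ^ 2 with hcR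
  have hcR0 : 0 ≤ cR := by positivity
  set G : ℕ → ℕ → ℝ := fun s q => Real.sqrt (2 * Q) * ∑ χ ∈ PR q, ‖(∑ a ∈ (DB ja).filter (fun a => Nat.Coprime a s), γ a * χ a) *
      (∑ m ∈ DB jm, α m * χ m) * (∑ k ∈ DB jk, β k * χ k)‖ with hG
  have hG0 : ∀ s q, 0 ≤ G s q := fun s q => mul_nonneg (Real.sqrt_nonneg _) (Finset.sum_nonneg fun _ _ => norm_nonneg _)
  -- step 1: the weights
  have h1 : XB γ α β jr jq ja jm jk ≤ ∑ r ∈ (DB jr).filter Squarefree, ∑ q ∈ r.divisors.filter (fun q : ℕ => q ∈ DB jq), cR * G (r / q) q := by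
    unfold XB
    refine Finset.sum_le_sum fun r hr => ?_
    rw [Finset.mul_sum]
    refine Finset.sum_le_sum fun q hq => ?_
    rw [Finset.mem_filter] at hr hq
    obtain ⟨hr1, hrs⟩ := hr
    obtain ⟨hq1, hq2⟩ := hq
    unfold DB at hr1 hq2
    rw [Finset.mem_Ico] at hr1 hq2
    have hqr : q ∣ r := Nat.dvd_of_mem_divisors hq1
    have hrne : r ≠ 0 := by
      have : 0 < 2 ^ jr := by positivity
      omega
    have hrR : R ≤ (r : ℝ) := by rw [hR]; exact_mod_cast hr1.1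
    have hrR2 : (r : ℝ) ≤ 2 * R := by
      have : (r : ℝ) ≤ ((2 ^ (jr + 1) : ℕ) : ℝ) := by exact_mod_cast hr1.2.le
      refine this.trans (le_of_eq ?_)
      rw [hR]; push_cast; ring
    have hr0 : (0 : ℝ) < r := by linarith
    have hφ : (0 : ℝ) < (Nat.totient r : ℝ) := by exact_mod_cast Nat.totient_pos.2 (Nat.pos_of_ne_zero hrne)
    have e1 : 1 / (Nat.totient r : ℝ) ^ 2 ≤ cR := by
      have f1 := tot_ge hrs
      have f2 := hd1 r hrne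
      have f3 : (r : ℝ) ≤ C1 * (r : ℝ) ^ (ε / 2) * (Nat.totient r : ℝ) := f1.trans (by gcongr)
      have f4 : (r : ℝ) ^ (ε / 2) ≤ (2 * R) ^ (ε / 2) := Real.rpow_le_rpow hr0.le hrR2 (by positivity)
      have f5 : R ≤ C1 * (2 * R) ^ (ε / 2) * (Nat.totient r : ℝ) := hrR.trans (f3.trans (by gcongr))
      have f6 : R ^ 2 ≤ (C1 * (2 * R) ^ (ε / 2) * (Nat.totient r : ℝ)) ^ 2 := by gcongr
      have f7 : ((2 * R) ^ (ε / 2)) ^ 2 = 2 ^ ε * R ^ ε := by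
        rw [← Real.rpow_natCast ((2 * R) ^ (ε / 2)) 2, ← Real.rpow_mul (by positivity), Real.mul_rpow (by norm_num) hR0.le]
        congr 1 <;> congr 1 <;> push_cast <;> ring
      rw [hcR, div_le_div_iff₀ (by positivity) (by positivity), one_mul]
      calc R ^ 2 ≤ (C1 * (2 * R) ^ (ε / 2) * (Nat.totient r : ℝ)) ^ 2 := f6
        _ = C1 ^ 2 * ((2 * R) ^ (ε / 2)) ^ 2 * (Nat.totient r : ℝ) ^ 2 := by ring
        _ = C1 ^ 2 * 2 ^ ε * R ^ ε * (Nat.totient r : ℝ) ^ 2 := by rw [f7]; ring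
    have e2 : Real.sqrt q ≤ Real.sqrt (2 * Q) := by
      apply Real.sqrt_le_sqrt
      have : (q : ℝ) ≤ ((2 ^ (jq + 1) : ℕ) : ℝ) := by exact_mod_cast hq2.2.le
      refine this.trans (le_of_eq ?_)
      rw [hQ]; push_cast; ring
    have e3 : ∑ χ ∈ PR q, ‖(∑ a ∈ (DB ja).filter (fun a => Nat.Coprime a r), γ a * χ a) *
        (∑ m ∈ DB jm, α m * χ m) * (∑ k ∈ DB jk, β k * χ k)‖ = ∑ χ ∈ PR q, ‖(∑ a ∈ (DB ja).filter (fun a => Nat.Coprime a (r / q)), γ a * χ a) *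
        (∑ m ∈ DB jm, α m * χ m) * (∑ k ∈ DB jk, β k * χ k)‖ := by
      refine Finset.sum_congr rfl fun χ _ => ?_
      rw [← h93_sum_coprime (q := q) (s := r / q) χ γ, Nat.mul_div_cancel' hqr]
    rw [e3, hG]
    simp only
    have e4 : 0 ≤ ∑ χ ∈ PR q, ‖(∑ a ∈ (DB ja).filter (fun a => Nat.Coprime a (r / q)), γ a * χ a) *
        (∑ m ∈ DB jm, α m * χ m) * (∑ k ∈ DB jk, β k * χ k)‖ := Finset.sum_nonneg fun _ _ => norm_nonneg _
    gcongr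
  -- step 2: regroup by s = r / q
  set S0 : ℕ := 2 ^ (jr + 1) / 2 ^ jq with hS0
  have hS0' : (S0 : ℝ) ≤ 2 * R / Q := by
    rw [hS0]
    refine Nat.cast_div_le.trans (le_of_eq ?_)
    rw [hR, hQ]; push_cast; ring
  have h2 : ∑ r ∈ (DB jr).filter Squarefree, ∑ q ∈ r.divisors.filter (fun q : ℕ => q ∈ DB jq), cR * G (r / q) q ≤
      cR * ∑ s ∈ Finset.Icc 1 S0, ∑ q ∈ Finset.Icc 1 (2 ^ (jq + 1)), G s q := by
    rw [Finset.sum_sigma']
    set g : (Σ _ : ℕ, ℕ) → ℕ × ℕ := fun p => (p.1 / p.2, p.2) with hg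
    have hinj : Set.InjOn g (((DB jr).filter Squarefree).sigma fun r => r.divisors.filter (fun q : ℕ => q ∈ DB jq) : Set (Σ _ : ℕ, ℕ)) := by
      intro p hp p' hp' h
      simp only [Finset.coe_sigma, Set.mem_sigma_iff, Finset.mem_coe, Finset.mem_filter] at hp hp'
      have d1 := Nat.dvd_of_mem_divisors hp.2.1
      have d2 := Nat.dvd_of_mem_divisors hp'.2.1
      simp only [hg, Prod.mk.injEq] at h
      have e1 : p.1 = p'.1 := by
        rw [← Nat.mul_div_cancel' d1, ← Nat.mul_div_cancel' d2, h.1, h.2]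
      obtain ⟨p1, p2⟩ := p
      obtain ⟨p1', p2'⟩ := p'
      simp only at e1 h
      rw [e1, h.2]
    have e1 : ∑ p ∈ ((DB jr).filter Squarefree).sigma fun r => r.divisors.filter (fun q : ℕ => q ∈ DB jq), cR * G (p.1 / p.2) p.2 =
        ∑ y ∈ (((DB jr).filter Squarefree).sigma fun r => r.divisors.filter (fun q : ℕ => q ∈ DB jq)).image g, cR * G y.1 y.2 := by
      rw [Finset.sum_image hinj]
    rw [e1, Finset.mul_sum]
    simp only [Finset.mul_sum]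
    rw [← Finset.sum_product' (Finset.Icc 1 S0) (Finset.Icc 1 (2 ^ (jq + 1))) (fun s q => cR * G s q)]
    apply Finset.sum_le_sum_of_subset_of_nonneg
    · intro y hy
      obtain ⟨p, hp, rfl⟩ := Finset.mem_image.1 hy
      simp only [Finset.mem_sigma, Finset.mem_filter] at hp
      obtain ⟨⟨hr1, hrs⟩, hq1, hq2⟩ := hp
      unfold DB at hr1 hq2
      rw [Finset.mem_Ico] at hr1 hq2
      have hqr : p.2 ∣ p.1 := Nat.dvd_of_mem_divisors hq1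
      have hp2 : 0 < p.2 := lt_of_lt_of_le (by positivity) hq2.1
      have hp1 : 0 < p.1 := lt_of_lt_of_le (by positivity) hr1.1
      simp only [hg, Finset.mem_product, Finset.mem_Icc]
      refine ⟨⟨Nat.div_pos (Nat.le_of_dvd hp1 hqr) hp2, ?_⟩, hp2, hq2.2.le⟩
      rw [hS0]
      exact Nat.div_le_div hr1.2.le hq2.1 (by positivity)
    · intro y _ _
      exact mul_nonneg hcR0 (hG0 _ _)
  -- step 3: the large sieve
  have h3 : ∀ s ∈ Finset.Icc 1 S0, ∑ q ∈ Finset.Icc 1 (2 ^ (jq + 1)), G s q ≤ Real.sqrt (2 * Q) *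
      (4 * (4 * Real.sqrt ((Q ^ 2 + M) * (Q ^ 2 + A * K))) * (Real.sqrt M * B * (Real.sqrt (3 * (A * K)) * (B * (C2 * (4 * (A * K)) ^ ε))))) := by
    intro s _
    rw [hG]
    simp only
    rw [← Finset.mul_sum]
    refine mul_le_mul_of_nonneg_left ?_ (Real.sqrt_nonneg _)
    have hb := Pool.Agent.Helper93.MLS.mls_bilinear (2 ^ (jq + 1)) (2 ^ jm - 1) (2 ^ jm) (2 ^ ja * 2 ^ jk - 1) (3 * (2 ^ ja * 2 ^ jk)) α
      (bn γ β ja jk s)
    have e0 : ∑ q ∈ Finset.Icc 1 (2 ^ (jq + 1)), ∑ χ ∈ PR q, ‖(∑ a ∈ (DB ja).filter (fun a => Nat.Coprime a s), γ a * χ a) *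
        (∑ m ∈ DB jm, α m * χ m) * (∑ k ∈ DB jk, β k * χ k)‖ =
        ∑ q ∈ Finset.Icc 1 (2 ^ (jq + 1)), ∑ χ ∈ (Finset.univ : Finset (DirichletCharacter ℂ q)).filter (fun χ => χ.IsPrimitive),
        ‖(∑ n ∈ Finset.Ioc (2 ^ jm - 1) (2 ^ jm - 1 + 2 ^ jm), α n * χ n) *
          (∑ n ∈ Finset.Ioc (2 ^ ja * 2 ^ jk - 1) (2 ^ ja * 2 ^ jk - 1 + 3 * (2 ^ ja * 2 ^ jk)), bn γ β ja jk s n * χ n)‖ := by
      refine Finset.sum_congr rfl fun q _ => ?_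
      unfold PR
      refine Finset.sum_congr ?_ fun χ _ => ?_
      · congr 1
      · rw [← h93_join, ← h93_DB_Ioc]
        congr 1
        ring
    rw [e0]
    refine hb.trans ?_
    have c1 : (((2 ^ (jq + 1) : ℕ)) : ℝ) = 2 * Q := by rw [hQ]; push_cast; ring
    have c2 : ((2 ^ jm : ℕ) : ℝ) = M := by rw [hM]; push_cast; ring
    have c3 : ((3 * (2 ^ ja * 2 ^ jk) : ℕ) : ℝ) = 3 * (A * K) := by rw [hA, hK]; push_cast; ring
    rw [c1, c2, c3]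
    have s1 : Real.sqrt (((2 * Q) ^ 2 + M) * ((2 * Q) ^ 2 + 3 * (A * K))) ≤ 4 * Real.sqrt ((Q ^ 2 + M) * (Q ^ 2 + A * K)) := by
      have : (4:ℝ) = Real.sqrt (4 ^ 2) := by rw [Real.sqrt_sq (by norm_num)]
      rw [this, ← Real.sqrt_mul (by positivity)]
      apply Real.sqrt_le_sqrt
      have i1 : (2 * Q) ^ 2 + M ≤ 4 * (Q ^ 2 + M) := by nlinarith
      have i2 : (2 * Q) ^ 2 + 3 * (A * K) ≤ 4 * (Q ^ 2 + A * K) := by nlinarith [mul_pos hA0 hK0]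
      calc ((2 * Q) ^ 2 + M) * ((2 * Q) ^ 2 + 3 * (A * K)) ≤ (4 * (Q ^ 2 + M)) * (4 * (Q ^ 2 + A * K)) := by gcongr
        _ = 4 ^ 2 * ((Q ^ 2 + M) * (Q ^ 2 + A * K)) := by ring
    have s2 : Real.sqrt (∑ n ∈ Finset.Ioc (2 ^ jm - 1) (2 ^ jm - 1 + 2 ^ jm), ‖α n‖ ^ 2) ≤ Real.sqrt M * B := by
      rw [← h93_DB_Ioc]
      have i1 : ∑ n ∈ DB jm, ‖α n‖ ^ 2 ≤ M * B ^ 2 := by
        calc ∑ n ∈ DB jm, ‖α n‖ ^ 2 ≤ ∑ n ∈ DB jm, B ^ 2 := by
              refine Finset.sum_le_sum fun m hm => ?_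
              have := hα m hm
              gcongr
          _ = M * B ^ 2 := by
              rw [Finset.sum_const, nsmul_eq_mul]
              congr 1
              unfold DB
              rw [Nat.card_Ico, hM]
              have : 2 ^ (jm + 1) - 2 ^ jm = 2 ^ jm := by
                rw [pow_succ]; omega
              rw [this]
              push_cast
              ring
      calc Real.sqrt (∑ n ∈ DB jm, ‖α n‖ ^ 2) ≤ Real.sqrt (M * B ^ 2) := Real.sqrt_le_sqrt i1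
        _ = Real.sqrt M * B := by rw [Real.sqrt_mul hM0.le, Real.sqrt_sq hB]
    have s3 : Real.sqrt (∑ n ∈ Finset.Ioc (2 ^ ja * 2 ^ jk - 1) (2 ^ ja * 2 ^ jk - 1 + 3 * (2 ^ ja * 2 ^ jk)), ‖bn γ β ja jk s n‖ ^ 2) ≤
        Real.sqrt (3 * (A * K)) * (B * (C2 * (4 * (A * K)) ^ ε)) := by
      set D : ℝ := B * (C2 * (4 * (A * K)) ^ ε) with hD
      have hD0 : 0 ≤ D := by positivity
      have i1 : ∑ n ∈ Finset.Ioc (2 ^ ja * 2 ^ jk - 1) (2 ^ ja * 2 ^ jk - 1 + 3 * (2 ^ ja * 2 ^ jk)), ‖bn γ β ja jk s n‖ ^ 2 ≤ 3 * (A * K) * D ^ 2 := by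
        calc ∑ n ∈ Finset.Ioc (2 ^ ja * 2 ^ jk - 1) (2 ^ ja * 2 ^ jk - 1 + 3 * (2 ^ ja * 2 ^ jk)), ‖bn γ β ja jk s n‖ ^ 2 ≤
              ∑ n ∈ Finset.Ioc (2 ^ ja * 2 ^ jk - 1) (2 ^ ja * 2 ^ jk - 1 + 3 * (2 ^ ja * 2 ^ jk)), D ^ 2 := by
              refine Finset.sum_le_sum fun n hn => ?_
              rw [Finset.mem_Ioc] at hn
              have j1 := h93_bn_le hB hγ hβ s n
              have j2 := hd2 n (by omega)
              have j3 : (n : ℝ) ≤ 4 * (A * K) := by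
                have : (n : ℝ) ≤ ((4 * (2 ^ ja * 2 ^ jk) : ℕ) : ℝ) := by
                  have : n ≤ 4 * (2 ^ ja * 2 ^ jk) := by omega
                  exact_mod_cast this
                refine this.trans (le_of_eq ?_)
                rw [hA, hK]; push_cast; ring
              have j4 : (n : ℝ) ^ ε ≤ (4 * (A * K)) ^ ε := Real.rpow_le_rpow (by positivity) j3 hε.le
              have j5 : ‖bn γ β ja jk s n‖ ≤ D := by
                refine j1.trans ?_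
                rw [hD]
                have : (n.divisors.card : ℝ) ≤ C2 * (4 * (A * K)) ^ ε := j2.trans (by gcongr)
                gcongr
              gcongr
          _ = 3 * (A * K) * D ^ 2 := by
              rw [Finset.sum_const, nsmul_eq_mul, Nat.card_Ioc, Nat.add_sub_cancel_left, c3]
      calc Real.sqrt (∑ n ∈ Finset.Ioc (2 ^ ja * 2 ^ jk - 1) (2 ^ ja * 2 ^ jk - 1 + 3 * (2 ^ ja * 2 ^ jk)), ‖bn γ β ja jk s n‖ ^ 2) ≤
            Real.sqrt (3 * (A * K) * D ^ 2) := Real.sqrt_le_sqrt i1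
        _ = Real.sqrt (3 * (A * K)) * D := by rw [Real.sqrt_mul (by positivity), Real.sqrt_sq hD0]
    gcongr
  have h4 : ∑ s ∈ Finset.Icc 1 S0, ∑ q ∈ Finset.Icc 1 (2 ^ (jq + 1)), G s q ≤ (2 * R / Q) * (Real.sqrt (2 * Q) *
      (4 * (4 * Real.sqrt ((Q ^ 2 + M) * (Q ^ 2 + A * K))) * (Real.sqrt M * B * (Real.sqrt (3 * (A * K)) * (B * (C2 * (4 * (A * K)) ^ ε)))))) := by
    refine (Finset.sum_le_sum h3).trans ?_
    rw [Finset.sum_const, nsmul_eq_mul, Nat.card_Icc, Nat.add_sub_cancel]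
    gcongr
  refine h1.trans (h2.trans ?_)
  refine (mul_le_mul_of_nonneg_left h4 hcR0).trans (le_of_eq ?_)
  have t1 : ((2:ℝ) ^ (jr + ja + jk)) ^ ε = R ^ ε * (A * K) ^ ε := by
    rw [← Real.mul_rpow hR0.le (by positivity), hR, hA, hK]
    congr 1
    ring
  have t2 : Real.sqrt (M * A * K) = Real.sqrt M * Real.sqrt (A * K) := by
    rw [mul_assoc, Real.sqrt_mul hM0.le]
  have t3 : Real.sqrt (3 * (A * K)) = Real.sqrt 3 * Real.sqrt (A * K) := Real.sqrt_mul (by norm_num) _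
  have t4 : (4 * (A * K)) ^ ε = 4 ^ ε * (A * K) ^ ε := Real.mul_rpow (by norm_num) (by positivity)
  have t5 : Real.sqrt (2 * Q) = Real.sqrt 2 * Real.sqrt Q := Real.sqrt_mul (by norm_num) _
  have t6 : Real.sqrt Q / Q = (Real.sqrt Q)⁻¹ := by
    rw [div_eq_iff hQ0.ne', eq_comm, inv_mul_eq_div, div_eq_iff (Real.sqrt_pos.2 hQ0).ne', Real.mul_self_sqrt hQ0.le]
  have t7 : R ^ ε / R ^ 2 * R = R ^ ε * R⁻¹ := by field_simp
  rw [t1, t2, t3, t4, t5, hcR, ← t6]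
  calc C1 ^ 2 * 2 ^ ε * R ^ ε / R ^ 2 * (2 * R / Q * (Real.sqrt 2 * Real.sqrt Q * (4 * (4 * Real.sqrt ((Q ^ 2 + M) * (Q ^ 2 + A * K))) *
        (Real.sqrt M * B * (Real.sqrt 3 * Real.sqrt (A * K) * (B * (C2 * (4 ^ ε * (A * K) ^ ε))))))))
      = (R ^ ε / R ^ 2 * R) * (Real.sqrt Q / Q) * (2 * (C1 ^ 2 * 2 ^ ε) * Real.sqrt 2 * (4 * (4 * (Real.sqrt 3 * (C2 * 4 ^ ε))))) * B ^ 2 *
        (A * K) ^ ε * Real.sqrt ((Q ^ 2 + M) * (Q ^ 2 + A * K)) * (Real.sqrt M * Real.sqrt (A * K)) := by ring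
    _ = _ := by rw [t7]; ring

theorem xb_symm (jr jq ja jm jk : ℕ) (γ α β : ℕ → ℂ) : XB γ α β jr jq ja jm jk = XB γ β α jr jq ja jk jm := by
  unfold XB
  refine Finset.sum_congr rfl fun r _ => ?_
  congr 1
  refine Finset.sum_congr rfl fun q _ => ?_
  congr 1
  refine Finset.sum_congr rfl fun χ _ => ?_
  congr 1
  ring

theorem xb_zero {jr jq : ℕ} (h : jr < jq) (ja jm jk : ℕ) (γ α β : ℕ → ℂ) : XB γ α β jr jq ja jm jk = 0 := by
  unfold XB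
  refine Finset.sum_eq_zero fun r hr => ?_
  have h1 : r.divisors.filter (fun q : ℕ => q ∈ DB jq) = ∅ := by
    rw [Finset.filter_eq_empty_iff]
    intro q hq hq2
    rw [Finset.mem_filter] at hr
    obtain ⟨hr1, -⟩ := hr
    unfold DB at hr1 hq2
    rw [Finset.mem_Ico] at hr1 hq2
    have h2 : q ≤ r := Nat.divisor_le hq
    have h3 : 2 ^ (jr + 1) ≤ 2 ^ jq := Nat.pow_le_pow_right (by norm_num) h
    omega
  rw [h1, Finset.sum_empty, mul_zero]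

end Pool.Agent.Helper69.FF
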