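import Pool.Agent.Helper69.FF.KDefs

/-!
# FF-KSep: separation of variables

`sep1`: `f` smooth with compact support: `f(x) = ∫ F(ξ) e^(iξx) dξ` with `F` integrable (Fourier inversion, e.g. `f` as a Schwartz function; Mathlib `HasCompactSupport.toSchwartzMap`-like,
`SchwartzMap.fourierInversion`/`Continuous.fourierInv_fourier_eq`, scale `ξ` by `2π` or keep `e^(2πi ξ x)` and let `ξ` run over all reals). Then
`∑_i c_i ‖∑_j A_ij f(x_ij)‖ ≤ ∑_i c_i ∫ |F(ξ)| ‖∑_j A_ij e^(iξ x_ij)‖ dξ ≤ ‖F‖_1 B`.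

`ksep`: apply `sep1` three times with `J = SA × SM × SK`: `f = w`, `x = (log m + log k)/L`; `f = v`, `x = 1 + (log r_i - log l)/L`; `f = ψ ∘ exp` (`ψ(u) = g.h(u - 1/2)` is supported in
`[1/2 - th, 1/2 + th] ⊂ (0, ∞)`, so `ψ ∘ exp` is smooth with compact support), `x = log(2π/T) + log l + log m + log k - log r_i`. The product of the three exponentials is
(unimodular number depending on `i` only) `· l^(iρ1) (m k)^(iρ2)`, which factorises. `log (m k) = log m + log k` uses `m, k ≥ 1`.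
-/

open MeasureTheory Set Filter Topology
open Pool.Agent.Helper57.Zeta Pool.Agent.Helper57.PC Pool.Agent.Helper57.LH Pool.Agent.Helper78.SG
open Pool.Agent.Helper4.SH (om)
open scoped ContDiff

namespace Pool.Agent.Helper69.FF

/-- Fourier inversion for a smooth function with compact support -/
private lemma ks92_inv {f : ℝ → ℝ} (hf : ContDiff ℝ ∞ f) {c : ℝ} (hc : ∀ x, c ≤ |x| → f x = 0) :
    ∃ F : ℝ → ℂ, Continuous F ∧ Integrable F ∧ ∀ x : ℝ, ((f x : ℝ) : ℂ) = ∫ ξ : ℝ, F ξ * Complex.exp (((2 * Real.pi * ξ * x : ℝ) : ℂ) * Complex.I) := by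
  have h2 : HasCompactSupport f := by
    apply HasCompactSupport.intro (isCompact_Icc (a := -|c|) (b := |c|))
    intro x hx
    apply hc
    by_contra h
    rw [not_le] at h
    apply hx
    have h1 := le_abs_self c
    have h3 : |x| ≤ |c| := by linarith
    exact abs_le.1 h3
  have hs : HasCompactSupport (fun t : ℝ => (f t : ℂ)) := by
    refine h2.comp_left (g := fun r : ℝ => (r : ℂ)) ?_
    simp
  have hcd : ContDiff ℝ (⊤ : ℕ∞) (fun t : ℝ => (f t : ℂ)) := Complex.ofRealCLM.contDiff.comp hf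
  let g : SchwartzMap ℝ ℂ := hs.toSchwartzMap hcd
  have hg : ∀ t, g t = (f t : ℂ) := fun t => rfl
  let F : SchwartzMap ℝ ℂ := SchwartzMap.fourierTransformCLM ℂ g
  refine ⟨F, F.continuous, F.integrable, fun x => ?_⟩
  have h3 : (F : ℝ → ℂ) = FourierTransform.fourier (g : ℝ → ℂ) := rfl
  have hFi : Integrable (FourierTransform.fourier (g : ℝ → ℂ)) := by
    rw [← h3]
    exact F.integrable
  have h4 : FourierTransformInv.fourierInv (FourierTransform.fourier (g : ℝ → ℂ)) = (g : ℝ → ℂ) :=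
    g.continuous.fourierInv_fourier_eq g.integrable hFi
  have h5 : g x = FourierTransformInv.fourierInv (F : ℝ → ℂ) x := by
    rw [h3, h4]
  rw [← hg, h5, Real.fourierInv_eq']
  refine integral_congr_ae (Eventually.of_forall fun ξ => ?_)
  simp only [smul_eq_mul]
  rw [mul_comm]
  congr 2
  have h6 : inner ℝ ξ x = ξ * x := by simp [mul_comm]
  rw [h6]
  push_cast
  ring

theorem sep1 {f : ℝ → ℝ} (hf : ContDiff ℝ ∞ f) {c : ℝ} (hc : ∀ x, c ≤ |x| → f x = 0) :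
    ∃ C : ℝ, 0 < C ∧ ∀ (ι κ : Type) (I : Finset ι) (J : Finset κ) (c : ι → ℝ) (A : ι → κ → ℂ) (x : ι → κ → ℝ) (B : ℝ),
      (∀ i ∈ I, 0 ≤ c i) →
      (∀ ξ : ℝ, ∑ i ∈ I, c i * ‖∑ j ∈ J, A i j * Complex.exp (((ξ * x i j : ℝ) : ℂ) * Complex.I)‖ ≤ B) →
      ∑ i ∈ I, c i * ‖∑ j ∈ J, A i j * ((f (x i j) : ℝ) : ℂ)‖ ≤ C * B := by
  classical
  obtain ⟨F, hFc, hFi, hF⟩ := ks92_inv hf hc
  refine ⟨(∫ ξ : ℝ, ‖F ξ‖) + 1, by
    have : 0 ≤ ∫ ξ : ℝ, ‖F ξ‖ := integral_nonneg fun _ => norm_nonneg _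
    linarith, ?_⟩
  intro ι κ I J c A x B hc0 hB
  have hB0 : 0 ≤ B := by
    refine le_trans (Finset.sum_nonneg fun i hi => mul_nonneg (hc0 i hi) (norm_nonneg _)) (hB 0)
  set E : ι → ℝ → ℂ := fun i ξ => ∑ j ∈ J, A i j * Complex.exp (((2 * Real.pi * ξ * x i j : ℝ) : ℂ) * Complex.I) with hE
  have hEc : ∀ i, Continuous (E i) := by
    intro i
    rw [hE]
    apply continuous_finsetSum
    intro j _
    fun_prop
  have hEb : ∀ i ξ, ‖E i ξ‖ ≤ ∑ j ∈ J, ‖A i j‖ := by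
    intro i ξ
    rw [hE]
    refine (norm_sum_le _ _).trans (Finset.sum_le_sum fun j _ => ?_)
    rw [norm_mul, Complex.norm_exp_ofReal_mul_I, mul_one]
  have hint : ∀ i, Integrable (fun ξ => ‖F ξ‖ * ‖E i ξ‖) := by
    intro i
    refine (hFi.norm.mul_const (∑ j ∈ J, ‖A i j‖)).mono' ((hFc.norm.mul (hEc i).norm).aestronglyMeasurable) ?_
    refine Eventually.of_forall fun ξ => ?_
    rw [Real.norm_eq_abs, abs_of_nonneg (by positivity)]
    exact mul_le_mul_of_nonneg_left (hEb i ξ) (norm_nonneg _)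
  have h1 : ∀ i, ‖∑ j ∈ J, A i j * ((f (x i j) : ℝ) : ℂ)‖ ≤ ∫ ξ : ℝ, ‖F ξ‖ * ‖E i ξ‖ := by
    intro i
    have h2 : ∑ j ∈ J, A i j * ((f (x i j) : ℝ) : ℂ) = ∫ ξ : ℝ, F ξ * E i ξ := by
      have h3 : ∀ j ∈ J, Integrable (fun ξ : ℝ => A i j * (F ξ * Complex.exp (((2 * Real.pi * ξ * x i j : ℝ) : ℂ) * Complex.I))) := by
        intro j _
        refine Integrable.const_mul ?_ _
        refine hFi.norm.mono' (by
          apply Continuous.aestronglyMeasurable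
          fun_prop) ?_
        refine Eventually.of_forall fun ξ => ?_
        rw [norm_mul, Complex.norm_exp_ofReal_mul_I, mul_one]
      have h4 : ∀ j ∈ J, A i j * ((f (x i j) : ℝ) : ℂ) = ∫ ξ : ℝ, A i j * (F ξ * Complex.exp (((2 * Real.pi * ξ * x i j : ℝ) : ℂ) * Complex.I)) := by
        intro j _
        rw [hF, integral_const_mul]
      rw [Finset.sum_congr rfl h4, ← integral_finset_sum _ h3]
      apply integral_congr_ae
      refine Eventually.of_forall fun ξ => ?_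
      simp only [hE]
      rw [Finset.mul_sum]
      apply Finset.sum_congr rfl
      intro j _
      ring
    rw [h2]
    refine (norm_integral_le_integral_norm _).trans (le_of_eq ?_)
    congr 1
    funext ξ
    rw [norm_mul]
  calc ∑ i ∈ I, c i * ‖∑ j ∈ J, A i j * ((f (x i j) : ℝ) : ℂ)‖
      ≤ ∑ i ∈ I, c i * ∫ ξ : ℝ, ‖F ξ‖ * ‖E i ξ‖ := Finset.sum_le_sum fun i hi => mul_le_mul_of_nonneg_left (h1 i) (hc0 i hi)
    _ = ∫ ξ : ℝ, ∑ i ∈ I, c i * (‖F ξ‖ * ‖E i ξ‖) := by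
        rw [integral_finset_sum _ (fun i _ => (hint i).const_mul (c i))]
        apply Finset.sum_congr rfl
        intro i _
        rw [integral_const_mul]
    _ ≤ ∫ ξ : ℝ, ‖F ξ‖ * B := by
        apply integral_mono (integrable_finset_sum _ (fun i _ => (hint i).const_mul (c i))) (hFi.norm.mul_const B)
        intro ξ
        simp only
        have h5 : ∑ i ∈ I, c i * (‖F ξ‖ * ‖E i ξ‖) = ‖F ξ‖ * ∑ i ∈ I, c i * ‖E i ξ‖ := by
          rw [Finset.mul_sum]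
          apply Finset.sum_congr rfl
          intro i _
          ring
        rw [h5]
        exact mul_le_mul_of_nonneg_left (hB (2 * Real.pi * ξ)) (norm_nonneg _)
    _ = (∫ ξ : ℝ, ‖F ξ‖) * B := by rw [integral_mul_const]
    _ ≤ ((∫ ξ : ℝ, ‖F ξ‖) + 1) * B := by nlinarith

private lemma ks92_wr {w : ℝ → ℝ} {a b : ℝ} (hw : WR w a b) : ∀ x, b + 1 ≤ |x| → w x = 0 := by
  intro x hx
  by_contra h
  obtain ⟨h1, h2⟩ := hw.2.2.2 x h
  have h3 := hw.2.1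
  rw [abs_of_pos (by linarith)] at hx
  linarith

private noncomputable def ks92psi (g : TF) (u : ℝ) : ℝ := g.h (Real.exp u - 1 / 2)

private lemma ks92psi_smooth (g : TF) : ContDiff ℝ ∞ (ks92psi g) := by
  unfold ks92psi
  exact g.smooth.comp (Real.contDiff_exp.sub contDiff_const)

private lemma ks92psi_supp (g : TF) : ∀ u, -Real.log (1 / 2 - g.th) ≤ |u| → ks92psi g u = 0 := by
  intro u hu
  have h1 := g.th0
  have h2 := g.th1
  unfold ks92psi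
  apply g.supp
  by_contra h
  rw [not_le, abs_lt] at h
  have h3 : 1 / 2 - g.th < Real.exp u := by linarith [h.1]
  have h4 : Real.exp u < 1 := by linarith [h.2]
  have h5 : u < 0 := by
    rw [Real.exp_lt_one_iff] at h4
    exact h4
  have h6 : Real.log (1 / 2 - g.th) < u := by
    rw [Real.log_lt_iff_lt_exp (by linarith)]
    exact h3
  rw [abs_of_neg h5] at hu
  linarith

/-- the triple sum factorises -/
private lemma ks92_fact (SA SM SK : Finset ℕ) (x y z : ℕ → ℂ) (e : ℂ) (p q : ℕ → ℂ) :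
    ∑ j ∈ SA ×ˢ (SM ×ˢ SK), (x j.1 * y j.2.1 * z j.2.2) * (e * p j.1 * (q j.2.1 * q j.2.2)) =
      e * ((∑ n ∈ SA, x n * p n) * (∑ n ∈ SM, y n * q n) * (∑ n ∈ SK, z n * q n)) := by
  rw [Finset.sum_product]
  simp_rw [Finset.sum_product]
  rw [Finset.sum_mul_sum, Finset.sum_mul, Finset.mul_sum]
  apply Finset.sum_congr rfl
  intro l _
  rw [Finset.sum_mul, Finset.mul_sum]
  apply Finset.sum_congr rfl
  intro m _
  rw [Finset.mul_sum, Finset.mul_sum]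
  apply Finset.sum_congr rfl
  intro k _
  ring


theorem ksep (g : TF) {w v : ℝ → ℝ} {a b a' b' : ℝ} (hw : WR w a b) (hv : WR v a' b') :
    ∃ C : ℝ, 0 < C ∧ ∀ T : ℝ, 1 < T → ∀ (ι : Type) (I : Finset ι) (c : ι → ℝ) (r : ι → ℕ) (SA SM SK : Finset ℕ)
      (x y z : ι → ℕ → ℂ) (B : ℝ), (∀ i ∈ I, 0 ≤ c i) → (∀ i ∈ I, 1 ≤ r i) →
      (∀ n ∈ SA, 1 ≤ n) → (∀ n ∈ SM, 1 ≤ n) → (∀ n ∈ SK, 1 ≤ n) →
      (∀ ρ1 ρ2 : ℝ, ∑ i ∈ I, c i * ‖(∑ n ∈ SA, x i n * xp ρ1 n) * (∑ n ∈ SM, y i n * xp ρ2 n) *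
        (∑ n ∈ SK, z i n * xp ρ2 n)‖ ≤ B) →
      ∑ i ∈ I, c i * ‖∑ l ∈ SA, ∑ m ∈ SM, ∑ k ∈ SK, (x i l * y i m * z i k) *
        ((FW g w v T (r i, l) (m * k) : ℝ) : ℂ)‖ ≤ C * B := by
  classical
  obtain ⟨C1, hC1, s1⟩ := sep1 hw.1 (ks92_wr hw)
  obtain ⟨C2, hC2, s2⟩ := sep1 hv.1 (ks92_wr hv)
  obtain ⟨C3, hC3, s3⟩ := sep1 (ks92psi_smooth g) (ks92psi_supp g)
  refine ⟨C1 * (C2 * C3), by positivity, ?_⟩
  intro T hT ι I c r SA SM SK x y z B hc hr hSA hSM hSK hB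
  have hT0 : 0 < T := by linarith
  have hL : 0 < Real.log T := Real.log_pos hT
  set L : ℝ := Real.log T with hLd
  set J : Finset (ℕ × ℕ × ℕ) := SA ×ˢ (SM ×ˢ SK) with hJ
  set A : ι → ℕ × ℕ × ℕ → ℂ := fun i j => x i j.1 * y i j.2.1 * z i j.2.2 with hA
  set x1 : ι → ℕ × ℕ × ℕ → ℝ := fun _ j => (Real.log j.2.1 + Real.log j.2.2) / L with hx1
  set x2 : ι → ℕ × ℕ × ℕ → ℝ := fun i j => 1 + (Real.log (r i) - Real.log j.1) / L with hx2
  set x3 : ι → ℕ × ℕ × ℕ → ℝ := fun i j => Real.log (2 * Real.pi / T) + Real.log j.1 + Real.log j.2.1 + Real.log j.2.2 -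
    Real.log (r i) with hx3
  have hmem : ∀ j ∈ J, 1 ≤ j.1 ∧ 1 ≤ j.2.1 ∧ 1 ≤ j.2.2 := by
    intro j hj
    rw [hJ, Finset.mem_product, Finset.mem_product] at hj
    exact ⟨hSA _ hj.1, hSM _ hj.2.1, hSK _ hj.2.2⟩
  -- the weight as a product
  have hFW : ∀ i ∈ I, ∀ j ∈ J, FW g w v T (r i, j.1) (j.2.1 * j.2.2) = w (x1 i j) * v (x2 i j) * ks92psi g (x3 i j) := by
    intro i hi j hj
    obtain ⟨h1, h2, h3⟩ := hmem j hj
    have p1 : (0 : ℝ) < j.1 := by exact_mod_cast h1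
    have p2 : (0 : ℝ) < j.2.1 := by exact_mod_cast h2
    have p3 : (0 : ℝ) < j.2.2 := by exact_mod_cast h3
    have p4 : (0 : ℝ) < r i := by exact_mod_cast hr i hi
    unfold FW ks92psi
    have e1 : Real.log ((j.2.1 * j.2.2 : ℕ) : ℝ) / Real.log T = x1 i j := by
      rw [hx1]
      push_cast
      rw [Real.log_mul p2.ne' p3.ne']
    have e2 : lr T (r i, j.1) = x2 i j := rfl
    have e3 : Real.exp (x3 i j) = 2 * Real.pi * ((j.1 : ℝ) * ((j.2.1 * j.2.2 : ℕ) : ℝ) / (r i)) / T := by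
      rw [hx3]
      simp only
      rw [Real.exp_sub, Real.exp_add, Real.exp_add, Real.exp_add, Real.exp_log p1, Real.exp_log p2, Real.exp_log p3,
        Real.exp_log p4, Real.exp_log (by positivity)]
      push_cast
      field_simp
    rw [e1, e2, e3]
  have hstart : ∀ i ∈ I, ‖∑ l ∈ SA, ∑ m ∈ SM, ∑ k ∈ SK, (x i l * y i m * z i k) * ((FW g w v T (r i, l) (m * k) : ℝ) : ℂ)‖ =
      ‖∑ j ∈ J, (A i j * ((v (x2 i j) : ℝ) : ℂ) * ((ks92psi g (x3 i j) : ℝ) : ℂ)) * ((w (x1 i j) : ℝ) : ℂ)‖ := by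
    intro i hi
    congr 1
    have e1 : ∑ l ∈ SA, ∑ m ∈ SM, ∑ k ∈ SK, (x i l * y i m * z i k) * ((FW g w v T (r i, l) (m * k) : ℝ) : ℂ) =
        ∑ j ∈ J, A i j * ((FW g w v T (r i, j.1) (j.2.1 * j.2.2) : ℝ) : ℂ) := by
      rw [hJ, Finset.sum_product]
      apply Finset.sum_congr rfl
      intro l _
      rw [Finset.sum_product]
    rw [e1]
    apply Finset.sum_congr rfl
    intro j hj
    rw [hFW i hi j hj]
    push_cast
    ring
  rw [Finset.sum_congr rfl (fun i hi => by rw [hstart i hi])]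
  have hgoal : C1 * (C2 * C3) * B = C1 * (C2 * (C3 * B)) := by ring
  rw [hgoal]
  refine s1 ι (ℕ × ℕ × ℕ) I J c (fun i j => A i j * ((v (x2 i j) : ℝ) : ℂ) * ((ks92psi g (x3 i j) : ℝ) : ℂ)) x1 (C2 * (C3 * B)) hc
    (fun ξ1 => ?_)
  have e2 : ∀ i, ∑ j ∈ J, A i j * ((v (x2 i j) : ℝ) : ℂ) * ((ks92psi g (x3 i j) : ℝ) : ℂ) *
      Complex.exp (((ξ1 * x1 i j : ℝ) : ℂ) * Complex.I) = ∑ j ∈ J, (A i j * ((ks92psi g (x3 i j) : ℝ) : ℂ) *
      Complex.exp (((ξ1 * x1 i j : ℝ) : ℂ) * Complex.I)) * ((v (x2 i j) : ℝ) : ℂ) := by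
    intro i
    apply Finset.sum_congr rfl
    intro j _
    ring
  simp only [e2]
  refine s2 ι (ℕ × ℕ × ℕ) I J c (fun i j => A i j * ((ks92psi g (x3 i j) : ℝ) : ℂ) *
    Complex.exp (((ξ1 * x1 i j : ℝ) : ℂ) * Complex.I)) x2 (C3 * B) hc (fun ξ2 => ?_)
  have e3 : ∀ i, ∑ j ∈ J, A i j * ((ks92psi g (x3 i j) : ℝ) : ℂ) * Complex.exp (((ξ1 * x1 i j : ℝ) : ℂ) * Complex.I) *
      Complex.exp (((ξ2 * x2 i j : ℝ) : ℂ) * Complex.I) = ∑ j ∈ J, (A i j * Complex.exp (((ξ1 * x1 i j : ℝ) : ℂ) * Complex.I) *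
      Complex.exp (((ξ2 * x2 i j : ℝ) : ℂ) * Complex.I)) * ((ks92psi g (x3 i j) : ℝ) : ℂ) := by
    intro i
    apply Finset.sum_congr rfl
    intro j _
    ring
  simp only [e3]
  refine s3 ι (ℕ × ℕ × ℕ) I J c (fun i j => A i j * Complex.exp (((ξ1 * x1 i j : ℝ) : ℂ) * Complex.I) *
    Complex.exp (((ξ2 * x2 i j : ℝ) : ℂ) * Complex.I)) x3 B hc (fun ξ3 => ?_)
  -- factorisation
  set ρ1 : ℝ := -(ξ3 - ξ2 / L) with hρ1
  set ρ2 : ℝ := -(ξ1 / L + ξ3) with hρ2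
  have hf : ∀ i ∈ I, ‖∑ j ∈ J, A i j * Complex.exp (((ξ1 * x1 i j : ℝ) : ℂ) * Complex.I) *
      Complex.exp (((ξ2 * x2 i j : ℝ) : ℂ) * Complex.I) * Complex.exp (((ξ3 * x3 i j : ℝ) : ℂ) * Complex.I)‖ =
      ‖(∑ n ∈ SA, x i n * xp ρ1 n) * (∑ n ∈ SM, y i n * xp ρ2 n) * (∑ n ∈ SK, z i n * xp ρ2 n)‖ := by
    intro i _
    set θ : ℝ := ξ2 + ξ2 * Real.log (r i) / L + ξ3 * Real.log (2 * Real.pi / T) - ξ3 * Real.log (r i) with hθ
    have e4 : ∀ j ∈ J, A i j * Complex.exp (((ξ1 * x1 i j : ℝ) : ℂ) * Complex.I) *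
        Complex.exp (((ξ2 * x2 i j : ℝ) : ℂ) * Complex.I) * Complex.exp (((ξ3 * x3 i j : ℝ) : ℂ) * Complex.I) =
        (x i j.1 * y i j.2.1 * z i j.2.2) * (Complex.exp ((θ : ℂ) * Complex.I) * xp ρ1 j.1 * (xp ρ2 j.2.1 * xp ρ2 j.2.2)) := by
      intro j _
      have e5 : Complex.exp (((ξ1 * x1 i j : ℝ) : ℂ) * Complex.I) *
          Complex.exp (((ξ2 * x2 i j : ℝ) : ℂ) * Complex.I) * Complex.exp (((ξ3 * x3 i j : ℝ) : ℂ) * Complex.I) =
          Complex.exp ((θ : ℂ) * Complex.I) * xp ρ1 j.1 * (xp ρ2 j.2.1 * xp ρ2 j.2.2) := by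
        unfold xp
        rw [← Complex.exp_add, ← Complex.exp_add, ← Complex.exp_add, ← Complex.exp_add, ← Complex.exp_add]
        congr 1
        have e6 : ξ1 * x1 i j + ξ2 * x2 i j + ξ3 * x3 i j = θ - ρ1 * Real.log j.1 - (ρ2 * Real.log j.2.1 + ρ2 * Real.log j.2.2) := by
          rw [hx1, hx2, hx3, hθ, hρ1, hρ2]
          simp only
          field_simp
          ring
        have e7 : (((ξ1 * x1 i j : ℝ) : ℂ) * Complex.I) + (((ξ2 * x2 i j : ℝ) : ℂ) * Complex.I) + (((ξ3 * x3 i j : ℝ) : ℂ) * Complex.I) =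
            ((ξ1 * x1 i j + ξ2 * x2 i j + ξ3 * x3 i j : ℝ) : ℂ) * Complex.I := by
          push_cast
          ring
        rw [e7, e6]
        push_cast
        ring
      rw [hA]
      simp only
      rw [mul_assoc, mul_assoc, ← mul_assoc (Complex.exp (((ξ1 * x1 i j : ℝ) : ℂ) * Complex.I)), e5]
    rw [Finset.sum_congr rfl e4, hJ, ks92_fact SA SM SK (x i) (y i) (z i) (Complex.exp ((θ : ℂ) * Complex.I)) (fun n => xp ρ1 n) (fun n => xp ρ2 n),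
      norm_mul, Complex.norm_exp_ofReal_mul_I, one_mul]
  rw [Finset.sum_congr rfl (fun i hi => by rw [hf i hi])]
  exact hB ρ1 ρ2


end Pool.Agent.Helper69.FF
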