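import Pool.Agent.Helper69.FF.KDefs
import Pool.Agent.Helper69.FF.KSup
import Pool.Agent.Helper69.FF.KLC
import Pool.Agent.Helper69.FF.KSep

/-!
# FF-KBx: the bound for a box

Write `R = 2^jr`, `Q = 2^jq`, `A = 2^ja`, `M = 2^jm`, `K = 2^jk`. If `FW` vanishes on the whole box (or the box of `r`, `l` is empty) then `WB = 0`. Otherwise pick `(r, l, m, k)` in the box with
`FW ≠ 0` (FF.KSup): `l < r`, `R ≤ r ≤ T^(1/2-e)`, `A ≤ l < 2R`, `A M K ≤ l m k ≤ r T ≤ 2RT`, and `m k < T^(3/2)`, so all `m, k` of the box are `≤ 2 T^(3/2) ≤ T²` and `|α|, |β| ≤ T^ε` on the box.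
`ksep` (FF.KSep) with `ι = Σ r, Σ q, characters`, `c = φ(r)⁻² √q`, `x i l = [l ∈ SA e T r] χ(l)`, `y = α χ`, `z = β χ` gives `WB ≤ C sup_{ρ1, ρ2} XB(γ = [T^e < l ≤ ⌊T⌋] l^(iρ1), α m^(iρ2), β k^(iρ2))`
(`|xp| = 1`). By `xb_symm` suppose `K ≤ M`; by `xb_zero` `Q ≤ R`. `klc` (FF.KLC) with `B = T^ε` gives `XB ≤ C T^(2ε) (2RAK)^ε' R⁻¹ Q^(-1/2) √((Q²+M)(Q²+AK)) √(MAK)`, and `(Q²+M)(Q²+AK) ≤ (Q² + Q√M + Q√(AK) + √(MAK))²`:
- `R⁻¹ Q^(3/2) √(2RT) ≤ 2 R √T ≤ 2 T^(1-e)`;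
- `R⁻¹ Q^(1/2) √(2RT) √M ≤ 2 √T √M`, `M ≤ 2RT/(AK) ≤ 2 T^(1-d)` (hypothesis `R T^d ≤ A K`);
- `R⁻¹ Q^(1/2) √(2RT) √(AK) ≤ 2 √T √(AK)`, `(AK)² ≤ A · AMK ≤ 2R · 2RT`, `AK ≤ 2R √T ≤ 2 T^(1-e)`;
- `R⁻¹ Q^(-1/2) · 2RT = 2 T Q^(-1/2) ≤ 4 T^(1-e/8)`.
So `δ = min(d/2, e/8)/2` with `ε, ε'` small (`R A K ≤ T^4`).
-/

open MeasureTheory Set Filter Topology
open Pool.Agent.Helper57.Zeta Pool.Agent.Helper57.PC Pool.Agent.Helper57.LH Pool.Agent.Helper78.SG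
open Pool.Agent.Helper4.SH (om)
open scoped ContDiff

namespace Pool.Agent.Helper69.FF

private lemma xp_norm97 (t x : ℝ) : ‖xp t x‖ = 1 := by
  unfold xp
  rw [← neg_mul, ← Complex.ofReal_neg, Complex.norm_exp_ofReal_mul_I]

/-- the numerical estimate -/
private lemma num97 {R Q A M K T e d δ0 : ℝ} (hR1 : 1 ≤ R) (hQ1 : 1 ≤ Q) (hA1 : 1 ≤ A) (hM1 : 1 ≤ M)
    (hK1 : 1 ≤ K) (hT1 : 1 ≤ T) (hQR : Q ≤ R) (hRT : R ≤ T ^ (1 / 2 - e)) (hAR : A ≤ 2 * R)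
    (hAMK : M * A * K ≤ 2 * R * T) (hKM : K ≤ M) (hRd : R * T ^ d ≤ A * K) (hQT : T ^ (e / 4) ≤ 2 * Q)
    (hδ1 : 2 * δ0 ≤ d) (hδ2 : 8 * δ0 ≤ e) (hδ : 0 < δ0) :
    R⁻¹ * (Real.sqrt Q)⁻¹ * (Real.sqrt ((Q ^ 2 + M) * (Q ^ 2 + A * K)) * Real.sqrt (M * A * K)) ≤
      9 * T ^ (1 - δ0) := by
  have hR : 0 < R := by linarith
  have hQ : 0 < Q := by linarith
  have hA : 0 < A := by linarith
  have hM : 0 < M := by linarith
  have hK : 0 < K := by linarith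
  have hT : 0 < T := by linarith
  have hAK : 0 < A * K := by positivity
  set U : ℝ := T ^ (1 - δ0) with hU
  have hU0 : 0 < U := Real.rpow_pos_of_pos hT _
  have hU2 : U ^ 2 = T ^ (2 - 2 * δ0) := by
    rw [hU, ← Real.rpow_natCast, ← Real.rpow_mul hT.le]
    congr 1
    push_cast
    ring
  have hmono : ∀ z : ℝ, z ≤ 2 - 2 * δ0 → T ^ z ≤ U ^ 2 := by
    intro z hz
    rw [hU2]
    exact Real.rpow_le_rpow_of_exponent_le hT1 hz
  have hadd : ∀ x y : ℝ, T ^ x * T ^ y = T ^ (x + y) := fun x y => (Real.rpow_add hT x y).symm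
  set s := Real.sqrt Q with hs
  set p := Real.sqrt M with hp
  set t := Real.sqrt (A * K) with ht
  set ρ := Real.sqrt R with hρ
  set τ := Real.sqrt T with hτ
  have hs0 : 0 < s := Real.sqrt_pos.mpr hQ
  have hp0 : 0 < p := Real.sqrt_pos.mpr hM
  have ht0 : 0 < t := Real.sqrt_pos.mpr hAK
  have hρ0 : 0 < ρ := Real.sqrt_pos.mpr hR
  have hτ0 : 0 < τ := Real.sqrt_pos.mpr hT
  have hs2 : s ^ 2 = Q := Real.sq_sqrt hQ.le
  have hp2 : p ^ 2 = M := Real.sq_sqrt hM.le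
  have ht2 : t ^ 2 = A * K := Real.sq_sqrt hAK.le
  have hρ2 : ρ ^ 2 = R := Real.sq_sqrt hR.le
  have hτ2 : τ ^ 2 = T := Real.sq_sqrt hT.le
  have hsρ : s ≤ ρ := Real.sqrt_le_sqrt hQR
  have hpt : Real.sqrt (M * A * K) = p * t := by
    rw [mul_assoc, Real.sqrt_mul hM.le]
  have h1 : Real.sqrt ((Q ^ 2 + M) * (Q ^ 2 + A * K)) ≤ (Q + p) * (Q + t) := by
    rw [Real.sqrt_le_left (by positivity)]
    rw [mul_pow]
    refine mul_le_mul ?_ ?_ (by positivity) (by positivity)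
    · nlinarith [mul_pos hQ hp0]
    · nlinarith [mul_pos hQ ht0]
  have hpt2 : p * t ≤ 3 / 2 * (ρ * τ) := by
    have h2 : (p * t) ^ 2 ≤ (3 / 2 * (ρ * τ)) ^ 2 := by
      have e1 : (p * t) ^ 2 = M * A * K := by rw [mul_pow, hp2, ht2]; ring
      have e2 : (3 / 2 * (ρ * τ)) ^ 2 = 9 / 4 * (R * T) := by
        rw [mul_pow, mul_pow, hρ2, hτ2]; ring
      rw [e1, e2]
      nlinarith [mul_pos hR hT]
    exact (sq_le_sq₀ (by positivity) (by positivity)).mp h2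
  -- the four terms
  have hpos : 0 < R⁻¹ * s⁻¹ := by positivity
  have k1 : R * τ ≤ U := by
    have h2 : (R * τ) ^ 2 ≤ U ^ 2 := by
      rw [mul_pow, hτ2]
      have h3 : R ^ 2 ≤ (T ^ (1 / 2 - e)) ^ 2 := pow_le_pow_left₀ hR.le hRT 2
      have h4 : (T ^ (1 / 2 - e)) ^ 2 * T = T ^ (2 - 2 * e) := by
        rw [pow_two, hadd]
        nth_rewrite 2 [← Real.rpow_one T]
        rw [hadd]
        congr 1
        ring
      calc R ^ 2 * T ≤ (T ^ (1 / 2 - e)) ^ 2 * T := mul_le_mul_of_nonneg_right h3 hT.le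
        _ = T ^ (2 - 2 * e) := h4
        _ ≤ U ^ 2 := hmono _ (by linarith)
    exact (sq_le_sq₀ (by positivity) hU0.le).mp h2
  have k2 : p * τ ≤ 3 / 2 * U := by
    have h2 : (p * τ) ^ 2 ≤ (3 / 2 * U) ^ 2 := by
      rw [mul_pow, hτ2, hp2, mul_pow]
      have h3 : M * T ^ d ≤ 2 * T := by
        have h4 : R * (M * T ^ d) ≤ R * (2 * T) := by
          calc R * (M * T ^ d) = M * (R * T ^ d) := by ring
            _ ≤ M * (A * K) := mul_le_mul_of_nonneg_left hRd hM.le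
            _ = M * A * K := by ring
            _ ≤ 2 * R * T := hAMK
            _ = R * (2 * T) := by ring
        exact le_of_mul_le_mul_left h4 hR
      have h5 : M * T ≤ 2 * U ^ 2 := by
        have h6 : M * T = (M * T ^ d) * T ^ (1 - d) := by
          rw [mul_assoc, hadd]
          congr 1
          nth_rewrite 1 [← Real.rpow_one T]
          congr 1
          ring
        rw [h6]
        calc (M * T ^ d) * T ^ (1 - d) ≤ 2 * T * T ^ (1 - d) :=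
              mul_le_mul_of_nonneg_right h3 (Real.rpow_pos_of_pos hT _).le
          _ = 2 * T ^ (2 - d) := by
              rw [mul_assoc]
              congr 1
              nth_rewrite 1 [← Real.rpow_one T]
              rw [hadd]
              congr 1
              ring
          _ ≤ 2 * U ^ 2 := by
              have := hmono (2 - d) (by linarith)
              linarith
      nlinarith [sq_nonneg U]
    exact (sq_le_sq₀ (by positivity) (by positivity)).mp h2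
  have k3 : t * τ ≤ 3 / 2 * U := by
    have h2 : (t * τ) ^ 2 ≤ (3 / 2 * U) ^ 2 := by
      rw [mul_pow, hτ2, ht2, mul_pow]
      have h3 : A * K ≤ 2 * R * τ := by
        have h4 : (A * K) ^ 2 ≤ (2 * R * τ) ^ 2 := by
          have h5 : (2 * R * τ) ^ 2 = 2 * R * (2 * R * T) := by
            rw [mul_pow, hτ2]; ring
          rw [h5]
          calc (A * K) ^ 2 = A * (K * A * K) := by ring
            _ ≤ A * (M * A * K) := by
                refine mul_le_mul_of_nonneg_left ?_ hA.le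
                refine mul_le_mul_of_nonneg_right ?_ hK.le
                exact mul_le_mul_of_nonneg_right hKM hA.le
            _ ≤ A * (2 * R * T) := mul_le_mul_of_nonneg_left hAMK hA.le
            _ ≤ 2 * R * (2 * R * T) := mul_le_mul_of_nonneg_right hAR (by positivity)
        exact (sq_le_sq₀ hAK.le (by positivity)).mp h4
      have h6 : R * τ ^ 3 ≤ U ^ 2 := by
        have h7 : τ ^ 3 = T ^ (3 / 2 : ℝ) := by
          rw [hτ, Real.sqrt_eq_rpow, ← Real.rpow_natCast, ← Real.rpow_mul hT.le]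
          congr 1
          norm_num
        rw [h7]
        calc R * T ^ (3 / 2 : ℝ) ≤ T ^ (1 / 2 - e) * T ^ (3 / 2 : ℝ) :=
              mul_le_mul_of_nonneg_right hRT (Real.rpow_pos_of_pos hT _).le
          _ = T ^ (2 - e) := by rw [hadd]; congr 1; ring
          _ ≤ U ^ 2 := hmono _ (by linarith)
      have h8 : A * K * T ≤ 2 * U ^ 2 := by
        calc A * K * T ≤ 2 * R * τ * T := mul_le_mul_of_nonneg_right h3 hT.le
          _ = 2 * (R * τ ^ 3) := by rw [← hτ2]; ring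
          _ ≤ 2 * U ^ 2 := by linarith
      nlinarith [sq_nonneg U]
    exact (sq_le_sq₀ (by positivity) (by positivity)).mp h2
  have k4 : s⁻¹ * T ≤ 3 / 2 * U := by
    have h2 : (s⁻¹ * T) ^ 2 ≤ (3 / 2 * U) ^ 2 := by
      rw [mul_pow, inv_pow, hs2, mul_pow]
      have h3 : T ^ 2 ≤ 2 * Q * U ^ 2 := by
        have h4 : T ^ 2 = T ^ (e / 4) * T ^ (2 - e / 4) := by
          rw [hadd, ← Real.rpow_natCast]
          congr 1
          push_cast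
          ring
        rw [h4]
        exact mul_le_mul hQT (hmono _ (by linarith)) (Real.rpow_pos_of_pos hT _).le (by positivity)
      rw [inv_mul_le_iff₀ hQ]
      nlinarith [mul_pos hQ (pow_pos hU0 2)]
    exact (sq_le_sq₀ (by positivity) (by positivity)).mp h2
  have hRρ : R⁻¹ * ρ * ρ = 1 := by
    rw [mul_assoc, ← pow_two, hρ2, inv_mul_cancel₀ hR.ne']
  have hsQ : s⁻¹ * Q = s := by
    rw [← hs2, pow_two, inv_mul_cancel_left₀ hs0.ne']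
  have t1 : R⁻¹ * s⁻¹ * (Q ^ 2 * (p * t)) ≤ 3 / 2 * U := by
    calc R⁻¹ * s⁻¹ * (Q ^ 2 * (p * t)) = R⁻¹ * ((s⁻¹ * Q) * Q) * (p * t) := by ring
      _ = R⁻¹ * (s * Q) * (p * t) := by rw [hsQ]
      _ ≤ R⁻¹ * (ρ * R) * (3 / 2 * (ρ * τ)) := by
          refine mul_le_mul ?_ hpt2 (by positivity) (by positivity)
          refine mul_le_mul_of_nonneg_left ?_ (by positivity)
          exact mul_le_mul hsρ hQR hQ.le hρ0.le
      _ = 3 / 2 * (R⁻¹ * ρ * ρ) * (R * τ) := by ring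
      _ = 3 / 2 * (R * τ) := by rw [hRρ, mul_one]
      _ ≤ 3 / 2 * U := by linarith
  have t2 : R⁻¹ * s⁻¹ * (Q * p * (p * t)) ≤ 9 / 4 * U := by
    calc R⁻¹ * s⁻¹ * (Q * p * (p * t)) = R⁻¹ * (s⁻¹ * Q) * p * (p * t) := by ring
      _ = R⁻¹ * s * p * (p * t) := by rw [hsQ]
      _ ≤ R⁻¹ * ρ * p * (3 / 2 * (ρ * τ)) := by
          refine mul_le_mul ?_ hpt2 (by positivity) (by positivity)
          refine mul_le_mul_of_nonneg_right ?_ hp0.le
          exact mul_le_mul_of_nonneg_left hsρ (by positivity)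
      _ = 3 / 2 * (R⁻¹ * ρ * ρ) * (p * τ) := by ring
      _ = 3 / 2 * (p * τ) := by rw [hRρ, mul_one]
      _ ≤ 9 / 4 * U := by linarith
  have t3 : R⁻¹ * s⁻¹ * (Q * t * (p * t)) ≤ 9 / 4 * U := by
    calc R⁻¹ * s⁻¹ * (Q * t * (p * t)) = R⁻¹ * (s⁻¹ * Q) * t * (p * t) := by ring
      _ = R⁻¹ * s * t * (p * t) := by rw [hsQ]
      _ ≤ R⁻¹ * ρ * t * (3 / 2 * (ρ * τ)) := by
          refine mul_le_mul ?_ hpt2 (by positivity) (by positivity)
          refine mul_le_mul_of_nonneg_right ?_ ht0.le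
          exact mul_le_mul_of_nonneg_left hsρ (by positivity)
      _ = 3 / 2 * (R⁻¹ * ρ * ρ) * (t * τ) := by ring
      _ = 3 / 2 * (t * τ) := by rw [hRρ, mul_one]
      _ ≤ 9 / 4 * U := by linarith
  have t4 : R⁻¹ * s⁻¹ * (p * t * (p * t)) ≤ 3 * U := by
    have e1 : p * t * (p * t) = M * A * K := by
      calc p * t * (p * t) = p ^ 2 * t ^ 2 := by ring
        _ = M * A * K := by rw [hp2, ht2]; ring
    rw [e1]
    calc R⁻¹ * s⁻¹ * (M * A * K) ≤ R⁻¹ * s⁻¹ * (2 * R * T) := mul_le_mul_of_nonneg_left hAMK hpos.le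
      _ = 2 * (R⁻¹ * R) * (s⁻¹ * T) := by ring
      _ = 2 * (s⁻¹ * T) := by rw [inv_mul_cancel₀ hR.ne', mul_one]
      _ ≤ 3 * U := by linarith
  rw [hpt]
  calc R⁻¹ * s⁻¹ * (Real.sqrt ((Q ^ 2 + M) * (Q ^ 2 + A * K)) * (p * t))
      ≤ R⁻¹ * s⁻¹ * ((Q + p) * (Q + t) * (p * t)) := by
        refine mul_le_mul_of_nonneg_left ?_ hpos.le
        exact mul_le_mul_of_nonneg_right h1 (by positivity)
    _ = R⁻¹ * s⁻¹ * (Q ^ 2 * (p * t)) + R⁻¹ * s⁻¹ * (Q * p * (p * t)) + R⁻¹ * s⁻¹ * (Q * t * (p * t)) +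
        R⁻¹ * s⁻¹ * (p * t * (p * t)) := by ring
    _ ≤ 9 * U := by linarith

private abbrev IX97 : Type := Σ _ : ℕ, Σ q : ℕ, DirichletCharacter ℂ q

private noncomputable def II97 (A : Finset ℕ) (jq : ℕ) : Finset IX97 :=
  A.sigma (fun r => (r.divisors.filter (fun q : ℕ => q ∈ DB jq)).sigma (fun q => PR q))

private lemma sum97 (A : Finset ℕ) (jq : ℕ) (F : IX97 → ℝ) :
    ∑ i ∈ II97 A jq, ((1 / (Nat.totient i.1 : ℝ) ^ 2) * Real.sqrt i.2.1) * F i =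
      ∑ r ∈ A, (1 / (Nat.totient r : ℝ) ^ 2) * ∑ q ∈ r.divisors.filter (fun q : ℕ => q ∈ DB jq),
        Real.sqrt q * ∑ χ ∈ PR q, F ⟨r, q, χ⟩ := by
  unfold II97
  rw [Finset.sum_sigma]
  refine Finset.sum_congr rfl fun r _ => ?_
  rw [Finset.sum_sigma, Finset.mul_sum]
  refine Finset.sum_congr rfl fun q _ => ?_
  rw [Finset.mul_sum, Finset.mul_sum]
  exact Finset.sum_congr rfl fun χ _ => by ring

private lemma mem_II97 {A : Finset ℕ} {jq : ℕ} {i : IX97} (h : i ∈ II97 A jq) : i.1 ∈ A := by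
  unfold II97 at h
  exact (Finset.mem_sigma.mp h).1

private lemma one_le_DB97 {j n : ℕ} (h : n ∈ DB j) : 1 ≤ n := by
  unfold DB at h
  exact Nat.one_le_two_pow.trans (Finset.mem_Ico.mp h).1

open Classical in
/-- the separated sum is bounded by `XB` -/
private lemma sep97 (e T : ℝ) (α β : ℕ → ℂ) (jr jq ja jm jk : ℕ) (ρ1 ρ2 : ℝ) :
    ∑ i ∈ II97 ((RS e T).filter (fun r => r ∈ DB jr)) jq, ((1 / (Nat.totient i.1 : ℝ) ^ 2) * Real.sqrt i.2.1) *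
      ‖(∑ n ∈ DB ja, (if n ∈ SA e T i.1 then i.2.2 (n : ZMod i.2.1) else 0) * xp ρ1 n) *
        (∑ n ∈ DB jm, (α n * i.2.2 (n : ZMod i.2.1)) * xp ρ2 n) *
        (∑ n ∈ DB jk, (β n * i.2.2 (n : ZMod i.2.1)) * xp ρ2 n)‖ ≤
      XB (fun n => if 1 ≤ n ∧ n ≤ ⌊T⌋₊ ∧ T ^ e < (n : ℝ) then xp ρ1 n else 0) (fun n => α n * xp ρ2 n)
        (fun n => β n * xp ρ2 n) jr jq ja jm jk := by
  rw [sum97 _ _ (fun i : IX97 => ‖(∑ n ∈ DB ja, (if n ∈ SA e T i.1 then i.2.2 (n : ZMod i.2.1) else 0) * xp ρ1 n) *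
        (∑ n ∈ DB jm, (α n * i.2.2 (n : ZMod i.2.1)) * xp ρ2 n) *
        (∑ n ∈ DB jk, (β n * i.2.2 (n : ZMod i.2.1)) * xp ρ2 n)‖)]
  unfold XB
  have hsub : (RS e T).filter (fun r => r ∈ DB jr) ⊆ (DB jr).filter Squarefree := by
    intro r hr
    rw [Finset.mem_filter] at hr ⊢
    refine ⟨hr.2, ?_⟩
    unfold RS at hr
    exact (Finset.mem_filter.mp hr.1).2.1
  refine le_trans (le_of_eq ?_) (Finset.sum_le_sum_of_subset_of_nonneg hsub fun r _ _ => ?_)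
  · refine Finset.sum_congr rfl fun r _ => ?_
    refine congrArg (fun z => (1 / (Nat.totient r : ℝ) ^ 2) * z) (Finset.sum_congr rfl fun q _ => ?_)
    refine congrArg (fun z => Real.sqrt q * z) (Finset.sum_congr rfl fun χ _ => ?_)
    have h1 : ∑ n ∈ DB ja, (if n ∈ SA e T r then χ (n : ZMod q) else 0) * xp ρ1 n =
        ∑ a ∈ (DB ja).filter (fun a => Nat.Coprime a r),
          (if 1 ≤ a ∧ a ≤ ⌊T⌋₊ ∧ T ^ e < (a : ℝ) then xp ρ1 a else 0) * χ a := by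
      rw [Finset.sum_filter]
      refine Finset.sum_congr rfl fun n _ => ?_
      have hmem : n ∈ SA e T r ↔ (1 ≤ n ∧ n ≤ ⌊T⌋₊) ∧ T ^ e < (n : ℝ) ∧ Nat.Coprime n r := by
        unfold SA
        rw [Finset.mem_filter, Finset.mem_Icc]
      by_cases hc : Nat.Coprime n r
      · rw [if_pos hc]
        by_cases h2 : 1 ≤ n ∧ n ≤ ⌊T⌋₊ ∧ T ^ e < (n : ℝ)
        · rw [if_pos h2, if_pos (hmem.mpr ⟨⟨h2.1, h2.2.1⟩, h2.2.2, hc⟩), mul_comm]
        · rw [if_neg h2, if_neg (fun h => h2 ⟨(hmem.mp h).1.1, (hmem.mp h).1.2, (hmem.mp h).2.1⟩), zero_mul, zero_mul]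
      · rw [if_neg hc, if_neg (fun h => hc (hmem.mp h).2.2), zero_mul]
    have h2 : ∀ (γ : ℕ → ℂ) (D : Finset ℕ), ∑ n ∈ D, (γ n * χ (n : ZMod q)) * xp ρ2 n =
        ∑ n ∈ D, (γ n * xp ρ2 n) * χ n := by
      intro γ D
      exact Finset.sum_congr rfl fun n _ => by ring
    show ‖(∑ n ∈ DB ja, (if n ∈ SA e T r then χ (n : ZMod q) else 0) * xp ρ1 n) *
        (∑ n ∈ DB jm, (α n * χ (n : ZMod q)) * xp ρ2 n) *
        (∑ n ∈ DB jk, (β n * χ (n : ZMod q)) * xp ρ2 n)‖ = _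
    rw [h1, h2, h2]
  · refine mul_nonneg (by positivity) (Finset.sum_nonneg fun q _ => mul_nonneg (Real.sqrt_nonneg _) ?_)
    exact Finset.sum_nonneg fun χ _ => norm_nonneg _

open Classical in
/-- the box sum in the form of `ksep` -/
private lemma wb97 (g : TF) (w v : ℝ → ℝ) (e T : ℝ) (α β : ℕ → ℂ) (jr jq ja jm jk : ℕ) :
    WB g w v e T α β jr jq ja jm jk =
      ∑ i ∈ II97 ((RS e T).filter (fun r => r ∈ DB jr)) jq, ((1 / (Nat.totient i.1 : ℝ) ^ 2) * Real.sqrt i.2.1) *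
        ‖∑ l ∈ DB ja, ∑ m ∈ DB jm, ∑ k ∈ DB jk, ((if l ∈ SA e T i.1 then i.2.2 (l : ZMod i.2.1) else 0) *
          (α m * i.2.2 (m : ZMod i.2.1)) * (β k * i.2.2 (k : ZMod i.2.1))) *
          ((FW g w v T (i.1, l) (m * k) : ℝ) : ℂ)‖ := by
  rw [sum97 _ _ (fun i : IX97 => ‖∑ l ∈ DB ja, ∑ m ∈ DB jm, ∑ k ∈ DB jk, ((if l ∈ SA e T i.1 then i.2.2 (l : ZMod i.2.1) else 0) *
          (α m * i.2.2 (m : ZMod i.2.1)) * (β k * i.2.2 (k : ZMod i.2.1))) *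
          ((FW g w v T (i.1, l) (m * k) : ℝ) : ℂ)‖)]
  unfold WB
  refine Finset.sum_congr rfl fun r _ => ?_
  refine congrArg (fun z => (1 / (Nat.totient r : ℝ) ^ 2) * z) (Finset.sum_congr rfl fun q _ => ?_)
  refine congrArg (fun z => Real.sqrt q * z) (Finset.sum_congr rfl fun χ _ => ?_)
  refine congrArg norm ?_
  have h1 : (SA e T r).filter (fun a => a ∈ DB ja) = (DB ja).filter (fun a => a ∈ SA e T r) := by
    ext a
    rw [Finset.mem_filter, Finset.mem_filter, and_comm]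
  rw [h1, Finset.sum_filter]
  refine Finset.sum_congr rfl fun a _ => ?_
  by_cases h : a ∈ SA e T r
  · rw [if_pos h]
    refine Finset.sum_congr rfl fun m _ => Finset.sum_congr rfl fun k _ => ?_
    rw [if_pos h]
    ring
  · rw [if_neg h]
    symm
    refine Finset.sum_eq_zero fun m _ => Finset.sum_eq_zero fun k _ => ?_
    rw [if_neg h]
    ring

theorem kbx (g : TF) {w v : ℝ → ℝ} {a b a' b' e d : ℝ} (hw : WR w a b) (hb : b < 3 / 2)
    (hv : WR v a' b') (ha' : 1 < a') (hb' : b' < 3 / 2) (he : 0 < e) (he1 : e < 1 / 4) (hd : 0 < d) :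
    ∃ δ ε C : ℝ, 0 < δ ∧ 0 < ε ∧ 0 < C ∧ ∀ᶠ T : ℝ in atTop, ∀ α β : ℕ → ℂ,
      (∀ m : ℕ, 1 ≤ m → (m : ℝ) ≤ T ^ 2 → ‖α m‖ ≤ T ^ ε) → (∀ k : ℕ, 1 ≤ k → (k : ℝ) ≤ T ^ 2 → ‖β k‖ ≤ T ^ ε) →
      ∀ jr jq ja jm jk : ℕ, T ^ (e / 4) ≤ 2 * 2 ^ jq → 2 ^ jr * T ^ d ≤ 2 ^ ja * 2 ^ jm → 2 ^ jr * T ^ d ≤ 2 ^ ja * 2 ^ jk →
        WB g w v e T α β jr jq ja jm jk ≤ C * T ^ (1 - δ) := by
  set δ0 : ℝ := min (d / 2) (e / 8) with hδ0
  have hδpos : 0 < δ0 := lt_min (by linarith) (by linarith)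
  have hδ1 : 2 * δ0 ≤ d := by
    have := min_le_left (d / 2) (e / 8)
    linarith
  have hδ2 : 8 * δ0 ≤ e := by
    have := min_le_right (d / 2) (e / 8)
    linarith
  obtain ⟨c0, hc0, hsupp⟩ := fw_supp g hw hb hv ha'
  obtain ⟨C1, hC1, hsep⟩ := ksep g hw hv
  obtain ⟨C2, hC2, hklc⟩ := klc (ε := δ0 / 12) (by linarith)
  refine ⟨δ0 / 2, δ0 / 8, C1 * (C2 * 9), by linarith, by linarith, by positivity, ?_⟩
  filter_upwards [eventually_ge_atTop (16 : ℝ)] with T hT16 α β hα hβ jr jq ja jm jk hQT hRm hRk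
  have hT1 : 1 < T := by linarith
  have hT : 0 < T := by linarith
  have hrhs : 0 ≤ C1 * (C2 * 9) * T ^ (1 - δ0 / 2) := by positivity
  by_cases hne : ∃ r ∈ (RS e T).filter (fun r => r ∈ DB jr), ∃ q ∈ r.divisors.filter (fun q : ℕ => q ∈ DB jq),
      ∃ l ∈ (SA e T r).filter (fun a => a ∈ DB ja), ∃ m ∈ DB jm, ∃ k ∈ DB jk, FW g w v T (r, l) (m * k) ≠ 0
  · obtain ⟨r, hr, q, hq, l, hl, m, hm, k, hk, hFW⟩ := hne
    rw [Finset.mem_filter] at hr hq hl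
    have hrS := hr.1
    unfold RS at hrS
    rw [Finset.mem_filter, Finset.mem_Icc] at hrS
    have hr1 : 1 ≤ r := hrS.1.1
    have hrT : (r : ℝ) ≤ T ^ (1 / 2 - e) := hrS.2.2
    have hl1 : 1 ≤ l := one_le_DB97 hl.2
    have hdb : ∀ {j n : ℕ}, n ∈ DB j → ((2:ℝ) ^ j ≤ n ∧ (n : ℝ) < 2 * 2 ^ j) := by
      intro j n h
      unfold DB at h
      rw [Finset.mem_Ico] at h
      constructor
      · exact_mod_cast h.1
      · have h1 := h.2
        rw [pow_succ] at h1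
        have h2 : (n : ℝ) < ((2 ^ j * 2 : ℕ) : ℝ) := by exact_mod_cast h1
        push_cast at h2
        linarith
    obtain ⟨hlr, -, hmk, -, hlmk⟩ := hsupp T hT1 r l (m * k) hr1 hl1 hFW
    push_cast at hmk hlmk
    have hlr' : (l : ℝ) < r := by exact_mod_cast hlr
    obtain ⟨r1, r2⟩ := hdb hr.2
    obtain ⟨l1, l2⟩ := hdb hl.2
    obtain ⟨m1, m2⟩ := hdb hm
    obtain ⟨k1, k2⟩ := hdb hk
    obtain ⟨q1, q2⟩ := hdb hq.2
    have pr : (1:ℝ) ≤ 2 ^ jr := one_le_pow₀ one_le_two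
    have pq : (1:ℝ) ≤ 2 ^ jq := one_le_pow₀ one_le_two
    have pa : (1:ℝ) ≤ 2 ^ ja := one_le_pow₀ one_le_two
    have pm : (1:ℝ) ≤ 2 ^ jm := one_le_pow₀ one_le_two
    have pk : (1:ℝ) ≤ 2 ^ jk := one_le_pow₀ one_le_two
    have hRT : (2:ℝ) ^ jr ≤ T ^ (1 / 2 - e) := r1.trans hrT
    have hAR : (2:ℝ) ^ ja ≤ 2 * 2 ^ jr := by linarith
    have hlmk2 : (l : ℝ) * (m * k) ≤ 2 * 2 ^ jr * T := by
      refine hlmk.trans ?_
      exact mul_le_mul_of_nonneg_right r2.le hT.le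
    have hAMK : (2:ℝ) ^ jm * 2 ^ ja * 2 ^ jk ≤ 2 * 2 ^ jr * T := by
      refine le_trans ?_ hlmk2
      have h1 : (2:ℝ) ^ jm * 2 ^ jk ≤ m * k := mul_le_mul m1 k1 (by positivity) (by positivity)
      calc (2:ℝ) ^ jm * 2 ^ ja * 2 ^ jk = 2 ^ ja * (2 ^ jm * 2 ^ jk) := by ring
        _ ≤ l * (m * k) := mul_le_mul l1 h1 (by positivity) (by positivity)
    have hQR : (2:ℝ) ^ jq ≤ 2 ^ jr := by
      have h1 : q ≤ r := Nat.divisor_le hq.1
      have h2 : (q : ℝ) ≤ r := by exact_mod_cast h1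
      have h3 : (2:ℝ) ^ jq < 2 ^ (jr + 1) := by
        rw [pow_succ]
        linarith
      have h4 : jq < jr + 1 := (pow_lt_pow_iff_right₀ one_lt_two).mp h3
      exact pow_le_pow_right₀ one_le_two (by omega)
    have hMK : (m : ℝ) * k ≤ T ^ (3 / 2 : ℝ) := hmk.le
    have hT32 : 2 * T ^ (3 / 2 : ℝ) ≤ T ^ 2 := by
      have h1 : T ^ 2 = T ^ (3 / 2 : ℝ) * T ^ (1 / 2 : ℝ) := by
        rw [← Real.rpow_add hT, ← Real.rpow_natCast]
        norm_num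
      have h2 : (2:ℝ) ≤ T ^ (1 / 2 : ℝ) := by
        have h3 : ((4:ℝ)) ^ (1 / 2 : ℝ) ≤ T ^ (1 / 2 : ℝ) :=
          Real.rpow_le_rpow (by norm_num) (by linarith) (by norm_num)
        have h4 : (4:ℝ) ^ (1 / 2 : ℝ) = 2 := by
          rw [← Real.sqrt_eq_rpow, show (4:ℝ) = 2 ^ 2 by norm_num, Real.sqrt_sq (by norm_num)]
        linarith
      rw [h1]
      have h3 : 0 ≤ T ^ (3 / 2 : ℝ) := (Real.rpow_pos_of_pos hT _).le
      nlinarith
    have hm0 : (1:ℝ) ≤ m := pm.trans m1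
    have hk0 : (1:ℝ) ≤ k := pk.trans k1
    have hαb : ∀ n ∈ DB jm, ‖α n‖ ≤ T ^ (δ0 / 8) := by
      intro n hn
      refine hα n (one_le_DB97 hn) ?_
      have h1 := (hdb hn).2
      have h2 : (m : ℝ) ≤ m * k := le_mul_of_one_le_right (by linarith) hk0
      linarith
    have hβb : ∀ n ∈ DB jk, ‖β n‖ ≤ T ^ (δ0 / 8) := by
      intro n hn
      refine hβ n (one_le_DB97 hn) ?_
      have h1 := (hdb hn).2
      have h2 : (k : ℝ) ≤ m * k := le_mul_of_one_le_left (by linarith) hm0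
      linarith
    -- the factor `(RAK)^ε'`
    have hfac : ∀ K' M' : ℝ, 1 ≤ K' → 1 ≤ M' → M' * 2 ^ ja * K' ≤ 2 * 2 ^ jr * T →
        (2 ^ jr * 2 ^ ja * K') ^ (δ0 / 12) ≤ T ^ (δ0 / 4) := by
      intro K' M' hK' hM' h
      have h1 : (2:ℝ) ^ ja * K' ≤ M' * 2 ^ ja * K' := by
        have : 0 ≤ (2:ℝ) ^ ja * K' := by positivity
        nlinarith
      have h2 : (2:ℝ) ^ jr * 2 ^ ja * K' ≤ T ^ (3:ℝ) := by
        have h3 : (2:ℝ) ^ jr ≤ T := by
          refine hRT.trans ?_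
          nth_rewrite 2 [← Real.rpow_one T]
          exact Real.rpow_le_rpow_of_exponent_le hT1.le (by linarith)
        have h4 : T ^ (3:ℝ) = T ^ 3 := by
          rw [← Real.rpow_natCast]; norm_num
        have h6 : (2:ℝ) ^ jr ≤ T ^ (1 / 2 : ℝ) :=
          hRT.trans (Real.rpow_le_rpow_of_exponent_le hT1.le (by linarith))
        have h7 : ((2:ℝ) ^ jr) ^ 2 ≤ T := by
          calc ((2:ℝ) ^ jr) ^ 2 ≤ (T ^ (1 / 2 : ℝ)) ^ 2 := pow_le_pow_left₀ (by positivity) h6 2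
            _ = T := by
                rw [← Real.sqrt_eq_rpow, Real.sq_sqrt hT.le]
        rw [h4]
        calc (2:ℝ) ^ jr * 2 ^ ja * K' = 2 ^ jr * (2 ^ ja * K') := by ring
          _ ≤ 2 ^ jr * (2 * 2 ^ jr * T) := mul_le_mul_of_nonneg_left (h1.trans h) (by positivity)
          _ = 2 * (((2:ℝ) ^ jr) ^ 2 * T) := by ring
          _ ≤ 2 * (T * T) := by
              have := mul_le_mul_of_nonneg_right h7 hT.le
              linarith
          _ ≤ T ^ 3 := by nlinarith [mul_pos hT hT]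
      calc (2 ^ jr * 2 ^ ja * K') ^ (δ0 / 12) ≤ (T ^ (3:ℝ)) ^ (δ0 / 12) :=
            Real.rpow_le_rpow (by positivity) h2 (by linarith)
        _ = T ^ (δ0 / 4) := by
            rw [← Real.rpow_mul hT.le]
            congr 1
            ring
    have hTe2 : (T ^ (δ0 / 8)) ^ 2 * T ^ (δ0 / 4) * T ^ (1 - δ0) = T ^ (1 - δ0 / 2) := by
      rw [← Real.rpow_natCast, ← Real.rpow_mul hT.le, ← Real.rpow_add hT, ← Real.rpow_add hT]
      congr 1
      push_cast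
      ring
    -- the bound for `XB`
    have hXB : ∀ (jm' jk' : ℕ) (γ α' β' : ℕ → ℂ), (∀ n, ‖γ n‖ ≤ 1) → (∀ n ∈ DB jm', ‖α' n‖ ≤ T ^ (δ0 / 8)) →
        (∀ n ∈ DB jk', ‖β' n‖ ≤ T ^ (δ0 / 8)) → (2:ℝ) ^ jk' ≤ 2 ^ jm' →
        (2:ℝ) ^ jm' * 2 ^ ja * 2 ^ jk' ≤ 2 * 2 ^ jr * T → (2:ℝ) ^ jr * T ^ d ≤ 2 ^ ja * 2 ^ jk' →
        XB γ α' β' jr jq ja jm' jk' ≤ C2 * 9 * T ^ (1 - δ0 / 2) := by
      intro jm' jk' γ α' β' hγ hα' hβ' hKM hAMK' hRd'
      have h1 := hklc jr jq ja jm' jk' γ α' β' (T ^ (δ0 / 8)) (fun l _ => hγ l) hα' hβ'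
      have h2 := num97 (R := 2 ^ jr) (Q := 2 ^ jq) (A := 2 ^ ja) (M := 2 ^ jm') (K := 2 ^ jk')
        (e := e) pr pq pa (one_le_pow₀ one_le_two) (one_le_pow₀ one_le_two) hT1.le hQR hRT hAR hAMK' hKM hRd' hQT
        hδ1 hδ2 hδpos
      have h3 := hfac (2 ^ jk') (2 ^ jm') (one_le_pow₀ one_le_two) (one_le_pow₀ one_le_two) hAMK'
      have h4 : ((2:ℝ) ^ (jr + ja + jk')) ^ (δ0 / 12) ≤ T ^ (δ0 / 4) := by
        rw [pow_add, pow_add]
        exact h3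
      refine h1.trans ?_
      have hp1 : 0 ≤ C2 * (T ^ (δ0 / 8)) ^ 2 := by positivity
      calc C2 * (T ^ (δ0 / 8)) ^ 2 * ((2:ℝ) ^ (jr + ja + jk')) ^ (δ0 / 12) * (((2:ℝ) ^ jr)⁻¹ * (Real.sqrt (2 ^ jq))⁻¹ *
            (Real.sqrt (((2 ^ jq) ^ 2 + 2 ^ jm') * ((2 ^ jq) ^ 2 + 2 ^ ja * 2 ^ jk')) * Real.sqrt (2 ^ jm' * 2 ^ ja * 2 ^ jk')))
          ≤ C2 * (T ^ (δ0 / 8)) ^ 2 * T ^ (δ0 / 4) * (9 * T ^ (1 - δ0)) := by
            refine mul_le_mul (mul_le_mul_of_nonneg_left h4 hp1) h2 (by positivity) (by positivity)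
        _ = C2 * 9 * ((T ^ (δ0 / 8)) ^ 2 * T ^ (δ0 / 4) * T ^ (1 - δ0)) := by ring
        _ = C2 * 9 * T ^ (1 - δ0 / 2) := by rw [hTe2]
    classical
    rw [wb97]
    have hfin := hsep T hT1 IX97 (II97 ((RS e T).filter (fun r => r ∈ DB jr)) jq)
      (fun i => (1 / (Nat.totient i.1 : ℝ) ^ 2) * Real.sqrt i.2.1) (fun i => i.1) (DB ja) (DB jm) (DB jk)
      (fun i l => if l ∈ SA e T i.1 then i.2.2 (l : ZMod i.2.1) else 0)
      (fun i m => α m * i.2.2 (m : ZMod i.2.1)) (fun i k => β k * i.2.2 (k : ZMod i.2.1))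
      (C2 * 9 * T ^ (1 - δ0 / 2)) (fun i _ => by positivity) (fun i hi => by
        have h1 := mem_II97 hi
        rw [Finset.mem_filter] at h1
        exact one_le_DB97 h1.2) (fun n hn => one_le_DB97 hn) (fun n hn => one_le_DB97 hn)
      (fun n hn => one_le_DB97 hn) (fun ρ1 ρ2 => by
        refine (sep97 e T α β jr jq ja jm jk ρ1 ρ2).trans ?_
        have hγ : ∀ n : ℕ, ‖(if 1 ≤ n ∧ n ≤ ⌊T⌋₊ ∧ T ^ e < (n : ℝ) then xp ρ1 n else 0 : ℂ)‖ ≤ 1 := by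
          intro n
          split_ifs
          · rw [xp_norm97]
          · rw [norm_zero]; exact zero_le_one
        have hα' : ∀ n ∈ DB jm, ‖α n * xp ρ2 n‖ ≤ T ^ (δ0 / 8) := by
          intro n hn
          rw [norm_mul, xp_norm97, mul_one]
          exact hαb n hn
        have hβ' : ∀ n ∈ DB jk, ‖β n * xp ρ2 n‖ ≤ T ^ (δ0 / 8) := by
          intro n hn
          rw [norm_mul, xp_norm97, mul_one]
          exact hβb n hn
        rcases le_total ((2:ℝ) ^ jk) (2 ^ jm) with hle | hle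
        · exact hXB jm jk _ _ _ hγ hα' hβ' hle hAMK hRk
        · rw [xb_symm]
          refine hXB jk jm _ _ _ hγ hβ' hα' hle ?_ hRm
          calc (2:ℝ) ^ jk * 2 ^ ja * 2 ^ jm = 2 ^ jm * 2 ^ ja * 2 ^ jk := by ring
            _ ≤ _ := hAMK)
    refine hfin.trans (le_of_eq ?_)
    ring
  · have hz : WB g w v e T α β jr jq ja jm jk = 0 := by
      unfold WB
      refine Finset.sum_eq_zero fun r hr => ?_
      rw [Finset.sum_eq_zero, mul_zero]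
      intro q hq
      rw [Finset.sum_eq_zero, mul_zero]
      intro χ _
      rw [Finset.sum_eq_zero, norm_zero]
      intro l hl
      refine Finset.sum_eq_zero fun m hm => Finset.sum_eq_zero fun k hk => ?_
      have h0 : FW g w v T (r, l) (m * k) = 0 := by
        by_contra h
        exact hne ⟨r, hr, q, hq, l, hl, m, hm, k, hk, h⟩
      rw [h0, Complex.ofReal_zero, mul_zero]
    rw [hz]
    exact hrhs

end Pool.Agent.Helper69.FF
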