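import Pool.Agent.Helper69.FF.KDefs
import Pool.Agent.Helper69.FF.KSup

/-!
# FF-KDy: dyadic decomposition

Every `n ≥ 1` lies in exactly one `DB j`, `j = Nat.log 2 n`. For `n ≤ T²`: `j ≤ 3 log T`, so at most `4 log T` classes (`T` large). In `SJ` split the sums over `l, m, k` (the `k`- and `m`-sums may be extended to
whole dyadic blocks: `FW(r, l, m k) = 0` unless `m k < T^(3/2)`, FF.KSup); the predicate depends only on the classes. Triangle inequality, then split `r` and `q` into classes. If `q > T^(e/4)` and `q ∈ DB jq` then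
`T^(e/4) < 2 · 2^jq`; the other terms of `WB` are non-negative. At most `(4 log T)^5` boxes. `C = 1024`.
-/

open MeasureTheory Set Filter Topology
open Pool.Agent.Helper57.Zeta Pool.Agent.Helper57.PC Pool.Agent.Helper57.LH Pool.Agent.Helper78.SG
open Pool.Agent.Helper4.SH (om)
open scoped ContDiff

namespace Pool.Agent.Helper69.FF

private theorem dy_mem {x j : ℕ} (hx : 1 ≤ x) : x ∈ DB j ↔ Nat.log 2 x = j := by
  unfold DB
  rw [Finset.mem_Ico, Nat.log_eq_iff (Or.inr ⟨by norm_num, by omega⟩)]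

private theorem dy_one {x j : ℕ} (hx : x ∈ DB j) : 1 ≤ x := by
  unfold DB at hx
  rw [Finset.mem_Ico] at hx
  have : 0 < 2 ^ j := by positivity
  omega

private theorem dy_sumA {M : Type*} [AddCommMonoid M] (F : ℕ → M) (S : Finset ℕ) (J : ℕ)
    (hS : ∀ x ∈ S, 1 ≤ x ∧ x < 2 ^ J) :
    ∑ x ∈ S, F x = ∑ j ∈ Finset.range J, ∑ x ∈ S.filter (fun x => x ∈ DB j), F x := by
  rw [← Finset.sum_fiberwise_of_maps_to (g := Nat.log 2) (t := Finset.range J)]
  · refine Finset.sum_congr rfl fun j _ => ?_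
    have h1 : S.filter (fun x => Nat.log 2 x = j) = S.filter (fun x => x ∈ DB j) :=
      Finset.filter_congr fun x hx => (dy_mem (hS x hx).1).symm
    rw [h1]
  · intro x hx
    obtain ⟨h1, h2⟩ := hS x hx
    rw [Finset.mem_range]
    exact Nat.log_lt_of_lt_pow (by omega) h2

private theorem dy_sumB {M : Type*} [AddCommMonoid M] (F : ℕ → M) (J : ℕ) :
    ∑ x ∈ Finset.Ico (1 : ℕ) (2 ^ J), F x = ∑ j ∈ Finset.range J, ∑ x ∈ DB j, F x := by
  rw [dy_sumA F (Finset.Ico (1 : ℕ) (2 ^ J)) J (fun x hx => Finset.mem_Ico.1 hx)]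
  refine Finset.sum_congr rfl fun j hj => ?_
  congr 1
  ext x
  rw [Finset.mem_filter, Finset.mem_Ico]
  constructor
  · exact fun h => h.2
  · intro h
    refine ⟨⟨dy_one h, ?_⟩, h⟩
    unfold DB at h
    rw [Finset.mem_Ico] at h
    rw [Finset.mem_range] at hj
    exact lt_of_lt_of_le h.2 (Nat.pow_le_pow_right (by norm_num) hj)

/-- the box sum for one modulus and one character -/
private noncomputable def dyB (g : TF) (w v : ℝ → ℝ) (e T : ℝ) (α β : ℕ → ℂ) (r : ℕ) {q : ℕ}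
    (χ : DirichletCharacter ℂ q) (ja jm jk : ℕ) : ℂ :=
  ∑ a ∈ (SA e T r).filter (fun a => a ∈ DB ja), ∑ m ∈ DB jm, ∑ k ∈ DB jk,
      (χ a * χ m * χ k) * (α m * β k) * ((FW g w v T (r, a) (m * k) : ℝ) : ℂ)

open Classical in
private theorem dy_SJ (g : TF) {w v : ℝ → ℝ} {e T : ℝ} {α β : ℕ → ℂ} {r : ℕ} {q : ℕ}
    (χ : DirichletCharacter ℂ q) (P : ℕ → ℕ → Prop) {J : ℕ} (hJ : ⌊T ^ 2⌋₊ < 2 ^ J) (hT : ⌊T⌋₊ < 2 ^ J)
    (hz : ∀ l m k : ℕ, 1 ≤ l → 1 ≤ m → 1 ≤ k → (⌊T ^ 2⌋₊ < m ∨ ⌊T ^ 2⌋₊ < k) → FW g w v T (r, l) (m * k) = 0) :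
    ‖SJ g w v e T r χ α β (fun l m => P (Nat.log 2 l) (Nat.log 2 m))‖ ≤
      ∑ t ∈ Finset.range J ×ˢ (Finset.range J ×ˢ Finset.range J),
        (if P t.1 t.2.1 then ‖dyB g w v e T α β r χ t.1 t.2.1 t.2.2‖ else 0) := by
  have hSA : ∀ x ∈ SA e T r, 1 ≤ x ∧ x < 2 ^ J := by
    intro x hx
    unfold SA at hx
    rw [Finset.mem_filter, Finset.mem_Icc] at hx
    exact ⟨hx.1.1, lt_of_le_of_lt hx.1.2 hT⟩
  -- extension of the sums over `m`, `k`
  have h1 : SJ g w v e T r χ α β (fun l m => P (Nat.log 2 l) (Nat.log 2 m)) =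
      ∑ l ∈ SA e T r, ∑ m ∈ Finset.Ico (1 : ℕ) (2 ^ J), ∑ k ∈ Finset.Ico (1 : ℕ) (2 ^ J),
        if P (Nat.log 2 l) (Nat.log 2 m) then
          (χ l * χ m * χ k) * (α m * β k) * ((FW g w v T (r, l) (m * k) : ℝ) : ℂ) else 0 := by
    unfold SJ
    refine Finset.sum_congr rfl fun l hl => ?_
    have hl1 := (hSA l hl).1
    have hsub : Finset.Icc 1 ⌊T ^ 2⌋₊ ⊆ Finset.Ico (1 : ℕ) (2 ^ J) := by
      intro x hx
      rw [Finset.mem_Icc] at hx
      rw [Finset.mem_Ico]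
      omega
    rw [← Finset.sum_subset hsub]
    · refine Finset.sum_congr rfl fun m hm => ?_
      rw [Finset.mem_Icc] at hm
      refine Finset.sum_subset hsub fun k hk hk' => ?_
      rw [Finset.mem_Ico] at hk
      rw [Finset.mem_Icc] at hk'
      rw [hz l m k hl1 hm.1 hk.1 (Or.inr (by omega))]
      simp
    · intro m hm hm'
      rw [Finset.mem_Ico] at hm
      rw [Finset.mem_Icc] at hm'
      refine Finset.sum_eq_zero fun k hk => ?_
      rw [Finset.mem_Ico] at hk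
      rw [hz l m k hl1 hm.1 hk.1 (Or.inl (by omega))]
      simp
  rw [h1, dy_sumA _ (SA e T r) J hSA, Finset.sum_product]
  refine (norm_sum_le _ _).trans (Finset.sum_le_sum fun ja _ => ?_)
  have h2 : ∑ l ∈ (SA e T r).filter (fun x => x ∈ DB ja), ∑ m ∈ Finset.Ico (1 : ℕ) (2 ^ J), ∑ k ∈ Finset.Ico (1 : ℕ) (2 ^ J),
      (if P (Nat.log 2 l) (Nat.log 2 m) then
          (χ l * χ m * χ k) * (α m * β k) * ((FW g w v T (r, l) (m * k) : ℝ) : ℂ) else 0) =
      ∑ s ∈ Finset.range J ×ˢ Finset.range J, (if P ja s.1 then dyB g w v e T α β r χ ja s.1 s.2 else 0) := by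
    rw [Finset.sum_product]
    simp_rw [dy_sumB]
    rw [Finset.sum_comm]
    refine Finset.sum_congr rfl fun jm _ => ?_
    have h3 : ∀ l ∈ (SA e T r).filter (fun x => x ∈ DB ja),
        ∑ m ∈ DB jm, ∑ jk ∈ Finset.range J, ∑ k ∈ DB jk,
          (if P (Nat.log 2 l) (Nat.log 2 m) then
            (χ l * χ m * χ k) * (α m * β k) * ((FW g w v T (r, l) (m * k) : ℝ) : ℂ) else 0) =
        ∑ jk ∈ Finset.range J, ∑ m ∈ DB jm, ∑ k ∈ DB jk,
          (if P ja jm then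
            (χ l * χ m * χ k) * (α m * β k) * ((FW g w v T (r, l) (m * k) : ℝ) : ℂ) else 0) := by
      intro l hl
      rw [Finset.mem_filter] at hl
      have hl2 : Nat.log 2 l = ja := (dy_mem (hSA l hl.1).1).1 hl.2
      rw [Finset.sum_comm]
      refine Finset.sum_congr rfl fun jk _ => Finset.sum_congr rfl fun m hm => ?_
      have hm2 : Nat.log 2 m = jm := (dy_mem (dy_one hm)).1 hm
      rw [hl2, hm2]
    rw [Finset.sum_congr rfl h3, Finset.sum_comm]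
    refine Finset.sum_congr rfl fun jk _ => ?_
    by_cases hP : P ja jm
    · simp only [if_pos hP]
      rfl
    · simp only [if_neg hP, Finset.sum_const_zero]
  rw [h2]
  refine (norm_sum_le _ _).trans (Finset.sum_le_sum fun s _ => ?_)
  show ‖(if P ja s.1 then dyB g w v e T α β r χ ja s.1 s.2 else 0)‖ ≤
    (if P ja s.1 then ‖dyB g w v e T α β r χ ja s.1 s.2‖ else 0)
  split_ifs
  · exact le_rfl
  · rw [norm_zero]

open Classical in
/-- one box in the variables `l, m, k` -/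
private theorem dy_box (g : TF) {w v : ℝ → ℝ} {e T : ℝ} {α β : ℕ → ℂ} (P : ℕ → ℕ → ℕ → Prop) {J : ℕ}
    (hT : ⌊T⌋₊ < 2 ^ J) {D : ℝ} (hD : 0 ≤ D) (ja jm jk : ℕ)
    (h : ∀ jr jq : ℕ, P jr ja jm → T ^ (e / 4) ≤ 2 * 2 ^ jq → WB g w v e T α β jr jq ja jm jk ≤ D) :
    ∑ r ∈ RS e T, (1 / (Nat.totient r : ℝ) ^ 2) *
      ∑ q ∈ r.divisors.filter (fun q : ℕ => T ^ (e / 4) < (q : ℝ) ∧ (q : ℝ) ≤ T), Real.sqrt q * ∑ χ ∈ PR q,
        (if P (Nat.log 2 r) ja jm then ‖dyB g w v e T α β r χ ja jm jk‖ else 0) ≤ J * (J * D) := by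
  have hRS : ∀ x ∈ RS e T, 1 ≤ x ∧ x < 2 ^ J := by
    intro x hx
    unfold RS at hx
    rw [Finset.mem_filter, Finset.mem_Icc] at hx
    exact ⟨hx.1.1, lt_of_le_of_lt hx.1.2 hT⟩
  rw [dy_sumA _ (RS e T) J hRS]
  have h0 : ∀ jr ∈ Finset.range J, ∑ r ∈ (RS e T).filter (fun x => x ∈ DB jr), (1 / (Nat.totient r : ℝ) ^ 2) *
      ∑ q ∈ r.divisors.filter (fun q : ℕ => T ^ (e / 4) < (q : ℝ) ∧ (q : ℝ) ≤ T), Real.sqrt q * ∑ χ ∈ PR q,
        (if P (Nat.log 2 r) ja jm then ‖dyB g w v e T α β r χ ja jm jk‖ else 0) ≤ J * D := by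
    intro jr _
    by_cases hP : P jr ja jm
    · -- split `q`
      have h1 : ∀ r ∈ (RS e T).filter (fun x => x ∈ DB jr), (1 / (Nat.totient r : ℝ) ^ 2) *
          ∑ q ∈ r.divisors.filter (fun q : ℕ => T ^ (e / 4) < (q : ℝ) ∧ (q : ℝ) ≤ T), Real.sqrt q * ∑ χ ∈ PR q,
            (if P (Nat.log 2 r) ja jm then ‖dyB g w v e T α β r χ ja jm jk‖ else 0) ≤
          ∑ jq ∈ Finset.range J, (if T ^ (e / 4) ≤ 2 * 2 ^ jq then (1 / (Nat.totient r : ℝ) ^ 2) *
            ∑ q ∈ r.divisors.filter (fun q : ℕ => q ∈ DB jq), Real.sqrt q * ∑ χ ∈ PR q,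
              ‖dyB g w v e T α β r χ ja jm jk‖ else 0) := by
        intro r hr
        rw [Finset.mem_filter] at hr
        have hr1 := hRS r hr.1
        have hlog : Nat.log 2 r = jr := (dy_mem hr1.1).1 hr.2
        rw [hlog]
        simp only [if_pos hP]
        have hF : ∀ x ∈ r.divisors.filter (fun q : ℕ => T ^ (e / 4) < (q : ℝ) ∧ (q : ℝ) ≤ T), 1 ≤ x ∧ x < 2 ^ J := by
          intro x hx
          rw [Finset.mem_filter, Nat.mem_divisors] at hx
          have hx1 := Nat.pos_of_dvd_of_pos hx.1.1 (by omega)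
          have hx2 := Nat.le_of_dvd (by omega) hx.1.1
          exact ⟨hx1, lt_of_le_of_lt hx2 hr1.2⟩
        rw [dy_sumA _ _ J hF, Finset.mul_sum]
        refine Finset.sum_le_sum fun jq _ => ?_
        split_ifs with hc
        · refine mul_le_mul_of_nonneg_left ?_ (by positivity)
          refine Finset.sum_le_sum_of_subset_of_nonneg ?_ (fun q _ _ => by positivity)
          intro x hx
          rw [Finset.mem_filter, Finset.mem_filter] at hx
          rw [Finset.mem_filter]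
          exact ⟨hx.1.1, hx.2⟩
        · have hemp : (r.divisors.filter (fun q : ℕ => T ^ (e / 4) < (q : ℝ) ∧ (q : ℝ) ≤ T)).filter
              (fun x => x ∈ DB jq) = ∅ := by
            rw [Finset.filter_eq_empty_iff]
            intro x hx hx'
            rw [Finset.mem_filter] at hx
            unfold DB at hx'
            rw [Finset.mem_Ico] at hx'
            apply hc
            have h2 : (x : ℝ) < 2 * 2 ^ jq := by
              have h3 : x < 2 * 2 ^ jq := by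
                have := hx'.2
                rw [pow_succ'] at this
                exact this
              exact_mod_cast h3
            linarith [hx.2.1]
          rw [hemp]
          simp
      refine (Finset.sum_le_sum h1).trans ?_
      rw [Finset.sum_comm]
      have h4 : ∀ jq ∈ Finset.range J, ∑ r ∈ (RS e T).filter (fun x => x ∈ DB jr),
          (if T ^ (e / 4) ≤ 2 * 2 ^ jq then (1 / (Nat.totient r : ℝ) ^ 2) *
            ∑ q ∈ r.divisors.filter (fun q : ℕ => q ∈ DB jq), Real.sqrt q * ∑ χ ∈ PR q,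
              ‖dyB g w v e T α β r χ ja jm jk‖ else 0) ≤ D := by
        intro jq _
        by_cases hc : T ^ (e / 4) ≤ 2 * 2 ^ jq
        · simp only [if_pos hc]
          exact h jr jq hP hc
        · simp only [if_neg hc, Finset.sum_const_zero]
          exact hD
      refine (Finset.sum_le_sum h4).trans ?_
      rw [Finset.sum_const, Finset.card_range, nsmul_eq_mul]
    · have h1 : ∀ r ∈ (RS e T).filter (fun x => x ∈ DB jr), (1 / (Nat.totient r : ℝ) ^ 2) *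
          ∑ q ∈ r.divisors.filter (fun q : ℕ => T ^ (e / 4) < (q : ℝ) ∧ (q : ℝ) ≤ T), Real.sqrt q * ∑ χ ∈ PR q,
            (if P (Nat.log 2 r) ja jm then ‖dyB g w v e T α β r χ ja jm jk‖ else 0) = 0 := by
        intro r hr
        rw [Finset.mem_filter] at hr
        have hlog : Nat.log 2 r = jr := (dy_mem (hRS r hr.1).1).1 hr.2
        rw [hlog]
        simp only [if_neg hP, Finset.sum_const_zero, mul_zero]
      rw [Finset.sum_congr rfl h1, Finset.sum_const_zero]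
      positivity
  refine (Finset.sum_le_sum h0).trans ?_
  rw [Finset.sum_const, Finset.card_range, nsmul_eq_mul]

theorem kdy (g : TF) {w v : ℝ → ℝ} {a b a' b' e : ℝ} (hw : WR w a b) (hb : b < 3 / 2)
    (hv : WR v a' b') (ha' : 1 < a') (he : 0 < e) (he1 : e < 1 / 4) :
    ∃ C : ℝ, 0 < C ∧ ∀ᶠ T : ℝ in atTop, ∀ (α β : ℕ → ℂ) (P : ℕ → ℕ → ℕ → Prop) (D : ℝ), 0 ≤ D →
      (∀ jr jq ja jm jk : ℕ, P jr ja jm → T ^ (e / 4) ≤ 2 * 2 ^ jq → WB g w v e T α β jr jq ja jm jk ≤ D) →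
      WJ g w v e T α β (fun r l m => P (Nat.log 2 r) (Nat.log 2 l) (Nat.log 2 m)) (T ^ (e / 4)) T ≤
        C * Real.log T ^ 5 * D := by
  classical
  have _ := he
  have _ := he1
  obtain ⟨c, hc, hsupp⟩ := fw_supp g hw hb hv ha'
  refine ⟨1024, by norm_num, ?_⟩
  filter_upwards [eventually_gt_atTop 1, Real.tendsto_log_atTop.eventually_ge_atTop 1] with T hT1 hlog
  intro α β P D hD h
  have hT0 : 0 < T := by linarith
  obtain ⟨J, hJd⟩ : ∃ J : ℕ, J = Nat.log 2 ⌊T ^ 2⌋₊ + 1 := ⟨_, rfl⟩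
  have hJ : ⌊T ^ 2⌋₊ < 2 ^ J := by
    rw [hJd]
    exact Nat.lt_pow_succ_log_self (by norm_num) _
  have hTT : T ≤ T ^ 2 := by nlinarith
  have hTJ : ⌊T⌋₊ < 2 ^ J := lt_of_le_of_lt (Nat.floor_le_floor hTT) hJ
  have hN1 : 1 ≤ ⌊T ^ 2⌋₊ := Nat.le_floor (by push_cast; nlinarith)
  have hJle : (J : ℝ) ≤ 4 * Real.log T := by
    have h1 : 2 ^ Nat.log 2 ⌊T ^ 2⌋₊ ≤ ⌊T ^ 2⌋₊ := Nat.pow_log_le_self 2 (by omega)
    have h2 : ((2 : ℝ) ^ Nat.log 2 ⌊T ^ 2⌋₊) ≤ T ^ 2 := by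
      have h3 : ((2 ^ Nat.log 2 ⌊T ^ 2⌋₊ : ℕ) : ℝ) ≤ (⌊T ^ 2⌋₊ : ℝ) := by exact_mod_cast h1
      push_cast at h3
      exact h3.trans (Nat.floor_le (by positivity))
    have h4 := Real.log_le_log (by positivity) h2
    rw [Real.log_pow, Real.log_pow] at h4
    have h5 := Real.log_two_gt_d9
    have h6 : (J : ℝ) = (Nat.log 2 ⌊T ^ 2⌋₊ : ℝ) + 1 := by rw [hJd]; push_cast; ring
    have h7 : (0 : ℝ) ≤ (Nat.log 2 ⌊T ^ 2⌋₊ : ℝ) := Nat.cast_nonneg _
    push_cast at h4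
    rw [h6]
    nlinarith
  have hz : ∀ r : ℕ, 1 ≤ r → ∀ l m k : ℕ, 1 ≤ l → 1 ≤ m → 1 ≤ k → (⌊T ^ 2⌋₊ < m ∨ ⌊T ^ 2⌋₊ < k) →
      FW g w v T (r, l) (m * k) = 0 := by
    intro r hr l m k hl hm hk hmk
    by_contra hne
    have h1 := (hsupp T hT1 r l (m * k) hr hl hne).2.2.1
    have h2 : T ^ (3 / 2 : ℝ) ≤ T ^ 2 := by
      rw [← Real.rpow_natCast]
      exact Real.rpow_le_rpow_of_exponent_le hT1.le (by norm_num)
    have hm' : (1 : ℝ) ≤ m := by exact_mod_cast hm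
    have hk' : (1 : ℝ) ≤ k := by exact_mod_cast hk
    push_cast at h1
    rcases hmk with h3 | h3
    · have h4 := Nat.lt_of_floor_lt h3
      nlinarith
    · have h4 := Nat.lt_of_floor_lt h3
      nlinarith
  have hRS1 : ∀ r ∈ RS e T, 1 ≤ r := by
    intro x hx
    unfold RS at hx
    rw [Finset.mem_filter, Finset.mem_Icc] at hx
    exact hx.1.1
  -- triangle inequality
  have hA : WJ g w v e T α β (fun r l m => P (Nat.log 2 r) (Nat.log 2 l) (Nat.log 2 m)) (T ^ (e / 4)) T ≤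
      ∑ r ∈ RS e T, (1 / (Nat.totient r : ℝ) ^ 2) *
        ∑ q ∈ r.divisors.filter (fun q : ℕ => T ^ (e / 4) < (q : ℝ) ∧ (q : ℝ) ≤ T), Real.sqrt q * ∑ χ ∈ PR q,
          ∑ t ∈ Finset.range J ×ˢ (Finset.range J ×ˢ Finset.range J),
          (if P (Nat.log 2 r) t.1 t.2.1 then ‖dyB g w v e T α β r χ t.1 t.2.1 t.2.2‖ else 0) := by
    unfold WJ
    refine Finset.sum_le_sum fun r hr => mul_le_mul_of_nonneg_left ?_ (by positivity)
    refine Finset.sum_le_sum fun q _ => mul_le_mul_of_nonneg_left ?_ (by positivity)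
    refine Finset.sum_le_sum fun χ _ => ?_
    exact dy_SJ g χ (P (Nat.log 2 r)) hJ hTJ (hz r (hRS1 r hr))
  have hB : (∑ r ∈ RS e T, (1 / (Nat.totient r : ℝ) ^ 2) *
        ∑ q ∈ r.divisors.filter (fun q : ℕ => T ^ (e / 4) < (q : ℝ) ∧ (q : ℝ) ≤ T), Real.sqrt q * ∑ χ ∈ PR q,
          ∑ t ∈ Finset.range J ×ˢ (Finset.range J ×ˢ Finset.range J),
          (if P (Nat.log 2 r) t.1 t.2.1 then ‖dyB g w v e T α β r χ t.1 t.2.1 t.2.2‖ else 0)) =
      ∑ t ∈ Finset.range J ×ˢ (Finset.range J ×ˢ Finset.range J),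
        ∑ r ∈ RS e T, (1 / (Nat.totient r : ℝ) ^ 2) *
        ∑ q ∈ r.divisors.filter (fun q : ℕ => T ^ (e / 4) < (q : ℝ) ∧ (q : ℝ) ≤ T), Real.sqrt q * ∑ χ ∈ PR q,
          (if P (Nat.log 2 r) t.1 t.2.1 then ‖dyB g w v e T α β r χ t.1 t.2.1 t.2.2‖ else 0) := by
    symm
    rw [Finset.sum_comm]
    refine Finset.sum_congr rfl fun r _ => ?_
    rw [← Finset.mul_sum]
    congr 1
    rw [Finset.sum_comm]
    refine Finset.sum_congr rfl fun q _ => ?_
    rw [← Finset.mul_sum]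
    congr 1
    rw [Finset.sum_comm]
  rw [hB] at hA
  refine hA.trans ?_
  have hC : ∀ t ∈ Finset.range J ×ˢ (Finset.range J ×ˢ Finset.range J),
      ∑ r ∈ RS e T, (1 / (Nat.totient r : ℝ) ^ 2) *
        ∑ q ∈ r.divisors.filter (fun q : ℕ => T ^ (e / 4) < (q : ℝ) ∧ (q : ℝ) ≤ T), Real.sqrt q * ∑ χ ∈ PR q,
          (if P (Nat.log 2 r) t.1 t.2.1 then ‖dyB g w v e T α β r χ t.1 t.2.1 t.2.2‖ else 0) ≤ J * (J * D) := by
    intro t _
    exact dy_box g P hTJ hD t.1 t.2.1 t.2.2 (fun jr jq hP hc => h jr jq t.1 t.2.1 t.2.2 hP hc)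
  refine (Finset.sum_le_sum hC).trans ?_
  rw [Finset.sum_const, Finset.card_product, Finset.card_product, Finset.card_range, nsmul_eq_mul]
  have hJ0 : (0 : ℝ) ≤ J := Nat.cast_nonneg _
  push_cast
  calc (J : ℝ) * (J * J) * (J * (J * D)) = (J : ℝ) ^ 5 * D := by ring
    _ ≤ (4 * Real.log T) ^ 5 * D := mul_le_mul_of_nonneg_right (pow_le_pow_left₀ hJ0 hJle 5) hD
    _ = 1024 * Real.log T ^ 5 * D := by ring

end Pool.Agent.Helper69.FF
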