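import Pool.Agent.Helper69.FF.KSup

/-!
# FF-KTVn: summation by parts, bounded variation of the weight in n

`char_bv`: summation by parts (`Finset.sum_by_parts` or induction): `∑_{k ≤ N} f k F k = ∑_{k ≤ N} S_k (F k - F (k+1))` when `F (N+1) = 0`, `S_k = ∑_{j ≤ k} f j`.

`fw_tv_n`: `F(y) = w(log(m y)/L) v(..) ψ(2π a m y/(rT))` is smooth on `(0, ∞)`, vanishes outside `[Y0, Y1]`, `Y0 = c rT/(a m)`, `Y1 = rT/(a m)` (FF.KSup) and
`|F'(y)| ≤ C/y` (chain rule: `w'(·)/(L y)`, `ψ'(u) u/y`, `L ≥ 1`), so `∑ |F(k+1) - F(k)| ≤ ∫_{Y0}^{Y1} C/y dy = C log(1/c)`.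
With the factor `log`: on the support `0 ≤ log y ≤ log (m y) ≤ (3/2) L`, so `|(log y F)'| ≤ C (1 + 2L)/y`. For `k ≥ 1` only (`log k ≥ 0`).
-/

open MeasureTheory Set Filter Topology
open Pool.Agent.Helper57.Zeta Pool.Agent.Helper57.PC Pool.Agent.Helper57.LH Pool.Agent.Helper78.SG
open Pool.Agent.Helper4.SH (om)
open scoped ContDiff

namespace Pool.Agent.Helper69.FF

private lemma abel56 (f : ℕ → ℂ) (F : ℕ → ℝ) (N : ℕ) :
    ∑ k ∈ Finset.Icc 1 N, f k * ((F k : ℝ) : ℂ) = (∑ k ∈ Finset.Icc 1 N, f k) * ((F (N + 1) : ℝ) : ℂ) +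
      ∑ k ∈ Finset.Icc 1 N, (∑ j ∈ Finset.Icc 1 k, f j) * ((F k - F (k + 1) : ℝ) : ℂ) := by
  induction N with
  | zero => simp
  | succ N ih =>
    have h1 : ∀ h : ℕ → ℂ, ∑ k ∈ Finset.Icc 1 (N + 1), h k = ∑ k ∈ Finset.Icc 1 N, h k + h (N + 1) := fun h =>
      Finset.sum_Icc_succ_top (by omega) h
    rw [h1 (fun k => f k * ((F k : ℝ) : ℂ)), h1 (fun k => (∑ j ∈ Finset.Icc 1 k, f j) * ((F k - F (k + 1) : ℝ) : ℂ)),
      h1 f, ih]
    push_cast
    ring

theorem char_bv {f : ℕ → ℂ} {P V : ℝ} (hf : ∀ N : ℕ, ‖∑ k ∈ Finset.Icc 1 N, f k‖ ≤ P) (F : ℕ → ℝ) (N : ℕ)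
    (hV : ∑ k ∈ Finset.Icc 1 N, |F (k + 1) - F k| ≤ V) (hN : F (N + 1) = 0) :
    ‖∑ k ∈ Finset.Icc 1 N, f k * ((F k : ℝ) : ℂ)‖ ≤ P * V := by
  have hP : 0 ≤ P := (norm_nonneg _).trans (hf 0)
  rw [abel56, hN, Complex.ofReal_zero, mul_zero, zero_add]
  refine (norm_sum_le _ _).trans ?_
  calc ∑ k ∈ Finset.Icc 1 N, ‖(∑ j ∈ Finset.Icc 1 k, f j) * ((F k - F (k + 1) : ℝ) : ℂ)‖
      ≤ ∑ k ∈ Finset.Icc 1 N, P * |F (k + 1) - F k| := by
        refine Finset.sum_le_sum fun k _ => ?_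
        rw [norm_mul, Complex.norm_real, Real.norm_eq_abs, abs_sub_comm]
        exact mul_le_mul_of_nonneg_right (hf k) (abs_nonneg _)
    _ = P * ∑ k ∈ Finset.Icc 1 N, |F (k + 1) - F k| := by rw [Finset.mul_sum]
    _ ≤ P * V := mul_le_mul_of_nonneg_left hV hP

private lemma wr_cs56 {w : ℝ → ℝ} {a b : ℝ} (hw : WR w a b) : HasCompactSupport w := by
  refine HasCompactSupport.intro (isCompact_Icc (a := a) (b := b)) fun x hx => ?_
  by_contra h
  exact hx (hw.2.2.2 x h)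

private lemma wr_lip56 {w : ℝ → ℝ} {a b : ℝ} (hw : WR w a b) :
    ∃ K B : ℝ, 0 ≤ K ∧ 0 ≤ B ∧ (∀ x y, |w x - w y| ≤ K * |x - y|) ∧ ∀ x, |w x| ≤ B := by
  obtain ⟨K, hK⟩ := ContDiff.lipschitzWith_of_hasCompactSupport (wr_cs56 hw) hw.1 (by simp)
  obtain ⟨B, hB⟩ := (wr_cs56 hw).exists_bound_of_continuous hw.1.continuous
  refine ⟨K, B, K.2, (norm_nonneg _).trans (hB 0), fun x y => ?_, fun x => by simpa using hB x⟩
  have := hK.dist_le_mul x y
  simpa [Real.dist_eq] using this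

private lemma tf_lip56 (g : TF) :
    ∃ K B : ℝ, 0 ≤ K ∧ 0 ≤ B ∧ (∀ x y, |g.h x - g.h y| ≤ K * |x - y|) ∧ ∀ x, |g.h x| ≤ B := by
  have hc : HasCompactSupport g.h := by
    refine HasCompactSupport.intro (isCompact_Icc (a := -g.th) (b := g.th)) fun x hx => ?_
    refine g.supp x ?_
    by_contra h
    push Not at h
    exact hx ⟨by linarith [neg_abs_le x], by linarith [le_abs_self x]⟩
  obtain ⟨K, hK⟩ := ContDiff.lipschitzWith_of_hasCompactSupport hc g.smooth (by simp)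
  obtain ⟨B, hB⟩ := hc.exists_bound_of_continuous g.smooth.continuous
  refine ⟨K, B, K.2, (norm_nonneg _).trans (hB 0), fun x y => ?_, fun x => by simpa using hB x⟩
  have := hK.dist_le_mul x y
  simpa [Real.dist_eq] using this

private lemma step56 (g : TF) {w v : ℝ → ℝ} {a b a' b' : ℝ} (hw : WR w a b) (hv : WR v a' b') :
    ∃ C : ℝ, 0 ≤ C ∧ ∀ T : ℝ, Real.exp 1 ≤ T → ∀ r l m k : ℕ, 1 ≤ r → 1 ≤ l → 1 ≤ m → 1 ≤ k →
      |FW g w v T (r, l) (m * (k + 1)) - FW g w v T (r, l) (m * k)| ≤ C / k := by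
  obtain ⟨Kw, Bw, hKw, hBw, hlw, hbw⟩ := wr_lip56 hw
  obtain ⟨Kv, Bv, hKv, hBv, hlv, hbv⟩ := wr_lip56 hv
  obtain ⟨Kh, Bh, hKh, hBh, hlh, hbh⟩ := tf_lip56 g
  refine ⟨Bv * (Kw * Bh + Bw * Kh), by positivity, fun T hT r l m k hr hl hm hk => ?_⟩
  have hT0 : 0 < T := (Real.exp_pos 1).trans_le hT
  have hL : 1 ≤ Real.log T := by rwa [Real.le_log_iff_exp_le hT0]
  have hr' : (0 : ℝ) < r := by exact_mod_cast hr
  have hl' : (0 : ℝ) < l := by exact_mod_cast hl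
  have hm' : (0 : ℝ) < m := by exact_mod_cast hm
  have hk' : (0 : ℝ) < k := by exact_mod_cast hk
  set u : ℝ := 2 * Real.pi * ((l : ℝ) * ((m * k : ℕ) : ℝ) / r) / T with hu
  set u' : ℝ := 2 * Real.pi * ((l : ℝ) * ((m * (k + 1) : ℕ) : ℝ) / r) / T with hu'
  have hu0 : 0 < u := by
    rw [hu]
    push_cast
    have := Real.pi_pos
    positivity
  have hud : u' - u = u / k := by
    rw [hu, hu']
    push_cast
    field_simp
    ring
  have h1 : |w (Real.log ((m * (k + 1) : ℕ) : ℝ) / Real.log T) - w (Real.log ((m * k : ℕ) : ℝ) / Real.log T)| ≤ Kw / k := by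
    refine (hlw _ _).trans ?_
    rw [div_eq_mul_one_div Kw]
    refine mul_le_mul_of_nonneg_left ?_ hKw
    have e1 : Real.log ((m * (k + 1) : ℕ) : ℝ) / Real.log T - Real.log ((m * k : ℕ) : ℝ) / Real.log T =
        Real.log (1 + 1 / k) / Real.log T := by
      rw [← sub_div]
      congr 1
      rw [← Real.log_div (by positivity) (by positivity)]
      congr 1
      push_cast
      field_simp
    have h0 : 0 ≤ Real.log (1 + 1 / (k : ℝ)) := Real.log_nonneg (by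
      have : 0 < 1 / (k : ℝ) := by positivity
      linarith)
    rw [e1, abs_of_nonneg (div_nonneg h0 (by linarith))]
    have h2 : Real.log (1 + 1 / (k : ℝ)) ≤ 1 / k := by
      have := Real.log_le_sub_one_of_pos (x := 1 + 1 / (k : ℝ)) (by positivity)
      linarith
    exact (div_le_self h0 hL).trans h2
  have h2 : |g.h (u' - 1 / 2) - g.h (u - 1 / 2)| ≤ Kh / k := by
    by_cases hu1 : u ≤ 1
    · refine (hlh _ _).trans ?_
      rw [div_eq_mul_one_div Kh]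
      refine mul_le_mul_of_nonneg_left ?_ hKh
      have e2 : u' - 1 / 2 - (u - 1 / 2) = u / k := by rw [← hud]; ring
      rw [e2, abs_of_nonneg (by positivity)]
      exact div_le_div_of_nonneg_right hu1 hk'.le
    · push Not at hu1
      have hz : ∀ x : ℝ, 1 < x → g.h (x - 1 / 2) = 0 := by
        intro x hx
        refine g.supp _ ?_
        rw [abs_of_pos (by linarith)]
        linarith [g.th1]
      have hu2 : 1 < u' := by
        have : 0 < u / k := by positivity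
        linarith
      rw [hz u hu1, hz u' hu2, sub_zero, abs_zero]
      positivity
  have e : FW g w v T (r, l) (m * (k + 1)) - FW g w v T (r, l) (m * k) =
      v (lr T (r, l)) * ((w (Real.log ((m * (k + 1) : ℕ) : ℝ) / Real.log T) -
        w (Real.log ((m * k : ℕ) : ℝ) / Real.log T)) * g.h (u' - 1 / 2) +
        w (Real.log ((m * k : ℕ) : ℝ) / Real.log T) * (g.h (u' - 1 / 2) - g.h (u - 1 / 2))) := by
    unfold FW
    rw [hu, hu']
    ring
  rw [e, abs_mul]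
  have h3 := abs_add_le ((w (Real.log ((m * (k + 1) : ℕ) : ℝ) / Real.log T) -
        w (Real.log ((m * k : ℕ) : ℝ) / Real.log T)) * g.h (u' - 1 / 2))
        (w (Real.log ((m * k : ℕ) : ℝ) / Real.log T) * (g.h (u' - 1 / 2) - g.h (u - 1 / 2)))
  rw [abs_mul, abs_mul] at h3
  have h4 := mul_le_mul h1 (hbh (u' - 1 / 2)) (abs_nonneg _) (by positivity)
  have h5 := mul_le_mul (hbw (Real.log ((m * k : ℕ) : ℝ) / Real.log T)) h2 (abs_nonneg _) hBw
  have h6 := mul_le_mul (hbv (lr T (r, l))) (h3.trans (add_le_add h4 h5)) (abs_nonneg _) hBv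
  refine h6.trans (le_of_eq ?_)
  field_simp

theorem fw_tv_n (g : TF) {w v : ℝ → ℝ} {a b a' b' : ℝ} (hw : WR w a b) (hb : b < 3 / 2)
    (hv : WR v a' b') (ha' : 1 < a') :
    ∃ C : ℝ, 0 < C ∧ ∀ᶠ T : ℝ in atTop, ∀ r l m N : ℕ, 1 ≤ r → 1 ≤ l → 1 ≤ m →
      (∑ k ∈ Finset.Icc 1 N, |FW g w v T (r, l) (m * (k + 1)) - FW g w v T (r, l) (m * k)| ≤ C * Real.log T) ∧
      (∑ k ∈ Finset.Icc 1 N, |Real.log ((k + 1 : ℕ) : ℝ) * FW g w v T (r, l) (m * (k + 1)) -
        Real.log (k : ℝ) * FW g w v T (r, l) (m * k)| ≤ C * Real.log T) := by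
  classical
  obtain ⟨C1, hC1, hstep⟩ := step56 g hw hv
  obtain ⟨B, hB, hbd⟩ := fw_bound g hw hv
  obtain ⟨c, hc, hsupp⟩ := fw_supp g hw hb hv ha'
  refine ⟨(2 * C1 + B) * (2 / c), by positivity, ?_⟩
  filter_upwards [eventually_ge_atTop (Real.exp 1), eventually_ge_atTop (4 : ℝ)] with T hTe hT4 r l m N hr hl hm
  have hT0 : 0 < T := by linarith
  have hT1 : 1 < T := by linarith
  have hL : 1 ≤ Real.log T := by rwa [Real.le_log_iff_exp_le hT0]
  have hr' : (0 : ℝ) < r := by exact_mod_cast hr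
  have hl' : (0 : ℝ) < l := by exact_mod_cast hl
  have hm' : (0 : ℝ) < m := by exact_mod_cast hm
  have hm1 : (1 : ℝ) ≤ m := by exact_mod_cast hm
  set F : ℕ → ℝ := fun k => FW g w v T (r, l) (m * k) with hF
  set Y : ℝ := r * T / (l * m) with hY
  have hY0 : 0 < Y := by positivity
  -- the support
  have hS : ∀ k : ℕ, 1 ≤ k → (F k ≠ 0 ∨ F (k + 1) ≠ 0) →
      c * Y ≤ k + 1 ∧ (k : ℝ) ≤ Y ∧ (k : ℝ) < T ^ (3 / 2 : ℝ) := by
    intro k hk h
    have hk' : (0 : ℝ) < k := by exact_mod_cast hk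
    have key : ∀ j : ℕ, k ≤ j → j ≤ k + 1 → F j ≠ 0 → c * Y ≤ k + 1 ∧ (k : ℝ) ≤ Y ∧ (k : ℝ) < T ^ (3 / 2 : ℝ) := by
      intro j hj1 hj2 hFj
      obtain ⟨-, -, h3, h4, h5⟩ := hsupp T hT1 r l (m * j) hr hl hFj
      have hj1' : (k : ℝ) ≤ j := by exact_mod_cast hj1
      have hj2' : (j : ℝ) ≤ k + 1 := by exact_mod_cast hj2
      push_cast at h3 h4 h5
      refine ⟨?_, ?_, ?_⟩
      · rw [hY, ← mul_div_assoc, div_le_iff₀ (by positivity)]
        calc c * (r * T) ≤ l * (m * j) := h4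
          _ ≤ l * (m * (k + 1)) := by gcongr
          _ = (k + 1) * (l * m) := by ring
      · rw [hY, le_div_iff₀ (by positivity)]
        calc (k : ℝ) * (l * m) = l * (m * k) := by ring
          _ ≤ l * (m * j) := by gcongr
          _ ≤ r * T := h5
      · refine lt_of_le_of_lt ?_ h3
        calc (k : ℝ) = 1 * k := (one_mul _).symm
          _ ≤ m * j := mul_le_mul hm1 hj1' hk'.le hm'.le
    rcases h with h | h
    · exact key k le_rfl (Nat.le_succ k) h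
    · exact key (k + 1) (Nat.le_succ k) le_rfl h
  -- the sum of 1/k over the support
  have hsum : ∑ k ∈ (Finset.Icc 1 N).filter (fun k => F k ≠ 0 ∨ F (k + 1) ≠ 0), (1 : ℝ) / k ≤ 2 / c := by
    have h1 : ∀ k ∈ (Finset.Icc 1 N).filter (fun k => F k ≠ 0 ∨ F (k + 1) ≠ 0), (1 : ℝ) / k ≤ 2 / (c * Y) := by
      intro k hk
      rw [Finset.mem_filter, Finset.mem_Icc] at hk
      obtain ⟨h2, -, -⟩ := hS k hk.1.1 hk.2
      have hk1 : (1 : ℝ) ≤ k := by exact_mod_cast hk.1.1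
      rw [div_le_div_iff₀ (by linarith) (by positivity)]
      linarith
    have hcard : (((Finset.Icc 1 N).filter (fun k => F k ≠ 0 ∨ F (k + 1) ≠ 0)).card : ℝ) ≤ Y := by
      have h2 : (Finset.Icc 1 N).filter (fun k => F k ≠ 0 ∨ F (k + 1) ≠ 0) ⊆ Finset.Icc 1 ⌊Y⌋₊ := by
        intro k hk
        rw [Finset.mem_filter, Finset.mem_Icc] at hk
        obtain ⟨-, h3, -⟩ := hS k hk.1.1 hk.2
        exact Finset.mem_Icc.2 ⟨hk.1.1, Nat.le_floor h3⟩
      have h3 := Finset.card_le_card h2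
      rw [Nat.card_Icc, Nat.add_sub_cancel] at h3
      calc (((Finset.Icc 1 N).filter (fun k => F k ≠ 0 ∨ F (k + 1) ≠ 0)).card : ℝ) ≤ (⌊Y⌋₊ : ℝ) := by exact_mod_cast h3
        _ ≤ Y := Nat.floor_le hY0.le
    calc ∑ k ∈ (Finset.Icc 1 N).filter (fun k => F k ≠ 0 ∨ F (k + 1) ≠ 0), (1 : ℝ) / k
        ≤ ∑ _k ∈ (Finset.Icc 1 N).filter (fun k => F k ≠ 0 ∨ F (k + 1) ≠ 0), 2 / (c * Y) := Finset.sum_le_sum h1
      _ = (((Finset.Icc 1 N).filter (fun k => F k ≠ 0 ∨ F (k + 1) ≠ 0)).card : ℝ) * (2 / (c * Y)) := by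
          rw [Finset.sum_const, nsmul_eq_mul]
      _ ≤ Y * (2 / (c * Y)) := mul_le_mul_of_nonneg_right hcard (by positivity)
      _ = 2 / c := by field_simp
  -- a general estimate
  have gen : ∀ (G : ℕ → ℝ) (D : ℝ), 0 ≤ D → (∀ k ∈ Finset.Icc 1 N, ¬ (F k ≠ 0 ∨ F (k + 1) ≠ 0) → G k = 0) →
      (∀ k ∈ Finset.Icc 1 N, (F k ≠ 0 ∨ F (k + 1) ≠ 0) → G k ≤ D * (1 / k)) → ∑ k ∈ Finset.Icc 1 N, G k ≤ D * (2 / c) := by
    intro G D hD h1 h2
    rw [← Finset.sum_filter_add_sum_filter_not (Finset.Icc 1 N) (fun k => F k ≠ 0 ∨ F (k + 1) ≠ 0) G]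
    have e0 : ∑ k ∈ (Finset.Icc 1 N).filter (fun k => ¬ (F k ≠ 0 ∨ F (k + 1) ≠ 0)), G k = 0 := by
      refine Finset.sum_eq_zero fun k hk => ?_
      rw [Finset.mem_filter] at hk
      exact h1 k hk.1 hk.2
    rw [e0, add_zero]
    calc ∑ k ∈ (Finset.Icc 1 N).filter (fun k => F k ≠ 0 ∨ F (k + 1) ≠ 0), G k
        ≤ ∑ k ∈ (Finset.Icc 1 N).filter (fun k => F k ≠ 0 ∨ F (k + 1) ≠ 0), D * (1 / k) := by
          refine Finset.sum_le_sum fun k hk => ?_
          rw [Finset.mem_filter] at hk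
          exact h2 k hk.1 hk.2
      _ = D * ∑ k ∈ (Finset.Icc 1 N).filter (fun k => F k ≠ 0 ∨ F (k + 1) ≠ 0), (1 : ℝ) / k := by rw [Finset.mul_sum]
      _ ≤ D * (2 / c) := mul_le_mul_of_nonneg_left hsum hD
  have hst : ∀ k, 1 ≤ k → |F (k + 1) - F k| ≤ C1 / k := fun k hk => hstep T hTe r l m k hr hl hm hk
  constructor
  · have h1 := gen (fun k => |F (k + 1) - F k|) C1 hC1 (by
      intro k _ h
      push Not at h
      rw [h.1, h.2, sub_zero, abs_zero]) (by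
      intro k hk _
      rw [mul_one_div]
      exact hst k (Finset.mem_Icc.1 hk).1)
    refine h1.trans ?_
    have h2 : C1 * (2 / c) ≤ (2 * C1 + B) * (2 / c) := mul_le_mul_of_nonneg_right (by linarith) (by positivity)
    refine h2.trans ?_
    exact le_mul_of_one_le_right (by positivity) hL
  · have h1 := gen (fun k => |Real.log ((k + 1 : ℕ) : ℝ) * F (k + 1) - Real.log (k : ℝ) * F k|)
      ((2 * C1 + B) * Real.log T) (by positivity) (by
      intro k _ h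
      push Not at h
      rw [h.1, h.2, mul_zero, mul_zero, sub_zero, abs_zero]) (by
      intro k hk h
      have hk1 : 1 ≤ k := (Finset.mem_Icc.1 hk).1
      have hk' : (0 : ℝ) < k := by exact_mod_cast hk1
      have hk1' : (1 : ℝ) ≤ k := by exact_mod_cast hk1
      obtain ⟨-, -, h3⟩ := hS k hk1 h
      have hlog1 : Real.log ((k + 1 : ℕ) : ℝ) ≤ 2 * Real.log T := by
        have h4 : (((k + 1 : ℕ) : ℝ)) ≤ T ^ (2 : ℝ) := by
          push_cast
          have h5 : (k : ℝ) + 1 ≤ 2 * T ^ (3 / 2 : ℝ) := by linarith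
          have h6 : (2 : ℝ) ≤ T ^ (1 / 2 : ℝ) := by
            have h7 : (4 : ℝ) ^ (1 / 2 : ℝ) = 2 := by
              rw [show (4 : ℝ) = 2 ^ (2 : ℝ) by norm_num, ← Real.rpow_mul (by norm_num)]
              norm_num
            calc (2 : ℝ) = (4 : ℝ) ^ (1 / 2 : ℝ) := h7.symm
              _ ≤ T ^ (1 / 2 : ℝ) := Real.rpow_le_rpow (by norm_num) hT4 (by norm_num)
          calc (k : ℝ) + 1 ≤ 2 * T ^ (3 / 2 : ℝ) := h5
            _ ≤ T ^ (1 / 2 : ℝ) * T ^ (3 / 2 : ℝ) :=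
              mul_le_mul_of_nonneg_right h6 (Real.rpow_nonneg hT0.le (3 / 2))
            _ = T ^ (2 : ℝ) := by rw [← Real.rpow_add hT0]; norm_num
        have h8 := Real.log_le_log (by positivity) h4
        rwa [Real.log_rpow hT0] at h8
      have hlog0 : 0 ≤ Real.log ((k + 1 : ℕ) : ℝ) := Real.log_natCast_nonneg _
      have hld : Real.log ((k + 1 : ℕ) : ℝ) - Real.log (k : ℝ) ≤ 1 / k := by
        rw [← Real.log_div (by positivity) (by positivity)]
        have h4 : ((k + 1 : ℕ) : ℝ) / k = 1 + 1 / k := by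
          push_cast
          field_simp
        rw [h4]
        have := Real.log_le_sub_one_of_pos (x := 1 + 1 / (k : ℝ)) (by positivity)
        linarith
      have hld0 : 0 ≤ Real.log ((k + 1 : ℕ) : ℝ) - Real.log (k : ℝ) := by
        have := Real.log_le_log hk' (show (k : ℝ) ≤ ((k + 1 : ℕ) : ℝ) by push_cast; linarith)
        linarith
      have e : Real.log ((k + 1 : ℕ) : ℝ) * F (k + 1) - Real.log (k : ℝ) * F k =
          Real.log ((k + 1 : ℕ) : ℝ) * (F (k + 1) - F k) + (Real.log ((k + 1 : ℕ) : ℝ) - Real.log (k : ℝ)) * F k := by ring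
      rw [e]
      refine (abs_add_le _ _).trans ?_
      rw [abs_mul, abs_mul, abs_of_nonneg hlog0, abs_of_nonneg hld0]
      have h9 := mul_le_mul hlog1 (hst k hk1) (abs_nonneg _) (by positivity)
      have h10 := mul_le_mul hld (hbd T (r, l) (m * k)) (abs_nonneg _) (by positivity)
      have h11 : 1 / (k : ℝ) * B ≤ Real.log T * B * (1 / k) := by
        have : 1 / (k : ℝ) * B * 1 ≤ 1 / (k : ℝ) * B * Real.log T := mul_le_mul_of_nonneg_left hL (by positivity)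
        linarith
      calc _ ≤ 2 * Real.log T * (C1 / k) + 1 / (k : ℝ) * B := add_le_add h9 h10
        _ ≤ 2 * Real.log T * (C1 / k) + Real.log T * B * (1 / k) := by linarith
        _ = (2 * C1 + B) * Real.log T * (1 / k) := by ring)
    refine h1.trans (le_of_eq ?_)
    ring

end Pool.Agent.Helper69.FF
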