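import Pool.Agent.Helper69.FF.KDefs
import Pool.Agent.Helper93.FFK.PV

/-!
# FF-PVI: Polya-Vinogradov

For a primitive character `χ` mod `q > 1`: `χ(n) = τ(χ)/q ∑_a conj χ(a) e(-an/q)`-expansion (Mathlib `gaussSum_mulShift_of_isPrimitive`; `|τ(χ)| = √q`: `Helper93.MLS.gauss_prim`) and
`|∑_{n ≤ N} e(an/q)| ≤ 1/(2 ‖a/q‖)`, `∑_{a=1}^{q-1} 1/(2‖a/q‖) ≤ q (1 + log q)`.
(helper93 is proving this in `Pool/Agent/Helper93/FFK`; this file only restates it.)
-/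

open MeasureTheory Set Filter Topology
open Pool.Agent.Helper57.Zeta Pool.Agent.Helper57.PC Pool.Agent.Helper57.LH Pool.Agent.Helper78.SG
open Pool.Agent.Helper4.SH (om)
open scoped ContDiff

namespace Pool.Agent.Helper69.FF

theorem polya_vinogradov : ∃ C : ℝ, 0 < C ∧ ∀ q : ℕ, 1 < q → ∀ χ ∈ PR q, ∀ N : ℕ,
    ‖∑ k ∈ Finset.Icc 1 N, χ k‖ ≤ C * (Real.sqrt q * (1 + Real.log q)) := by
  classical
  refine ⟨1, one_pos, fun q hq χ hχ N => ?_⟩
  haveI : NeZero q := ⟨by omega⟩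
  have hχ' : χ.IsPrimitive := by
    unfold PR at hχ
    exact (Finset.mem_filter.1 hχ).2
  have h := Pool.Agent.Helper93.FFK.polya_vinogradov hq hχ' 0 N
  have h2 : Finset.Icc 1 N = Finset.Ioc 0 (0 + N) := by
    ext k
    simp only [Finset.mem_Icc, Finset.mem_Ioc]
    omega
  rw [one_mul, h2]
  exact h

end Pool.Agent.Helper69.FF
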