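import Pool.Agent.Helper69.FF.KDefs
import Pool.Agent.Helper69.FF.KSup
import Pool.Agent.Helper69.FF.KTVn
import Pool.Agent.Helper69.FF.PVI
import Pool.Agent.Helper69.FF.DivS

/-!
# FF-KPV: short variable m: Polya-Vinogradov in the long variable

`β = 1` or `β = log`. The predicate gives `m < 2·2^(log₂ m) ≤ 2·2^(log₂ r) T^d/2^(log₂ l) ≤ 4 (r/l) T^d` (`l` the numerator). For fixed `r, χ, l, m`: by `char_bv`, `polya_vinogradov`, `fw_tv_n`:
`‖∑_k χ(k) β(k) FW(r, l, m k)‖ ≤ C √q (1 + log q) L` (take `N = ⌊T²⌋`, `FW(r, l, m (N+1)) = 0` by FF.KSup). So `‖SJ‖ ≤ ∑_l 4 (r/l) T^d T^ε C √q L² ≤ C √q r T^(d+ε) L³` and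
`WJ ≤ ∑_r φ(r)⁻² ∑_{q ∣ r} q |PR q| C r T^(d+ε) L³ ≤ ∑_{r ≤ T^(1/2-e)} (r/φ(r))² r · C T^(d+ε) L³ ≤ C T^(1-2e+d+2ε)` (`|PR q| ≤ φ(q)`, `∑_{q ∣ r} φ(q) = r`). Take `ε` small, `δ = e/2`, say.
-/

open MeasureTheory Set Filter Topology
open Pool.Agent.Helper57.Zeta Pool.Agent.Helper57.PC Pool.Agent.Helper57.LH Pool.Agent.Helper78.SG
open Pool.Agent.Helper4.SH (om)
open scoped ContDiff

namespace Pool.Agent.Helper69.FF

theorem h27_card_PR {q : ℕ} (hq : q ≠ 0) : ((PR q).card : ℝ) ≤ (Nat.totient q : ℝ) := by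
  have : NeZero q := ⟨hq⟩
  have h1 : (PR q).card ≤ Fintype.card (DirichletCharacter ℂ q) := Finset.card_le_univ _
  have h2 := DirichletCharacter.card_eq_totient_of_hasEnoughRootsOfUnity ℂ q
  rw [Nat.card_eq_fintype_card] at h2
  rw [h2] at h1
  exact_mod_cast h1

theorem h27_sum_div {r : ℕ} (hr : r ≠ 0) (p : ℕ → Prop) [DecidablePred p] :
    ∑ q ∈ r.divisors.filter p, Real.sqrt q * ((PR q).card * Real.sqrt q) ≤ (r : ℝ) ^ 2 := by
  have h1 : ∑ q ∈ r.divisors.filter p, Real.sqrt q * ((PR q).card * Real.sqrt q) ≤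
      ∑ q ∈ r.divisors, (r : ℝ) * (Nat.totient q : ℝ) := by
    refine (Finset.sum_le_sum_of_subset_of_nonneg (Finset.filter_subset _ _)
      (fun q _ _ => by positivity)).trans ?_
    refine Finset.sum_le_sum fun q hq => ?_
    have hq0 : q ≠ 0 := (Nat.pos_of_mem_divisors hq).ne'
    have hqr : (q : ℝ) ≤ r := by exact_mod_cast Nat.divisor_le hq
    have h2 : Real.sqrt q * ((PR q).card * Real.sqrt q) = (q : ℝ) * (PR q).card := by
      have := Real.mul_self_sqrt (Nat.cast_nonneg q : (0 : ℝ) ≤ q)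
      linear_combination ((PR q).card : ℝ) * this
    rw [h2]
    exact mul_le_mul hqr (h27_card_PR hq0) (by positivity) (by positivity)
  refine h1.trans ?_
  rw [← Finset.mul_sum, ← Nat.cast_sum, Nat.sum_totient, pow_two]

theorem h27_harm {T : ℝ} (hT : 1 ≤ T) : ∑ l ∈ Finset.Icc 1 ⌊T⌋₊, (1 / (l : ℝ)) ≤ 1 + Real.log T := by
  have h1 := harmonic_floor_le_one_add_log T hT
  rw [harmonic_eq_sum_Icc] at h1
  push_cast at h1
  simpa [one_div] using h1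

theorem h27_SJ (g : TF) (w v : ℝ → ℝ) (e : ℝ) {T : ℝ} (hT : 1 ≤ T) (r : ℕ) {q : ℕ}
    (χ : DirichletCharacter ℂ q) (α β : ℕ → ℂ) (P : ℕ → ℕ → Prop) {A K M : ℝ}
    (hA : ∀ m ∈ Finset.Icc 1 ⌊T ^ 2⌋₊, ‖α m‖ ≤ A) (hA0 : 0 ≤ A) (hK0 : 0 ≤ K)
    (hK : ∀ l m : ℕ, 1 ≤ l → 1 ≤ m → ‖∑ k ∈ Finset.Icc 1 ⌊T ^ 2⌋₊,
      (χ k * β k) * ((FW g w v T (r, l) (m * k) : ℝ) : ℂ)‖ ≤ K) (hM : 0 ≤ M)
    (hP : ∀ l m : ℕ, 1 ≤ l → 1 ≤ m → P l m → (m : ℝ) ≤ M / l) :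
    ‖SJ g w v e T r χ α β P‖ ≤ M * (1 + Real.log T) * (A * K) := by
  classical
  unfold SJ
  have h1 : ∀ l ∈ SA e T r, ‖∑ m ∈ Finset.Icc 1 ⌊T ^ 2⌋₊, ∑ k ∈ Finset.Icc 1 ⌊T ^ 2⌋₊,
      (if P l m then (χ l * χ m * χ k) * (α m * β k) * ((FW g w v T (r, l) (m * k) : ℝ) : ℂ) else 0)‖ ≤
      M * (1 / (l : ℝ)) * (A * K) := by
    intro l hl
    have hl1 : 1 ≤ l := (Finset.mem_Icc.1 (Finset.mem_filter.1 hl).1).1
    have e1 : ∀ m ∈ Finset.Icc 1 ⌊T ^ 2⌋₊, ∑ k ∈ Finset.Icc 1 ⌊T ^ 2⌋₊,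
        (if P l m then (χ l * χ m * χ k) * (α m * β k) * ((FW g w v T (r, l) (m * k) : ℝ) : ℂ) else 0) =
        if P l m then (χ l * χ m * α m) * ∑ k ∈ Finset.Icc 1 ⌊T ^ 2⌋₊,
          (χ k * β k) * ((FW g w v T (r, l) (m * k) : ℝ) : ℂ) else 0 := by
      intro m _
      split_ifs with h
      · rw [Finset.mul_sum]
        exact Finset.sum_congr rfl fun k _ => by ring
      · exact Finset.sum_const_zero
    rw [Finset.sum_congr rfl e1, ← Finset.sum_filter]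
    refine (norm_sum_le _ _).trans ?_
    have h2 : ∀ m ∈ (Finset.Icc 1 ⌊T ^ 2⌋₊).filter (fun m => P l m),
        ‖(χ l * χ m * α m) * ∑ k ∈ Finset.Icc 1 ⌊T ^ 2⌋₊,
          (χ k * β k) * ((FW g w v T (r, l) (m * k) : ℝ) : ℂ)‖ ≤ A * K := by
      intro m hm
      rw [Finset.mem_filter] at hm
      have hm1 : 1 ≤ m := (Finset.mem_Icc.1 hm.1).1
      rw [norm_mul, norm_mul, norm_mul]
      have c1 := χ.norm_le_one (l : ZMod q)
      have c2 := χ.norm_le_one (m : ZMod q)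
      have c3 := hA m hm.1
      have c4 : ‖χ (l : ZMod q)‖ * ‖χ (m : ZMod q)‖ * ‖α m‖ ≤ 1 * 1 * A :=
        mul_le_mul (mul_le_mul c1 c2 (norm_nonneg _) zero_le_one) c3 (norm_nonneg _) (by norm_num)
      rw [one_mul, one_mul] at c4
      exact mul_le_mul c4 (hK l m hl1 hm1) (norm_nonneg _) hA0
    refine (Finset.sum_le_sum h2).trans ?_
    rw [Finset.sum_const, nsmul_eq_mul]
    refine mul_le_mul_of_nonneg_right ?_ (mul_nonneg hA0 hK0)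
    have h3 : (Finset.Icc 1 ⌊T ^ 2⌋₊).filter (fun m => P l m) ⊆ Finset.Icc 1 ⌊M / l⌋₊ := by
      intro m hm
      rw [Finset.mem_filter, Finset.mem_Icc] at hm
      rw [Finset.mem_Icc]
      exact ⟨hm.1.1, Nat.le_floor (hP l m hl1 hm.1.1 hm.2)⟩
    have h4 := Finset.card_le_card h3
    rw [Nat.card_Icc, Nat.add_sub_cancel] at h4
    have h5 : (⌊M / l⌋₊ : ℝ) ≤ M / l := Nat.floor_le (by positivity)
    have h6 : ((((Finset.Icc 1 ⌊T ^ 2⌋₊).filter (fun m => P l m)).card : ℕ) : ℝ) ≤ (⌊M / l⌋₊ : ℝ) := by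
      exact_mod_cast h4
    calc ((((Finset.Icc 1 ⌊T ^ 2⌋₊).filter (fun m => P l m)).card : ℕ) : ℝ) ≤ M / l := h6.trans h5
      _ = M * (1 / (l : ℝ)) := by ring
  refine (norm_sum_le _ _).trans ((Finset.sum_le_sum h1).trans ?_)
  rw [← Finset.sum_mul, ← Finset.mul_sum]
  refine mul_le_mul_of_nonneg_right (mul_le_mul_of_nonneg_left ?_ hM) (mul_nonneg hA0 hK0)
  refine le_trans (Finset.sum_le_sum_of_subset_of_nonneg (Finset.filter_subset _ _)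
    (fun l _ _ => by positivity)) (h27_harm hT)

theorem h27_inner (g : TF) {w v : ℝ → ℝ} {a b a' b' : ℝ} (hw : WR w a b) (hb : b < 3 / 2)
    (hv : WR v a' b') (ha' : 1 < a') :
    ∃ C : ℝ, 0 < C ∧ ∀ᶠ T : ℝ in atTop, ∀ q : ℕ, 1 < q → ∀ χ ∈ PR q, ∀ r l m : ℕ, 1 ≤ r → 1 ≤ l → 1 ≤ m →
      ∀ β : ℕ → ℂ, ((β = fun _ => 1) ∨ (β = fun k : ℕ => ((Real.log (k : ℝ) : ℝ) : ℂ))) →
      ‖∑ k ∈ Finset.Icc 1 ⌊T ^ 2⌋₊, (χ k * β k) * ((FW g w v T (r, l) (m * k) : ℝ) : ℂ)‖ ≤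
        C * (Real.sqrt q * (1 + Real.log q)) * Real.log T := by
  obtain ⟨C1, hC1, h1⟩ := polya_vinogradov
  obtain ⟨C2, hC2, h2⟩ := fw_tv_n g hw hb hv ha'
  obtain ⟨c, hc, h3⟩ := fw_supp g hw hb hv ha'
  refine ⟨C1 * C2, by positivity, ?_⟩
  filter_upwards [h2, eventually_gt_atTop 1] with T h2 hT q hq χ hχ r l m hr hl hm β hβ
  obtain ⟨v1, v2⟩ := h2 r l m ⌊T ^ 2⌋₊ hr hl hm
  have hz : FW g w v T (r, l) (m * (⌊T ^ 2⌋₊ + 1)) = 0 := by
    by_contra hne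
    have h4 := (h3 T hT r l (m * (⌊T ^ 2⌋₊ + 1)) hr hl hne).2.2.1
    have h5 : T ^ 2 < (⌊T ^ 2⌋₊ : ℝ) + 1 := Nat.lt_floor_add_one _
    have h6 : (⌊T ^ 2⌋₊ : ℝ) + 1 ≤ ((m * (⌊T ^ 2⌋₊ + 1) : ℕ) : ℝ) := by
      have : (1 : ℝ) ≤ m := by exact_mod_cast hm
      push_cast
      nlinarith [Nat.cast_nonneg (α := ℝ) ⌊T ^ 2⌋₊]
    have h7 : T ^ (3 / 2 : ℝ) ≤ T ^ 2 := by
      rw [← Real.rpow_natCast]
      exact Real.rpow_le_rpow_of_exponent_le hT.le (by norm_num)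
    linarith
  have hpv := h1 q hq χ hχ
  rcases hβ with rfl | rfl
  · have h4 := char_bv (f := fun k : ℕ => χ k) hpv (fun k => FW g w v T (r, l) (m * k)) ⌊T ^ 2⌋₊ v1 hz
    calc _ = ‖∑ k ∈ Finset.Icc 1 ⌊T ^ 2⌋₊, χ (k : ZMod q) * ((FW g w v T (r, l) (m * k) : ℝ) : ℂ)‖ := by
          congr 1
          exact Finset.sum_congr rfl fun k _ => by rw [mul_one]
      _ ≤ _ := h4
      _ = _ := by ring
  · have h4 := char_bv (f := fun k : ℕ => χ k) hpv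
      (fun k => Real.log (k : ℝ) * FW g w v T (r, l) (m * k)) ⌊T ^ 2⌋₊ v2 (by
        rw [hz, mul_zero])
    calc _ = ‖∑ k ∈ Finset.Icc 1 ⌊T ^ 2⌋₊, χ (k : ZMod q) *
          ((Real.log (k : ℝ) * FW g w v T (r, l) (m * k) : ℝ) : ℂ)‖ := by
          congr 1
          refine Finset.sum_congr rfl fun k _ => ?_
          push_cast
          ring
      _ ≤ _ := h4
      _ = _ := by ring

theorem h27_pred {r l m : ℕ} (hr : 1 ≤ r) (hl : 1 ≤ l) {D : ℝ} (hD : 0 < D)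
    (h : ¬ ((2:ℝ) ^ Nat.log 2 r * D ≤ (2:ℝ) ^ Nat.log 2 l * (2:ℝ) ^ Nat.log 2 m)) :
    (m : ℝ) ≤ 4 * r * D / l := by
  have hl0 : (0 : ℝ) < l := by exact_mod_cast hl
  rw [not_le] at h
  rw [le_div_iff₀ hl0]
  have h1 : (m : ℝ) < 2 * (2:ℝ) ^ Nat.log 2 m := by
    have := Nat.lt_pow_succ_log_self (b := 2) (by norm_num) m
    rw [pow_succ'] at this
    exact_mod_cast this
  have h2 : (l : ℝ) < 2 * (2:ℝ) ^ Nat.log 2 l := by
    have := Nat.lt_pow_succ_log_self (b := 2) (by norm_num) l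
    rw [pow_succ'] at this
    exact_mod_cast this
  have h3 : (2:ℝ) ^ Nat.log 2 r ≤ r := by
    have := Nat.pow_log_le_self 2 (x := r) (by omega)
    exact_mod_cast this
  have h4 : (m : ℝ) * l ≤ (2 * (2:ℝ) ^ Nat.log 2 m) * (2 * (2:ℝ) ^ Nat.log 2 l) :=
    mul_le_mul h1.le h2.le hl0.le (by positivity)
  have h5 : (2:ℝ) ^ Nat.log 2 r * D ≤ r * D := mul_le_mul_of_nonneg_right h3 hD.le
  nlinarith

theorem kpv (g : TF) {w v : ℝ → ℝ} {a b a' b' e d : ℝ} (hw : WR w a b) (hb : b < 3 / 2)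
    (hv : WR v a' b') (ha' : 1 < a') (hb' : b' < 3 / 2) (he : 0 < e) (he1 : e < 1 / 4) (hd : 0 < d) (hde : d < e) :
    ∃ δ ε C : ℝ, 0 < δ ∧ 0 < ε ∧ 0 < C ∧ ∀ᶠ T : ℝ in atTop, ∀ α β : ℕ → ℂ,
      (∀ m : ℕ, 1 ≤ m → (m : ℝ) ≤ T ^ 2 → ‖α m‖ ≤ T ^ ε) →
      ((β = fun _ => 1) ∨ (β = fun k : ℕ => ((Real.log (k : ℝ) : ℝ) : ℂ))) →
      WJ g w v e T α β (fun r l m : ℕ => ¬ ((2:ℝ) ^ Nat.log 2 r * T ^ d ≤ (2:ℝ) ^ Nat.log 2 l * (2:ℝ) ^ Nat.log 2 m)) (T ^ (e / 4)) T ≤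
        C * T ^ (1 - δ) := by
  obtain ⟨C1, hC1, h1⟩ := h27_inner g hw hb hv ha'
  obtain ⟨C2, hC2, h2⟩ := div_bound (ε := e / 8) (by positivity)
  have hlog : ∀ᶠ T : ℝ in atTop, (1 + Real.log T) ^ 2 * Real.log T ≤ 4 * T ^ (e / 8) := by
    have h3 := (isLittleO_log_rpow_rpow_atTop (3 : ℝ) (show 0 < e / 8 by positivity)).bound (c := 1) one_pos
    filter_upwards [h3, eventually_ge_atTop (Real.exp 1)] with T h3 hT
    have hT1 : 1 ≤ Real.log T := by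
      rw [Real.le_log_iff_exp_le (lt_of_lt_of_le (Real.exp_pos _) hT)]
      exact hT
    have hT0 : 0 < T := lt_of_lt_of_le (Real.exp_pos _) hT
    rw [one_mul, Real.norm_of_nonneg (by positivity), Real.norm_of_nonneg (by positivity)] at h3
    have h4 : (Real.log T) ^ (3 : ℝ) = (Real.log T) ^ 3 := by
      rw [← Real.rpow_natCast]
      norm_num
    rw [h4] at h3
    have h5 : (1 + Real.log T) ^ 2 ≤ (2 * Real.log T) ^ 2 := pow_le_pow_left₀ (by positivity) (by linarith) 2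
    calc (1 + Real.log T) ^ 2 * Real.log T ≤ (2 * Real.log T) ^ 2 * Real.log T :=
          mul_le_mul_of_nonneg_right h5 (by linarith)
      _ = 4 * (Real.log T) ^ 3 := by ring
      _ ≤ _ := by linarith
  refine ⟨e / 2, e / 8, 16 * C1 * C2 ^ 2, by positivity, by positivity, by positivity, ?_⟩
  filter_upwards [h1, hlog, eventually_gt_atTop 1] with T h1 hlog hT α β hα hβ
  have hT0 : 0 < T := by linarith
  have hL0 : 0 < Real.log T := Real.log_pos hT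
  have hTd : 0 < T ^ d := Real.rpow_pos_of_pos hT0 _
  obtain ⟨B, hB⟩ : ∃ B : ℝ, B = 4 * T ^ d * (1 + Real.log T) * (T ^ (e / 8) * (C1 * (1 + Real.log T) * Real.log T)) :=
    ⟨_, rfl⟩
  have hB0 : 0 ≤ B := by rw [hB]; positivity
  -- one modulus
  have hmod : ∀ r ∈ RS e T, (1 / (Nat.totient r : ℝ) ^ 2) *
      ∑ q ∈ r.divisors.filter (fun q : ℕ => T ^ (e / 4) < (q : ℝ) ∧ (q : ℝ) ≤ T), Real.sqrt q * ∑ χ ∈ PR q,
        ‖SJ g w v e T r χ α β (fun l m : ℕ => ¬ ((2:ℝ) ^ Nat.log 2 r * T ^ d ≤ (2:ℝ) ^ Nat.log 2 l * (2:ℝ) ^ Nat.log 2 m))‖ ≤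
      B * (C2 ^ 2 * (T ^ (1 / 2 - e) * T ^ (e / 4))) := by
    intro r hr
    unfold RS at hr
    rw [Finset.mem_filter, Finset.mem_Icc] at hr
    obtain ⟨⟨hr1, hrT⟩, hsq, hrR⟩ := hr
    have hr0 : r ≠ 0 := by omega
    have hrpos : (0 : ℝ) < r := by exact_mod_cast hr1
    have hrT' : (r : ℝ) ≤ T := (Nat.le_floor_iff hT0.le).1 hrT
    have h3 : ∑ q ∈ r.divisors.filter (fun q : ℕ => T ^ (e / 4) < (q : ℝ) ∧ (q : ℝ) ≤ T), Real.sqrt q * ∑ χ ∈ PR q,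
        ‖SJ g w v e T r χ α β (fun l m : ℕ => ¬ ((2:ℝ) ^ Nat.log 2 r * T ^ d ≤ (2:ℝ) ^ Nat.log 2 l * (2:ℝ) ^ Nat.log 2 m))‖ ≤
        ∑ q ∈ r.divisors.filter (fun q : ℕ => T ^ (e / 4) < (q : ℝ) ∧ (q : ℝ) ≤ T),
          (Real.sqrt q * ((PR q).card * Real.sqrt q)) * (r * B) := by
      refine Finset.sum_le_sum fun q hq => ?_
      rw [Finset.mem_filter] at hq
      obtain ⟨hqd, hq1, hq2⟩ := hq
      have hq1' : 1 < q := by
        have : (1 : ℝ) < q := lt_of_le_of_lt (Real.one_le_rpow hT.le (by positivity)) hq1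
        exact_mod_cast this
      have hqpos : (0 : ℝ) < q := by
        have : 0 < q := by omega
        exact_mod_cast this
      have hlq : Real.log q ≤ Real.log T := Real.log_le_log hqpos hq2
      have hlq0 : 0 ≤ Real.log q := Real.log_nonneg (by exact_mod_cast hq1'.le)
      rw [mul_assoc (Real.sqrt q), mul_assoc ((PR q).card : ℝ)]
      refine mul_le_mul_of_nonneg_left ?_ (Real.sqrt_nonneg _)
      rw [← nsmul_eq_mul, ← Finset.sum_const]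
      refine Finset.sum_le_sum fun χ hχ => ?_
      have h4 := h27_SJ g w v e hT.le r χ α β
        (fun l m : ℕ => ¬ ((2:ℝ) ^ Nat.log 2 r * T ^ d ≤ (2:ℝ) ^ Nat.log 2 l * (2:ℝ) ^ Nat.log 2 m))
        (A := T ^ (e / 8)) (K := C1 * (Real.sqrt q * (1 + Real.log q)) * Real.log T) (M := 4 * r * T ^ d)
        (fun m hm => by
          rw [Finset.mem_Icc] at hm
          exact hα m hm.1 ((Nat.le_floor_iff (by positivity)).1 hm.2))
        (by positivity) (by positivity)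
        (fun l m hl hm => h1 q hq1' χ hχ r l m hr1 hl hm β hβ) (by positivity)
        (fun l m hl _ hP => h27_pred hr1 hl hTd hP)
      refine h4.trans ?_
      have h5 : C1 * (Real.sqrt q * (1 + Real.log q)) * Real.log T ≤
          Real.sqrt q * (C1 * (1 + Real.log T) * Real.log T) := by
        calc C1 * (Real.sqrt q * (1 + Real.log q)) * Real.log T
            ≤ C1 * (Real.sqrt q * (1 + Real.log T)) * Real.log T := by gcongr
          _ = _ := by ring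
      calc 4 * r * T ^ d * (1 + Real.log T) * (T ^ (e / 8) * (C1 * (Real.sqrt q * (1 + Real.log q)) * Real.log T))
          ≤ 4 * r * T ^ d * (1 + Real.log T) * (T ^ (e / 8) *
            (Real.sqrt q * (C1 * (1 + Real.log T) * Real.log T))) := by gcongr
        _ = Real.sqrt q * (r * B) := by rw [hB]; ring
    have h4 : ∑ q ∈ r.divisors.filter (fun q : ℕ => T ^ (e / 4) < (q : ℝ) ∧ (q : ℝ) ≤ T),
          (Real.sqrt q * ((PR q).card * Real.sqrt q)) * (r * B) ≤ (r : ℝ) ^ 2 * (r * B) := by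
      rw [← Finset.sum_mul]
      exact mul_le_mul_of_nonneg_right (h27_sum_div hr0 _) (by positivity)
    have hφ : (0 : ℝ) < Nat.totient r := by exact_mod_cast Nat.totient_pos.2 hr1
    have h5 : (r : ℝ) / Nat.totient r ≤ C2 * T ^ (e / 8) := by
      rw [div_le_iff₀ hφ]
      calc (r : ℝ) ≤ (r.divisors.card : ℝ) * (Nat.totient r : ℝ) := tot_ge hsq
        _ ≤ (C2 * T ^ (e / 8)) * (Nat.totient r : ℝ) := by
          refine mul_le_mul_of_nonneg_right ((h2 r hr0).trans ?_) hφ.le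
          exact mul_le_mul_of_nonneg_left (Real.rpow_le_rpow hrpos.le hrT' (by positivity)) hC2.le
    have h6 : (1 / (Nat.totient r : ℝ) ^ 2) * ((r : ℝ) ^ 2 * (r * B)) =
        B * (((r : ℝ) / Nat.totient r) ^ 2 * r) := by
      field_simp
    refine (mul_le_mul_of_nonneg_left (h3.trans h4) (by positivity)).trans ?_
    rw [h6]
    refine mul_le_mul_of_nonneg_left ?_ hB0
    have h7 : ((r : ℝ) / Nat.totient r) ^ 2 ≤ (C2 * T ^ (e / 8)) ^ 2 := pow_le_pow_left₀ (by positivity) h5 2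
    have h8 : (T ^ (e / 8)) ^ 2 = T ^ (e / 4) := by
      rw [← Real.rpow_natCast, ← Real.rpow_mul hT0.le]
      congr 1
      push_cast
      ring
    calc ((r : ℝ) / Nat.totient r) ^ 2 * r ≤ (C2 * T ^ (e / 8)) ^ 2 * T ^ (1 / 2 - e) :=
          mul_le_mul h7 hrR hrpos.le (by positivity)
      _ = C2 ^ 2 * (T ^ (1 / 2 - e) * T ^ (e / 4)) := by rw [mul_pow, h8]; ring
  unfold WJ
  refine (Finset.sum_le_sum hmod).trans ?_
  rw [Finset.sum_const, nsmul_eq_mul]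
  have hcard : ((RS e T).card : ℝ) ≤ T ^ (1 / 2 - e) := by
    have h3 : RS e T ⊆ Finset.Icc 1 ⌊T ^ (1 / 2 - e)⌋₊ := by
      intro r hr
      unfold RS at hr
      rw [Finset.mem_filter, Finset.mem_Icc] at hr
      rw [Finset.mem_Icc]
      exact ⟨hr.1.1, Nat.le_floor hr.2.2⟩
    have h4 := Finset.card_le_card h3
    rw [Nat.card_Icc, Nat.add_sub_cancel] at h4
    calc ((RS e T).card : ℝ) ≤ (⌊T ^ (1 / 2 - e)⌋₊ : ℝ) := by exact_mod_cast h4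
      _ ≤ _ := Nat.floor_le (by positivity)
  have hBle : B ≤ 16 * C1 * (T ^ d * (T ^ (e / 8) * T ^ (e / 8))) := by
    have h3 : B = 4 * C1 * (T ^ d * T ^ (e / 8)) * ((1 + Real.log T) ^ 2 * Real.log T) := by
      rw [hB]; ring
    rw [h3]
    calc 4 * C1 * (T ^ d * T ^ (e / 8)) * ((1 + Real.log T) ^ 2 * Real.log T)
        ≤ 4 * C1 * (T ^ d * T ^ (e / 8)) * (4 * T ^ (e / 8)) :=
          mul_le_mul_of_nonneg_left hlog (by positivity)
      _ = _ := by ring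
  have hexp : T ^ (1 / 2 - e) * ((T ^ d * (T ^ (e / 8) * T ^ (e / 8))) * (T ^ (1 / 2 - e) * T ^ (e / 4))) ≤
      T ^ (1 - e / 2) := by
    rw [← Real.rpow_add hT0, ← Real.rpow_add hT0, ← Real.rpow_add hT0, ← Real.rpow_add hT0,
      ← Real.rpow_add hT0]
    refine Real.rpow_le_rpow_of_exponent_le hT.le ?_
    linarith
  calc ((RS e T).card : ℝ) * (B * (C2 ^ 2 * (T ^ (1 / 2 - e) * T ^ (e / 4))))
      ≤ T ^ (1 / 2 - e) * ((16 * C1 * (T ^ d * (T ^ (e / 8) * T ^ (e / 8)))) *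
        (C2 ^ 2 * (T ^ (1 / 2 - e) * T ^ (e / 4)))) := by
        refine mul_le_mul hcard (mul_le_mul_of_nonneg_right hBle (by positivity)) (by positivity) (by positivity)
    _ = 16 * C1 * C2 ^ 2 * (T ^ (1 / 2 - e) * ((T ^ d * (T ^ (e / 8) * T ^ (e / 8))) *
        (T ^ (1 / 2 - e) * T ^ (e / 4)))) := by ring
    _ ≤ _ := mul_le_mul_of_nonneg_left hexp (by positivity)

end Pool.Agent.Helper69.FF
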