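import Pool.Agent.Helper69.FF.KDefs
import Pool.Agent.Helper69.FF.KSup
import Pool.Agent.Helper69.FF.KBx
import Pool.Agent.Helper69.FF.KDy
import Pool.Agent.Helper69.FF.KPV

/-!
# FF-KT1: type I sums

Split by the predicate `P: 2^(log₂ r) T^d ≤ 2^(log₂ l) 2^(log₂ m)` (`SJ True = SJ P + SJ ¬P`, triangle inequality). `¬P`: `kpv` (FF.KPV). `P`: `kdy` (FF.KDy) with `D = C T^(1-δ)` from `kbx` (FF.KBx):
the hypothesis on `m` is `P`. For a box on which `α(m) FW(r, l, m k)` does not vanish identically: `c r T ≤ l m k` (FF.KSup) and `m ≤ T^(1-2d)`, so `c 2^jr T ≤ 8 · 2^ja 2^jk · T^(1-2d)`, i.e.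
`2^ja 2^jk ≥ (c/8) 2^jr T^(2d) ≥ 2^jr T^d` for large `T` (otherwise `WB = 0`). `β = log`: `|β k| ≤ 2 log T ≤ T^ε` for `k ≤ T²`.
-/

open MeasureTheory Set Filter Topology
open Pool.Agent.Helper57.Zeta Pool.Agent.Helper57.PC Pool.Agent.Helper57.LH Pool.Agent.Helper78.SG
open Pool.Agent.Helper4.SH (om)
open scoped ContDiff

namespace Pool.Agent.Helper69.FF

private lemma SJ_split_h36 (g : TF) (w v : ℝ → ℝ) (e T : ℝ) (r : ℕ) {q : ℕ} (χ : DirichletCharacter ℂ q)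
    (α β : ℕ → ℂ) (P : ℕ → ℕ → Prop) :
    SJ g w v e T r χ α β (fun _ _ => True) = SJ g w v e T r χ α β P + SJ g w v e T r χ α β (fun a m => ¬ P a m) := by
  classical
  unfold SJ
  rw [← Finset.sum_add_distrib]
  refine Finset.sum_congr rfl fun a _ => ?_
  rw [← Finset.sum_add_distrib]
  refine Finset.sum_congr rfl fun m _ => ?_
  rw [← Finset.sum_add_distrib]
  refine Finset.sum_congr rfl fun k _ => ?_
  by_cases h : P a m
  · rw [if_pos trivial, if_pos h, if_neg (not_not.2 h), add_zero]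
  · rw [if_pos trivial, if_neg h, if_pos h, zero_add]

private lemma WJ_split_h36 (g : TF) (w v : ℝ → ℝ) (e T : ℝ) (α β : ℕ → ℂ) (P : ℕ → ℕ → ℕ → Prop) (Q1 Q2 : ℝ) :
    WJ g w v e T α β (fun _ _ _ => True) Q1 Q2 ≤
      WJ g w v e T α β P Q1 Q2 + WJ g w v e T α β (fun r l m => ¬ P r l m) Q1 Q2 := by
  unfold WJ
  rw [← Finset.sum_add_distrib]
  refine Finset.sum_le_sum fun r _ => ?_
  rw [← mul_add]
  refine mul_le_mul_of_nonneg_left ?_ (by positivity)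
  rw [← Finset.sum_add_distrib]
  refine Finset.sum_le_sum fun q _ => ?_
  rw [← mul_add]
  refine mul_le_mul_of_nonneg_left ?_ (Real.sqrt_nonneg _)
  rw [← Finset.sum_add_distrib]
  refine Finset.sum_le_sum fun χ _ => ?_
  rw [SJ_split_h36 g w v e T r χ α β (P r)]
  exact norm_add_le _ _

private lemma WB_zero_h36 (g : TF) (w v : ℝ → ℝ) (e T : ℝ) (α β : ℕ → ℂ) (jr jq ja jm jk : ℕ)
    (h : ∀ r ∈ (RS e T).filter (fun r => r ∈ DB jr), ∀ a ∈ (SA e T r).filter (fun a => a ∈ DB ja),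
      ∀ m ∈ DB jm, ∀ k ∈ DB jk, α m = 0 ∨ FW g w v T (r, a) (m * k) = 0) :
    WB g w v e T α β jr jq ja jm jk = 0 := by
  unfold WB
  refine Finset.sum_eq_zero fun r hr => ?_
  rw [Finset.sum_eq_zero, mul_zero]
  intro q _
  rw [Finset.sum_eq_zero, mul_zero]
  intro χ _
  rw [norm_eq_zero]
  refine Finset.sum_eq_zero fun a ha => Finset.sum_eq_zero fun m hm => Finset.sum_eq_zero fun k hk => ?_
  rcases h r hr a ha m hm k hk with h0 | h0
  · rw [h0]; ring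
  · rw [h0]; push_cast; ring

theorem kt1 (g : TF) {w v : ℝ → ℝ} {a b a' b' e d : ℝ} (hw : WR w a b) (hb : b < 3 / 2)
    (hv : WR v a' b') (ha' : 1 < a') (hb' : b' < 3 / 2) (he : 0 < e) (he1 : e < 1 / 4) (hd : 0 < d) (hde : d < e) :
    ∃ δ ε C : ℝ, 0 < δ ∧ 0 < ε ∧ 0 < C ∧ ∀ᶠ T : ℝ in atTop, ∀ α β : ℕ → ℂ,
      (∀ m : ℕ, 1 ≤ m → (m : ℝ) ≤ T ^ 2 → ‖α m‖ ≤ T ^ ε) → (∀ m : ℕ, T ^ (1 - 2 * d) < (m : ℝ) → α m = 0) →
      ((β = fun _ => 1) ∨ (β = fun k : ℕ => ((Real.log (k : ℝ) : ℝ) : ℂ))) →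
      WJ g w v e T α β (fun _ _ _ => True) (T ^ (e / 4)) T ≤ C * T ^ (1 - δ) := by
  obtain ⟨δ1, ε1, C1, hδ1, hε1, hC1, H1⟩ := kbx g hw hb hv ha' hb' he he1 hd
  obtain ⟨C2, hC2, H2⟩ := kdy g hw hb hv ha' he he1
  obtain ⟨δ2, ε2, C3, hδ2, hε2, hC3, H3⟩ := kpv g hw hb hv ha' hb' he he1 hd hde
  obtain ⟨c, hc, H4⟩ := fw_supp g hw hb hv ha'
  have hlog1 : ∀ᶠ T : ℝ in atTop, 2 * Real.log T ≤ T ^ ε1 := by
    have h1 := (isLittleO_log_rpow_atTop hε1).bound (show (0:ℝ) < 1 / 2 by norm_num)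
    filter_upwards [h1, eventually_ge_atTop 1] with T hT hT1
    rw [Real.norm_eq_abs, Real.norm_eq_abs, abs_of_nonneg (Real.log_nonneg hT1),
      abs_of_nonneg (Real.rpow_nonneg (by linarith) _)] at hT
    linarith
  have hlog5 : ∀ᶠ T : ℝ in atTop, Real.log T ^ 5 ≤ T ^ (δ1 / 2) := by
    have h1 := (isLittleO_log_rpow_rpow_atTop (5 : ℝ) (s := δ1 / 2) (by positivity)).bound
      (show (0:ℝ) < 1 by norm_num)
    filter_upwards [h1, eventually_ge_atTop 1] with T hT hT1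
    rw [Real.norm_eq_abs, Real.norm_eq_abs, one_mul, abs_of_nonneg (Real.rpow_nonneg (Real.log_nonneg hT1) _),
      abs_of_nonneg (Real.rpow_nonneg (by linarith) _)] at hT
    have h2 : Real.log T ^ (5 : ℝ) = Real.log T ^ 5 := by
      rw [← Real.rpow_natCast]; norm_num
    rw [h2] at hT
    exact hT
  have hTd : ∀ᶠ T : ℝ in atTop, 4 / c ≤ T ^ d := (tendsto_rpow_atTop hd).eventually_ge_atTop _
  refine ⟨min (δ1 / 2) δ2, min ε1 ε2, C1 * C2 + C3, lt_min (by positivity) hδ2, lt_min hε1 hε2,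
    by positivity, ?_⟩
  filter_upwards [H1, H2, H3, hlog1, hlog5, hTd, eventually_gt_atTop 1] with T h1 h2 h3 hl1 hl5 hTd hT1
  intro α β hα hα0 hβ
  have hT0 : 0 < T := by linarith
  have hα1 : ∀ m : ℕ, 1 ≤ m → (m : ℝ) ≤ T ^ 2 → ‖α m‖ ≤ T ^ ε1 := fun m hm hm2 =>
    (hα m hm hm2).trans (Real.rpow_le_rpow_of_exponent_le hT1.le (min_le_left _ _))
  have hα2 : ∀ m : ℕ, 1 ≤ m → (m : ℝ) ≤ T ^ 2 → ‖α m‖ ≤ T ^ ε2 := fun m hm hm2 =>
    (hα m hm hm2).trans (Real.rpow_le_rpow_of_exponent_le hT1.le (min_le_right _ _))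
  have hβ1 : ∀ k : ℕ, 1 ≤ k → (k : ℝ) ≤ T ^ 2 → ‖β k‖ ≤ T ^ ε1 := by
    intro k hk hk2
    rcases hβ with hβ | hβ
    · rw [hβ]
      simp only [norm_one]
      exact Real.one_le_rpow hT1.le hε1.le
    · rw [hβ]
      simp only
      have hk' : (1 : ℝ) ≤ k := by exact_mod_cast hk
      rw [Complex.norm_real, Real.norm_eq_abs, abs_of_nonneg (Real.log_nonneg hk')]
      have h4 : Real.log k ≤ Real.log (T ^ 2) := Real.log_le_log (by linarith) hk2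
      rw [Real.log_pow] at h4
      push_cast at h4
      linarith
  set D : ℝ := C1 * T ^ (1 - δ1) with hD
  have hD0 : 0 ≤ D := by positivity
  -- the boxes
  have hbox : ∀ jr jq ja jm jk : ℕ, ((2:ℝ) ^ jr * T ^ d ≤ (2:ℝ) ^ ja * (2:ℝ) ^ jm) → T ^ (e / 4) ≤ 2 * 2 ^ jq →
      WB g w v e T α β jr jq ja jm jk ≤ D := by
    intro jr jq ja jm jk hP hq
    by_cases hall : ∀ r ∈ (RS e T).filter (fun r => r ∈ DB jr), ∀ a ∈ (SA e T r).filter (fun a => a ∈ DB ja),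
      ∀ m ∈ DB jm, ∀ k ∈ DB jk, α m = 0 ∨ FW g w v T (r, a) (m * k) = 0
    · rw [WB_zero_h36 g w v e T α β jr jq ja jm jk hall]
      exact hD0
    · push Not at hall
      obtain ⟨r, hr, l, hl, m, hm, k, hk, hαm, hFW⟩ := hall
      have hr1 := Finset.mem_filter.1 hr
      have hl1 := Finset.mem_filter.1 hl
      have hr2 : 1 ≤ r := (Finset.mem_Icc.1 (Finset.mem_filter.1 hr1.1).1).1
      have hl2 : 1 ≤ l := (Finset.mem_Icc.1 (Finset.mem_filter.1 hl1.1).1).1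
      have hr3 := Finset.mem_Ico.1 hr1.2
      have hl3 := Finset.mem_Ico.1 hl1.2
      have hk3 := Finset.mem_Ico.1 hk
      obtain ⟨-, -, -, hsup, -⟩ := H4 T hT1 r l (m * k) hr2 hl2 hFW
      have hmT : (m : ℝ) ≤ T ^ (1 - 2 * d) := by
        by_contra hcon
        exact hαm (hα0 m (not_le.1 hcon))
      refine h1 α β hα1 hβ1 jr jq ja jm jk hq hP ?_
      have e1 : (2 : ℝ) ^ jr ≤ r := by exact_mod_cast hr3.1
      have e2 : (l : ℝ) ≤ 2 * 2 ^ ja := by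
        have : (l : ℝ) < (2 : ℝ) ^ (ja + 1) := by exact_mod_cast hl3.2
        rw [pow_succ] at this
        linarith
      have e3 : (k : ℝ) ≤ 2 * 2 ^ jk := by
        have : (k : ℝ) < (2 : ℝ) ^ (jk + 1) := by exact_mod_cast hk3.2
        rw [pow_succ] at this
        linarith
      have hTp : 0 < T ^ (1 - 2 * d) := Real.rpow_pos_of_pos hT0 _
      have e4 : (l : ℝ) * ((m * k : ℕ) : ℝ) ≤ (2 * 2 ^ ja) * (T ^ (1 - 2 * d) * (2 * 2 ^ jk)) := by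
        push_cast
        refine mul_le_mul e2 (mul_le_mul hmT e3 (by positivity) hTp.le) (by positivity) (by positivity)
      have e5 : c * ((2 : ℝ) ^ jr * T) ≤ c * (r * T) :=
        mul_le_mul_of_nonneg_left (mul_le_mul_of_nonneg_right e1 hT0.le) hc.le
      have e6 : T = T ^ (1 - 2 * d) * (T ^ d * T ^ d) := by
        rw [← Real.rpow_add hT0, ← Real.rpow_add hT0]
        have : 1 - 2 * d + (d + d) = 1 := by ring
        rw [this, Real.rpow_one]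
      have e7 : c * ((2 : ℝ) ^ jr * T) = (c * T ^ d) * ((2 : ℝ) ^ jr * T ^ d) * T ^ (1 - 2 * d) := by
        conv_lhs => rw [e6]
        ring
      have e8 : 4 ≤ c * T ^ d := by
        rw [div_le_iff₀ hc] at hTd
        linarith
      have e9 : 4 * ((2 : ℝ) ^ jr * T ^ d) * T ^ (1 - 2 * d) ≤ (c * T ^ d) * ((2 : ℝ) ^ jr * T ^ d) * T ^ (1 - 2 * d) := by
        have : 0 ≤ (2 : ℝ) ^ jr * T ^ d := by positivity
        exact mul_le_mul_of_nonneg_right (mul_le_mul_of_nonneg_right e8 this) hTp.le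
      have e10 : 4 * ((2 : ℝ) ^ jr * T ^ d) * T ^ (1 - 2 * d) ≤ 4 * ((2 : ℝ) ^ ja * 2 ^ jk) * T ^ (1 - 2 * d) := by
        calc 4 * ((2 : ℝ) ^ jr * T ^ d) * T ^ (1 - 2 * d) ≤ c * ((2 : ℝ) ^ jr * T) := by rw [e7]; exact e9
          _ ≤ c * (r * T) := e5
          _ ≤ (l : ℝ) * ((m * k : ℕ) : ℝ) := hsup
          _ ≤ (2 * 2 ^ ja) * (T ^ (1 - 2 * d) * (2 * 2 ^ jk)) := e4
          _ = 4 * ((2 : ℝ) ^ ja * 2 ^ jk) * T ^ (1 - 2 * d) := by ring
      have e11 := le_of_mul_le_mul_right e10 hTp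
      linarith
  have k1 := h2 α β (fun jr ja jm : ℕ => (2:ℝ) ^ jr * T ^ d ≤ (2:ℝ) ^ ja * (2:ℝ) ^ jm) D hD0 hbox
  have k2 := h3 α β hα2 hβ
  refine (WJ_split_h36 g w v e T α β
    (fun r l m : ℕ => (2:ℝ) ^ Nat.log 2 r * T ^ d ≤ (2:ℝ) ^ Nat.log 2 l * (2:ℝ) ^ Nat.log 2 m) _ _).trans ?_
  refine (add_le_add k1 k2).trans ?_
  have m1 : C2 * Real.log T ^ 5 * D ≤ C1 * C2 * T ^ (1 - min (δ1 / 2) δ2) := by
    have n1 : T ^ (δ1 / 2) * T ^ (1 - δ1) ≤ T ^ (1 - min (δ1 / 2) δ2) := by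
      rw [← Real.rpow_add hT0]
      apply Real.rpow_le_rpow_of_exponent_le hT1.le
      have := min_le_left (δ1 / 2) δ2
      linarith
    calc C2 * Real.log T ^ 5 * D = C1 * C2 * (Real.log T ^ 5 * T ^ (1 - δ1)) := by rw [hD]; ring
      _ ≤ C1 * C2 * (T ^ (δ1 / 2) * T ^ (1 - δ1)) :=
        mul_le_mul_of_nonneg_left (mul_le_mul_of_nonneg_right hl5 (by positivity)) (by positivity)
      _ ≤ _ := mul_le_mul_of_nonneg_left n1 (by positivity)
  have m2 : C3 * T ^ (1 - δ2) ≤ C3 * T ^ (1 - min (δ1 / 2) δ2) := by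
    refine mul_le_mul_of_nonneg_left (Real.rpow_le_rpow_of_exponent_le hT1.le ?_) hC3.le
    have := min_le_right (δ1 / 2) δ2
    linarith
  rw [add_mul]
  exact add_le_add m1 m2

end Pool.Agent.Helper69.FF
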