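import Pool.Agent.Helper69.FF.KDefs
import Pool.Agent.Helper69.FF.KSup
import Pool.Agent.Helper69.FF.KBx
import Pool.Agent.Helper69.FF.KDy

/-!
# FF-KT2: type II sums

`kdy` (FF.KDy) with `P = True` and `D = C T^(1-δ)` from `kbx` (FF.KBx): for a box on which `α(m) β(k) FW(r, l, m k)` does not vanish identically: `m > T^(1/2-d)`, so `2^jm ≥ T^(1/2-d)/2`, and
`r ≤ l T^(b'-1)` (FF.KSup), so `2^jr ≤ 2 · 2^ja T^(b'-1)`; hence `2^jr T^d ≤ 2 · 2^ja T^(b'-1+d) ≤ 2^ja 2^jm` for large `T` because `b' - 1 + d < 1/2 - d`. The same for `k`. On the other boxes `WB = 0`.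
-/

open MeasureTheory Set Filter Topology
open Pool.Agent.Helper57.Zeta Pool.Agent.Helper57.PC Pool.Agent.Helper57.LH Pool.Agent.Helper78.SG
open Pool.Agent.Helper4.SH (om)
open scoped ContDiff

namespace Pool.Agent.Helper69.FF

theorem kt2 (g : TF) {w v : ℝ → ℝ} {a b a' b' e d : ℝ} (hw : WR w a b) (hb : b < 3 / 2)
    (hv : WR v a' b') (ha' : 1 < a') (hb' : b' < 3 / 2) (he : 0 < e) (he1 : e < 1 / 4) (hd : 0 < d) (hd2 : 2 * d < 3 / 2 - b') :
    ∃ δ ε C : ℝ, 0 < δ ∧ 0 < ε ∧ 0 < C ∧ ∀ᶠ T : ℝ in atTop, ∀ α β : ℕ → ℂ,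
      (∀ m : ℕ, 1 ≤ m → (m : ℝ) ≤ T ^ 2 → ‖α m‖ ≤ T ^ ε) → (∀ k : ℕ, 1 ≤ k → (k : ℝ) ≤ T ^ 2 → ‖β k‖ ≤ T ^ ε) →
      (∀ m : ℕ, (m : ℝ) ≤ T ^ (1 / 2 - d) → α m = 0) → (∀ k : ℕ, (k : ℝ) ≤ T ^ (1 / 2 - d) → β k = 0) →
      WJ g w v e T α β (fun _ _ _ => True) (T ^ (e / 4)) T ≤ C * T ^ (1 - δ) := by
  obtain ⟨δ, ε, C1, hδ, hε, hC1, h1⟩ := kbx g hw hb hv ha' hb' he he1 hd
  obtain ⟨C2, hC2, h2⟩ := kdy g hw hb hv ha' he he1
  obtain ⟨c, hc, hsupp⟩ := fw_supp g hw hb hv ha'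
  refine ⟨δ / 2, ε, C2 * C1, by positivity, hε, by positivity, ?_⟩
  have hlog : ∀ᶠ T : ℝ in atTop, Real.log T ^ 5 ≤ T ^ (δ / 2) := by
    have h3 := (isLittleO_log_rpow_rpow_atTop (5 : ℝ) (by positivity : 0 < δ / 2)).bound (one_pos)
    filter_upwards [h3, eventually_gt_atTop 1] with T hT hT1
    have hL : 0 ≤ Real.log T := Real.log_nonneg hT1.le
    rw [one_mul, Real.norm_of_nonneg (Real.rpow_nonneg hL _), Real.norm_of_nonneg (Real.rpow_nonneg (by linarith) _)] at hT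
    have e : Real.log T ^ (5 : ℝ) = Real.log T ^ (5 : ℕ) := by
      rw [← Real.rpow_natCast]
      norm_num
    rwa [e] at hT
  have hpow : ∀ᶠ T : ℝ in atTop, 4 ≤ T ^ (3 / 2 - b' - 2 * d) :=
    (tendsto_rpow_atTop (by linarith : 0 < 3 / 2 - b' - 2 * d)).eventually_ge_atTop 4
  filter_upwards [h1, h2, hlog, hpow, eventually_gt_atTop 1] with T k1 k2 k3 k4 hT1 α β hα hβ hα0 hβ0
  have hT0 : 0 < T := by linarith
  have hD : 0 ≤ C1 * T ^ (1 - δ) := by positivity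
  have hbox : ∀ jr jq ja jm jk : ℕ, T ^ (e / 4) ≤ 2 * 2 ^ jq → WB g w v e T α β jr jq ja jm jk ≤ C1 * T ^ (1 - δ) := by
    intro jr jq ja jm jk hq
    by_cases hex : ∃ r ∈ (RS e T).filter (fun r => r ∈ DB jr), ∃ l ∈ (SA e T r).filter (fun a => a ∈ DB ja),
        ∃ m ∈ DB jm, ∃ k ∈ DB jk, α m * β k * ((FW g w v T (r, l) (m * k) : ℝ) : ℂ) ≠ 0
    · obtain ⟨r, hr, l, hl, m, hm, k, hk, hne⟩ := hex
      rw [Finset.mem_filter] at hr hl
      obtain ⟨hr1, hr2⟩ := hr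
      obtain ⟨hl1, hl2⟩ := hl
      have hr3 : 1 ≤ r := by
        unfold RS at hr1
        rw [Finset.mem_filter, Finset.mem_Icc] at hr1
        exact hr1.1.1
      have hl3 : 1 ≤ l := by
        unfold SA at hl1
        rw [Finset.mem_filter, Finset.mem_Icc] at hl1
        exact hl1.1.1
      have hF : FW g w v T (r, l) (m * k) ≠ 0 := by
        intro h0
        exact hne (by rw [h0, Complex.ofReal_zero, mul_zero])
      have hαm : α m ≠ 0 := by
        intro h0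
        exact hne (by rw [h0, zero_mul, zero_mul])
      have hβk : β k ≠ 0 := by
        intro h0
        exact hne (by rw [h0, mul_zero, zero_mul])
      have hs := hsupp T hT1 r l (m * k) hr3 hl3 hF
      have hrl := hs.2.1
      have hm1 : T ^ (1 / 2 - d) < (m : ℝ) := by
        by_contra h0
        rw [not_lt] at h0
        exact hαm (hα0 m h0)
      have hk1 : T ^ (1 / 2 - d) < (k : ℝ) := by
        by_contra h0
        rw [not_lt] at h0
        exact hβk (hβ0 k h0)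
      have hDB : ∀ {j n : ℕ}, n ∈ DB j → (2 : ℝ) ^ j ≤ n ∧ (n : ℝ) ≤ 2 * 2 ^ j := by
        intro j n hn
        unfold DB at hn
        rw [Finset.mem_Ico] at hn
        constructor
        · exact_mod_cast hn.1
        · have h5 : n ≤ 2 * 2 ^ j := by
            have := hn.2
            rw [pow_succ] at this
            omega
          exact_mod_cast h5
      have q1 := (hDB hr2).1
      have q2 := (hDB hl2).2
      have q3 := (hDB hm).2
      have q4 := (hDB hk).2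
      have hTp : 0 < T ^ (b' - 1) := Real.rpow_pos_of_pos hT0 _
      have hTd : 0 < T ^ d := Real.rpow_pos_of_pos hT0 _
      have u1 : (2 : ℝ) ^ jr ≤ 2 * 2 ^ ja * T ^ (b' - 1) :=
        q1.trans (hrl.trans (mul_le_mul_of_nonneg_right q2 hTp.le))
      have key : ∀ j : ℕ, T ^ (1 / 2 - d) ≤ 2 * 2 ^ j → (2 : ℝ) ^ jr * T ^ d ≤ 2 ^ ja * 2 ^ j := by
        intro j hj
        have e1 : T ^ (1 / 2 - d) = T ^ (b' - 1) * T ^ d * T ^ (3 / 2 - b' - 2 * d) := by
          rw [← Real.rpow_add hT0, ← Real.rpow_add hT0]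
          congr 1
          ring
        have e2 : 4 * (T ^ (b' - 1) * T ^ d) ≤ T ^ (1 / 2 - d) := by
          rw [e1, mul_comm (4 : ℝ)]
          exact mul_le_mul_of_nonneg_left k4 (by positivity)
        have e3 : 2 * (T ^ (b' - 1) * T ^ d) ≤ 2 ^ j := by linarith
        calc (2 : ℝ) ^ jr * T ^ d ≤ (2 * 2 ^ ja * T ^ (b' - 1)) * T ^ d := mul_le_mul_of_nonneg_right u1 hTd.le
          _ = 2 ^ ja * (2 * (T ^ (b' - 1) * T ^ d)) := by ring
          _ ≤ 2 ^ ja * 2 ^ j := mul_le_mul_of_nonneg_left e3 (by positivity)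
      exact k1 α β hα hβ jr jq ja jm jk hq (key jm (hm1.le.trans q3)) (key jk (hk1.le.trans q4))
    · push Not at hex
      have h0 : WB g w v e T α β jr jq ja jm jk = 0 := by
        unfold WB
        refine Finset.sum_eq_zero fun r hr => ?_
        refine mul_eq_zero_of_right _ (Finset.sum_eq_zero fun q _ => mul_eq_zero_of_right _ (Finset.sum_eq_zero fun χ _ => ?_))
        rw [norm_eq_zero]
        refine Finset.sum_eq_zero fun l hl => Finset.sum_eq_zero fun m hm => Finset.sum_eq_zero fun k hk => ?_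
        have h5 := hex r hr l hl m hm k hk
        rw [mul_assoc, h5, mul_zero]
      rw [h0]
      exact hD
  have hmain := k2 α β (fun _ _ _ => True) (C1 * T ^ (1 - δ)) hD (fun jr jq ja jm jk _ hq => hbox jr jq ja jm jk hq)
  refine hmain.trans ?_
  have e1 : T ^ (1 - δ / 2) = T ^ (δ / 2) * T ^ (1 - δ) := by
    rw [← Real.rpow_add hT0]
    congr 1
    ring
  rw [e1]
  calc C2 * Real.log T ^ 5 * (C1 * T ^ (1 - δ)) = C2 * C1 * (Real.log T ^ 5 * T ^ (1 - δ)) := by ring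
    _ ≤ C2 * C1 * (T ^ (δ / 2) * T ^ (1 - δ)) := by
        refine mul_le_mul_of_nonneg_left ?_ (by positivity)
        exact mul_le_mul_of_nonneg_right k3 (by positivity)

end Pool.Agent.Helper69.FF
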