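import Pool.Agent.Helper69.FF.KDefs
import Pool.Agent.Helper93.FFK.Vaughan

/-!
# FF-VAU: the identity of Vaughan

`Λ = Λ_{≤U} + Λ_{>U}`, `Λ_{>U} = Λ_{>U} * μ_{≤U} * 1 + Λ_{>U} * μ_{>U} * 1` and `Λ_{>U} * μ_{≤U} * 1 = μ_{≤U} * log - (Λ_{≤U} * μ_{≤U}) * 1`. So for `n > U`:
`Λ(n) = (α1 * log)(n) - (α2 * 1)(n) + (α3 * β3)(n)`, `α1 = μ 1_{≤U}`, `α2 = Λ_{≤U} * μ_{≤U}` (`|α2 m| ≤ ∑_{b ∣ m} Λ(b) = log m`, supported on `m ≤ U²`),
`α3 = Λ 1_{>U}`, `β3 = μ_{>U} * 1` (`|β3 k| ≤ τ(k)`, zero for `k ≤ U`).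
(helper93 is proving this in `Pool/Agent/Helper93/FFK/Vaughan.lean`; this file only restates it.)
-/

open MeasureTheory Set Filter Topology
open Pool.Agent.Helper57.Zeta Pool.Agent.Helper57.PC Pool.Agent.Helper57.LH Pool.Agent.Helper78.SG
open Pool.Agent.Helper4.SH (om)
open scoped ContDiff

namespace Pool.Agent.Helper69.FF

theorem vaughan {U : ℝ} (hU : 1 ≤ U) : ∃ α1 α2 α3 β3 : ℕ → ℂ,
    (∀ m, ‖α1 m‖ ≤ 1) ∧ (∀ m : ℕ, U < m → α1 m = 0) ∧
    (∀ m : ℕ, ‖α2 m‖ ≤ Real.log m) ∧ (∀ m : ℕ, U ^ 2 < m → α2 m = 0) ∧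
    (∀ m : ℕ, ‖α3 m‖ ≤ Real.log m) ∧ (∀ m : ℕ, (m : ℝ) ≤ U → α3 m = 0) ∧
    (∀ k : ℕ, ‖β3 k‖ ≤ k.divisors.card) ∧ (∀ k : ℕ, (k : ℝ) ≤ U → β3 k = 0) ∧
    ∀ n : ℕ, U < n → LL n = cv α1 (fun k => ((Real.log k : ℝ) : ℂ)) n - cv α2 (fun _ => 1) n + cv α3 β3 n := by
  set V : ℕ := ⌊U⌋₊ with hV
  have hU0 : 0 ≤ U := by linarith
  have hV1 : 1 ≤ V := Nat.le_floor (by exact_mod_cast hU)
  have hVU : (V : ℝ) ≤ U := Nat.floor_le hU0
  have hlt : ∀ m : ℕ, U < m → V < m := fun m hm => (Nat.floor_lt hU0).2 hm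
  have hle : ∀ m : ℕ, (m : ℝ) ≤ U → m ≤ V := fun m hm => Nat.le_floor hm
  refine ⟨fun m => ((if m ≤ V then (ArithmeticFunction.moebius m : ℝ) else 0 : ℝ) : ℂ),
    fun m => ((Pool.Agent.Helper93.FFK.cU V m : ℝ) : ℂ),
    fun m => ((if V < m then ArithmeticFunction.vonMangoldt m else 0 : ℝ) : ℂ),
    fun k => ((if V < k then -Pool.Agent.Helper93.FFK.gU V k else 0 : ℝ) : ℂ), ?_, ?_, ?_, ?_, ?_, ?_, ?_, ?_, ?_⟩
  · intro m
    rw [Complex.norm_real, Real.norm_eq_abs]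
    split_ifs
    · exact Pool.Agent.Helper93.FFK.moeb_le m
    · simp
  · intro m hm
    have := hlt m hm
    simp only
    rw [if_neg (by omega), Complex.ofReal_zero]
  · intro m
    rw [Complex.norm_real, Real.norm_eq_abs]
    exact Pool.Agent.Helper93.FFK.cU_le V m
  · intro m hm
    have h1 : V * V < m := by
      have : ((V * V : ℕ) : ℝ) < m := by
        push_cast
        nlinarith
      exact_mod_cast this
    simp only
    rw [Pool.Agent.Helper93.FFK.cU_zero h1, Complex.ofReal_zero]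
  · intro m
    rw [Complex.norm_real, Real.norm_eq_abs]
    split_ifs
    · rw [abs_of_nonneg ArithmeticFunction.vonMangoldt_nonneg]
      exact ArithmeticFunction.vonMangoldt_le_log
    · rw [abs_zero]
      exact Real.log_natCast_nonneg m
  · intro m hm
    have := hle m hm
    simp only
    rw [if_neg (by omega), Complex.ofReal_zero]
  · intro k
    rw [Complex.norm_real, Real.norm_eq_abs]
    split_ifs
    · rw [abs_neg]
      exact Pool.Agent.Helper93.FFK.gU_le V k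
    · rw [abs_zero]
      positivity
  · intro k hk
    have := hle k hk
    simp only
    rw [if_neg (by omega), Complex.ofReal_zero]
  · intro n hn
    have h := Pool.Agent.Helper93.FFK.vaughan hV1 (hlt n hn)
    unfold LL cv
    rw [h]
    push_cast
    rw [sub_eq_add_neg _ (∑ x ∈ n.divisorsAntidiagonal, ((if V < x.1 ∧ V < x.2 then
      ArithmeticFunction.vonMangoldt x.1 * Pool.Agent.Helper93.FFK.gU V x.2 else 0 : ℝ) : ℂ)), ← Finset.sum_neg_distrib]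
    congr 1
    · congr 1
      · refine Finset.sum_congr rfl fun x _ => ?_
        by_cases h1 : x.1 ≤ V
        · simp [h1]
        · simp [h1]
      · refine Finset.sum_congr rfl fun x _ => ?_
        ring
    · refine Finset.sum_congr rfl fun x _ => ?_
      by_cases h1 : V < x.1 <;> by_cases h2 : V < x.2 <;> simp [h1, h2]

end Pool.Agent.Helper69.FF
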