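import Pool.Agent.Helper69.FF.KDefs
import Pool.Agent.Helper69.FF.KSup
import Pool.Agent.Helper69.FF.KT1
import Pool.Agent.Helper69.FF.KT2
import Pool.Agent.Helper69.FF.VAU
import Pool.Agent.Helper69.FF.DivS

/-!
# FF-KLg: large conductors

Take `d = min(e, 3/2 - b')/3`, `U = T^(1/2-d)` (`U² = T^(1-2d)`). On the support of `FW`: `c r T ≤ l n`, `l < r`, so `n ≥ c T > U` for large `T` (FF.KSup): there
`LL n = cv α1 log n - cv α2 1 n + cv α3 β3 n` (`vaughan`, FF.VAU). `SI (cv α β) = SJ α β True` (`∑_{n ≤ N} ∑_{mk = n} = ∑_{m,k ≤ N}`, the terms with `m k > T²` vanish: FF.KSup), so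
`WW LL ≤ WJ α1 log + WJ α2 1 + WJ α3 β3`; `kt1`, `kt1`, `kt2`. Coefficients: `|α1| ≤ 1`, `|α2|, |α3| ≤ log m ≤ 2 log T ≤ T^ε`, `|β3 k| ≤ τ(k) ≤ C (T²)^(ε/4) ≤ T^ε` (FF.DivS).
-/

open MeasureTheory Set Filter Topology
open Pool.Agent.Helper57.Zeta Pool.Agent.Helper57.PC Pool.Agent.Helper57.LH Pool.Agent.Helper78.SG
open Pool.Agent.Helper4.SH (om)
open scoped ContDiff

namespace Pool.Agent.Helper69.FF

/-- sums over the factorisations -/
private theorem lg_fact (N : ℕ) (f : ℕ × ℕ → ℂ) (hf : ∀ m k : ℕ, 1 ≤ m → 1 ≤ k → N < m * k → f (m, k) = 0) :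
    ∑ n ∈ Finset.Icc 1 N, ∑ x ∈ n.divisorsAntidiagonal, f x =
      ∑ m ∈ Finset.Icc 1 N, ∑ k ∈ Finset.Icc 1 N, f (m, k) := by
  rw [← Finset.sum_product' (Finset.Icc 1 N) (Finset.Icc 1 N) (fun m k => f (m, k))]
  have h1 : ∑ x ∈ Finset.Icc 1 N ×ˢ Finset.Icc 1 N, f (x.1, x.2) =
      ∑ x ∈ (Finset.Icc 1 N ×ˢ Finset.Icc 1 N).filter (fun x => x.1 * x.2 ≤ N), f x := by
    symm
    refine Finset.sum_subset (Finset.filter_subset _ _) fun x hx hx' => ?_
    rw [Finset.mem_product, Finset.mem_Icc, Finset.mem_Icc] at hx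
    rw [Finset.mem_filter, not_and] at hx'
    have h2 : ¬ x.1 * x.2 ≤ N := hx' (by
      rw [Finset.mem_product, Finset.mem_Icc, Finset.mem_Icc]
      exact hx)
    exact hf x.1 x.2 hx.1.1 hx.2.1 (by omega)
  rw [h1, ← Finset.sum_fiberwise_of_maps_to (g := fun x : ℕ × ℕ => x.1 * x.2) (t := Finset.Icc 1 N)]
  · refine Finset.sum_congr rfl fun n hn => ?_
    rw [Finset.mem_Icc] at hn
    congr 1
    ext x
    rw [Nat.mem_divisorsAntidiagonal, Finset.mem_filter, Finset.mem_filter, Finset.mem_product, Finset.mem_Icc,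
      Finset.mem_Icc]
    constructor
    · rintro ⟨h2, h3⟩
      have hx1 : 1 ≤ x.1 := by
        rcases Nat.eq_zero_or_pos x.1 with h | h
        · rw [h, zero_mul] at h2; omega
        · exact h
      have hx2 : 1 ≤ x.2 := by
        rcases Nat.eq_zero_or_pos x.2 with h | h
        · rw [h, mul_zero] at h2; omega
        · exact h
      have hx3 : x.1 ≤ x.1 * x.2 := Nat.le_mul_of_pos_right _ hx2
      have hx4 : x.2 ≤ x.1 * x.2 := Nat.le_mul_of_pos_left _ hx1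
      refine ⟨⟨⟨⟨hx1, ?_⟩, hx2, ?_⟩, ?_⟩, h2⟩ <;> omega
    · rintro ⟨-, h2⟩
      exact ⟨h2, by omega⟩
  · intro x hx
    rw [Finset.mem_filter, Finset.mem_product, Finset.mem_Icc, Finset.mem_Icc] at hx
    rw [Finset.mem_Icc]
    exact ⟨Nat.mul_pos hx.1.1.1 hx.1.2.1, hx.2⟩

private theorem lg_SI_cv (g : TF) {w v : ℝ → ℝ} {e T : ℝ} {r q : ℕ} (χ : DirichletCharacter ℂ q) (α β : ℕ → ℂ)
    (hz : ∀ l m k : ℕ, 1 ≤ l → 1 ≤ m → 1 ≤ k → ⌊T ^ 2⌋₊ < m * k → FW g w v T (r, l) (m * k) = 0) :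
    SI g w v e T r χ (cv α β) = SJ g w v e T r χ α β (fun _ _ => True) := by
  unfold SI SJ
  refine Finset.sum_congr rfl fun l hl => ?_
  have hl1 : 1 ≤ l := by
    unfold SA at hl
    rw [Finset.mem_filter, Finset.mem_Icc] at hl
    exact hl.1.1
  simp only [if_true]
  rw [← lg_fact ⌊T ^ 2⌋₊ (fun x => (χ l * χ x.1 * χ x.2) * (α x.1 * β x.2) * ((FW g w v T (r, l) (x.1 * x.2) : ℝ) : ℂ))]
  · refine Finset.sum_congr rfl fun n _ => ?_
    unfold cv
    rw [Finset.mul_sum, Finset.sum_mul]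
    refine Finset.sum_congr rfl fun x hx => ?_
    rw [Nat.mem_divisorsAntidiagonal] at hx
    rw [← hx.1, Nat.cast_mul, map_mul]
    ring
  · intro m k hm hk hmk
    rw [hz l m k hl1 hm hk hmk]
    simp

private theorem lg_log_le {ε : ℝ} (hε : 0 < ε) : ∀ᶠ T : ℝ in atTop, 2 * Real.log T ≤ T ^ ε := by
  have h1 := (isLittleO_log_rpow_atTop hε).bound (by norm_num : (0 : ℝ) < 1 / 2)
  filter_upwards [h1, eventually_gt_atTop 1] with T hT hT1
  have hT0 : 0 < T := by linarith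
  rw [Real.norm_eq_abs, Real.norm_eq_abs, abs_of_pos (Real.log_pos hT1), abs_of_pos (Real.rpow_pos_of_pos hT0 _)] at hT
  linarith

private theorem lg_const_le {C ε : ℝ} (hε : 0 < ε) : ∀ᶠ T : ℝ in atTop, C ≤ T ^ ε :=
  (tendsto_rpow_atTop hε).eventually_ge_atTop C

theorem klg (g : TF) {w v : ℝ → ℝ} {a b a' b' e : ℝ} (hw : WR w a b) (hb : b < 3 / 2)
    (hv : WR v a' b') (ha' : 1 < a') (hb' : b' < 3 / 2) (he : 0 < e) (he1 : e < 1 / 4) :
    ∃ δ C : ℝ, 0 < δ ∧ 0 < C ∧ ∀ᶠ T : ℝ in atTop, WW g w v e T LL (T ^ (e / 4)) T ≤ C * T ^ (1 - δ) := by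
  obtain ⟨d, hdd⟩ : ∃ d : ℝ, d = min e (3 / 2 - b') / 3 := ⟨_, rfl⟩
  have hd : 0 < d := by
    rw [hdd]
    have : 0 < min e (3 / 2 - b') := lt_min he (by linarith)
    linarith
  have hde : d < e := by
    have := min_le_left e (3 / 2 - b')
    rw [hdd]; linarith
  have hd2 : 2 * d < 3 / 2 - b' := by
    have := min_le_right e (3 / 2 - b')
    rw [hdd]; linarith
  obtain ⟨δ1, ε1, C1, hδ1, hε1, hC1, h1⟩ := kt1 g hw hb hv ha' hb' he he1 hd hde
  obtain ⟨δ2, ε2, C2, hδ2, hε2, hC2, h2⟩ := kt2 g hw hb hv ha' hb' he he1 hd hd2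
  obtain ⟨C3, hC3, h3⟩ := div_bound (ε := ε2 / 4) (by linarith)
  obtain ⟨c, hc, hsupp⟩ := fw_supp g hw hb hv ha'
  refine ⟨min δ1 δ2, 2 * C1 + C2, lt_min hδ1 hδ2, by positivity, ?_⟩
  filter_upwards [h1, h2, lg_log_le hε1, lg_log_le hε2, lg_const_le (C := C3) (by linarith : 0 < ε2 / 2),
    eventually_gt_atTop 1, lg_const_le (C := 1 / c) (by linarith : 0 < 1 / 2 + d)] with T k1 k2 k3 k4 k5 hT1 k6
  have hT0 : 0 < T := by linarith
  obtain ⟨U, hU⟩ : ∃ U : ℝ, U = T ^ (1 / 2 - d) := ⟨_, rfl⟩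
  have hU1 : 1 ≤ U := by
    rw [hU]
    exact Real.one_le_rpow hT1.le (by linarith)
  have hU2 : U ^ 2 = T ^ (1 - 2 * d) := by
    rw [hU, ← Real.rpow_natCast, ← Real.rpow_mul hT0.le]
    congr 1
    push_cast
    ring
  obtain ⟨α1, α2, α3, β3, a1, a2, b1, b2, c1, c2, d1, d2, hV⟩ := vaughan hU1
  -- sizes
  have hlog : ∀ m : ℕ, 1 ≤ m → (m : ℝ) ≤ T ^ 2 → Real.log m ≤ 2 * Real.log T := by
    intro m hm hmT
    have hm0 : (0 : ℝ) < m := by exact_mod_cast hm
    have h := Real.log_le_log hm0 hmT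
    rw [Real.log_pow] at h
    push_cast at h
    exact h
  have hUT : U ≤ T := by
    rw [hU]
    calc T ^ (1 / 2 - d) ≤ T ^ (1 : ℝ) := Real.rpow_le_rpow_of_exponent_le hT1.le (by linarith)
      _ = T := Real.rpow_one T
  have hUlt : U ≤ c * T := by
    -- `T = U * T ^ (1/2 + d) ≥ U / c`
    have h4 : U * T ^ (1 / 2 + d) = T := by
      rw [hU, ← Real.rpow_add hT0]
      have : (1 / 2 - d + (1 / 2 + d)) = 1 := by ring
      rw [this, Real.rpow_one]
    rw [div_le_iff₀ hc] at k6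
    nlinarith
  have hfloor : ∀ r : ℕ, 1 ≤ r → ∀ l m k : ℕ, 1 ≤ l → 1 ≤ m → 1 ≤ k → ⌊T ^ 2⌋₊ < m * k → FW g w v T (r, l) (m * k) = 0 := by
    intro r hr l m k hl _ _ hmk
    by_contra hne
    have h5 := (hsupp T hT1 r l (m * k) hr hl hne).2.2.1
    have h6 : T ^ (3 / 2 : ℝ) ≤ T ^ 2 := by
      rw [← Real.rpow_natCast]
      exact Real.rpow_le_rpow_of_exponent_le hT1.le (by norm_num)
    have h7 := Nat.lt_of_floor_lt hmk
    linarith
  -- the identity
  have hid : ∀ r ∈ RS e T, ∀ (q : ℕ) (χ : DirichletCharacter ℂ q), SI g w v e T r χ LL =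
      SJ g w v e T r χ α1 (fun k : ℕ => ((Real.log (k : ℝ) : ℝ) : ℂ)) (fun _ _ => True) -
      SJ g w v e T r χ α2 (fun _ => 1) (fun _ _ => True) + SJ g w v e T r χ α3 β3 (fun _ _ => True) := by
    intro r hr q χ
    have hr1 : 1 ≤ r := by
      unfold RS at hr
      rw [Finset.mem_filter, Finset.mem_Icc] at hr
      exact hr.1.1
    rw [← lg_SI_cv g χ _ _ (hfloor r hr1), ← lg_SI_cv g χ _ _ (hfloor r hr1), ← lg_SI_cv g χ _ _ (hfloor r hr1)]
    unfold SI
    rw [← Finset.sum_sub_distrib, ← Finset.sum_add_distrib]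
    refine Finset.sum_congr rfl fun l hl => ?_
    rw [← Finset.sum_sub_distrib, ← Finset.sum_add_distrib]
    refine Finset.sum_congr rfl fun n hn => ?_
    have hl1 : 1 ≤ l := by
      unfold SA at hl
      rw [Finset.mem_filter, Finset.mem_Icc] at hl
      exact hl.1.1
    by_cases hne : FW g w v T (r, l) n = 0
    · rw [hne]
      simp
    · have h5 := hsupp T hT1 r l n hr1 hl1 hne
      have h6 : (l : ℝ) < r := by exact_mod_cast h5.1
      have h7 := h5.2.2.2.1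
      have hl0 : (0 : ℝ) < l := by exact_mod_cast hl1
      have h8 : U < n := by
        have h9 : c * (l * T) < l * n := by
          refine lt_of_lt_of_le ?_ h7
          exact mul_lt_mul_of_pos_left (mul_lt_mul_of_pos_right h6 hT0) hc
        have h10 : c * T < n := by
          by_contra h11
          push Not at h11
          nlinarith
        linarith
      rw [hV n h8]
      ring
  -- the sum of the three parts
  have hsum : WW g w v e T LL (T ^ (e / 4)) T ≤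
      WJ g w v e T α1 (fun k : ℕ => ((Real.log (k : ℝ) : ℝ) : ℂ)) (fun _ _ _ => True) (T ^ (e / 4)) T +
      WJ g w v e T α2 (fun _ => 1) (fun _ _ _ => True) (T ^ (e / 4)) T +
      WJ g w v e T α3 β3 (fun _ _ _ => True) (T ^ (e / 4)) T := by
    unfold WW WJ
    rw [← Finset.sum_add_distrib, ← Finset.sum_add_distrib]
    refine Finset.sum_le_sum fun r hr => ?_
    rw [← mul_add, ← mul_add, ← Finset.sum_add_distrib, ← Finset.sum_add_distrib]
    refine mul_le_mul_of_nonneg_left ?_ (by positivity)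
    refine Finset.sum_le_sum fun q _ => ?_
    rw [← mul_add, ← mul_add, ← Finset.sum_add_distrib, ← Finset.sum_add_distrib]
    refine mul_le_mul_of_nonneg_left ?_ (by positivity)
    refine Finset.sum_le_sum fun χ _ => ?_
    rw [hid r hr q χ]
    refine (norm_add_le _ _).trans ?_
    gcongr
    exact norm_sub_le _ _
  have p1 := k1 α1 (fun k : ℕ => ((Real.log (k : ℝ) : ℝ) : ℂ)) (fun m _ _ => (a1 m).trans (Real.one_le_rpow hT1.le hε1.le))
    (fun m hm => a2 m (by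
      have h4 : U ≤ T ^ (1 - 2 * d) := by
        rw [← hU2]
        nlinarith
      linarith)) (Or.inr rfl)
  have p2 := k1 α2 (fun _ => 1) (fun m hm hmT => (b1 m).trans ((hlog m hm hmT).trans k3))
    (fun m hm => b2 m (by rw [hU2]; exact hm)) (Or.inl rfl)
  have p3 := k2 α3 β3 (fun m hm hmT => (c1 m).trans ((hlog m hm hmT).trans k4))
    (fun k hk hkT => by
      refine (d1 k).trans ((h3 k (by omega)).trans ?_)
      have hk0 : (0 : ℝ) ≤ k := Nat.cast_nonneg k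
      have h4 : (k : ℝ) ^ (ε2 / 4) ≤ T ^ (ε2 / 2) := by
        calc (k : ℝ) ^ (ε2 / 4) ≤ (T ^ 2) ^ (ε2 / 4) := Real.rpow_le_rpow hk0 hkT (by linarith)
          _ = T ^ (ε2 / 2) := by
            rw [← Real.rpow_natCast, ← Real.rpow_mul hT0.le]
            congr 1
            push_cast
            ring
      calc C3 * (k : ℝ) ^ (ε2 / 4) ≤ T ^ (ε2 / 2) * T ^ (ε2 / 2) :=
            mul_le_mul k5 h4 (Real.rpow_nonneg hk0 _) (Real.rpow_nonneg hT0.le _)
        _ = T ^ ε2 := by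
            rw [← Real.rpow_add hT0]
            congr 1
            ring)
    (fun m hm => c2 m (by rw [hU]; exact hm)) (fun k hk => d2 k (by rw [hU]; exact hk))
  have q1 : T ^ (1 - δ1) ≤ T ^ (1 - min δ1 δ2) :=
    Real.rpow_le_rpow_of_exponent_le hT1.le (by linarith [min_le_left δ1 δ2])
  have q2 : T ^ (1 - δ2) ≤ T ^ (1 - min δ1 δ2) :=
    Real.rpow_le_rpow_of_exponent_le hT1.le (by linarith [min_le_right δ1 δ2])
  have q3 := mul_le_mul_of_nonneg_left q1 hC1.le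
  have q4 := mul_le_mul_of_nonneg_left q2 hC2.le
  calc WW g w v e T LL (T ^ (e / 4)) T ≤ _ := hsum
    _ ≤ C1 * T ^ (1 - δ1) + C1 * T ^ (1 - δ1) + C2 * T ^ (1 - δ2) := add_le_add (add_le_add p1 p2) p3
    _ ≤ C1 * T ^ (1 - min δ1 δ2) + C1 * T ^ (1 - min δ1 δ2) + C2 * T ^ (1 - min δ1 δ2) :=
        add_le_add (add_le_add q3 q3) q4
    _ = (2 * C1 + C2) * T ^ (1 - min δ1 δ2) := by ring

end Pool.Agent.Helper69.FF
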