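import Pool.Agent.Helper69.FF.KTVn

/-!
# FF-KTVa: bounded variation of the weight in the numerator

For fixed `r, n, f ≥ 1` the function `F(b) = [T^e < f b] FW(r, f b, n)` of `b ∈ ℕ`: the smooth function `G(y) = w(log n/L) v(1 + (log r - log(f y))/L) ψ(2π f y n/(rT))` vanishes
outside `[Y0, Y1]` with `Y1/Y0 = 1/c` (FF.KSup: `c rT ≤ f y n ≤ rT`) and `|G'(y)| ≤ C/y`, so its variation is `≤ C log(1/c)`; the cut-off `[T^e < f b]` is monotone and adds at most
one jump of size `≤ sup |FW|`.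
`char_cop`: for `χ` a primitive character mod `q > 1` (so non-principal: complete sums vanish) `|∑_{b ≤ N} χ(b)| ≤ q`; Moebius over `f ∣ r`:
`∑_{m ≤ N, T^e < m, (m, r) = 1} χ(m) FW(r, m, n) = ∑_{f ∣ r} μ(f) χ(f) ∑_{b} χ(b) [T^e < f b] FW(r, f b, n)`, and `char_bv` (FF.KTVn).
-/

open MeasureTheory Set Filter Topology
open Pool.Agent.Helper57.Zeta Pool.Agent.Helper57.PC Pool.Agent.Helper57.LH Pool.Agent.Helper78.SG
open Pool.Agent.Helper4.SH (om)
open scoped ContDiff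

namespace Pool.Agent.Helper69.FF

private lemma tele86 (y : ℕ → ℝ) (N : ℕ) : ∑ k ∈ Finset.Icc 1 N, (y (k + 1) - y k) = y (N + 1) - y 1 := by
  induction N with
  | zero => simp
  | succ N ih =>
    rw [Finset.sum_Icc_succ_top (by omega), ih]
    ring

private lemma mono86 (y : ℕ → ℝ) (h : (∀ k, 1 ≤ k → y k ≤ y (k + 1)) ∨ (∀ k, 1 ≤ k → y (k + 1) ≤ y k))
    {u v : ℝ} (hu : ∀ k, u ≤ y k) (hv : ∀ k, y k ≤ v) (N : ℕ) :
    ∑ k ∈ Finset.Icc 1 N, |y (k + 1) - y k| ≤ v - u := by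
  rcases h with h | h
  · have e : ∑ k ∈ Finset.Icc 1 N, |y (k + 1) - y k| = ∑ k ∈ Finset.Icc 1 N, (y (k + 1) - y k) := by
      refine Finset.sum_congr rfl fun k hk => abs_of_nonneg ?_
      linarith [h k (Finset.mem_Icc.1 hk).1]
    rw [e, tele86]
    linarith [hu 1, hv (N + 1)]
  · have e : ∑ k ∈ Finset.Icc 1 N, |y (k + 1) - y k| = -∑ k ∈ Finset.Icc 1 N, (y (k + 1) - y k) := by
      rw [← Finset.sum_neg_distrib]
      refine Finset.sum_congr rfl fun k hk => abs_of_nonpos ?_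
      linarith [h k (Finset.mem_Icc.1 hk).1]
    rw [e, tele86]
    linarith [hv 1, hu (N + 1)]

private lemma var86 {φ : ℝ → ℝ} (hφ : ContDiff ℝ ∞ φ) {c : ℝ} (hc0 : 0 < c) (hc : ∀ x, c ≤ |x| → φ x = 0) :
    ∃ V : ℝ, 0 < V ∧ ∀ x : ℕ → ℝ, ((∀ k, 1 ≤ k → x k ≤ x (k + 1)) ∨ (∀ k, 1 ≤ k → x (k + 1) ≤ x k)) →
      ∀ N : ℕ, ∑ k ∈ Finset.Icc 1 N, |φ (x (k + 1)) - φ (x k)| ≤ V := by
  have hd : Continuous (deriv φ) := hφ.continuous_deriv (by norm_cast)
  obtain ⟨K, hK⟩ := (isCompact_Icc (a := -c) (b := c)).exists_bound_of_continuousOn hd.continuousOn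
  have hK0 : 0 ≤ K := (norm_nonneg _).trans (hK 0 ⟨by linarith, by linarith⟩)
  have hlip : ∀ s ∈ Set.Icc (-c) c, ∀ t ∈ Set.Icc (-c) c, |φ t - φ s| ≤ K * |t - s| := by
    intro s hs t ht
    have h1 := Convex.norm_image_sub_le_of_norm_deriv_le (f := φ) (C := K) (s := Set.Icc (-c) c)
      (fun x _ => (hφ.differentiable (by norm_cast)).differentiableAt) (fun x hx => hK x hx)
      (convex_Icc (-c) c) hs ht
    rwa [Real.norm_eq_abs, Real.norm_eq_abs] at h1
  obtain ⟨p, hp⟩ : ∃ p : ℝ → ℝ, ∀ x, p x = max (-c) (min c x) := ⟨_, fun _ => rfl⟩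
  have hpm : ∀ x, -c ≤ p x ∧ p x ≤ c := by
    intro x
    rw [hp]
    exact ⟨le_max_left _ _, max_le (by linarith) (min_le_left _ _)⟩
  have hpmono : ∀ x y, x ≤ y → p x ≤ p y := by
    intro x y hxy
    rw [hp, hp]
    exact max_le_max le_rfl (min_le_min le_rfl hxy)
  have hφp : ∀ x, φ x = φ (p x) := by
    intro x
    rw [hp]
    rcases le_or_gt x (-c) with h1 | h1
    · rw [min_eq_right (by linarith), max_eq_left h1, hc x (by rw [abs_of_nonpos (by linarith)]; linarith),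
        hc (-c) (by rw [abs_of_nonpos (by linarith)]; linarith)]
    · rcases le_or_gt c x with h2 | h2
      · rw [min_eq_left h2, max_eq_right (by linarith), hc x (by rw [abs_of_nonneg (by linarith)]; exact h2),
          hc c (by rw [abs_of_nonneg (by linarith)])]
      · rw [min_eq_right h2.le, max_eq_right h1.le]
  refine ⟨K * (2 * c) + 1, by positivity, fun x hx N => ?_⟩
  have h1 : ∑ k ∈ Finset.Icc 1 N, |φ (x (k + 1)) - φ (x k)| ≤
      ∑ k ∈ Finset.Icc 1 N, K * |p (x (k + 1)) - p (x k)| := by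
    refine Finset.sum_le_sum fun k _ => ?_
    rw [hφp (x (k + 1)), hφp (x k)]
    exact hlip _ (hpm _) _ (hpm _)
  rw [← Finset.mul_sum] at h1
  have h2 := mono86 (fun k => p (x k)) (by
    rcases hx with hx | hx
    · exact Or.inl fun k hk => hpmono _ _ (hx k hk)
    · exact Or.inr fun k hk => hpmono _ _ (hx k hk)) (fun k => (hpm _).1) (fun k => (hpm _).2) N
  have h3 := mul_le_mul_of_nonneg_left h2 hK0
  linarith

private lemma prodvar86 (A B : ℕ → ℝ) {a b VA VB : ℝ} (ha : 0 ≤ a) (hb : 0 ≤ b) (hA : ∀ k, |A k| ≤ a)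
    (hB : ∀ k, |B k| ≤ b) (N : ℕ)
    (h1 : ∑ k ∈ Finset.Icc 1 N, |A (k + 1) - A k| ≤ VA) (h2 : ∑ k ∈ Finset.Icc 1 N, |B (k + 1) - B k| ≤ VB) :
    ∑ k ∈ Finset.Icc 1 N, |A (k + 1) * B (k + 1) - A k * B k| ≤ a * VB + b * VA := by
  have h3 : ∑ k ∈ Finset.Icc 1 N, |A (k + 1) * B (k + 1) - A k * B k| ≤
      ∑ k ∈ Finset.Icc 1 N, (a * |B (k + 1) - B k| + b * |A (k + 1) - A k|) := by
    refine Finset.sum_le_sum fun k _ => ?_
    have e : A (k + 1) * B (k + 1) - A k * B k = A (k + 1) * (B (k + 1) - B k) + B k * (A (k + 1) - A k) := by ring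
    rw [e]
    refine (abs_add_le _ _).trans ?_
    rw [abs_mul, abs_mul]
    exact add_le_add (mul_le_mul_of_nonneg_right (hA _) (abs_nonneg _))
      (mul_le_mul_of_nonneg_right (hB _) (abs_nonneg _))
  rw [Finset.sum_add_distrib, ← Finset.mul_sum, ← Finset.mul_sum] at h3
  have h4 := mul_le_mul_of_nonneg_left h1 hb
  have h5 := mul_le_mul_of_nonneg_left h2 ha
  linarith

private lemma cs_bound86 {f : ℝ → ℝ} (hf : Continuous f) {c : ℝ} (hc : ∀ x, c ≤ |x| → f x = 0) :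
    ∃ C : ℝ, 0 < C ∧ ∀ x, |f x| ≤ C := by
  obtain ⟨C, hC⟩ := (isCompact_Icc (a := -c) (b := c)).exists_bound_of_continuousOn hf.continuousOn
  refine ⟨|C| + 1, by positivity, fun x => ?_⟩
  by_cases hx : c ≤ |x|
  · rw [hc x hx, abs_zero]
    positivity
  · push Not at hx
    have h1 := hC x ⟨by linarith [neg_abs_le x], by linarith [le_abs_self x]⟩
    rw [Real.norm_eq_abs] at h1
    linarith [le_abs_self C]

private lemma wr_supp86 {w : ℝ → ℝ} {a b : ℝ} (hw : WR w a b) : 0 < b + 1 ∧ ∀ x, b + 1 ≤ |x| → w x = 0 := by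
  obtain ⟨h1, h2, h3, h4⟩ := hw
  refine ⟨by linarith, fun x hx => ?_⟩
  by_contra h
  have h5 := h4 x h
  rw [abs_of_nonneg (by linarith)] at hx
  linarith

theorem fw_tv_a (g : TF) {w v : ℝ → ℝ} {a b a' b' e : ℝ} (hw : WR w a b) (hb : b < 3 / 2)
    (hv : WR v a' b') (ha' : 1 < a') (he : 0 < e) :
    ∃ C : ℝ, 0 < C ∧ ∀ᶠ T : ℝ in atTop, ∀ r n f N : ℕ, 1 ≤ r → 1 ≤ n → 1 ≤ f →
      ∑ k ∈ Finset.Icc 1 N, |(if T ^ e < ((f * (k + 1) : ℕ) : ℝ) then FW g w v T (r, f * (k + 1)) n else 0) -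
        (if T ^ e < ((f * k : ℕ) : ℝ) then FW g w v T (r, f * k) n else 0)| ≤ C := by
  obtain ⟨Cw, hCw, hwb⟩ := cs_bound86 hw.1.continuous (wr_supp86 hw).2
  obtain ⟨Cv, hCv, hvb⟩ := cs_bound86 hv.1.continuous (wr_supp86 hv).2
  obtain ⟨Ch, hCh, hhb⟩ := cs_bound86 g.smooth.continuous g.supp
  obtain ⟨Vv, hVv, hvv⟩ := var86 hv.1 (wr_supp86 hv).1 (wr_supp86 hv).2
  obtain ⟨Vh, hVh, hvh⟩ := var86 g.smooth g.th0 g.supp
  refine ⟨1 * (Cw * (Cv * Vh + Ch * Vv) + (Cv * Ch) * 0) + Cw * (Cv * Ch) * 1, by positivity, ?_⟩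
  filter_upwards [eventually_gt_atTop (1 : ℝ)] with T hT r n f N hr hn hf
  have hT0 : 0 < T := by linarith
  have hL : 0 < Real.log T := Real.log_pos hT
  have hr0 : (0 : ℝ) < r := by exact_mod_cast hr
  have hf0 : (0 : ℝ) < f := by exact_mod_cast hf
  obtain ⟨I, hI⟩ : ∃ I : ℕ → ℝ, ∀ k, I k = if T ^ e < ((f * k : ℕ) : ℝ) then 1 else 0 := ⟨_, fun _ => rfl⟩
  obtain ⟨A, hA⟩ : ∃ A : ℕ → ℝ, ∀ k, A k = v (lr T (r, f * k)) := ⟨_, fun _ => rfl⟩
  obtain ⟨B, hB⟩ : ∃ B : ℕ → ℝ, ∀ k, B k = g.h (2 * Real.pi * (((f * k : ℕ) : ℝ) * n / r) / T - 1 / 2) :=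
    ⟨_, fun _ => rfl⟩
  have e1 : ∀ k, (if T ^ e < ((f * k : ℕ) : ℝ) then FW g w v T (r, f * k) n else 0) =
      I k * (w (Real.log n / Real.log T) * (A k * B k)) := by
    intro k
    rw [hI, hA, hB]
    unfold FW
    split_ifs
    · ring
    · ring
  have e2 : ∀ k ∈ Finset.Icc 1 N,
      |(if T ^ e < ((f * (k + 1) : ℕ) : ℝ) then FW g w v T (r, f * (k + 1)) n else 0) -
        (if T ^ e < ((f * k : ℕ) : ℝ) then FW g w v T (r, f * k) n else 0)| =
      |I (k + 1) * (w (Real.log n / Real.log T) * (A (k + 1) * B (k + 1))) -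
        I k * (w (Real.log n / Real.log T) * (A k * B k))| := by
    intro k _
    rw [e1 k, e1 (k + 1)]
  rw [Finset.sum_congr rfl e2]
  have hAb : ∀ k, |A k| ≤ Cv := fun k => by rw [hA]; exact hvb _
  have hBb : ∀ k, |B k| ≤ Ch := fun k => by rw [hB]; exact hhb _
  have hAV : ∑ k ∈ Finset.Icc 1 N, |A (k + 1) - A k| ≤ Vv := by
    have h1 := hvv (fun k => lr T (r, f * k)) (Or.inr (by
      intro k hk
      unfold lr
      have hk0 : (0 : ℝ) < ((f * k : ℕ) : ℝ) := by exact_mod_cast Nat.mul_pos hf hk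
      have hkk : ((f * k : ℕ) : ℝ) ≤ ((f * (k + 1) : ℕ) : ℝ) := by
        exact_mod_cast Nat.mul_le_mul_left f (Nat.le_succ k)
      have h2 := Real.log_le_log hk0 hkk
      have h3 : (Real.log r - Real.log ((f * (k + 1) : ℕ) : ℝ)) / Real.log T ≤
          (Real.log r - Real.log ((f * k : ℕ) : ℝ)) / Real.log T :=
        div_le_div_of_nonneg_right (by linarith) hL.le
      linarith)) N
    have e3 : ∀ k ∈ Finset.Icc 1 N, |A (k + 1) - A k| = |v (lr T (r, f * (k + 1))) - v (lr T (r, f * k))| := by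
      intro k _
      rw [hA, hA]
    rw [Finset.sum_congr rfl e3]
    exact h1
  have hBV : ∑ k ∈ Finset.Icc 1 N, |B (k + 1) - B k| ≤ Vh := by
    have h1 := hvh (fun k => 2 * Real.pi * (((f * k : ℕ) : ℝ) * n / r) / T - 1 / 2) (Or.inl (by
      intro k hk
      have hkk : ((f * k : ℕ) : ℝ) ≤ ((f * (k + 1) : ℕ) : ℝ) := by
        exact_mod_cast Nat.mul_le_mul_left f (Nat.le_succ k)
      have h2 : ((f * k : ℕ) : ℝ) * n / r ≤ ((f * (k + 1) : ℕ) : ℝ) * n / r :=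
        div_le_div_of_nonneg_right (mul_le_mul_of_nonneg_right hkk (Nat.cast_nonneg _)) hr0.le
      have h3 : 2 * Real.pi * (((f * k : ℕ) : ℝ) * n / r) / T ≤ 2 * Real.pi * (((f * (k + 1) : ℕ) : ℝ) * n / r) / T :=
        div_le_div_of_nonneg_right (mul_le_mul_of_nonneg_left h2 (by positivity)) hT0.le
      linarith)) N
    have e3 : ∀ k ∈ Finset.Icc 1 N, |B (k + 1) - B k| =
        |g.h (2 * Real.pi * (((f * (k + 1) : ℕ) : ℝ) * n / r) / T - 1 / 2) -
          g.h (2 * Real.pi * (((f * k : ℕ) : ℝ) * n / r) / T - 1 / 2)| := by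
      intro k _
      rw [hB, hB]
    rw [Finset.sum_congr rfl e3]
    exact h1
  have hAB := prodvar86 A B hCv.le hCh.le hAb hBb N hAV hBV
  have hABb : ∀ k, |A k * B k| ≤ Cv * Ch := by
    intro k
    rw [abs_mul]
    exact mul_le_mul (hAb k) (hBb k) (abs_nonneg _) hCv.le
  have hG := prodvar86 (fun _ => w (Real.log n / Real.log T)) (fun k => A k * B k) (VA := 0) hCw.le
    (by positivity) (fun _ => hwb _) hABb N (by simp) hAB
  have hGb : ∀ k, |w (Real.log n / Real.log T) * (A k * B k)| ≤ Cw * (Cv * Ch) := by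
    intro k
    rw [abs_mul]
    exact mul_le_mul (hwb _) (hABb k) (abs_nonneg _) hCw.le
  have hIb : ∀ k, |I k| ≤ 1 := by
    intro k
    rw [hI]
    split_ifs <;> simp
  have hIV : ∑ k ∈ Finset.Icc 1 N, |I (k + 1) - I k| ≤ 1 := by
    have h1 := mono86 I (u := 0) (v := 1) (Or.inl (by
      intro k _
      rw [hI, hI]
      have hkk : ((f * k : ℕ) : ℝ) ≤ ((f * (k + 1) : ℕ) : ℝ) := by
        exact_mod_cast Nat.mul_le_mul_left f (Nat.le_succ k)
      split_ifs with h1 h2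
      · exact le_rfl
      · exact absurd (lt_of_lt_of_le h1 hkk) h2
      · norm_num
      · exact le_rfl)) (by intro k; rw [hI]; split_ifs <;> norm_num)
      (by intro k; rw [hI]; split_ifs <;> norm_num) N
    linarith
  exact prodvar86 I (fun k => w (Real.log n / Real.log T) * (A k * B k)) zero_le_one (by positivity) hIb hGb N hIV hG

private lemma shift86 {q : ℕ} (χ : DirichletCharacter ℂ q) (M : ℕ) :
    ∑ k ∈ Finset.range q, χ ((M + k : ℕ) : ZMod q) = ∑ k ∈ Finset.range q, χ ((k : ℕ) : ZMod q) := by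
  induction M with
  | zero => simp
  | succ M ih =>
    rw [← ih]
    have h1 := Finset.sum_range_succ (fun k => χ ((M + k : ℕ) : ZMod q)) q
    have h2 := Finset.sum_range_succ' (fun k => χ ((M + k : ℕ) : ZMod q)) q
    have h3 : χ ((M + q : ℕ) : ZMod q) = χ ((M + 0 : ℕ) : ZMod q) := by
      congr 1
      push_cast
      simp
    have h4 : ∑ k ∈ Finset.range q, χ ((M + (k + 1) : ℕ) : ZMod q) =
        ∑ k ∈ Finset.range q, χ ((M + 1 + k : ℕ) : ZMod q) := by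
      refine Finset.sum_congr rfl fun k _ => ?_
      congr 2
      ring
    rw [← h4]
    rw [h1, h3] at h2
    exact (add_right_cancel h2).symm

private lemma full86 {q : ℕ} (hq : 1 < q) {χ : DirichletCharacter ℂ q} (hχ : χ ∈ PR q) :
    ∑ k ∈ Finset.range q, χ ((k : ℕ) : ZMod q) = 0 := by
  classical
  have : NeZero q := ⟨by omega⟩
  have hne : χ ≠ 1 := by
    intro h
    have h1 : χ.IsPrimitive := by
      unfold PR at hχ
      exact (Finset.mem_filter.1 hχ).2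
    rw [DirichletCharacter.isPrimitive_def, h, DirichletCharacter.conductor_one] at h1
    omega
  obtain ⟨n, rfl⟩ : ∃ n, q = n + 1 := ⟨q - 1, by omega⟩
  have h1 := MulChar.sum_eq_zero_of_ne_one hne
  rw [← Fin.sum_univ_eq_sum_range (fun k => χ ((k : ℕ) : ZMod (n + 1))) (n + 1), ← h1]
  refine Finset.sum_congr rfl fun i _ => ?_
  congr 1
  exact Fin.cast_val_eq_self i

theorem char_sum_le {q : ℕ} (hq : 1 < q) {χ : DirichletCharacter ℂ q} (hχ : χ ∈ PR q) (N : ℕ) :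
    ‖∑ k ∈ Finset.Icc 1 N, χ k‖ ≤ q := by
  induction N using Nat.strong_induction_on with
  | _ N ih =>
    by_cases hN : N < q
    · refine (norm_sum_le _ _).trans ?_
      have h1 : ∑ k ∈ Finset.Icc 1 N, ‖χ ((k : ℕ) : ZMod q)‖ ≤ ∑ _k ∈ Finset.Icc 1 N, (1 : ℝ) :=
        Finset.sum_le_sum fun k _ => DirichletCharacter.norm_le_one χ _
      rw [Finset.sum_const, nsmul_eq_mul, mul_one, Nat.card_Icc, Nat.add_sub_cancel] at h1
      refine h1.trans ?_
      exact_mod_cast hN.le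
    · push Not at hN
      have e1 : ∑ k ∈ Finset.Icc 1 N, χ ((k : ℕ) : ZMod q) = ∑ k ∈ Finset.Icc 1 (N - q), χ ((k : ℕ) : ZMod q) := by
        have e2 : Finset.Icc 1 N = Finset.Icc 1 (N - q) ∪ (Finset.range q).image (fun k => (N - q + 1) + k) := by
          ext k
          simp only [Finset.mem_union, Finset.mem_image, Finset.mem_range, Finset.mem_Icc]
          constructor
          · intro h
            by_cases h1 : k ≤ N - q
            · exact Or.inl ⟨h.1, h1⟩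
            · exact Or.inr ⟨k - (N - q + 1), by omega, by omega⟩
          · rintro (h | ⟨j, hj, rfl⟩) <;> omega
        rw [e2, Finset.sum_union, Finset.sum_image, shift86, full86 hq hχ, add_zero]
        · intro a _ b _ h
          exact Nat.add_left_cancel h
        · rw [Finset.disjoint_left]
          intro k h1 h2
          rw [Finset.mem_Icc] at h1
          rw [Finset.mem_image] at h2
          obtain ⟨j, _, rfl⟩ := h2
          omega
      rw [e1]
      exact ih (N - q) (by omega)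

private lemma mu86 (m r : ℕ) (hr : r ≠ 0) :
    ∑ f ∈ r.divisors, (if f ∣ m then (ArithmeticFunction.moebius f : ℂ) else 0) = if Nat.Coprime m r then 1 else 0 := by
  have h1 : ∑ f ∈ r.divisors, (if f ∣ m then (ArithmeticFunction.moebius f : ℂ) else 0) =
      ∑ f ∈ (Nat.gcd m r).divisors, (ArithmeticFunction.moebius f : ℂ) := by
    rw [← Finset.sum_filter]
    refine Finset.sum_congr ?_ fun _ _ => rfl
    ext f
    rw [Finset.mem_filter, Nat.mem_divisors, Nat.mem_divisors, Nat.dvd_gcd_iff]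
    have h2 : Nat.gcd m r ≠ 0 := fun h => hr (Nat.gcd_eq_zero_iff.1 h).2
    tauto
  rw [h1]
  have h2 : ∑ f ∈ (Nat.gcd m r).divisors, ArithmeticFunction.moebius f = if Nat.gcd m r = 1 then 1 else 0 := by
    rw [← ArithmeticFunction.coe_mul_zeta_apply, ArithmeticFunction.moebius_mul_coe_zeta, ArithmeticFunction.one_apply]
  have h3 : ((∑ f ∈ (Nat.gcd m r).divisors, ArithmeticFunction.moebius f : ℤ) : ℂ) =
      ∑ f ∈ (Nat.gcd m r).divisors, (ArithmeticFunction.moebius f : ℂ) := by push_cast; rfl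
  rw [← h3, h2]
  unfold Nat.Coprime
  split_ifs <;> simp

theorem char_cop (g : TF) {w v : ℝ → ℝ} {a b a' b' e : ℝ} (hw : WR w a b) (hb : b < 3 / 2)
    (hv : WR v a' b') (ha' : 1 < a') (he : 0 < e) :
    ∃ C : ℝ, 0 < C ∧ ∀ᶠ T : ℝ in atTop, ∀ r ∈ RS e T, ∀ n : ℕ, 1 ≤ n → ∀ q : ℕ, 1 < q → ∀ χ ∈ PR q,
      ‖∑ m ∈ SA e T r, χ m * ((FW g w v T (r, m) n : ℝ) : ℂ)‖ ≤ C * (q * r.divisors.card) := by
  obtain ⟨C, hC, hC2⟩ := fw_tv_a g hw hb hv ha' he
  obtain ⟨c, hc, hsupp⟩ := fw_supp g hw hb hv ha'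
  refine ⟨C, hC, ?_⟩
  filter_upwards [hC2, eventually_gt_atTop (1 : ℝ)] with T hT hT1 r hr n hn q hq χ hχ
  unfold RS at hr
  rw [Finset.mem_filter, Finset.mem_Icc] at hr
  obtain ⟨⟨hr1, hr2⟩, hrs, hr3⟩ := hr
  have hrT : (r : ℝ) ≤ T := (Nat.le_floor_iff (by linarith)).1 hr2
  obtain ⟨G, hG⟩ : ∃ G : ℕ → ℂ, ∀ m, G m = if T ^ e < (m : ℝ) then χ m * ((FW g w v T (r, m) n : ℝ) : ℂ) else 0 :=
    ⟨_, fun _ => rfl⟩
  have e1 : ∑ m ∈ SA e T r, χ m * ((FW g w v T (r, m) n : ℝ) : ℂ) =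
      ∑ f ∈ r.divisors, (ArithmeticFunction.moebius f : ℂ) * ∑ m ∈ (Finset.Icc 1 ⌊T⌋₊).filter (fun m => f ∣ m), G m := by
    unfold SA
    rw [Finset.sum_filter]
    have e2 : ∀ m ∈ Finset.Icc 1 ⌊T⌋₊, (if T ^ e < (m : ℝ) ∧ Nat.Coprime m r then
        χ m * ((FW g w v T (r, m) n : ℝ) : ℂ) else 0) =
        ∑ f ∈ r.divisors, (if f ∣ m then (ArithmeticFunction.moebius f : ℂ) else 0) * G m := by
      intro m _
      rw [← Finset.sum_mul, mu86 m r (by omega), hG]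
      by_cases h1 : T ^ e < (m : ℝ) <;> by_cases h2 : Nat.Coprime m r <;> simp [h1, h2]
    rw [Finset.sum_congr rfl e2, Finset.sum_comm]
    refine Finset.sum_congr rfl fun f _ => ?_
    rw [Finset.mul_sum, Finset.sum_filter]
    refine Finset.sum_congr rfl fun m _ => ?_
    split_ifs
    · rfl
    · rw [zero_mul]
  have e2 : ∀ f ∈ r.divisors, ‖(ArithmeticFunction.moebius f : ℂ) *
      ∑ m ∈ (Finset.Icc 1 ⌊T⌋₊).filter (fun m => f ∣ m), G m‖ ≤ q * C := by
    intro f hf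
    have hf1 : 1 ≤ f := Nat.pos_of_mem_divisors hf
    obtain ⟨F, hF⟩ : ∃ F : ℕ → ℝ, ∀ k, F k = if T ^ e < ((f * k : ℕ) : ℝ) then FW g w v T (r, f * k) n else 0 :=
      ⟨_, fun _ => rfl⟩
    have e3 : ∑ m ∈ (Finset.Icc 1 ⌊T⌋₊).filter (fun m => f ∣ m), G m =
        χ f * ∑ k ∈ Finset.Icc 1 (⌊T⌋₊ / f), χ k * ((F k : ℝ) : ℂ) := by
      rw [Finset.mul_sum]
      symm
      refine Finset.sum_bij (fun k _ => f * k) ?_ ?_ ?_ ?_
      · intro k hk
        rw [Finset.mem_Icc] at hk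
        rw [Finset.mem_filter, Finset.mem_Icc]
        refine ⟨⟨Nat.mul_pos hf1 hk.1, ?_⟩, dvd_mul_right _ _⟩
        rw [mul_comm]
        exact (Nat.le_div_iff_mul_le hf1).1 hk.2
      · intro x _ y _ h
        exact Nat.eq_of_mul_eq_mul_left hf1 h
      · intro m hm
        rw [Finset.mem_filter, Finset.mem_Icc] at hm
        obtain ⟨⟨hm1, hm2⟩, k, rfl⟩ := hm
        refine ⟨k, ?_, rfl⟩
        rw [Finset.mem_Icc]
        refine ⟨Nat.pos_of_mul_pos_left hm1, ?_⟩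
        rw [Nat.le_div_iff_mul_le hf1, mul_comm]
        exact hm2
      · intro k _
        rw [hG, hF]
        have e4 : χ ((f * k : ℕ) : ZMod q) = χ f * χ k := by
          rw [Nat.cast_mul, map_mul]
        rw [e4]
        split_ifs
        · ring
        · simp
    have hbv := char_bv (f := fun k => χ ((k : ℕ) : ZMod q)) (P := q) (V := C) (fun N => char_sum_le hq hχ N) F
      (⌊T⌋₊ / f) (by
        have h1 := hT r n f (⌊T⌋₊ / f) hr1 hn hf1
        simp_rw [hF]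
        exact h1) (by
        rw [hF]
        split_ifs
        · by_contra hne
          have h1 : 1 ≤ f * (⌊T⌋₊ / f + 1) := Nat.mul_pos hf1 (Nat.succ_pos _)
          have h2 := (hsupp T hT1 r (f * (⌊T⌋₊ / f + 1)) n hr1 h1 hne).1
          have h3 : ⌊T⌋₊ < f * (⌊T⌋₊ / f + 1) := by
            have := Nat.lt_mul_div_succ ⌊T⌋₊ hf1
            exact this
          omega
        · rfl)
    rw [e3, norm_mul, norm_mul]
    have h1 : ‖(ArithmeticFunction.moebius f : ℂ)‖ ≤ 1 := by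
      have h2 := ArithmeticFunction.abs_moebius_le_one (n := f)
      rw [Complex.norm_intCast]
      exact_mod_cast h2
    have h2 : ‖χ ((f : ℕ) : ZMod q)‖ ≤ 1 := DirichletCharacter.norm_le_one χ _
    have h3 : ‖χ ((f : ℕ) : ZMod q)‖ * ‖∑ k ∈ Finset.Icc 1 (⌊T⌋₊ / f), χ ((k : ℕ) : ZMod q) * ((F k : ℝ) : ℂ)‖ ≤
        1 * (q * C) := mul_le_mul h2 hbv (norm_nonneg _) zero_le_one
    calc _ ≤ 1 * (1 * (q * C)) := mul_le_mul h1 h3 (by positivity) zero_le_one
      _ = _ := by ring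
  rw [e1]
  refine (norm_sum_le _ _).trans ((Finset.sum_le_sum e2).trans ?_)
  rw [Finset.sum_const, nsmul_eq_mul]
  exact le_of_eq (by ring)

end Pool.Agent.Helper69.FF
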