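import Pool.Agent.Helper69.FF.KDefs
import Pool.Agent.Helper69.FF.KSup
import Pool.Agent.Helper69.FF.KTVa
import Pool.Agent.Helper69.FF.DivS

/-!
# FF-KSml: small conductors

Block K3 of the README: `1 < q ≤ T^(e/4)`. Sum over the numerator first: `‖∑_m χ(m) FW(r, m, n)‖ ≤ C q τ(r)` (`char_cop`, FF.KTVa), and it vanishes unless `n ≤ r T^(1-e)`
(on the support `m n ≤ r T`, `m > T^e`). So `‖SI‖ ≤ C q τ(r) ∑_{n ≤ r T^(1-e)} Λ(n) ≤ C q τ(r) r T^(1-e) · 3L`, and with `|PR q| ≤ q`: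
`WW ≤ ∑_{r ≤ T^(1/2-e)} φ(r)⁻² τ(r) T^(5e/8) · C τ(r) r T^(1-e) L ≤ C T^(1 - 3e/8) L ∑_r τ(r)^4/r ≤ C T^(1-e/4)` (`1/φ(r) ≤ τ(r)/r`, `τ(r) ≤ C r^ε`: FF.DivS).
-/

open MeasureTheory Set Filter Topology
open Pool.Agent.Helper57.Zeta Pool.Agent.Helper57.PC Pool.Agent.Helper57.LH Pool.Agent.Helper78.SG
open Pool.Agent.Helper4.SH (om)
open scoped ContDiff

namespace Pool.Agent.Helper69.FF

private theorem card_PR_h32 {q : ℕ} (hq : 1 ≤ q) : ((PR q).card : ℝ) ≤ q := by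
  classical
  have : NeZero q := ⟨by omega⟩
  have h1 : (PR q).card ≤ Nat.totient q := by
    rw [← DirichletCharacter.card_eq_totient_of_hasEnoughRootsOfUnity ℂ q, Nat.card_eq_fintype_card]
    unfold PR
    exact (Finset.card_filter_le _ _).trans (le_of_eq (Finset.card_univ))
  exact_mod_cast h1.trans (Nat.totient_le q)

private theorem SI_le_h32 (g : TF) {w v : ℝ → ℝ} {a b a' b' e : ℝ} (hw : WR w a b) (hb : b < 3 / 2)
    (hv : WR v a' b') (ha' : 1 < a') {C1 T : ℝ} (hC1 : 0 < C1) (hT : 1 < T)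
    (h1 : ∀ r ∈ RS e T, ∀ n : ℕ, 1 ≤ n → ∀ q : ℕ, 1 < q → ∀ χ ∈ PR q,
      ‖∑ m ∈ SA e T r, χ m * ((FW g w v T (r, m) n : ℝ) : ℂ)‖ ≤ C1 * (q * r.divisors.card))
    {r : ℕ} (hr : r ∈ RS e T) {q : ℕ} (hq : 1 < q) {χ : DirichletCharacter ℂ q} (hχ : χ ∈ PR q) :
    ‖SI g w v e T r χ LL‖ ≤ C1 * (q * r.divisors.card) * (2 * Real.log T) * (r * T ^ (1 - e)) := by
  classical
  obtain ⟨c, hc, h2⟩ := fw_supp g hw hb hv ha'
  have hr1 : 1 ≤ r := by
    unfold RS at hr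
    rw [Finset.mem_filter, Finset.mem_Icc] at hr
    exact hr.1.1
  have hT0 : 0 < T := by linarith
  have hL : 0 < Real.log T := Real.log_pos hT
  have hX : 0 ≤ (r : ℝ) * T ^ (1 - e) := by positivity
  have hterm : ∀ n ∈ Finset.Icc 1 ⌊T ^ 2⌋₊,
      ‖∑ a ∈ SA e T r, χ a * χ n * LL n * ((FW g w v T (r, a) n : ℝ) : ℂ)‖ ≤
        if (n : ℝ) ≤ r * T ^ (1 - e) then C1 * (q * r.divisors.card) * (2 * Real.log T) else 0 := by
    intro n hn
    rw [Finset.mem_Icc] at hn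
    have e1 : ∑ a ∈ SA e T r, χ a * χ n * LL n * ((FW g w v T (r, a) n : ℝ) : ℂ) =
        (χ n * LL n) * ∑ a ∈ SA e T r, χ a * ((FW g w v T (r, a) n : ℝ) : ℂ) := by
      rw [Finset.mul_sum]
      refine Finset.sum_congr rfl fun a _ => ?_
      ring
    split_ifs with hn2
    · rw [e1, norm_mul, norm_mul]
      have h3 := h1 r hr n hn.1 q hq χ hχ
      have h4 : ‖χ n‖ ≤ 1 := χ.norm_le_one _
      have h5 : ‖LL n‖ ≤ 2 * Real.log T := by
        unfold LL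
        rw [Complex.norm_real, Real.norm_eq_abs, abs_of_nonneg ArithmeticFunction.vonMangoldt_nonneg]
        refine ArithmeticFunction.vonMangoldt_le_log.trans ?_
        have h6 : (n : ℝ) ≤ T ^ 2 := (Nat.cast_le.2 hn.2).trans (Nat.floor_le (by positivity))
        have h7 := Real.log_le_log (by exact_mod_cast hn.1) h6
        rw [Real.log_pow] at h7
        exact_mod_cast h7
      calc ‖χ n‖ * ‖LL n‖ * ‖∑ a ∈ SA e T r, χ a * ((FW g w v T (r, a) n : ℝ) : ℂ)‖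
          ≤ 1 * (2 * Real.log T) * (C1 * (q * r.divisors.card)) := by gcongr
        _ = _ := by ring
    · have hz : ∑ a ∈ SA e T r, χ a * χ n * LL n * ((FW g w v T (r, a) n : ℝ) : ℂ) = 0 := by
        refine Finset.sum_eq_zero fun m hm => ?_
        have hF : FW g w v T (r, m) n = 0 := by
          by_contra hne
          unfold SA at hm
          rw [Finset.mem_filter, Finset.mem_Icc] at hm
          obtain ⟨-, -, -, -, h5⟩ := h2 T hT r m n hr1 hm.1.1 hne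
          apply hn2
          have h6 : T ^ e < (m : ℝ) := hm.2.1
          have h7 : T ^ e * T ^ (1 - e) = T := by
            rw [← Real.rpow_add hT0]
            norm_num
          have h8 : 0 < T ^ e := by positivity
          have h9 : T ^ e * n ≤ T ^ e * (r * T ^ (1 - e)) := by
            calc T ^ e * (n : ℝ) ≤ m * n := by gcongr
              _ ≤ r * T := h5
              _ = T ^ e * (r * T ^ (1 - e)) := by rw [mul_left_comm, h7]
          exact le_of_mul_le_mul_left h9 h8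
        rw [hF]
        simp
      rw [hz, norm_zero]
  unfold SI
  rw [Finset.sum_comm]
  refine (norm_sum_le _ _).trans ((Finset.sum_le_sum hterm).trans ?_)
  rw [← Finset.sum_filter, Finset.sum_const, nsmul_eq_mul, mul_comm]
  have hcard : (((Finset.Icc 1 ⌊T ^ 2⌋₊).filter (fun n : ℕ => (n : ℝ) ≤ r * T ^ (1 - e))).card : ℝ) ≤ r * T ^ (1 - e) := by
    have hsub : (Finset.Icc 1 ⌊T ^ 2⌋₊).filter (fun n : ℕ => (n : ℝ) ≤ r * T ^ (1 - e)) ⊆
        Finset.Icc 1 ⌊(r : ℝ) * T ^ (1 - e)⌋₊ := by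
      intro n hn
      rw [Finset.mem_filter, Finset.mem_Icc] at hn
      rw [Finset.mem_Icc]
      exact ⟨hn.1.1, Nat.le_floor hn.2⟩
    have h3 := Finset.card_le_card hsub
    rw [Nat.card_Icc, Nat.add_sub_cancel] at h3
    exact (Nat.cast_le.2 h3).trans (Nat.floor_le hX)
  gcongr

theorem ksml (g : TF) {w v : ℝ → ℝ} {a b a' b' e : ℝ} (hw : WR w a b) (hb : b < 3 / 2)
    (hv : WR v a' b') (ha' : 1 < a') (hb' : b' < 3 / 2) (he : 0 < e) (he1 : e < 1 / 4) :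
    ∃ C : ℝ, 0 < C ∧ ∀ᶠ T : ℝ in atTop, WW g w v e T LL 1 (T ^ (e / 4)) ≤ C * T ^ (1 - e / 4) := by
  classical
  obtain ⟨C1, hC1, h1⟩ := char_cop g hw hb hv ha' he
  obtain ⟨C2, hC2, h3⟩ := div_bound (ε := e / 64) (by positivity)
  have hlog : ∀ᶠ T : ℝ in atTop, Real.log T ≤ T ^ (e / 64) := by
    filter_upwards [(isLittleO_log_rpow_atTop (by positivity : 0 < e / 64)).def one_pos,
      eventually_gt_atTop 1] with T hT hT1
    rw [one_mul, Real.norm_eq_abs, Real.norm_eq_abs, abs_of_nonneg (by positivity : 0 ≤ T ^ (e / 64))] at hT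
    exact (le_abs_self _).trans hT
  refine ⟨4 * C1 * C2 ^ 4, by positivity, ?_⟩
  filter_upwards [h1, hlog, eventually_gt_atTop 1] with T h1 hL hT
  have hT0 : 0 < T := by linarith
  have hL0 : 0 < Real.log T := Real.log_pos hT
  obtain ⟨Q, hQ⟩ : ∃ Q : ℝ, Q = T ^ (e / 4) := ⟨_, rfl⟩
  have hQ1 : 0 < Q := by rw [hQ]; positivity
  have hRS : ∀ r ∈ RS e T, 1 ≤ r ∧ r ≤ ⌊T⌋₊ ∧ Squarefree r := by
    intro r hr
    unfold RS at hr
    rw [Finset.mem_filter, Finset.mem_Icc] at hr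
    exact ⟨hr.1.1, hr.1.2, hr.2.1⟩
  have hr0 : ∀ r ∈ RS e T, (1 / (Nat.totient r : ℝ) ^ 2) *
      ∑ q ∈ r.divisors.filter (fun q : ℕ => 1 < (q : ℝ) ∧ (q : ℝ) ≤ T ^ (e / 4)),
        Real.sqrt q * ∑ χ ∈ PR q, ‖SI g w v e T r χ LL‖ ≤
      (2 * C1 * Real.log T * (Real.sqrt Q * Q * Q) * T ^ (1 - e) * (C2 ^ 4 * T ^ (e / 16))) * (1 / r) := by
    intro r hr
    obtain ⟨hr1, hrT, hsq⟩ := hRS r hr
    have hrr : (1 : ℝ) ≤ r := by exact_mod_cast hr1
    have hrr0 : (0 : ℝ) < r := by linarith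
    obtain ⟨τ, hτ⟩ : ∃ τ : ℝ, τ = (r.divisors.card : ℝ) := ⟨_, rfl⟩
    have hτ0 : 0 ≤ τ := by rw [hτ]; positivity
    have hq : ∀ q ∈ r.divisors.filter (fun q : ℕ => 1 < (q : ℝ) ∧ (q : ℝ) ≤ T ^ (e / 4)),
        Real.sqrt q * ∑ χ ∈ PR q, ‖SI g w v e T r χ LL‖ ≤
        (Real.sqrt Q * Q * Q) * (C1 * τ * (2 * Real.log T) * (r * T ^ (1 - e))) := by
      intro q hq
      rw [Finset.mem_filter] at hq
      have hq1 : 1 < q := by exact_mod_cast hq.2.1
      have hqQ : (q : ℝ) ≤ Q := by rw [hQ]; exact hq.2.2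
      have hq0 : (0 : ℝ) ≤ q := Nat.cast_nonneg q
      calc Real.sqrt q * ∑ χ ∈ PR q, ‖SI g w v e T r χ LL‖
          ≤ Real.sqrt Q * ((PR q).card • (C1 * (q * τ) * (2 * Real.log T) * (r * T ^ (1 - e)))) := by
            gcongr
            refine Finset.sum_le_card_nsmul _ _ _ fun χ hχ => ?_
            rw [hτ]
            exact SI_le_h32 g hw hb hv ha' hC1 hT h1 hr hq1 hχ
        _ = Real.sqrt Q * (((PR q).card : ℝ) * (C1 * (q * τ) * (2 * Real.log T) * (r * T ^ (1 - e)))) := by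
            rw [nsmul_eq_mul]
        _ ≤ Real.sqrt Q * (Q * (C1 * (Q * τ) * (2 * Real.log T) * (r * T ^ (1 - e)))) := by
            have := (card_PR_h32 (by omega : 1 ≤ q)).trans hqQ
            gcongr
        _ = _ := by ring
    have hcard : ((r.divisors.filter (fun q : ℕ => 1 < (q : ℝ) ∧ (q : ℝ) ≤ T ^ (e / 4))).card : ℝ) ≤ τ := by
      rw [hτ]
      exact_mod_cast Finset.card_filter_le _ _
    have hφ : 0 < (Nat.totient r : ℝ) := by exact_mod_cast Nat.totient_pos.2 hr1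
    have hφr : 1 / (Nat.totient r : ℝ) ≤ τ / r := by
      rw [div_le_div_iff₀ hφ hrr0, one_mul, hτ]
      exact tot_ge hsq
    have hτ4 : τ ^ 4 ≤ C2 ^ 4 * T ^ (e / 16) := by
      have h4 := h3 r (by omega)
      rw [← hτ] at h4
      have hrT' : (r : ℝ) ≤ T := (Nat.cast_le.2 hrT).trans (Nat.floor_le hT0.le)
      calc τ ^ 4 ≤ (C2 * (r : ℝ) ^ (e / 64)) ^ 4 := by gcongr
        _ ≤ (C2 * T ^ (e / 64)) ^ 4 := by gcongr
        _ = C2 ^ 4 * T ^ (e / 16) := by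
            rw [mul_pow, ← Real.rpow_natCast (T ^ (e / 64)) 4, ← Real.rpow_mul hT0.le]
            congr 2
            push_cast
            ring
    calc (1 / (Nat.totient r : ℝ) ^ 2) *
          ∑ q ∈ r.divisors.filter (fun q : ℕ => 1 < (q : ℝ) ∧ (q : ℝ) ≤ T ^ (e / 4)),
          Real.sqrt q * ∑ χ ∈ PR q, ‖SI g w v e T r χ LL‖
        ≤ (1 / (Nat.totient r : ℝ) ^ 2) *
          ((r.divisors.filter (fun q : ℕ => 1 < (q : ℝ) ∧ (q : ℝ) ≤ T ^ (e / 4))).card •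
            ((Real.sqrt Q * Q * Q) * (C1 * τ * (2 * Real.log T) * (r * T ^ (1 - e))))) := by
          gcongr
          exact Finset.sum_le_card_nsmul _ _ _ hq
      _ ≤ (1 / (Nat.totient r : ℝ)) ^ 2 * (τ * ((Real.sqrt Q * Q * Q) * (C1 * τ * (2 * Real.log T) * (r * T ^ (1 - e))))) := by
          rw [nsmul_eq_mul, one_div_pow]
          gcongr
      _ ≤ (τ / r) ^ 2 * (τ * ((Real.sqrt Q * Q * Q) * (C1 * τ * (2 * Real.log T) * (r * T ^ (1 - e))))) := by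
          gcongr
      _ = (2 * C1 * Real.log T * (Real.sqrt Q * Q * Q) * T ^ (1 - e) * τ ^ 4) * (1 / r) := by
          field_simp
      _ ≤ _ := by gcongr
  have hharm : ∑ r ∈ RS e T, (1 / r : ℝ) ≤ 1 + Real.log T := by
    have h4 : ∑ r ∈ RS e T, (1 / r : ℝ) ≤ ∑ r ∈ Finset.Icc 1 ⌊T⌋₊, (1 / r : ℝ) := by
      refine Finset.sum_le_sum_of_subset_of_nonneg (Finset.filter_subset _ _) fun r _ _ => by positivity
    have h5 := harmonic_floor_le_one_add_log T hT.le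
    rw [harmonic_eq_sum_Icc] at h5
    push_cast at h5
    refine h4.trans (le_trans (le_of_eq ?_) h5)
    exact Finset.sum_congr rfl fun r _ => one_div _
  unfold WW
  refine (Finset.sum_le_sum hr0).trans ?_
  rw [← Finset.mul_sum]
  have hQQ : Real.sqrt Q * Q * Q = T ^ (5 * e / 8) := by
    rw [hQ, Real.sqrt_eq_rpow, ← Real.rpow_mul hT0.le, ← Real.rpow_add hT0, ← Real.rpow_add hT0]
    congr 1
    ring
  have h1T : 1 ≤ T ^ (e / 64) := Real.one_le_rpow hT.le (by positivity)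
  calc (2 * C1 * Real.log T * (Real.sqrt Q * Q * Q) * T ^ (1 - e) * (C2 ^ 4 * T ^ (e / 16))) * ∑ r ∈ RS e T, (1 / r : ℝ)
      ≤ (2 * C1 * T ^ (e / 64) * T ^ (5 * e / 8) * T ^ (1 - e) * (C2 ^ 4 * T ^ (e / 16))) * (2 * T ^ (e / 64)) := by
        rw [hQQ]
        gcongr
        linarith
    _ = 4 * C1 * C2 ^ 4 * (T ^ (e / 64) * T ^ (5 * e / 8) * T ^ (1 - e) * T ^ (e / 16) * T ^ (e / 64)) := by ring
    _ = 4 * C1 * C2 ^ 4 * T ^ (e / 64 + 5 * e / 8 + (1 - e) + e / 16 + e / 64) := by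
        rw [Real.rpow_add hT0, Real.rpow_add hT0, Real.rpow_add hT0, Real.rpow_add hT0]
    _ ≤ 4 * C1 * C2 ^ 4 * T ^ (1 - e / 4) := by
        gcongr
        · exact hT.le
        · linarith

end Pool.Agent.Helper69.FF
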