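import Pool.Agent.Helper69.FF.KCh
import Pool.Agent.Helper69.FF.KSml
import Pool.Agent.Helper69.FF.KLg

/-!
# FF-Key: the key estimate (assembled from the K-blocks)

The non-principal characters contribute a power of `T` less. See the README, part K.
-/

open MeasureTheory Set Filter Topology
open Pool.Agent.Helper57.Zeta Pool.Agent.Helper57.PC Pool.Agent.Helper57.LH Pool.Agent.Helper78.SG
open Pool.Agent.Helper4.SH (om)
open scoped ContDiff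

namespace Pool.Agent.Helper69.FF

theorem ww_split (g : TF) (w v : ℝ → ℝ) (e T : ℝ) (Φ : ℕ → ℂ) (Q1 Q Q2 : ℝ) :
    WW g w v e T Φ Q1 Q2 ≤ WW g w v e T Φ Q1 Q + WW g w v e T Φ Q Q2 := by
  unfold WW
  rw [← Finset.sum_add_distrib]
  refine Finset.sum_le_sum fun r _ => ?_
  rw [← mul_add]
  refine mul_le_mul_of_nonneg_left ?_ (by positivity)
  have hnn : ∀ q : ℕ, 0 ≤ Real.sqrt q * ∑ χ ∈ PR q, ‖SI g w v e T r χ Φ‖ := fun q =>
    mul_nonneg (Real.sqrt_nonneg _) (Finset.sum_nonneg fun _ _ => norm_nonneg _)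
  have h1 : r.divisors.filter (fun q : ℕ => Q1 < (q : ℝ) ∧ (q : ℝ) ≤ Q2) ⊆
      r.divisors.filter (fun q : ℕ => Q1 < (q : ℝ) ∧ (q : ℝ) ≤ Q) ∪
      r.divisors.filter (fun q : ℕ => Q < (q : ℝ) ∧ (q : ℝ) ≤ Q2) := by
    intro q hq
    rw [Finset.mem_union, Finset.mem_filter, Finset.mem_filter]
    rw [Finset.mem_filter] at hq
    rcases le_or_gt (q : ℝ) Q with h | h
    · exact Or.inl ⟨hq.1, hq.2.1, h⟩
    · exact Or.inr ⟨hq.1, h, hq.2.2⟩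
  refine (Finset.sum_le_sum_of_subset_of_nonneg h1 fun q _ _ => hnn q).trans ?_
  have h2 := Finset.sum_union_inter (s₁ := r.divisors.filter (fun q : ℕ => Q1 < (q : ℝ) ∧ (q : ℝ) ≤ Q))
    (s₂ := r.divisors.filter (fun q : ℕ => Q < (q : ℝ) ∧ (q : ℝ) ≤ Q2))
    (f := fun q : ℕ => Real.sqrt q * ∑ χ ∈ PR q, ‖SI g w v e T r χ Φ‖)
  have h3 : 0 ≤ ∑ q ∈ r.divisors.filter (fun q : ℕ => Q1 < (q : ℝ) ∧ (q : ℝ) ≤ Q) ∩
      r.divisors.filter (fun q : ℕ => Q < (q : ℝ) ∧ (q : ℝ) ≤ Q2), Real.sqrt q * ∑ χ ∈ PR q, ‖SI g w v e T r χ Φ‖ :=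
    Finset.sum_nonneg fun q _ => hnn q
  linarith

theorem key (g : TF) {w v : ℝ → ℝ} {a b a' b' e : ℝ} (hw : WR w a b) (hb : b < 3 / 2)
    (hv : WR v a' b') (ha' : 1 < a') (hb' : b' < 3 / 2) (he : 0 < e) (he1 : e < 1 / 4) :
    ∃ δ C : ℝ, 0 < δ ∧ 0 < C ∧ ∀ᶠ T : ℝ in atTop, ‖SS g w v e T - ((SM g w v e T : ℝ) : ℂ)‖ ≤ C * T ^ (1 - δ) := by
  obtain ⟨C1, hC1, h1⟩ := kch g hw hb hv ha' hb' he he1
  obtain ⟨C2, hC2, h2⟩ := ksml g hw hb hv ha' hb' he he1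
  obtain ⟨δ, C3, hδ, hC3, h3⟩ := klg g hw hb hv ha' hb' he he1
  refine ⟨min δ (e / 4), C1 + C2 + C3, lt_min hδ (by positivity), by positivity, ?_⟩
  filter_upwards [h1, h2, h3, eventually_ge_atTop 1] with T h1 h2 h3 hT
  have h4 := ww_split g w v e T LL 1 (T ^ (e / 4)) T
  have m1 : min δ (e / 4) ≤ δ := min_le_left _ _
  have m2 : min δ (e / 4) ≤ e / 4 := min_le_right _ _
  have p1 : T ^ (7 / 8 : ℝ) ≤ T ^ (1 - min δ (e / 4)) := Real.rpow_le_rpow_of_exponent_le hT (by linarith)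
  have p2 : T ^ (1 - e / 4) ≤ T ^ (1 - min δ (e / 4)) := Real.rpow_le_rpow_of_exponent_le hT (by linarith)
  have p3 : T ^ (1 - δ) ≤ T ^ (1 - min δ (e / 4)) := Real.rpow_le_rpow_of_exponent_le hT (by linarith)
  have q1 := mul_le_mul_of_nonneg_left p1 hC1.le
  have q2 := mul_le_mul_of_nonneg_left p2 hC2.le
  have q3 := mul_le_mul_of_nonneg_left p3 hC3.le
  linarith

end Pool.Agent.Helper69.FF
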