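import Pool.Agent.Helper69.FF.Defs

/-!
# FF-CopP: sums over integers coprime to r

Moebius: `∑_{A < a ≤ B, (a,r)=1} F(a) = ∑_{d | r} μ(d) ∑_{A/d < m ≤ B/d} F(d m)` and `∑_{A/d < m ≤ B/d} F(dm) = (1/d) ∫_A^B F + O(M + V)` where `|F| ≤ M` on `[A,B]` and
`V = ∫_A^B |F'|` (Mathlib: Abel summation / Euler-Maclaurin of order 1; compare `F(dm)` with `∫_{m-1}^{m} F(dy) dy`). `∑_{d|r} μ(d)/d = φ(r)/r`.
-/

open MeasureTheory Set Filter Topology
open Pool.Agent.Helper57.Zeta Pool.Agent.Helper57.PC Pool.Agent.Helper57.LH Pool.Agent.Helper78.SG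
open Pool.Agent.Helper4.SH (om)
open scoped ContDiff

namespace Pool.Agent.Helper69.FF

private lemma cp_em {G : ℝ → ℝ} {a b M V : ℝ} (ha : 0 ≤ a) (hab : a ≤ b) (hG : ContDiff ℝ 1 G)
    (hM : ∀ y ∈ Icc a b, |G y| ≤ M) (hV : ∫ y in a..b, |deriv G y| ≤ V) :
    |∑ m ∈ Finset.Ioc ⌊a⌋₊ ⌊b⌋₊, G m - ∫ y in a..b, G y| ≤ 2 * M + V := by
  have hGd : Differentiable ℝ G := hG.differentiable (by norm_num)
  have hGc : Continuous (deriv G) := hG.continuous_deriv (by norm_num)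
  have h1 := sum_mul_eq_sub_sub_integral_mul (fun _ : ℕ => (1 : ℝ)) ha hab
    (fun t _ => hGd t) (hGc.integrableOn_Icc)
  simp only [mul_one, Finset.sum_const, nsmul_eq_mul, Nat.card_Icc, tsub_zero] at h1
  rw [← intervalIntegral.integral_of_le hab] at h1
  have h2 : ∫ y in a..b, G y = G b * b - G a * a - ∫ y in a..b, deriv G y * y := by
    have h3 := intervalIntegral.integral_mul_deriv_eq_deriv_mul (a := a) (b := b) (u := G)
      (v := fun y => y) (u' := deriv G) (v' := fun _ => 1) (fun x _ => (hGd x).hasDerivAt)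
      (fun x _ => hasDerivAt_id x) (hGc.intervalIntegrable _ _) intervalIntegrable_const
    simpa using h3
  have hfl : ∀ t : ℝ, 0 ≤ t → |((⌊t⌋₊ + 1 : ℕ) : ℝ) - t| ≤ 1 := by
    intro t ht
    push_cast
    have h4 := Nat.floor_le ht
    have h5 := Nat.lt_floor_add_one t
    rw [abs_le]
    constructor <;> linarith
  have hmeas : IntervalIntegrable (fun t : ℝ => ((⌊t⌋₊ + 1 : ℕ) : ℝ)) volume a b := by
    apply MonotoneOn.intervalIntegrable
    intro x _ y _ hxy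
    have := Nat.floor_mono (R := ℝ) hxy
    show ((⌊x⌋₊ + 1 : ℕ) : ℝ) ≤ ((⌊y⌋₊ + 1 : ℕ) : ℝ)
    exact_mod_cast Nat.add_le_add_right this 1
  have hi1 : IntervalIntegrable (fun t : ℝ => deriv G t * ((⌊t⌋₊ + 1 : ℕ) : ℝ)) volume a b :=
    hmeas.continuousOn_mul hGc.continuousOn
  have hi2 : IntervalIntegrable (fun t : ℝ => deriv G t * t) volume a b :=
    (hGc.mul continuous_id).intervalIntegrable _ _
  have h6 : ∑ m ∈ Finset.Ioc ⌊a⌋₊ ⌊b⌋₊, G m - ∫ y in a..b, G y =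
      G b * (((⌊b⌋₊ + 1 : ℕ) : ℝ) - b) - G a * (((⌊a⌋₊ + 1 : ℕ) : ℝ) - a) -
        ∫ t in a..b, deriv G t * (((⌊t⌋₊ + 1 : ℕ) : ℝ) - t) := by
    have h7 : (∫ t in a..b, deriv G t * (((⌊t⌋₊ + 1 : ℕ) : ℝ) - t)) =
        (∫ t in a..b, deriv G t * ((⌊t⌋₊ + 1 : ℕ) : ℝ)) - ∫ t in a..b, deriv G t * t := by
      rw [← intervalIntegral.integral_sub hi1 hi2]
      congr 1
      ext t
      ring
    rw [h7, h1, h2]
    ring
  rw [h6]
  have k1 : |G b * (((⌊b⌋₊ + 1 : ℕ) : ℝ) - b)| ≤ M := by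
    rw [abs_mul]
    calc |G b| * |((⌊b⌋₊ + 1 : ℕ) : ℝ) - b| ≤ M * 1 :=
          mul_le_mul (hM b ⟨hab, le_rfl⟩) (hfl b (ha.trans hab)) (abs_nonneg _)
            ((abs_nonneg _).trans (hM b ⟨hab, le_rfl⟩))
      _ = M := mul_one M
  have k2 : |G a * (((⌊a⌋₊ + 1 : ℕ) : ℝ) - a)| ≤ M := by
    rw [abs_mul]
    calc |G a| * |((⌊a⌋₊ + 1 : ℕ) : ℝ) - a| ≤ M * 1 :=
          mul_le_mul (hM a ⟨le_rfl, hab⟩) (hfl a ha) (abs_nonneg _)
            ((abs_nonneg _).trans (hM a ⟨le_rfl, hab⟩))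
      _ = M := mul_one M
  have k3 : |∫ t in a..b, deriv G t * (((⌊t⌋₊ + 1 : ℕ) : ℝ) - t)| ≤ V := by
    refine le_trans ?_ hV
    rw [← Real.norm_eq_abs]
    refine intervalIntegral.norm_integral_le_of_norm_le hab ?_ (hGc.abs.intervalIntegrable _ _)
    refine Filter.Eventually.of_forall fun t ht => ?_
    rw [Real.norm_eq_abs, abs_mul]
    exact mul_le_of_le_one_right (abs_nonneg _) (hfl t (ha.trans ht.1.le))
  calc |G b * (((⌊b⌋₊ + 1 : ℕ) : ℝ) - b) - G a * (((⌊a⌋₊ + 1 : ℕ) : ℝ) - a) -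
        ∫ t in a..b, deriv G t * (((⌊t⌋₊ + 1 : ℕ) : ℝ) - t)|
      ≤ |G b * (((⌊b⌋₊ + 1 : ℕ) : ℝ) - b) - G a * (((⌊a⌋₊ + 1 : ℕ) : ℝ) - a)| +
        |∫ t in a..b, deriv G t * (((⌊t⌋₊ + 1 : ℕ) : ℝ) - t)| := abs_sub _ _
    _ ≤ (|G b * (((⌊b⌋₊ + 1 : ℕ) : ℝ) - b)| + |G a * (((⌊a⌋₊ + 1 : ℕ) : ℝ) - a)|) +
        |∫ t in a..b, deriv G t * (((⌊t⌋₊ + 1 : ℕ) : ℝ) - t)| := by gcongr; exact abs_sub _ _
    _ ≤ 2 * M + V := by linarith

private lemma cp_scale {F : ℝ → ℝ} {A B M V : ℝ} (hA : 0 < A) (hAB : A ≤ B) (hF : ContDiff ℝ 1 F)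
    (hM : ∀ y ∈ Icc A B, |F y| ≤ M) (hV : ∫ y in A..B, |deriv F y| ≤ V) {d : ℕ} (hd : d ≠ 0) :
    |∑ m ∈ Finset.Ioc ⌊A / d⌋₊ ⌊B / d⌋₊, F ((d * m : ℕ) : ℝ) - (1 / (d : ℝ)) * ∫ y in A..B, F y| ≤
      2 * M + V := by
  have hd0 : (0 : ℝ) < d := by exact_mod_cast Nat.pos_of_ne_zero hd
  have hG : ContDiff ℝ 1 (fun y => F (d * y)) := hF.comp (contDiff_const.mul contDiff_id)
  have hder : ∀ y, deriv (fun y => F (d * y)) y = d * deriv F (d * y) := by
    intro y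
    rw [deriv_comp_mul_left, smul_eq_mul]
  have h1 := cp_em (G := fun y => F (d * y)) (a := A / d) (b := B / d) (M := M) (V := V)
    (div_nonneg hA.le hd0.le) (div_le_div_of_nonneg_right hAB hd0.le) hG (by
      intro y hy
      apply hM
      constructor
      · have := hy.1
        rw [div_le_iff₀ hd0] at this
        linarith
      · have := hy.2
        rw [le_div_iff₀ hd0] at this
        linarith) (by
      refine le_trans (le_of_eq ?_) hV
      have e1 : (fun y => |deriv (fun y => F (d * y)) y|) = fun y => (d : ℝ) * |deriv F (d * y)| := by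
        ext y
        rw [hder, abs_mul, abs_of_pos hd0]
      rw [e1, intervalIntegral.integral_const_mul,
        intervalIntegral.integral_comp_mul_left (fun y => |deriv F y|) hd0.ne',
        mul_div_cancel₀ _ hd0.ne', mul_div_cancel₀ _ hd0.ne', smul_eq_mul, ← mul_assoc,
        mul_inv_cancel₀ hd0.ne', one_mul])
  rw [intervalIntegral.integral_comp_mul_left F hd0.ne', mul_div_cancel₀ _ hd0.ne',
    mul_div_cancel₀ _ hd0.ne', smul_eq_mul] at h1
  rw [one_div]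
  convert h1 using 4
  push_cast
  rfl

private lemma cp_mob (n : ℕ) : ∑ d ∈ n.divisors, (ArithmeticFunction.moebius d : ℝ) =
    if n = 1 then 1 else 0 := by
  have h := congrArg (fun f => f n) (ArithmeticFunction.coe_zeta_mul_coe_moebius (R := ℝ))
  simp only [ArithmeticFunction.coe_zeta_mul_apply, ArithmeticFunction.intCoe_apply,
    ArithmeticFunction.one_apply] at h
  exact h

private lemma cp_tot {r : ℕ} (hr : r ≠ 0) :
    ∑ d ∈ r.divisors, (ArithmeticFunction.moebius d : ℝ) * (1 / (d : ℝ)) = (Nat.totient r : ℝ) / r := by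
  have h := (ArithmeticFunction.sum_eq_iff_sum_mul_moebius_eq (R := ℝ)
    (f := fun n => (Nat.totient n : ℝ)) (g := fun n => (n : ℝ))).1 (by
      intro n _
      rw [← Nat.cast_sum, Nat.sum_totient]) r (Nat.pos_of_ne_zero hr)
  rw [Nat.sum_divisorsAntidiagonal (fun x y => (ArithmeticFunction.moebius x : ℝ) * (y : ℝ))] at h
  rw [← h, Finset.sum_div]
  refine Finset.sum_congr rfl fun d hd => ?_
  have hdr := Nat.dvd_of_mem_divisors hd
  have hd0 : (d : ℝ) ≠ 0 := by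
    have : d ≠ 0 := fun h0 => hr (by rw [h0] at hdr; exact zero_dvd_iff.1 hdr)
    exact_mod_cast this
  have hr0 : (r : ℝ) ≠ 0 := by exact_mod_cast hr
  rw [Nat.cast_div hdr hd0]
  field_simp

theorem cop_sum {r : ℕ} (hr : r ≠ 0) {F : ℝ → ℝ} {A B M V : ℝ} (hA : 0 < A) (hAB : A ≤ B) (hF : ContDiff ℝ 1 F)
    (hM : ∀ y ∈ Icc A B, |F y| ≤ M) (hV : ∫ y in A..B, |deriv F y| ≤ V) :
    |(∑ a ∈ (Finset.Icc 1 ⌊B⌋₊).filter (fun a : ℕ => A < (a : ℝ) ∧ Nat.Coprime a r), F a) -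
      (Nat.totient r : ℝ) / r * ∫ y in A..B, F y| ≤ 4 * (r.divisors.card : ℝ) * (M + V) := by
  have hM0 : 0 ≤ M := (abs_nonneg _).trans (hM A ⟨le_rfl, hAB⟩)
  have hV0 : 0 ≤ V := (intervalIntegral.integral_nonneg hAB fun _ _ => abs_nonneg _).trans hV
  -- the sum over the coprime integers
  have h1 : (Finset.Icc 1 ⌊B⌋₊).filter (fun a : ℕ => A < (a : ℝ) ∧ Nat.Coprime a r) =
      (Finset.Ioc ⌊A⌋₊ ⌊B⌋₊).filter (fun a : ℕ => Nat.Coprime a r) := by
    ext a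
    simp only [Finset.mem_filter, Finset.mem_Icc, Finset.mem_Ioc]
    rw [← Nat.floor_lt hA.le]
    constructor
    · rintro ⟨⟨_, h2⟩, h3, h4⟩
      exact ⟨⟨h3, h2⟩, h4⟩
    · rintro ⟨⟨h3, h2⟩, h4⟩
      exact ⟨⟨by omega, h2⟩, h3, h4⟩
  have h2 : ∑ a ∈ (Finset.Ioc ⌊A⌋₊ ⌊B⌋₊).filter (fun a : ℕ => Nat.Coprime a r), F a =
      ∑ d ∈ r.divisors, (ArithmeticFunction.moebius d : ℝ) *
        ∑ a ∈ (Finset.Ioc ⌊A⌋₊ ⌊B⌋₊).filter (fun a => d ∣ a), F a := by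
    have h3 : ∀ a : ℕ, ∑ d ∈ r.divisors, (if d ∣ a then (ArithmeticFunction.moebius d : ℝ) else 0) =
        if Nat.Coprime a r then 1 else 0 := by
      intro a
      rw [← Finset.sum_filter]
      have h4 : r.divisors.filter (fun d => d ∣ a) = (Nat.gcd a r).divisors := by
        ext d
        rw [Finset.mem_filter, Nat.mem_divisors, Nat.mem_divisors, Nat.dvd_gcd_iff]
        constructor
        · rintro ⟨⟨h5, _⟩, h6⟩
          exact ⟨⟨h6, h5⟩, Nat.gcd_ne_zero_right hr⟩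
        · rintro ⟨⟨h6, h5⟩, _⟩
          exact ⟨⟨h5, hr⟩, h6⟩
      rw [h4, cp_mob]
    rw [Finset.sum_filter]
    simp_rw [Finset.mul_sum, Finset.sum_filter]
    rw [Finset.sum_comm]
    refine Finset.sum_congr rfl fun a _ => ?_
    have h5 := congrArg (fun z => z * F a) (h3 a)
    simp only [Finset.sum_mul, ite_mul, one_mul, zero_mul] at h5
    exact h5.symm
  have h3 : ∀ d ∈ r.divisors, ∑ a ∈ (Finset.Ioc ⌊A⌋₊ ⌊B⌋₊).filter (fun a => d ∣ a), F a =
      ∑ m ∈ Finset.Ioc ⌊A / d⌋₊ ⌊B / d⌋₊, F ((d * m : ℕ) : ℝ) := by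
    intro d hd
    have hd1 : d ≠ 0 := (Nat.pos_of_mem_divisors hd).ne'
    have hd0 : (0 : ℝ) < d := by exact_mod_cast Nat.pos_of_ne_zero hd1
    symm
    refine Finset.sum_bij (fun m _ => d * m) ?_ ?_ ?_ ?_
    · intro m hm
      rw [Finset.mem_Ioc, Nat.floor_lt (by positivity), Nat.le_floor_iff (by
        have := hA.trans_le hAB
        positivity), div_lt_iff₀ hd0, le_div_iff₀ hd0] at hm
      rw [Finset.mem_filter, Finset.mem_Ioc, Nat.floor_lt hA.le, Nat.le_floor_iff (hA.le.trans hAB)]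
      refine ⟨⟨?_, ?_⟩, dvd_mul_right d m⟩
      · push_cast; linarith [hm.1]
      · push_cast; linarith [hm.2]
    · intro m _ m' _ h
      exact Nat.eq_of_mul_eq_mul_left (Nat.pos_of_ne_zero hd1) h
    · intro a ha
      rw [Finset.mem_filter, Finset.mem_Ioc, Nat.floor_lt hA.le, Nat.le_floor_iff (hA.le.trans hAB)] at ha
      obtain ⟨⟨h4, h5⟩, m, rfl⟩ := ha
      refine ⟨m, ?_, rfl⟩
      rw [Finset.mem_Ioc, Nat.floor_lt (by positivity), Nat.le_floor_iff (by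
        have := hA.trans_le hAB
        positivity), div_lt_iff₀ hd0, le_div_iff₀ hd0]
      push_cast at h4 h5
      constructor <;> linarith
    · intro m _
      rfl
  rw [h1, h2, ← cp_tot hr, Finset.sum_mul, ← Finset.sum_sub_distrib]
  calc |∑ d ∈ r.divisors, ((ArithmeticFunction.moebius d : ℝ) *
          ∑ a ∈ (Finset.Ioc ⌊A⌋₊ ⌊B⌋₊).filter (fun a => d ∣ a), F a -
        (ArithmeticFunction.moebius d : ℝ) * (1 / (d : ℝ)) * ∫ y in A..B, F y)|
      ≤ ∑ d ∈ r.divisors, |(ArithmeticFunction.moebius d : ℝ) *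
          ∑ a ∈ (Finset.Ioc ⌊A⌋₊ ⌊B⌋₊).filter (fun a => d ∣ a), F a -
        (ArithmeticFunction.moebius d : ℝ) * (1 / (d : ℝ)) * ∫ y in A..B, F y| :=
        Finset.abs_sum_le_sum_abs _ _
    _ ≤ ∑ _d ∈ r.divisors, (2 * M + V) := by
        refine Finset.sum_le_sum fun d hd => ?_
        have hd1 : d ≠ 0 := (Nat.pos_of_mem_divisors hd).ne'
        rw [h3 d hd, mul_assoc, ← mul_sub, abs_mul]
        have h6 : |(ArithmeticFunction.moebius d : ℝ)| ≤ 1 := by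
          exact_mod_cast ArithmeticFunction.abs_moebius_le_one (n := d)
        exact (mul_le_of_le_one_left (abs_nonneg _) h6).trans (cp_scale hA hAB hF hM hV hd1)
    _ = (r.divisors.card : ℝ) * (2 * M + V) := by rw [Finset.sum_const, nsmul_eq_mul]
    _ ≤ 4 * (r.divisors.card : ℝ) * (M + V) := by
        have : (0 : ℝ) ≤ r.divisors.card := Nat.cast_nonneg _
        nlinarith [mul_nonneg this hM0, mul_nonneg this hV0]

end Pool.Agent.Helper69.FF
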