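import Pool.Agent.Helper69.FF.PhiS
import Pool.Agent.Helper69.FF.CopP
import Pool.Agent.Helper69.FF.DivS

/-!
# FF-DSum: the double sum over fractions

Let `f` be smooth with support in `[a', b']`, `1 < a'`, `b' < 3/2`. For fixed squarefree `r ≤ T^(1/2-e)` (with `r > T^e`, otherwise there is no `a`): by `cop_sum` with
`F(y) = f(1 + log(r/y)/L)/y`, `A = T^e`, `B = r`: `∑_a (1/a) f(lr) = (φ(r)/r) ∫_{T^e}^r f(1 + log(r/y)/L) dy/y + O(τ(r) T^(-e))` (`|F| ≤ C T^(-e)`, `∫|F'| ≤ C T^(-e)`), and the integral is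
`L Φ(log r/L)`, `Φ(u) = ∫_0^{u-e} f(1+z) dz` (`z = log(r/y)/L`). Multiply by `μ² r/φ(r)²`: main part `L ∑_r (μ²(r)/φ(r)) Φ(log r/L)`, error `≤ ∑_r τ(r)^3 T^(-e)/r·…` negligible (`DivS`).
By `phi_sum` and partial summation (`Φ` is `C¹`; or a partition of `(e, 1/2-e)` into small intervals): `(1/L) ∑_{T^e < r ≤ T^(1/2-e)} μ²/φ Φ(log r/L) → ∫_e^{1/2-e} Φ(u) du`
`= ∫ f(1+z) (1/2 - 2e - z)^+ dz = VE e f`.
`mu_sum` is the partial summation statement in general form.
-/

open MeasureTheory Set Filter Topology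
open Pool.Agent.Helper57.Zeta Pool.Agent.Helper57.PC Pool.Agent.Helper57.LH Pool.Agent.Helper78.SG
open Pool.Agent.Helper4.SH (om)
open scoped ContDiff

namespace Pool.Agent.Helper69.FF

/-- the range of summation -/
private noncomputable def Rg (T a b : ℝ) : Finset ℕ :=
  (Finset.Icc 1 ⌊T ^ b⌋₊).filter (fun r : ℕ => Squarefree r ∧ T ^ a < (r : ℝ))

private theorem mem_Rg {T a b : ℝ} (hT : 1 < T) {r : ℕ} :
    r ∈ Rg T a b ↔ Squarefree r ∧ T ^ a < (r : ℝ) ∧ (r : ℝ) ≤ T ^ b := by
  unfold Rg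
  rw [Finset.mem_filter, Finset.mem_Icc]
  constructor
  · rintro ⟨⟨h1, h2⟩, h3, h4⟩
    exact ⟨h3, h4, (Nat.le_floor_iff (by positivity)).1 h2⟩
  · rintro ⟨h1, h2, h3⟩
    refine ⟨⟨?_, (Nat.le_floor_iff (by positivity)).2 h3⟩, h1, h2⟩
    have : (0 : ℝ) < r := lt_trans (by positivity) h2
    exact_mod_cast this

private theorem Rg_mass {C : ℝ} (hC : ∀ x : ℝ, 1 ≤ x →
    |(∑ r ∈ (Finset.Icc 1 ⌊x⌋₊).filter Squarefree, 1 / (Nat.totient r : ℝ)) - Real.log x| ≤ C) {T a b : ℝ} (hT : 1 < T) (ha : 0 ≤ a) (hab : a ≤ b) :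
    |(∑ r ∈ Rg T a b, 1 / (Nat.totient r : ℝ)) - (b - a) * Real.log T| ≤ 2 * C := by
  classical
  have hT0 : 0 < T := by linarith
  have h1 := hC (T ^ a) (Real.one_le_rpow hT.le ha)
  have h2 := hC (T ^ b) (Real.one_le_rpow hT.le (ha.trans hab))
  rw [Real.log_rpow hT0] at h1 h2
  have hsub : (Finset.Icc 1 ⌊T ^ b⌋₊).filter Squarefree = ((Finset.Icc 1 ⌊T ^ a⌋₊).filter Squarefree) ∪ Rg T a b := by
    ext r
    rw [Finset.mem_union, mem_Rg hT, Finset.mem_filter, Finset.mem_filter, Finset.mem_Icc, Finset.mem_Icc,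
      Nat.le_floor_iff (by positivity), Nat.le_floor_iff (by positivity)]
    have hTab : T ^ a ≤ T ^ b := Real.rpow_le_rpow_of_exponent_le hT.le hab
    constructor
    · rintro ⟨⟨h3, h4⟩, h5⟩
      by_cases h6 : (r : ℝ) ≤ T ^ a
      · exact Or.inl ⟨⟨h3, h6⟩, h5⟩
      · exact Or.inr ⟨h5, not_le.1 h6, h4⟩
    · rintro (⟨⟨h3, h4⟩, h5⟩ | ⟨h3, h4, h5⟩)
      · exact ⟨⟨h3, h4.trans hTab⟩, h5⟩
      · refine ⟨⟨?_, h5⟩, h3⟩
        have : (0 : ℝ) < r := lt_trans (by positivity) h4
        exact_mod_cast this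
  have hdis : Disjoint ((Finset.Icc 1 ⌊T ^ a⌋₊).filter Squarefree) (Rg T a b) := by
    rw [Finset.disjoint_left]
    intro r h3 h4
    rw [Finset.mem_filter, Finset.mem_Icc, Nat.le_floor_iff (by positivity)] at h3
    rw [mem_Rg hT] at h4
    linarith [h3.1.2, h4.2.1]
  rw [hsub, Finset.sum_union hdis] at h2
  rw [abs_le] at h1 h2 ⊢
  constructor <;> nlinarith [h1.1, h1.2, h2.1, h2.2]

private theorem Rg_add {T a b c : ℝ} (hT : 1 < T) (hab : a ≤ b) (hbc : b ≤ c) (g : ℕ → ℝ) :
    ∑ r ∈ Rg T a c, g r = ∑ r ∈ Rg T a b, g r + ∑ r ∈ Rg T b c, g r := by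
  classical
  have hsub : Rg T a c = Rg T a b ∪ Rg T b c := by
    ext r
    rw [Finset.mem_union, mem_Rg hT, mem_Rg hT, mem_Rg hT]
    have hTab : T ^ a ≤ T ^ b := Real.rpow_le_rpow_of_exponent_le hT.le hab
    have hTbc : T ^ b ≤ T ^ c := Real.rpow_le_rpow_of_exponent_le hT.le hbc
    constructor
    · rintro ⟨h1, h2, h3⟩
      by_cases h6 : (r : ℝ) ≤ T ^ b
      · exact Or.inl ⟨h1, h2, h6⟩
      · exact Or.inr ⟨h1, not_le.1 h6, h3⟩
    · rintro (⟨h1, h2, h3⟩ | ⟨h1, h2, h3⟩)
      · exact ⟨h1, h2, h3.trans hTbc⟩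
      · exact ⟨h1, lt_of_le_of_lt hTab h2, h3⟩
  have hdis : Disjoint (Rg T a b) (Rg T b c) := by
    rw [Finset.disjoint_left]
    intro r h3 h4
    rw [mem_Rg hT] at h3 h4
    linarith [h3.2.2, h4.2.1]
  rw [hsub, Finset.sum_union hdis]

private theorem block {C : ℝ} (hC : ∀ x : ℝ, 1 ≤ x →
    |(∑ r ∈ (Finset.Icc 1 ⌊x⌋₊).filter Squarefree, 1 / (Nat.totient r : ℝ)) - Real.log x| ≤ C) {Φ : ℝ → ℝ} (hΦ : Continuous Φ)
    {T a b η M : ℝ} (hT : Real.exp 1 ≤ T) (ha : 0 ≤ a) (hab : a ≤ b)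
    (hη : ∀ u ∈ Icc a b, |Φ u - Φ a| ≤ η) (hM : |Φ a| ≤ M) :
    |(1 / Real.log T) * (∑ r ∈ Rg T a b, 1 / (Nat.totient r : ℝ) * Φ (Real.log r / Real.log T)) - ∫ u in a..b, Φ u| ≤
      2 * η * (b - a) + (η + M) * (2 * C) / Real.log T := by
  have hT1 : 1 < T := lt_of_lt_of_le (by have := Real.add_one_lt_exp (one_ne_zero); linarith) hT
  have hT0 : 0 < T := by linarith
  have hL : 1 ≤ Real.log T := by
    rw [← Real.log_exp 1]; exact Real.log_le_log (Real.exp_pos 1) hT
  have hL0 : 0 < Real.log T := by linarith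
  have hη0 : 0 ≤ η := (abs_nonneg _).trans (hη a ⟨le_rfl, hab⟩)
  have hmass := Rg_mass hC hT1 ha hab
  have hC0 : 0 ≤ 2 * C := (abs_nonneg _).trans hmass
  set W : ℝ := ∑ r ∈ Rg T a b, 1 / (Nat.totient r : ℝ) with hW
  have hW0 : 0 ≤ W := Finset.sum_nonneg fun r _ => by positivity
  -- the sum
  have h1 : |(∑ r ∈ Rg T a b, 1 / (Nat.totient r : ℝ) * Φ (Real.log r / Real.log T)) - Φ a * W| ≤ η * W := by
    rw [hW, Finset.mul_sum, Finset.mul_sum, ← Finset.sum_sub_distrib]
    refine (Finset.abs_sum_le_sum_abs _ _).trans (Finset.sum_le_sum fun r hr => ?_)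
    have h2 : 1 / (Nat.totient r : ℝ) * Φ (Real.log r / Real.log T) - Φ a * (1 / (Nat.totient r : ℝ)) =
        1 / (Nat.totient r : ℝ) * (Φ (Real.log r / Real.log T) - Φ a) := by ring
    rw [h2, abs_mul, abs_of_nonneg (by positivity : (0:ℝ) ≤ 1 / (Nat.totient r : ℝ)), mul_comm η]
    apply mul_le_mul_of_nonneg_left _ (by positivity)
    apply hη
    rw [mem_Rg hT1] at hr
    obtain ⟨-, h3, h4⟩ := hr
    have hr0 : (0:ℝ) < r := lt_trans (by positivity) h3
    constructor
    · rw [le_div_iff₀ hL0, ← Real.log_rpow hT0]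
      exact Real.log_le_log (by positivity) h3.le
    · rw [div_le_iff₀ hL0, ← Real.log_rpow hT0]
      exact Real.log_le_log hr0 h4
  -- the integral
  have h2 : |(∫ u in a..b, Φ u) - Φ a * (b - a)| ≤ η * (b - a) := by
    have h3 : (∫ u in a..b, Φ u) - Φ a * (b - a) = ∫ u in a..b, (Φ u - Φ a) := by
      rw [intervalIntegral.integral_sub (hΦ.intervalIntegrable _ _) (intervalIntegrable_const), intervalIntegral.integral_const,
        smul_eq_mul, mul_comm (b - a)]
    rw [h3, ← Real.norm_eq_abs]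
    have h4 := intervalIntegral.norm_integral_le_of_norm_le_const (a := a) (b := b) (f := fun u => Φ u - Φ a) (C := η) (by
      intro u hu
      rw [uIoc_of_le hab] at hu
      rw [Real.norm_eq_abs]
      exact hη u ⟨hu.1.le, hu.2⟩)
    rwa [abs_of_nonneg (by linarith : (0:ℝ) ≤ b - a)] at h4
  -- combination
  have h3 : |Φ a * (1 / Real.log T * W - (b - a))| ≤ M * (2 * C) / Real.log T := by
    rw [abs_mul]
    have h4 : |1 / Real.log T * W - (b - a)| ≤ 2 * C / Real.log T := by
      have h5 : 1 / Real.log T * W - (b - a) = (W - (b - a) * Real.log T) / Real.log T := by field_simp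
      rw [h5, abs_div, abs_of_pos hL0]
      gcongr
    calc |Φ a| * |1 / Real.log T * W - (b - a)| ≤ M * (2 * C / Real.log T) := by
          apply mul_le_mul hM h4 (abs_nonneg _) ((abs_nonneg _).trans hM)
      _ = _ := by ring
  have h4 : |1 / Real.log T * ((∑ r ∈ Rg T a b, 1 / (Nat.totient r : ℝ) * Φ (Real.log r / Real.log T)) - Φ a * W)| ≤
      η * (b - a) + η * (2 * C) / Real.log T := by
    rw [abs_mul, abs_of_pos (by positivity : (0:ℝ) < 1 / Real.log T)]
    calc 1 / Real.log T * |(∑ r ∈ Rg T a b, 1 / (Nat.totient r : ℝ) * Φ (Real.log r / Real.log T)) - Φ a * W|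
        ≤ 1 / Real.log T * (η * W) := by gcongr
      _ ≤ 1 / Real.log T * (η * ((b - a) * Real.log T + 2 * C)) := by
          have h5 := (abs_le.1 hmass).2
          gcongr
          linarith
      _ = _ := by field_simp
  have h5 : (1 / Real.log T) * (∑ r ∈ Rg T a b, 1 / (Nat.totient r : ℝ) * Φ (Real.log r / Real.log T)) - ∫ u in a..b, Φ u =
      1 / Real.log T * ((∑ r ∈ Rg T a b, 1 / (Nat.totient r : ℝ) * Φ (Real.log r / Real.log T)) - Φ a * W) +
      Φ a * (1 / Real.log T * W - (b - a)) - ((∫ u in a..b, Φ u) - Φ a * (b - a)) := by ring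
  rw [h5]
  have h6 : 2 * η * (b - a) + (η + M) * (2 * C) / Real.log T = (η * (b - a) + η * (2 * C) / Real.log T) +
      M * (2 * C) / Real.log T + η * (b - a) := by ring
  rw [h6]
  refine (abs_sub _ _).trans (add_le_add ((abs_add_le _ _).trans (add_le_add h4 h3)) h2)

theorem mu_sum {Φ : ℝ → ℝ} (hΦ : Continuous Φ) {α β : ℝ} (hα : 0 ≤ α) (hαβ : α ≤ β) : Tendsto (fun T : ℝ =>
    (1 / Real.log T) * ∑ r ∈ (Finset.Icc 1 ⌊T ^ β⌋₊).filter (fun r : ℕ => Squarefree r ∧ T ^ α < (r : ℝ)),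
      1 / (Nat.totient r : ℝ) * Φ (Real.log r / Real.log T)) atTop (𝓝 (∫ u in α..β, Φ u)) := by
  obtain ⟨C, hC0, hC⟩ := phi_sum
  -- bounds of Φ
  obtain ⟨M, hM⟩ := (isCompact_Icc (a := α) (b := β)).exists_bound_of_continuousOn hΦ.continuousOn
  have hM0 : 0 ≤ M := (norm_nonneg _).trans (hM α ⟨le_rfl, hαβ⟩)
  have huc := (isCompact_Icc (a := α) (b := β)).uniformContinuousOn_of_continuous hΦ.continuousOn
  rw [Metric.tendsto_atTop]
  intro ε hε
  -- choose η
  set η : ℝ := ε / (4 * (β - α + 1)) with hη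
  have hη0 : 0 < η := by have : 0 < β - α + 1 := by linarith
                         positivity
  obtain ⟨d, hd, hdη⟩ := Metric.uniformContinuousOn_iff.1 huc η hη0
  obtain ⟨N, hN⟩ := exists_nat_gt ((β - α) / d)
  have hN0 : 0 < N := by
    have h1 : 0 ≤ (β - α) / d := div_nonneg (by linarith) hd.le
    have : (0:ℝ) < N := lt_of_le_of_lt h1 hN
    exact_mod_cast this
  have hN0' : (0:ℝ) < N := by exact_mod_cast hN0
  set h : ℝ := (β - α) / N with hh
  have hh0 : 0 ≤ h := div_nonneg (by linarith) hN0'.le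
  have hhd : h < d := by
    rw [hh, div_lt_iff₀ hN0']
    rw [div_lt_iff₀ hd] at hN
    linarith
  have hNh : N * h = β - α := by rw [hh]; field_simp
  -- induction over the blocks
  have key : ∀ T : ℝ, Real.exp 1 ≤ T → ∀ i : ℕ, i ≤ N →
      |(1 / Real.log T) * (∑ r ∈ Rg T α (α + i * h), 1 / (Nat.totient r : ℝ) * Φ (Real.log r / Real.log T)) - ∫ u in α..(α + i * h), Φ u| ≤
        i * (2 * η * h + (η + M) * (2 * C) / Real.log T) := by
    intro T hT i
    have hT1 : 1 < T := lt_of_lt_of_le (by have := Real.add_one_lt_exp (one_ne_zero); linarith) hT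
    induction i with
    | zero =>
      intro _
      have : Rg T α (α + ((0:ℕ):ℝ) * h) = ∅ := by
        rw [Finset.eq_empty_iff_forall_notMem]
        intro r hr
        rw [mem_Rg hT1] at hr
        simp only [Nat.cast_zero, zero_mul, add_zero] at hr
        linarith [hr.2.1, hr.2.2]
      rw [this]
      simp
    | succ i ih =>
      intro hi
      have h1 := ih (by omega)
      have hiN : ((i + 1 : ℕ) : ℝ) ≤ N := by exact_mod_cast hi
      have hle : α + ((i + 1 : ℕ) : ℝ) * h ≤ β := by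
        have : ((i + 1 : ℕ) : ℝ) * h ≤ N * h := by gcongr
        linarith
      have hstep : α + (i : ℝ) * h ≤ α + ((i + 1 : ℕ) : ℝ) * h := by
        push_cast; nlinarith
      have hα' : α ≤ α + (i : ℝ) * h := by
        have : 0 ≤ (i : ℝ) * h := by positivity
        linarith
      have h2 := block hC hΦ (M := M) (η := η) hT (hα.trans hα') hstep (by
        intro u hu
        have h3 := hdη u ⟨hα'.trans hu.1, hu.2.trans hle⟩ (α + i * h) ⟨hα', hstep.trans hle⟩ (by
          rw [Real.dist_eq, abs_of_nonneg (by linarith [hu.1])]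
          have := hu.2
          push_cast at this
          linarith)
        rw [Real.dist_eq] at h3
        exact h3.le) (hM _ ⟨hα', hstep.trans hle⟩)
      rw [Rg_add hT1 hα' hstep, mul_add, ← intervalIntegral.integral_add_adjacent_intervals
        (hΦ.intervalIntegrable α (α + i * h)) (hΦ.intervalIntegrable (α + i * h) (α + ((i + 1 : ℕ) : ℝ) * h))]
      have h4 : ∀ x y z w : ℝ, x + y - (z + w) = (x - z) + (y - w) := by intros; ring
      rw [h4]
      refine (abs_add_le _ _).trans ((add_le_add h1 h2).trans ?_)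
      have h5 : α + ((i + 1 : ℕ) : ℝ) * h - (α + i * h) = h := by push_cast; ring
      rw [h5]
      apply le_of_eq
      push_cast
      ring
  -- conclusion
  have hlog : Tendsto (fun T : ℝ => N * ((η + M) * (2 * C)) / Real.log T) atTop (𝓝 0) :=
    Tendsto.div_atTop tendsto_const_nhds Real.tendsto_log_atTop
  rw [Metric.tendsto_atTop] at hlog
  obtain ⟨T0, hT0⟩ := hlog (ε / 4) (by positivity)
  refine ⟨max T0 (Real.exp 1), fun T hT => ?_⟩
  have h1 := hT0 T ((le_max_left _ _).trans hT)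
  have h2 := key T ((le_max_right _ _).trans hT) N le_rfl
  rw [hNh] at h2
  have h3 : α + (β - α) = β := by ring
  rw [h3] at h2
  rw [Real.dist_eq]
  refine lt_of_le_of_lt h2 ?_
  rw [Real.dist_eq, sub_zero] at h1
  have h4 := lt_of_le_of_lt (le_abs_self _) h1
  have h5 : (N : ℝ) * (2 * η * h + (η + M) * (2 * C) / Real.log T) = 2 * η * (β - α) + N * ((η + M) * (2 * C)) / Real.log T := by
    rw [← hNh]; ring
  rw [h5]
  have h6 : 2 * η * (β - α) ≤ ε / 2 := by
    have h7 : 0 < β - α + 1 := by linarith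
    have h8 : η * (β - α + 1) = ε / 4 := by rw [hη]; field_simp
    nlinarith
  linarith

private theorem sum_RA {e T : ℝ} (hT : 1 < T) (he : 0 < e) (g : ℕ × ℕ → ℝ) :
    ∑ x ∈ RA e T, g x = ∑ r ∈ Rg T e (1 / 2 - e), ∑ a ∈ (Finset.Icc 1 ⌊(r:ℝ)⌋₊).filter
      (fun a : ℕ => T ^ e < (a : ℝ) ∧ Nat.Coprime a r), g (r, a) := by
  apply Finset.sum_finset_product
  rintro ⟨r, a⟩
  simp only [RA, Finset.mem_filter, Finset.mem_product, Finset.mem_Icc, mem_Rg hT, Nat.floor_natCast]
  constructor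
  · rintro ⟨⟨⟨h1, h2⟩, h3, h4⟩, h5, h6, h7, h8, h9⟩
    exact ⟨⟨h5, lt_of_lt_of_le h7 (by exact_mod_cast h8), h6⟩, ⟨h3, h8⟩, h7, h9⟩
  · rintro ⟨⟨h5, h10, h6⟩, ⟨h3, h8⟩, h7, h9⟩
    have hr : (r : ℝ) ≤ T := by
      refine h6.trans ?_
      calc T ^ (1 / 2 - e) ≤ T ^ (1 : ℝ) := Real.rpow_le_rpow_of_exponent_le hT.le (by linarith)
        _ = T := Real.rpow_one T
    have hr' : r ≤ ⌊T⌋₊ := (Nat.le_floor_iff (by linarith)).2 hr
    exact ⟨⟨⟨h3.trans h8, hr'⟩, h3, h8.trans hr'⟩, h5, h6, h7, h8, h9⟩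

/-- the summand as a function of `a` -/
private noncomputable def Fr (f : ℝ → ℝ) (L c y : ℝ) : ℝ := f (1 + (c - Real.log y) / L) / y

private theorem Fr_smooth {f : ℝ → ℝ} {a' b' : ℝ} (hf : WR f a' b') {L : ℝ} (hL : 0 < L) (c : ℝ) : ContDiff ℝ 1 (Fr f L c) := by
  rw [contDiff_iff_contDiffAt]
  intro y
  by_cases hy : y = 0
  · subst hy
    have heq : Fr f L c =ᶠ[𝓝 0] fun _ => (0 : ℝ) := by
      have ho : IsOpen {y : ℝ | |y| < Real.exp (c - b' * L)} := isOpen_lt continuous_abs continuous_const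
      have hm : {y : ℝ | |y| < Real.exp (c - b' * L)} ∈ 𝓝 (0:ℝ) := ho.mem_nhds (by
        show |(0:ℝ)| < Real.exp (c - b' * L)
        rw [abs_zero]; exact Real.exp_pos _)
      filter_upwards [hm] with y hy
      have hy' : |y| < Real.exp (c - b' * L) := hy
      unfold Fr
      by_cases h0 : y = 0
      · rw [h0]; simp
      · have h1 : Real.log y < c - b' * L := by
          rw [← Real.log_abs, ← Real.log_exp (c - b' * L)]
          exact Real.log_lt_log (abs_pos.2 h0) hy'
        have h2 : f (1 + (c - Real.log y) / L) = 0 := by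
          by_contra hne
          have h3 := (hf.2.2.2 _ hne).2
          have h4 : b' < (c - Real.log y) / L := by rw [lt_div_iff₀ hL]; linarith
          linarith
        rw [h2, zero_div]
    exact contDiffAt_const.congr_of_eventuallyEq heq
  · unfold Fr
    have h1 : ContDiffAt ℝ 1 (fun y : ℝ => 1 + (c - Real.log y) / L) y := by
      have hlog : ContDiffAt ℝ 1 Real.log y := Real.contDiffAt_log.2 hy
      exact contDiffAt_const.add ((contDiffAt_const.sub hlog).div_const L)
    have h2 : ContDiffAt ℝ 1 (fun y : ℝ => f (1 + (c - Real.log y) / L)) y := by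
      have h3 : ContDiff ℝ 1 f := hf.1.of_le (by exact_mod_cast le_top)
      exact h3.contDiffAt.comp y h1
    exact h2.div contDiffAt_id hy

private theorem Fr_deriv {f : ℝ → ℝ} {a' b' : ℝ} (hf : WR f a' b') (L c : ℝ) {y : ℝ} (hy : 0 < y) :
    deriv (Fr f L c) y = -(deriv f (1 + (c - Real.log y) / L) / L + f (1 + (c - Real.log y) / L)) / y ^ 2 := by
  have h1 : HasDerivAt (fun y : ℝ => 1 + (c - Real.log y) / L) (-(y⁻¹) / L) y := by
    have h2 := (((Real.hasDerivAt_log hy.ne').const_sub c).div_const L).const_add 1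
    exact h2
  have h3 : HasDerivAt f (deriv f (1 + (c - Real.log y) / L)) (1 + (c - Real.log y) / L) :=
    ((hf.1.differentiable (by simp)) _).hasDerivAt
  have h4 := (h3.comp y h1).div (hasDerivAt_id y) hy.ne'
  have h5 : HasDerivAt (Fr f L c) ((deriv f (1 + (c - Real.log y) / L) * (-(y⁻¹) / L) * id y -
      (f ∘ fun y : ℝ => 1 + (c - Real.log y) / L) y * 1) / id y ^ 2) y := h4
  rw [h5.deriv]
  simp only [id, Function.comp, mul_one]
  field_simp
  ring

private theorem WR_bd {f : ℝ → ℝ} {a' b' : ℝ} (hf : WR f a' b') : ∃ C : ℝ, 0 < C ∧ (∀ x, |f x| ≤ C) ∧ ∀ x, |deriv f x| ≤ C := by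
  have hs : HasCompactSupport f := HasCompactSupport.intro (isCompact_Icc (a := a') (b := b')) fun x hx => by
    by_contra h
    exact hx (hf.2.2.2 x h)
  obtain ⟨C1, hC1⟩ := hf.1.continuous.bounded_above_of_compact_support hs
  obtain ⟨C2, hC2⟩ := (hf.1.continuous_deriv (by simp)).bounded_above_of_compact_support hs.deriv
  have h0 : 0 ≤ C1 := (norm_nonneg _).trans (hC1 0)
  have h1 : 0 ≤ C2 := (norm_nonneg _).trans (hC2 0)
  refine ⟨C1 + C2 + 1, by linarith, fun x => ?_, fun x => ?_⟩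
  · have := hC1 x; rw [Real.norm_eq_abs] at this; linarith
  · have := hC2 x; rw [Real.norm_eq_abs] at this; linarith

private theorem inv_sq_int {A B : ℝ} (hA : 0 < A) (hAB : A ≤ B) (C : ℝ) :
    ∫ y in A..B, C / y ^ 2 = C / A - C / B := by
  have h1 : ∀ y ∈ uIcc A B, HasDerivAt (fun y : ℝ => -(C / y)) (C / y ^ 2) y := by
    intro y hy
    rw [uIcc_of_le hAB] at hy
    have hy0 : y ≠ 0 := (lt_of_lt_of_le hA hy.1).ne'
    have h2 : HasDerivAt (fun y : ℝ => C / y) ((0 * y - C * 1) / y ^ 2) y := (hasDerivAt_const y C).div (hasDerivAt_id y) hy0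
    refine h2.fun_neg.congr_deriv ?_
    ring
  rw [intervalIntegral.integral_eq_sub_of_hasDerivAt h1]
  · ring
  · apply ContinuousOn.intervalIntegrable
    intro y hy
    rw [uIcc_of_le hAB] at hy
    have hy0 : y ≠ 0 := (lt_of_lt_of_le hA hy.1).ne'
    exact (ContinuousAt.div continuousAt_const (continuousAt_id.pow 2) (pow_ne_zero 2 hy0)).continuousWithinAt

/-- the primitive -/
private noncomputable def GG (f : ℝ → ℝ) (v : ℝ) : ℝ := ∫ z in (0:ℝ)..v, f (1 + z)

private theorem GG_deriv {f : ℝ → ℝ} (hf : Continuous f) (v : ℝ) : HasDerivAt (GG f) (f (1 + v)) v := by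
  have hc : Continuous (fun z : ℝ => f (1 + z)) := hf.comp (by fun_prop)
  exact intervalIntegral.integral_hasDerivAt_right (hc.intervalIntegrable _ _) (hc.stronglyMeasurableAtFilter _ _) hc.continuousAt

private theorem Fr_int {f : ℝ → ℝ} (hf : Continuous f) {L c A B : ℝ} (hL : 0 < L) (hA : 0 < A) (hAB : A ≤ B) :
    ∫ y in A..B, Fr f L c y = L * GG f ((c - Real.log A) / L) - L * GG f ((c - Real.log B) / L) := by
  have h1 : ∀ y ∈ uIcc A B, HasDerivAt (fun y : ℝ => -(L * GG f ((c - Real.log y) / L))) (Fr f L c y) y := by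
    intro y hy
    rw [uIcc_of_le hAB] at hy
    have hy0 : y ≠ 0 := (lt_of_lt_of_le hA hy.1).ne'
    have h2 : HasDerivAt (fun y : ℝ => (c - Real.log y) / L) (-(y⁻¹) / L) y :=
      ((Real.hasDerivAt_log hy0).const_sub c).div_const L
    have h3 : HasDerivAt (fun y : ℝ => GG f ((c - Real.log y) / L)) (f (1 + (c - Real.log y) / L) * (-(y⁻¹) / L)) y :=
      HasDerivAt.comp (h := fun y : ℝ => (c - Real.log y) / L) y (GG_deriv hf ((c - Real.log y) / L)) h2
    refine (h3.const_mul L).fun_neg.congr_deriv ?_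
    unfold Fr
    field_simp
  rw [intervalIntegral.integral_eq_sub_of_hasDerivAt h1]
  · ring
  · apply ContinuousOn.intervalIntegrable
    intro y hy
    rw [uIcc_of_le hAB] at hy
    have hy0 : y ≠ 0 := (lt_of_lt_of_le hA hy.1).ne'
    unfold Fr
    refine (ContinuousAt.div ?_ continuousAt_id hy0).continuousWithinAt
    have h4 : ContinuousAt (fun y : ℝ => 1 + (c - Real.log y) / L) y :=
      continuousAt_const.add ((continuousAt_const.sub (Real.continuousAt_log hy0)).div_const L)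
    exact hf.continuousAt.comp h4

private theorem VE_eq {f : ℝ → ℝ} (hf : Continuous f) {e : ℝ} (he1 : e < 1 / 4) :
    ∫ u in e..(1 / 2 - e), GG f (u - e) = VE e f := by
  set d : ℝ := 1 / 2 - 2 * e with hd
  have hd0 : 0 < d := by rw [hd]; linarith
  have hGc : Continuous (GG f) := continuous_iff_continuousAt.2 fun v => (GG_deriv hf v).continuousAt
  have hfc : Continuous (fun z : ℝ => f (1 + z)) := hf.comp (by fun_prop)
  have h1 : ∫ u in e..(1 / 2 - e), GG f (u - e) = ∫ v in (0:ℝ)..d, GG f v := by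
    rw [intervalIntegral.integral_comp_sub_right (fun u => GG f u) e, sub_self]
    congr 1
    rw [hd]; ring
  have h2 : ∫ v in (0:ℝ)..d, GG f v = ∫ v in (0:ℝ)..d, (d - v) * f (1 + v) := by
    have h3 : ∀ v ∈ uIcc 0 d, HasDerivAt (fun v : ℝ => (v - d) * GG f v) (1 * GG f v + (v - d) * f (1 + v)) v := by
      intro v _
      exact ((hasDerivAt_id v).sub_const d).mul (GG_deriv hf v)
    have h4 := intervalIntegral.integral_eq_sub_of_hasDerivAt h3 (by
      apply Continuous.intervalIntegrable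
      fun_prop)
    have hG0 : GG f 0 = 0 := by unfold GG; simp
    rw [hG0] at h4
    simp only [sub_self, zero_mul, mul_zero] at h4
    rw [intervalIntegral.integral_add (by apply Continuous.intervalIntegrable; fun_prop) (by apply Continuous.intervalIntegrable; fun_prop)] at h4
    simp only [one_mul] at h4
    have h5 : ∫ v in (0:ℝ)..d, (d - v) * f (1 + v) = -∫ v in (0:ℝ)..d, (v - d) * f (1 + v) := by
      rw [← intervalIntegral.integral_neg]
      congr 1
      funext v
      ring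
    rw [h5]
    linarith
  have h3 : VE e f = ∫ v in (0:ℝ)..d, (d - v) * f (1 + v) := by
    unfold VE
    have h4 : ∫ x in Ioi (1:ℝ), max (3 / 2 - x - 2 * e) 0 * f x = ∫ x in Ioc 1 (1 + d), max (3 / 2 - x - 2 * e) 0 * f x := by
      apply setIntegral_eq_of_subset_of_forall_sdiff_eq_zero measurableSet_Ioi Ioc_subset_Ioi_self
      intro x hx
      have hx1 : (1:ℝ) < x := hx.1
      have hx2 : 1 + d < x := by
        by_contra hcon
        push Not at hcon
        exact hx.2 ⟨hx1, hcon⟩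
      rw [max_eq_right (by rw [hd] at hx2; linarith), zero_mul]
    have h5 : ∫ x in Ioc 1 (1 + d), max (3 / 2 - x - 2 * e) 0 * f x = ∫ x in Ioc 1 (1 + d), (1 + d - x) * f x := by
      apply setIntegral_congr_fun measurableSet_Ioc
      intro x hx
      simp only
      have hx2 := hx.2
      rw [hd] at hx2 ⊢
      rw [max_eq_left (by linarith)]
      ring
    rw [h4, h5, ← intervalIntegral.integral_of_le (by linarith)]
    have h6 := intervalIntegral.integral_comp_add_left (fun x => (1 + d - x) * f x) (1:ℝ) (a := 0) (b := d)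
    rw [add_zero] at h6
    rw [← h6]
    congr 1
    funext v
    ring
  rw [h1, h2, h3]

theorem dsum_lim {f : ℝ → ℝ} {a' b' e : ℝ} (hf : WR f a' b') (ha' : 1 < a') (hb' : b' < 3 / 2) (he : 0 < e) (he1 : e < 1 / 4) :
    Tendsto (fun T : ℝ => (1 / Real.log T ^ 2) * ∑ x ∈ RA e T, mf x.1 ^ 2 * ((x.1 : ℝ) / x.2) * f (lr T x)) atTop
      (𝓝 (VE e f)) := by
  classical
  have hfc : Continuous f := hf.1.continuous
  obtain ⟨C, hC0, hCf, hCf'⟩ := WR_bd hf
  obtain ⟨Cφ, hCφ0, hCφ⟩ := phi_sum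
  obtain ⟨Cd, hCd0, hCd⟩ := div_bound (ε := e / 4) (by positivity)
  set Φ : ℝ → ℝ := fun u => GG f (u - e) with hΦ
  have hGc : Continuous (GG f) := continuous_iff_continuousAt.2 fun v => (GG_deriv hfc v).continuousAt
  have hΦc : Continuous Φ := hGc.comp (by fun_prop)
  have hmain := mu_sum hΦc he.le (β := 1 / 2 - e) (by linarith)
  rw [← VE_eq hfc he1]
  -- the error
  have herr : Tendsto (fun T : ℝ => (16 * C * Cd ^ 2) * ((Real.log T + 2 * Cφ) / T ^ (e / 2))) atTop (𝓝 0) := by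
    have h1 : Tendsto (fun T : ℝ => Real.log T / T ^ (e / 2)) atTop (𝓝 0) :=
      (isLittleO_log_rpow_atTop (by positivity)).tendsto_div_nhds_zero
    have h2 : Tendsto (fun T : ℝ => 2 * Cφ / T ^ (e / 2)) atTop (𝓝 0) :=
      Tendsto.div_atTop tendsto_const_nhds (tendsto_rpow_atTop (by positivity))
    have h3 := (h1.add h2).const_mul (16 * C * Cd ^ 2)
    rw [add_zero, mul_zero] at h3
    refine h3.congr fun T => ?_
    rw [add_div]
  have hdiff : Tendsto (fun T : ℝ => (1 / Real.log T ^ 2) * (∑ x ∈ RA e T, mf x.1 ^ 2 * ((x.1 : ℝ) / x.2) * f (lr T x)) -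
      (1 / Real.log T) * ∑ r ∈ (Finset.Icc 1 ⌊T ^ (1 / 2 - e)⌋₊).filter (fun r : ℕ => Squarefree r ∧ T ^ e < (r : ℝ)),
      1 / (Nat.totient r : ℝ) * Φ (Real.log r / Real.log T)) atTop (𝓝 0) := by
    refine squeeze_zero_norm' ?_ herr
    filter_upwards [eventually_ge_atTop (Real.exp 1)] with T hT
    have hT1 : 1 < T := lt_of_lt_of_le (by have := Real.add_one_lt_exp (one_ne_zero); linarith) hT
    have hT0 : 0 < T := by linarith
    have hL : 1 ≤ Real.log T := by
      rw [← Real.log_exp 1]; exact Real.log_le_log (Real.exp_pos 1) hT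
    have hL0 : 0 < Real.log T := by linarith
    have hA0 : 0 < T ^ e := by positivity
    have hRg : (Finset.Icc 1 ⌊T ^ (1 / 2 - e)⌋₊).filter (fun r : ℕ => Squarefree r ∧ T ^ e < (r : ℝ)) = Rg T e (1 / 2 - e) := rfl
    rw [hRg, sum_RA hT1 he]
    -- inner sums
    have hin : ∀ r ∈ Rg T e (1 / 2 - e),
        |(∑ a ∈ (Finset.Icc 1 ⌊(r:ℝ)⌋₊).filter (fun a : ℕ => T ^ e < (a : ℝ) ∧ Nat.Coprime a r), Fr f (Real.log T) (Real.log r) a) -
          (Nat.totient r : ℝ) / r * (Real.log T * Φ (Real.log r / Real.log T))| ≤ 16 * C * (r.divisors.card : ℝ) / T ^ e := by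
      intro r hr
      rw [mem_Rg hT1] at hr
      obtain ⟨hsq, hr1, hr2⟩ := hr
      have hr0 : (0:ℝ) < r := lt_trans hA0 hr1
      have h1 := cop_sum (r := r) (by rintro rfl; simp at hr0) (F := Fr f (Real.log T) (Real.log r)) (A := T ^ e) (B := r)
        (M := 2 * C / T ^ e) (V := 2 * C / T ^ e) hA0 hr1.le (Fr_smooth hf hL0 _) (by
          intro y hy
          have hy0 : 0 < y := lt_of_lt_of_le hA0 hy.1
          unfold Fr
          rw [abs_div, abs_of_pos hy0]
          apply div_le_div₀ (by positivity) _ hA0 hy.1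
          linarith [hCf (1 + (Real.log r - Real.log y) / Real.log T)]) (by
          have hle : ∀ y ∈ Icc (T ^ e) (r : ℝ), |deriv (Fr f (Real.log T) (Real.log r)) y| ≤ 2 * C / y ^ 2 := by
            intro y hy
            have hy0 : 0 < y := lt_of_lt_of_le hA0 hy.1
            rw [Fr_deriv hf _ _ hy0, abs_div, abs_neg, abs_of_pos (by positivity : (0:ℝ) < y ^ 2)]
            gcongr
            refine (abs_add_le _ _).trans ?_
            rw [abs_div, abs_of_pos hL0]
            have h2 : |deriv f (1 + (Real.log r - Real.log y) / Real.log T)| / Real.log T ≤ C := by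
              rw [div_le_iff₀ hL0]
              have h3 := hCf' (1 + (Real.log r - Real.log y) / Real.log T)
              nlinarith
            linarith [hCf (1 + (Real.log r - Real.log y) / Real.log T)]
          calc ∫ y in (T ^ e)..(r:ℝ), |deriv (Fr f (Real.log T) (Real.log r)) y| ≤ ∫ y in (T ^ e)..(r:ℝ), 2 * C / y ^ 2 := by
                apply intervalIntegral.integral_mono_on hr1.le
                · have hc : Continuous (deriv (Fr f (Real.log T) (Real.log r))) := (Fr_smooth hf hL0 _).continuous_deriv le_rfl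
                  exact hc.abs.intervalIntegrable _ _
                · apply ContinuousOn.intervalIntegrable
                  intro y hy
                  rw [uIcc_of_le hr1.le] at hy
                  have hy0 : y ≠ 0 := (lt_of_lt_of_le hA0 hy.1).ne'
                  exact (ContinuousAt.div continuousAt_const (continuousAt_id.pow 2) (pow_ne_zero 2 hy0)).continuousWithinAt
                · exact hle
            _ = 2 * C / T ^ e - 2 * C / r := inv_sq_int hA0 hr1.le _
            _ ≤ 2 * C / T ^ e := by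
                have : 0 ≤ 2 * C / (r:ℝ) := by positivity
                linarith)
      rw [Fr_int hfc hL0 hA0 hr1.le, Real.log_rpow hT0] at h1
      have h2 : Real.log T * GG f ((Real.log r - e * Real.log T) / Real.log T) - Real.log T * GG f ((Real.log r - Real.log r) / Real.log T) =
          Real.log T * Φ (Real.log r / Real.log T) := by
        have h3 : GG f 0 = 0 := by unfold GG; simp
        rw [sub_self, zero_div, h3, mul_zero, sub_zero, hΦ]
        simp only
        congr 2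
        field_simp
      rw [h2] at h1
      refine h1.trans (le_of_eq ?_)
      ring
    -- rewriting the sums
    have hrw : (1 / Real.log T ^ 2) * (∑ r ∈ Rg T e (1 / 2 - e), ∑ a ∈ (Finset.Icc 1 ⌊(r:ℝ)⌋₊).filter
        (fun a : ℕ => T ^ e < (a : ℝ) ∧ Nat.Coprime a r), mf (r, a).1 ^ 2 * (((r, a).1 : ℝ) / (r, a).2) * f (lr T (r, a))) -
        (1 / Real.log T) * ∑ r ∈ Rg T e (1 / 2 - e), 1 / (Nat.totient r : ℝ) * Φ (Real.log r / Real.log T) =
        (1 / Real.log T ^ 2) * ∑ r ∈ Rg T e (1 / 2 - e), ((r : ℝ) / (Nat.totient r : ℝ) ^ 2) *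
          ((∑ a ∈ (Finset.Icc 1 ⌊(r:ℝ)⌋₊).filter (fun a : ℕ => T ^ e < (a : ℝ) ∧ Nat.Coprime a r), Fr f (Real.log T) (Real.log r) a) -
          (Nat.totient r : ℝ) / r * (Real.log T * Φ (Real.log r / Real.log T))) := by
      have h1 : (1 / Real.log T) * ∑ r ∈ Rg T e (1 / 2 - e), 1 / (Nat.totient r : ℝ) * Φ (Real.log r / Real.log T) =
          (1 / Real.log T ^ 2) * ∑ r ∈ Rg T e (1 / 2 - e), ((r : ℝ) / (Nat.totient r : ℝ) ^ 2) *
            ((Nat.totient r : ℝ) / r * (Real.log T * Φ (Real.log r / Real.log T))) := by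
        rw [Finset.mul_sum, Finset.mul_sum]
        apply Finset.sum_congr rfl
        intro r hr
        rw [mem_Rg hT1] at hr
        have hr0 : (0:ℝ) < r := lt_trans hA0 hr.2.1
        have hφ : (0:ℝ) < Nat.totient r := by
          have : 0 < r := by exact_mod_cast hr0
          exact_mod_cast Nat.totient_pos.2 this
        field_simp
      rw [h1, ← mul_sub, ← Finset.sum_sub_distrib]
      congr 1
      apply Finset.sum_congr rfl
      intro r hr
      rw [mem_Rg hT1] at hr
      rw [mul_sub]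
      congr 1
      rw [Finset.mul_sum]
      apply Finset.sum_congr rfl
      intro a _
      have hmf : mf r ^ 2 = 1 / (Nat.totient r : ℝ) ^ 2 := by
        unfold mf
        rw [div_pow]
        congr 1
        have h2 : (ArithmeticFunction.moebius r) ^ 2 = 1 := by
          rw [ArithmeticFunction.moebius_sq_eq_one_of_squarefree hr.1]
        exact_mod_cast h2
      simp only [hmf]
      unfold Fr lr
      simp only
      ring
    rw [hrw, Real.norm_eq_abs, abs_mul, abs_of_pos (by positivity : (0:ℝ) < 1 / Real.log T ^ 2)]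
    have hmass := (abs_le.1 (Rg_mass hCφ hT1 he.le (b := 1 / 2 - e) (by linarith))).2
    have hterm : ∀ r ∈ Rg T e (1 / 2 - e), |((r : ℝ) / (Nat.totient r : ℝ) ^ 2) *
          ((∑ a ∈ (Finset.Icc 1 ⌊(r:ℝ)⌋₊).filter (fun a : ℕ => T ^ e < (a : ℝ) ∧ Nat.Coprime a r), Fr f (Real.log T) (Real.log r) a) -
          (Nat.totient r : ℝ) / r * (Real.log T * Φ (Real.log r / Real.log T)))| ≤
        16 * C * Cd ^ 2 / T ^ (e / 2) * (1 / (Nat.totient r : ℝ)) := by
      intro r hr
      have h1 := hin r hr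
      rw [mem_Rg hT1] at hr
      obtain ⟨hsq, hr1, hr2⟩ := hr
      have hr0 : (0:ℝ) < r := lt_trans hA0 hr1
      have hr0' : r ≠ 0 := by rintro rfl; simp at hr0
      have hφ : (0:ℝ) < Nat.totient r := by exact_mod_cast Nat.totient_pos.2 (Nat.pos_of_ne_zero hr0')
      have hτ := tot_ge hsq
      have hτ2 := hCd r hr0'
      have hrT : (r : ℝ) ≤ T := by
        refine hr2.trans ?_
        calc T ^ (1 / 2 - e) ≤ T ^ (1 : ℝ) := Real.rpow_le_rpow_of_exponent_le hT1.le (by linarith)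
          _ = T := Real.rpow_one T
      have hτ3 : (r.divisors.card : ℝ) ≤ Cd * T ^ (e / 4) := hτ2.trans (by gcongr)
      rw [abs_mul, abs_of_pos (by positivity : (0:ℝ) < (r : ℝ) / (Nat.totient r : ℝ) ^ 2)]
      have h2 : (r : ℝ) / (Nat.totient r : ℝ) ^ 2 ≤ (r.divisors.card : ℝ) * (1 / (Nat.totient r : ℝ)) := by
        rw [div_le_iff₀ (by positivity)]
        calc (r : ℝ) ≤ (r.divisors.card : ℝ) * (Nat.totient r : ℝ) := hτ
          _ = _ := by field_simp
      calc (r : ℝ) / (Nat.totient r : ℝ) ^ 2 * _ ≤ ((r.divisors.card : ℝ) * (1 / (Nat.totient r : ℝ))) *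
            (16 * C * (r.divisors.card : ℝ) / T ^ e) := by gcongr
        _ = 16 * C / T ^ e * (1 / (Nat.totient r : ℝ)) * (r.divisors.card : ℝ) ^ 2 := by ring
        _ ≤ 16 * C / T ^ e * (1 / (Nat.totient r : ℝ)) * (Cd * T ^ (e / 4)) ^ 2 := by gcongr
        _ = 16 * C * Cd ^ 2 / T ^ (e / 2) * (1 / (Nat.totient r : ℝ)) := by
            have h3 : (T ^ (e / 4)) ^ 2 = T ^ e / T ^ (e / 2) := by
              rw [← Real.rpow_natCast, ← Real.rpow_mul hT0.le, ← Real.rpow_sub hT0]
              congr 1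
              push_cast
              ring
            rw [mul_pow, h3]
            field_simp
    calc 1 / Real.log T ^ 2 * |∑ r ∈ Rg T e (1 / 2 - e), ((r : ℝ) / (Nat.totient r : ℝ) ^ 2) *
          ((∑ a ∈ (Finset.Icc 1 ⌊(r:ℝ)⌋₊).filter (fun a : ℕ => T ^ e < (a : ℝ) ∧ Nat.Coprime a r), Fr f (Real.log T) (Real.log r) a) -
          (Nat.totient r : ℝ) / r * (Real.log T * Φ (Real.log r / Real.log T)))|
        ≤ 1 * ∑ r ∈ Rg T e (1 / 2 - e), 16 * C * Cd ^ 2 / T ^ (e / 2) * (1 / (Nat.totient r : ℝ)) := by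
          gcongr
          · rw [div_le_one (by positivity)]
            exact one_le_pow₀ hL
          · exact (Finset.abs_sum_le_sum_abs _ _).trans (Finset.sum_le_sum hterm)
      _ = 16 * C * Cd ^ 2 / T ^ (e / 2) * ∑ r ∈ Rg T e (1 / 2 - e), 1 / (Nat.totient r : ℝ) := by
          rw [one_mul, ← Finset.mul_sum]
      _ ≤ 16 * C * Cd ^ 2 / T ^ (e / 2) * (Real.log T + 2 * Cφ) := by
          gcongr
          have h3 : (1 / 2 - e - e) * Real.log T ≤ Real.log T := by nlinarith
          linarith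
      _ = _ := by ring
  have hfin := hdiff.add hmain
  rw [zero_add] at hfin
  refine hfin.congr fun T => ?_
  ring

end Pool.Agent.Helper69.FF
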