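import Pool.Agent.Helper69.FF.HEq

/-!
# FF-HFar: H(x) far from the critical range

On the support of `k` one has `|y| < c`, so `|y - log (x/T)| ≥ 1` and `‖pc g (T (y - log (x/T)))‖ ≤ C/(1+T)^(N+2)` by `pc_decay`.
-/

open MeasureTheory Set Filter Topology
open Pool.Agent.Helper57.Zeta Pool.Agent.Helper57.PC Pool.Agent.Helper57.LH Pool.Agent.Helper78.SG
open Pool.Agent.Helper4.SH (om)
open scoped ContDiff

namespace Pool.Agent.Helper69.FF

theorem h46_norm_ee (x : ℝ) : ‖ee x‖ = 1 := by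
  unfold ee
  exact Complex.norm_exp_ofReal_mul_I _

theorem HH_far (g : TF) {k : ℝ → ℝ} {c : ℝ} (hk : KW g k c) (N : ℕ) : ∃ C : ℝ, 0 < C ∧ ∀ T x : ℝ, 1 ≤ T → 0 < x →
    c + 1 ≤ |Real.log (x / T)| → ‖HH g k T x‖ ≤ C / T ^ N := by
  obtain ⟨C, hC, hdec⟩ := pc_decay g (N + 2)
  have hc := hk.hc
  refine ⟨Real.exp (c / 2) * C * (2 * c), by positivity, fun T x hT hx hfar => ?_⟩
  have hT0 : 0 < T := by linarith
  rw [HH_eq g hk hT0 hx]
  have hzero : ∀ y, y ∉ Icc (-c) c → ((k y * Real.exp (y / 2) : ℝ) : ℂ) *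
      (ee (-(T * Real.exp y)) * pc g (T * (y - Real.log (x / T)))) = 0 := by
    intro y hy
    have h1 : c ≤ |y| := by
      by_contra h
      push Not at h
      exact hy ⟨(abs_lt.1 h).1.le, (abs_lt.1 h).2.le⟩
    rw [hk.supp y h1]
    simp
  rw [← setIntegral_eq_integral_of_forall_compl_eq_zero hzero]
  have hbd : ∀ y ∈ Icc (-c) c, ‖((k y * Real.exp (y / 2) : ℝ) : ℂ) *
      (ee (-(T * Real.exp y)) * pc g (T * (y - Real.log (x / T))))‖ ≤ Real.exp (c / 2) * (C / T ^ (N + 2)) := by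
    intro y hy
    have hy' : |y| ≤ c := abs_le.2 hy
    rw [norm_mul, norm_mul, h46_norm_ee, one_mul, Complex.norm_real, Real.norm_eq_abs,
      abs_of_nonneg (mul_nonneg (hk.nonneg y) (Real.exp_pos _).le)]
    have h1 : k y * Real.exp (y / 2) ≤ Real.exp (c / 2) := by
      calc k y * Real.exp (y / 2) ≤ 1 * Real.exp (c / 2) :=
            mul_le_mul (hk.le_one y) (Real.exp_le_exp.2 (by linarith [hy.2])) (Real.exp_pos _).le zero_le_one
        _ = _ := one_mul _
    have h2 : T ≤ |T * (y - Real.log (x / T))| := by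
      rw [abs_mul, abs_of_pos hT0]
      apply le_mul_of_one_le_right hT0.le
      have h3 := abs_sub_abs_le_abs_sub (Real.log (x / T)) y
      rw [abs_sub_comm] at h3
      linarith
    have h3 : ‖pc g (T * (y - Real.log (x / T)))‖ ≤ C / T ^ (N + 2) := by
      refine (hdec _).trans ?_
      apply div_le_div_of_nonneg_left hC.le (by positivity)
      exact pow_le_pow_left₀ hT0.le (by linarith) _
    exact mul_le_mul h1 h3 (norm_nonneg _) (Real.exp_pos _).le
  have hint := norm_setIntegral_le_of_norm_le_const (μ := volume) (s := Icc (-c) c) (by rw [Real.volume_Icc]; exact ENNReal.ofReal_lt_top)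
    hbd
  rw [Real.volume_real_Icc_of_le (by linarith)] at hint
  rw [norm_mul, Complex.norm_real, Real.norm_eq_abs, abs_of_nonneg (by positivity)]
  have hs : Real.sqrt T ≤ T := by
    rw [Real.sqrt_le_left hT0.le, pow_two]
    exact le_mul_of_one_le_left hT0.le hT
  calc T * Real.sqrt T * ‖∫ y in Icc (-c) c, ((k y * Real.exp (y / 2) : ℝ) : ℂ) *
        (ee (-(T * Real.exp y)) * pc g (T * (y - Real.log (x / T))))‖
      ≤ T * T * (Real.exp (c / 2) * (C / T ^ (N + 2)) * (c - -c)) := by gcongr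
    _ = Real.exp (c / 2) * C * (2 * c) / T ^ N := by
      rw [pow_add]
      field_simp
      ring

end Pool.Agent.Helper69.FF
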