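import Pool.Agent.Helper69.FF.Defs
import Pool.Agent.Helper13.MobB

/-!
# FF-MG: the Gamma integral

Mathlib: `Complex.integral_cpow_mul_exp_neg_mul_Ioi` (`∫_0^∞ u^(s-1) e^(-z u) du = (1/z)^s Γ(s)`, `Re z > 0`) with `s = 1/2 - it`, `z = δ - 2πi`.
`|Γ(1/2-it)|² = Γ(1/2-it) Γ(1/2+it) = π/sin(π(1/2+it)) = π/cosh(π t)` (`Complex.Gamma_mul_Gamma_one_sub`, `Complex.Gamma_conj`);
`|z^(-(1/2-it))|² = |z|^(-1) e^(-2 t arg z)`, `|z| ≥ 2π`, `-π/2 < arg z < 0`, so for `t ≥ 0` it is `≤ e^(π t)/(2π)`, and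
`π/cosh(π t) · e^(π t)/(2π) = 1/(1 + e^(-2π t)) ≤ 1`.
-/

open MeasureTheory Set Filter Topology
open Pool.Agent.Helper57.Zeta Pool.Agent.Helper57.PC Pool.Agent.Helper57.LH Pool.Agent.Helper78.SG
open Pool.Agent.Helper4.SH (om)
open scoped ContDiff

namespace Pool.Agent.Helper69.FF

/-- `J_δ(t) = ∫_0^∞ u^(-1/2-it) e^(-(δ - 2π i) u) du` -/
noncomputable def JJ (δ t : ℝ) : ℂ :=
  ∫ u in Ioi (0:ℝ), (((u : ℝ) ^ (-(1:ℝ) / 2) * Real.exp (-(δ * u)) : ℝ) : ℂ) * (ee u * xp t u)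

private theorem JJ_eq_h36 {δ t : ℝ} (hδ : 0 < δ) :
    JJ δ t = ((δ : ℂ) - 2 * Real.pi * Complex.I) ^ (-((1 / 2 : ℂ) - t * Complex.I)) *
      Complex.Gamma ((1 / 2 : ℂ) - t * Complex.I) := by
  have ha : 0 < ((1 / 2 : ℂ) - t * Complex.I).re := by simp
  have hr : 0 < ((δ : ℂ) - 2 * Real.pi * Complex.I).re := by simpa using hδ
  rw [← Pool.Agent.Helper13.Mob.cgamma ha hr]
  unfold JJ
  refine setIntegral_congr_fun measurableSet_Ioi fun u hu => ?_
  have hu0 : (0 : ℝ) < u := hu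
  have h1 : (u : ℂ) ≠ 0 := by exact_mod_cast hu0.ne'
  rw [Complex.cpow_def_of_ne_zero h1, ← Complex.ofReal_log hu0.le]
  have h2 : (((u ^ (-(1:ℝ) / 2) * Real.exp (-(δ * u)) : ℝ)) : ℂ) =
      Complex.exp ((Real.log u : ℂ) * (-(1 : ℂ) / 2)) * Complex.exp (-((δ : ℂ) * u)) := by
    rw [Real.rpow_def_of_pos hu0]
    push_cast
    rfl
  rw [h2]
  unfold ee xp
  rw [← Complex.exp_add, ← Complex.exp_add, ← Complex.exp_add, ← Complex.exp_add]
  congr 1
  push_cast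
  ring

private theorem Gamma_sq_h36 (t : ℝ) :
    ‖Complex.Gamma ((1 / 2 : ℂ) - t * Complex.I)‖ ^ 2 = Real.pi / Real.cosh (Real.pi * t) := by
  set s : ℂ := (1 / 2 : ℂ) - t * Complex.I with hs
  have h1 : (1 : ℂ) - s = (starRingEnd ℂ) s := by
    rw [hs, map_sub, map_mul, Complex.conj_I, Complex.conj_ofReal, map_div₀, map_one, map_ofNat]
    ring
  have h2 := Complex.Gamma_mul_Gamma_one_sub s
  rw [h1, Complex.Gamma_conj] at h2
  have h3 : ‖Complex.Gamma s‖ ^ 2 = ‖(Real.pi : ℂ) / Complex.sin (Real.pi * s)‖ := by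
    rw [← h2, norm_mul, Complex.norm_conj, pow_two]
  rw [h3, norm_div, Complex.norm_real, Real.norm_of_nonneg Real.pi_pos.le]
  congr 1
  have h4 : (Real.pi : ℂ) * s = (Real.pi : ℂ) / 2 - ((Real.pi * t : ℝ) : ℂ) * Complex.I := by
    rw [hs]
    push_cast
    ring
  rw [h4, Complex.sin_pi_div_two_sub, Complex.cos_mul_I, ← Complex.ofReal_cosh, Complex.norm_real,
    Real.norm_of_nonneg (Real.cosh_pos _).le]

theorem JJ_le {δ t : ℝ} (hδ : 0 < δ) (ht : 0 ≤ t) : ‖JJ δ t‖ ≤ 1 := by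
  have hpi := Real.pi_pos
  rw [JJ_eq_h36 hδ]
  set z : ℂ := (δ : ℂ) - 2 * Real.pi * Complex.I with hz
  set a : ℂ := (1 / 2 : ℂ) - t * Complex.I with ha
  have hzre : z.re = δ := by simp [hz]
  have hzim : z.im = -(2 * Real.pi) := by simp [hz]
  have hz0 : z ≠ 0 := by
    intro h
    rw [h] at hzre
    simp at hzre
    linarith
  have hare : (-a).re = -(1 / 2) := by simp [ha]
  have haim : (-a).im = t := by simp [ha]
  have hnz : 2 * Real.pi ≤ ‖z‖ := by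
    have h1 := Complex.abs_im_le_norm z
    rw [hzim, abs_neg, abs_of_pos (by positivity)] at h1
    exact h1
  have hnz0 : 0 < ‖z‖ := norm_pos_iff.2 hz0
  have harg : -(Real.pi / 2) ≤ z.arg := by
    have h1 : 0 < z.re := by rw [hzre]; exact hδ
    exact (abs_le.1 (Complex.abs_arg_le_pi_div_two_iff.2 h1.le)).1
  have h1 : ‖z ^ (-a)‖ ^ 2 ≤ 1 / (2 * Real.pi) * Real.exp (Real.pi * t) := by
    have e0 : (‖z‖ ^ (-(1 / 2) : ℝ)) ^ 2 = 1 / ‖z‖ := by
      rw [Real.rpow_neg hnz0.le, ← Real.sqrt_eq_rpow, inv_pow, Real.sq_sqrt hnz0.le, one_div]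
    rw [Complex.norm_cpow_of_ne_zero hz0, hare, haim, div_pow, e0, ← Real.exp_nat_mul]
    have e1 : Real.exp (-(Real.pi * t)) ≤ Real.exp (((2 : ℕ) : ℝ) * (z.arg * t)) := by
      apply Real.exp_le_exp.2
      push_cast
      nlinarith
    have e2 : 1 / ‖z‖ ≤ 1 / (2 * Real.pi) := one_div_le_one_div_of_le (by positivity) hnz
    have e3 : Real.exp (Real.pi * t) = 1 / Real.exp (-(Real.pi * t)) := by
      rw [Real.exp_neg, one_div, inv_inv]
    rw [e3, ← mul_one_div (1 / ‖z‖)]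
    refine mul_le_mul e2 (one_div_le_one_div_of_le (Real.exp_pos _) e1) (by positivity) (by positivity)
  have h2 := Gamma_sq_h36 t
  rw [← ha] at h2
  have h3 : ‖z ^ (-a) * Complex.Gamma a‖ ^ 2 ≤ 1 := by
    rw [norm_mul, mul_pow, h2]
    refine (mul_le_mul_of_nonneg_right h1 (by positivity)).trans ?_
    have h4 : 1 / (2 * Real.pi) * Real.exp (Real.pi * t) * (Real.pi / Real.cosh (Real.pi * t)) =
        Real.exp (Real.pi * t) / (2 * Real.cosh (Real.pi * t)) := by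
      have := (Real.cosh_pos (Real.pi * t)).ne'
      field_simp
    rw [h4, div_le_one (by positivity), Real.cosh_eq]
    have := Real.exp_pos (-(Real.pi * t))
    linarith
  have h4 := norm_nonneg (z ^ (-a) * Complex.Gamma a)
  nlinarith

end Pool.Agent.Helper69.FF
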