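import Pool.Agent.Helper69.FF.MR
import Pool.Agent.Helper69.FF.MG

/-!
# FF-Mle: |m(t)| ≤ 1 + C/sqrt T

Substitute `u = T e^y` in `mm`: `mm k T t = ∫_0^∞ u^(-1/2) k(log(u/T)) e(u) u^(-it) du` (`u^(-it) = xp t u`, `xp t T exp(-ity) = xp t (T e^y)`).
For `0 < δ ≤ 1/T`: `∫_0^∞ u^(-1/2) e^(-δu) k e(u) xp = JJ δ t - RR`, norm `≤ 1 + C/sqrt T` (`JJ_le`, `RR_le`; all integrals converge absolutely for `δ > 0`);
let `δ → 0` by dominated convergence (`k(log(u/T))` has compact support in `u ∈ (0,∞)`). `om g.h T t ≠ 0` gives `t ≥ 0`.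
`mm_cont`: continuity under the integral sign (compact support).
-/

open MeasureTheory Set Filter Topology
open Pool.Agent.Helper57.Zeta Pool.Agent.Helper57.PC Pool.Agent.Helper57.LH Pool.Agent.Helper78.SG
open Pool.Agent.Helper4.SH (om)
open scoped ContDiff

namespace Pool.Agent.Helper69.FF

private theorem m53_ee_norm (x : ℝ) : ‖ee x‖ = 1 := by
  unfold ee
  exact Complex.norm_exp_ofReal_mul_I _

private theorem m53_xp_norm (t x : ℝ) : ‖xp t x‖ = 1 := by
  unfold xp
  have : -(((t * Real.log x : ℝ) : ℂ) * Complex.I) = ((-(t * Real.log x) : ℝ) : ℂ) * Complex.I := by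
    push_cast; ring
  rw [this]
  exact Complex.norm_exp_ofReal_mul_I _

private theorem m53_ex_norm (x : ℝ) : ‖Complex.exp (-((x : ℂ) * Complex.I))‖ = 1 := by
  have : -((x : ℂ) * Complex.I) = ((-x : ℝ) : ℂ) * Complex.I := by
    push_cast; ring
  rw [this]
  exact Complex.norm_exp_ofReal_mul_I _

private theorem m53_k_cs {g : TF} {k : ℝ → ℝ} {c : ℝ} (hk : KW g k c) : HasCompactSupport k := by
  refine HasCompactSupport.intro (isCompact_Icc (a := -c) (b := c)) fun x hx => hk.supp x ?_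
  by_contra h
  rw [not_le, abs_lt] at h
  exact hx ⟨h.1.le, h.2.le⟩

private theorem m53_ke_int {g : TF} {k : ℝ → ℝ} {c : ℝ} (hk : KW g k c) :
    Integrable (fun y : ℝ => k y * Real.exp (y / 2)) := by
  have hc : Continuous (fun y : ℝ => k y * Real.exp (y / 2)) := hk.smooth.continuous.mul (by fun_prop)
  exact hc.integrable_of_hasCompactSupport ((m53_k_cs hk).mul_right)

theorem mm_cont (g : TF) {k : ℝ → ℝ} {c : ℝ} (hk : KW g k c) (T : ℝ) : Continuous (fun t => mm k T t) := by
  unfold mm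
  have h1 : Continuous (fun t : ℝ => xp t T) := by
    unfold xp
    fun_prop
  refine (continuous_const.mul h1).mul ?_
  have hkc := hk.smooth.continuous
  refine continuous_of_dominated (bound := fun y => ‖k y * Real.exp (y / 2)‖) ?_ ?_ (m53_ke_int hk).norm ?_
  · intro t
    refine Continuous.aestronglyMeasurable ?_
    unfold ee
    fun_prop
  · intro t
    refine Eventually.of_forall fun y => ?_
    rw [norm_mul, norm_mul, m53_ee_norm, m53_ex_norm, Complex.norm_real, mul_one, mul_one]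
  · refine Eventually.of_forall fun y => ?_
    unfold ee
    fun_prop

private theorem m53_img {T : ℝ} (hT : 0 < T) : (fun y : ℝ => T * Real.exp y) '' univ = Ioi 0 := by
  ext u
  simp only [mem_image, mem_univ, true_and, mem_Ioi]
  constructor
  · rintro ⟨y, rfl⟩
    positivity
  · intro hu
    refine ⟨Real.log (u / T), ?_⟩
    rw [Real.exp_log (by positivity)]
    field_simp

private theorem m53_der (T : ℝ) : ∀ y ∈ (univ : Set ℝ), HasDerivWithinAt (fun y : ℝ => T * Real.exp y) (T * Real.exp y) univ y :=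
  fun y _ => ((Real.hasDerivAt_exp y).const_mul T).hasDerivWithinAt

private theorem m53_inj {T : ℝ} (hT : 0 < T) : InjOn (fun y : ℝ => T * Real.exp y) univ := by
  intro x _ y _ h
  exact Real.exp_injective (mul_left_cancel₀ hT.ne' h)

private theorem m53_pow {T y : ℝ} (hT : 0 < T) :
    |T * Real.exp y| * ((T * Real.exp y) ^ (-(1:ℝ) / 2)) = Real.sqrt T * Real.exp (y / 2) := by
  have h0 : 0 < T * Real.exp y := by positivity
  rw [abs_of_pos h0]
  have h1 : (T * Real.exp y) * (T * Real.exp y) ^ (-(1:ℝ) / 2) = (T * Real.exp y) ^ (1 / 2 : ℝ) := by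
    nth_rewrite 1 [← Real.rpow_one (T * Real.exp y)]
    rw [← Real.rpow_add h0]
    norm_num
  rw [h1, ← Real.sqrt_eq_rpow, Real.sqrt_mul hT.le, Real.exp_half]

private theorem m53_dom {g : TF} {k : ℝ → ℝ} {c : ℝ} (hk : KW g k c) {T : ℝ} (hT : 0 < T) :
    IntegrableOn (fun u : ℝ => u ^ (-(1:ℝ) / 2) * k (Real.log (u / T))) (Ioi 0) := by
  rw [← m53_img hT, integrableOn_image_iff_integrableOn_abs_deriv_smul MeasurableSet.univ (m53_der T) (m53_inj hT),
    integrableOn_univ]
  refine ((m53_ke_int hk).const_mul (Real.sqrt T)).congr (Eventually.of_forall fun y => ?_)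
  show Real.sqrt T * (k y * Real.exp (y / 2)) = |T * Real.exp y| • ((T * Real.exp y) ^ (-(1:ℝ) / 2) * k (Real.log (T * Real.exp y / T)))
  have h2 := m53_pow (y := y) hT
  rw [smul_eq_mul, mul_div_cancel_left₀ _ hT.ne', Real.log_exp]
  calc Real.sqrt T * (k y * Real.exp (y / 2)) = Real.sqrt T * Real.exp (y / 2) * k y := by ring
    _ = |T * Real.exp y| * ((T * Real.exp y) ^ (-(1:ℝ) / 2)) * k y := by rw [h2]
    _ = _ := by ring

private theorem m53_sub {g : TF} {k : ℝ → ℝ} {c : ℝ} (_hk : KW g k c) {T : ℝ} (hT : 0 < T) (t : ℝ) :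
    ∫ u in Ioi (0:ℝ), ((u ^ (-(1:ℝ) / 2) * k (Real.log (u / T)) : ℝ) : ℂ) * (ee u * xp t u) = mm k T t := by
  rw [← m53_img hT, integral_image_eq_integral_abs_deriv_smul MeasurableSet.univ (m53_der T) (m53_inj hT),
    setIntegral_univ]
  unfold mm
  rw [← integral_const_mul]
  congr 1
  funext y
  have h1 : xp t (T * Real.exp y) = xp t T * Complex.exp (-(((t * y : ℝ) : ℂ) * Complex.I)) := by
    unfold xp
    rw [Real.log_mul hT.ne' (Real.exp_pos y).ne', Real.log_exp, ← Complex.exp_add]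
    congr 1
    push_cast
    ring
  rw [h1, mul_div_cancel_left₀ _ hT.ne', Real.log_exp, Complex.real_smul]
  have h2 := m53_pow (y := y) hT
  have h3 : ((|T * Real.exp y| : ℝ) : ℂ) * (((T * Real.exp y) ^ (-(1:ℝ) / 2) * k y : ℝ) : ℂ) =
      ((Real.sqrt T * Real.exp (y / 2) * k y : ℝ) : ℂ) := by
    rw [← Complex.ofReal_mul, ← mul_assoc, h2]
  rw [← mul_assoc, h3]
  push_cast
  ring

private theorem m53_gam {δ : ℝ} (hδ : 0 < δ) : IntegrableOn (fun u : ℝ => u ^ (-(1:ℝ) / 2) * Real.exp (-(δ * u))) (Ioi 0) := by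
  have h := integrableOn_rpow_mul_exp_neg_mul_rpow (p := 1) (s := -(1:ℝ) / 2) (b := δ) (by norm_num) one_pos hδ
  refine h.congr_fun (fun u _ => ?_) measurableSet_Ioi
  show u ^ (-(1:ℝ) / 2) * Real.exp (-δ * u ^ (1:ℝ)) = _
  rw [Real.rpow_one, neg_mul]

private theorem m53_uni (t : ℝ) : Measurable (fun u : ℝ => ee u * xp t u) := by
  unfold ee xp
  fun_prop

theorem mm_le (g : TF) {k : ℝ → ℝ} {c : ℝ} (hk : KW g k c) : ∃ C : ℝ, 0 < C ∧ ∀ T t : ℝ, 1 ≤ T → om g.h T t ≠ 0 →
    ‖mm k T t‖ ≤ 1 + C / Real.sqrt T := by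
  obtain ⟨C, hC, hR⟩ := RR_le g hk
  refine ⟨C, hC, fun T t hT hom => ?_⟩
  have hT0 : 0 < T := by linarith
  have ht : 0 ≤ t := by
    unfold Pool.Agent.Helper4.SH.om at hom
    have h1 : |t / T - 1 / 2| < g.th := by
      by_contra h
      rw [not_lt] at h
      exact hom (g.supp _ h)
    rw [abs_lt] at h1
    have h2 := g.th1
    have h3 : 0 < t / T := by linarith [h1.1]
    have h4 : t = t / T * T := by field_simp
    rw [h4]
    positivity
  have hkm : Measurable (fun u : ℝ => k (Real.log (u / T))) := by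
    have := hk.smooth.continuous.measurable
    fun_prop
  -- bound for positive `δ`
  have hb : ∀ δ : ℝ, 0 < δ → δ ≤ 1 / T →
      ‖∫ u in Ioi (0:ℝ), ((u ^ (-(1:ℝ) / 2) * Real.exp (-(δ * u)) * k (Real.log (u / T)) : ℝ) : ℂ) * (ee u * xp t u)‖ ≤
        1 + C / Real.sqrt T := by
    intro δ hδ hδT
    have i1 : IntegrableOn (fun u : ℝ => ((u ^ (-(1:ℝ) / 2) * Real.exp (-(δ * u)) : ℝ) : ℂ) * (ee u * xp t u)) (Ioi 0) := by
      refine (m53_gam hδ).mono' ?_ ?_
      · refine Measurable.aestronglyMeasurable ?_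
        have := m53_uni t
        fun_prop
      · refine (ae_restrict_iff' measurableSet_Ioi).2 (Eventually.of_forall fun u hu => ?_)
        have hu0 : (0:ℝ) < u := hu
        rw [norm_mul, norm_mul, m53_ee_norm, m53_xp_norm, mul_one, mul_one, Complex.norm_real, Real.norm_eq_abs,
          abs_of_nonneg (by positivity)]
    have i2 : IntegrableOn (fun u : ℝ => ((u ^ (-(1:ℝ) / 2) * Real.exp (-(δ * u)) * (1 - k (Real.log (u / T))) : ℝ) : ℂ) * (ee u * xp t u)) (Ioi 0) := by
      refine (m53_gam hδ).mono' ?_ ?_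
      · refine Measurable.aestronglyMeasurable ?_
        have q1 : Measurable (fun u : ℝ => u ^ (-(1:ℝ) / 2) * Real.exp (-(δ * u))) := by fun_prop
        exact (Complex.measurable_ofReal.comp (q1.mul (measurable_const.sub hkm))).mul (m53_uni t)
      · refine (ae_restrict_iff' measurableSet_Ioi).2 (Eventually.of_forall fun u hu => ?_)
        have hu0 : (0:ℝ) < u := hu
        have e1 := hk.le_one (Real.log (u / T))
        have e2 := hk.nonneg (Real.log (u / T))
        have e3 : 0 ≤ u ^ (-(1:ℝ) / 2) * Real.exp (-(δ * u)) := by positivity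
        rw [norm_mul, norm_mul, m53_ee_norm, m53_xp_norm, mul_one, mul_one, Complex.norm_real, Real.norm_eq_abs,
          abs_of_nonneg (mul_nonneg e3 (by linarith))]
        calc _ ≤ u ^ (-(1:ℝ) / 2) * Real.exp (-(δ * u)) * 1 := mul_le_mul_of_nonneg_left (by linarith) e3
          _ = _ := mul_one _
    have e : ∫ u in Ioi (0:ℝ), ((u ^ (-(1:ℝ) / 2) * Real.exp (-(δ * u)) * k (Real.log (u / T)) : ℝ) : ℂ) * (ee u * xp t u) =
        JJ δ t - ∫ u in Ioi (0:ℝ), ((u ^ (-(1:ℝ) / 2) * Real.exp (-(δ * u)) * (1 - k (Real.log (u / T))) : ℝ) : ℂ) *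
          (ee u * xp t u) := by
      unfold JJ
      rw [← integral_sub i1 i2]
      congr 1
      funext u
      push_cast
      ring
    rw [e]
    exact (norm_sub_le _ _).trans (add_le_add (JJ_le hδ ht) (hR T t δ hT hom hδ hδT))
  -- the limit
  have hlim : Tendsto (fun n : ℕ => ∫ u in Ioi (0:ℝ), ((u ^ (-(1:ℝ) / 2) * Real.exp (-(1 / (T * (n + 1)) * u)) *
      k (Real.log (u / T)) : ℝ) : ℂ) * (ee u * xp t u)) atTop
      (𝓝 (∫ u in Ioi (0:ℝ), ((u ^ (-(1:ℝ) / 2) * k (Real.log (u / T)) : ℝ) : ℂ) * (ee u * xp t u))) := by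
    refine tendsto_integral_of_dominated_convergence (fun u : ℝ => u ^ (-(1:ℝ) / 2) * k (Real.log (u / T))) ?_
      (m53_dom hk hT0) ?_ ?_
    · intro n
      refine Measurable.aestronglyMeasurable ?_
      have q1 : Measurable (fun u : ℝ => u ^ (-(1:ℝ) / 2) * Real.exp (-(1 / (T * ((n : ℝ) + 1)) * u))) := by fun_prop
      exact (Complex.measurable_ofReal.comp (q1.mul hkm)).mul (m53_uni t)
    · intro n
      refine (ae_restrict_iff' measurableSet_Ioi).2 (Eventually.of_forall fun u hu => ?_)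
      have hu0 : (0:ℝ) < u := hu
      have e2 := hk.nonneg (Real.log (u / T))
      have e3 : Real.exp (-(1 / (T * (n + 1)) * u)) ≤ 1 := by
        rw [Real.exp_le_one_iff]
        have : 0 ≤ 1 / (T * ((n : ℝ) + 1)) * u := by positivity
        linarith
      have e4 : 0 ≤ u ^ (-(1:ℝ) / 2) := by positivity
      have e5 : 0 ≤ Real.exp (-(1 / (T * ((n : ℝ) + 1)) * u)) := (Real.exp_pos _).le
      rw [norm_mul, norm_mul, m53_ee_norm, m53_xp_norm, mul_one, mul_one, Complex.norm_real, Real.norm_eq_abs,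
        abs_of_nonneg (mul_nonneg (mul_nonneg e4 e5) e2)]
      exact mul_le_mul_of_nonneg_right (mul_le_of_le_one_right e4 e3) e2
    · refine Eventually.of_forall fun u => ?_
      refine Tendsto.mul_const _ ?_
      refine (Complex.continuous_ofReal.tendsto _).comp ?_
      refine Tendsto.mul_const _ ?_
      have h1 : Tendsto (fun n : ℕ => 1 / (T * ((n : ℝ) + 1)) * u) atTop (𝓝 0) := by
        have h2 := (tendsto_one_div_add_atTop_nhds_zero_nat (𝕜 := ℝ)).const_mul (u / T)
        rw [mul_zero] at h2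
        refine h2.congr fun n => ?_
        field_simp
      have h3 := (Real.continuous_exp.tendsto _).comp h1.neg
      rw [neg_zero, Real.exp_zero] at h3
      have h4 := h3.const_mul (u ^ (-(1:ℝ) / 2))
      rw [mul_one] at h4
      exact h4
  rw [← m53_sub hk hT0 t]
  refine le_of_tendsto hlim.norm (Eventually.of_forall fun n => ?_)
  refine hb _ (by positivity) ?_
  rw [one_div_le_one_div (by positivity) hT0]
  have : (0:ℝ) ≤ n := Nat.cast_nonneg n
  nlinarith

end Pool.Agent.Helper69.FF
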