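import Pool.Agent.Helper69.FF.DSum

/-!
# FF-DSq: the mean square of D

`‖DD‖² = ∑_x ∑_y c_x c_y cos(t (log(r_x/a_x) - log(r_y/a_y)))`, `c_x = mf √(r/a) v(lr)/L` (real coefficients). Apply `gmv` (Helper4/SH/GMV) to the pairs `(x,y)` with
`a = r_x a_y`, `b = r_y a_x` (`log a - log b` is the frequency; `min ≤ r_x a_y ≤ T^(1-2e)`), `K` large. `a = b` iff `x = y` (reduced fractions). The diagonal is
`T (∫ g.h) ∑_x c_x²`, and `∑_x c_x² = L^(-2) ∑ mf² (r/a) v(lr)²` tends to `VE e (v²)` by `dsum_lim`.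
-/

open MeasureTheory Set Filter Topology
open Pool.Agent.Helper57.Zeta Pool.Agent.Helper57.PC Pool.Agent.Helper57.LH Pool.Agent.Helper78.SG
open Pool.Agent.Helper4.SH (om)
open scoped ContDiff

namespace Pool.Agent.Helper69.FF

private lemma xp_re (t x : ℝ) : (xp t x).re = Real.cos (t * Real.log x) := by
  unfold xp
  rw [← neg_mul, ← Complex.ofReal_neg, Complex.exp_ofReal_mul_I_re, Real.cos_neg]

private lemma xp_im (t x : ℝ) : (xp t x).im = -Real.sin (t * Real.log x) := by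
  unfold xp
  rw [← neg_mul, ← Complex.ofReal_neg, Complex.exp_ofReal_mul_I_im, Real.sin_neg]

/-- the squared modulus of a sum with real coefficients -/
private lemma norm_sq_sum {ι : Type} (S : Finset ι) (c : ι → ℝ) (z : ι → ℝ) (t : ℝ) :
    ‖∑ x ∈ S, ((c x : ℝ) : ℂ) * xp t (z x)‖ ^ 2 =
      ∑ p ∈ S ×ˢ S, c p.1 * c p.2 * Real.cos (t * (Real.log (z p.1) - Real.log (z p.2))) := by
  have h1 : (∑ x ∈ S, ((c x : ℝ) : ℂ) * xp t (z x)).re = ∑ x ∈ S, c x * Real.cos (t * Real.log (z x)) := by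
    rw [Complex.re_sum]
    exact Finset.sum_congr rfl fun x _ => by rw [Complex.re_ofReal_mul, xp_re]
  have h2 : (∑ x ∈ S, ((c x : ℝ) : ℂ) * xp t (z x)).im = ∑ x ∈ S, -(c x * Real.sin (t * Real.log (z x))) := by
    rw [Complex.im_sum]
    exact Finset.sum_congr rfl fun x _ => by rw [Complex.im_ofReal_mul, xp_im]; ring
  rw [← Complex.normSq_eq_norm_sq, Complex.normSq_apply, h1, h2, Finset.sum_mul_sum, Finset.sum_mul_sum,
    ← Finset.sum_add_distrib, Finset.sum_product]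
  refine Finset.sum_congr rfl fun x _ => ?_
  rw [← Finset.sum_add_distrib]
  refine Finset.sum_congr rfl fun y _ => ?_
  simp only
  rw [mul_sub, Real.cos_sub]
  ring

private lemma wr_bdd {v : ℝ → ℝ} {a b : ℝ} (hv : WR v a b) : ∃ B : ℝ, 0 ≤ B ∧ ∀ x, |v x| ≤ B := by
  obtain ⟨hs, ha, hab, hsu⟩ := hv
  obtain ⟨B, hB⟩ := (isCompact_Icc (a := a) (b := b)).exists_bound_of_continuousOn hs.continuous.continuousOn
  refine ⟨B, (norm_nonneg _).trans (hB a ⟨le_rfl, hab⟩), fun x => ?_⟩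
  by_cases h : v x = 0
  · rw [h, abs_zero]; exact (norm_nonneg _).trans (hB a ⟨le_rfl, hab⟩)
  · exact hB x ⟨(hsu x h).1, (hsu x h).2⟩

private lemma mf_le (r : ℕ) : |mf r| ≤ 1 := by
  unfold mf
  rcases Nat.eq_zero_or_pos r with rfl | hr
  · simp
  rw [abs_div]
  have h1 : |((ArithmeticFunction.moebius r : ℤ) : ℝ)| ≤ 1 := by
    have := ArithmeticFunction.abs_moebius_le_one (n := r)
    exact_mod_cast this
  have h2 : (1 : ℝ) ≤ (Nat.totient r : ℝ) := by exact_mod_cast Nat.totient_pos.2 hr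
  rw [abs_of_nonneg (by linarith : (0:ℝ) ≤ (Nat.totient r : ℝ))]
  rw [div_le_one (by linarith)]
  linarith

theorem DD_sq (g : TF) {v : ℝ → ℝ} {a' b' e : ℝ} (hv : WR v a' b') (ha' : 1 < a') (hb' : b' < 3 / 2) (he : 0 < e) (he1 : e < 1 / 4) :
    Tendsto (fun T : ℝ => (∫ t, om g.h T t * ‖DD v e T t‖ ^ 2) / T) atTop
      (𝓝 ((∫ x, g.h x) * VE e (fun x => v x ^ 2))) := by
  obtain ⟨K, hK⟩ := exists_nat_ge (4 / e)
  have hK' : 8 ≤ 2 * e * K := by
    rw [div_le_iff₀ he] at hK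
    linarith
  obtain ⟨C, hC, hg⟩ := Pool.Agent.Helper4.SH.gmv g (δ := 2 * e) (by linarith) K
  obtain ⟨B, hB0, hB⟩ := wr_bdd hv
  have hv2 : WR (fun x => v x ^ 2) a' b' := by
    obtain ⟨hs, ha, hab, hsu⟩ := hv
    exact ⟨hs.pow 2, ha, hab, fun x hx => hsu x (fun h => hx (by simp [h]))⟩
  have hlim := dsum_lim hv2 ha' hb' he he1
  have hlim2 := hlim.const_mul (∫ x, g.h x)
  -- the difference tends to zero
  have key : ∀ᶠ T : ℝ in atTop, ‖(∫ t, om g.h T t * ‖DD v e T t‖ ^ 2) / T -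
      (∫ x, g.h x) * ((1 / Real.log T ^ 2) * ∑ x ∈ RA e T, mf x.1 ^ 2 * ((x.1 : ℝ) / x.2) * v (lr T x) ^ 2)‖ ≤
      C * B ^ 2 * T ^ (-(1:ℝ)) := by
    filter_upwards [eventually_ge_atTop (Real.exp 1)] with T hT
    have hT1 : 1 ≤ T := (Real.one_le_exp (by norm_num)).trans hT
    have hT0 : 0 < T := by linarith
    have hL : 1 ≤ Real.log T := by
      rw [Real.le_log_iff_exp_le hT0]; exact hT
    have hmem : ∀ x ∈ RA e T, 1 ≤ x.1 ∧ 1 ≤ x.2 ∧ (x.1 : ℝ) ≤ T ^ (1 / 2 - e) ∧ x.2 ≤ x.1 ∧ Nat.Coprime x.2 x.1 := by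
      intro x hx
      unfold RA at hx
      simp only [Finset.mem_filter, Finset.mem_product, Finset.mem_Icc] at hx
      exact ⟨hx.1.1.1, hx.1.2.1, hx.2.2.1, hx.2.2.2.2.1, hx.2.2.2.2.2⟩
    have hcard : ((RA e T).card : ℝ) ≤ T ^ 2 := by
      have h1 : (RA e T).card ≤ ⌊T⌋₊ * ⌊T⌋₊ := by
        refine (Finset.card_filter_le _ _).trans ?_
        rw [Finset.card_product, Nat.card_Icc]
        simp
      have h2 : ((⌊T⌋₊ : ℕ) : ℝ) ≤ T := Nat.floor_le hT0.le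
      calc ((RA e T).card : ℝ) ≤ ((⌊T⌋₊ * ⌊T⌋₊ : ℕ) : ℝ) := by exact_mod_cast h1
        _ = (⌊T⌋₊ : ℝ) * ⌊T⌋₊ := by push_cast; ring
        _ ≤ T * T := by gcongr
        _ = T ^ 2 := by ring
    set c : ℕ × ℕ → ℝ := fun x => mf x.1 * Real.sqrt ((x.1 : ℝ) / x.2) * v (lr T x) / Real.log T with hc
    have hcle : ∀ x ∈ RA e T, |c x| ≤ B * Real.sqrt T := by
      intro x hx
      obtain ⟨h1, h2, h3, h4, h5⟩ := hmem x hx
      have h2' : (1 : ℝ) ≤ (x.2 : ℝ) := by exact_mod_cast h2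
      have hx1 : (x.1 : ℝ) ≤ T := h3.trans (by
        calc T ^ (1 / 2 - e) ≤ T ^ (1:ℝ) := Real.rpow_le_rpow_of_exponent_le hT1 (by linarith)
          _ = T := Real.rpow_one T)
      have h6 : (x.1 : ℝ) / x.2 ≤ T := by
        rw [div_le_iff₀ (by linarith)]
        nlinarith
      rw [hc]
      simp only
      rw [abs_div, abs_mul, abs_mul, abs_of_nonneg (by linarith : (0:ℝ) ≤ Real.log T), abs_of_nonneg (Real.sqrt_nonneg _)]
      have h7 := mf_le x.1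
      have h8 := hB (lr T x)
      have h9 := Real.sqrt_le_sqrt h6
      rw [div_le_iff₀ (by linarith)]
      calc |mf x.1| * Real.sqrt ((x.1 : ℝ) / x.2) * |v (lr T x)| ≤ 1 * Real.sqrt T * B := by gcongr
        _ = B * Real.sqrt T * 1 := by ring
        _ ≤ B * Real.sqrt T * Real.log T := by gcongr
    have hpt : ∀ t, ‖DD v e T t‖ ^ 2 = ∑ p ∈ RA e T ×ˢ RA e T, (c p.1 * c p.2) *
        Real.cos (t * (Real.log ((p.1.1 * p.2.2 : ℕ) : ℝ) - Real.log ((p.2.1 * p.1.2 : ℕ) : ℝ))) := by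
      intro t
      unfold DD
      rw [norm_sq_sum (RA e T) c (fun x => (x.1 : ℝ) / x.2) t]
      refine Finset.sum_congr rfl fun p hp => ?_
      rw [Finset.mem_product] at hp
      obtain ⟨h1, h2, -, -, -⟩ := hmem _ hp.1
      obtain ⟨h3, h4, -, -, -⟩ := hmem _ hp.2
      have a1 : (p.1.1 : ℝ) ≠ 0 := by positivity
      have a2 : (p.1.2 : ℝ) ≠ 0 := by positivity
      have a3 : (p.2.1 : ℝ) ≠ 0 := by positivity
      have a4 : (p.2.2 : ℝ) ≠ 0 := by positivity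
      rw [Nat.cast_mul, Nat.cast_mul, Real.log_div a1 a2, Real.log_div a3 a4, Real.log_mul a1 a4, Real.log_mul a3 a2]
      congr 2
      ring
    have hint : (∫ t, om g.h T t * ‖DD v e T t‖ ^ 2) = ∫ t, om g.h T t * ∑ p ∈ RA e T ×ˢ RA e T, (c p.1 * c p.2) *
        Real.cos (t * (Real.log ((p.1.1 * p.2.2 : ℕ) : ℝ) - Real.log ((p.2.1 * p.1.2 : ℕ) : ℝ))) := by
      congr 1
      funext t
      rw [hpt t]
    have hgm := hg T hT1 ((ℕ × ℕ) × (ℕ × ℕ)) (RA e T ×ˢ RA e T) (fun p => c p.1 * c p.2) (fun p => p.1.1 * p.2.2)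
      (fun p => p.2.1 * p.1.2) (by
        intro p hp
        rw [Finset.mem_product] at hp
        obtain ⟨h1, h2, h3, h4, -⟩ := hmem _ hp.1
        obtain ⟨h5, h6, h7, h8, -⟩ := hmem _ hp.2
        refine ⟨Nat.mul_pos h1 h6, Nat.mul_pos h5 h2, ?_⟩
        have e1 : ((min (p.1.1 * p.2.2) (p.2.1 * p.1.2) : ℕ) : ℝ) ≤ (p.1.1 : ℝ) * p.2.2 := by
          have := Nat.min_le_left (p.1.1 * p.2.2) (p.2.1 * p.1.2)
          calc ((min (p.1.1 * p.2.2) (p.2.1 * p.1.2) : ℕ) : ℝ) ≤ ((p.1.1 * p.2.2 : ℕ) : ℝ) := by exact_mod_cast this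
            _ = _ := by push_cast; ring
        refine e1.trans ?_
        have e2 : (p.2.2 : ℝ) ≤ T ^ (1 / 2 - e) := le_trans (by exact_mod_cast h8) h7
        calc (p.1.1 : ℝ) * p.2.2 ≤ T ^ (1 / 2 - e) * T ^ (1 / 2 - e) := by gcongr
          _ = T ^ (1 - 2 * e) := by rw [← Real.rpow_add hT0]; congr 1; ring)
    rw [← hint] at hgm
    have hdiag : ∑ i ∈ RA e T ×ˢ RA e T, (if i.1.1 * i.2.2 = i.2.1 * i.1.2 then c i.1 * c i.2 else 0) =
        ∑ x ∈ RA e T, c x ^ 2 := by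
      rw [Finset.sum_product]
      refine Finset.sum_congr rfl fun x hx => ?_
      rw [Finset.sum_eq_single x]
      · rw [if_pos rfl]; ring
      · intro y hy hyx
        rw [if_neg]
        intro h
        simp only at h
        apply hyx
        obtain ⟨h1, h2, -, -, h5⟩ := hmem x hx
        obtain ⟨h1', h2', -, -, h5'⟩ := hmem y hy
        -- x.1 * y.2 = y.1 * x.2
        have d1 : x.1 ∣ y.1 := by
          have : x.1 ∣ y.1 * x.2 := ⟨y.2, h.symm⟩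
          exact (Nat.Coprime.symm h5).dvd_of_dvd_mul_right this
        have d2 : y.1 ∣ x.1 := by
          have : y.1 ∣ x.1 * y.2 := ⟨x.2, h⟩
          exact (Nat.Coprime.symm h5').dvd_of_dvd_mul_right this
        have d3 : x.1 = y.1 := Nat.dvd_antisymm d1 d2
        rw [d3] at h
        have d4 : y.2 = x.2 := Nat.eq_of_mul_eq_mul_left h1' h
        exact Prod.ext d3.symm d4
      · intro h; exact absurd hx h
    have hdiag2 : ∑ x ∈ RA e T, c x ^ 2 = (1 / Real.log T ^ 2) * ∑ x ∈ RA e T, mf x.1 ^ 2 * ((x.1 : ℝ) / x.2) * v (lr T x) ^ 2 := by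
      rw [Finset.mul_sum]
      refine Finset.sum_congr rfl fun x hx => ?_
      have h1 : Real.sqrt ((x.1 : ℝ) / x.2) ^ 2 = (x.1 : ℝ) / x.2 := Real.sq_sqrt (by positivity)
      rw [hc]
      simp only
      rw [div_pow, mul_pow, mul_pow, h1]
      ring
    have hgm2 : |(∫ t, om g.h T t * ‖DD v e T t‖ ^ 2) - T * (∫ x, g.h x) * ∑ x ∈ RA e T, c x ^ 2| ≤
        C * T ^ (1 - 2 * e * K) * ∑ i ∈ RA e T ×ˢ RA e T, |c i.1 * c i.2| := by
      rw [← hdiag]; exact hgm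
    have hsum : ∑ i ∈ RA e T ×ˢ RA e T, |c i.1 * c i.2| ≤ B ^ 2 * T ^ 5 := by
      have h1 : ∀ i ∈ RA e T ×ˢ RA e T, |c i.1 * c i.2| ≤ B ^ 2 * T := by
        intro i hi
        rw [Finset.mem_product] at hi
        rw [abs_mul]
        calc |c i.1| * |c i.2| ≤ (B * Real.sqrt T) * (B * Real.sqrt T) := by
              gcongr
              · exact hcle _ hi.1
              · exact hcle _ hi.2
          _ = B ^ 2 * (Real.sqrt T * Real.sqrt T) := by ring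
          _ = B ^ 2 * T := by rw [Real.mul_self_sqrt hT0.le]
      calc ∑ i ∈ RA e T ×ˢ RA e T, |c i.1 * c i.2| ≤ ∑ i ∈ RA e T ×ˢ RA e T, B ^ 2 * T := Finset.sum_le_sum h1
        _ = ((RA e T).card : ℝ) * ((RA e T).card : ℝ) * (B ^ 2 * T) := by
            rw [Finset.sum_const, Finset.card_product, nsmul_eq_mul]; push_cast; ring
        _ ≤ T ^ 2 * T ^ 2 * (B ^ 2 * T) := by gcongr
        _ = B ^ 2 * T ^ 5 := by ring
    have hpow : T ^ (1 - 2 * e * K) ≤ T ^ (-(7:ℝ)) := Real.rpow_le_rpow_of_exponent_le hT1 (by linarith)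
    have e3 : (∫ t, om g.h T t * ‖DD v e T t‖ ^ 2) / T - (∫ x, g.h x) * ((1 / Real.log T ^ 2) *
        ∑ x ∈ RA e T, mf x.1 ^ 2 * ((x.1 : ℝ) / x.2) * v (lr T x) ^ 2) =
        ((∫ t, om g.h T t * ‖DD v e T t‖ ^ 2) - T * (∫ x, g.h x) * ∑ x ∈ RA e T, c x ^ 2) / T := by
      rw [hdiag2]
      field_simp
    rw [e3, norm_div, Real.norm_eq_abs, Real.norm_eq_abs, abs_of_pos hT0, div_le_iff₀ hT0]
    refine hgm2.trans ?_
    have e4 : T ^ (-(1:ℝ)) * T = 1 := by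
      rw [Real.rpow_neg_one, inv_mul_cancel₀ hT0.ne']
    have e5 : T ^ (-(7:ℝ)) * T ^ 5 ≤ 1 := by
      rw [← Real.rpow_natCast T 5, ← Real.rpow_add hT0]
      apply Real.rpow_le_one_of_one_le_of_nonpos hT1
      norm_num
    calc C * T ^ (1 - 2 * e * K) * ∑ i ∈ RA e T ×ˢ RA e T, |c i.1 * c i.2| ≤ C * T ^ (-(7:ℝ)) * (B ^ 2 * T ^ 5) := by
          gcongr
      _ = C * B ^ 2 * (T ^ (-(7:ℝ)) * T ^ 5) := by ring
      _ ≤ C * B ^ 2 * 1 := by gcongr
      _ = C * B ^ 2 * (T ^ (-(1:ℝ)) * T) := by rw [e4]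
      _ = C * B ^ 2 * T ^ (-(1:ℝ)) * T := by ring
  have hz : Tendsto (fun T : ℝ => C * B ^ 2 * T ^ (-(1:ℝ))) atTop (𝓝 0) := by
    have := (tendsto_rpow_neg_atTop (y := 1) one_pos).const_mul (C * B ^ 2)
    simpa using this
  have hdiff := squeeze_zero_norm' key hz
  have := hdiff.add hlim2
  simpa using this

end Pool.Agent.Helper69.FF
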