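import Pool.Agent.Helper69.FF.Defs

/-!
# FF-A00: correlation with the short part

`Re (AA w * conj (AA w0)) = ∑_{n,m} c_n d_m cos(t (log n - log m))`, apply `gmv` (Helper4/SH/GMV) with `a = n`, `b = m`: `d_m ≠ 0` forces `m ≤ T^b0`, `b0 < 1`. Diagonal: `T (∫ g.h) L^(-2) ∑ Λ(n)²/n w w0(log n/L)`,
which tends to `∫ x w w0` (see `Pool.Agent.Helper93.LP.MVs.diag`, adapt to a product; or polarise `w w0 = ((w+w0)² - (w-w0)²)/4` after cutting).
-/

open MeasureTheory Set Filter Topology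
open Pool.Agent.Helper57.Zeta Pool.Agent.Helper57.PC Pool.Agent.Helper57.LH Pool.Agent.Helper78.SG
open Pool.Agent.Helper4.SH (om)
open scoped ContDiff

namespace Pool.Agent.Helper69.FF

open scoped ArithmeticFunction in
/-- the diagonal sum with two weights -/
private theorem A00_diag {w w0 : ℝ → ℝ} {a b a0 b0 : ℝ} (hw : WR w a b) (hw0 : WR w0 a0 b0)
    (hb0 : b0 < 1) :
    Tendsto (fun T : ℝ => 1 / Real.log T ^ 2 * ∑ n ∈ Finset.range (NX ((1 + b0) / 2 * Real.log T) + 1),
      Λ n ^ 2 / n * (w (Real.log n / Real.log T) * w0 (Real.log n / Real.log T))) atTop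
      (𝓝 (∫ x in Ioi (0:ℝ), x * (w x * w0 x))) := by
  obtain ⟨hws, ha, hab, hwr⟩ := hw
  obtain ⟨hws0, ha0, hab0, hwr0⟩ := hw0
  have hb00 : 0 < b0 := by linarith
  obtain ⟨β, hβ⟩ : ∃ β : ℝ, β = (1 + b0) / 2 := ⟨_, rfl⟩
  rw [← hβ]
  have hβ0 : 0 < β := by rw [hβ]; linarith
  have hβ1 : β ≤ 1 := by rw [hβ]; linarith
  have hbβ : b0 < β := by rw [hβ]; linarith
  have hd : 0 < β - b0 := by linarith
  obtain ⟨χ, hχ⟩ : ∃ χ : ℝ → ℝ, χ = fun x => Real.smoothTransition ((β - x) / (β - b0)) := ⟨_, rfl⟩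
  have hχs : ContDiff ℝ (⊤ : ℕ∞) χ := by
    rw [hχ]
    exact Real.smoothTransition.contDiff.comp ((contDiff_const.sub contDiff_id).div_const _)
  have hχ1 : ∀ x, x ≤ b0 → χ x = 1 := by
    intro x hx
    rw [hχ]
    refine Real.smoothTransition.one_of_one_le ?_
    rw [le_div_iff₀ hd]
    linarith
  have hχβ : χ β = 0 := by
    rw [hχ]
    simp only [sub_self, zero_div]
    exact Real.smoothTransition.zero
  have hprod : ∀ x, (w x * χ x) * w0 x = w x * w0 x := by
    intro x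
    by_cases h : w0 x = 0
    · rw [h]; ring
    · rw [hχ1 x (hwr0 x h).2, mul_one]
  have hw0β : ∀ x, β ≤ x → w0 x = 0 := by
    intro x hx
    by_contra hne
    have := (hwr0 _ hne).2
    linarith
  have hWp : ContDiff ℝ (⊤ : ℕ∞) (fun x => w x * χ x + w0 x) := (hws.mul hχs).add hws0
  have hWm : ContDiff ℝ (⊤ : ℕ∞) (fun x => w x * χ x - w0 x) := (hws.mul hχs).sub hws0
  obtain ⟨C₁, hC₁⟩ := Pool.Agent.Helper93.LP.MVs.diag hWp hβ0 hβ1
    (by simp only [hχβ, hw0β β le_rfl, mul_zero, add_zero])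
  obtain ⟨C₂, hC₂⟩ := Pool.Agent.Helper93.LP.MVs.diag hWm hβ0 hβ1
    (by simp only [hχβ, hw0β β le_rfl, mul_zero, sub_zero])
  obtain ⟨Jp, hJp⟩ : ∃ J : ℝ, J = ∫ y in (0:ℝ)..β, y * (w y * χ y + w0 y) ^ 2 := ⟨_, rfl⟩
  obtain ⟨Jm, hJm⟩ : ∃ J : ℝ, J = ∫ y in (0:ℝ)..β, y * (w y * χ y - w0 y) ^ 2 := ⟨_, rfl⟩
  have hcχ := hχs.continuous
  have hcw := hws.continuous
  have hcw0 := hws0.continuous
  have hJ : (∫ x in Ioi (0:ℝ), x * (w x * w0 x)) = (Jp - Jm) / 4 := by
    have e1 : Jp - Jm = ∫ y in (0:ℝ)..β, 4 * (y * (w y * w0 y)) := by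
      rw [hJp, hJm, ← intervalIntegral.integral_sub
        (Continuous.intervalIntegrable (by fun_prop) _ _)
        (Continuous.intervalIntegrable (by fun_prop) _ _)]
      refine intervalIntegral.integral_congr fun y _ => ?_
      rw [← hprod y]
      ring
    rw [e1, intervalIntegral.integral_const_mul, mul_div_cancel_left₀ _ (by norm_num : (4:ℝ) ≠ 0),
      intervalIntegral.integral_of_le hβ0.le]
    refine setIntegral_eq_of_subset_of_forall_sdiff_eq_zero measurableSet_Ioi (s := Ioc 0 β)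
      (fun x hx => hx.1) ?_
    rintro x ⟨hx1, hx2⟩
    have h1 : β ≤ x := by
      by_contra hcon
      exact hx2 ⟨hx1, (not_le.mp hcon).le⟩
    rw [hw0β x h1]
    ring
  rw [hJ]
  have hbound : ∀ T : ℝ, Real.exp 1 ≤ T → |(1 / Real.log T ^ 2 *
      ∑ n ∈ Finset.range (NX (β * Real.log T) + 1),
      Λ n ^ 2 / n * (w (Real.log n / Real.log T) * w0 (Real.log n / Real.log T))) - (Jp - Jm) / 4| ≤
      (C₁ + C₂) / 4 / Real.log T := by
    intro T hT
    have hT0 : 0 < T := (Real.exp_pos 1).trans_le hT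
    have hL1 : 1 ≤ Real.log T := by
      rw [Real.le_log_iff_exp_le hT0]
      exact hT
    have h1 := hC₁ _ hL1
    have h2 := hC₂ _ hL1
    rw [← hJp] at h1
    rw [← hJm] at h2
    obtain ⟨L, hL⟩ : ∃ L : ℝ, L = Real.log T := ⟨_, rfl⟩
    rw [← hL] at h1 h2 hL1 ⊢
    have e1 : 1 / L ^ 2 * ∑ n ∈ Finset.range (NX (β * L) + 1),
        Λ n ^ 2 / n * (w (Real.log n / L) * w0 (Real.log n / L)) =
        (1 / L ^ 2 * ∑ n ∈ Finset.range (NX (β * L) + 1), Λ n ^ 2 / n *
          (w (Real.log n / L) * χ (Real.log n / L) + w0 (Real.log n / L)) ^ 2 -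
        1 / L ^ 2 * ∑ n ∈ Finset.range (NX (β * L) + 1), Λ n ^ 2 / n *
          (w (Real.log n / L) * χ (Real.log n / L) - w0 (Real.log n / L)) ^ 2) / 4 := by
      rw [← mul_sub, ← Finset.sum_sub_distrib, mul_div_assoc, Finset.sum_div]
      congr 1
      refine Finset.sum_congr rfl fun n _ => ?_
      rw [← hprod]
      ring
    rw [e1]
    have h3 := abs_le.1 h1
    have h4 := abs_le.1 h2
    have e2 : (C₁ + C₂) / 4 / L = (C₁ / L + C₂ / L) / 4 := by ring
    rw [e2, abs_le]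
    constructor <;> linarith [h3.1, h3.2, h4.1, h4.2]
  have hlim : Tendsto (fun T : ℝ => (C₁ + C₂) / 4 / Real.log T) atTop (𝓝 0) :=
    tendsto_const_nhds.div_atTop Real.tendsto_log_atTop
  rw [tendsto_iff_norm_sub_tendsto_zero]
  refine squeeze_zero' (Eventually.of_forall fun T => norm_nonneg _) ?_ hlim
  filter_upwards [eventually_ge_atTop (Real.exp 1)] with T hT
  exact hbound T hT

/-- the coefficients -/
private noncomputable def A00_c (w : ℝ → ℝ) (T : ℝ) (n : ℕ) : ℝ :=
  ArithmeticFunction.vonMangoldt n / Real.sqrt n * w (Real.log n / Real.log T) / Real.log T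

private theorem A00_re (w w0 : ℝ → ℝ) (T t : ℝ) :
    (AA w T t * (starRingEnd ℂ) (AA w0 T t)).re =
      ∑ i ∈ (Finset.Icc 1 ⌊T ^ 2⌋₊) ×ˢ (Finset.Icc 1 ⌊T ^ 2⌋₊),
        (A00_c w T i.1 * A00_c w0 T i.2) * Real.cos (t * (Real.log i.1 - Real.log i.2)) := by
  unfold AA
  rw [map_sum, Finset.sum_mul_sum, Complex.re_sum, Finset.sum_product]
  refine Finset.sum_congr rfl fun n _ => ?_
  rw [Complex.re_sum]
  refine Finset.sum_congr rfl fun m _ => ?_
  rw [map_mul, Complex.conj_ofReal]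
  have e : ∀ (x y : ℝ) (u v : ℂ), ((x : ℂ) * u * ((y : ℂ) * v)) = ((x * y : ℝ) : ℂ) * (u * v) := by
    intro x y u v
    push_cast
    ring
  rw [e, Complex.re_ofReal_mul]
  congr 1
  unfold xp
  rw [← Complex.exp_conj, ← Complex.exp_add]
  have e2 : -(((t * Real.log n : ℝ) : ℂ) * Complex.I) +
      (starRingEnd ℂ) (-(((t * Real.log m : ℝ) : ℂ) * Complex.I)) =
      ((-(t * (Real.log n - Real.log m)) : ℝ) : ℂ) * Complex.I := by
    rw [map_neg, map_mul, Complex.conj_ofReal, Complex.conj_I]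
    push_cast
    ring
  rw [e2, Complex.exp_ofReal_mul_I_re, Real.cos_neg]

theorem A00 (g : TF) {w w0 : ℝ → ℝ} {a b a0 b0 : ℝ} (hw : WR w a b) (hb : b < 3 / 2) (hw0 : WR w0 a0 b0) (hb0 : b0 < 1) :
    Tendsto (fun T : ℝ => (∫ t, om g.h T t * (AA w T t * (starRingEnd ℂ) (AA w0 T t)).re) / T) atTop
      (𝓝 ((∫ x, g.h x) * ∫ x in Ioi (0:ℝ), x * (w x * w0 x))) := by
  have hbdd : ∀ {w : ℝ → ℝ} {a b : ℝ}, WR w a b → ∃ M : ℝ, 0 ≤ M ∧ ∀ x, |w x| ≤ M := by
    intro w a b hw
    obtain ⟨hws, ha, hab, hwr⟩ := hw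
    obtain ⟨M, hM⟩ := (isCompact_Icc (a := a) (b := b)).exists_bound_of_continuousOn
      (hws.continuous.continuousOn)
    refine ⟨M, (norm_nonneg _).trans (hM a ⟨le_rfl, hab⟩), fun x => ?_⟩
    by_cases h : w x = 0
    · rw [h, abs_zero]
      exact (norm_nonneg _).trans (hM a ⟨le_rfl, hab⟩)
    · exact hM x (hwr x h)
  obtain ⟨M, hM0, hM⟩ := hbdd hw
  obtain ⟨M', hM0', hM'⟩ := hbdd hw0
  have hdiag := A00_diag hw hw0 hb0
  obtain ⟨-, ha0, hab0, hwr0⟩ := hw0
  have hb00 : 0 < b0 := by linarith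
  obtain ⟨δ, hδe⟩ : ∃ δ : ℝ, δ = 1 - b0 := ⟨_, rfl⟩
  have hδ : 0 < δ := by linarith
  obtain ⟨K, hK⟩ : ∃ K : ℕ, K = ⌈5 / δ⌉₊ := ⟨_, rfl⟩
  have hδK : 5 ≤ δ * K := by
    have := Nat.le_ceil (5 / δ)
    rw [← hK, div_le_iff₀ hδ] at this
    linarith
  obtain ⟨C, hC0, hC⟩ := Pool.Agent.Helper4.SH.gmv g hδ K
  set I : ℝ := ∫ x, g.h x with hI
  have hcoef : ∀ {w : ℝ → ℝ} {M : ℝ}, 0 ≤ M → (∀ x, |w x| ≤ M) → ∀ T : ℝ, Real.exp 1 ≤ T →
      ∀ n ∈ Finset.Icc 1 ⌊T ^ 2⌋₊, |A00_c w T n| ≤ 2 * M := by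
    intro w M hM0 hM T hT n hn
    rw [Finset.mem_Icc] at hn
    have hT0 : 0 < T := (Real.exp_pos 1).trans_le hT
    have hL1 : 1 ≤ Real.log T := by
      rw [Real.le_log_iff_exp_le hT0]
      exact hT
    have hL0 : 0 < Real.log T := by linarith
    have hn0 : (0:ℝ) < n := by exact_mod_cast hn.1
    have hn1 : (1:ℝ) ≤ n := by exact_mod_cast hn.1
    have hn2 : (n:ℝ) ≤ T ^ 2 := (Nat.le_floor_iff (by positivity)).mp hn.2
    have hlog : Real.log n ≤ 2 * Real.log T := by
      have := Real.log_le_log hn0 hn2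
      rwa [Real.log_pow, Nat.cast_ofNat] at this
    have hΛ := (@ArithmeticFunction.vonMangoldt_le_log n).trans hlog
    have hΛ0 := @ArithmeticFunction.vonMangoldt_nonneg n
    have hsq : 1 ≤ Real.sqrt n := Real.one_le_sqrt.mpr hn1
    unfold A00_c
    rw [abs_div, abs_mul, abs_div, abs_of_nonneg hΛ0, abs_of_pos hL0,
      abs_of_nonneg (Real.sqrt_nonneg _), div_le_iff₀ hL0]
    calc ArithmeticFunction.vonMangoldt n / Real.sqrt n * |w (Real.log n / Real.log T)|
        ≤ ArithmeticFunction.vonMangoldt n * M :=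
          mul_le_mul (div_le_self hΛ0 hsq) (hM _) (abs_nonneg _) hΛ0
      _ ≤ 2 * Real.log T * M := mul_le_mul_of_nonneg_right hΛ hM0
      _ = 2 * M * Real.log T := by ring
  have hest : ∀ T : ℝ, Real.exp 1 ≤ T →
      |(∫ t, om g.h T t * (AA w T t * (starRingEnd ℂ) (AA w0 T t)).re) / T -
        I * (1 / Real.log T ^ 2 * ∑ n ∈ Finset.range (NX ((1 + b0) / 2 * Real.log T) + 1),
      ArithmeticFunction.vonMangoldt n ^ 2 / n *
        (w (Real.log n / Real.log T) * w0 (Real.log n / Real.log T)))| ≤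
        C * (4 * M * M') / T := by
    intro T hT
    have hT0 : 0 < T := (Real.exp_pos 1).trans_le hT
    have hT1 : 1 ≤ T := (Real.one_le_exp zero_le_one).trans hT
    have hL1 : 1 ≤ Real.log T := by
      rw [Real.le_log_iff_exp_le hT0]
      exact hT
    have hL0 : 0 < Real.log T := by linarith
    have hcw := hcoef hM0 hM T hT
    have hcw0 := hcoef hM0' hM' T hT
    obtain ⟨N, hN⟩ : ∃ N : ℕ, N = ⌊T ^ 2⌋₊ := ⟨_, rfl⟩
    rw [← hN] at hcw hcw0
    have hNT : (N : ℝ) ≤ T ^ 2 := by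
      rw [hN]
      exact Nat.floor_le (by positivity)
    -- the small range of the second variable
    have hsmall : ∀ m : ℕ, 1 ≤ m → w0 (Real.log m / Real.log T) ≠ 0 → (m : ℝ) ≤ T ^ (1 - δ) := by
      intro m hm hne
      have hm0 : (0:ℝ) < m := by exact_mod_cast hm
      have h1 := (hwr0 _ hne).2
      rw [div_le_iff₀ hL0] at h1
      rw [hδe, sub_sub_cancel, Real.rpow_def_of_pos hT0, ← Real.log_le_iff_le_exp hm0]
      linarith
    classical
    obtain ⟨P, hP⟩ : ∃ P : Finset (ℕ × ℕ), P = (Finset.Icc 1 N) ×ˢ (Finset.Icc 1 N) := ⟨_, rfl⟩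
    obtain ⟨S, hS⟩ : ∃ S : Finset (ℕ × ℕ), S = P.filter (fun i => A00_c w0 T i.2 ≠ 0) := ⟨_, rfl⟩
    have hSsub : S ⊆ P := by
      rw [hS]
      exact Finset.filter_subset _ _
    have hSz : ∀ i ∈ P, i ∉ S → A00_c w0 T i.2 = 0 := by
      intro i hi hni
      by_contra hne
      apply hni
      rw [hS]
      exact Finset.mem_filter.2 ⟨hi, hne⟩
    have hmemP : ∀ i ∈ P, i.1 ∈ Finset.Icc 1 N ∧ i.2 ∈ Finset.Icc 1 N := by
      intro i hi
      rw [hP] at hi
      exact Finset.mem_product.1 hi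
    have e1 : (∫ t, om g.h T t * (AA w T t * (starRingEnd ℂ) (AA w0 T t)).re) =
        ∫ t, om g.h T t * ∑ i ∈ S, (A00_c w T i.1 * A00_c w0 T i.2) *
          Real.cos (t * (Real.log i.1 - Real.log i.2)) := by
      congr 1
      funext t
      rw [A00_re, ← hN, ← hP]
      congr 1
      symm
      refine Finset.sum_subset hSsub fun i hi hni => ?_
      rw [hSz i hi hni]
      ring
    have h1 := hC T hT1 (ℕ × ℕ) S (fun i => A00_c w T i.1 * A00_c w0 T i.2) (fun i => i.1)
      (fun i => i.2) (by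
        intro i hi
        obtain ⟨h2, h3⟩ := hmemP i (hSsub hi)
        rw [Finset.mem_Icc] at h2 h3
        refine ⟨h2.1, h3.1, ?_⟩
        have h4 : w0 (Real.log i.2 / Real.log T) ≠ 0 := by
          intro h5
          rw [hS, Finset.mem_filter] at hi
          apply hi.2
          unfold A00_c
          rw [h5]
          ring
        refine le_trans ?_ (hsmall i.2 h3.1 h4)
        exact_mod_cast min_le_right _ _)
    rw [← e1] at h1
    -- the diagonal
    have e2 : ∑ i ∈ S, (if i.1 = i.2 then A00_c w T i.1 * A00_c w0 T i.2 else 0) =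
        1 / Real.log T ^ 2 * ∑ n ∈ Finset.range (NX ((1 + b0) / 2 * Real.log T) + 1),
      ArithmeticFunction.vonMangoldt n ^ 2 / n *
        (w (Real.log n / Real.log T) * w0 (Real.log n / Real.log T)) := by
      have e3 : ∑ i ∈ S, (if i.1 = i.2 then A00_c w T i.1 * A00_c w0 T i.2 else 0) =
          ∑ n ∈ Finset.Icc 1 N, A00_c w T n * A00_c w0 T n := by
        rw [Finset.sum_subset hSsub (fun i hi hni => by
          rw [hSz i hi hni, mul_zero, ite_self]), hP, Finset.sum_product]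
        refine Finset.sum_congr rfl fun n hn => ?_
        simp only
        rw [Finset.sum_ite_eq, if_pos hn]
      rw [e3, Finset.mul_sum]
      have e4 : ∀ n ∈ Finset.Icc 1 N, A00_c w T n * A00_c w0 T n = 1 / Real.log T ^ 2 *
          (ArithmeticFunction.vonMangoldt n ^ 2 / n *
        (w (Real.log n / Real.log T) * w0 (Real.log n / Real.log T))) := by
        intro n hn
        rw [Finset.mem_Icc] at hn
        have hn0 : (0:ℝ) < n := by exact_mod_cast hn.1
        unfold A00_c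
        have h5 : Real.sqrt n * Real.sqrt n = n := Real.mul_self_sqrt hn0.le
        have h6 : (Real.sqrt n) ≠ 0 := (Real.sqrt_pos.mpr hn0).ne'
        have e5 : (n : ℝ) = Real.sqrt n * Real.sqrt n := h5.symm
        conv_rhs => rw [show ArithmeticFunction.vonMangoldt n ^ 2 / (n:ℝ) =
          ArithmeticFunction.vonMangoldt n ^ 2 / (Real.sqrt n * Real.sqrt n) by rw [h5]]
        field_simp
      rw [Finset.sum_congr rfl e4]
      have hR : Finset.range (NX ((1 + b0) / 2 * Real.log T) + 1) ⊆ Finset.range (N + 1) := by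
        refine Finset.range_subset_range.2 (Nat.succ_le_succ ?_)
        rw [hN]
        unfold NX
        refine Nat.floor_le_floor ?_
        have h7 : (1 + b0) / 2 * Real.log T ≤ Real.log (T ^ 2) := by
          rw [Real.log_pow, Nat.cast_ofNat]
          nlinarith
        rwa [← Real.le_log_iff_exp_le (by positivity)]
      have hI : Finset.Icc 1 N ⊆ Finset.range (N + 1) := by
        intro n hn
        rw [Finset.mem_Icc] at hn
        rw [Finset.mem_range]
        omega
      rw [Finset.sum_subset hI (fun n hn hn' => ?_), Finset.sum_subset hR (fun n hn hn' => ?_)]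
      · rw [Finset.mem_range, not_lt] at hn'
        have h8 : w0 (Real.log n / Real.log T) = 0 := by
          by_contra hne
          have h9 := (hwr0 _ hne).2
          rw [div_le_iff₀ hL0] at h9
          have hn1 : 1 ≤ n := by omega
          have hn0 : (0:ℝ) < n := by exact_mod_cast hn1
          have h10 : Real.exp ((1 + b0) / 2 * Real.log T) < n := by
            unfold NX at hn'
            exact (Nat.floor_lt (Real.exp_pos _).le).mp (by omega)
          rw [← Real.lt_log_iff_exp_lt hn0] at h10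
          nlinarith
        rw [h8]
        ring
      · rw [Finset.mem_range] at hn
        rw [Finset.mem_Icc] at hn'
        obtain rfl : n = 0 := by omega
        simp
    rw [e2] at h1
    have hsum : ∑ i ∈ S, |A00_c w T i.1 * A00_c w0 T i.2| ≤ T ^ 4 * (4 * M * M') := by
      calc ∑ i ∈ S, |A00_c w T i.1 * A00_c w0 T i.2|
          ≤ ∑ i ∈ P, |A00_c w T i.1 * A00_c w0 T i.2| :=
            Finset.sum_le_sum_of_subset_of_nonneg hSsub fun _ _ _ => abs_nonneg _
        _ ≤ ∑ i ∈ P, (2 * M) * (2 * M') := by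
            refine Finset.sum_le_sum fun i hi => ?_
            rw [abs_mul]
            obtain ⟨h2, h3⟩ := hmemP i hi
            exact mul_le_mul (hcw _ h2) (hcw0 _ h3) (abs_nonneg _) (by positivity)
        _ = ((N : ℝ) * N) * (4 * M * M') := by
            rw [Finset.sum_const, hP, Finset.card_product, Nat.card_Icc, nsmul_eq_mul]
            push_cast
            ring
        _ ≤ T ^ 4 * (4 * M * M') := by
            refine mul_le_mul_of_nonneg_right ?_ (by positivity)
            calc (N : ℝ) * N ≤ T ^ 2 * T ^ 2 := mul_le_mul hNT hNT (Nat.cast_nonneg _) (by positivity)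
              _ = T ^ 4 := by ring
    have hpow : T ^ (1 - δ * K) * T ^ 4 ≤ 1 := by
      have : T ^ 4 = T ^ (4 : ℝ) := by
        rw [← Real.rpow_natCast]
        norm_num
      rw [this, ← Real.rpow_add hT0]
      exact Real.rpow_le_one_of_one_le_of_nonpos hT1 (by linarith)
    have h2 : |(∫ t, om g.h T t * (AA w T t * (starRingEnd ℂ) (AA w0 T t)).re) -
        T * I * (1 / Real.log T ^ 2 * ∑ n ∈ Finset.range (NX ((1 + b0) / 2 * Real.log T) + 1),
      ArithmeticFunction.vonMangoldt n ^ 2 / n *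
        (w (Real.log n / Real.log T) * w0 (Real.log n / Real.log T)))| ≤ C * (4 * M * M') := by
      refine h1.trans ?_
      calc C * T ^ (1 - δ * K) * ∑ i ∈ S, |A00_c w T i.1 * A00_c w0 T i.2|
          ≤ C * T ^ (1 - δ * K) * (T ^ 4 * (4 * M * M')) :=
            mul_le_mul_of_nonneg_left hsum (by positivity)
        _ = C * (4 * M * M') * (T ^ (1 - δ * K) * T ^ 4) := by ring
        _ ≤ C * (4 * M * M') * 1 := mul_le_mul_of_nonneg_left hpow (by positivity)
        _ = _ := mul_one _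
    rw [div_sub' hT0.ne', abs_div, abs_of_pos hT0]
    refine div_le_div_of_nonneg_right ?_ hT0.le
    rwa [← mul_assoc]
  have hlim := hdiag.const_mul I
  have hlim2 : Tendsto (fun T : ℝ => C * (4 * M * M') / T) atTop (𝓝 0) :=
    tendsto_const_nhds.div_atTop tendsto_id
  have hlim3 : Tendsto (fun T : ℝ =>
      (∫ t, om g.h T t * (AA w T t * (starRingEnd ℂ) (AA w0 T t)).re) / T -
        I * (1 / Real.log T ^ 2 * ∑ n ∈ Finset.range (NX ((1 + b0) / 2 * Real.log T) + 1),
      ArithmeticFunction.vonMangoldt n ^ 2 / n *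
        (w (Real.log n / Real.log T) * w0 (Real.log n / Real.log T)))) atTop (𝓝 0) := by
    rw [tendsto_zero_iff_norm_tendsto_zero]
    refine squeeze_zero' (Eventually.of_forall fun T => norm_nonneg _) ?_ hlim2
    filter_upwards [eventually_ge_atTop (Real.exp 1)] with T hT
    exact hest T hT
  have h := hlim3.add hlim
  rw [zero_add] at h
  refine h.congr fun T => ?_
  ring

end Pool.Agent.Helper69.FF
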