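import Pool.Agent.Helper69.FF.Defs

/-!
# FF-KEx: existence of the weight k

A smooth bump function (`ContDiffBump` or `exists_contDiff_...`) equal to `1` on a large interval `[-c/2, c/2]` and supported in `(-c, c)`,
with `c` so large that `(1/2 - th)/2 ≤ 2π e^y ≤ 2` implies `|y| ≤ c/2`.
-/

open MeasureTheory Set Filter Topology
open Pool.Agent.Helper57.Zeta Pool.Agent.Helper57.PC Pool.Agent.Helper57.LH Pool.Agent.Helper78.SG
open Pool.Agent.Helper4.SH (om)
open scoped ContDiff

namespace Pool.Agent.Helper69.FF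

theorem KW_exists (g : TF) : ∃ (k : ℝ → ℝ) (c : ℝ), KW g k c := by
  have hth := g.th1
  have hπ := Real.pi_gt_three
  obtain ⟨q, hq⟩ : ∃ q : ℝ, q = (1 / 2 - g.th) / (4 * Real.pi) := ⟨_, rfl⟩
  have hq0 : 0 < q := by
    rw [hq]
    exact div_pos (by linarith) (by linarith)
  have hq1 : q < 1 := by
    rw [hq, div_lt_one (by linarith)]
    have := g.th0
    linarith
  obtain ⟨b, hb⟩ : ∃ b : ℝ, b = -Real.log q := ⟨_, rfl⟩
  have hb0 : 0 < b := by
    rw [hb]
    have := Real.log_neg hq0 hq1
    linarith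
  let f : ContDiffBump (0 : ℝ) := ⟨b, 2 * b, hb0, by linarith⟩
  refine ⟨fun y => f y, 2 * b, f.contDiff, by linarith, fun y => f.nonneg, fun y => f.le_one, ?_, ?_⟩
  · intro y hy
    refine f.zero_of_le_dist ?_
    rw [Real.dist_eq, sub_zero]
    exact hy
  · intro y h1 h2
    refine f.one_of_mem_closedBall ?_
    rw [Metric.mem_closedBall, Real.dist_eq, sub_zero, abs_le]
    have h3 : q ≤ Real.exp y := by
      rw [hq, div_le_iff₀ (by linarith)]
      linarith
    have h4 : Real.exp y ≤ 1 := by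
      nlinarith [Real.exp_pos y]
    have h5 : Real.log q ≤ y := (Real.log_le_iff_le_exp hq0).2 h3
    have h6 : y ≤ 0 := Real.exp_le_one_iff.1 h4
    have h7 : f.rIn = b := rfl
    rw [h7]
    exact ⟨by linarith, by linarith⟩

end Pool.Agent.Helper69.FF
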