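import Pool.Agent.Helper69.FF.Defs

/-!
# FF-Crs: the short part is orthogonal to m D

`FW g w0 v T x n ≠ 0` forces `n ≤ T^b0` (`b0 < 1`), `r ≥ a T^(a'-1)` (from `v (lr) ≠ 0`), and `2π a n/(rT) ≥ 1/2 - th`, so `n ≥ c T r/a ≥ c T^a'`, impossible for large `T`.
-/

open MeasureTheory Set Filter Topology
open Pool.Agent.Helper57.Zeta Pool.Agent.Helper57.PC Pool.Agent.Helper57.LH Pool.Agent.Helper78.SG
open Pool.Agent.Helper4.SH (om)
open scoped ContDiff

namespace Pool.Agent.Helper69.FF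

private lemma FW_zero97 (g : TF) {w0 v : ℝ → ℝ} {a0 b0 a' b' : ℝ} (hw0 : WR w0 a0 b0) (hb0 : b0 < 1)
    (hv : WR v a' b') (ha' : 1 < a') {T : ℝ} (hT : 1 < T)
    (hL : Real.log (2 * Real.pi / (1 / 2 - g.th)) / (a' - b0) < Real.log T) {x : ℕ × ℕ} (hx1 : 0 < x.1)
    (hx2 : 0 < x.2) {n : ℕ} (hn : 0 < n) : FW g w0 v T x n = 0 := by
  have hT0 : 0 < T := by linarith
  have hL0 : 0 < Real.log T := Real.log_pos hT
  have hc : 0 < 1 / 2 - g.th := by linarith [g.th1]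
  have hr : (0 : ℝ) < x.1 := by exact_mod_cast hx1
  have ha : (0 : ℝ) < x.2 := by exact_mod_cast hx2
  have hn' : (0 : ℝ) < n := by exact_mod_cast hn
  by_contra hne
  unfold FW at hne
  have h1 : w0 (Real.log n / Real.log T) ≠ 0 := fun h => hne (by rw [h, zero_mul, zero_mul])
  have h2 : v (lr T x) ≠ 0 := fun h => hne (by rw [h, mul_zero, zero_mul])
  have h3 : g.h (2 * Real.pi * ((x.2 : ℝ) * n / x.1) / T - 1 / 2) ≠ 0 := fun h => hne (by rw [h, mul_zero])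
  have h4 : Real.log n / Real.log T ≤ b0 := (hw0.2.2.2 _ h1).2
  rw [div_le_iff₀ hL0] at h4
  have h5 : a' ≤ lr T x := (hv.2.2.2 _ h2).1
  unfold lr at h5
  have h6 : (a' - 1) * Real.log T ≤ Real.log x.1 - Real.log x.2 := by
    rw [← le_div_iff₀ hL0]
    linarith
  have h7 : |2 * Real.pi * ((x.2 : ℝ) * n / x.1) / T - 1 / 2| < g.th := by
    by_contra h
    exact h3 (g.supp _ (not_lt.mp h))
  have h8 : 1 / 2 - g.th < 2 * Real.pi * ((x.2 : ℝ) * n / x.1) / T := by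
    linarith [(abs_lt.mp h7).1]
  have h9 : Real.log (1 / 2 - g.th) < Real.log (2 * Real.pi * ((x.2 : ℝ) * n / x.1) / T) :=
    Real.log_lt_log hc h8
  have hpi : (0 : ℝ) < 2 * Real.pi := by positivity
  rw [Real.log_div (by positivity) hT0.ne', Real.log_mul hpi.ne' (by positivity),
    Real.log_div (by positivity) hr.ne', Real.log_mul ha.ne' hn'.ne'] at h9
  rw [Real.log_div hpi.ne' hc.ne', div_lt_iff₀ (by linarith)] at hL
  nlinarith

theorem SS_zero (g : TF) {w0 v : ℝ → ℝ} {a0 b0 a' b' e : ℝ} (hw0 : WR w0 a0 b0) (hb0 : b0 < 1)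
    (hv : WR v a' b') (ha' : 1 < a') (he : 0 < e) : ∀ᶠ T : ℝ in atTop, SS g w0 v e T = 0 := by
  filter_upwards [eventually_gt_atTop (1 : ℝ), Real.tendsto_log_atTop.eventually_gt_atTop
    (Real.log (2 * Real.pi / (1 / 2 - g.th)) / (a' - b0))] with T hT hL
  unfold SS
  refine Finset.sum_eq_zero fun x hx => ?_
  have hx1 : 0 < x.1 ∧ 0 < x.2 := by
    unfold RA at hx
    rw [Finset.mem_filter, Finset.mem_product, Finset.mem_Icc, Finset.mem_Icc] at hx
    exact ⟨hx.1.1.1, hx.1.2.1⟩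
  rw [Finset.sum_eq_zero, mul_zero]
  intro n hn
  rw [FW_zero97 g hw0 hb0 hv ha' hT hL hx1.1 hx1.2 (Finset.mem_Icc.mp hn).1, mul_zero]
  simp

end Pool.Agent.Helper69.FF
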