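import Pool.Agent.Helper69.FF.DSum

/-!
# FF-SML: the main term SM

`SM = ∑_r (μ²(r)/φ(r)²) ∑_{(n,r)=1} Λ(n) w(log n/L) ∑_{a > T^e, a ≤ r, (a,r)=1} v(1 + log(r/a)/L) g.h(2π a n/(rT) - 1/2)`. The sum over `n` not coprime to `r` may be added at a cost
`O(T^(3/4))` (`n = p^j`, `p | r`: `∑ Λ(n) ≤ 3 L²`). For given `n, r` apply `cop_sum` with `F(y) = v(1 + log(r/y)/L) g.h(2π y n/(rT) - 1/2)`, `A = T^e`, `B = r`: `F` is bounded with bounded variation, so the
`a`-sum is `(φ(r)/r) ∫_{T^e}^r F + O(τ(r))`; on the support `y ≍ rT/n`, so `v(1 + log(r/y)/L) = v(log n/L) + O(1/L)`, and if `rT/n ≥ C T^e` then `∫ F = (rT/(2πn)) (∫ g.h)(v(log n/L) + O(1/L))`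
(also `y ≤ r` is automatic since `n ≥ c T`; for `rT/n ≤ T^e/C` it is `0`; in between it is between 0 and C rT/n in absolute value, a set of `n` of logarithmic length `O(1)`: negligible).
For fixed `r` the sum over `n` is `L Φ(log r/L) + O(1)`, `Φ(u) = ∫_0^{u+1-e} w v` (`psum_gen`), and `(1/L) ∑_r (1/φ) Φ(log r/L) → ∫_e^{1/2-e} Φ = VE e (w v)` (`mu_sum`).
Errors: `∑_r (τ(r)/φ(r)²) ∑_{n ≤ C r T^(1-e)} Λ(n) ≤ C T^(1-e) ∑ τ r/φ² ≤ T^(1-e/2)`.
-/

open MeasureTheory Set Filter Topology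
open Pool.Agent.Helper57.Zeta Pool.Agent.Helper57.PC Pool.Agent.Helper57.LH Pool.Agent.Helper78.SG
open Pool.Agent.Helper4.SH (om)
open scoped ContDiff

namespace Pool.Agent.Helper69.FF

/-! ### The function of `y` -/

private noncomputable def c0 (g : TF) : ℝ := (1 / 2 - g.th) / (2 * Real.pi)
private noncomputable def c1 (g : TF) : ℝ := (1 / 2 + g.th) / (2 * Real.pi)

private lemma c0_pos (g : TF) : 0 < c0 g := by
  unfold c0
  have := g.th1
  have h2 := Real.pi_pos
  apply div_pos <;> linarith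

private lemma c0_lt_c1 (g : TF) : c0 g < c1 g := by
  unfold c0 c1
  have := g.th0
  have h2 := Real.pi_pos
  apply div_lt_div_of_pos_right _ (by linarith)
  linarith

private lemma c1_lt_one (g : TF) : c1 g < 1 := by
  unfold c1
  have := g.th1
  have h2 := Real.pi_gt_three
  rw [div_lt_one (by linarith)]
  linarith

/-- the function `v(1 + (log r - log y)/L) ψ(2π y/ρ)` -/
private noncomputable def Fy (g : TF) (v : ℝ → ℝ) (L r ρ y : ℝ) : ℝ :=
  v (1 + (Real.log r - Real.log y) / L) * g.h (2 * Real.pi * y / ρ - 1 / 2)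

private lemma h_ne {g : TF} {ρ y : ℝ} (hρ : 0 < ρ) (h : g.h (2 * Real.pi * y / ρ - 1 / 2) ≠ 0) :
    c0 g * ρ < y ∧ y < c1 g * ρ := by
  have h1 : |2 * Real.pi * y / ρ - 1 / 2| < g.th := by
    by_contra hc
    exact h (g.supp _ (not_lt.1 hc))
  rw [abs_lt] at h1
  have hp := Real.pi_pos
  have e : 2 * Real.pi * y / ρ = y / ρ * (2 * Real.pi) := by ring
  rw [e] at h1
  constructor
  · unfold c0
    have h2 : (1 / 2 - g.th) / (2 * Real.pi) < y / ρ := by
      rw [div_lt_iff₀ (by positivity)]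
      linarith
    rwa [lt_div_iff₀ hρ] at h2
  · unfold c1
    have h2 : y / ρ < (1 / 2 + g.th) / (2 * Real.pi) := by
      rw [lt_div_iff₀ (by positivity)]
      linarith
    rwa [div_lt_iff₀ hρ] at h2

private lemma Fy_ne {g : TF} {v : ℝ → ℝ} {L r ρ y : ℝ} (hρ : 0 < ρ) (h : Fy g v L r ρ y ≠ 0) :
    c0 g * ρ < y ∧ y < c1 g * ρ :=
  h_ne hρ (right_ne_zero_of_mul h)

private lemma Fy_smooth {g : TF} {v : ℝ → ℝ} (hv : ContDiff ℝ (⊤ : ℕ∞) v) {L r ρ : ℝ} (hρ : 0 < ρ) :
    ContDiff ℝ 1 (Fy g v L r ρ) := by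
  rw [contDiff_iff_contDiffAt]
  intro y
  have hc0 := c0_pos g
  by_cases hy : y < c0 g * ρ
  · have h1 : Fy g v L r ρ =ᶠ[𝓝 y] fun _ => 0 := by
      filter_upwards [gt_mem_nhds hy] with z hz
      by_contra hne
      exact absurd (Fy_ne hρ hne).1 (not_lt.2 hz.le)
    exact contDiffAt_const.congr_of_eventuallyEq h1
  · have hy0 : 0 < y := lt_of_lt_of_le (by positivity) (not_lt.1 hy)
    unfold Fy
    have hv1 : ContDiff ℝ 1 v := hv.of_le (by exact_mod_cast le_top)
    have hg1 : ContDiff ℝ 1 g.h := g.smooth.of_le (by exact_mod_cast le_top)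
    refine ContDiffAt.mul ?_ ?_
    · refine hv1.contDiffAt.comp y ?_
      exact contDiffAt_const.add ((contDiffAt_const.sub (Real.contDiffAt_log.2 hy0.ne')).div_const L)
    · refine hg1.contDiffAt.comp y ?_
      exact ((contDiffAt_const.mul contDiffAt_id).div_const ρ).sub contDiffAt_const

/-- bounds for a smooth compactly supported function and its derivative -/
private lemma bdd_h (g : TF) : ∃ M : ℝ, 0 < M ∧ (∀ x, |g.h x| ≤ M) ∧ ∀ x, |deriv g.h x| ≤ M := by
  have hc : HasCompactSupport g.h := by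
    refine HasCompactSupport.of_support_subset_isCompact (isCompact_Icc (a := -g.th) (b := g.th)) ?_
    intro x hx
    have h1 : |x| < g.th := by
      by_contra h2
      exact hx (g.supp x (not_lt.1 h2))
    rw [abs_lt] at h1
    exact ⟨h1.1.le, h1.2.le⟩
  obtain ⟨A, hA⟩ := hc.exists_bound_of_continuous g.smooth.continuous
  obtain ⟨B, hB⟩ := hc.deriv.exists_bound_of_continuous (g.smooth.continuous_deriv (by exact_mod_cast le_top))
  refine ⟨max A B + 1, ?_, fun x => ?_, fun x => ?_⟩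
  · have h1 := (norm_nonneg _).trans (hA 0)
    have := le_max_left A B
    linarith
  · have h1 := hA x
    rw [Real.norm_eq_abs] at h1
    have := le_max_left A B
    linarith
  · have h1 := hB x
    rw [Real.norm_eq_abs] at h1
    have := le_max_right A B
    linarith

private lemma bdd_v {v : ℝ → ℝ} {a b : ℝ} (hv : WR v a b) :
    ∃ M : ℝ, 0 < M ∧ (∀ x, |v x| ≤ M) ∧ ∀ x, |deriv v x| ≤ M := by
  obtain ⟨hs, ha, hab, hsupp⟩ := hv
  have hc : HasCompactSupport v := by
    refine HasCompactSupport.of_support_subset_isCompact (isCompact_Icc (a := a) (b := b)) ?_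
    intro x hx
    exact hsupp x hx
  obtain ⟨A, hA⟩ := hc.exists_bound_of_continuous hs.continuous
  obtain ⟨B, hB⟩ := hc.deriv.exists_bound_of_continuous (hs.continuous_deriv (by exact_mod_cast le_top))
  refine ⟨max A B + 1, ?_, fun x => ?_, fun x => ?_⟩
  · have h1 := (norm_nonneg _).trans (hA 0)
    have := le_max_left A B
    linarith
  · have h1 := hA x
    rw [Real.norm_eq_abs] at h1
    have := le_max_left A B
    linarith
  · have h1 := hB x
    rw [Real.norm_eq_abs] at h1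
    have := le_max_right A B
    linarith

private lemma Fy_deriv {g : TF} {v : ℝ → ℝ} {a b : ℝ} (hv : WR v a b) : ∃ K : ℝ, 0 < K ∧
    ∀ L r ρ : ℝ, 1 ≤ L → 0 < ρ → ∀ y, |deriv (Fy g v L r ρ) y| ≤
      (Icc (c0 g * ρ) (c1 g * ρ)).indicator (fun _ => K / ρ) y := by
  obtain ⟨Mv, hMv0, hMv, hMv'⟩ := bdd_v hv
  obtain ⟨Mh, hMh0, hMh, hMh'⟩ := bdd_h g
  have hc0 := c0_pos g
  have hpi := Real.pi_pos
  refine ⟨Mv * Mh / c0 g + 2 * Real.pi * Mv * Mh, by positivity, fun L r ρ hL hρ y => ?_⟩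
  by_cases hy : y ∈ Icc (c0 g * ρ) (c1 g * ρ)
  · rw [indicator_of_mem hy]
    have hy0 : 0 < y := lt_of_lt_of_le (by positivity) hy.1
    have hL0 : 0 < L := by linarith
    have d1 : HasDerivAt (fun y : ℝ => 1 + (Real.log r - Real.log y) / L) (-(1 / (y * L))) y := by
      have := (((hasDerivAt_const y (Real.log r)).sub (Real.hasDerivAt_log hy0.ne')).div_const L).const_add 1
      refine this.congr_deriv ?_
      field_simp
      ring
    have d2 : HasDerivAt v (deriv v (1 + (Real.log r - Real.log y) / L)) (1 + (Real.log r - Real.log y) / L) :=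
      ((hv.1.differentiable (by simp)) _).hasDerivAt
    have d3 : HasDerivAt (fun y : ℝ => 2 * Real.pi * y / ρ - 1 / 2) (2 * Real.pi / ρ) y := by
      have := (((hasDerivAt_id y).const_mul (2 * Real.pi)).div_const ρ).sub_const (1 / 2)
      refine this.congr_deriv ?_
      ring
    have d4 : HasDerivAt g.h (deriv g.h (2 * Real.pi * y / ρ - 1 / 2)) (2 * Real.pi * y / ρ - 1 / 2) :=
      ((g.smooth.differentiable (by simp)) _).hasDerivAt
    have d5 := (HasDerivAt.comp y d2 d1).mul (HasDerivAt.comp y d4 d3)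
    have e : deriv (Fy g v L r ρ) y = deriv v (1 + (Real.log r - Real.log y) / L) * -(1 / (y * L)) *
        g.h (2 * Real.pi * y / ρ - 1 / 2) + v (1 + (Real.log r - Real.log y) / L) *
        (deriv g.h (2 * Real.pi * y / ρ - 1 / 2) * (2 * Real.pi / ρ)) := d5.deriv
    rw [e]
    have h1 : |-(1 / (y * L))| ≤ 1 / (c0 g * ρ) := by
      rw [abs_neg, abs_of_pos (by positivity)]
      apply one_div_le_one_div_of_le (by positivity)
      calc c0 g * ρ ≤ y := hy.1
        _ = y * 1 := (mul_one y).symm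
        _ ≤ y * L := by gcongr
    calc _ ≤ |deriv v (1 + (Real.log r - Real.log y) / L) * -(1 / (y * L)) *
        g.h (2 * Real.pi * y / ρ - 1 / 2)| + |v (1 + (Real.log r - Real.log y) / L) *
        (deriv g.h (2 * Real.pi * y / ρ - 1 / 2) * (2 * Real.pi / ρ))| := abs_add_le _ _
      _ ≤ Mv * (1 / (c0 g * ρ)) * Mh + Mv * (Mh * (2 * Real.pi / ρ)) := by
          rw [abs_mul, abs_mul, abs_mul, abs_mul]
          have h2 : |2 * Real.pi / ρ| = 2 * Real.pi / ρ := abs_of_pos (by positivity)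
          rw [h2]
          gcongr
          · exact hMv' _
          · exact hMh _
          · exact hMv _
          · exact hMh' _
      _ = _ := by field_simp
  · rw [indicator_of_notMem hy]
    have h1 : Fy g v L r ρ =ᶠ[𝓝 y] fun _ => 0 := by
      have hopen : IsOpen (Icc (c0 g * ρ) (c1 g * ρ))ᶜ := isClosed_Icc.isOpen_compl
      filter_upwards [hopen.mem_nhds hy] with z hz
      by_contra hne
      exact hz ⟨(Fy_ne hρ hne).1.le, (Fy_ne hρ hne).2.le⟩
    rw [h1.deriv_eq]
    simp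

private lemma Fy_var {g : TF} {v : ℝ → ℝ} {a b : ℝ} (hv : WR v a b) : ∃ K : ℝ, 0 < K ∧
    ∀ L r ρ : ℝ, 1 ≤ L → 0 < ρ → ∀ A B : ℝ, A ≤ B → ∫ y in A..B, |deriv (Fy g v L r ρ) y| ≤ K := by
  obtain ⟨K, hK0, hK⟩ := Fy_deriv (g := g) hv
  have hc0 := c0_pos g
  have hc1 := c0_lt_c1 g
  refine ⟨K * (c1 g - c0 g), by nlinarith, fun L r ρ hL hρ A B hAB => ?_⟩
  rw [intervalIntegral.integral_of_le hAB]
  have hi : Integrable ((Icc (c0 g * ρ) (c1 g * ρ)).indicator (fun _ : ℝ => K / ρ)) := by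
    rw [integrable_indicator_iff measurableSet_Icc]
    exact integrableOn_const (by simp) (by simp)
  have hn : ∀ y, 0 ≤ (Icc (c0 g * ρ) (c1 g * ρ)).indicator (fun _ : ℝ => K / ρ) y := fun y =>
    indicator_nonneg (fun _ _ => by positivity) y
  calc ∫ y in Ioc A B, |deriv (Fy g v L r ρ) y| ≤
        ∫ y in Ioc A B, (Icc (c0 g * ρ) (c1 g * ρ)).indicator (fun _ : ℝ => K / ρ) y := by
        refine integral_mono_of_nonneg (Eventually.of_forall fun _ => abs_nonneg _) hi.integrableOn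
          (Eventually.of_forall fun y => hK L r ρ hL hρ y)
    _ ≤ ∫ y, (Icc (c0 g * ρ) (c1 g * ρ)).indicator (fun _ : ℝ => K / ρ) y :=
        setIntegral_le_integral hi (Eventually.of_forall hn)
    _ = K * (c1 g - c0 g) := by
        rw [integral_indicator measurableSet_Icc, setIntegral_const, smul_eq_mul,
          Measure.real, Real.volume_Icc, ENNReal.toReal_ofReal (by nlinarith)]
        field_simp

/-! ### The integral of the function -/

private lemma ind_int (g : TF) {ρ k : ℝ} (hρ : 0 < ρ) (hk : 0 ≤ k) {D : ℝ → ℝ}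
    (hD : ∀ y, |D y| ≤ (Icc (c0 g * ρ) (c1 g * ρ)).indicator (fun _ => k) y) {A B : ℝ} (hAB : A ≤ B) :
    |∫ y in A..B, D y| ≤ k * ((c1 g - c0 g) * ρ) := by
  have hc0 := c0_pos g
  have hc1 := c0_lt_c1 g
  rw [intervalIntegral.integral_of_le hAB]
  have hi : Integrable ((Icc (c0 g * ρ) (c1 g * ρ)).indicator (fun _ : ℝ => k)) := by
    rw [integrable_indicator_iff measurableSet_Icc]
    exact integrableOn_const (by simp) (by simp)
  have hn : ∀ y, 0 ≤ (Icc (c0 g * ρ) (c1 g * ρ)).indicator (fun _ : ℝ => k) y := fun y =>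
    indicator_nonneg (fun _ _ => hk) y
  calc |∫ y in Ioc A B, D y| ≤ ∫ y in Ioc A B, |D y| := abs_integral_le_integral_abs
    _ ≤ ∫ y in Ioc A B, (Icc (c0 g * ρ) (c1 g * ρ)).indicator (fun _ : ℝ => k) y :=
        integral_mono_of_nonneg (Eventually.of_forall fun _ => abs_nonneg _) hi.integrableOn
          (Eventually.of_forall fun y => hD y)
    _ ≤ ∫ y, (Icc (c0 g * ρ) (c1 g * ρ)).indicator (fun _ : ℝ => k) y :=
        setIntegral_le_integral hi (Eventually.of_forall hn)
    _ = k * ((c1 g - c0 g) * ρ) := by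
        rw [integral_indicator measurableSet_Icc, setIntegral_const, smul_eq_mul,
          Measure.real, Real.volume_Icc, ENNReal.toReal_ofReal (by nlinarith)]
        ring

private lemma v_lip {v : ℝ → ℝ} {a b M : ℝ} (hv : WR v a b) (hM : ∀ x, |deriv v x| ≤ M) (x y : ℝ) :
    |v x - v y| ≤ M * |x - y| := by
  have h := Convex.norm_image_sub_le_of_norm_deriv_le (f := v) (C := M) (s := univ) (x := y) (y := x)
    (fun z _ => (hv.1.differentiable (by simp)) z) (fun z _ => hM z) convex_univ (mem_univ _) (mem_univ _)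
  rwa [Real.norm_eq_abs, Real.norm_eq_abs] at h

private lemma Fy_approx {g : TF} {v : ℝ → ℝ} {a b : ℝ} (hv : WR v a b) : ∃ K : ℝ, 0 < K ∧
    ∀ L r n ρ : ℝ, 0 < L → 0 < ρ → Real.log ρ = Real.log r + L - Real.log n → ∀ A B : ℝ, A ≤ B →
    |(∫ y in A..B, Fy g v L r ρ y) - v (Real.log n / L) * ∫ y in A..B, g.h (2 * Real.pi * y / ρ - 1 / 2)| ≤
      K * ρ / L := by
  obtain ⟨Mv, hMv0, hMv, hMv'⟩ := bdd_v hv
  obtain ⟨Mh, hMh0, hMh, hMh'⟩ := bdd_h g
  have hc0 := c0_pos g
  have hc1 := c0_lt_c1 g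
  have hc2 := c1_lt_one g
  have hlog : Real.log (c0 g) < 0 := Real.log_neg hc0 (by linarith)
  refine ⟨Mv * (-Real.log (c0 g)) * Mh * (c1 g - c0 g), ?_, fun L r n ρ hL hρ hlr A B hAB => ?_⟩
  · have h1 : 0 < -Real.log (c0 g) := by linarith
    have h2 : 0 < c1 g - c0 g := by linarith
    positivity
  have hcont : Continuous fun y => g.h (2 * Real.pi * y / ρ - 1 / 2) :=
    g.smooth.continuous.comp (by fun_prop)
  have hcont2 : Continuous fun y => v (Real.log n / L) * g.h (2 * Real.pi * y / ρ - 1 / 2) :=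
    continuous_const.mul hcont
  have hcont1 : Continuous fun y => Fy g v L r ρ y := (Fy_smooth hv.1 hρ).continuous
  rw [← intervalIntegral.integral_const_mul, ← intervalIntegral.integral_sub
    (hcont1.intervalIntegrable _ _) (hcont2.intervalIntegrable _ _)]
  have key := ind_int g hρ (k := Mv * (-Real.log (c0 g)) * Mh / L)
    (by have h1 : 0 < -Real.log (c0 g) := by linarith
        positivity)
    (D := fun y => Fy g v L r ρ y - v (Real.log n / L) * g.h (2 * Real.pi * y / ρ - 1 / 2))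
    (fun y => ?_) hAB
  · refine key.trans (le_of_eq ?_)
    ring
  · by_cases hh : g.h (2 * Real.pi * y / ρ - 1 / 2) = 0
    · unfold Fy
      rw [hh, mul_zero, mul_zero, sub_zero, abs_zero]
      exact indicator_nonneg (fun _ _ => by
        have h1 : 0 < -Real.log (c0 g) := by linarith
        positivity) y
    · obtain ⟨hy1, hy2⟩ := h_ne hρ hh
      rw [indicator_of_mem (show y ∈ Icc (c0 g * ρ) (c1 g * ρ) from ⟨hy1.le, hy2.le⟩)]
      have hy0 : 0 < y := lt_trans (by positivity) hy1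
      unfold Fy
      rw [← sub_mul, abs_mul]
      have h1 := v_lip hv hMv' (1 + (Real.log r - Real.log y) / L) (Real.log n / L)
      have h2 : 1 + (Real.log r - Real.log y) / L - Real.log n / L = (Real.log ρ - Real.log y) / L := by
        rw [hlr]
        field_simp
        ring
      have h3 : Real.log y ≤ Real.log ρ := by
        apply Real.log_le_log hy0
        nlinarith
      have h4 : Real.log (c0 g) + Real.log ρ ≤ Real.log y := by
        rw [← Real.log_mul hc0.ne' hρ.ne']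
        exact Real.log_le_log (by positivity) hy1.le
      have h5 : |(Real.log ρ - Real.log y) / L| ≤ -Real.log (c0 g) / L := by
        rw [abs_div, abs_of_pos hL, abs_of_nonneg (by linarith)]
        apply div_le_div_of_nonneg_right _ hL.le
        linarith
      rw [h2] at h1
      calc _ ≤ (Mv * (-Real.log (c0 g) / L)) * Mh := by
            refine mul_le_mul (h1.trans ?_) (hMh _) (abs_nonneg _) ?_
            · exact mul_le_mul_of_nonneg_left h5 hMv0.le
            · have h6 : 0 < -Real.log (c0 g) := by linarith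
              positivity
        _ = _ := by ring

private lemma h_full (g : TF) {ρ A B : ℝ} (hρ : 0 < ρ) (hA : A ≤ c0 g * ρ) (hB : c1 g * ρ ≤ B) :
    ∫ y in A..B, g.h (2 * Real.pi * y / ρ - 1 / 2) = ρ / (2 * Real.pi) * ∫ x, g.h x := by
  have hc1 := c0_lt_c1 g
  have hpi := Real.pi_pos
  have hAB : A ≤ B := by nlinarith
  rw [intervalIntegral.integral_of_le hAB]
  have h1 : ∫ y in Ioc A B, g.h (2 * Real.pi * y / ρ - 1 / 2) = ∫ y, g.h (2 * Real.pi * y / ρ - 1 / 2) := by
    apply setIntegral_eq_integral_of_forall_compl_eq_zero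
    intro y hy
    by_contra hne
    obtain ⟨h1, h2⟩ := h_ne hρ hne
    exact hy ⟨by linarith, by linarith⟩
  rw [h1]
  have h2 : (fun y : ℝ => g.h (2 * Real.pi * y / ρ - 1 / 2)) =
      fun y => (fun x => g.h (x - 1 / 2)) ((2 * Real.pi / ρ) * y) := by
    funext y
    congr 2
    ring
  rw [h2, Measure.integral_comp_mul_left (fun x => g.h (x - 1 / 2)) (2 * Real.pi / ρ),
    integral_sub_right_eq_self (fun x => g.h x), abs_of_pos (by positivity), smul_eq_mul, inv_div]

private lemma h_part (g : TF) : ∃ K : ℝ, 0 < K ∧ ∀ ρ A B : ℝ, 0 < ρ → A ≤ B →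
    |∫ y in A..B, g.h (2 * Real.pi * y / ρ - 1 / 2)| ≤ K * ρ := by
  obtain ⟨Mh, hMh0, hMh, hMh'⟩ := bdd_h g
  have hc1 := c0_lt_c1 g
  refine ⟨Mh * (c1 g - c0 g), by nlinarith, fun ρ A B hρ hAB => ?_⟩
  refine (ind_int g hρ hMh0.le (fun y => ?_) hAB).trans (le_of_eq (by ring))
  by_cases hh : g.h (2 * Real.pi * y / ρ - 1 / 2) = 0
  · rw [hh, abs_zero]
    exact indicator_nonneg (fun _ _ => hMh0.le) y
  · obtain ⟨hy1, hy2⟩ := h_ne hρ hh
    rw [indicator_of_mem (show y ∈ Icc (c0 g * ρ) (c1 g * ρ) from ⟨hy1.le, hy2.le⟩)]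
    exact hMh _

/-! ### The sum over `a` -/

/-- the sum over `a` -/
private noncomputable def Sa (g : TF) (v : ℝ → ℝ) (L : ℝ) (A : ℝ) (r : ℕ) (ρ : ℝ) : ℝ :=
  ∑ a ∈ (Finset.Icc 1 ⌊(r : ℝ)⌋₊).filter (fun a : ℕ => A < (a : ℝ) ∧ Nat.Coprime a r), Fy g v L r ρ a

private lemma Sa_est {g : TF} {v : ℝ → ℝ} {a b : ℝ} (hv : WR v a b) : ∃ K : ℝ, 0 < K ∧
    ∀ (L A n ρ : ℝ) (r : ℕ), 1 ≤ L → 0 < A → r ≠ 0 → A ≤ r → 0 < ρ → ρ ≤ r →
    Real.log ρ = Real.log r + L - Real.log n →
    |Sa g v L A r ρ - (if A ≤ c0 g * ρ then (Nat.totient r : ℝ) / r * (ρ / (2 * Real.pi) * (∫ x, g.h x)) *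
      v (Real.log n / L) else 0)| ≤
    if A < c1 g * ρ then K * r.divisors.card + (Nat.totient r : ℝ) / r * ρ * K * (1 / L +
      if c0 g * ρ < A then 1 else 0) else 0 := by
  obtain ⟨K1, hK1, h1⟩ := Fy_var (g := g) hv
  obtain ⟨K2, hK2, h2⟩ := Fy_approx (g := g) hv
  obtain ⟨K3, hK3, h3⟩ := h_part g
  obtain ⟨Mv, hMv0, hMv, hMv'⟩ := bdd_v hv
  obtain ⟨Mh, hMh0, hMh, hMh'⟩ := bdd_h g
  have hc0 := c0_pos g
  have hc1 := c0_lt_c1 g
  have hc2 := c1_lt_one g
  refine ⟨4 * (Mv * Mh + K1) + K2 + Mv * K3, by positivity, fun L A n ρ r hL hA hr hAr hρ hρr hlog => ?_⟩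
  have hFb : ∀ y, |Fy g v L r ρ y| ≤ Mv * Mh := fun y => by
    unfold Fy
    rw [abs_mul]
    exact mul_le_mul (hMv _) (hMh _) (abs_nonneg _) hMv0.le
  have hcop := cop_sum hr hA hAr (Fy_smooth (g := g) (L := L) (r := r) hv.1 hρ) (fun y _ => hFb y)
    (h1 L r ρ hL hρ A r hAr)
  have hJ := h2 L r n ρ (by linarith) hρ hlog A r hAr
  have hφ : 0 ≤ (Nat.totient r : ℝ) / r := by positivity
  have hτ : 0 ≤ (r.divisors.card : ℝ) := by positivity
  have hL0 : 0 < L := by linarith
  by_cases hcase : A < c1 g * ρ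
  · rw [if_pos hcase]
    have hcop' : |Sa g v L A r ρ - (Nat.totient r : ℝ) / r * ∫ y in A..(r : ℝ), Fy g v L r ρ y| ≤
        4 * (Mv * Mh + K1) * r.divisors.card := by
      refine hcop.trans (le_of_eq ?_)
      ring
    by_cases hcase2 : A ≤ c0 g * ρ
    · rw [if_pos hcase2, if_neg (not_lt.2 hcase2), add_zero]
      rw [h_full g hρ hcase2 (by nlinarith)] at hJ
      have e : Sa g v L A r ρ - (Nat.totient r : ℝ) / r * (ρ / (2 * Real.pi) * (∫ x, g.h x)) *
          v (Real.log n / L) = (Sa g v L A r ρ - (Nat.totient r : ℝ) / r * ∫ y in A..(r : ℝ), Fy g v L r ρ y) +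
          (Nat.totient r : ℝ) / r * ((∫ y in A..(r : ℝ), Fy g v L r ρ y) -
            v (Real.log n / L) * (ρ / (2 * Real.pi) * (∫ x, g.h x))) := by ring
      rw [e]
      refine (abs_add_le _ _).trans ?_
      rw [abs_mul, abs_of_nonneg hφ]
      have h4 := mul_le_mul_of_nonneg_left hJ hφ
      have h5 : (Nat.totient r : ℝ) / r * (K2 * ρ / L) ≤
          (Nat.totient r : ℝ) / r * ρ * (4 * (Mv * Mh + K1) + K2 + Mv * K3) * (1 / L) := by
        have : (Nat.totient r : ℝ) / r * (K2 * ρ / L) = (Nat.totient r : ℝ) / r * ρ * K2 * (1 / L) := by ring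
        rw [this]
        have h6 : K2 ≤ 4 * (Mv * Mh + K1) + K2 + Mv * K3 := by
          have : 0 < Mv * Mh := by positivity
          have : 0 < Mv * K3 := by positivity
          linarith
        gcongr
      have h6 : 4 * (Mv * Mh + K1) * (r.divisors.card : ℝ) ≤
          (4 * (Mv * Mh + K1) + K2 + Mv * K3) * (r.divisors.card : ℝ) := by
        have : 0 < Mv * K3 := by positivity
        have h7 : 4 * (Mv * Mh + K1) ≤ 4 * (Mv * Mh + K1) + K2 + Mv * K3 := by linarith
        exact mul_le_mul_of_nonneg_right h7 hτ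
      linarith
    · rw [if_neg hcase2, if_pos (not_le.1 hcase2), sub_zero]
      have e : Sa g v L A r ρ = (Sa g v L A r ρ - (Nat.totient r : ℝ) / r * ∫ y in A..(r : ℝ), Fy g v L r ρ y) +
          (Nat.totient r : ℝ) / r * (((∫ y in A..(r : ℝ), Fy g v L r ρ y) -
            v (Real.log n / L) * ∫ y in A..(r : ℝ), g.h (2 * Real.pi * y / ρ - 1 / 2)) +
            v (Real.log n / L) * ∫ y in A..(r : ℝ), g.h (2 * Real.pi * y / ρ - 1 / 2)) := by ring
      rw [e]
      refine (abs_add_le _ _).trans ?_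
      rw [abs_mul, abs_of_nonneg hφ]
      have h4 : |((∫ y in A..(r : ℝ), Fy g v L r ρ y) -
            v (Real.log n / L) * ∫ y in A..(r : ℝ), g.h (2 * Real.pi * y / ρ - 1 / 2)) +
            v (Real.log n / L) * ∫ y in A..(r : ℝ), g.h (2 * Real.pi * y / ρ - 1 / 2)| ≤
            K2 * ρ / L + Mv * (K3 * ρ) := by
        refine (abs_add_le _ _).trans (add_le_add hJ ?_)
        rw [abs_mul]
        exact mul_le_mul (hMv _) (h3 ρ A r hρ hAr) (abs_nonneg _) hMv0.le
      have h5 := mul_le_mul_of_nonneg_left h4 hφ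
      have h6 : K2 * ρ / L + Mv * (K3 * ρ) ≤ ρ * (4 * (Mv * Mh + K1) + K2 + Mv * K3) * (1 / L + 1) := by
        have e1 : K2 * ρ / L + Mv * (K3 * ρ) = ρ * K2 * (1 / L) + ρ * (Mv * K3) := by ring
        rw [e1]
        have h8 : 0 < Mv * Mh := by positivity
        have h9 : 0 < Mv * K3 := by positivity
        have h10 : 0 < 1 / L := by positivity
        have e2 : ρ * (4 * (Mv * Mh + K1) + K2 + Mv * K3) * (1 / L + 1) =
          ρ * K2 * (1 / L) + ρ * (Mv * K3) + (ρ * (4 * (Mv * Mh + K1) + Mv * K3) * (1 / L) +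
            ρ * (4 * (Mv * Mh + K1) + K2)) := by ring
        rw [e2]
        have : 0 ≤ ρ * (4 * (Mv * Mh + K1) + Mv * K3) * (1 / L) +
            ρ * (4 * (Mv * Mh + K1) + K2) := by positivity
        linarith
      have h7 := mul_le_mul_of_nonneg_left h6 hφ
      have h8 : 4 * (Mv * Mh + K1) * (r.divisors.card : ℝ) ≤
          (4 * (Mv * Mh + K1) + K2 + Mv * K3) * (r.divisors.card : ℝ) := by
        have : 0 < Mv * K3 := by positivity
        have h9 : 4 * (Mv * Mh + K1) ≤ 4 * (Mv * Mh + K1) + K2 + Mv * K3 := by linarith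
        exact mul_le_mul_of_nonneg_right h9 hτ
      have e3 : (Nat.totient r : ℝ) / r * ρ * (4 * (Mv * Mh + K1) + K2 + Mv * K3) * (1 / L + 1) =
        (Nat.totient r : ℝ) / r * (ρ * (4 * (Mv * Mh + K1) + K2 + Mv * K3) * (1 / L + 1)) := by ring
      rw [e3]
      linarith
  · rw [if_neg hcase, if_neg (by nlinarith [not_lt.1 hcase] : ¬ A ≤ c0 g * ρ), sub_zero]
    have h4 : Sa g v L A r ρ = 0 := by
      unfold Sa
      refine Finset.sum_eq_zero fun a ha => ?_
      rw [Finset.mem_filter] at ha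
      by_contra hne
      have h5 := (Fy_ne hρ hne).2
      have h6 := not_lt.1 hcase
      linarith [ha.2.1]
    rw [h4, abs_zero]

/-- the sum vanishes for `n ≤ T` -/
private lemma Sa_zero {g : TF} {v : ℝ → ℝ} {a b : ℝ} (hv : WR v a b) (ha : 1 < a) : ∃ L₀ : ℝ, 1 ≤ L₀ ∧
    ∀ (L A n ρ : ℝ) (r : ℕ), L₀ ≤ L → 0 < A → 0 < ρ →
    Real.log ρ = Real.log r + L - Real.log n → Real.log n ≤ L → Sa g v L A r ρ = 0 := by
  have hc0 := c0_pos g
  refine ⟨max 1 (-Real.log (c0 g) / (a - 1) + 1), le_max_left _ _, fun L A n ρ r hL hA hρ hlog hn => ?_⟩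
  have hL1 : 1 ≤ L := (le_max_left _ _).trans hL
  have hL2 : -Real.log (c0 g) / (a - 1) + 1 ≤ L := (le_max_right _ _).trans hL
  unfold Sa
  refine Finset.sum_eq_zero fun m hm => ?_
  rw [Finset.mem_filter] at hm
  by_contra hne
  have h1 := (Fy_ne hρ hne).1
  have hm0 : (0 : ℝ) < m := lt_trans hA hm.2.1
  have h2 : Real.log (c0 g) + Real.log ρ ≤ Real.log m := by
    rw [← Real.log_mul hc0.ne' hρ.ne']
    exact Real.log_le_log (by positivity) h1.le
  have h3 : a ≤ 1 + (Real.log r - Real.log m) / L := (hv.2.2.2 _ (left_ne_zero_of_mul hne)).1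
  have h4 : (a - 1) * L ≤ Real.log r - Real.log m := by
    have h5 : a - 1 ≤ (Real.log r - Real.log m) / L := by linarith
    rwa [le_div_iff₀ (by linarith)] at h5
  have h5 : -Real.log (c0 g) < (a - 1) * L := by
    have h6 : -Real.log (c0 g) / (a - 1) < L := by linarith
    rw [div_lt_iff₀ (by linarith)] at h6
    linarith
  rw [hlog] at h2
  linarith

/-! ### The sum over `n` -/

open Pool.Agent.Helper57.LS Pool.Agent.Helper57.UB in
open scoped ArithmeticFunction in
private lemma noncop {N r : ℕ} (hr : r ≠ 0) :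
    ∑ n ∈ (Finset.Icc 1 N).filter (fun n => ¬ Nat.Coprime n r), Λ n ≤
      (r.divisors.card : ℝ) * ((Nat.log 2 N : ℝ) * Real.log N) := by
  classical
  have h1 : ∑ n ∈ (Finset.Icc 1 N).filter (fun n => ¬ Nat.Coprime n r), Λ n =
      ∑ n ∈ ((Finset.Icc 1 N).filter (fun n => ¬ Nat.Coprime n r)).filter (fun n => Λ n ≠ 0), Λ n :=
    (Finset.sum_filter_ne_zero _).symm
  rw [h1]
  have h2 : ((Finset.Icc 1 N).filter (fun n => ¬ Nat.Coprime n r)).filter (fun n => Λ n ≠ 0) ⊆
      (r.primeFactors ×ˢ Finset.Icc 1 (Nat.log 2 N)).image (fun x => x.1 ^ x.2) := by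
    intro n hn
    rw [Finset.mem_filter, Finset.mem_filter, Finset.mem_Icc] at hn
    obtain ⟨⟨⟨hn1, hnN⟩, hcop⟩, hL⟩ := hn
    rw [ArithmeticFunction.vonMangoldt_ne_zero_iff] at hL
    obtain ⟨p, k, hp, hk, rfl⟩ := hL
    have hp' : p.Prime := hp.nat_prime
    rw [Finset.mem_image]
    refine ⟨(p, k), ?_, rfl⟩
    rw [Finset.mem_product, Finset.mem_Icc, Nat.mem_primeFactors]
    refine ⟨⟨hp', ?_, hr⟩, hk, ?_⟩
    · by_contra hnd
      exact hcop (Nat.Coprime.pow_left k ((Nat.Prime.coprime_iff_not_dvd hp').2 hnd))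
    · have h3 : 2 ^ k ≤ N := (Nat.pow_le_pow_left hp'.two_le k).trans hnN
      exact Nat.le_log_of_pow_le (by norm_num) h3
  calc _ ≤ ∑ n ∈ ((Finset.Icc 1 N).filter (fun n => ¬ Nat.Coprime n r)).filter (fun n => Λ n ≠ 0),
        Real.log N := by
        refine Finset.sum_le_sum fun n hn => ?_
        rw [Finset.mem_filter, Finset.mem_filter, Finset.mem_Icc] at hn
        refine ArithmeticFunction.vonMangoldt_le_log.trans ?_
        apply Real.log_le_log
        · exact_mod_cast hn.1.1.1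
        · exact_mod_cast hn.1.1.2
    _ = (((Finset.Icc 1 N).filter (fun n => ¬ Nat.Coprime n r)).filter (fun n => Λ n ≠ 0)).card *
        Real.log N := by rw [Finset.sum_const, nsmul_eq_mul]
    _ ≤ ((r.divisors.card * Nat.log 2 N : ℕ) : ℝ) * Real.log N := by
        have h4 : (((Finset.Icc 1 N).filter (fun n => ¬ Nat.Coprime n r)).filter (fun n => Λ n ≠ 0)).card ≤
            r.divisors.card * Nat.log 2 N := by
          refine (Finset.card_le_card h2).trans (Finset.card_image_le.trans ?_)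
          rw [Finset.card_product, Nat.card_Icc, Nat.add_sub_cancel]
          refine Nat.mul_le_mul_right _ (Finset.card_le_card ?_)
          intro p hp
          rw [Nat.mem_primeFactors] at hp
          rw [Nat.mem_divisors]
          exact ⟨hp.2.1, hp.2.2⟩
        have h5 : 0 ≤ Real.log N := Real.log_natCast_nonneg N
        exact mul_le_mul_of_nonneg_right (by exact_mod_cast h4) h5
    _ = _ := by push_cast; ring

/-- the sum over `n` -/
private noncomputable def Nr (g : TF) (w v : ℝ → ℝ) (e T : ℝ) (r : ℕ) : ℝ :=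
  ∑ n ∈ (Finset.Icc 1 ⌊T ^ 2⌋₊).filter (fun n => Nat.Coprime n r), ArithmeticFunction.vonMangoldt n *
    (w (Real.log n / Real.log T) * Sa g v (Real.log T) (T ^ e) r (r * T / n))

private noncomputable def Phi (w v : ℝ → ℝ) (e u : ℝ) : ℝ := ∫ x in (0:ℝ)..(u + 1 - e), w x * v x

open Pool.Agent.Helper57.LS Pool.Agent.Helper57.UB in
open scoped ArithmeticFunction in
/-- the sum over `n` of the smooth weight -/
private lemma psum_wv {w v : ℝ → ℝ} {a b a' b' : ℝ} (hw : WR w a b) (hv : WR v a' b') {e c : ℝ} :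
    ∃ K : ℝ, 0 < K ∧ ∀ L s : ℝ, 1 ≤ L → 0 < Real.log c + s + (1 - e) * L → Real.log c + s + (1 - e) * L ≤ 2 * L →
    |(∑ n ∈ Finset.range (NX (Real.log c + s + (1 - e) * L) + 1), (Λ n / n) * (w (Real.log n / L) * v (Real.log n / L))) -
      L * Phi w v e (s / L)| ≤ K := by
  obtain ⟨Mw, hMw0, hMw, hMw'⟩ := bdd_v hw
  obtain ⟨Mv, hMv0, hMv, hMv'⟩ := bdd_v hv
  have hCM := CMe_pos
  refine ⟨CMe * (Mw * Mv + 4 * (Mw * Mv)) + Mw * Mv * |Real.log c|, by positivity, fun L s hL hX hX2 => ?_⟩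
  have hL0 : 0 < L := by linarith
  set X := Real.log c + s + (1 - e) * L with hXd
  have hwd := hw.1.differentiable (by simp)
  have hvd := hv.1.differentiable (by simp)
  have hwc : Continuous (deriv w) := hw.1.continuous_deriv (by exact_mod_cast le_top)
  have hvc : Continuous (deriv v) := hv.1.continuous_deriv (by exact_mod_cast le_top)
  have hw0 := hw.1.continuous
  have hv0 := hv.1.continuous
  have hd : ∀ y : ℝ, HasDerivAt (fun y => w (y / L) * v (y / L))
      (deriv w (y / L) * (1 / L) * v (y / L) + w (y / L) * (deriv v (y / L) * (1 / L))) y := by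
    intro y
    have h1 : HasDerivAt (fun y : ℝ => y / L) (1 / L) y := (hasDerivAt_id y).div_const L
    exact (HasDerivAt.comp y (hwd _).hasDerivAt h1).mul (HasDerivAt.comp y (hvd _).hasDerivAt h1)
  have h0 : (fun y => w (y / L) * v (y / L)) 0 = 0 := by
    have h1 : w (0 / L) = 0 := by
      by_contra hne
      have := (hw.2.2.2 _ hne).1
      rw [zero_div] at this
      linarith [hw.2.1]
    simp only [h1, zero_mul]
  have hb : ∀ y : ℝ, 0 ≤ y → y ≤ X →
      |deriv w (y / L) * (1 / L) * v (y / L) + w (y / L) * (deriv v (y / L) * (1 / L))| ≤ 2 * (Mw * Mv) / L := by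
    intro y _ _
    refine (abs_add_le _ _).trans ?_
    rw [abs_mul, abs_mul, abs_mul, abs_mul, abs_of_pos (by positivity : 0 < 1 / L)]
    have h1 : |deriv w (y / L)| * (1 / L) * |v (y / L)| ≤ Mw * (1 / L) * Mv := by
      gcongr
      · exact hMw' _
      · exact hMv _
    have h2 : |w (y / L)| * (|deriv v (y / L)| * (1 / L)) ≤ Mw * (Mv * (1 / L)) := by
      gcongr
      · exact hMw _
      · exact hMv' _
    calc _ ≤ Mw * (1 / L) * Mv + Mw * (Mv * (1 / L)) := add_le_add h1 h2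
      _ = _ := by ring
  have key := psum_gen hX hd (by fun_prop) h0 hb
  have h3 : |w (X / L) * v (X / L)| ≤ Mw * Mv := by
    rw [abs_mul]
    exact mul_le_mul (hMw _) (hMv _) (abs_nonneg _) hMw0.le
  have h4 : 2 * (Mw * Mv) / L * X ≤ 4 * (Mw * Mv) := by
    rw [div_mul_eq_mul_div, div_le_iff₀ hL0]
    nlinarith [mul_pos hMw0 hMv0]
  have h5 : CMe * (|w (X / L) * v (X / L)| + 2 * (Mw * Mv) / L * X) ≤ CMe * (Mw * Mv + 4 * (Mw * Mv)) := by
    gcongr
  have hint : ∀ p q : ℝ, IntervalIntegrable (fun x => w x * v x) volume p q := fun p q =>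
    (hw0.mul hv0).intervalIntegrable _ _
  have h6 : (∫ y in (0:ℝ)..X, w (y / L) * v (y / L)) = L * ∫ x in (0:ℝ)..(X / L), w x * v x := by
    have := intervalIntegral.integral_comp_div (a := 0) (b := X) (fun x => w x * v x) hL0.ne'
    rw [this, zero_div, smul_eq_mul]
  have h7 : |(∫ x in (0:ℝ)..(X / L), w x * v x) - Phi w v e (s / L)| ≤ Mw * Mv * (|Real.log c| / L) := by
    unfold Phi
    rw [intervalIntegral.integral_interval_sub_left (hint _ _) (hint _ _)]
    have h8 := intervalIntegral.norm_integral_le_of_norm_le_const (a := s / L + 1 - e) (b := X / L)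
      (f := fun x => w x * v x) (C := Mw * Mv) (fun x _ => by
        rw [Real.norm_eq_abs, abs_mul]
        exact mul_le_mul (hMw _) (hMv _) (abs_nonneg _) hMw0.le)
    rw [Real.norm_eq_abs] at h8
    refine h8.trans (le_of_eq ?_)
    have h9 : X / L - (s / L + 1 - e) = Real.log c / L := by
      rw [hXd]
      field_simp
      ring
    rw [h9, abs_div, abs_of_pos hL0]
  rw [h6] at key
  have h8 : |L * (∫ x in (0:ℝ)..(X / L), w x * v x) - L * Phi w v e (s / L)| ≤ Mw * Mv * |Real.log c| := by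
    rw [← mul_sub, abs_mul, abs_of_pos hL0]
    calc _ ≤ L * (Mw * Mv * (|Real.log c| / L)) := mul_le_mul_of_nonneg_left h7 hL0.le
      _ = _ := by field_simp
  calc _ ≤ |(∑ n ∈ Finset.range (NX X + 1), (Λ n / n) * (w (Real.log n / L) * v (Real.log n / L))) -
        L * (∫ x in (0:ℝ)..(X / L), w x * v x)| +
        |L * (∫ x in (0:ℝ)..(X / L), w x * v x) - L * Phi w v e (s / L)| := abs_sub_le _ _ _
    _ ≤ _ := by
        refine add_le_add ?_ h8
        exact key.trans h5

open Pool.Agent.Helper57.LS Pool.Agent.Helper57.UB in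
open scoped ArithmeticFunction in
private lemma sumA (N M : ℕ) : ∑ n ∈ Finset.Icc 1 N, (if n ≤ M then Λ n else 0) ≤ (Real.log 4 + 4) * M := by
  rw [← Finset.sum_filter]
  refine (Finset.sum_le_sum_of_subset_of_nonneg ?_ fun n _ _ =>
    ArithmeticFunction.vonMangoldt_nonneg).trans (psi_range M)
  intro n hn
  rw [Finset.mem_filter] at hn
  rw [Finset.mem_range]
  omega

open Pool.Agent.Helper57.LS Pool.Agent.Helper57.UB in
open scoped ArithmeticFunction in
private lemma sumB {N : ℕ} (hN : 1 ≤ N) : ∑ n ∈ Finset.Icc 1 N, Λ n / n ≤ Real.log N + (Real.log 4 + 4) := by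
  refine (Finset.sum_le_sum_of_subset_of_nonneg ?_ fun n _ _ =>
    div_nonneg ArithmeticFunction.vonMangoldt_nonneg (Nat.cast_nonneg n)).trans (vM_upper hN)
  intro n hn
  rw [Finset.mem_Icc] at hn
  rw [Finset.mem_range]
  omega

open Pool.Agent.Helper57.LS Pool.Agent.Helper57.UB in
open scoped ArithmeticFunction in
private lemma sumC (N M₀ M₁ : ℕ) (h : M₀ ≤ M₁) :
    ∑ n ∈ Finset.Icc 1 N, (if M₀ < n ∧ n ≤ M₁ then Λ n / n else 0) ≤
      ∑ n ∈ Finset.range (M₁ + 1), Λ n / n - ∑ n ∈ Finset.range (M₀ + 1), Λ n / n := by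
  rw [← Finset.sum_filter]
  have h1 : Finset.range (M₀ + 1) ⊆ Finset.range (M₁ + 1) := Finset.range_mono (by omega)
  rw [← Finset.sum_sdiff_eq_sub h1]
  refine Finset.sum_le_sum_of_subset_of_nonneg ?_ fun n _ _ =>
    div_nonneg ArithmeticFunction.vonMangoldt_nonneg (Nat.cast_nonneg n)
  intro n hn
  rw [Finset.mem_filter] at hn
  rw [Finset.mem_sdiff, Finset.mem_range, Finset.mem_range]
  omega

private lemma Sa_bound {g : TF} {v : ℝ → ℝ} {a b : ℝ} (hv : WR v a b) : ∃ K : ℝ, 0 < K ∧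
    ∀ (L A ρ : ℝ) (r : ℕ), |Sa g v L A r ρ| ≤ K * r := by
  obtain ⟨Mv, hMv0, hMv, hMv'⟩ := bdd_v hv
  obtain ⟨Mh, hMh0, hMh, hMh'⟩ := bdd_h g
  refine ⟨Mv * Mh, by positivity, fun L A ρ r => ?_⟩
  unfold Sa
  refine (Finset.abs_sum_le_sum_abs _ _).trans ?_
  have hFb : ∀ y, |Fy g v L r ρ y| ≤ Mv * Mh := fun y => by
    unfold Fy
    rw [abs_mul]
    exact mul_le_mul (hMv _) (hMh _) (abs_nonneg _) hMv0.le
  refine (Finset.sum_le_sum fun (a : ℕ) _ => hFb (a : ℝ)).trans ?_
  rw [Finset.sum_const, nsmul_eq_mul, mul_comm]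
  refine mul_le_mul_of_nonneg_left ?_ (by positivity)
  have h1 := Finset.card_filter_le (Finset.Icc 1 ⌊(r : ℝ)⌋₊) (fun a : ℕ => A < (a : ℝ) ∧ Nat.Coprime a r)
  rw [Nat.card_Icc, Nat.floor_natCast, Nat.add_sub_cancel] at h1
  rw [Nat.floor_natCast]
  exact_mod_cast h1

open Pool.Agent.Helper57.LS Pool.Agent.Helper57.UB in
open scoped ArithmeticFunction in
private lemma Nr_est {g : TF} {w v : ℝ → ℝ} {a b a' b' e : ℝ} (hw : WR w a b) (hv : WR v a' b') (ha' : 1 < a')
    (he : 0 < e) (he1 : e < 1 / 4) :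
    ∃ K : ℝ, 0 < K ∧ ∀ᶠ T : ℝ in atTop, ∀ r : ℕ, r ≠ 0 → T ^ e < (r : ℝ) → (r : ℝ) ≤ T ^ (1 / 2 - e) →
    |Nr g w v e T r - T * (∫ x, g.h x) / (2 * Real.pi) * (Nat.totient r : ℝ) *
      (Real.log T * Phi w v e (Real.log r / Real.log T))| ≤
      K * (T * (Nat.totient r : ℝ) + (r.divisors.card : ℝ) * r * T ^ (1 - e)) := by
  obtain ⟨K1, hK1, h1⟩ := Sa_est (g := g) hv
  obtain ⟨L₀, hL₀, h2⟩ := Sa_zero (g := g) hv ha'
  obtain ⟨K2, hK2, h3⟩ := psum_wv hw hv (c := c0 g) (e := e)
  obtain ⟨K3, hK3, h4⟩ := Sa_bound (g := g) hv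
  obtain ⟨Mw, hMw0, hMw, hMw'⟩ := bdd_v hw
  have hc0 := c0_pos g
  have hc01 := c0_lt_c1 g
  have hc1 := c1_lt_one g
  have hc1' : 0 < c1 g := hc0.trans hc01
  have hpi := Real.pi_pos
  have hlog4 : 0 < Real.log 4 := Real.log_pos (by norm_num)
  have hCM := CMe_pos
  set I0 := ∫ x, g.h x with hI0
  have hD : 0 < Real.log (c1 g) - Real.log (c0 g) := by
    have := Real.log_lt_log hc0 hc01
    linarith
  refine ⟨|I0| / (2 * Real.pi) * K2 + Mw * (K1 * ((Real.log 4 + 4) * c1 g) +
    K1 * ((2 + (Real.log 4 + 4)) + (Real.log (c1 g) - Real.log (c0 g) + 2 * CMe))) + Mw * K3, by positivity, ?_⟩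
  have hev1 : ∀ᶠ T : ℝ in atTop, max L₀ (-Real.log (c0 g) + 1) ≤ Real.log T :=
    Real.tendsto_log_atTop.eventually_ge_atTop _
  have hev2 : ∀ᶠ T : ℝ in atTop, 8 * Real.log T ^ 2 ≤ T ^ (1 - e) := by
    have h5 := isLittleO_log_rpow_rpow_atTop 2 (show 0 < 1 - e by linarith)
    have h6 := h5.bound (show (0 : ℝ) < 1 / 8 by norm_num)
    filter_upwards [h6, eventually_gt_atTop 0] with T hT hT0
    rw [Real.norm_eq_abs, Real.norm_eq_abs, abs_of_pos (Real.rpow_pos_of_pos hT0 _), Real.rpow_two,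
      abs_of_nonneg (sq_nonneg _)] at hT
    linarith
  filter_upwards [hev1, hev2, eventually_gt_atTop 1] with T hT1 hT2 hT3 r hr hr1 hr2
  have hT0 : 0 < T := by linarith
  set L := Real.log T with hLd
  have hLL : L₀ ≤ L := (le_max_left _ _).trans hT1
  have hL1 : 1 ≤ L := hL₀.trans hLL
  have hL0 : 0 < L := by linarith
  have hLc : -Real.log (c0 g) + 1 ≤ L := (le_max_right _ _).trans hT1
  have hr0 : (0 : ℝ) < r := by exact_mod_cast Nat.pos_of_ne_zero hr
  have hφ : (0 : ℝ) ≤ (Nat.totient r : ℝ) := Nat.cast_nonneg _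
  have hTe : 0 < T ^ e := Real.rpow_pos_of_pos hT0 _
  have hlr1 : e * L < Real.log r := by
    have := Real.log_lt_log hTe hr1
    rwa [Real.log_rpow hT0] at this
  have hlr2 : Real.log r ≤ (1 / 2 - e) * L := by
    have := Real.log_le_log hr0 hr2
    rwa [Real.log_rpow hT0] at this
  -- the ranges
  set X := Real.log (c0 g) + Real.log r + (1 - e) * L with hX
  set X₁ := Real.log (c1 g) + Real.log r + (1 - e) * L with hX₁
  have hXX : X ≤ X₁ := by rw [hX, hX₁]; linarith
  have hX0 : 0 < X := by rw [hX]; linarith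
  have hlc1 : Real.log (c1 g) < 0 := Real.log_neg hc1' hc1
  have hX₁2 : X₁ ≤ 2 * L := by rw [hX₁]; nlinarith
  have hX2 : X ≤ 2 * L := hXX.trans hX₁2
  set N := ⌊T ^ 2⌋₊ with hN
  have hT21 : 1 ≤ T ^ 2 := by nlinarith
  have hN1 : 1 ≤ N := by
    rw [hN, Nat.le_floor_iff (by positivity)]
    exact_mod_cast hT21
  have hNT : (N : ℝ) ≤ T ^ 2 := Nat.floor_le (by positivity)
  have hlogN : Real.log N ≤ 2 * L := by
    have h5 := Real.log_le_log (by exact_mod_cast hN1) hNT
    rw [Real.log_pow] at h5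
    exact_mod_cast h5
  have hlogN0 : 0 ≤ Real.log N := Real.log_natCast_nonneg N
  have hexp : ∀ c : ℝ, 0 < c → Real.exp (Real.log c + Real.log r + (1 - e) * L) = c * r * T ^ (1 - e) := by
    intro c hc
    rw [Real.exp_add, Real.exp_add, Real.exp_log hc, Real.exp_log hr0, Real.rpow_def_of_pos hT0, mul_comm L]
  have hTT : T ^ e * T ^ (1 - e) = T := by
    rw [← Real.rpow_add hT0]
    norm_num
  have hcond : ∀ (c : ℝ) (n : ℕ), 0 < c → 1 ≤ n →
      (T ^ e ≤ c * (r * T / n) ↔ (n : ℝ) ≤ c * r * T ^ (1 - e)) := by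
    intro c n hc hn
    have hn0 : (0 : ℝ) < n := by exact_mod_cast hn
    have e1 : c * (r * T / n) = c * r * T ^ (1 - e) * T ^ e / n := by
      conv_lhs => rw [← hTT]
      ring
    rw [e1, le_div_iff₀ hn0, mul_comm (T ^ e)]
    constructor
    · intro h5
      exact le_of_mul_le_mul_right h5 hTe
    · intro h5
      exact mul_le_mul_of_nonneg_right h5 hTe.le
  have hcond' : ∀ (c : ℝ) (n : ℕ), 0 < c → 1 ≤ n →
      (c * (r * T / n) < T ^ e ↔ c * r * T ^ (1 - e) < (n : ℝ)) := by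
    intro c n hc hn
    rw [← not_le, hcond c n hc hn, not_le]
  have hNXi : ∀ (Y : ℝ) (n : ℕ), (n : ℝ) ≤ Real.exp Y ↔ n ≤ NX Y := by
    intro Y n
    unfold NX
    rw [Nat.le_floor_iff (Real.exp_pos Y).le]
  set mn : ℕ → ℝ := fun n => if T ^ e ≤ c0 g * (r * T / n) then
    (Nat.totient r : ℝ) / r * ((r * T / n) / (2 * Real.pi) * I0) * v (Real.log n / L) else 0 with hmn
  set en : ℕ → ℝ := fun n => if T ^ e < c1 g * (r * T / n) then
    K1 * r.divisors.card + (Nat.totient r : ℝ) / r * (r * T / n) * K1 * (1 / L +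
      if c0 g * (r * T / n) < T ^ e then 1 else 0) else 0 with hen
  have hen0 : ∀ n, 0 ≤ en n := by
    intro n
    simp only [hen]
    split_ifs <;> positivity
  have hpt : ∀ n ∈ Finset.Icc 1 N, |Sa g v L (T ^ e) r (r * T / n) - mn n| ≤ en n := by
    intro n hn
    rw [Finset.mem_Icc] at hn
    have hn0 : (0 : ℝ) < n := by exact_mod_cast hn.1
    have hρ : 0 < r * T / n := by positivity
    have hlogρ : Real.log (r * T / n) = Real.log r + L - Real.log n := by
      rw [Real.log_div (by positivity) hn0.ne', Real.log_mul hr0.ne' hT0.ne']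
    by_cases hc : Real.log n ≤ L
    · have h5 := h2 L (T ^ e) n (r * T / n) r hLL hTe hρ hlogρ hc
      have h6 : v (Real.log n / L) = 0 := by
        by_contra hne
        have h7 := (hv.2.2.2 _ hne).1
        have h8 : Real.log n / L ≤ 1 := by rw [div_le_one hL0]; exact hc
        linarith
      have h7 : mn n = 0 := by
        simp only [hmn]
        rw [h6]
        split_ifs <;> ring
      rw [h5, h7, sub_zero, abs_zero]
      exact hen0 n
    · have h5 : T ≤ n := by
        rw [← Real.log_le_log_iff hT0 hn0]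
        exact (not_le.1 hc).le
      have h6 : r * T / n ≤ r := by
        rw [div_le_iff₀ hn0]
        exact mul_le_mul_of_nonneg_left h5 hr0.le
      exact h1 L (T ^ e) n (r * T / n) r hL1 hTe hr hr1.le hρ h6 hlogρ
  -- splitting
  have hsplit : Nr g w v e T r = ∑ n ∈ Finset.Icc 1 N, Λ n * (w (Real.log n / L) * mn n) +
      ∑ n ∈ Finset.Icc 1 N, Λ n * (w (Real.log n / L) * (Sa g v L (T ^ e) r (r * T / n) - mn n)) -
      ∑ n ∈ (Finset.Icc 1 N).filter (fun n => ¬ Nat.Coprime n r),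
        Λ n * (w (Real.log n / L) * Sa g v L (T ^ e) r (r * T / n)) := by
    rw [← Finset.sum_add_distrib]
    have h5 : ∀ n ∈ Finset.Icc 1 N, Λ n * (w (Real.log n / L) * mn n) +
        Λ n * (w (Real.log n / L) * (Sa g v L (T ^ e) r (r * T / n) - mn n)) =
        Λ n * (w (Real.log n / L) * Sa g v L (T ^ e) r (r * T / n)) := fun n _ => by ring
    rw [Finset.sum_congr rfl h5, ← Finset.sum_filter_add_sum_filter_not (Finset.Icc 1 N)
      (fun n => Nat.Coprime n r)]
    unfold Nr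
    ring
  -- main
  have hmain : ∑ n ∈ Finset.Icc 1 N, Λ n * (w (Real.log n / L) * mn n) =
      T * I0 / (2 * Real.pi) * (Nat.totient r : ℝ) * ∑ n ∈ Finset.range (NX X + 1),
        (Λ n / n) * (w (Real.log n / L) * v (Real.log n / L)) := by
    have h5 : ∀ n ∈ Finset.Icc 1 N, Λ n * (w (Real.log n / L) * mn n) = if n ≤ NX X then
        T * I0 / (2 * Real.pi) * (Nat.totient r : ℝ) * ((Λ n / n) * (w (Real.log n / L) * v (Real.log n / L)))
        else 0 := by
      intro n hn
      rw [Finset.mem_Icc] at hn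
      have hn0 : (0 : ℝ) < n := by exact_mod_cast hn.1
      simp only [hmn]
      have h6 : (T ^ e ≤ c0 g * (r * T / n)) ↔ n ≤ NX X := by
        rw [hcond _ n hc0 hn.1, ← hNXi, hX, hexp _ hc0]
      by_cases h7 : n ≤ NX X
      · rw [if_pos (h6.2 h7), if_pos h7]
        field_simp
      · rw [if_neg (fun h8 => h7 (h6.1 h8)), if_neg h7]
        ring
    rw [Finset.sum_congr rfl h5, ← Finset.sum_filter, Finset.mul_sum]
    refine Finset.sum_subset ?_ ?_
    · intro n hn
      rw [Finset.mem_filter] at hn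
      rw [Finset.mem_range]
      omega
    · intro n hn hn2
      rw [Finset.mem_range] at hn
      rw [Finset.mem_filter, Finset.mem_Icc] at hn2
      rcases Nat.eq_zero_or_pos n with rfl | hpos
      · simp
      · exfalso
        apply hn2
        refine ⟨⟨hpos, ?_⟩, by omega⟩
        rw [hN, Nat.le_floor_iff (by positivity)]
        have h6 : (n : ℝ) ≤ Real.exp X := (hNXi X n).2 (by omega)
        have h7 : Real.exp X ≤ T ^ 2 := by
          calc Real.exp X ≤ Real.exp (2 * L) := Real.exp_le_exp.2 hX2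
            _ = T ^ 2 := by rw [mul_comm, Real.exp_mul, hLd, Real.exp_log hT0, Real.rpow_two]
        linarith
  have hmain2 : |T * I0 / (2 * Real.pi) * (Nat.totient r : ℝ) * (∑ n ∈ Finset.range (NX X + 1),
        (Λ n / n) * (w (Real.log n / L) * v (Real.log n / L))) -
      T * I0 / (2 * Real.pi) * (Nat.totient r : ℝ) * (L * Phi w v e (Real.log r / L))| ≤
      |I0| / (2 * Real.pi) * K2 * (T * (Nat.totient r : ℝ)) := by
    rw [← mul_sub, abs_mul]
    have h5 := h3 L (Real.log r) hL1 hX0 hX2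
    have h6 : |T * I0 / (2 * Real.pi) * (Nat.totient r : ℝ)| = |I0| / (2 * Real.pi) * (T * (Nat.totient r : ℝ)) := by
      rw [abs_mul, abs_div, abs_mul, abs_of_pos hT0, abs_of_pos (by positivity : 0 < 2 * Real.pi),
        abs_of_nonneg hφ]
      ring
    rw [h6]
    calc _ ≤ |I0| / (2 * Real.pi) * (T * (Nat.totient r : ℝ)) * K2 := by
          refine mul_le_mul_of_nonneg_left h5 (by positivity)
      _ = _ := by ring
  -- error
  have hNX₁ : (NX X₁ : ℝ) ≤ c1 g * r * T ^ (1 - e) := by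
    rw [← hexp _ hc1', ← hX₁]
    exact Nat.floor_le (Real.exp_pos _).le
  have herr : |∑ n ∈ Finset.Icc 1 N, Λ n * (w (Real.log n / L) * (Sa g v L (T ^ e) r (r * T / n) - mn n))| ≤
      Mw * (K1 * ((Real.log 4 + 4) * c1 g) * ((r.divisors.card : ℝ) * r * T ^ (1 - e)) +
        K1 * ((2 + (Real.log 4 + 4)) + (Real.log (c1 g) - Real.log (c0 g) + 2 * CMe)) *
          (T * (Nat.totient r : ℝ))) := by
    have h5 : ∀ n ∈ Finset.Icc 1 N, |Λ n * (w (Real.log n / L) * (Sa g v L (T ^ e) r (r * T / n) - mn n))| ≤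
        Mw * (K1 * (r.divisors.card : ℝ) * (if n ≤ NX X₁ then Λ n else 0) +
          K1 * (T * (Nat.totient r : ℝ)) * (1 / L * (Λ n / n) + if NX X < n ∧ n ≤ NX X₁ then Λ n / n else 0)) := by
      intro n hn
      have h6 := hpt n hn
      rw [Finset.mem_Icc] at hn
      have hn0 : (0 : ℝ) < n := by exact_mod_cast hn.1
      have hΛ : 0 ≤ Λ n := ArithmeticFunction.vonMangoldt_nonneg
      rw [abs_mul, abs_mul, abs_of_nonneg hΛ]
      have h7 : Λ n * (|w (Real.log n / L)| * |Sa g v L (T ^ e) r (r * T / n) - mn n|) ≤ Λ n * (Mw * en n) := by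
        refine mul_le_mul_of_nonneg_left ?_ hΛ
        exact mul_le_mul (hMw _) h6 (abs_nonneg _) hMw0.le
      refine h7.trans ?_
      have h8 : Λ n * (Mw * en n) = Mw * (Λ n * en n) := by ring
      rw [h8]
      refine mul_le_mul_of_nonneg_left ?_ hMw0.le
      simp only [hen]
      have hc3 : (T ^ e < c1 g * (r * T / n)) → n ≤ NX X₁ := by
        intro h9
        rw [← hNXi, hX₁, hexp _ hc1']
        exact (hcond _ n hc1' hn.1).1 h9.le
      have hc4 : (c0 g * (r * T / n) < T ^ e) ↔ NX X < n := by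
        rw [hcond' _ n hc0 hn.1, ← hexp _ hc0, ← hX, ← not_le, hNXi, not_le]
      have hr0' : (r : ℝ) ≠ 0 := hr0.ne'
      have hsm : (Nat.totient r : ℝ) / r * (r * T / n) = (Nat.totient r : ℝ) * T / n := by
        rw [div_mul_div_comm, mul_comm (r : ℝ) T, ← mul_assoc, mul_comm (r : ℝ) (n : ℝ), mul_div_mul_right _ _ hr0']
      by_cases h9 : T ^ e < c1 g * (r * T / n)
      · rw [if_pos h9, if_pos (hc3 h9)]
        by_cases h10 : NX X < n
        · rw [if_pos (hc4.2 h10), if_pos ⟨h10, hc3 h9⟩]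
          refine le_of_eq ?_
          rw [hsm]
          ring
        · rw [if_neg (fun h11 => h10 (hc4.1 h11)), if_neg (fun h11 => h10 h11.1)]
          refine le_of_eq ?_
          rw [add_zero, add_zero, hsm]
          ring
      · rw [if_neg h9, mul_zero]
        have p3 : 0 ≤ (if n ≤ NX X₁ then Λ n else 0) := by
          split_ifs
          · exact hΛ
          · exact le_rfl
        have p4 : 0 ≤ (if NX X < n ∧ n ≤ NX X₁ then Λ n / n else 0) := by
          split_ifs
          · exact div_nonneg hΛ hn0.le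
          · exact le_rfl
        have p5 : 0 ≤ K1 * (r.divisors.card : ℝ) := mul_nonneg hK1.le (Nat.cast_nonneg _)
        have p6 : 0 ≤ K1 * (T * (Nat.totient r : ℝ)) := mul_nonneg hK1.le (mul_nonneg hT0.le hφ)
        have p7 : 0 ≤ 1 / L * (Λ n / n) := mul_nonneg (one_div_pos.2 hL0).le (div_nonneg hΛ hn0.le)
        exact add_nonneg (mul_nonneg p5 p3) (mul_nonneg p6 (add_nonneg p7 p4))
    refine (Finset.abs_sum_le_sum_abs _ _).trans ((Finset.sum_le_sum h5).trans ?_)
    rw [← Finset.mul_sum, Finset.sum_add_distrib, ← Finset.mul_sum, ← Finset.mul_sum,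
      Finset.sum_add_distrib, ← Finset.mul_sum]
    refine mul_le_mul_of_nonneg_left (add_le_add ?_ ?_) hMw0.le
    · have h6 := sumA N (NX X₁)
      have h7 : (Real.log 4 + 4) * (NX X₁ : ℝ) ≤ (Real.log 4 + 4) * (c1 g * r * T ^ (1 - e)) :=
        mul_le_mul_of_nonneg_left hNX₁ (by positivity)
      calc _ ≤ K1 * (r.divisors.card : ℝ) * ((Real.log 4 + 4) * (c1 g * r * T ^ (1 - e))) :=
            mul_le_mul_of_nonneg_left (h6.trans h7) (by positivity)
        _ = _ := by ring
    · have h6 := sumB hN1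
      have h7 := sumC N (NX X) (NX X₁) (by
        unfold NX
        exact Nat.floor_le_floor (Real.exp_le_exp.2 hXX))
      have h8 := mertens hX0.le
      have h9 := mertens (hX0.le.trans hXX)
      rw [abs_le] at h8 h9
      have h10 : 1 / L * ∑ n ∈ Finset.Icc 1 N, Λ n / n ≤ 2 + (Real.log 4 + 4) := by
        rw [one_div, inv_mul_le_iff₀ hL0]
        nlinarith
      have h11 : X₁ - X = Real.log (c1 g) - Real.log (c0 g) := by rw [hX, hX₁]; ring
      calc _ ≤ K1 * (T * (Nat.totient r : ℝ)) * ((2 + (Real.log 4 + 4)) +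
            (Real.log (c1 g) - Real.log (c0 g) + 2 * CMe)) := by
            refine mul_le_mul_of_nonneg_left (add_le_add h10 ?_) (by positivity)
            linarith
        _ = _ := by ring
  -- the terms not coprime to r
  have hnc : |∑ n ∈ (Finset.Icc 1 N).filter (fun n => ¬ Nat.Coprime n r),
        Λ n * (w (Real.log n / L) * Sa g v L (T ^ e) r (r * T / n))| ≤
      Mw * K3 * ((r.divisors.card : ℝ) * r * T ^ (1 - e)) := by
    have h5 : ∀ n ∈ (Finset.Icc 1 N).filter (fun n => ¬ Nat.Coprime n r),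
        |Λ n * (w (Real.log n / L) * Sa g v L (T ^ e) r (r * T / n))| ≤ Mw * (K3 * r) * Λ n := by
      intro n _
      have hΛ : 0 ≤ Λ n := ArithmeticFunction.vonMangoldt_nonneg
      rw [abs_mul, abs_mul, abs_of_nonneg hΛ, mul_comm]
      refine mul_le_mul_of_nonneg_right ?_ hΛ
      exact mul_le_mul (hMw _) (h4 _ _ _ r) (abs_nonneg _) hMw0.le
    refine (Finset.abs_sum_le_sum_abs _ _).trans ((Finset.sum_le_sum h5).trans ?_)
    rw [← Finset.mul_sum]
    have h6 := noncop (N := N) hr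
    have h7 : (Nat.log 2 N : ℝ) ≤ 4 * L := by
      have h8 : 2 ^ Nat.log 2 N ≤ N := Nat.pow_log_le_self 2 (by omega)
      have h9 : ((2 : ℝ) ^ Nat.log 2 N) ≤ N := by exact_mod_cast h8
      have h10 := Real.log_le_log (by positivity) h9
      rw [Real.log_pow] at h10
      have h11 : (1 : ℝ) / 2 < Real.log 2 := by
        have := Real.log_two_gt_d9
        linarith
      have h12 : (0 : ℝ) ≤ (Nat.log 2 N : ℝ) := Nat.cast_nonneg _
      nlinarith
    have h8 : (Nat.log 2 N : ℝ) * Real.log N ≤ T ^ (1 - e) := by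
      calc (Nat.log 2 N : ℝ) * Real.log N ≤ (4 * L) * (2 * L) :=
            mul_le_mul h7 hlogN hlogN0 (by positivity)
        _ = 8 * L ^ 2 := by ring
        _ ≤ _ := hT2
    calc _ ≤ Mw * (K3 * r) * ((r.divisors.card : ℝ) * T ^ (1 - e)) := by
          refine mul_le_mul_of_nonneg_left (h6.trans ?_) (by positivity)
          exact mul_le_mul_of_nonneg_left h8 (by positivity)
      _ = _ := by ring
  rw [hsplit, hmain]
  have hfin : ∀ A B C D : ℝ, A + B - C - D = (A - D) + B + (-C) := fun A B C D => by ring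
  rw [hfin]
  refine (abs_add_le _ _).trans ?_
  rw [abs_neg]
  have h5 := abs_add_le (T * I0 / (2 * Real.pi) * (Nat.totient r : ℝ) * (∑ n ∈ Finset.range (NX X + 1),
        (Λ n / n) * (w (Real.log n / L) * v (Real.log n / L))) -
      T * I0 / (2 * Real.pi) * (Nat.totient r : ℝ) * (L * Phi w v e (Real.log r / L)))
      (∑ n ∈ Finset.Icc 1 N, Λ n * (w (Real.log n / L) * (Sa g v L (T ^ e) r (r * T / n) - mn n)))
  have p1 : 0 ≤ T * (Nat.totient r : ℝ) := by positivity
  have p2 : 0 ≤ (r.divisors.card : ℝ) * r * T ^ (1 - e) := by positivity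
  set P := T * (Nat.totient r : ℝ) with hP
  set Q := (r.divisors.card : ℝ) * r * T ^ (1 - e) with hQ
  set k1 := |I0| / (2 * Real.pi) * K2 with hk1
  set k2 := K1 * ((Real.log 4 + 4) * c1 g) with hk2
  set k3 := K1 * ((2 + (Real.log 4 + 4)) + (Real.log (c1 g) - Real.log (c0 g) + 2 * CMe)) with hk3
  have q1 : 0 ≤ k1 := by positivity
  have q2 : 0 ≤ k2 := by positivity
  have q3 : 0 ≤ k3 := by positivity
  have q4 : 0 ≤ Mw * K3 := by positivity
  have e1 : (k1 + Mw * (k2 + k3) + Mw * K3) * (P + Q) = (k1 * P + Mw * (k2 * Q + k3 * P) + Mw * K3 * Q) +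
      (k1 * Q + Mw * (k2 * P + k3 * Q) + Mw * K3 * P) := by ring
  have e2 : 0 ≤ k1 * Q + Mw * (k2 * P + k3 * Q) + Mw * K3 * P := by positivity
  rw [e1]
  linarith

/-! ### The sum over `r` -/

private lemma VE_eq {f : ℝ → ℝ} (hf : Continuous f) (h1 : ∀ x, x ≤ 1 → f x = 0) {e : ℝ} (he1 : e < 1 / 4) :
    ∫ u in e..(1 / 2 - e), (∫ x in (0:ℝ)..(u + 1 - e), f x) = VE e f := by
  set c : ℝ := 3 / 2 - 2 * e with hc
  have hc1 : 1 ≤ c := by rw [hc]; linarith
  set F : ℝ → ℝ := fun s => ∫ x in (0:ℝ)..s, f x with hF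
  have hFd : ∀ s, HasDerivAt F (f s) s := fun s =>
    intervalIntegral.integral_hasDerivAt_right (hf.intervalIntegrable _ _)
      hf.stronglyMeasurable.stronglyMeasurableAtFilter hf.continuousAt
  have hF1 : F 1 = 0 := by
    simp only [hF]
    rw [intervalIntegral.integral_of_le (by norm_num)]
    apply setIntegral_eq_zero_of_forall_eq_zero
    intro x hx
    exact h1 x hx.2
  have e1 : ∫ u in e..(1 / 2 - e), (∫ x in (0:ℝ)..(u + 1 - e), f x) = ∫ s in (1:ℝ)..c, F s := by
    have h2 := intervalIntegral.integral_comp_add_right (a := e) (b := 1 / 2 - e) F (1 - e)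
    have h3 : e + (1 - e) = 1 := by ring
    have h4 : 1 / 2 - e + (1 - e) = c := by rw [hc]; ring
    rw [h3, h4] at h2
    rw [← h2]
    apply intervalIntegral.integral_congr
    intro u _
    simp only [hF]
    rw [show u + (1 - e) = u + 1 - e by ring]
  have e2 := intervalIntegral.integral_mul_deriv_eq_deriv_mul (a := 1) (b := c) (u := fun s : ℝ => s - c)
    (u' := fun _ => 1) (v := F) (v' := f) (fun s _ => (hasDerivAt_id s).sub_const c) (fun s _ => hFd s)
    (continuous_const.intervalIntegrable _ _) (hf.intervalIntegrable _ _)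
  rw [hF1, sub_self, zero_mul, mul_zero, sub_zero] at e2
  rw [e1]
  have e3 : ∫ s in (1:ℝ)..c, F s = ∫ s in (1:ℝ)..c, (c - s) * f s := by
    have h5 : ∫ s in (1:ℝ)..c, (c - s) * f s = -∫ s in (1:ℝ)..c, (s - c) * f s := by
      rw [← intervalIntegral.integral_neg]
      apply intervalIntegral.integral_congr
      intro s _
      ring
    rw [h5, e2]
    simp
  rw [e3]
  unfold VE
  rw [intervalIntegral.integral_of_le hc1]
  have h6 : ∫ x in Ioi (1:ℝ), max (3 / 2 - x - 2 * e) 0 * f x =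
      ∫ x in Ioc 1 c, max (3 / 2 - x - 2 * e) 0 * f x := by
    rw [← setIntegral_eq_of_subset_of_forall_sdiff_eq_zero measurableSet_Ioi Ioc_subset_Ioi_self]
    intro x hx
    have h7 : c < x := by
      by_contra h8
      exact hx.2 ⟨hx.1, not_lt.1 h8⟩
    rw [max_eq_right (by rw [hc] at h7; linarith), zero_mul]
  rw [h6]
  apply setIntegral_congr_fun measurableSet_Ioc
  intro x hx
  simp only
  rw [max_eq_left (by have := hx.2; rw [hc] at this; linarith), hc]
  ring

open scoped ArithmeticFunction in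
private lemma SM_eq (g : TF) (w v : ℝ → ℝ) {e T : ℝ} (he : 0 < e) (hT : 1 < T) :
    SM g w v e T = ∑ r ∈ (Finset.Icc 1 ⌊T ^ (1 / 2 - e)⌋₊).filter (fun r : ℕ => Squarefree r ∧ T ^ e < (r : ℝ)),
      1 / (Nat.totient r : ℝ) ^ 2 * Nr g w v e T r := by
  classical
  have hT0 : 0 < T := by linarith
  have hTT : T ^ (1 / 2 - e) ≤ T := by
    calc T ^ (1 / 2 - e) ≤ T ^ (1:ℝ) := Real.rpow_le_rpow_of_exponent_le hT.le (by linarith)
      _ = T := Real.rpow_one T
  unfold SM RA
  rw [Finset.sum_filter, Finset.sum_product]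
  have h1 : ∀ r ∈ Finset.Icc 1 ⌊T⌋₊, (∑ y ∈ Finset.Icc 1 ⌊T⌋₊, if (Squarefree r ∧ (r : ℝ) ≤ T ^ (1 / 2 - e) ∧
      T ^ e < (y : ℝ) ∧ y ≤ r ∧ Nat.Coprime y r) then (mf r ^ 2 * ∑ n ∈ (Finset.Icc 1 ⌊T ^ 2⌋₊).filter
        (fun n => Nat.Coprime n r), Λ n * FW g w v T (r, y) n) else 0) =
      if (Squarefree r ∧ (r : ℝ) ≤ T ^ (1 / 2 - e) ∧ T ^ e < (r : ℝ)) then
        1 / (Nat.totient r : ℝ) ^ 2 * Nr g w v e T r else 0 := by
    intro r hr
    rw [Finset.mem_Icc] at hr
    by_cases hc : (Squarefree r ∧ (r : ℝ) ≤ T ^ (1 / 2 - e) ∧ T ^ e < (r : ℝ))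
    · rw [if_pos hc]
      have hr0 : (0 : ℝ) < r := by exact_mod_cast hr.1
      have h2 : (∑ y ∈ Finset.Icc 1 ⌊T⌋₊, if (Squarefree r ∧ (r : ℝ) ≤ T ^ (1 / 2 - e) ∧
          T ^ e < (y : ℝ) ∧ y ≤ r ∧ Nat.Coprime y r) then (mf r ^ 2 * ∑ n ∈ (Finset.Icc 1 ⌊T ^ 2⌋₊).filter
          (fun n => Nat.Coprime n r), Λ n * FW g w v T (r, y) n) else 0) =
          ∑ y ∈ (Finset.Icc 1 ⌊(r : ℝ)⌋₊).filter (fun y : ℕ => T ^ e < (y : ℝ) ∧ Nat.Coprime y r),
          (mf r ^ 2 * ∑ n ∈ (Finset.Icc 1 ⌊T ^ 2⌋₊).filter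
          (fun n => Nat.Coprime n r), Λ n * FW g w v T (r, y) n) := by
        rw [← Finset.sum_filter]
        apply Finset.sum_congr _ (fun _ _ => rfl)
        ext y
        rw [Finset.mem_filter, Finset.mem_filter, Finset.mem_Icc, Finset.mem_Icc, Nat.floor_natCast]
        constructor
        · rintro ⟨⟨h3, _⟩, _, _, h4, h5, h6⟩
          exact ⟨⟨h3, h5⟩, h4, h6⟩
        · rintro ⟨⟨h3, h5⟩, h4, h6⟩
          exact ⟨⟨h3, h5.trans hr.2⟩, hc.1, hc.2.1, h4, h5, h6⟩
      rw [h2, ← Finset.mul_sum, Finset.sum_comm]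
      have h3 : mf r ^ 2 = 1 / (Nat.totient r : ℝ) ^ 2 := by
        unfold mf
        rw [div_pow]
        congr 1
        have h4 := ArithmeticFunction.moebius_sq_eq_one_of_squarefree hc.1
        exact_mod_cast h4
      rw [h3]
      congr 1
      unfold Nr
      apply Finset.sum_congr rfl
      intro n hn
      rw [Finset.mem_filter, Finset.mem_Icc] at hn
      have hn0 : (0 : ℝ) < n := by exact_mod_cast hn.1.1
      unfold Sa
      rw [← Finset.mul_sum, Finset.mul_sum (a := w _)]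
      congr 1
      apply Finset.sum_congr rfl
      intro y _
      unfold FW Fy lr
      simp only
      have h5 : 2 * Real.pi * ((y : ℝ) * n / r) / T = 2 * Real.pi * y / (r * T / n) := by
        field_simp
      rw [h5]
      ring
    · rw [if_neg hc]
      apply Finset.sum_eq_zero
      intro y _
      rw [if_neg]
      rintro ⟨h3, h4, h5, h6, _⟩
      exact hc ⟨h3, h4, lt_of_lt_of_le h5 (by exact_mod_cast h6)⟩
  rw [Finset.sum_congr rfl h1, ← Finset.sum_filter]
  apply Finset.sum_congr _ (fun _ _ => rfl)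
  ext r
  rw [Finset.mem_filter, Finset.mem_filter, Finset.mem_Icc, Finset.mem_Icc,
    Nat.le_floor_iff (Real.rpow_pos_of_pos hT0 _).le, Nat.le_floor_iff hT0.le]
  constructor
  · rintro ⟨⟨h3, _⟩, h4, h5, h6⟩
    exact ⟨⟨h3, h5⟩, h4, h6⟩
  · rintro ⟨⟨h3, h5⟩, h4, h6⟩
    exact ⟨⟨h3, h5.trans hTT⟩, h4, h5, h6⟩

theorem SM_lim (g : TF) {w v : ℝ → ℝ} {a b a' b' e : ℝ} (hw : WR w a b) (hb : b < 3 / 2)
    (hv : WR v a' b') (ha' : 1 < a') (hb' : b' < 3 / 2) (he : 0 < e) (he1 : e < 1 / 4) :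
    Tendsto (fun T : ℝ => 2 * Real.pi / Real.log T ^ 2 * SM g w v e T / T) atTop
      (𝓝 ((∫ x, g.h x) * VE e (fun x => w x * v x))) := by
  obtain ⟨K, hK, hN⟩ := Nr_est (g := g) hw hv ha' he he1
  obtain ⟨C, hC, hphi⟩ := phi_sum
  obtain ⟨D, hD, hdiv⟩ := div_bound (show 0 < e / 3 by linarith)
  have hpi := Real.pi_pos
  have hw0 := hw.1.continuous
  have hv0 := hv.1.continuous
  have hfc : Continuous fun x => w x * v x := hw0.mul hv0
  have hΦc : Continuous (Phi w v e) := by
    have h1 : Continuous fun s : ℝ => ∫ x in (0:ℝ)..s, w x * v x :=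
      intervalIntegral.continuous_primitive (fun p q => hfc.intervalIntegrable p q) 0
    have h2 : Phi w v e = (fun s : ℝ => ∫ x in (0:ℝ)..s, w x * v x) ∘ (fun u => u + 1 - e) := by
      funext u
      rfl
    rw [h2]
    exact h1.comp (by fun_prop)
  have hlim := mu_sum hΦc he.le (show e ≤ 1 / 2 - e by linarith)
  have hVE : ∫ u in e..(1 / 2 - e), Phi w v e u = VE e (fun x => w x * v x) := by
    unfold Phi
    exact VE_eq hfc (fun x hx => by
      have : v x = 0 := by
        by_contra hne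
        have := (hv.2.2.2 _ hne).1
        linarith
      rw [this, mul_zero]) he1
  rw [hVE] at hlim
  have hlim2 := hlim.const_mul (∫ x, g.h x)
  have herr : Tendsto (fun T : ℝ => 2 * Real.pi * K * (1 + D ^ 3) * (1 / Real.log T + C * (1 / Real.log T) ^ 2))
      atTop (𝓝 0) := by
    have h1 : Tendsto (fun T : ℝ => 1 / Real.log T) atTop (𝓝 0) := by
      simp only [one_div]
      exact Real.tendsto_log_atTop.inv_tendsto_atTop
    have h2 := ((h1.add ((h1.pow 2).const_mul C)).const_mul (2 * Real.pi * K * (1 + D ^ 3)))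
    simpa using h2
  refine tendsto_of_tendsto_of_dist hlim2 (squeeze_zero' (Eventually.of_forall fun _ => dist_nonneg) ?_ herr)
  filter_upwards [hN, eventually_gt_atTop (Real.exp 1)] with T hT hT1
  have hT3 : 1 < T := lt_trans (by rw [← Real.exp_zero]; exact Real.exp_lt_exp.2 (by norm_num)) hT1
  have hT0 : 0 < T := by linarith
  set L := Real.log T with hL
  have hL1 : 1 < L := by
    rw [hL, Real.lt_log_iff_exp_lt hT0]
    exact hT1
  have hL0 : 0 < L := by linarith
  set S := (Finset.Icc 1 ⌊T ^ (1 / 2 - e)⌋₊).filter (fun r : ℕ => Squarefree r ∧ T ^ e < (r : ℝ)) with hS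
  have hβ : 1 ≤ T ^ (1 / 2 - e) := Real.one_le_rpow hT3.le (by linarith)
  have hsum : ∑ r ∈ S, 1 / (Nat.totient r : ℝ) ≤ L + C := by
    have h1 := hphi _ hβ
    rw [abs_le] at h1
    have h2 : Real.log (T ^ (1 / 2 - e)) ≤ L := by
      rw [Real.log_rpow hT0]
      nlinarith
    have h3 : ∑ r ∈ S, 1 / (Nat.totient r : ℝ) ≤
        ∑ r ∈ (Finset.Icc 1 ⌊T ^ (1 / 2 - e)⌋₊).filter Squarefree, 1 / (Nat.totient r : ℝ) := by
      refine Finset.sum_le_sum_of_subset_of_nonneg ?_ fun _ _ _ => by positivity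
      intro r hr
      rw [hS, Finset.mem_filter] at hr
      rw [Finset.mem_filter]
      exact ⟨hr.1, hr.2.1⟩
    linarith [h1.2]
  rw [SM_eq g w v he hT3, ← hS, Real.dist_eq]
  have e1 : 2 * Real.pi / L ^ 2 * (∑ r ∈ S, 1 / (Nat.totient r : ℝ) ^ 2 * Nr g w v e T r) / T -
      (∫ x, g.h x) * (1 / L * ∑ r ∈ S, 1 / (Nat.totient r : ℝ) * Phi w v e (Real.log r / L)) =
      2 * Real.pi / (L ^ 2 * T) * ∑ r ∈ S, 1 / (Nat.totient r : ℝ) ^ 2 * (Nr g w v e T r -
        T * (∫ x, g.h x) / (2 * Real.pi) * (Nat.totient r : ℝ) * (L * Phi w v e (Real.log r / L))) := by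
    have h1 : ∀ r ∈ S, 1 / (Nat.totient r : ℝ) ^ 2 * (Nr g w v e T r -
        T * (∫ x, g.h x) / (2 * Real.pi) * (Nat.totient r : ℝ) * (L * Phi w v e (Real.log r / L))) =
        1 / (Nat.totient r : ℝ) ^ 2 * Nr g w v e T r -
        T * (∫ x, g.h x) / (2 * Real.pi) * L * (1 / (Nat.totient r : ℝ) * Phi w v e (Real.log r / L)) := by
      intro r hr
      rw [hS, Finset.mem_filter, Finset.mem_Icc] at hr
      have h2 : (0 : ℝ) < (Nat.totient r : ℝ) := by exact_mod_cast Nat.totient_pos.2 (by omega)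
      field_simp
    rw [Finset.sum_congr rfl h1, Finset.sum_sub_distrib, ← Finset.mul_sum]
    field_simp
  rw [abs_sub_comm, e1, abs_mul, abs_of_pos (by positivity)]
  have h2 : |∑ r ∈ S, 1 / (Nat.totient r : ℝ) ^ 2 * (Nr g w v e T r -
        T * (∫ x, g.h x) / (2 * Real.pi) * (Nat.totient r : ℝ) * (L * Phi w v e (Real.log r / L)))| ≤
        K * (1 + D ^ 3) * T * (L + C) := by
    refine (Finset.abs_sum_le_sum_abs _ _).trans ?_
    calc _ ≤ ∑ r ∈ S, K * (1 + D ^ 3) * T * (1 / (Nat.totient r : ℝ)) := by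
          refine Finset.sum_le_sum fun r hr => ?_
          rw [hS, Finset.mem_filter, Finset.mem_Icc, Nat.le_floor_iff (Real.rpow_pos_of_pos hT0 _).le] at hr
          obtain ⟨⟨hr1, hr2⟩, hsq, hr3⟩ := hr
          have hφ : (0 : ℝ) < (Nat.totient r : ℝ) := by exact_mod_cast Nat.totient_pos.2 (by omega)
          have hr0 : (0 : ℝ) < r := by exact_mod_cast hr1
          have h3 := hT r (by omega) hr3 hr2
          rw [abs_mul, abs_of_pos (by positivity)]
          have h4 := mul_le_mul_of_nonneg_left h3 (by positivity : 0 ≤ 1 / (Nat.totient r : ℝ) ^ 2)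
          refine h4.trans ?_
          set τ := (r.divisors.card : ℝ) with hτ
          have hτ0 : 0 ≤ τ := by positivity
          have h5 : (r : ℝ) ≤ τ * (Nat.totient r : ℝ) := tot_ge hsq
          have h6 : τ ≤ D * (r : ℝ) ^ (e / 3) := hdiv r (by omega)
          have h7 : τ ^ 3 ≤ D ^ 3 * T ^ e := by
            have h8 : (D * (r : ℝ) ^ (e / 3)) ^ 3 = D ^ 3 * (r : ℝ) ^ e := by
              rw [mul_pow, ← Real.rpow_natCast ((r : ℝ) ^ (e / 3)), ← Real.rpow_mul hr0.le]
              congr 2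
              push_cast
              ring
            have h9 : (r : ℝ) ^ e ≤ T ^ e := by
              apply Real.rpow_le_rpow hr0.le _ he.le
              refine hr2.trans ?_
              calc T ^ (1 / 2 - e) ≤ T ^ (1:ℝ) := Real.rpow_le_rpow_of_exponent_le hT3.le (by linarith)
                _ = T := Real.rpow_one T
            calc τ ^ 3 ≤ (D * (r : ℝ) ^ (e / 3)) ^ 3 := pow_le_pow_left₀ hτ0 h6 3
              _ = D ^ 3 * (r : ℝ) ^ e := h8
              _ ≤ _ := mul_le_mul_of_nonneg_left h9 (by positivity)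
          have hTT : T ^ e * T ^ (1 - e) = T := by
            rw [← Real.rpow_add hT0]
            norm_num
          have hT1e : 0 < T ^ (1 - e) := Real.rpow_pos_of_pos hT0 _
          -- τ r T^(1-e) / φ² ≤ D³ T / φ
          have h10 : τ * r * T ^ (1 - e) ≤ D ^ 3 * T * (Nat.totient r : ℝ) := by
            have h11 : (r : ℝ) * r ≤ (τ * (Nat.totient r : ℝ)) * r := mul_le_mul_of_nonneg_right h5 hr0.le
            have h12 : τ * r ≤ τ ^ 2 * (Nat.totient r : ℝ) := by
              calc τ * r ≤ τ * (τ * (Nat.totient r : ℝ)) := mul_le_mul_of_nonneg_left h5 hτ0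
                _ = _ := by ring
            have h13 : τ ^ 2 ≤ τ ^ 3 := by
              have : (1 : ℝ) ≤ τ := by
                rw [hτ]
                exact_mod_cast Finset.card_pos.2 ⟨1, Nat.one_mem_divisors.2 (by omega)⟩
              exact pow_le_pow_right₀ this (by norm_num)
            calc τ * r * T ^ (1 - e) ≤ (τ ^ 3 * (Nat.totient r : ℝ)) * T ^ (1 - e) := by
                  refine mul_le_mul_of_nonneg_right (h12.trans ?_) hT1e.le
                  exact mul_le_mul_of_nonneg_right h13 hφ.le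
              _ ≤ ((D ^ 3 * T ^ e) * (Nat.totient r : ℝ)) * T ^ (1 - e) := by
                  refine mul_le_mul_of_nonneg_right ?_ hT1e.le
                  exact mul_le_mul_of_nonneg_right h7 hφ.le
              _ = D ^ 3 * (T ^ e * T ^ (1 - e)) * (Nat.totient r : ℝ) := by ring
              _ = _ := by rw [hTT]
          calc 1 / (Nat.totient r : ℝ) ^ 2 * (K * (T * (Nat.totient r : ℝ) + τ * r * T ^ (1 - e))) ≤
                1 / (Nat.totient r : ℝ) ^ 2 * (K * (T * (Nat.totient r : ℝ) + D ^ 3 * T * (Nat.totient r : ℝ))) := by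
                gcongr
            _ = _ := by
                field_simp
      _ = K * (1 + D ^ 3) * T * ∑ r ∈ S, 1 / (Nat.totient r : ℝ) := by rw [Finset.mul_sum]
      _ ≤ _ := mul_le_mul_of_nonneg_left hsum
          (mul_nonneg (mul_nonneg hK.le (by have := pow_pos hD 3; linarith)) hT0.le)
  calc _ ≤ 2 * Real.pi / (L ^ 2 * T) * (K * (1 + D ^ 3) * T * (L + C)) :=
        mul_le_mul_of_nonneg_left h2 (by positivity)
    _ = _ := by
        field_simp

end Pool.Agent.Helper69.FF
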