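import Pool.Agent.Helper69.FF.AmD
import Pool.Agent.Helper69.FF.Crs
import Pool.Agent.Helper69.FF.SML
import Pool.Agent.Helper69.FF.Key
import Pool.Agent.Helper69.FF.Mle

/-!
# FF-Corr: the correlations with m D

`corr_v`: `AmD`, then `key`, then `SM_lim` (`T^(1-δ)/(T L²) → 0`). `corr_0`: `AmD` with `w := w0` (`b0 < 1 < 3/2`) and `SS_zero`.
-/

open MeasureTheory Set Filter Topology
open Pool.Agent.Helper57.Zeta Pool.Agent.Helper57.PC Pool.Agent.Helper57.LH Pool.Agent.Helper78.SG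
open Pool.Agent.Helper4.SH (om)
open scoped ContDiff

namespace Pool.Agent.Helper69.FF

private theorem c53_xp (x : ℝ) : Continuous (fun t : ℝ => xp t x) := by
  unfold xp
  fun_prop

private theorem c53_AA (w : ℝ → ℝ) (T : ℝ) : Continuous (fun t : ℝ => AA w T t) := by
  unfold AA
  exact continuous_finsetSum _ fun n _ => continuous_const.mul (c53_xp _)

private theorem c53_DD (v : ℝ → ℝ) (e T : ℝ) : Continuous (fun t : ℝ => DD v e T t) := by
  unfold DD
  exact continuous_finsetSum _ fun x _ => continuous_const.mul (c53_xp _)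

private theorem c53_om (g : TF) (T : ℝ) : Continuous (fun t : ℝ => om g.h T t) := by
  unfold Pool.Agent.Helper4.SH.om
  have := g.smooth.continuous
  fun_prop

private theorem c53_om_cs (g : TF) {T : ℝ} (hT : 0 < T) : HasCompactSupport (fun t : ℝ => om g.h T t) := by
  refine HasCompactSupport.intro (isCompact_Icc (a := T * (1 / 2 - g.th)) (b := T * (1 / 2 + g.th))) fun t ht => ?_
  show om g.h T t = 0
  unfold Pool.Agent.Helper4.SH.om
  refine g.supp _ ?_
  by_contra h
  rw [not_le, abs_lt] at h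
  apply ht
  have h1 : t = T * (t / T) := by field_simp
  constructor
  · rw [h1]; exact mul_le_mul_of_nonneg_left (by linarith [h.1]) hT.le
  · rw [h1]; exact mul_le_mul_of_nonneg_left (by linarith [h.2]) hT.le

private theorem c53_re (g : TF) {k : ℝ → ℝ} {c : ℝ} (hk : KW g k c) (w v : ℝ → ℝ) (e : ℝ) {T : ℝ} (hT : 0 < T) :
    (∫ t, om g.h T t * (AA w T t * (starRingEnd ℂ) (mm k T t * DD v e T t)).re) =
      (∫ t, ((om g.h T t : ℝ) : ℂ) * (AA w T t * (starRingEnd ℂ) (mm k T t * DD v e T t))).re := by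
  have hc : Continuous (fun t : ℝ => ((om g.h T t : ℝ) : ℂ) * (AA w T t * (starRingEnd ℂ) (mm k T t * DD v e T t))) :=
    (Complex.continuous_ofReal.comp (c53_om g T)).mul
      ((c53_AA w T).mul (Complex.continuous_conj.comp ((mm_cont g hk T).mul (c53_DD v e T))))
  have hs : HasCompactSupport (fun t : ℝ => ((om g.h T t : ℝ) : ℂ) * (AA w T t * (starRingEnd ℂ) (mm k T t * DD v e T t))) :=
    ((c53_om_cs g hT).comp_left (g := fun x : ℝ => (x : ℂ)) Complex.ofReal_zero).mul_right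
  have hi : Integrable (fun t : ℝ => ((om g.h T t : ℝ) : ℂ) * (AA w T t * (starRingEnd ℂ) (mm k T t * DD v e T t))) :=
    hc.integrable_of_hasCompactSupport hs
  have h1 := Complex.reCLM.integral_comp_comm hi
  rw [← Complex.reCLM_apply, ← h1]
  congr 1
  funext t
  rw [Complex.reCLM_apply, Complex.re_ofReal_mul]

private theorem c53_pw {C p : ℝ} (hp : p < 0) : Tendsto (fun T : ℝ => C * T ^ p) atTop (𝓝 0) := by
  have h := (tendsto_rpow_neg_atTop (y := -p) (by linarith)).const_mul C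
  rw [mul_zero] at h
  refine h.congr fun T => ?_
  rw [neg_neg]

/-- the common part -/
private theorem c53_core (g : TF) {k : ℝ → ℝ} {c : ℝ} (hk : KW g k c) {w v : ℝ → ℝ} {a b a' b' e : ℝ} (hw : WR w a b)
    (hb : b < 3 / 2) (hv : WR v a' b') (ha' : 1 < a') (hb' : b' < 3 / 2) (he : 0 < e) (he1 : e < 1 / 4) :
    Tendsto (fun T : ℝ => (∫ t, om g.h T t * (AA w T t * (starRingEnd ℂ) (mm k T t * DD v e T t)).re) / T -
      2 * Real.pi / Real.log T ^ 2 * (SS g w v e T).re / T) atTop (𝓝 0) := by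
  obtain ⟨C, hC, hA⟩ := AmD g hk hw hb hv ha' hb' he he1
  refine squeeze_zero_norm' (a := fun T : ℝ => C * T ^ (-(1 / 4) : ℝ)) ?_ (c53_pw (by norm_num))
  filter_upwards [hA, eventually_gt_atTop 0] with T hT hT0
  rw [c53_re g hk w v e hT0, ← sub_div, Real.norm_eq_abs, abs_div, abs_of_pos hT0, div_le_iff₀ hT0]
  have h1 : (∫ t, ((om g.h T t : ℝ) : ℂ) * (AA w T t * (starRingEnd ℂ) (mm k T t * DD v e T t))).re -
      2 * Real.pi / Real.log T ^ 2 * (SS g w v e T).re =
      ((∫ t, ((om g.h T t : ℝ) : ℂ) * (AA w T t * (starRingEnd ℂ) (mm k T t * DD v e T t))) -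
      ((2 * Real.pi / Real.log T ^ 2 : ℝ) : ℂ) * SS g w v e T).re := by
    rw [Complex.sub_re, Complex.re_ofReal_mul]
  rw [h1]
  refine (Complex.abs_re_le_norm _).trans (hT.trans (le_of_eq ?_))
  rw [mul_assoc]
  congr 1
  nth_rewrite 3 [← Real.rpow_one T]
  rw [← Real.rpow_add hT0]
  norm_num

/-- `⟨A_w, m D⟩ → VE e (w v)` -/
theorem corr_v (g : TF) {k : ℝ → ℝ} {c : ℝ} (hk : KW g k c) {w v : ℝ → ℝ} {a b a' b' e : ℝ} (hw : WR w a b) (hb : b < 3 / 2)
    (hv : WR v a' b') (ha' : 1 < a') (hb' : b' < 3 / 2) (he : 0 < e) (he1 : e < 1 / 4) :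
    Tendsto (fun T : ℝ => (∫ t, om g.h T t * (AA w T t * (starRingEnd ℂ) (mm k T t * DD v e T t)).re) / T) atTop
      (𝓝 ((∫ x, g.h x) * VE e (fun x => w x * v x))) := by
  obtain ⟨δ, C, hδ, hC, hK⟩ := key g hw hb hv ha' hb' he he1
  have h1 := c53_core g hk hw hb hv ha' hb' he he1
  have h2 := SM_lim g hw hb hv ha' hb' he he1
  have h3 : Tendsto (fun T : ℝ => 2 * Real.pi / Real.log T ^ 2 * (SS g w v e T).re / T -
      2 * Real.pi / Real.log T ^ 2 * SM g w v e T / T) atTop (𝓝 0) := by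
    refine squeeze_zero_norm' (a := fun T : ℝ => 2 * Real.pi * C * T ^ (-δ)) ?_ (c53_pw (by linarith))
    filter_upwards [hK, eventually_gt_atTop 0, Real.tendsto_log_atTop.eventually_ge_atTop 1] with T hT hT0 hL
    have e1 : 2 * Real.pi / Real.log T ^ 2 * (SS g w v e T).re / T -
      2 * Real.pi / Real.log T ^ 2 * SM g w v e T / T =
        2 * Real.pi / Real.log T ^ 2 * (SS g w v e T - ((SM g w v e T : ℝ) : ℂ)).re / T := by
      rw [Complex.sub_re, Complex.ofReal_re]
      ring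
    rw [e1, Real.norm_eq_abs, abs_div, abs_of_pos hT0, div_le_iff₀ hT0, abs_mul]
    have e2 : |2 * Real.pi / Real.log T ^ 2| ≤ 2 * Real.pi := by
      have hπ := Real.pi_pos
      rw [abs_of_nonneg (by positivity)]
      exact div_le_self (by positivity) (one_le_pow₀ hL)
    have e3 : |(SS g w v e T - ((SM g w v e T : ℝ) : ℂ)).re| ≤ C * T ^ (1 - δ) := (Complex.abs_re_le_norm _).trans hT
    calc |2 * Real.pi / Real.log T ^ 2| * |(SS g w v e T - ((SM g w v e T : ℝ) : ℂ)).re| ≤ 2 * Real.pi * (C * T ^ (1 - δ)) :=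
          mul_le_mul e2 e3 (abs_nonneg _) (by have := Real.pi_pos; positivity)
      _ = 2 * Real.pi * C * (T ^ (-δ) * T) := by
          have : T ^ (1 - δ) = T ^ (-δ) * T := by
            nth_rewrite 3 [← Real.rpow_one T]
            rw [← Real.rpow_add hT0]
            congr 1
            ring
          rw [this]
          ring
      _ = _ := by ring
  have h4 := (h1.add h3).add h2
  rw [add_zero, zero_add] at h4
  refine h4.congr fun T => ?_
  ring

/-- `⟨A_{w0}, m D⟩ → 0` -/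
theorem corr_0 (g : TF) {k : ℝ → ℝ} {c : ℝ} (hk : KW g k c) {w0 v : ℝ → ℝ} {a0 b0 a' b' e : ℝ} (hw0 : WR w0 a0 b0) (hb0 : b0 < 1)
    (hv : WR v a' b') (ha' : 1 < a') (hb' : b' < 3 / 2) (he : 0 < e) (he1 : e < 1 / 4) :
    Tendsto (fun T : ℝ => (∫ t, om g.h T t * (AA w0 T t * (starRingEnd ℂ) (mm k T t * DD v e T t)).re) / T) atTop
      (𝓝 0) := by
  have h1 := c53_core g hk hw0 (by linarith : b0 < 3 / 2) hv ha' hb' he he1
  refine h1.congr' ?_
  filter_upwards [SS_zero g hw0 hb0 hv ha' he] with T hT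
  rw [hT, Complex.zero_re, mul_zero, zero_div, sub_zero]

end Pool.Agent.Helper69.FF
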