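import Pool.Agent.Helper4.SH.GMV
import Pool.Agent.Helper93.LP.EFw
import Pool.Agent.Helper93.LP.MVs

/-!
# FF: the form factor beyond 1, unconditional (MP_8958e8). Definitions.

README: /team-store/h69_FF_README.md. `L = log T`. Time weight `om g.h T t = g.h (t/T - 1/2)`.
-/

open MeasureTheory Set Filter Topology
open Pool.Agent.Helper57.Zeta Pool.Agent.Helper57.PC Pool.Agent.Helper57.LH Pool.Agent.Helper78.SG
open Pool.Agent.Helper4.SH (om)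
open scoped ContDiff

namespace Pool.Agent.Helper69.FF

/-- smooth real weight supported in `[a,b]`, `0 < a ≤ b` -/
abbrev WR (w : ℝ → ℝ) (a b : ℝ) : Prop := Pool.Agent.Helper93.LP.WR w a b

/-- `e(x) = exp(2π i x)` -/
noncomputable def ee (x : ℝ) : ℂ := Complex.exp (((2 * Real.pi * x : ℝ) : ℂ) * Complex.I)

/-- `n^(-it)` for a positive real `x`: `exp(-i t log x)` -/
noncomputable def xp (t x : ℝ) : ℂ := Complex.exp (-(((t * Real.log x : ℝ) : ℂ) * Complex.I))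

/-- the prime sum `(1/L) ∑_{n ≤ T²} Λ(n) n^(-1/2-it) w(log n/L)` -/
noncomputable def AA (w : ℝ → ℝ) (T t : ℝ) : ℂ :=
  ∑ n ∈ Finset.Icc 1 ⌊T ^ 2⌋₊,
    ((ArithmeticFunction.vonMangoldt n / Real.sqrt n * w (Real.log n / Real.log T) / Real.log T : ℝ) : ℂ) * xp t n

/-- the fractions `a/r` (as pairs `(r, a)`): `r ≤ T^(1/2-e)` squarefree, `T^e < a ≤ r`, `(a, r) = 1` -/
noncomputable def RA (e T : ℝ) : Finset (ℕ × ℕ) :=
  ((Finset.Icc 1 ⌊T⌋₊) ×ˢ (Finset.Icc 1 ⌊T⌋₊)).filter (fun x => Squarefree x.1 ∧ (x.1 : ℝ) ≤ T ^ (1 / 2 - e) ∧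
    T ^ e < (x.2 : ℝ) ∧ x.2 ≤ x.1 ∧ Nat.Coprime x.2 x.1)

/-- `1 + log(r/a)/L` -/
noncomputable def lr (T : ℝ) (x : ℕ × ℕ) : ℝ := 1 + (Real.log x.1 - Real.log x.2) / Real.log T

/-- `μ(r)/φ(r)` -/
noncomputable def mf (r : ℕ) : ℝ := (ArithmeticFunction.moebius r : ℝ) / (Nat.totient r : ℝ)

/-- the Dirichlet polynomial `D(t) = (1/L) ∑ (μ(r)/φ(r)) (r/a)^(1/2-it) v(1 + log(r/a)/L)` -/
noncomputable def DD (v : ℝ → ℝ) (e T t : ℝ) : ℂ :=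
  ∑ x ∈ RA e T, ((mf x.1 * Real.sqrt ((x.1 : ℝ) / x.2) * v (lr T x) / Real.log T : ℝ) : ℂ) * xp t ((x.1 : ℝ) / x.2)

/-- the weight function in the variable `log u`: smooth, supported in `[-c, c]`, values in `[0,1]` and equal to `1` on a
neighbourhood of the logarithms of `(1/2π) supp om g.h 1` -/
structure KW (g : TF) (k : ℝ → ℝ) (c : ℝ) : Prop where
  smooth : ContDiff ℝ ∞ k
  hc : 0 < c
  nonneg : ∀ y, 0 ≤ k y
  le_one : ∀ y, k y ≤ 1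
  supp : ∀ y, c ≤ |y| → k y = 0
  one : ∀ y, (1 / 2 - g.th) / 2 ≤ 2 * Real.pi * Real.exp y → 2 * Real.pi * Real.exp y ≤ 2 → k y = 1

/-- `m(t) = ∫_0^∞ u^(-1/2-it) e(u) k(log(u/T)) du`, written in the variable `y = log(u/T)` -/
noncomputable def mm (k : ℝ → ℝ) (T t : ℝ) : ℂ :=
  ((Real.sqrt T : ℝ) : ℂ) * xp t T *
    ∫ y : ℝ, ((k y * Real.exp (y / 2) : ℝ) : ℂ) * (ee (T * Real.exp y) * Complex.exp (-(((t * y : ℝ) : ℂ) * Complex.I)))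

/-- the approximation `B = A_{w0} + m D` -/
noncomputable def BB (w0 v k : ℝ → ℝ) (e T t : ℝ) : ℂ := AA w0 T t + mm k T t * DD v e T t

/-- `H(x) = ∫ om(t) conj m(t) x^(-it) dt` -/
noncomputable def HH (g : TF) (k : ℝ → ℝ) (T x : ℝ) : ℂ :=
  ∫ t : ℝ, ((om g.h T t : ℝ) : ℂ) * ((starRingEnd ℂ) (mm k T t) * xp t x)

/-- the weight `w(log n/L) v(1 + log(r/a)/L) ψ(2π a n/(r T))`, `ψ(u) = g.h (u - 1/2)` -/
noncomputable def FW (g : TF) (w v : ℝ → ℝ) (T : ℝ) (x : ℕ × ℕ) (n : ℕ) : ℝ :=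
  w (Real.log n / Real.log T) * v (lr T x) * g.h (2 * Real.pi * ((x.2 : ℝ) * n / x.1) / T - 1 / 2)

/-- the additive prime sum `S(T) = ∑_{(r,a)} (μ(r)/φ(r)) ∑_n Λ(n) FW e(-an/r)` -/
noncomputable def SS (g : TF) (w v : ℝ → ℝ) (e T : ℝ) : ℂ :=
  ∑ x ∈ RA e T, ((mf x.1 : ℝ) : ℂ) * ∑ n ∈ Finset.Icc 1 ⌊T ^ 2⌋₊,
    ((ArithmeticFunction.vonMangoldt n * FW g w v T x n : ℝ) : ℂ) * ee (-((x.2 : ℝ) * n / x.1))

/-- its main term: the principal characters -/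
noncomputable def SM (g : TF) (w v : ℝ → ℝ) (e T : ℝ) : ℝ :=
  ∑ x ∈ RA e T, mf x.1 ^ 2 * ∑ n ∈ (Finset.Icc 1 ⌊T ^ 2⌋₊).filter (fun n => Nat.Coprime n x.1),
    ArithmeticFunction.vonMangoldt n * FW g w v T x n

/-- the predicted lower bound, with slack: `∫ (3/2 - x - 2e)^+ f(x) dx` over `x > 1` -/
noncomputable def VE (e : ℝ) (f : ℝ → ℝ) : ℝ := ∫ x in Ioi (1:ℝ), max (3 / 2 - x - 2 * e) 0 * f x

end Pool.Agent.Helper69.FF
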