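import Pool.Agent.Helper69.FF.KDefs
import Pool.Agent.Helper93.FFK.Gauss

/-!
# FF-GAU: additive characters through primitive characters

For squarefree `r` and `(m, r) = 1`: `e(-m/r) - μ(r)/φ(r) = (1/φ(r)) ∑_{χ ≠ χ_0 mod r} τ(conj χ) χ(-m)`, `|τ(conj χ)| ≤ √(cond χ)` (squarefree `r`), `χ(m) = χ*(m)` with the primitive `χ*`
mod `q = cond χ > 1`, `q ∣ r`; the map `χ ↦ (q, χ*)` is injective. Sum over `i` and take absolute values.
(helper93 is proving this in `Pool/Agent/Helper93/FFK/Gauss.lean`; this file only restates it.)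
-/

open MeasureTheory Set Filter Topology
open Pool.Agent.Helper57.Zeta Pool.Agent.Helper57.PC Pool.Agent.Helper57.LH Pool.Agent.Helper78.SG
open Pool.Agent.Helper4.SH (om)
open scoped ContDiff

namespace Pool.Agent.Helper69.FF

private lemma h93_cond_inv {r : ℕ} [NeZero r] (χ : DirichletCharacter ℂ r) : (χ⁻¹).conductor = χ.conductor := by
  have key : ∀ d, χ.FactorsThrough d ↔ (χ⁻¹).FactorsThrough d := by
    intro d
    constructor
    · rintro ⟨hd, χ₀, hχ⟩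
      exact ⟨hd, χ₀⁻¹, by rw [hχ, map_inv]⟩
    · rintro ⟨hd, χ₀, hχ⟩
      refine ⟨hd, χ₀⁻¹, ?_⟩
      rw [map_inv, ← hχ, inv_inv]
  unfold DirichletCharacter.conductor DirichletCharacter.conductorSet
  congr 1
  ext d
  exact (key d).symm

private lemma h93_ee {r : ℕ} [NeZero r] (m : ℕ) : ee (-((m : ℝ) / r)) = ZMod.stdAddChar (-(m : ZMod r)) := by
  have h1 : -(m : ZMod r) = ((-(m : ℤ) : ℤ) : ZMod r) := by
    push_cast
    rfl
  rw [h1, ZMod.stdAddChar_coe]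
  unfold ee
  congr 1
  push_cast
  have : (r : ℂ) ≠ 0 := by exact_mod_cast NeZero.ne r
  field_simp

theorem gau {r : ℕ} (hr : Squarefree r) (hr0 : r ≠ 0) {ι : Type} (S : Finset ι) (c : ι → ℂ) (m : ι → ℕ)
    (hm : ∀ i ∈ S, Nat.Coprime (m i) r) :
    ‖∑ i ∈ S, c i * (ee (-((m i : ℝ) / r)) - ((mf r : ℝ) : ℂ))‖ ≤
      (1 / (Nat.totient r : ℝ)) * ∑ q ∈ r.divisors.filter (fun q : ℕ => (1 : ℝ) < (q : ℝ)),
        Real.sqrt q * ∑ χ ∈ PR q, ‖∑ i ∈ S, c i * χ (m i)‖ := by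
  haveI : NeZero r := ⟨hr0⟩
  classical
  have hφ : (0 : ℝ) < (Nat.totient r : ℝ) := by exact_mod_cast Nat.totient_pos.2 (Nat.pos_of_ne_zero hr0)
  have hφc : (Nat.totient r : ℂ) ≠ 0 := by exact_mod_cast hφ.ne'
  have hu : ∀ i ∈ S, IsUnit (-(m i : ZMod r)) := fun i hi => ((ZMod.isUnit_iff_coprime (m i) r).2 (hm i hi)).neg
  have h1 : ∀ i ∈ S, ee (-((m i : ℝ) / r)) - ((mf r : ℝ) : ℂ) =
      (Nat.totient r : ℂ)⁻¹ * ∑ χ ∈ (Finset.univ : Finset (DirichletCharacter ℂ r)).erase 1,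
        gaussSum χ⁻¹ ZMod.stdAddChar * χ (-(m i : ZMod r)) := by
    intro i hi
    rw [← Pool.Agent.Helper93.FFK.std_expand' (hu i hi), h93_ee]
    unfold mf
    push_cast
    field_simp
  have h2 : ∑ i ∈ S, c i * (ee (-((m i : ℝ) / r)) - ((mf r : ℝ) : ℂ)) =
      (Nat.totient r : ℂ)⁻¹ * ∑ χ ∈ (Finset.univ : Finset (DirichletCharacter ℂ r)).erase 1,
        (gaussSum χ⁻¹ ZMod.stdAddChar * χ (-1)) * ∑ i ∈ S, c i * χ.primitiveCharacter (m i) := by
    have e1 : ∀ i ∈ S, c i * (ee (-((m i : ℝ) / r)) - ((mf r : ℝ) : ℂ)) =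
        ∑ χ ∈ (Finset.univ : Finset (DirichletCharacter ℂ r)).erase 1,
          (Nat.totient r : ℂ)⁻¹ * ((gaussSum χ⁻¹ ZMod.stdAddChar * χ (-1)) * (c i * χ.primitiveCharacter (m i))) := by
      intro i hi
      rw [h1 i hi, Finset.mul_sum, Finset.mul_sum]
      refine Finset.sum_congr rfl fun χ _ => ?_
      rw [Pool.Agent.Helper93.FFK.prim_apply χ (hm i hi)]
      have : χ (-(m i : ZMod r)) = χ (-1) * χ (m i) := by
        rw [← map_mul, neg_one_mul]
      rw [this]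
      ring
    rw [Finset.sum_congr rfl e1, Finset.sum_comm, Finset.mul_sum]
    refine Finset.sum_congr rfl fun χ _ => ?_
    rw [Finset.mul_sum, Finset.mul_sum]
  rw [h2, norm_mul, norm_inv, Complex.norm_natCast, one_div]
  refine mul_le_mul_of_nonneg_left ?_ (by positivity)
  refine (norm_sum_le _ _).trans ?_
  have h3 : ∀ χ ∈ (Finset.univ : Finset (DirichletCharacter ℂ r)).erase 1,
      ‖(gaussSum χ⁻¹ ZMod.stdAddChar * χ (-1)) * ∑ i ∈ S, c i * χ.primitiveCharacter (m i)‖ ≤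
        Real.sqrt χ.conductor * ‖∑ i ∈ S, c i * χ.primitiveCharacter (m i)‖ := by
    intro χ _
    rw [norm_mul, norm_mul]
    have g1 : ‖χ (-1)‖ = 1 := by
      have := DirichletCharacter.unit_norm_eq_one χ (-1)
      simpa using this
    have g2 : ‖gaussSum χ⁻¹ ZMod.stdAddChar‖ ≤ Real.sqrt χ.conductor := by
      apply Real.le_sqrt_of_sq_le
      rw [← h93_cond_inv χ]
      exact Pool.Agent.Helper93.FFK.gauss_le χ⁻¹
    rw [g1, mul_one]
    gcongr
  refine (Finset.sum_le_sum h3).trans ?_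
  have h4 := Pool.Agent.Helper93.FFK.regroup (r := r) (fun q χ => Real.sqrt q * ‖∑ i ∈ S, c i * χ (m i)‖)
    (fun q χ => by positivity)
  refine h4.trans (le_of_eq ?_)
  have h5 : r.divisors.filter (fun q => 1 < q) = r.divisors.filter (fun q : ℕ => (1 : ℝ) < (q : ℝ)) := by
    refine Finset.filter_congr fun q _ => ?_
    rw [Nat.one_lt_cast]
  rw [h5]
  refine Finset.sum_congr rfl fun q _ => ?_
  rw [Finset.mul_sum]
  refine Finset.sum_congr ?_ fun _ _ => rfl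
  unfold PR
  congr 1

end Pool.Agent.Helper69.FF
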