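import Pool.Agent.Helper69.FF.Defs

/-!
# FF-HEq: formula for H(x)

`conj (mm k T t) = sqrt T exp(i t log T) ∫ k(y) e^(y/2) conj(ee (T e^y)) exp(i t y) dy`; insert it in `HH`, exchange the integrals (both
functions are continuous with compact support in `t` resp. `y`: `om g.h T t ≠ 0` forces `t ∈ [0, T]`, `k y ≠ 0` forces `|y| < c`) and
substitute `t = T τ`: `∫ om(t) exp(i t (y - log(x/T))) dt = T pc g (T (y - log (x/T)))`.
`pc_decay`: `pc g s = exp(i s/2) ker g.h 0 s` (`g.h` even), then `ker_decay g N` (Helper78/SG/KDecay).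
`pc_inv`: Fourier inversion (`g.h` smooth with compact support).
-/

open MeasureTheory Set Filter Topology
open Pool.Agent.Helper57.Zeta Pool.Agent.Helper57.PC Pool.Agent.Helper57.LH Pool.Agent.Helper78.SG
open Pool.Agent.Helper4.SH (om)
open scoped ContDiff

namespace Pool.Agent.Helper69.FF

/-- `ψ^(s) = ∫ ψ(τ) e^(iτs) dτ`, `ψ(τ) = g.h (τ - 1/2)` -/
noncomputable def pc (g : TF) (s : ℝ) : ℂ :=
  ∫ τ : ℝ, ((g.h (τ - 1 / 2) : ℝ) : ℂ) * Complex.exp (((τ * s : ℝ) : ℂ) * Complex.I)

theorem heq_cs {f : ℝ → ℝ} {c : ℝ} (hs : ∀ y, c ≤ |y| → f y = 0) : HasCompactSupport f := by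
  refine HasCompactSupport.of_support_subset_isCompact (isCompact_Icc (a := -c) (b := c)) ?_
  intro y hy
  by_contra hcon
  have : c ≤ |y| := by
    rw [Set.mem_Icc, not_and_or] at hcon
    rcases hcon with h | h
    · have := neg_abs_le y
      have h2 : y < -c := lt_of_not_ge h
      by_contra h3
      push Not at h3
      have := abs_lt.1 h3
      linarith
    · have h2 : c < y := lt_of_not_ge h
      exact h2.le.trans (le_abs_self y)
  exact hy (hs y this)

theorem heq_gcs (g : TF) : HasCompactSupport g.h := heq_cs g.supp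

theorem heq_gc (g : TF) : Continuous g.h := g.smooth.continuous

theorem heq_gi (g : TF) : Integrable g.h := (heq_gc g).integrable_of_hasCompactSupport (heq_gcs g)

theorem heq_norm_exp (x : ℝ) : ‖Complex.exp (((x : ℝ) : ℂ) * Complex.I)‖ = 1 := Complex.norm_exp_ofReal_mul_I x

theorem pc_cont (g : TF) : Continuous (pc g) := by
  unfold pc
  refine continuous_of_dominated (bound := fun τ => ‖g.h (τ - 1 / 2)‖) ?_ ?_ ?_ ?_
  · intro s
    refine Continuous.aestronglyMeasurable ?_
    have := heq_gc g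
    fun_prop
  · intro s
    refine Eventually.of_forall fun τ => ?_
    rw [norm_mul, heq_norm_exp, mul_one, Complex.norm_real]
  · exact ((heq_gi g).comp_sub_right (1/2)).norm
  · refine Eventually.of_forall fun τ => ?_
    fun_prop

theorem pc_eq (g : TF) (s : ℝ) : pc g s = Complex.exp (((s / 2 : ℝ) : ℂ) * Complex.I) * ((ker g.h 0 s : ℝ) : ℂ) := by
  have e1 : pc g s = ∫ y : ℝ, ((g.h y : ℝ) : ℂ) * Complex.exp ((((y + 1 / 2) * s : ℝ) : ℂ) * Complex.I) := by
    unfold pc
    rw [← integral_sub_right_eq_self (fun y : ℝ => ((g.h y : ℝ) : ℂ) * Complex.exp ((((y + 1 / 2) * s : ℝ) : ℂ) * Complex.I)) (1/2)]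
    refine integral_congr_ae (Eventually.of_forall fun τ => ?_)
    simp only [sub_add_cancel]
  have hi : ∀ s : ℝ, Integrable (fun y : ℝ => ((g.h y : ℝ) : ℂ) * Complex.exp (((y * s : ℝ) : ℂ) * Complex.I)) := by
    intro s
    refine Integrable.mono' (heq_gi g).norm (Continuous.aestronglyMeasurable ?_) (Eventually.of_forall fun y => ?_)
    · have := heq_gc g
      fun_prop
    · rw [norm_mul, heq_norm_exp, mul_one, Complex.norm_real]
  have e2 : ∫ y : ℝ, ((g.h y : ℝ) : ℂ) * Complex.exp (((y * s : ℝ) : ℂ) * Complex.I) =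
      ∫ y : ℝ, ((g.h y : ℝ) : ℂ) * Complex.exp (((y * (-s) : ℝ) : ℂ) * Complex.I) := by
    rw [← integral_neg_eq_self]
    refine integral_congr_ae (Eventually.of_forall fun y => ?_)
    simp only [g.even]
    ring_nf
  have e3 : ∫ y : ℝ, ((g.h y : ℝ) : ℂ) * Complex.exp (((y * s : ℝ) : ℂ) * Complex.I) = ((ker g.h 0 s : ℝ) : ℂ) := by
    have h2 : (2:ℂ) * ∫ y : ℝ, ((g.h y : ℝ) : ℂ) * Complex.exp (((y * s : ℝ) : ℂ) * Complex.I) = 2 * ((ker g.h 0 s : ℝ) : ℂ) := by
      conv_lhs => rw [two_mul]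
      nth_rewrite 2 [e2]
      rw [← integral_add (hi s) (hi (-s)), Pool.Agent.Helper78.SG.ker, ← integral_complex_ofReal, ← integral_const_mul]
      refine integral_congr_ae (Eventually.of_forall fun y => ?_)
      simp only [zero_mul, Real.cosh_zero, one_mul]
      push_cast
      rw [Complex.cos]
      have a1 : (↑y * (-↑s) * Complex.I : ℂ) = -(↑s * ↑y) * Complex.I := by ring
      have a2 : (↑y * ↑s * Complex.I : ℂ) = (↑s * ↑y) * Complex.I := by ring
      rw [a1, a2]
      ring
    exact mul_left_cancel₀ two_ne_zero h2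
  rw [e1, ← e3, ← integral_const_mul]
  refine integral_congr_ae (Eventually.of_forall fun y => ?_)
  simp only
  rw [mul_left_comm, ← Complex.exp_add]
  congr 2
  push_cast
  ring

theorem pc_decay (g : TF) (N : ℕ) : ∃ C : ℝ, 0 < C ∧ ∀ s : ℝ, ‖pc g s‖ ≤ C / (1 + |s|) ^ N := by
  obtain ⟨C, hC, h⟩ := ker_decay g N
  refine ⟨C, hC, fun s => ?_⟩
  rw [pc_eq, norm_mul, heq_norm_exp, one_mul, Complex.norm_real, Real.norm_eq_abs]
  have := h 0 s
  simpa using this

theorem pc_int (g : TF) : Integrable (pc g) := by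
  obtain ⟨C, hC, h⟩ := pc_decay g 2
  refine Integrable.mono' (g := fun s => C * (1 + s ^ 2)⁻¹) (integrable_inv_one_add_sq.const_mul C)
    (pc_cont g).aestronglyMeasurable (Eventually.of_forall fun s => ?_)
  refine (h s).trans ?_
  rw [div_eq_mul_inv]
  refine mul_le_mul_of_nonneg_left ?_ hC.le
  refine inv_anti₀ (by positivity) ?_
  have : |s| ^ 2 = s ^ 2 := sq_abs s
  nlinarith [abs_nonneg s]

/-- Fourier inversion -/
theorem pc_inv (g : TF) (u : ℝ) : ∫ s : ℝ, pc g s * Complex.exp (-(((u * s : ℝ) : ℂ) * Complex.I)) =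
    ((2 * Real.pi * g.h (u - 1 / 2) : ℝ) : ℂ) := by
  let f : ℝ → ℂ := fun τ => ((g.h (τ - 1 / 2) : ℝ) : ℂ)
  have hfc : Continuous f := by
    have := heq_gc g
    show Continuous (fun τ : ℝ => ((g.h (τ - 1 / 2) : ℝ) : ℂ))
    fun_prop
  have hfi : Integrable f := ((heq_gi g).comp_sub_right (1/2)).ofReal
  have hF : (FourierTransform.fourier f : ℝ → ℂ) = fun w => pc g ((-2 * Real.pi) * w) := by
    ext w
    rw [Real.fourier_real_eq_integral_exp_smul, pc]
    refine integral_congr_ae (Eventually.of_forall fun τ => ?_)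
    simp only [smul_eq_mul, f]
    rw [mul_comm]
    congr 4
    ring
  have hFi : Integrable (FourierTransform.fourier f : ℝ → ℂ) := by
    rw [hF]
    exact (pc_int g).comp_mul_left' (by simp [Real.pi_ne_zero])
  have hinv := congrFun (Continuous.fourierInv_fourier_eq hfc hfi hFi) u
  rw [Real.fourierInv_eq', hF] at hinv
  have e1 : ∫ w : ℝ, Complex.exp ((↑(2 * Real.pi * inner ℝ w u) * Complex.I)) • pc g ((-2 * Real.pi) * w) =
      ∫ w : ℝ, (fun s => pc g s * Complex.exp (-(((u * s : ℝ) : ℂ) * Complex.I))) ((-2 * Real.pi) * w) := by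
    refine integral_congr_ae (Eventually.of_forall fun w => ?_)
    simp only [smul_eq_mul]
    rw [mul_comm]
    congr 2
    simp
    ring
  rw [e1, Measure.integral_comp_mul_left (fun s => pc g s * Complex.exp (-(((u * s : ℝ) : ℂ) * Complex.I)))] at hinv
  have hpi : (0:ℝ) < 2 * Real.pi := by positivity
  have e2 : |(-2 * Real.pi)⁻¹| = (2 * Real.pi)⁻¹ := by
    rw [abs_inv]
    congr 1
    rw [abs_of_neg (by linarith)]
    ring
  rw [e2] at hinv
  have e3 : ∫ s : ℝ, pc g s * Complex.exp (-(((u * s : ℝ) : ℂ) * Complex.I)) = (2 * Real.pi) • f u := by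
    rw [← hinv, smul_smul, mul_inv_cancel₀ hpi.ne', one_smul]
  rw [e3]
  simp [f]

theorem heq_conj (k : ℝ → ℝ) (T t x : ℝ) : (starRingEnd ℂ) (mm k T t) * xp t x =
    ∫ y : ℝ, ((Real.sqrt T : ℝ) : ℂ) * (((k y * Real.exp (y / 2) : ℝ) : ℂ) * (ee (-(T * Real.exp y)) *
      Complex.exp (((t * (y + Real.log T - Real.log x) : ℝ) : ℂ) * Complex.I))) := by
  unfold mm
  rw [map_mul, map_mul, Complex.conj_ofReal, ← integral_conj]
  rw [mul_assoc, mul_assoc, ← mul_assoc ((starRingEnd ℂ) (xp t T)), mul_comm _ (xp t x), ← mul_assoc (xp t x), ← integral_const_mul,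
    ← integral_const_mul]
  refine integral_congr_ae (Eventually.of_forall fun y => ?_)
  simp only [map_mul, Complex.conj_ofReal]
  have c1 : (starRingEnd ℂ) (xp t T) = Complex.exp (((t * Real.log T : ℝ) : ℂ) * Complex.I) := by
    rw [xp, ← Complex.exp_conj]
    simp
  have c2 : (starRingEnd ℂ) (ee (T * Real.exp y)) = ee (-(T * Real.exp y)) := by
    rw [ee, ← Complex.exp_conj, ee, map_mul, Complex.conj_ofReal, Complex.conj_I]
    congr 1
    push_cast
    ring
  have c3 : (starRingEnd ℂ) (Complex.exp (-(((t * y : ℝ) : ℂ) * Complex.I))) = Complex.exp (((t * y : ℝ) : ℂ) * Complex.I) := by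
    rw [← Complex.exp_conj]
    simp
  rw [c1, c2, c3, xp]
  have c4 : Complex.exp (((t * (y + Real.log T - Real.log x) : ℝ) : ℂ) * Complex.I) =
      Complex.exp (-(((t * Real.log x : ℝ) : ℂ) * Complex.I)) * Complex.exp (((t * Real.log T : ℝ) : ℂ) * Complex.I) *
        Complex.exp (((t * y : ℝ) : ℂ) * Complex.I) := by
    rw [← Complex.exp_add, ← Complex.exp_add]
    congr 1
    push_cast
    ring
  rw [c4]
  ring

theorem heq_om (g : TF) {T : ℝ} (hT : 0 < T) (s : ℝ) :
    ∫ t : ℝ, ((om g.h T t : ℝ) : ℂ) * Complex.exp (((t * s : ℝ) : ℂ) * Complex.I) = ((T : ℝ) : ℂ) * pc g (T * s) := by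
  have h := Measure.integral_comp_mul_left (fun t : ℝ => ((om g.h T t : ℝ) : ℂ) * Complex.exp (((t * s : ℝ) : ℂ) * Complex.I)) T
  have e : ∫ τ : ℝ, ((om g.h T (T * τ) : ℝ) : ℂ) * Complex.exp (((T * τ * s : ℝ) : ℂ) * Complex.I) = pc g (T * s) := by
    rw [pc]
    refine integral_congr_ae (Eventually.of_forall fun τ => ?_)
    simp only
    rw [Pool.Agent.Helper4.SH.om, mul_div_cancel_left₀ _ hT.ne']
    congr 4
    ring
  rw [e, abs_of_pos (inv_pos.2 hT)] at h
  rw [h, Complex.real_smul, ← mul_assoc, ← Complex.ofReal_mul, mul_inv_cancel₀ hT.ne', Complex.ofReal_one, one_mul]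

theorem HH_eq (g : TF) {k : ℝ → ℝ} {c : ℝ} (hk : KW g k c) {T x : ℝ} (hT : 0 < T) (hx : 0 < x) :
    HH g k T x = ((T * Real.sqrt T : ℝ) : ℂ) *
      ∫ y : ℝ, ((k y * Real.exp (y / 2) : ℝ) : ℂ) * (ee (-(T * Real.exp y)) * pc g (T * (y - Real.log (x / T)))) := by
  have hkc : Continuous k := hk.smooth.continuous
  have hgc := heq_gc g
  have hee : Continuous ee := by
    unfold ee
    fun_prop
  unfold HH
  have e1 : ∀ t : ℝ, ((om g.h T t : ℝ) : ℂ) * ((starRingEnd ℂ) (mm k T t) * xp t x) =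
      ∫ y : ℝ, ((om g.h T t : ℝ) : ℂ) * (((Real.sqrt T : ℝ) : ℂ) * (((k y * Real.exp (y / 2) : ℝ) : ℂ) * (ee (-(T * Real.exp y)) *
        Complex.exp (((t * (y + Real.log T - Real.log x) : ℝ) : ℂ) * Complex.I)))) := by
    intro t
    rw [heq_conj, ← integral_const_mul]
  simp_rw [e1]
  have homc : Continuous (fun t : ℝ => om g.h T t) := by
    unfold Pool.Agent.Helper4.SH.om
    fun_prop
  rw [integral_integral_swap]
  · rw [← integral_const_mul]
    refine integral_congr_ae (Eventually.of_forall fun y => ?_)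
    simp only
    have e2 : ∀ t : ℝ, ((om g.h T t : ℝ) : ℂ) * (((Real.sqrt T : ℝ) : ℂ) * (((k y * Real.exp (y / 2) : ℝ) : ℂ) * (ee (-(T * Real.exp y)) *
        Complex.exp (((t * (y + Real.log T - Real.log x) : ℝ) : ℂ) * Complex.I)))) =
        (((Real.sqrt T : ℝ) : ℂ) * (((k y * Real.exp (y / 2) : ℝ) : ℂ) * ee (-(T * Real.exp y)))) *
          (((om g.h T t : ℝ) : ℂ) * Complex.exp (((t * (y + Real.log T - Real.log x) : ℝ) : ℂ) * Complex.I)) := fun t => by ring
    simp_rw [e2]
    rw [integral_const_mul, heq_om g hT, Real.log_div hx.ne' hT.ne']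
    have e3 : T * (y + Real.log T - Real.log x) = T * (y - (Real.log x - Real.log T)) := by ring
    rw [e3]
    push_cast
    ring
  · -- integrability
    have hcont : Continuous (Function.uncurry fun (t y : ℝ) => ((om g.h T t : ℝ) : ℂ) * (((Real.sqrt T : ℝ) : ℂ) *
        (((k y * Real.exp (y / 2) : ℝ) : ℂ) * (ee (-(T * Real.exp y)) *
        Complex.exp (((t * (y + Real.log T - Real.log x) : ℝ) : ℂ) * Complex.I))))) := by
      have a1 : Continuous (fun p : ℝ × ℝ => om g.h T p.1) := homc.comp continuous_fst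
      have a2 : Continuous (fun p : ℝ × ℝ => k p.2) := hkc.comp continuous_snd
      have a3 : Continuous (fun p : ℝ × ℝ => ee (-(T * Real.exp p.2))) := hee.comp (by fun_prop)
      unfold Function.uncurry
      simp only
      fun_prop
    refine hcont.integrable_of_hasCompactSupport ?_
    refine HasCompactSupport.of_support_subset_isCompact
      ((isCompact_Icc (a := (0:ℝ)) (b := T)).prod (isCompact_Icc (a := -c) (b := c))) ?_
    rintro ⟨t, y⟩ hty
    rw [Function.mem_support] at hty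
    simp only [Function.uncurry] at hty
    have ht : om g.h T t ≠ 0 := by
      intro h0
      exact hty (by rw [h0]; simp)
    have hy : k y ≠ 0 := by
      intro h0
      exact hty (by rw [h0]; simp)
    constructor
    · simp only
      have h1 : ¬ g.th ≤ |t / T - 1 / 2| := fun h => ht (g.supp _ h)
      push Not at h1
      have h2 := abs_lt.1 h1
      have h3 := g.th1
      have h4 : 0 < t / T := by linarith [h2.1]
      have h5 : t / T < 1 := by linarith [h2.2]
      constructor
      · by_contra h6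
        push Not at h6
        have := div_neg_of_neg_of_pos h6 hT
        linarith
      · rw [div_lt_one hT] at h5
        exact h5.le
    · simp only
      have h1 : ¬ c ≤ |y| := fun h => hy (hk.supp _ h)
      push Not at h1
      have h2 := abs_lt.1 h1
      exact ⟨h2.1.le, h2.2.le⟩

end Pool.Agent.Helper69.FF
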