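import Pool.Agent.Helper69.FF.HEq

/-!
# FF-HNear: H(x) in the critical range

Put `Y = log (x/T)`, `|Y| ≤ c + 1`, and `y = Y + s/T` in `HH_eq`: `HH = sqrt T ∫ k(Y + s/T) e^((Y+s/T)/2) ee(-x e^(s/T)) pc g s ds`.
Replace `k(Y+s/T)` by `k Y` (error `≤ C |s|/T`, `k` Lipschitz), `e^((Y+s/T)/2)` by `e^(Y/2)` (on the support of `k(Y+s/T)` or `k Y` use
`|s/T| ≤ 2c+1`; error `≤ C |s|/T`), `ee(-x e^(s/T))` by `ee(-x) exp(-2π i (x/T) s)`, error `≤ 2π x |e^(s/T) - 1 - s/T| ≤ C T (s/T)^2` for `|s/T| ≤ 2c+1`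
(`x ≤ e^(c+1) T`), i.e. `≤ C s²/T`. Since `∫ (1+s²) ‖pc g s‖ ds < ∞` (`pc_decay` with `N = 4`) the total error is `≤ C sqrt T/T`. The part `|s/T| > 2c+1` of
`k Y e^(Y/2) ee(-x) ∫ exp(-2π i (x/T) s) pc g s ds` is `≤ C/T` by decay. Finally `pc_inv` with `u = 2π x/T` gives
`sqrt T e^(Y/2) k(Y) ee(-x) 2π g.h (2π x/T - 1/2)`, `sqrt T e^(Y/2) = sqrt x`, and `k Y = 1` if `g.h (2π x/T - 1/2) ≠ 0` (`KW.one`, `g.supp`).
-/

open MeasureTheory Set Filter Topology
open Pool.Agent.Helper57.Zeta Pool.Agent.Helper57.PC Pool.Agent.Helper57.LH Pool.Agent.Helper78.SG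
open Pool.Agent.Helper4.SH (om)
open scoped ContDiff

namespace Pool.Agent.Helper69.FF

private lemma hn_ee_cont : Continuous ee := by
  unfold ee
  fun_prop

private lemma hn_ee_norm (x : ℝ) : ‖ee x‖ = 1 := Complex.norm_exp_ofReal_mul_I _

private lemma hn_expI (a b : ℝ) :
    ‖Complex.exp ((a : ℂ) * Complex.I) - Complex.exp ((b : ℂ) * Complex.I)‖ ≤ |a - b| := by
  have e : Complex.exp ((a : ℂ) * Complex.I) - Complex.exp ((b : ℂ) * Complex.I) =
      Complex.exp ((b : ℂ) * Complex.I) * (Complex.exp (Complex.I * ((a - b : ℝ) : ℂ)) - 1) := by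
    rw [mul_sub, ← Complex.exp_add, mul_one]
    congr 2
    push_cast
    ring
  rw [e, norm_mul, Complex.norm_exp_ofReal_mul_I, one_mul, ← Real.norm_eq_abs]
  exact Real.norm_exp_I_mul_ofReal_sub_one_le

/-- the phase: `x (e^v - 1 - v)` is of second order -/
private lemma hn_phase {x v : ℝ} (hx : 0 < x) :
    ‖ee (-(x * Real.exp v)) - ee (-x) * Complex.exp (-(((2 * Real.pi * x * v : ℝ) : ℂ) * Complex.I))‖ ≤
      2 * Real.pi * x * v ^ 2 + 2 * |v| := by
  have hpi := Real.pi_pos
  have e1 : ee (-x) * Complex.exp (-(((2 * Real.pi * x * v : ℝ) : ℂ) * Complex.I)) =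
      Complex.exp (((-(2 * Real.pi * x * (1 + v)) : ℝ) : ℂ) * Complex.I) := by
    unfold ee
    rw [← Complex.exp_add]
    congr 1
    push_cast
    ring
  have e2 : ee (-(x * Real.exp v)) = Complex.exp (((-(2 * Real.pi * x * Real.exp v) : ℝ) : ℂ) * Complex.I) := by
    unfold ee
    congr 3
    ring
  by_cases hv : |v| ≤ 1
  · rw [e1, e2]
    refine (hn_expI _ _).trans ?_
    have h1 := Real.abs_exp_sub_one_sub_id_le hv
    have e3 : -(2 * Real.pi * x * Real.exp v) - -(2 * Real.pi * x * (1 + v)) =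
        -(2 * Real.pi * x * (Real.exp v - 1 - v)) := by ring
    rw [e3, abs_neg, abs_mul, abs_of_pos (by positivity : 0 < 2 * Real.pi * x)]
    have h2 := mul_le_mul_of_nonneg_left h1 (by positivity : 0 ≤ 2 * Real.pi * x)
    have h3 := abs_nonneg v
    linarith
  · rw [not_le] at hv
    refine (norm_sub_le _ _).trans ?_
    rw [hn_ee_norm, e1, Complex.norm_exp_ofReal_mul_I]
    have : 0 ≤ 2 * Real.pi * x * v ^ 2 := by positivity
    linarith

theorem HH_near (g : TF) {k : ℝ → ℝ} {c : ℝ} (hk : KW g k c) : ∃ C : ℝ, 0 < C ∧ ∀ T x : ℝ, 1 ≤ T → 0 < x →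
    |Real.log (x / T)| ≤ c + 1 →
    ‖HH g k T x - ((2 * Real.pi * Real.sqrt x * g.h (2 * Real.pi * x / T - 1 / 2) : ℝ) : ℂ) * ee (-x)‖ ≤ C / Real.sqrt T := by
  have hpi := Real.pi_pos
  -- the function `q`
  set q : ℝ → ℝ := fun y => k y * Real.exp (y / 2) with hq
  have hqs : ContDiff ℝ ∞ q := hk.smooth.mul (Real.contDiff_exp.comp (contDiff_id.div_const 2))
  have hqc : HasCompactSupport q := by
    refine HasCompactSupport.intro (isCompact_Icc (a := -c) (b := c)) fun y hy => ?_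
    have h1 : c ≤ |y| := by
      by_contra h
      rw [not_le] at h
      exact hy ⟨(abs_lt.1 h).1.le, (abs_lt.1 h).2.le⟩
    show k y * Real.exp (y / 2) = 0
    rw [hk.supp y h1, zero_mul]
  have hqd : Continuous (deriv q) := hqs.continuous_deriv (by norm_num)
  obtain ⟨Lq, hLq⟩ := hqd.bounded_above_of_compact_support hqc.deriv
  have hLq0 : 0 ≤ Lq := (norm_nonneg _).trans (hLq 0)
  have hLip : ∀ a b : ℝ, |q b - q a| ≤ Lq * |b - a| := by
    intro a b
    have := Convex.norm_image_sub_le_of_norm_deriv_le (𝕜 := ℝ) (f := q) (C := Lq) (s := Set.univ) (x := a) (y := b)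
      (fun y _ => (hqs.differentiable (by norm_num)) y) (fun y _ => hLq y) convex_univ (mem_univ _) (mem_univ _)
    simpa only [Real.norm_eq_abs] using this
  obtain ⟨Mq, hMq⟩ := hqs.continuous.bounded_above_of_compact_support hqc
  have hMq0 : 0 ≤ Mq := (norm_nonneg _).trans (hMq 0)
  obtain ⟨C4, hC4, hdec⟩ := pc_decay g 4
  set E1 : ℝ := Real.exp (c + 1) with hE1
  have hE10 : 0 < E1 := Real.exp_pos _
  set C1 : ℝ := Lq + Mq * (2 * Real.pi * E1 + 2) with hC1
  have hC10 : 0 ≤ C1 := by positivity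
  refine ⟨(C1 + 1) * C4 * Real.pi, by positivity, fun T x hT hx hY => ?_⟩
  have hT0 : 0 < T := by linarith
  set Y : ℝ := Real.log (x / T) with hYdef
  have hxT : Real.exp Y = x / T := by
    rw [hYdef, Real.exp_log (by positivity)]
  have hTY : T * Real.exp Y = x := by
    rw [hxT]
    field_simp
  have hxle : x ≤ E1 * T := by
    have h1 : x / T ≤ E1 := by
      rw [← hxT, hE1]
      exact Real.exp_le_exp.2 (abs_le.1 hY).2
    rwa [div_le_iff₀ hT0] at h1
  -- the two integrands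
  set F : ℝ → ℂ := fun s => ((q (Y + s / T) : ℝ) : ℂ) * ee (-(x * Real.exp (s / T))) with hF
  set G : ℝ → ℂ := fun s => ((q Y : ℝ) : ℂ) * (ee (-x) * Complex.exp (-(((2 * Real.pi * x / T * s : ℝ) : ℂ) * Complex.I))) with hG
  have hFc : Continuous F := by
    have h1 : Continuous fun s : ℝ => q (Y + s / T) := hqs.continuous.comp (by fun_prop)
    have h2 : Continuous fun s : ℝ => ee (-(x * Real.exp (s / T))) := hn_ee_cont.comp (by fun_prop)
    exact (Complex.continuous_ofReal.comp h1).mul h2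
  have hGc : Continuous G := by
    rw [hG]
    fun_prop
  have hpcc := pc_cont g
  -- the formula for `HH`
  have hHH : HH g k T x = ((Real.sqrt T : ℝ) : ℂ) * ∫ s : ℝ, F s * pc g s := by
    rw [HH_eq g hk hT0 hx]
    have h1 : ∀ y : ℝ, ((k y * Real.exp (y / 2) : ℝ) : ℂ) * (ee (-(T * Real.exp y)) * pc g (T * (y - Real.log (x / T)))) =
        (fun s => F s * pc g s) (T * (y - Y)) := by
      intro y
      have e1 : Y + T * (y - Y) / T = y := by
        field_simp
        ring
      have e2 : x * Real.exp (T * (y - Y) / T) = T * Real.exp y := by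
        have e3 : T * (y - Y) / T = y - Y := by field_simp
        rw [e3, Real.exp_sub, hxT]
        field_simp
      show _ = F (T * (y - Y)) * pc g (T * (y - Y))
      rw [hF]
      beta_reduce
      rw [e1, e2, ← hYdef]
      ring
    simp only [h1]
    rw [integral_sub_right_eq_self (fun y => (fun s => F s * pc g s) (T * y)) Y,
      Measure.integral_comp_mul_left (fun s => F s * pc g s) T, abs_of_pos (inv_pos.2 hT0), Complex.real_smul,
      ← mul_assoc, ← Complex.ofReal_mul]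
    congr 2
    field_simp
  -- the main term
  have hmain : ((2 * Real.pi * Real.sqrt x * g.h (2 * Real.pi * x / T - 1 / 2) : ℝ) : ℂ) * ee (-x) =
      ((Real.sqrt T : ℝ) : ℂ) * ∫ s : ℝ, G s * pc g s := by
    have h1 : ∫ s : ℝ, G s * pc g s = ((q Y : ℝ) : ℂ) * ee (-x) *
        ∫ s : ℝ, pc g s * Complex.exp (-(((2 * Real.pi * x / T * s : ℝ) : ℂ) * Complex.I)) := by
      rw [← integral_const_mul]
      refine integral_congr_ae (Filter.Eventually.of_forall fun s => ?_)
      rw [hG]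
      beta_reduce
      ring
    rw [h1, pc_inv g (2 * Real.pi * x / T)]
    have h2 : Real.sqrt T * q Y * (2 * Real.pi * g.h (2 * Real.pi * x / T - 1 / 2)) =
        2 * Real.pi * Real.sqrt x * g.h (2 * Real.pi * x / T - 1 / 2) := by
      by_cases h0 : g.h (2 * Real.pi * x / T - 1 / 2) = 0
      · rw [h0]
        ring
      · have h3 : |2 * Real.pi * x / T - 1 / 2| < g.th := by
          by_contra h
          rw [not_lt] at h
          exact h0 (g.supp _ h)
        have h4 := abs_lt.1 h3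
        have h5 : 2 * Real.pi * x / T = 2 * Real.pi * Real.exp Y := by
          rw [hxT]
          ring
        rw [h5] at h4
        have h6 := g.th0
        have h7 := g.th1
        have hkY : k Y = 1 := hk.one Y (by linarith) (by linarith)
        have h8 : Real.sqrt T * q Y = Real.sqrt x := by
          show Real.sqrt T * (k Y * Real.exp (Y / 2)) = Real.sqrt x
          rw [hkY, one_mul, Real.exp_half, ← Real.sqrt_mul hT0.le, hTY]
        rw [h8]
        ring
    rw [← h2]
    push_cast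
    ring
  rw [hHH, hmain, ← mul_sub]
  -- integrability
  have hcomp : ∀ s : ℝ, ‖pc g s‖ ≤ C4 * (1 + s ^ 2)⁻¹ := by
    intro s
    refine (hdec s).trans ?_
    rw [← div_eq_mul_inv]
    refine div_le_div_of_nonneg_left hC4.le (by positivity) ?_
    have h1 : s ^ 2 = |s| ^ 2 := (sq_abs s).symm
    have h2 := abs_nonneg s
    rw [h1]
    have h3 : (1 : ℝ) ≤ (1 + |s|) ^ 2 := one_le_pow₀ (by linarith)
    nlinarith [h3, mul_nonneg h2 h2, mul_le_mul_of_nonneg_left h3 (by positivity : (0 : ℝ) ≤ (1 + |s|) ^ 2)]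
  have hFn : ∀ s, ‖F s‖ ≤ Mq := by
    intro s
    show ‖((q (Y + s / T) : ℝ) : ℂ) * ee (-(x * Real.exp (s / T)))‖ ≤ Mq
    rw [norm_mul, hn_ee_norm, mul_one, Complex.norm_real]
    exact hMq _
  have hexpn : ∀ s : ℝ, ‖Complex.exp (-(((2 * Real.pi * x / T * s : ℝ) : ℂ) * Complex.I))‖ = 1 := by
    intro s
    rw [← neg_mul, ← Complex.ofReal_neg, Complex.norm_exp_ofReal_mul_I]
  have hGn : ∀ s, ‖G s‖ ≤ Mq := by
    intro s
    show ‖((q Y : ℝ) : ℂ) * (ee (-x) * Complex.exp (-(((2 * Real.pi * x / T * s : ℝ) : ℂ) * Complex.I)))‖ ≤ Mq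
    rw [norm_mul, norm_mul, hn_ee_norm, hexpn, mul_one, mul_one, Complex.norm_real]
    exact hMq _
  have hint : ∀ A : ℝ → ℂ, Continuous A → (∀ s, ‖A s‖ ≤ Mq) → Integrable fun s => A s * pc g s := by
    intro A hA hAn
    refine ((integrable_inv_one_add_sq.const_mul (Mq * C4))).mono' (hA.mul hpcc).aestronglyMeasurable
      (Filter.Eventually.of_forall fun s => ?_)
    rw [norm_mul, mul_assoc]
    exact mul_le_mul (hAn s) (hcomp s) (norm_nonneg _) hMq0
  rw [← integral_sub (hint F hFc hFn) (hint G hGc hGn), norm_mul, Complex.norm_real, Real.norm_eq_abs,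
    abs_of_nonneg (Real.sqrt_nonneg T)]
  -- the pointwise bound
  have hpt : ∀ s : ℝ, ‖F s * pc g s - G s * pc g s‖ ≤ C1 * C4 / T * (1 + s ^ 2)⁻¹ := by
    intro s
    rw [← sub_mul, norm_mul]
    set v : ℝ := s / T with hv
    have hsv : |v| = |s| / T := by rw [hv, abs_div, abs_of_pos hT0]
    have h1 : F s - G s = ((q (Y + v) - q Y : ℝ) : ℂ) * ee (-(x * Real.exp v)) +
        ((q Y : ℝ) : ℂ) * (ee (-(x * Real.exp v)) - ee (-x) * Complex.exp (-(((2 * Real.pi * x * v : ℝ) : ℂ) * Complex.I))) := by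
      have e : (2 * Real.pi * x / T * s : ℝ) = 2 * Real.pi * x * v := by
        rw [hv]
        ring
      show ((q (Y + v) : ℝ) : ℂ) * ee (-(x * Real.exp v)) -
        ((q Y : ℝ) : ℂ) * (ee (-x) * Complex.exp (-(((2 * Real.pi * x / T * s : ℝ) : ℂ) * Complex.I))) = _
      rw [e]
      push_cast
      ring
    have h2 : ‖F s - G s‖ ≤ Lq * |v| + Mq * (2 * Real.pi * x * v ^ 2 + 2 * |v|) := by
      rw [h1]
      refine (norm_add_le _ _).trans (add_le_add ?_ ?_)
      · rw [norm_mul, hn_ee_norm, mul_one, Complex.norm_real, Real.norm_eq_abs]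
        have := hLip Y (Y + v)
        rwa [add_sub_cancel_left] at this
      · rw [norm_mul, Complex.norm_real]
        exact mul_le_mul (hMq Y) (hn_phase hx) (norm_nonneg _) hMq0
    have h3 : ‖F s - G s‖ ≤ C1 * ((1 + |s|) ^ 2 / T) := by
      refine h2.trans ?_
      have h4 : 0 ≤ |s| := abs_nonneg s
      have h5 : |v| ≤ (1 + |s|) ^ 2 / T := by
        rw [hsv]
        refine div_le_div_of_nonneg_right ?_ hT0.le
        nlinarith
      have h6 : x * v ^ 2 ≤ E1 * ((1 + |s|) ^ 2 / T) := by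
        have h7 : x * v ^ 2 ≤ E1 * T * v ^ 2 := mul_le_mul_of_nonneg_right hxle (sq_nonneg v)
        refine h7.trans ?_
        have h8 : E1 * T * v ^ 2 = E1 * (|s| ^ 2 / T) := by
          rw [← sq_abs v, hsv]
          field_simp
        rw [h8]
        refine mul_le_mul_of_nonneg_left (div_le_div_of_nonneg_right ?_ hT0.le) hE10.le
        nlinarith
      set W := (1 + |s|) ^ 2 / T with hW
      have h9 : Lq * |v| ≤ Lq * W := mul_le_mul_of_nonneg_left h5 hLq0
      have h10 : 2 * Real.pi * x * v ^ 2 + 2 * |v| ≤ (2 * Real.pi * E1 + 2) * W := by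
        have : 2 * Real.pi * (x * v ^ 2) ≤ 2 * Real.pi * (E1 * W) := mul_le_mul_of_nonneg_left h6 (by positivity)
        nlinarith
      have h11 := mul_le_mul_of_nonneg_left h10 hMq0
      rw [hC1]
      nlinarith
    have h4 : 0 < 1 + |s| := by
      have := abs_nonneg s
      linarith
    calc ‖F s - G s‖ * ‖pc g s‖ ≤ (C1 * ((1 + |s|) ^ 2 / T)) * (C4 / (1 + |s|) ^ 4) :=
          mul_le_mul h3 (hdec s) (norm_nonneg _) (by positivity)
      _ = C1 * C4 / T * ((1 + |s|) ^ 2)⁻¹ := by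
          field_simp
      _ ≤ C1 * C4 / T * (1 + s ^ 2)⁻¹ := by
          refine mul_le_mul_of_nonneg_left ?_ (by positivity)
          refine inv_anti₀ (by positivity) ?_
          rw [← sq_abs s]
          nlinarith [abs_nonneg s]
  have hfin : ‖∫ s : ℝ, (F s * pc g s - G s * pc g s)‖ ≤ C1 * C4 / T * Real.pi := by
    refine (norm_integral_le_of_norm_le (integrable_inv_one_add_sq.const_mul (C1 * C4 / T))
      (Filter.Eventually.of_forall hpt)).trans ?_
    rw [integral_const_mul, integral_univ_inv_one_add_sq]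
  refine (mul_le_mul_of_nonneg_left hfin (Real.sqrt_nonneg T)).trans ?_
  have hsT : 0 < Real.sqrt T := Real.sqrt_pos.2 hT0
  have hsT2 : Real.sqrt T * Real.sqrt T = T := Real.mul_self_sqrt hT0.le
  have e : Real.sqrt T * (C1 * C4 / T * Real.pi) = C1 * C4 * Real.pi / Real.sqrt T := by
    rw [eq_div_iff hsT.ne']
    have : Real.sqrt T * (C1 * C4 / T * Real.pi) * Real.sqrt T = C1 * C4 * Real.pi * (Real.sqrt T * Real.sqrt T) / T := by ring
    rw [this, hsT2]
    field_simp
  rw [e]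
  refine div_le_div_of_nonneg_right ?_ hsT.le
  have : 0 ≤ C4 * Real.pi := by positivity
  nlinarith

end Pool.Agent.Helper69.FF
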