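import Pool.Agent.Helper69.FF.KDefs
import Pool.Agent.Helper69.FF.KSup
import Pool.Agent.Helper69.FF.GAU
import Pool.Agent.Helper69.FF.DivS

/-!
# FF-KCh: from additive characters to primitive multiplicative characters

Block KA of the README. Write `RA e T` as pairs `r ∈ RS e T`, `m ∈ SA e T r` (for `m > r` the weight `FW` vanishes, FF.KSup). For each `r`:
`∑_{m, n} Λ(n) FW e(-mn/r) - mf r ∑_{m, (n,r)=1} Λ(n) FW = ∑_{m, (n,r)=1} Λ(n) FW (e(-mn/r) - mf r) + ∑_{m, (n,r)>1} Λ(n) FW e(-mn/r)`.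
First sum: `gau` with index `(m, n)`, then put the terms with `(n, r) > 1` back into the character sums. All terms with `(n, r) > 1`: `Λ(n) ≠ 0` only for `n = p^j`, `p ∣ r`, so
`∑_{n ≤ T², (n,r)>1} Λ(n) ≤ ∑_{p ∣ r} log p · (2 L/log p) ≤ 2 L ω(r) ≤ 6 L²`. Together they contribute
`≤ ∑_r (φ(r)⁻¹ + φ(r)⁻² ∑_{q ∣ r} √q |PR q|) · r · C L² ≤ C L² ∑_r (r/φ(r))^2 √r ≤ C T^(7/8)` since `|PR q| ≤ φ(q)`, `∑_{q ∣ r} φ(q) = r`, `r/φ(r) ≤ τ(r) ≤ C r^ε` (FF.DivS), `r ≤ T^(1/2)`.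
(`|SA e T r|`: only `m < r` matter, FF.KSup.)
-/

open MeasureTheory Set Filter Topology
open Pool.Agent.Helper57.Zeta Pool.Agent.Helper57.PC Pool.Agent.Helper57.LH Pool.Agent.Helper78.SG
open Pool.Agent.Helper4.SH (om)
open scoped ContDiff

namespace Pool.Agent.Helper69.FF

private lemma kc_lam_prime {p N : ℕ} (hp : p.Prime) (hN : 1 ≤ N) :
    ∑ n ∈ (Finset.Icc 1 N).filter (fun n => p ∣ n), ArithmeticFunction.vonMangoldt n ≤ Real.log N := by
  classical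
  have hN0 : (0 : ℝ) < N := by exact_mod_cast hN
  have hlp : 0 < Real.log p := Real.log_pos (by exact_mod_cast hp.one_lt)
  have h1 : ∑ n ∈ (Finset.Icc 1 N).filter (fun n => p ∣ n), ArithmeticFunction.vonMangoldt n ≤
      ∑ n ∈ (Finset.Icc 1 (Nat.log p N)).image (fun j => p ^ j), ArithmeticFunction.vonMangoldt n := by
    have h2 : ∑ n ∈ (Finset.Icc 1 N).filter (fun n => p ∣ n), ArithmeticFunction.vonMangoldt n =
        ∑ n ∈ ((Finset.Icc 1 N).filter (fun n => p ∣ n)).filter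
          (fun n => ArithmeticFunction.vonMangoldt n ≠ 0), ArithmeticFunction.vonMangoldt n := by
      rw [Finset.sum_filter_ne_zero]
    rw [h2]
    refine Finset.sum_le_sum_of_subset_of_nonneg ?_ fun n _ _ => ArithmeticFunction.vonMangoldt_nonneg
    intro n hn
    rw [Finset.mem_filter, Finset.mem_filter, Finset.mem_Icc] at hn
    obtain ⟨⟨⟨hn1, hn2⟩, hpn⟩, hL⟩ := hn
    rw [ArithmeticFunction.vonMangoldt_ne_zero_iff] at hL
    obtain ⟨q, k, hq, hk, rfl⟩ := hL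
    have hq' : q.Prime := hq.nat_prime
    have hpq : p = q := (Nat.prime_dvd_prime_iff_eq hp hq').1 (hp.dvd_of_dvd_pow hpn)
    rw [Finset.mem_image]
    refine ⟨k, ?_, by rw [hpq]⟩
    rw [Finset.mem_Icc]
    refine ⟨hk, ?_⟩
    rw [hpq]
    exact Nat.le_log_of_pow_le hq'.one_lt hn2
  refine h1.trans ?_
  rw [Finset.sum_image fun i _ j _ h => Nat.pow_right_injective hp.two_le h]
  have h3 : ∀ j ∈ Finset.Icc 1 (Nat.log p N), ArithmeticFunction.vonMangoldt (p ^ j) = Real.log p := by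
    intro j hj
    rw [Finset.mem_Icc] at hj
    rw [ArithmeticFunction.vonMangoldt_apply_pow (by omega), ArithmeticFunction.vonMangoldt_apply_prime hp]
  rw [Finset.sum_congr rfl h3, Finset.sum_const, Nat.card_Icc, nsmul_eq_mul, Nat.add_sub_cancel,
    ← Real.log_pow]
  refine Real.log_le_log (by exact_mod_cast pow_pos hp.pos _) ?_
  exact_mod_cast Nat.pow_log_le_self p (by omega)

private lemma kc_lam {r N : ℕ} (hr : r ≠ 0) (hN : 1 ≤ N) :
    ∑ n ∈ (Finset.Icc 1 N).filter (fun n => ¬ Nat.Coprime n r), ArithmeticFunction.vonMangoldt n ≤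
      r.divisors.card * Real.log N := by
  classical
  have hlN : 0 ≤ Real.log N := Real.log_nonneg (by exact_mod_cast hN)
  have h1 : ∑ n ∈ (Finset.Icc 1 N).filter (fun n => ¬ Nat.Coprime n r), ArithmeticFunction.vonMangoldt n ≤
      ∑ n ∈ Finset.Icc 1 N, ∑ p ∈ r.primeFactors, if p ∣ n then ArithmeticFunction.vonMangoldt n else 0 := by
    rw [Finset.sum_filter]
    refine Finset.sum_le_sum fun n _ => ?_
    have hnn : ∀ p ∈ r.primeFactors, (0 : ℝ) ≤ if p ∣ n then ArithmeticFunction.vonMangoldt n else 0 := by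
      intro p _
      split_ifs
      · exact ArithmeticFunction.vonMangoldt_nonneg
      · exact le_rfl
    by_cases h : ¬ Nat.Coprime n r
    · rw [if_pos h]
      rw [Nat.Prime.not_coprime_iff_dvd] at h
      obtain ⟨p, hp, h2, h3⟩ := h
      have h4 := Finset.single_le_sum hnn (Nat.mem_primeFactors.2 ⟨hp, h3, hr⟩)
      rw [if_pos h2] at h4
      exact h4
    · rw [if_neg h]
      exact Finset.sum_nonneg hnn
  refine h1.trans ?_
  rw [Finset.sum_comm]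
  have h2 : ∑ p ∈ r.primeFactors, ∑ n ∈ Finset.Icc 1 N, (if p ∣ n then ArithmeticFunction.vonMangoldt n else 0) ≤
      ∑ p ∈ r.primeFactors, Real.log N := by
    refine Finset.sum_le_sum fun p hp => ?_
    rw [← Finset.sum_filter]
    exact kc_lam_prime (Nat.prime_of_mem_primeFactors hp) hN
  refine h2.trans ?_
  rw [Finset.sum_const, nsmul_eq_mul]
  refine mul_le_mul_of_nonneg_right ?_ hlN
  have h3 : r.primeFactors ⊆ r.divisors := by
    intro p hp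
    rw [Nat.mem_divisors]
    exact ⟨Nat.dvd_of_mem_primeFactors hp, hr⟩
  exact_mod_cast Finset.card_le_card h3

private lemma kc_ra (e T : ℝ) (f : ℕ × ℕ → ℂ)
    (hf : ∀ r ∈ RS e T, ∀ a ∈ SA e T r, r < a → f (r, a) = 0) :
    ∑ x ∈ RA e T, f x = ∑ r ∈ RS e T, ∑ a ∈ SA e T r, f (r, a) := by
  classical
  unfold RA RS SA
  unfold RS SA at hf
  rw [Finset.sum_filter, Finset.sum_product, Finset.sum_filter]
  refine Finset.sum_congr rfl fun r hr => ?_
  by_cases h : Squarefree r ∧ (r : ℝ) ≤ T ^ (1 / 2 - e)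
  · rw [if_pos h, Finset.sum_filter]
    refine Finset.sum_congr rfl fun a ha => ?_
    by_cases h1 : T ^ e < (a : ℝ) ∧ Nat.Coprime a r
    · rw [if_pos h1]
      by_cases h2 : a ≤ r
      · rw [if_pos ⟨h.1, h.2, h1.1, h2, h1.2⟩]
      · rw [if_neg (fun h3 => h2 h3.2.2.2.1)]
        symm
        exact hf r (Finset.mem_filter.2 ⟨hr, h⟩) a (Finset.mem_filter.2 ⟨ha, h1⟩) (by omega)
    · rw [if_neg h1, if_neg (fun h3 => h1 ⟨h3.2.2.1, h3.2.2.2.2⟩)]
  · rw [if_neg h]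
    refine Finset.sum_eq_zero fun a _ => ?_
    rw [if_neg (fun h3 => h ⟨h3.1, h3.2.1⟩)]

private lemma kc_pr_card {q : ℕ} (hq : q ≠ 0) : (PR q).card ≤ Nat.totient q := by
  classical
  have : NeZero q := ⟨hq⟩
  unfold PR
  refine (Finset.card_filter_le _ _).trans (le_of_eq ?_)
  rw [Finset.card_univ, ← Nat.card_eq_fintype_card, DirichletCharacter.card_eq_totient_of_hasEnoughRootsOfUnity]

/-- the sum of the non coprime terms -/
private noncomputable def kcE (g : TF) (w v : ℝ → ℝ) (e T : ℝ) (r : ℕ) : ℝ :=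
  ∑ a ∈ SA e T r, ∑ n ∈ (Finset.Icc 1 ⌊T ^ 2⌋₊).filter (fun n => ¬ Nat.Coprime n r),
    ArithmeticFunction.vonMangoldt n * |FW g w v T (r, a) n|

private lemma kcE_nonneg (g : TF) (w v : ℝ → ℝ) (e T : ℝ) (r : ℕ) : 0 ≤ kcE g w v e T r := by
  unfold kcE
  exact Finset.sum_nonneg fun a _ => Finset.sum_nonneg fun n _ =>
    mul_nonneg ArithmeticFunction.vonMangoldt_nonneg (abs_nonneg _)

private lemma kcE_le (g : TF) {w v : ℝ → ℝ} {CF : ℝ} (hCF : 0 < CF)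
    (hF : ∀ (T : ℝ) (x : ℕ × ℕ) (n : ℕ), |FW g w v T x n| ≤ CF) {T : ℝ} (hT : 1 < T)
    (hs : ∀ r m n : ℕ, 1 ≤ r → 1 ≤ m → FW g w v T (r, m) n ≠ 0 → m < r) (e : ℝ) {r : ℕ} (hr : r ≠ 0) :
    kcE g w v e T r ≤ r * (CF * (r.divisors.card * (2 * Real.log T))) := by
  classical
  have hL : 0 < Real.log T := Real.log_pos hT
  have hT2 : (1 : ℝ) ≤ T ^ 2 := one_le_pow₀ hT.le
  have hN : 1 ≤ ⌊T ^ 2⌋₊ := by
    rw [Nat.one_le_floor_iff]
    exact hT2
  have hlog : Real.log (⌊T ^ 2⌋₊ : ℕ) ≤ 2 * Real.log T := by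
    have h1 : Real.log (⌊T ^ 2⌋₊ : ℕ) ≤ Real.log (T ^ 2) :=
      Real.log_le_log (by exact_mod_cast hN) (Nat.floor_le (by positivity))
    rw [Real.log_pow] at h1
    exact_mod_cast h1
  have h1 : ∀ a ∈ SA e T r, ∑ n ∈ (Finset.Icc 1 ⌊T ^ 2⌋₊).filter (fun n => ¬ Nat.Coprime n r),
      ArithmeticFunction.vonMangoldt n * |FW g w v T (r, a) n| ≤
      if a ∈ Finset.Ico 1 r then CF * (r.divisors.card * (2 * Real.log T)) else 0 := by
    intro a ha
    unfold SA at ha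
    rw [Finset.mem_filter, Finset.mem_Icc] at ha
    split_ifs with h
    · calc ∑ n ∈ (Finset.Icc 1 ⌊T ^ 2⌋₊).filter (fun n => ¬ Nat.Coprime n r),
            ArithmeticFunction.vonMangoldt n * |FW g w v T (r, a) n| ≤
            ∑ n ∈ (Finset.Icc 1 ⌊T ^ 2⌋₊).filter (fun n => ¬ Nat.Coprime n r),
              ArithmeticFunction.vonMangoldt n * CF :=
            Finset.sum_le_sum fun n _ => mul_le_mul_of_nonneg_left (hF T (r, a) n)
              ArithmeticFunction.vonMangoldt_nonneg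
        _ = CF * ∑ n ∈ (Finset.Icc 1 ⌊T ^ 2⌋₊).filter (fun n => ¬ Nat.Coprime n r),
              ArithmeticFunction.vonMangoldt n := by
            rw [← Finset.sum_mul, mul_comm]
        _ ≤ CF * (r.divisors.card * (2 * Real.log T)) := by
            refine mul_le_mul_of_nonneg_left ((kc_lam hr hN).trans ?_) hCF.le
            exact mul_le_mul_of_nonneg_left hlog (by positivity)
    · refine le_of_eq (Finset.sum_eq_zero fun n _ => ?_)
      have h2 : FW g w v T (r, a) n = 0 := by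
        by_contra h3
        have := hs r a n (by omega) ha.1.1 h3
        exact h (Finset.mem_Ico.2 ⟨ha.1.1, this⟩)
      rw [h2, abs_zero, mul_zero]
  unfold kcE
  refine (Finset.sum_le_sum h1).trans ?_
  rw [← Finset.sum_filter, Finset.sum_const, nsmul_eq_mul]
  refine mul_le_mul_of_nonneg_right ?_ (by positivity)
  have h2 : ((SA e T r).filter fun a => a ∈ Finset.Ico 1 r) ⊆ Finset.Ico 1 r := by
    intro a ha
    exact (Finset.mem_filter.1 ha).2
  have h3 := Finset.card_le_card h2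
  rw [Nat.card_Ico] at h3
  exact_mod_cast h3.trans (Nat.sub_le r 1)

/-- the main step for one modulus -/
private lemma kc_one (g : TF) (w v : ℝ → ℝ) (e T : ℝ) {r : ℕ} (hr : Squarefree r) (hrT : (r : ℝ) ≤ T) :
    ‖((mf r : ℝ) : ℂ) * (∑ a ∈ SA e T r, ∑ n ∈ Finset.Icc 1 ⌊T ^ 2⌋₊,
        ((ArithmeticFunction.vonMangoldt n * FW g w v T (r, a) n : ℝ) : ℂ) * ee (-((a : ℝ) * n / r))) -
      ((mf r ^ 2 * ∑ a ∈ SA e T r, ∑ n ∈ (Finset.Icc 1 ⌊T ^ 2⌋₊).filter (fun n => Nat.Coprime n r),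
        ArithmeticFunction.vonMangoldt n * FW g w v T (r, a) n : ℝ) : ℂ)‖ ≤
    (1 / (Nat.totient r : ℝ) ^ 2) * (∑ q ∈ r.divisors.filter (fun q : ℕ => (1 : ℝ) < (q : ℝ) ∧ (q : ℝ) ≤ T),
      Real.sqrt q * ∑ χ ∈ PR q, ‖SI g w v e T r χ LL‖) +
    ((1 / (Nat.totient r : ℝ) ^ 2) * (r * Real.sqrt r) + 1 / (Nat.totient r : ℝ)) * kcE g w v e T r := by
  classical
  have hr0 : r ≠ 0 := hr.ne_zero
  have hφ : (0 : ℝ) < Nat.totient r := by exact_mod_cast Nat.totient_pos.2 (Nat.pos_of_ne_zero hr0)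
  have hr1 : (0 : ℝ) < r := by exact_mod_cast Nat.pos_of_ne_zero hr0
  set X : Finset (ℕ × ℕ) := SA e T r ×ˢ Finset.Icc 1 ⌊T ^ 2⌋₊ with hX
  set S : Finset (ℕ × ℕ) := X.filter (fun i => Nat.Coprime i.2 r) with hS
  set S' : Finset (ℕ × ℕ) := X.filter (fun i => ¬ Nat.Coprime i.2 r) with hS'
  set c : ℕ × ℕ → ℂ := fun i => ((ArithmeticFunction.vonMangoldt i.2 * FW g w v T (r, i.1) i.2 : ℝ) : ℂ) with hc
  have hmf : ‖((mf r : ℝ) : ℂ)‖ ≤ 1 / (Nat.totient r : ℝ) := by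
    rw [Complex.norm_real, Real.norm_eq_abs]
    unfold mf
    rw [abs_div, abs_of_pos hφ]
    refine div_le_div_of_nonneg_right ?_ hφ.le
    have : |ArithmeticFunction.moebius r| ≤ 1 := ArithmeticFunction.abs_moebius_le_one
    exact_mod_cast this
  have hE : ∑ i ∈ S', ‖c i‖ = kcE g w v e T r := by
    rw [hS', hX, Finset.sum_filter, Finset.sum_product]
    unfold kcE
    refine Finset.sum_congr rfl fun a _ => ?_
    rw [Finset.sum_filter]
    refine Finset.sum_congr rfl fun n _ => ?_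
    simp only [hc]
    split_ifs
    · rfl
    · rw [Complex.norm_real, Real.norm_eq_abs, abs_mul, abs_of_nonneg ArithmeticFunction.vonMangoldt_nonneg]
  have hsplit : ∀ F : ℕ × ℕ → ℂ, ∑ i ∈ X, F i = ∑ i ∈ S, F i + ∑ i ∈ S', F i := fun F =>
    (Finset.sum_filter_add_sum_filter_not X (fun i => Nat.Coprime i.2 r) F).symm
  have e1 : ∑ a ∈ SA e T r, ∑ n ∈ Finset.Icc 1 ⌊T ^ 2⌋₊,
        ((ArithmeticFunction.vonMangoldt n * FW g w v T (r, a) n : ℝ) : ℂ) * ee (-((a : ℝ) * n / r)) =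
      ∑ i ∈ X, c i * ee (-(((i.1 * i.2 : ℕ) : ℝ) / r)) := by
    rw [hX, Finset.sum_product]
    refine Finset.sum_congr rfl fun a _ => Finset.sum_congr rfl fun n _ => ?_
    simp only [hc]
    push_cast
    rfl
  have e2 : ((mf r ^ 2 * ∑ a ∈ SA e T r, ∑ n ∈ (Finset.Icc 1 ⌊T ^ 2⌋₊).filter (fun n => Nat.Coprime n r),
        ArithmeticFunction.vonMangoldt n * FW g w v T (r, a) n : ℝ) : ℂ) =
      ((mf r : ℝ) : ℂ) * ∑ i ∈ S, c i * ((mf r : ℝ) : ℂ) := by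
    have e3 : ((∑ a ∈ SA e T r, ∑ n ∈ (Finset.Icc 1 ⌊T ^ 2⌋₊).filter (fun n => Nat.Coprime n r),
        ArithmeticFunction.vonMangoldt n * FW g w v T (r, a) n : ℝ) : ℂ) = ∑ i ∈ S, c i := by
      rw [hS, hX, Finset.sum_filter, Finset.sum_product, Complex.ofReal_sum]
      refine Finset.sum_congr rfl fun a _ => ?_
      rw [Finset.sum_filter, Complex.ofReal_sum]
      refine Finset.sum_congr rfl fun n _ => ?_
      simp only [hc]
      split_ifs
      · rfl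
      · exact Complex.ofReal_zero
    rw [Complex.ofReal_mul, e3, Complex.ofReal_pow, ← Finset.sum_mul]
    ring
  have e4 : ((mf r : ℝ) : ℂ) * (∑ i ∈ X, c i * ee (-(((i.1 * i.2 : ℕ) : ℝ) / r))) -
      ((mf r : ℝ) : ℂ) * ∑ i ∈ S, c i * ((mf r : ℝ) : ℂ) =
      ((mf r : ℝ) : ℂ) * (∑ i ∈ S, c i * (ee (-(((i.1 * i.2 : ℕ) : ℝ) / r)) - ((mf r : ℝ) : ℂ)) +
        ∑ i ∈ S', c i * ee (-(((i.1 * i.2 : ℕ) : ℝ) / r))) := by
    rw [hsplit]
    have : ∑ i ∈ S, c i * (ee (-(((i.1 * i.2 : ℕ) : ℝ) / r)) - ((mf r : ℝ) : ℂ)) =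
        ∑ i ∈ S, c i * ee (-(((i.1 * i.2 : ℕ) : ℝ) / r)) - ∑ i ∈ S, c i * ((mf r : ℝ) : ℂ) := by
      rw [← Finset.sum_sub_distrib]
      exact Finset.sum_congr rfl fun i _ => by ring
    rw [this]
    ring
  rw [e1, e2, e4, norm_mul]
  have hee : ∀ x : ℝ, ‖ee x‖ = 1 := by
    intro x
    unfold ee
    exact Complex.norm_exp_ofReal_mul_I _
  have h2 : ‖∑ i ∈ S', c i * ee (-(((i.1 * i.2 : ℕ) : ℝ) / r))‖ ≤ kcE g w v e T r := by
    rw [← hE]
    refine (norm_sum_le _ _).trans (Finset.sum_le_sum fun i _ => ?_)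
    rw [norm_mul, hee, mul_one]
  have hcop : ∀ i ∈ S, Nat.Coprime (i.1 * i.2) r := by
    intro i hi
    rw [hS, Finset.mem_filter, hX, Finset.mem_product] at hi
    have h3 := hi.1.1
    unfold SA at h3
    rw [Finset.mem_filter] at h3
    exact Nat.Coprime.mul_left h3.2.2 hi.2
  have h3 := gau hr hr0 S c (fun i => i.1 * i.2) hcop
  have hfil : r.divisors.filter (fun q : ℕ => (1 : ℝ) < (q : ℝ) ∧ (q : ℝ) ≤ T) =
      r.divisors.filter (fun q : ℕ => (1 : ℝ) < (q : ℝ)) := by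
    refine Finset.filter_congr fun q hq => ?_
    have h4 : (q : ℝ) ≤ T := by
      have : q ≤ r := Nat.divisor_le hq
      have h5 : (q : ℝ) ≤ r := by exact_mod_cast this
      linarith
    exact ⟨fun h => h.1, fun h => ⟨h, h4⟩⟩
  have h4 : ∀ q ∈ r.divisors, ∀ χ ∈ PR q, ‖∑ i ∈ S, c i * χ (((i.1 * i.2 : ℕ) : ZMod q))‖ ≤
      ‖SI g w v e T r χ LL‖ + kcE g w v e T r := by
    intro q hq χ _
    have h5 : SI g w v e T r χ LL = ∑ i ∈ X, c i * χ (((i.1 * i.2 : ℕ) : ZMod q)) := by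
      unfold SI
      rw [hX, Finset.sum_product]
      refine Finset.sum_congr rfl fun a _ => Finset.sum_congr rfl fun n _ => ?_
      simp only [hc, LL]
      push_cast
      rw [map_mul]
      ring
    have h6 : ∑ i ∈ S, c i * χ (((i.1 * i.2 : ℕ) : ZMod q)) =
        SI g w v e T r χ LL - ∑ i ∈ S', c i * χ (((i.1 * i.2 : ℕ) : ZMod q)) := by
      rw [h5, hsplit]
      ring
    rw [h6]
    refine (norm_sub_le _ _).trans (add_le_add le_rfl ?_)
    rw [← hE]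
    refine (norm_sum_le _ _).trans (Finset.sum_le_sum fun i _ => ?_)
    rw [norm_mul]
    exact mul_le_of_le_one_right (norm_nonneg _) (χ.norm_le_one _)
  have hEn := kcE_nonneg g w v e T r
  have h5 : ∑ q ∈ r.divisors.filter (fun q : ℕ => (1 : ℝ) < (q : ℝ)),
        Real.sqrt q * ∑ χ ∈ PR q, ‖∑ i ∈ S, c i * χ (((i.1 * i.2 : ℕ) : ZMod q))‖ ≤
      (∑ q ∈ r.divisors.filter (fun q : ℕ => (1 : ℝ) < (q : ℝ)),
        Real.sqrt q * ∑ χ ∈ PR q, ‖SI g w v e T r χ LL‖) + (r * Real.sqrt r) * kcE g w v e T r := by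
    have h6 : ∑ q ∈ r.divisors.filter (fun q : ℕ => (1 : ℝ) < (q : ℝ)),
        Real.sqrt q * ∑ χ ∈ PR q, ‖∑ i ∈ S, c i * χ (((i.1 * i.2 : ℕ) : ZMod q))‖ ≤
        ∑ q ∈ r.divisors.filter (fun q : ℕ => (1 : ℝ) < (q : ℝ)),
        (Real.sqrt q * ∑ χ ∈ PR q, ‖SI g w v e T r χ LL‖ + (Real.sqrt r * Nat.totient q) * kcE g w v e T r) := by
      refine Finset.sum_le_sum fun q hq => ?_
      have hqd := (Finset.mem_filter.1 hq).1
      have hq0 : q ≠ 0 := by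
        rintro rfl
        simp at hqd
      have hqr : Real.sqrt q ≤ Real.sqrt r := Real.sqrt_le_sqrt (by exact_mod_cast Nat.divisor_le hqd)
      have h7 : ∑ χ ∈ PR q, ‖∑ i ∈ S, c i * χ (((i.1 * i.2 : ℕ) : ZMod q))‖ ≤
          (∑ χ ∈ PR q, ‖SI g w v e T r χ LL‖) + Nat.totient q * kcE g w v e T r := by
        refine (Finset.sum_le_sum (h4 q hqd)).trans ?_
        rw [Finset.sum_add_distrib, Finset.sum_const, nsmul_eq_mul]
        refine add_le_add le_rfl (mul_le_mul_of_nonneg_right ?_ hEn)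
        exact_mod_cast kc_pr_card hq0
      calc Real.sqrt q * ∑ χ ∈ PR q, ‖∑ i ∈ S, c i * χ (((i.1 * i.2 : ℕ) : ZMod q))‖ ≤
            Real.sqrt q * ((∑ χ ∈ PR q, ‖SI g w v e T r χ LL‖) + Nat.totient q * kcE g w v e T r) :=
            mul_le_mul_of_nonneg_left h7 (Real.sqrt_nonneg _)
        _ = Real.sqrt q * (∑ χ ∈ PR q, ‖SI g w v e T r χ LL‖) + Real.sqrt q * (Nat.totient q * kcE g w v e T r) := by
            ring
        _ ≤ Real.sqrt q * (∑ χ ∈ PR q, ‖SI g w v e T r χ LL‖) + Real.sqrt r * (Nat.totient q * kcE g w v e T r) := by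
            refine add_le_add le_rfl (mul_le_mul_of_nonneg_right hqr ?_)
            positivity
        _ = _ := by ring
    refine h6.trans ?_
    rw [Finset.sum_add_distrib]
    refine add_le_add le_rfl ?_
    rw [← Finset.sum_mul]
    refine mul_le_mul_of_nonneg_right ?_ hEn
    rw [← Finset.mul_sum, mul_comm]
    refine mul_le_mul_of_nonneg_right ?_ (Real.sqrt_nonneg _)
    have h8 : ∑ q ∈ r.divisors.filter (fun q : ℕ => (1 : ℝ) < (q : ℝ)), (Nat.totient q : ℝ) ≤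
        ∑ q ∈ r.divisors, (Nat.totient q : ℝ) :=
      Finset.sum_le_sum_of_subset_of_nonneg (Finset.filter_subset _ _) fun q _ _ => by positivity
    refine h8.trans (le_of_eq ?_)
    have := Nat.sum_totient r
    exact_mod_cast this
  rw [hfil]
  have hP : (0 : ℝ) ≤ ∑ q ∈ r.divisors.filter (fun q : ℕ => (1 : ℝ) < (q : ℝ)),
        Real.sqrt q * ∑ χ ∈ PR q, ‖SI g w v e T r χ LL‖ :=
    Finset.sum_nonneg fun q _ => mul_nonneg (Real.sqrt_nonneg _) (Finset.sum_nonneg fun _ _ => norm_nonneg _)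
  have h9 : ‖∑ i ∈ S, c i * (ee (-(((i.1 * i.2 : ℕ) : ℝ) / r)) - ((mf r : ℝ) : ℂ)) +
        ∑ i ∈ S', c i * ee (-(((i.1 * i.2 : ℕ) : ℝ) / r))‖ ≤
      (1 / (Nat.totient r : ℝ)) * ((∑ q ∈ r.divisors.filter (fun q : ℕ => (1 : ℝ) < (q : ℝ)),
        Real.sqrt q * ∑ χ ∈ PR q, ‖SI g w v e T r χ LL‖) + (r * Real.sqrt r) * kcE g w v e T r) +
        kcE g w v e T r := by
    refine (norm_add_le _ _).trans (add_le_add (h3.trans ?_) h2)
    exact mul_le_mul_of_nonneg_left h5 (by positivity)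
  have h10 : (0 : ℝ) ≤ 1 / (Nat.totient r : ℝ) := by positivity
  calc ‖((mf r : ℝ) : ℂ)‖ * ‖∑ i ∈ S, c i * (ee (-(((i.1 * i.2 : ℕ) : ℝ) / r)) - ((mf r : ℝ) : ℂ)) +
        ∑ i ∈ S', c i * ee (-(((i.1 * i.2 : ℕ) : ℝ) / r))‖ ≤
      (1 / (Nat.totient r : ℝ)) * ((1 / (Nat.totient r : ℝ)) *
        ((∑ q ∈ r.divisors.filter (fun q : ℕ => (1 : ℝ) < (q : ℝ)),
        Real.sqrt q * ∑ χ ∈ PR q, ‖SI g w v e T r χ LL‖) + (r * Real.sqrt r) * kcE g w v e T r) +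
        kcE g w v e T r) := mul_le_mul hmf h9 (norm_nonneg _) h10
    _ = _ := by
      field_simp
      ring

theorem kch (g : TF) {w v : ℝ → ℝ} {a b a' b' e : ℝ} (hw : WR w a b) (hb : b < 3 / 2)
    (hv : WR v a' b') (ha' : 1 < a') (hb' : b' < 3 / 2) (he : 0 < e) (he1 : e < 1 / 4) :
    ∃ C : ℝ, 0 < C ∧ ∀ᶠ T : ℝ in atTop, ‖SS g w v e T - ((SM g w v e T : ℝ) : ℂ)‖ ≤
      WW g w v e T LL 1 T + C * T ^ (7 / 8 : ℝ) := by
  classical
  obtain ⟨CF, hCF, hF⟩ := fw_bound g hw hv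
  obtain ⟨c0, _, hsupp⟩ := fw_supp g hw hb hv ha'
  obtain ⟨D, hD, hdiv⟩ := div_bound (ε := 1 / 50) (by norm_num)
  have hlogev : ∀ᶠ T : ℝ in atTop, Real.log T ≤ T ^ (1 / 50 : ℝ) := by
    have h1 := (isLittleO_log_rpow_atTop (r := 1 / 50) (by norm_num)).bound (c := 1) (by norm_num)
    filter_upwards [h1, eventually_ge_atTop (1 : ℝ)] with T h2 hT
    rw [one_mul, Real.norm_eq_abs, Real.norm_eq_abs, abs_of_nonneg (Real.log_nonneg hT),
      abs_of_nonneg (by positivity)] at h2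
    exact h2
  refine ⟨4 * CF * D ^ 3, by positivity, ?_⟩
  filter_upwards [hlogev, eventually_gt_atTop (1 : ℝ)] with T hlog hT
  have hT0 : 0 < T := by linarith
  have hL : 0 < Real.log T := Real.log_pos hT
  have hs := fun r m n hr hm h => (hsupp T hT r m n hr hm h).1
  have hRS : ∀ r ∈ RS e T, Squarefree r ∧ r ≠ 0 ∧ (r : ℝ) ≤ T ^ (1 / 2 : ℝ) ∧ (r : ℝ) ≤ T := by
    intro r hr
    unfold RS at hr
    rw [Finset.mem_filter, Finset.mem_Icc] at hr
    have h1 : (r : ℝ) ≤ T ^ (1 / 2 : ℝ) :=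
      hr.2.2.trans (Real.rpow_le_rpow_of_exponent_le hT.le (by linarith))
    have h2 : T ^ (1 / 2 : ℝ) ≤ T ^ (1 : ℝ) := Real.rpow_le_rpow_of_exponent_le hT.le (by norm_num)
    rw [Real.rpow_one] at h2
    exact ⟨hr.2.1, by omega, h1, h1.trans h2⟩
  have hz : ∀ r ∈ RS e T, ∀ a ∈ SA e T r, r < a → ∀ n, FW g w v T (r, a) n = 0 := by
    intro r hr a ha hra n
    by_contra h
    unfold SA at ha
    rw [Finset.mem_filter, Finset.mem_Icc] at ha
    have := hs r a n (Nat.pos_of_ne_zero (hRS r hr).2.1) ha.1.1 h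
    omega
  have hSS : SS g w v e T = ∑ r ∈ RS e T, ((mf r : ℝ) : ℂ) * (∑ a ∈ SA e T r, ∑ n ∈ Finset.Icc 1 ⌊T ^ 2⌋₊,
        ((ArithmeticFunction.vonMangoldt n * FW g w v T (r, a) n : ℝ) : ℂ) * ee (-((a : ℝ) * n / r))) := by
    unfold SS
    rw [kc_ra e T (fun x => ((mf x.1 : ℝ) : ℂ) * ∑ n ∈ Finset.Icc 1 ⌊T ^ 2⌋₊,
      ((ArithmeticFunction.vonMangoldt n * FW g w v T x n : ℝ) : ℂ) * ee (-((x.2 : ℝ) * n / x.1)))]
    · exact Finset.sum_congr rfl fun r _ => by rw [Finset.mul_sum]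
    · intro r hr a ha hra
      simp only [hz r hr a ha hra, mul_zero, Complex.ofReal_zero, zero_mul, Finset.sum_const_zero]
  have hSM : ((SM g w v e T : ℝ) : ℂ) = ∑ r ∈ RS e T, ((mf r ^ 2 * ∑ a ∈ SA e T r,
      ∑ n ∈ (Finset.Icc 1 ⌊T ^ 2⌋₊).filter (fun n => Nat.Coprime n r),
        ArithmeticFunction.vonMangoldt n * FW g w v T (r, a) n : ℝ) : ℂ) := by
    unfold SM
    rw [Complex.ofReal_sum, kc_ra e T (fun x => ((mf x.1 ^ 2 *
      ∑ n ∈ (Finset.Icc 1 ⌊T ^ 2⌋₊).filter (fun n => Nat.Coprime n x.1),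
        ArithmeticFunction.vonMangoldt n * FW g w v T x n : ℝ) : ℂ))]
    · refine Finset.sum_congr rfl fun r _ => ?_
      rw [Finset.mul_sum, Complex.ofReal_sum]
    · intro r hr a ha hra
      simp only [hz r hr a ha hra, mul_zero, Complex.ofReal_zero, Finset.sum_const_zero]
  rw [hSS, hSM, ← Finset.sum_sub_distrib]
  refine (norm_sum_le _ _).trans ?_
  have hstep : ∀ r ∈ RS e T, ‖((mf r : ℝ) : ℂ) * (∑ a ∈ SA e T r, ∑ n ∈ Finset.Icc 1 ⌊T ^ 2⌋₊,
        ((ArithmeticFunction.vonMangoldt n * FW g w v T (r, a) n : ℝ) : ℂ) * ee (-((a : ℝ) * n / r))) -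
      ((mf r ^ 2 * ∑ a ∈ SA e T r, ∑ n ∈ (Finset.Icc 1 ⌊T ^ 2⌋₊).filter (fun n => Nat.Coprime n r),
        ArithmeticFunction.vonMangoldt n * FW g w v T (r, a) n : ℝ) : ℂ)‖ ≤
      (1 / (Nat.totient r : ℝ) ^ 2) * (∑ q ∈ r.divisors.filter (fun q : ℕ => (1 : ℝ) < (q : ℝ) ∧ (q : ℝ) ≤ T),
      Real.sqrt q * ∑ χ ∈ PR q, ‖SI g w v e T r χ LL‖) + 4 * CF * D ^ 3 * T ^ (3 / 10 : ℝ) := by
    intro r hr
    obtain ⟨hsq, hr0, hr1, hr2⟩ := hRS r hr
    refine (kc_one g w v e T hsq hr2).trans (add_le_add le_rfl ?_)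
    have hE := kcE_le g hCF hF hT hs e hr0
    have hE0 := kcE_nonneg g w v e T r
    have hrp : (0 : ℝ) < r := by exact_mod_cast Nat.pos_of_ne_zero hr0
    have hr1' : (1 : ℝ) ≤ r := by exact_mod_cast Nat.pos_of_ne_zero hr0
    have hφ : (0 : ℝ) < Nat.totient r := by exact_mod_cast Nat.totient_pos.2 (Nat.pos_of_ne_zero hr0)
    set τ : ℝ := (r.divisors.card : ℝ) with hτ
    have hτ1 : 1 ≤ τ := by
      rw [hτ]
      exact_mod_cast Finset.card_pos.2 ⟨1, Nat.one_mem_divisors.2 hr0⟩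
    have hτφ : (r : ℝ) ≤ τ * Nat.totient r := tot_ge hsq
    have h1φ : 1 / (Nat.totient r : ℝ) ≤ τ / r := by
      rw [div_le_div_iff₀ hφ hrp]
      linarith
    have h1φ2 : 1 / (Nat.totient r : ℝ) ^ 2 ≤ τ ^ 2 / r ^ 2 := by
      have := pow_le_pow_left₀ (by positivity) h1φ 2
      rw [div_pow, div_pow, one_pow] at this
      exact this
    have hsr : 1 ≤ Real.sqrt r := by
      rw [Real.one_le_sqrt]
      exact hr1'
    have hfac : (1 / (Nat.totient r : ℝ) ^ 2) * (r * Real.sqrt r) + 1 / (Nat.totient r : ℝ) ≤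
        2 * (τ ^ 2 * Real.sqrt r / r) := by
      have h2 : (1 / (Nat.totient r : ℝ) ^ 2) * (r * Real.sqrt r) ≤ τ ^ 2 / r ^ 2 * (r * Real.sqrt r) :=
        mul_le_mul_of_nonneg_right h1φ2 (by positivity)
      have h3 : τ ^ 2 / (r : ℝ) ^ 2 * (r * Real.sqrt r) = τ ^ 2 * Real.sqrt r / r := by
        field_simp
      have h4 : τ / r ≤ τ ^ 2 * Real.sqrt r / r := by
        refine div_le_div_of_nonneg_right ?_ hrp.le
        nlinarith [mul_le_mul hτ1 hsr (by norm_num) (by positivity : (0 : ℝ) ≤ τ)]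
      linarith
    have hτb : τ ≤ D * T ^ (1 / 100 : ℝ) := by
      have h2 := hdiv r hr0
      have h3 : (r : ℝ) ^ (1 / 50 : ℝ) ≤ T ^ (1 / 100 : ℝ) := by
        have h4 := Real.rpow_le_rpow hrp.le hr1 (by norm_num : (0 : ℝ) ≤ 1 / 50)
        rw [← Real.rpow_mul hT0.le] at h4
        norm_num at h4 ⊢
        exact h4
      exact h2.trans (mul_le_mul_of_nonneg_left h3 hD.le)
    have hsrb : Real.sqrt r ≤ T ^ (1 / 4 : ℝ) := by
      rw [Real.sqrt_eq_rpow]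
      have h4 := Real.rpow_le_rpow hrp.le hr1 (by norm_num : (0 : ℝ) ≤ 1 / 2)
      rw [← Real.rpow_mul hT0.le] at h4
      norm_num at h4 ⊢
      exact h4
    calc ((1 / (Nat.totient r : ℝ) ^ 2) * (r * Real.sqrt r) + 1 / (Nat.totient r : ℝ)) * kcE g w v e T r ≤
          (2 * (τ ^ 2 * Real.sqrt r / r)) * (r * (CF * (τ * (2 * Real.log T)))) :=
          mul_le_mul hfac hE hE0 (by positivity)
      _ = 4 * CF * τ ^ 3 * (Real.sqrt r * Real.log T) := by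
          field_simp
          ring
      _ ≤ 4 * CF * (D * T ^ (1 / 100 : ℝ)) ^ 3 * (T ^ (1 / 4 : ℝ) * T ^ (1 / 50 : ℝ)) := by
          gcongr
      _ = 4 * CF * D ^ 3 * T ^ (3 / 10 : ℝ) := by
          have h5 : (T ^ (1 / 100 : ℝ)) ^ 3 = T ^ (3 / 100 : ℝ) := by
            rw [← Real.rpow_natCast, ← Real.rpow_mul hT0.le]
            norm_num
          have h6 : T ^ (3 / 100 : ℝ) * (T ^ (1 / 4 : ℝ) * T ^ (1 / 50 : ℝ)) = T ^ (3 / 10 : ℝ) := by
            rw [← Real.rpow_add hT0, ← Real.rpow_add hT0]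
            norm_num
          rw [mul_pow, h5, ← h6]
          ring
  refine (Finset.sum_le_sum hstep).trans ?_
  rw [Finset.sum_add_distrib, Finset.sum_const, nsmul_eq_mul]
  refine add_le_add (le_of_eq rfl) ?_
  have hcard : ((RS e T).card : ℝ) ≤ T ^ (1 / 2 : ℝ) := by
    have h1 : RS e T ⊆ Finset.Icc 1 ⌊T ^ (1 / 2 : ℝ)⌋₊ := by
      intro r hr
      obtain ⟨_, hr0, hr1, _⟩ := hRS r hr
      rw [Finset.mem_Icc]
      exact ⟨Nat.pos_of_ne_zero hr0, Nat.le_floor hr1⟩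
    have h2 := Finset.card_le_card h1
    rw [Nat.card_Icc, Nat.add_sub_cancel] at h2
    have h3 : ((RS e T).card : ℝ) ≤ (⌊T ^ (1 / 2 : ℝ)⌋₊ : ℝ) := by exact_mod_cast h2
    exact h3.trans (Nat.floor_le (by positivity))
  calc ((RS e T).card : ℝ) * (4 * CF * D ^ 3 * T ^ (3 / 10 : ℝ)) ≤
        T ^ (1 / 2 : ℝ) * (4 * CF * D ^ 3 * T ^ (3 / 10 : ℝ)) := mul_le_mul_of_nonneg_right hcard (by positivity)
    _ = 4 * CF * D ^ 3 * T ^ (4 / 5 : ℝ) := by
        have h5 : T ^ (1 / 2 : ℝ) * T ^ (3 / 10 : ℝ) = T ^ (4 / 5 : ℝ) := by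
          rw [← Real.rpow_add hT0]
          norm_num
        rw [← h5]
        ring
    _ ≤ 4 * CF * D ^ 3 * T ^ (7 / 8 : ℝ) :=
        mul_le_mul_of_nonneg_left (Real.rpow_le_rpow_of_exponent_le hT.le (by norm_num)) (by positivity)

end Pool.Agent.Helper69.FF
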