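import Pool.Agent.Helper69.FF.Defs
import Pool.Agent.Helper93.MLS

/-!
# FF part K: definitions for the key estimate

`RS`: squarefree moduli `r ≤ T^(1/2-e)`; `SA`: numerators; `PR q`: primitive characters mod `q`; `SI`: inner sum twisted by a character;
`WW`: weighted sum over moduli and conductors `Q1 < q ≤ Q2`; `cv α β`: Dirichlet convolution; `DB j = [2^j, 2^(j+1))`; `WB`: box sum; `XB`: box sum with separated variables.
-/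

open MeasureTheory Set Filter Topology
open Pool.Agent.Helper57.Zeta Pool.Agent.Helper57.PC Pool.Agent.Helper57.LH Pool.Agent.Helper78.SG
open Pool.Agent.Helper4.SH (om)
open scoped ContDiff

namespace Pool.Agent.Helper69.FF

open Classical in
/-- the primitive characters mod `q` -/
noncomputable def PR (q : ℕ) : Finset (DirichletCharacter ℂ q) := Finset.univ.filter (fun χ => χ.IsPrimitive)

/-- the moduli -/
noncomputable def RS (e T : ℝ) : Finset ℕ :=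
  (Finset.Icc 1 ⌊T⌋₊).filter (fun r => Squarefree r ∧ (r : ℝ) ≤ T ^ (1 / 2 - e))

/-- the numerators -/
noncomputable def SA (e T : ℝ) (r : ℕ) : Finset ℕ :=
  (Finset.Icc 1 ⌊T⌋₊).filter (fun a => T ^ e < (a : ℝ) ∧ Nat.Coprime a r)

/-- the von Mangoldt function as a complex valued function -/
noncomputable def LL (n : ℕ) : ℂ := ((ArithmeticFunction.vonMangoldt n : ℝ) : ℂ)

/-- the sum `∑_a ∑_n χ(a n) Φ(n) FW(r, a, n)` -/
noncomputable def SI (g : TF) (w v : ℝ → ℝ) (e T : ℝ) (r : ℕ) {q : ℕ} (χ : DirichletCharacter ℂ q) (Φ : ℕ → ℂ) : ℂ :=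
  ∑ a ∈ SA e T r, ∑ n ∈ Finset.Icc 1 ⌊T ^ 2⌋₊, χ a * χ n * Φ n * ((FW g w v T (r, a) n : ℝ) : ℂ)

/-- the weighted sum over the moduli `r` and the primitive characters of conductor `q ∣ r`, `Q1 < q ≤ Q2` -/
noncomputable def WW (g : TF) (w v : ℝ → ℝ) (e T : ℝ) (Φ : ℕ → ℂ) (Q1 Q2 : ℝ) : ℝ :=
  ∑ r ∈ RS e T, (1 / (Nat.totient r : ℝ) ^ 2) * ∑ q ∈ r.divisors.filter (fun q : ℕ => Q1 < (q : ℝ) ∧ (q : ℝ) ≤ Q2),
    Real.sqrt q * ∑ χ ∈ PR q, ‖SI g w v e T r χ Φ‖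

/-- Dirichlet convolution -/
noncomputable def cv (α β : ℕ → ℂ) (n : ℕ) : ℂ := ∑ x ∈ n.divisorsAntidiagonal, α x.1 * β x.2

open Classical in
/-- the sum `∑_a ∑_m ∑_k χ(a m k) α(m) β(k) FW(r, a, m k)` over the pairs `(a, m)` with `P a m` -/
noncomputable def SJ (g : TF) (w v : ℝ → ℝ) (e T : ℝ) (r : ℕ) {q : ℕ} (χ : DirichletCharacter ℂ q) (α β : ℕ → ℂ)
    (P : ℕ → ℕ → Prop) : ℂ :=
  ∑ a ∈ SA e T r, ∑ m ∈ Finset.Icc 1 ⌊T ^ 2⌋₊, ∑ k ∈ Finset.Icc 1 ⌊T ^ 2⌋₊,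
    if P a m then (χ a * χ m * χ k) * (α m * β k) * ((FW g w v T (r, a) (m * k) : ℝ) : ℂ) else 0

/-- the corresponding weighted sum -/
noncomputable def WJ (g : TF) (w v : ℝ → ℝ) (e T : ℝ) (α β : ℕ → ℂ) (P : ℕ → ℕ → ℕ → Prop) (Q1 Q2 : ℝ) : ℝ :=
  ∑ r ∈ RS e T, (1 / (Nat.totient r : ℝ) ^ 2) * ∑ q ∈ r.divisors.filter (fun q : ℕ => Q1 < (q : ℝ) ∧ (q : ℝ) ≤ Q2),
    Real.sqrt q * ∑ χ ∈ PR q, ‖SJ g w v e T r χ α β (P r)‖

/-- dyadic block -/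
def DB (j : ℕ) : Finset ℕ := Finset.Ico (2 ^ j) (2 ^ (j + 1))

/-- the box sum -/
noncomputable def WB (g : TF) (w v : ℝ → ℝ) (e T : ℝ) (α β : ℕ → ℂ) (jr jq ja jm jk : ℕ) : ℝ :=
  ∑ r ∈ (RS e T).filter (fun r => r ∈ DB jr), (1 / (Nat.totient r : ℝ) ^ 2) * ∑ q ∈ r.divisors.filter (fun q : ℕ => q ∈ DB jq),
    Real.sqrt q * ∑ χ ∈ PR q, ‖∑ a ∈ (SA e T r).filter (fun a => a ∈ DB ja), ∑ m ∈ DB jm, ∑ k ∈ DB jk,
      (χ a * χ m * χ k) * (α m * β k) * ((FW g w v T (r, a) (m * k) : ℝ) : ℂ)‖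

/-- the box sum with separated variables -/
noncomputable def XB (γ α β : ℕ → ℂ) (jr jq ja jm jk : ℕ) : ℝ :=
  ∑ r ∈ (DB jr).filter Squarefree, (1 / (Nat.totient r : ℝ) ^ 2) * ∑ q ∈ r.divisors.filter (fun q : ℕ => q ∈ DB jq),
    Real.sqrt q * ∑ χ ∈ PR q, ‖(∑ a ∈ (DB ja).filter (fun a => Nat.Coprime a r), γ a * χ a) *
      (∑ m ∈ DB jm, α m * χ m) * (∑ k ∈ DB jk, β k * χ k)‖

end Pool.Agent.Helper69.FF
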