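import Pool.Agent.Helper69.FF.Defs

/-!
# FF-MR: the remainder integral (first derivative test)

`u^(-1/2) e(u) u^(-it) = (d/du)[e^(i(2πu - t log u))] · u^(1/2)/(i (2πu - t))`. On the support of `1 - k(log(u/T))` with `t/T ∈ [1/2-th, 1/2+th]` one has
`|2πu - t| ≥ c₁ (u + T)` (`c₁ > 0` depends on `g.th` only: `KW.one` says `k = 1` when `(1/2-th)/2 ≤ 2πu/T ≤ 2`). With
`G(u) = u^(1/2) (1 - k(log(u/T))) e^(-δu)/(i(2πu - t))` the integral is `-∫ e^(i(2πu - t log u)) G'(u) du` (boundary terms: `G → 0` at `0` and at `∞`), and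
`∫ |G'| ≤ C ∫_0^∞ (u^(-1/2)/(u+T) + u^(1/2)/(u+T)² + δ u^(1/2) e^(-δu)/(u+T)) du + C T^(-1/2) ≤ C T^(-1/2)` for `0 < δ ≤ 1/T`
(`∫ u^(-1/2)/(u+T) = π T^(-1/2)`, or split at `T`; `∫ δ u^(1/2) e^(-δu)/(u+T) ≤ ∫ δ u^(-1/2) e^(-δu) ≤ C δ^(1/2) ≤ C T^(-1/2)`; `k'(log(u/T))/u` lives on `u ≍ T`).
-/

open MeasureTheory Set Filter Topology
open Pool.Agent.Helper57.Zeta Pool.Agent.Helper57.PC Pool.Agent.Helper57.LH Pool.Agent.Helper78.SG
open Pool.Agent.Helper4.SH (om)
open scoped ContDiff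

namespace Pool.Agent.Helper69.FF

/-- the phase -/
private noncomputable def ph (T t v : ℝ) : ℝ := 2 * Real.pi * (T * v) - t * Real.log v

/-- the oscillating factor -/
private noncomputable def EE (T t v : ℝ) : ℂ := Complex.exp (((ph T t v : ℝ) : ℂ) * Complex.I)

private theorem EE_eq (T t v : ℝ) : ee (T * v) * xp t v = EE T t v := by
  unfold ee xp EE ph
  rw [← Complex.exp_add]
  congr 1
  push_cast
  ring

private theorem EE_norm (T t v : ℝ) : ‖EE T t v‖ = 1 := Complex.norm_exp_ofReal_mul_I _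

private theorem EE_deriv (T t : ℝ) {v : ℝ} (hv : 0 < v) :
    HasDerivAt (EE T t) (EE T t v * (((2 * Real.pi * T - t / v : ℝ) : ℂ) * Complex.I)) v := by
  have h1 : HasDerivAt (ph T t) (2 * Real.pi * T - t / v) v := by
    have h2 := ((hasDerivAt_id v).const_mul (2 * Real.pi * T)).sub ((Real.hasDerivAt_log hv.ne').const_mul t)
    have h3 : (fun v : ℝ => 2 * Real.pi * T * id v - t * Real.log v) = ph T t := by
      funext w
      unfold ph
      simp only [id]
      ring
    have h4 : HasDerivAt (fun v : ℝ => 2 * Real.pi * T * id v - t * Real.log v) (2 * Real.pi * T * 1 - t * v⁻¹) v := h2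
    rw [h3] at h4
    convert h4 using 1
    rw [div_eq_mul_inv]
    ring
  exact (h1.ofReal_comp.mul_const Complex.I).cexp

/-- the amplitude -/
private noncomputable def sf (k : ℝ → ℝ) (δ τ v : ℝ) : ℝ :=
  Real.sqrt v * Real.exp (-(δ * v)) * ((1 - k (Real.log v)) / (2 * Real.pi * v - τ))

/-- its derivative -/
private noncomputable def sd (k : ℝ → ℝ) (δ τ v : ℝ) : ℝ :=
  (1 / (2 * Real.sqrt v) * Real.exp (-(δ * v)) + Real.sqrt v * (Real.exp (-(δ * v)) * -δ)) *
    ((1 - k (Real.log v)) / (2 * Real.pi * v - τ)) +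
  Real.sqrt v * Real.exp (-(δ * v)) *
    ((-(deriv k (Real.log v) * v⁻¹) * (2 * Real.pi * v - τ) - (1 - k (Real.log v)) * (2 * Real.pi)) /
      (2 * Real.pi * v - τ) ^ 2)

private theorem k_one {g : TF} {k : ℝ → ℝ} {c : ℝ} (hk : KW g k c) {v : ℝ} (hv : 0 < v)
    (h1 : (1 / 2 - g.th) / 2 < 2 * Real.pi * v) (h2 : 2 * Real.pi * v < 2) :
    k (Real.log v) = 1 ∧ deriv k (Real.log v) = 0 := by
  have hexp : Real.exp (Real.log v) = v := Real.exp_log hv
  refine ⟨hk.one _ (by rw [hexp]; exact h1.le) (by rw [hexp]; exact h2.le), ?_⟩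
  have hop : {y : ℝ | (1 / 2 - g.th) / 2 < 2 * Real.pi * Real.exp y ∧ 2 * Real.pi * Real.exp y < 2} ∈ 𝓝 (Real.log v) := by
    have hcc : Continuous (fun y : ℝ => 2 * Real.pi * Real.exp y) := by fun_prop
    have ho : IsOpen {y : ℝ | (1 / 2 - g.th) / 2 < 2 * Real.pi * Real.exp y ∧ 2 * Real.pi * Real.exp y < 2} :=
      (isOpen_lt continuous_const hcc).inter (isOpen_lt hcc continuous_const)
    exact ho.mem_nhds ⟨by rw [hexp]; exact h1, by rw [hexp]; exact h2⟩
  have heq : k =ᶠ[𝓝 (Real.log v)] fun _ => (1 : ℝ) := by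
    filter_upwards [hop] with y hy
    exact hk.one y hy.1.le hy.2.le
  rw [heq.deriv_eq]
  simp

private theorem sf_deriv {g : TF} {k : ℝ → ℝ} {c : ℝ} (hk : KW g k c) (δ : ℝ) {τ v : ℝ} (hv : 0 < v)
    (hτ1 : 1 / 2 - g.th < τ) (hτ2 : τ < 1 / 2 + g.th) : HasDerivAt (sf k δ τ) (sd k δ τ v) v := by
  have hth0 := g.th0
  have hth1 := g.th1
  by_cases hd : 2 * Real.pi * v - τ = 0
  · have hv1 : 2 * Real.pi * v = τ := by linarith
    have hz : sd k δ τ v = 0 := by
      unfold sd
      rw [hd]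
      simp
    rw [hz]
    have hop : {w : ℝ | 0 < w ∧ (1 / 2 - g.th) / 2 < 2 * Real.pi * w ∧ 2 * Real.pi * w < 2} ∈ 𝓝 v := by
      have hcc : Continuous (fun y : ℝ => 2 * Real.pi * y) := by fun_prop
      have ho : IsOpen {w : ℝ | 0 < w ∧ (1 / 2 - g.th) / 2 < 2 * Real.pi * w ∧ 2 * Real.pi * w < 2} :=
        (isOpen_lt continuous_const continuous_id).inter
          ((isOpen_lt continuous_const hcc).inter (isOpen_lt hcc continuous_const))
      exact ho.mem_nhds ⟨hv, by linarith, by linarith⟩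
    have heq : sf k δ τ =ᶠ[𝓝 v] fun _ => (0 : ℝ) := by
      filter_upwards [hop] with w hw
      unfold sf
      rw [(k_one hk hw.1 hw.2.1 hw.2.2).1]
      simp
    exact (hasDerivAt_const v (0 : ℝ)).congr_of_eventuallyEq heq
  · have h1 : HasDerivAt (fun v : ℝ => Real.sqrt v) (1 / (2 * Real.sqrt v)) v := Real.hasDerivAt_sqrt hv.ne'
    have h2 : HasDerivAt (fun v : ℝ => Real.exp (-(δ * v))) (Real.exp (-(δ * v)) * -δ) v := by
      have h3 : HasDerivAt (fun v : ℝ => -(δ * v)) (-δ) v := by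
        simpa using ((hasDerivAt_id v).const_mul δ).fun_neg
      exact h3.exp
    have h4 : HasDerivAt (fun v : ℝ => 1 - k (Real.log v)) (-(deriv k (Real.log v) * v⁻¹)) v := by
      have h5 : HasDerivAt k (deriv k (Real.log v)) (Real.log v) :=
        ((hk.smooth.differentiable (by simp)) _).hasDerivAt
      have h6 := (h5.comp v (Real.hasDerivAt_log hv.ne')).const_sub 1
      exact h6
    have h7 : HasDerivAt (fun v : ℝ => 2 * Real.pi * v - τ) (2 * Real.pi) v := by
      simpa using ((hasDerivAt_id v).const_mul (2 * Real.pi)).sub_const τ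
    exact (h1.mul h2).mul (h4.div h7 hd)

private theorem den_bd {g : TF} {k : ℝ → ℝ} {c : ℝ} (hk : KW g k c) {τ v : ℝ} (hv : 0 < v)
    (hτ1 : 1 / 2 - g.th < τ) (hτ2 : τ < 1 / 2 + g.th) (hne : k (Real.log v) ≠ 1 ∨ deriv k (Real.log v) ≠ 0) :
    (1 / 2 - g.th) / 4 * (1 + v) ≤ |2 * Real.pi * v - τ| := by
  have hth0 := g.th0
  have hth1 := g.th1
  have hpi := Real.pi_gt_three
  have hcase : 2 * Real.pi * v ≤ (1 / 2 - g.th) / 2 ∨ 2 ≤ 2 * Real.pi * v := by
    by_contra hcon
    push Not at hcon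
    obtain ⟨h1, h2⟩ := k_one hk hv hcon.1 hcon.2
    rcases hne with h | h
    · exact h h1
    · exact h h2
  rcases hcase with h | h
  · have hv1 : v ≤ 1 := by nlinarith
    rw [abs_sub_comm]
    refine le_trans ?_ (le_abs_self _)
    nlinarith
  · refine le_trans ?_ (le_abs_self _)
    have h1 : 1 ≤ Real.pi * v := by linarith
    nlinarith

private theorem sf_le {g : TF} {k : ℝ → ℝ} {c : ℝ} (hk : KW g k c) {τ v : ℝ} (hv : 0 < v)
    (hτ1 : 1 / 2 - g.th < τ) (hτ2 : τ < 1 / 2 + g.th) :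
    |(1 - k (Real.log v)) / (2 * Real.pi * v - τ)| ≤ 1 / ((1 / 2 - g.th) / 4) / (1 + v) := by
  have hth1 := g.th1
  have hc1 : 0 < (1 / 2 - g.th) / 4 := by linarith
  by_cases h1 : k (Real.log v) = 1
  · rw [h1]; simp only [sub_self, zero_div, abs_zero]; positivity
  · have h2 := den_bd hk hv hτ1 hτ2 (Or.inl h1)
    have h3 : 0 < (1 / 2 - g.th) / 4 * (1 + v) := by positivity
    rw [abs_div, div_div]
    have h4 : |1 - k (Real.log v)| ≤ 1 := by
      have := hk.nonneg (Real.log v)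
      have := hk.le_one (Real.log v)
      rw [abs_le]; constructor <;> linarith
    exact div_le_div₀ zero_le_one h4 h3 h2

private theorem core {g : TF} {k : ℝ → ℝ} {c : ℝ} (hk : KW g k c) : ∃ C : ℝ, 0 < C ∧ ∀ T τ δ : ℝ, 0 < T →
    1 / 2 - g.th < τ → τ < 1 / 2 + g.th → 0 < δ → δ ≤ 1 →
    ‖∫ v in Ioi (0:ℝ), ((1 / Real.sqrt v * Real.exp (-(δ * v)) * (1 - k (Real.log v)) : ℝ) : ℂ) * EE T (T * τ) v‖ ≤ C / T := by
  have hth0 := g.th0
  have hth1 := g.th1
  have hpi := Real.pi_pos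
  set c1 : ℝ := (1 / 2 - g.th) / 4 with hc1d
  have hc1 : 0 < c1 := by rw [hc1d]; linarith
  -- bound of the derivative of k
  obtain ⟨K, hK⟩ : ∃ K : ℝ, ∀ y, |deriv k y| ≤ K := by
    have hc : Continuous (deriv k) := hk.smooth.continuous_deriv (by simp)
    obtain ⟨C, hC⟩ := (isCompact_Icc (a := -c) (b := c)).exists_bound_of_continuousOn hc.continuousOn
    refine ⟨max C 0, fun y => ?_⟩
    by_cases hy : y ∈ Icc (-c) c
    · exact (hC y hy).trans (le_max_left _ _)
    · have hy1 : c < |y| := by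
        by_contra hcon
        push Not at hcon
        exact hy (abs_le.1 hcon)
      have hop : {y : ℝ | c < |y|} ∈ 𝓝 y := (isOpen_lt continuous_const continuous_abs).mem_nhds hy1
      have heq : k =ᶠ[𝓝 y] fun _ => (0 : ℝ) := by
        filter_upwards [hop] with z hz
        exact hk.supp z (le_of_lt hz)
      rw [heq.deriv_eq]
      simp
  have hK0 : 0 ≤ K := (abs_nonneg _).trans (hK 0)
  -- the dominating functions
  set m1 : ℝ → ℝ := fun v => 1 / Real.sqrt v / (1 + v) with hm1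
  have hm1i : IntegrableOn m1 (Ioi 0) := by
    have hmeas : AEStronglyMeasurable m1 (volume.restrict (Ioi 0)) := by
      apply Measurable.aestronglyMeasurable
      rw [hm1]
      fun_prop
    rw [← Ioc_union_Ioi_eq_Ioi (zero_le_one' ℝ)]
    apply IntegrableOn.union
    · have h1 : IntegrableOn (fun v : ℝ => v ^ (-(1:ℝ) / 2)) (Ioc 0 1) := by
        have := (intervalIntegral.intervalIntegrable_rpow' (a := 0) (b := 1) (r := -(1:ℝ) / 2) (by norm_num))
        rwa [intervalIntegrable_iff_integrableOn_Ioc_of_le zero_le_one] at this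
      refine Integrable.mono' h1 (hmeas.mono_set Ioc_subset_Ioi_self) ?_
      filter_upwards [ae_restrict_mem measurableSet_Ioc] with v hv
      rw [hm1, Real.norm_of_nonneg (by have := hv.1; positivity)]
      have h2 : v ^ (-(1:ℝ) / 2) = 1 / Real.sqrt v := by
        rw [neg_div, Real.rpow_neg hv.1.le, ← Real.sqrt_eq_rpow, one_div]
      rw [h2]
      apply div_le_self (by positivity)
      linarith [hv.1]
    · have h1 : IntegrableOn (fun v : ℝ => v ^ (-(3:ℝ) / 2)) (Ioi 1) :=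
        integrableOn_Ioi_rpow_of_lt (by norm_num) zero_lt_one
      refine Integrable.mono' h1 (hmeas.mono_set (Ioi_subset_Ioi zero_le_one)) ?_
      filter_upwards [ae_restrict_mem measurableSet_Ioi] with v hv
      have hv0 : 0 < v := lt_trans zero_lt_one hv
      rw [hm1, Real.norm_of_nonneg (by positivity)]
      have h2 : v ^ (-(3:ℝ) / 2) = 1 / Real.sqrt v / v := by
        have h3 : (-(3:ℝ) / 2) = -(1 / 2) + -1 := by norm_num
        rw [h3, Real.rpow_add hv0, Real.rpow_neg hv0.le, ← Real.sqrt_eq_rpow, Real.rpow_neg_one]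
        field_simp
      rw [h2]
      show 1 / Real.sqrt v / (1 + v) ≤ 1 / Real.sqrt v / v
      gcongr
      linarith
  set I1 : ℝ := ∫ v in Ioi (0:ℝ), m1 v with hI1
  have hI1nn : 0 ≤ I1 := by
    apply setIntegral_nonneg measurableSet_Ioi
    intro v hv
    have : (0:ℝ) < v := hv
    rw [hm1]; positivity
  have hgam : ∀ δ : ℝ, 0 < δ → IntegrableOn (fun v : ℝ => 1 / Real.sqrt v * Real.exp (-(δ * v))) (Ioi 0) ∧
      ∫ v in Ioi (0:ℝ), 1 / Real.sqrt v * Real.exp (-(δ * v)) = Real.sqrt Real.pi / Real.sqrt δ := by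
    intro δ hδ
    have h1 : ∀ v ∈ Ioi (0:ℝ), v ^ ((1 / 2 : ℝ) - 1) * Real.exp (-(δ * v)) = 1 / Real.sqrt v * Real.exp (-(δ * v)) := by
      intro v hv
      have hv0 : (0:ℝ) < v := hv
      have : v ^ ((1 / 2 : ℝ) - 1) = 1 / Real.sqrt v := by
        rw [show ((1:ℝ) / 2 - 1) = -(1 / 2) by norm_num, Real.rpow_neg hv0.le, ← Real.sqrt_eq_rpow, one_div]
      rw [this]
    have h2 := Real.integral_rpow_mul_exp_neg_mul_Ioi (a := 1 / 2) (r := δ) (by norm_num) hδ
    rw [setIntegral_congr_fun measurableSet_Ioi h1] at h2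
    constructor
    · by_contra hcon
      rw [integral_undef hcon] at h2
      have h3 : 0 < (1 / δ) ^ (1 / 2 : ℝ) * Real.Gamma (1 / 2) := by
        have := Real.Gamma_pos_of_pos (s := 1 / 2) (by norm_num)
        positivity
      linarith
    · rw [h2, Real.Gamma_one_half_eq, ← Real.sqrt_eq_rpow, Real.sqrt_div zero_le_one, Real.sqrt_one]
      ring
  refine ⟨(1 / (2 * c1) + K / c1 + 2 * Real.pi / c1 ^ 2) * I1 + 1 / c1 * Real.sqrt Real.pi, by positivity, ?_⟩
  intro T τ δ hT hτ1 hτ2 hδ hδ1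
  -- bound of sd
  have hsd : ∀ v : ℝ, 0 < v → |sd k δ τ v| ≤ (1 / (2 * c1) + K / c1 + 2 * Real.pi / c1 ^ 2) * m1 v +
      1 / c1 * (δ * (1 / Real.sqrt v * Real.exp (-(δ * v)))) := by
    intro v hv
    have hs : 0 < Real.sqrt v := Real.sqrt_pos.2 hv
    have hss : Real.sqrt v * Real.sqrt v = v := Real.mul_self_sqrt hv.le
    have he0 : 0 < Real.exp (-(δ * v)) := Real.exp_pos _
    have he1 : Real.exp (-(δ * v)) ≤ 1 := by
      rw [Real.exp_le_one_iff]
      have : 0 < δ * v := by positivity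
      linarith
    have hb : |(1 - k (Real.log v)) / (2 * Real.pi * v - τ)| ≤ 1 / c1 / (1 + v) := sf_le hk hv hτ1 hτ2
    have hb' : |(-(deriv k (Real.log v) * v⁻¹) * (2 * Real.pi * v - τ) - (1 - k (Real.log v)) * (2 * Real.pi)) /
        (2 * Real.pi * v - τ) ^ 2| ≤ K / v / (c1 * (1 + v)) + 2 * Real.pi / (c1 * (1 + v)) ^ 2 := by
      by_cases hne : k (Real.log v) ≠ 1 ∨ deriv k (Real.log v) ≠ 0
      · have h2 := den_bd hk hv hτ1 hτ2 hne
        have h3 : 0 < c1 * (1 + v) := by positivity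
        have hD : 0 < |2 * Real.pi * v - τ| := lt_of_lt_of_le h3 h2
        have hD0 : 2 * Real.pi * v - τ ≠ 0 := abs_pos.1 hD
        have h4 : (-(deriv k (Real.log v) * v⁻¹) * (2 * Real.pi * v - τ) - (1 - k (Real.log v)) * (2 * Real.pi)) /
            (2 * Real.pi * v - τ) ^ 2 = -(deriv k (Real.log v) / v / (2 * Real.pi * v - τ)) -
              (1 - k (Real.log v)) * (2 * Real.pi) / (2 * Real.pi * v - τ) ^ 2 := by
          field_simp
        rw [h4]
        refine (abs_sub _ _).trans ?_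
        rw [abs_neg, abs_div, abs_div, abs_div, abs_pow, abs_mul, abs_of_pos hv, abs_of_pos (by positivity : (0:ℝ) < 2 * Real.pi)]
        have h5 : |1 - k (Real.log v)| ≤ 1 := by
          have := hk.nonneg (Real.log v)
          have := hk.le_one (Real.log v)
          rw [abs_le]; constructor <;> linarith
        have h6 := hK (Real.log v)
        refine add_le_add (by gcongr) ?_
        refine div_le_div₀ (by positivity) ?_ (by positivity) (by gcongr)
        calc |1 - k (Real.log v)| * (2 * Real.pi) ≤ 1 * (2 * Real.pi) := mul_le_mul_of_nonneg_right h5 (by positivity)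
          _ = 2 * Real.pi := one_mul _
      · push Not at hne
        rw [hne.1, hne.2]
        simp only [zero_mul, neg_zero, sub_self, zero_div, abs_zero]
        positivity
    unfold sd
    refine (abs_add_le _ _).trans ?_
    rw [abs_mul, abs_mul (Real.sqrt v * Real.exp (-(δ * v)))]
    have h7 : |1 / (2 * Real.sqrt v) * Real.exp (-(δ * v)) + Real.sqrt v * (Real.exp (-(δ * v)) * -δ)| ≤
        1 / (2 * Real.sqrt v) + Real.sqrt v * (Real.exp (-(δ * v)) * δ) := by
      refine (abs_add_le _ _).trans ?_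
      rw [abs_of_pos (by positivity : (0:ℝ) < 1 / (2 * Real.sqrt v) * Real.exp (-(δ * v))), abs_mul, abs_mul, abs_neg,
        abs_of_pos hs, abs_of_pos he0, abs_of_pos hδ]
      gcongr
      calc 1 / (2 * Real.sqrt v) * Real.exp (-(δ * v)) ≤ 1 / (2 * Real.sqrt v) * 1 := by gcongr
        _ = 1 / (2 * Real.sqrt v) := mul_one _
    have h8 : |Real.sqrt v * Real.exp (-(δ * v))| ≤ Real.sqrt v := by
      rw [abs_of_pos (by positivity)]
      calc Real.sqrt v * Real.exp (-(δ * v)) ≤ Real.sqrt v * 1 := by gcongr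
        _ = Real.sqrt v := mul_one _
    calc |1 / (2 * Real.sqrt v) * Real.exp (-(δ * v)) + Real.sqrt v * (Real.exp (-(δ * v)) * -δ)| *
          |(1 - k (Real.log v)) / (2 * Real.pi * v - τ)| +
        |Real.sqrt v * Real.exp (-(δ * v))| *
          |(-(deriv k (Real.log v) * v⁻¹) * (2 * Real.pi * v - τ) - (1 - k (Real.log v)) * (2 * Real.pi)) /
            (2 * Real.pi * v - τ) ^ 2|
        ≤ (1 / (2 * Real.sqrt v) + Real.sqrt v * (Real.exp (-(δ * v)) * δ)) * (1 / c1 / (1 + v)) +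
          Real.sqrt v * (K / v / (c1 * (1 + v)) + 2 * Real.pi / (c1 * (1 + v)) ^ 2) := by
          gcongr
      _ = (1 / (2 * c1) + K / c1) * (1 / Real.sqrt v / (1 + v)) +
          1 / c1 * (δ * (1 / Real.sqrt v * Real.exp (-(δ * v)))) * (v / (1 + v)) +
          2 * Real.pi / c1 ^ 2 * (1 / Real.sqrt v / (1 + v)) * (v / (1 + v)) := by
          have hv' : v = Real.sqrt v * Real.sqrt v := hss.symm
          have e1 : K / v = K / (Real.sqrt v * Real.sqrt v) := by rw [hss]
          have e2 : (v / (1 + v)) = Real.sqrt v * Real.sqrt v / (1 + v) := by rw [hss]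
          rw [e1, e2]
          field_simp
          ring
      _ ≤ (1 / (2 * c1) + K / c1) * (1 / Real.sqrt v / (1 + v)) +
          1 / c1 * (δ * (1 / Real.sqrt v * Real.exp (-(δ * v)))) * 1 +
          2 * Real.pi / c1 ^ 2 * (1 / Real.sqrt v / (1 + v)) * 1 := by
          have h9 : v / (1 + v) ≤ 1 := by rw [div_le_one (by positivity)]; linarith
          gcongr
      _ = _ := by rw [hm1]; ring
  -- integrability
  obtain ⟨hgi, hgv⟩ := hgam δ hδ
  have hdomi : IntegrableOn (fun v : ℝ => (1 / (2 * c1) + K / c1 + 2 * Real.pi / c1 ^ 2) * m1 v +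
      1 / c1 * (δ * (1 / Real.sqrt v * Real.exp (-(δ * v))))) (Ioi 0) :=
    (hm1i.const_mul _).add ((hgi.const_mul δ).const_mul (1 / c1))
  have hEc : ContinuousOn (EE T (T * τ)) (Ioi 0) := fun v hv =>
    (EE_deriv T (T * τ) hv).continuousAt.continuousWithinAt
  have hkm : Measurable k := hk.smooth.continuous.measurable
  have hk'm : Measurable (deriv k) := (hk.smooth.continuous_deriv (by simp)).measurable
  have hsdm : Measurable (sd k δ τ) := by
    unfold sd
    fun_prop
  have hi1 : IntegrableOn (fun v : ℝ => ((sd k δ τ v : ℝ) : ℂ) * EE T (T * τ) v) (Ioi 0) := by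
    refine Integrable.mono' hdomi ?_ ?_
    · exact (Complex.continuous_ofReal.measurable.comp hsdm).aestronglyMeasurable.mul
        (hEc.aestronglyMeasurable measurableSet_Ioi)
    · filter_upwards [ae_restrict_mem measurableSet_Ioi] with v hv
      rw [norm_mul, EE_norm, mul_one, Complex.norm_real, Real.norm_eq_abs]
      exact hsd v hv
  have hi2 : IntegrableOn (fun v : ℝ => ((1 / Real.sqrt v * Real.exp (-(δ * v)) * (1 - k (Real.log v)) : ℝ) : ℂ) * EE T (T * τ) v)
      (Ioi 0) := by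
    refine Integrable.mono' hgi ?_ ?_
    · refine AEStronglyMeasurable.mul ?_ (hEc.aestronglyMeasurable measurableSet_Ioi)
      apply Measurable.aestronglyMeasurable
      apply Complex.continuous_ofReal.measurable.comp
      fun_prop
    · filter_upwards [ae_restrict_mem measurableSet_Ioi] with v hv
      have hv0 : (0:ℝ) < v := hv
      rw [norm_mul, EE_norm, mul_one, Complex.norm_real, Real.norm_eq_abs, abs_mul,
        abs_of_nonneg (by positivity : (0:ℝ) ≤ 1 / Real.sqrt v * Real.exp (-(δ * v)))]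
      have h5 : |1 - k (Real.log v)| ≤ 1 := by
        have := hk.nonneg (Real.log v)
        have := hk.le_one (Real.log v)
        rw [abs_le]; constructor <;> linarith
      calc _ ≤ 1 / Real.sqrt v * Real.exp (-(δ * v)) * 1 := by gcongr
        _ = _ := mul_one _
  -- the primitive
  set F : ℝ → ℂ := fun v => ((sf k δ τ v : ℝ) : ℂ) * EE T (T * τ) v with hF
  have hFd : ∀ v ∈ Ioi (0:ℝ), HasDerivAt F (((sd k δ τ v : ℝ) : ℂ) * EE T (T * τ) v +
      ((T : ℂ) * Complex.I) * (((1 / Real.sqrt v * Real.exp (-(δ * v)) * (1 - k (Real.log v)) : ℝ) : ℂ) * EE T (T * τ) v)) v := by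
    intro v hv
    have hv0 : (0:ℝ) < v := hv
    have h1 := (sf_deriv hk δ hv0 hτ1 hτ2).ofReal_comp.mul (EE_deriv T (T * τ) hv0)
    have h2 : ((sf k δ τ v : ℝ) : ℂ) * (EE T (T * τ) v * (((2 * Real.pi * T - T * τ / v : ℝ) : ℂ) * Complex.I)) =
        ((T : ℂ) * Complex.I) * (((1 / Real.sqrt v * Real.exp (-(δ * v)) * (1 - k (Real.log v)) : ℝ) : ℂ) * EE T (T * τ) v) := by
      have h3 : sf k δ τ v * (2 * Real.pi * T - T * τ / v) = T * (1 / Real.sqrt v * Real.exp (-(δ * v)) * (1 - k (Real.log v))) := by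
        unfold sf
        have hs : 0 < Real.sqrt v := Real.sqrt_pos.2 hv0
        have hss : Real.sqrt v * Real.sqrt v = v := Real.mul_self_sqrt hv0.le
        by_cases hd : 2 * Real.pi * v - τ = 0
        · have h4 : k (Real.log v) = 1 := (k_one hk hv0 (by linarith) (by linarith)).1
          rw [h4]; simp
        · have h5 : 2 * Real.pi * T - T * τ / v = T * (2 * Real.pi * v - τ) / v := by field_simp
          have h6 : T * (2 * Real.pi * v - τ) / v = T * (2 * Real.pi * v - τ) / (Real.sqrt v * Real.sqrt v) := by rw [hss]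
          rw [h5, h6]
          obtain ⟨D, hDd⟩ : ∃ D, D = 2 * Real.pi * v - τ := ⟨_, rfl⟩
          rw [← hDd] at hd ⊢
          field_simp
      have h4 : ((sf k δ τ v : ℝ) : ℂ) * (((2 * Real.pi * T - T * τ / v : ℝ)) : ℂ) =
          ((T * (1 / Real.sqrt v * Real.exp (-(δ * v)) * (1 - k (Real.log v))) : ℝ) : ℂ) := by
        rw [← Complex.ofReal_mul, h3]
      calc _ = (((sf k δ τ v : ℝ) : ℂ) * (((2 * Real.pi * T - T * τ / v : ℝ)) : ℂ)) * (EE T (T * τ) v * Complex.I) := by ring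
        _ = _ := by rw [h4]; push_cast; ring
    rw [← h2]
    exact h1
  have hFle : ∀ v : ℝ, 0 < v → ‖F v‖ ≤ 1 / c1 * (Real.sqrt v / (1 + v)) := by
    intro v hv
    rw [hF, norm_mul, EE_norm, mul_one, Complex.norm_real, Real.norm_eq_abs]
    unfold sf
    rw [abs_mul, abs_of_nonneg (by positivity : (0:ℝ) ≤ Real.sqrt v * Real.exp (-(δ * v)))]
    have he1 : Real.exp (-(δ * v)) ≤ 1 := by
      rw [Real.exp_le_one_iff]
      have : 0 < δ * v := by positivity
      linarith
    calc Real.sqrt v * Real.exp (-(δ * v)) * |(1 - k (Real.log v)) / (2 * Real.pi * v - τ)|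
        ≤ Real.sqrt v * 1 * (1 / c1 / (1 + v)) := by
          gcongr
          exact sf_le hk hv hτ1 hτ2
      _ = _ := by ring
  have hF0 : F 0 = 0 := by
    rw [hF]
    simp [sf]
  have hFc : ContinuousWithinAt F (Ici 0) 0 := by
    unfold ContinuousWithinAt
    rw [hF0, tendsto_zero_iff_norm_tendsto_zero]
    have h1 : Tendsto (fun v : ℝ => 1 / c1 * Real.sqrt v) (𝓝[Ici 0] 0) (𝓝 0) := by
      have : Tendsto (fun v : ℝ => 1 / c1 * Real.sqrt v) (𝓝 0) (𝓝 (1 / c1 * Real.sqrt 0)) :=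
        (continuous_const.mul Real.continuous_sqrt).tendsto 0
      rw [Real.sqrt_zero, mul_zero] at this
      exact this.mono_left nhdsWithin_le_nhds
    refine squeeze_zero' (Eventually.of_forall fun v => norm_nonneg _) ?_ h1
    filter_upwards [self_mem_nhdsWithin] with v hv
    rcases eq_or_lt_of_le (mem_Ici.1 hv) with h | h
    · rw [← h, hF0]; simp
    · refine (hFle v h).trans ?_
      gcongr
      apply div_le_self (Real.sqrt_nonneg _)
      linarith
  have hFinf : Tendsto F atTop (𝓝 0) := by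
    rw [tendsto_zero_iff_norm_tendsto_zero]
    have h1 : Tendsto (fun v : ℝ => 1 / c1 * (1 / Real.sqrt v)) atTop (𝓝 0) := by
      have h2 : Tendsto (fun v : ℝ => (Real.sqrt v)⁻¹) atTop (𝓝 0) := tendsto_inv_atTop_zero.comp Real.tendsto_sqrt_atTop
      have h3 := h2.const_mul (1 / c1)
      rw [mul_zero] at h3
      simpa [one_div] using h3
    refine squeeze_zero' (Eventually.of_forall fun v => norm_nonneg _) ?_ h1
    filter_upwards [eventually_gt_atTop 0] with v hv
    refine (hFle v hv).trans ?_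
    have hs : 0 < Real.sqrt v := Real.sqrt_pos.2 hv
    have hss : Real.sqrt v * Real.sqrt v = v := Real.mul_self_sqrt hv.le
    refine mul_le_mul_of_nonneg_left ?_ (by positivity)
    rw [div_le_div_iff₀ (by positivity) hs]
    linarith
  have hint := integral_Ioi_of_hasDerivAt_of_tendsto hFc hFd (hi1.add (hi2.const_mul _)) hFinf
  rw [hF0, sub_zero] at hint
  have hadd : ∫ v in Ioi (0:ℝ), (((sd k δ τ v : ℝ) : ℂ) * EE T (T * τ) v +
      ((T : ℂ) * Complex.I) * (((1 / Real.sqrt v * Real.exp (-(δ * v)) * (1 - k (Real.log v)) : ℝ) : ℂ) * EE T (T * τ) v)) =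
      (∫ v in Ioi (0:ℝ), ((sd k δ τ v : ℝ) : ℂ) * EE T (T * τ) v) +
      ((T : ℂ) * Complex.I) * ∫ v in Ioi (0:ℝ), ((1 / Real.sqrt v * Real.exp (-(δ * v)) * (1 - k (Real.log v)) : ℝ) : ℂ) * EE T (T * τ) v := by
    rw [integral_add hi1 (hi2.const_mul _), integral_const_mul]
  rw [hadd] at hint
  set J : ℂ := ∫ v in Ioi (0:ℝ), ((1 / Real.sqrt v * Real.exp (-(δ * v)) * (1 - k (Real.log v)) : ℝ) : ℂ) * EE T (T * τ) v with hJ
  have h1 : ‖((T : ℂ) * Complex.I) * J‖ ≤ (1 / (2 * c1) + K / c1 + 2 * Real.pi / c1 ^ 2) * I1 + 1 / c1 * Real.sqrt Real.pi := by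
    have h2 : ((T : ℂ) * Complex.I) * J = -(∫ v in Ioi (0:ℝ), ((sd k δ τ v : ℝ) : ℂ) * EE T (T * τ) v) := by
      linear_combination hint
    rw [h2, norm_neg]
    calc ‖∫ v in Ioi (0:ℝ), ((sd k δ τ v : ℝ) : ℂ) * EE T (T * τ) v‖
        ≤ ∫ v in Ioi (0:ℝ), ((1 / (2 * c1) + K / c1 + 2 * Real.pi / c1 ^ 2) * m1 v +
            1 / c1 * (δ * (1 / Real.sqrt v * Real.exp (-(δ * v))))) := by
          apply norm_integral_le_of_norm_le hdomi
          filter_upwards [ae_restrict_mem measurableSet_Ioi] with v hv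
          rw [norm_mul, EE_norm, mul_one, Complex.norm_real, Real.norm_eq_abs]
          exact hsd v hv
      _ = (1 / (2 * c1) + K / c1 + 2 * Real.pi / c1 ^ 2) * I1 + 1 / c1 * (δ * (Real.sqrt Real.pi / Real.sqrt δ)) := by
          rw [integral_add (hm1i.const_mul _) ((hgi.const_mul δ).const_mul (1 / c1)), integral_const_mul,
            integral_const_mul, integral_const_mul, hgv]
      _ ≤ _ := by
          have hsδ : 0 < Real.sqrt δ := Real.sqrt_pos.2 hδ
          have hsδ1 : Real.sqrt δ ≤ 1 := Real.sqrt_le_iff.2 ⟨zero_le_one, by linarith⟩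
          have h3 : δ * (Real.sqrt Real.pi / Real.sqrt δ) = Real.sqrt Real.pi * Real.sqrt δ := by
            have : δ = Real.sqrt δ * Real.sqrt δ := (Real.mul_self_sqrt hδ.le).symm
            nth_rewrite 1 [this]
            field_simp
          rw [h3]
          have h4 : Real.sqrt Real.pi * Real.sqrt δ ≤ Real.sqrt Real.pi * 1 := by gcongr
          rw [mul_one] at h4
          gcongr
  rw [norm_mul, norm_mul, Complex.norm_real, Complex.norm_I, mul_one, Real.norm_of_nonneg hT.le] at h1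
  rw [le_div_iff₀ hT, mul_comm]
  exact h1

theorem RR_le (g : TF) {k : ℝ → ℝ} {c : ℝ} (hk : KW g k c) : ∃ C : ℝ, 0 < C ∧ ∀ T t δ : ℝ, 1 ≤ T → om g.h T t ≠ 0 →
    0 < δ → δ ≤ 1 / T →
    ‖∫ u in Ioi (0:ℝ), (((u : ℝ) ^ (-(1:ℝ) / 2) * Real.exp (-(δ * u)) * (1 - k (Real.log (u / T))) : ℝ) : ℂ) *
      (ee u * xp t u)‖ ≤ C / Real.sqrt T := by
  obtain ⟨C, hC, hcore⟩ := core hk
  refine ⟨C, hC, ?_⟩
  intro T t δ hT hom hδ hδT
  have hT0 : 0 < T := by linarith
  have hsT : 0 < Real.sqrt T := Real.sqrt_pos.2 hT0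
  have hssT : Real.sqrt T * Real.sqrt T = T := Real.mul_self_sqrt hT0.le
  have hτ : |t / T - 1 / 2| < g.th := by
    by_contra hcon
    push Not at hcon
    exact hom (g.supp _ hcon)
  rw [abs_lt] at hτ
  have h1 := hcore T (t / T) (δ * T) hT0 (by linarith [hτ.1]) (by linarith [hτ.2]) (by positivity)
    (by rw [le_div_iff₀ hT0] at hδT; exact hδT)
  have ht : T * (t / T) = t := by field_simp
  rw [ht] at h1
  set f : ℝ → ℂ := fun u => (((u : ℝ) ^ (-(1:ℝ) / 2) * Real.exp (-(δ * u)) * (1 - k (Real.log (u / T))) : ℝ) : ℂ) *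
      (ee u * xp t u) with hf
  have h2 : ∫ u in Ioi (0:ℝ), f u = (T : ℂ) * ∫ v in Ioi (0:ℝ), f (T * v) := by
    have h3 := integral_comp_mul_left_Ioi f 0 hT0
    rw [mul_zero] at h3
    have hTc : (T : ℂ) ≠ 0 := by exact_mod_cast hT0.ne'
    rw [h3, Complex.real_smul]
    push_cast
    field_simp
  have h4 : ∫ v in Ioi (0:ℝ), f (T * v) = (((1 / Real.sqrt T : ℝ) : ℂ) * xp t T) *
      ∫ v in Ioi (0:ℝ), ((1 / Real.sqrt v * Real.exp (-(δ * T * v)) * (1 - k (Real.log v)) : ℝ) : ℂ) * EE T t v := by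
    rw [← integral_const_mul]
    apply setIntegral_congr_fun measurableSet_Ioi
    intro v hv
    have hv0 : (0:ℝ) < v := hv
    simp only [hf]
    have e1 : (T * v) ^ (-(1:ℝ) / 2) = 1 / Real.sqrt T * (1 / Real.sqrt v) := by
      rw [neg_div, Real.rpow_neg (by positivity), ← Real.sqrt_eq_rpow, Real.sqrt_mul hT0.le]
      field_simp
    have e2 : xp t (T * v) = xp t T * xp t v := by
      unfold xp
      rw [Real.log_mul hT0.ne' hv0.ne', ← Complex.exp_add]
      congr 1
      push_cast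
      ring
    have e3 : T * v / T = v := by field_simp
    have e4 : -(δ * (T * v)) = -(δ * T * v) := by ring
    rw [e1, e2, e3, e4, ← EE_eq]
    push_cast
    ring
  have hxp : ‖xp t T‖ = 1 := by
    unfold xp
    have : -(((t * Real.log T : ℝ) : ℂ) * Complex.I) = ((-(t * Real.log T) : ℝ) : ℂ) * Complex.I := by
      push_cast; ring
    rw [this]
    exact Complex.norm_exp_ofReal_mul_I _
  rw [h2, h4, norm_mul, norm_mul, norm_mul, hxp, mul_one, Complex.norm_real, Complex.norm_real,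
    Real.norm_of_nonneg hT0.le, Real.norm_of_nonneg (by positivity : (0:ℝ) ≤ 1 / Real.sqrt T)]
  calc T * (1 / Real.sqrt T * ‖∫ v in Ioi (0:ℝ), ((1 / Real.sqrt v * Real.exp (-(δ * T * v)) * (1 - k (Real.log v)) : ℝ) : ℂ) * EE T t v‖)
      ≤ T * (1 / Real.sqrt T * (C / T)) := by gcongr
    _ = C / Real.sqrt T := by field_simp

end Pool.Agent.Helper69.FF
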