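import Pool.Agent.Helper69.FF.Defs

/-!
# FF-PhiS: sum of 1/phi over squarefree numbers

`n μ²(n)/φ(n) = ∑_{a b² m = n} h(a, b)`, `h(a,b) = μ(b) b/(φ(a) φ(b))` over `a, b` squarefree and coprime (check on prime powers: the Dirichlet inverse relation is
`h(p) = 1/(p-1)`, `h(p²) = -p/(p-1)`, `h(p^k) = 0` for `k ≥ 3`). So `∑_{n ≤ x} μ²(n)/φ(n) = ∑_{a,b} h(a,b)/(a b²) H(x/(ab²))`, `H(y) = ∑_{m ≤ y} 1/m = log y + γ + O(1/y)`.
`∑ |h|/(ab²) log(ab²) < ∞`, `∑ h/(ab²) = ∏ (1 + 1/(p(p-1)) - 1/(p(p-1))) = 1`, `∑_{ab² ≤ x} |h| ≤ C x^(3/4)`. ALTERNATIVE for the upper bound (any correct proof is fine):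
the lower bound is classical (`∑_{r ≤ x} μ²(r)/φ(r) ≥ ∑_{n ≤ x} 1/n`, expand `1/φ(r) = ∑ 1/n` over `n` with squarefree kernel `r`), and the same expansion gives the upper
bound: `∑_{r ≤ x} μ²(r)/φ(r) = ∑_{n : rad(n) ≤ x} 1/n ≤ ∑_{n ≤ x} 1/n + ∑_{n > x, rad(n) ≤ x} 1/n`, and the last sum is `≤ ∑_{d} (over the squarefull part: n = r m with
m | n composed of primes of r, m > 1 ...) O(1)`.
-/

open Finset

namespace Pool.Agent.Helper69.FF

/-- `n ↦ 1 / n` -/
private noncomputable def ivH : ℕ →* ℝ where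
  toFun n := (n : ℝ)⁻¹
  map_one' := by simp
  map_mul' a b := by push_cast; rw [mul_inv]

/-- `n ↦ 1 / √n` -/
private noncomputable def sqH : ℕ →* ℝ where
  toFun n := (Real.sqrt n)⁻¹
  map_one' := by simp
  map_mul' a b := by push_cast; rw [Real.sqrt_mul (by positivity), mul_inv]

private theorem sum_inv_sqrt (M : ℕ) : ∑ m ∈ Icc 1 M, (Real.sqrt m)⁻¹ ≤ 2 * Real.sqrt M := by
  induction M with
  | zero => simp
  | succ M ih =>
    rw [Finset.sum_Icc_succ_top (by omega)]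
    have h1 : (0 : ℝ) < Real.sqrt ((M + 1 : ℕ) : ℝ) := Real.sqrt_pos.mpr (by positivity)
    have h2 : Real.sqrt ((M + 1 : ℕ) : ℝ) ^ 2 = M + 1 := by
      rw [Real.sq_sqrt (by positivity)]; push_cast; ring
    have h3 : Real.sqrt (M : ℝ) ^ 2 = M := Real.sq_sqrt (by positivity)
    have h4 : (Real.sqrt ((M + 1 : ℕ) : ℝ))⁻¹ ≤ 2 * (Real.sqrt ((M + 1 : ℕ) : ℝ) - Real.sqrt M) := by
      rw [inv_le_iff_one_le_mul₀ h1]
      nlinarith [sq_nonneg (Real.sqrt ((M + 1 : ℕ) : ℝ) - Real.sqrt M)]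
    linarith

private noncomputable def bb (p : ℕ) : ℝ := 1 / (Real.sqrt p - 1)

private theorem sqrt_gt {p : ℕ} (hp : 2 ≤ p) : Real.sqrt p / 4 ≤ Real.sqrt p - 1 ∧ 0 < Real.sqrt p - 1 := by
  have h1 : (Real.sqrt 2) ≤ Real.sqrt p := Real.sqrt_le_sqrt (by exact_mod_cast hp)
  have h2 : (1.4 : ℝ) ≤ Real.sqrt 2 := Real.le_sqrt_of_sq_le (by norm_num)
  constructor <;> linarith

private theorem bb_nonneg {p : ℕ} (hp : 2 ≤ p) : 0 ≤ bb p := by
  have := (sqrt_gt hp).2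
  unfold bb
  positivity

private theorem bb_le {p : ℕ} (hp : 2 ≤ p) : bb p / p ≤ 4 * (1 / (p : ℝ) ^ (3 / 2 : ℝ)) := by
  obtain ⟨h1, h2⟩ := sqrt_gt hp
  have hp0 : (0 : ℝ) < p := by exact_mod_cast (by omega : 0 < p)
  have h3 : (p : ℝ) ^ (3 / 2 : ℝ) = p * Real.sqrt p := by
    rw [show (3 / 2 : ℝ) = 1 + 1 / 2 by norm_num, Real.rpow_add hp0, Real.rpow_one, Real.sqrt_eq_rpow]
  have h4 : (0 : ℝ) < Real.sqrt p := Real.sqrt_pos.mpr hp0
  rw [h3]
  unfold bb
  rw [div_div, mul_one_div, div_le_div_iff₀ (by positivity) (by positivity)]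
  nlinarith [mul_le_mul_of_nonneg_left h1 hp0.le]

/-- the constant -/
private noncomputable def K1 : ℝ := Real.exp (4 * ∑' n : ℕ, 1 / (n : ℝ) ^ (3 / 2 : ℝ))

private theorem prod_bb_le (P : Finset ℕ) (hP : ∀ p ∈ P, 2 ≤ p) : ∏ p ∈ P, (1 + bb p / p) ≤ K1 := by
  have h0 : ∀ p ∈ P, 0 ≤ bb p / p := fun p hp => div_nonneg (bb_nonneg (hP p hp)) (by positivity)
  have hsum : Summable (fun n : ℕ => 1 / (n : ℝ) ^ (3 / 2 : ℝ)) :=
    Real.summable_one_div_nat_rpow.mpr (by norm_num)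
  calc ∏ p ∈ P, (1 + bb p / p) ≤ ∏ p ∈ P, Real.exp (bb p / p) := by
        refine Finset.prod_le_prod (fun p hp => by linarith [h0 p hp]) fun p hp => ?_
        linarith [Real.add_one_le_exp (bb p / p)]
    _ = Real.exp (∑ p ∈ P, bb p / p) := (Real.exp_sum _ _).symm
    _ ≤ K1 := by
        unfold K1
        apply Real.exp_le_exp.mpr
        calc ∑ p ∈ P, bb p / p ≤ ∑ p ∈ P, 4 * (1 / (p : ℝ) ^ (3 / 2 : ℝ)) :=
              Finset.sum_le_sum fun p hp => bb_le (hP p hp)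
          _ = 4 * ∑ p ∈ P, (1 / (p : ℝ) ^ (3 / 2 : ℝ)) := (Finset.mul_sum _ _ _).symm
          _ ≤ 4 * ∑' n : ℕ, 1 / (n : ℝ) ^ (3 / 2 : ℝ) := by
              refine mul_le_mul_of_nonneg_left ?_ (by norm_num)
              exact hsum.sum_le_tsum P fun n _ => by positivity

/-- The Euler product at `1/2`. -/
private noncomputable def GG (r : ℕ) : ℝ := ∏ p ∈ r.primeFactors, (1 + bb p)

private theorem mult_sum (N d : ℕ) (hd : 0 < d) :
    ∑ r ∈ (Icc 1 N).filter (fun r => d ∣ r), (Real.sqrt r)⁻¹ ≤ 2 * Real.sqrt N / d := by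
  have h1 : (Icc 1 N).filter (fun r => d ∣ r) = (Icc 1 (N / d)).image (fun m => d * m) := by
    ext r
    simp only [mem_filter, mem_Icc, mem_image]
    constructor
    · rintro ⟨⟨h1, h2⟩, m, rfl⟩
      refine ⟨m, ⟨Nat.pos_of_ne_zero (by rintro rfl; simp at h1), ?_⟩, rfl⟩
      rw [Nat.le_div_iff_mul_le hd, mul_comm]
      exact h2
    · rintro ⟨m, ⟨h1, h2⟩, rfl⟩
      rw [Nat.le_div_iff_mul_le hd, mul_comm] at h2
      exact ⟨⟨Nat.mul_pos hd h1, h2⟩, Dvd.intro _ rfl⟩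
  rw [h1, Finset.sum_image (fun a _ b _ h => Nat.eq_of_mul_eq_mul_left hd h)]
  have hd' : (0 : ℝ) < d := by exact_mod_cast hd
  have hsd : (0 : ℝ) < Real.sqrt d := Real.sqrt_pos.mpr hd'
  calc ∑ m ∈ Icc 1 (N / d), (Real.sqrt ((d * m : ℕ) : ℝ))⁻¹
      = (Real.sqrt d)⁻¹ * ∑ m ∈ Icc 1 (N / d), (Real.sqrt m)⁻¹ := by
        rw [Finset.mul_sum]
        refine Finset.sum_congr rfl fun m _ => ?_
        push_cast
        rw [Real.sqrt_mul hd'.le, mul_inv]
    _ ≤ (Real.sqrt d)⁻¹ * (2 * Real.sqrt (N / d : ℕ)) :=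
        mul_le_mul_of_nonneg_left (sum_inv_sqrt _) (by positivity)
    _ ≤ (Real.sqrt d)⁻¹ * (2 * (Real.sqrt N / Real.sqrt d)) := by
        refine mul_le_mul_of_nonneg_left ?_ (by positivity)
        refine mul_le_mul_of_nonneg_left ?_ (by norm_num)
        rw [← Real.sqrt_div (by positivity)]
        exact Real.sqrt_le_sqrt Nat.cast_div_le
    _ = 2 * Real.sqrt N / d := by
        have h2 : Real.sqrt d * Real.sqrt d = d := Real.mul_self_sqrt hd'.le
        field_simp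
        rw [sq, h2]
        ring

private theorem sum_GG (N : ℕ) :
    ∑ r ∈ (Icc 1 N).filter Squarefree, (Real.sqrt r)⁻¹ * GG r ≤ 2 * K1 * Real.sqrt N := by
  classical
  set P : Finset ℕ := (Icc 1 N).filter Nat.Prime with hP
  have hP2 : ∀ p ∈ P, 2 ≤ p := fun p hp => (mem_filter.1 hp).2.two_le
  have h1 : ∀ r ∈ (Icc 1 N).filter Squarefree, GG r =
      ∑ T ∈ P.powerset, if T ⊆ r.primeFactors then ∏ p ∈ T, bb p else 0 := by
    intro r hr
    rw [mem_filter, mem_Icc] at hr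
    unfold GG
    rw [Finset.prod_one_add, ← Finset.sum_filter]
    refine Finset.sum_congr ?_ fun _ _ => rfl
    ext T
    rw [mem_powerset, mem_filter, mem_powerset]
    constructor
    · intro h
      refine ⟨fun p hp => ?_, h⟩
      have h2 := h hp
      rw [hP, mem_filter, mem_Icc]
      have h3 := Nat.prime_of_mem_primeFactors h2
      exact ⟨⟨h3.one_le, (Nat.le_of_dvd (by omega) (Nat.dvd_of_mem_primeFactors h2)).trans hr.1.2⟩, h3⟩
    · exact fun h => h.2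
  calc ∑ r ∈ (Icc 1 N).filter Squarefree, (Real.sqrt r)⁻¹ * GG r
      = ∑ r ∈ (Icc 1 N).filter Squarefree, ∑ T ∈ P.powerset,
          (if T ⊆ r.primeFactors then (∏ p ∈ T, bb p) * (Real.sqrt r)⁻¹ else 0) := by
        refine Finset.sum_congr rfl fun r hr => ?_
        rw [h1 r hr, Finset.mul_sum]
        refine Finset.sum_congr rfl fun T _ => ?_
        split_ifs
        · ring
        · ring
    _ = ∑ T ∈ P.powerset, ∑ r ∈ (Icc 1 N).filter Squarefree,
          (if T ⊆ r.primeFactors then (∏ p ∈ T, bb p) * (Real.sqrt r)⁻¹ else 0) := Finset.sum_comm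
    _ ≤ ∑ T ∈ P.powerset, 2 * Real.sqrt N * ∏ p ∈ T, (bb p / p) := by
        refine Finset.sum_le_sum fun T hT => ?_
        rw [mem_powerset] at hT
        have hT2 : ∀ p ∈ T, 2 ≤ p := fun p hp => hP2 p (hT hp)
        have hbT : 0 ≤ ∏ p ∈ T, bb p := Finset.prod_nonneg fun p hp => bb_nonneg (hT2 p hp)
        have hd : 0 < ∏ p ∈ T, p := Finset.prod_pos fun p hp => by have := hT2 p hp; omega
        rw [← Finset.sum_filter]
        calc ∑ r ∈ ((Icc 1 N).filter Squarefree).filter (fun r => T ⊆ r.primeFactors),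
              (∏ p ∈ T, bb p) * (Real.sqrt r)⁻¹
            ≤ ∑ r ∈ (Icc 1 N).filter (fun r => (∏ p ∈ T, p) ∣ r), (∏ p ∈ T, bb p) * (Real.sqrt r)⁻¹ := by
              refine Finset.sum_le_sum_of_subset_of_nonneg ?_ fun _ _ _ => by positivity
              intro r hr
              rw [mem_filter, mem_filter] at hr
              rw [mem_filter]
              exact ⟨hr.1.1, (Finset.prod_dvd_prod_of_subset _ _ _ hr.2).trans (Nat.prod_primeFactors_dvd r)⟩
          _ = (∏ p ∈ T, bb p) * ∑ r ∈ (Icc 1 N).filter (fun r => (∏ p ∈ T, p) ∣ r), (Real.sqrt r)⁻¹ :=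
              (Finset.mul_sum _ _ _).symm
          _ ≤ (∏ p ∈ T, bb p) * (2 * Real.sqrt N / (∏ p ∈ T, p : ℕ)) :=
              mul_le_mul_of_nonneg_left (mult_sum N _ hd) hbT
          _ = 2 * Real.sqrt N * ∏ p ∈ T, (bb p / p) := by
              rw [Finset.prod_div_distrib]
              push_cast
              ring
    _ = 2 * Real.sqrt N * ∏ p ∈ P, (1 + bb p / p) := by
        rw [← Finset.mul_sum, Finset.prod_one_add]
    _ ≤ 2 * Real.sqrt N * K1 :=
        mul_le_mul_of_nonneg_left (prod_bb_le P hP2) (by positivity)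
    _ = 2 * K1 * Real.sqrt N := by ring

private theorem euler1 {r : ℕ} (hr : Squarefree r) :
    HasSum (fun m : Nat.factoredNumbers r.primeFactors => ((m : ℕ) : ℝ)⁻¹) (r / Nat.totient r) := by
  have h := (EulerProduct.summable_and_hasSum_factoredNumbers_prod_filter_prime_geometric
    (f := ivH) (fun {p} hp => by
      show ‖(p : ℝ)⁻¹‖ < 1
      rw [norm_inv, Real.norm_natCast]
      exact inv_lt_one_of_one_lt₀ (by exact_mod_cast hp.one_lt)) r.primeFactors).2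
  have h1 : r.primeFactors.filter Nat.Prime = r.primeFactors :=
    Finset.filter_true_of_mem fun p hp => Nat.prime_of_mem_primeFactors hp
  rw [h1] at h
  have h2 : ∏ p ∈ r.primeFactors, (1 - ivH p)⁻¹ = (r : ℝ) / Nat.totient r := by
    have h3 := Nat.totient_eq_mul_prod_factors r
    have h4 : ((Nat.totient r : ℕ) : ℝ) = r * ∏ p ∈ r.primeFactors, (1 - (p : ℝ)⁻¹) := by
      have := congrArg (fun q : ℚ => (q : ℝ)) h3
      push_cast at this
      exact this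
    have hr0 : (r : ℝ) ≠ 0 := by exact_mod_cast hr.ne_zero
    have h5 : (Nat.totient r : ℝ) ≠ 0 := by
      exact_mod_cast (Nat.totient_pos.mpr (Nat.pos_of_ne_zero hr.ne_zero)).ne'
    rw [Finset.prod_inv_distrib, h4]
    rw [h4] at h5
    have h6 : ∏ p ∈ r.primeFactors, (1 - (p : ℝ)⁻¹) ≠ 0 := right_ne_zero_of_mul h5
    show (∏ p ∈ r.primeFactors, (1 - (p : ℝ)⁻¹))⁻¹ = _
    field_simp
  rw [h2] at h
  exact h

private theorem euler2 (r : ℕ) :
    HasSum (fun m : Nat.factoredNumbers r.primeFactors => (Real.sqrt ((m : ℕ) : ℝ))⁻¹) (GG r) := by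
  have h := (EulerProduct.summable_and_hasSum_factoredNumbers_prod_filter_prime_geometric
    (f := sqH) (fun {p} hp => by
      show ‖(Real.sqrt p)⁻¹‖ < 1
      have := (sqrt_gt hp.two_le).2
      rw [norm_inv, Real.norm_of_nonneg (Real.sqrt_nonneg _)]
      exact inv_lt_one_of_one_lt₀ (by linarith)) r.primeFactors).2
  have h1 : r.primeFactors.filter Nat.Prime = r.primeFactors :=
    Finset.filter_true_of_mem fun p hp => Nat.prime_of_mem_primeFactors hp
  rw [h1] at h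
  have h2 : ∏ p ∈ r.primeFactors, (1 - sqH p)⁻¹ = GG r := by
    unfold GG
    refine Finset.prod_congr rfl fun p hp => ?_
    have h3 := (sqrt_gt (Nat.prime_of_mem_primeFactors hp).two_le).2
    have h4 : (0 : ℝ) < Real.sqrt p := by linarith
    show (1 - (Real.sqrt p)⁻¹)⁻¹ = 1 + bb p
    unfold bb
    have h5 : 1 - (Real.sqrt p)⁻¹ = (Real.sqrt p - 1) / Real.sqrt p := by field_simp
    rw [h5, inv_div]
    field_simp
    ring
  rw [h2] at h
  exact h

/-- The truncated sums. -/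
private noncomputable def Ar (N r : ℕ) : ℝ :=
  open Classical in ∑ m ∈ (Icc 1 (N / r)).filter (fun m => m ∈ Nat.factoredNumbers r.primeFactors), (m : ℝ)⁻¹

private theorem Ar_sum (N r : ℕ) (t : Finset (Nat.factoredNumbers r.primeFactors)) :
    ∑ m ∈ t.filter (fun m : Nat.factoredNumbers r.primeFactors => (m : ℕ) ≤ N / r), ((m : ℕ) : ℝ)⁻¹ ≤ Ar N r := by
  classical
  unfold Ar
  have h1 : ∑ m ∈ t.filter (fun m : Nat.factoredNumbers r.primeFactors => (m : ℕ) ≤ N / r), ((m : ℕ) : ℝ)⁻¹ =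
      ∑ m ∈ (t.filter (fun m : Nat.factoredNumbers r.primeFactors => (m : ℕ) ≤ N / r)).map (Function.Embedding.subtype _), ((m : ℕ) : ℝ)⁻¹ := by
    rw [Finset.sum_map]
    rfl
  rw [h1]
  refine Finset.sum_le_sum_of_subset_of_nonneg ?_ fun _ _ _ => by positivity
  intro m hm
  rw [Finset.mem_map] at hm
  obtain ⟨a, ha, rfl⟩ := hm
  rw [mem_filter] at ha
  rw [mem_filter, mem_Icc]
  have h2 : (a : ℕ) ≠ 0 := a.2.1
  exact ⟨⟨Nat.pos_of_ne_zero h2, ha.2⟩, a.2⟩

private theorem Ar_le {N r : ℕ} (hr : Squarefree r) : Ar N r ≤ r / Nat.totient r := by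
  classical
  have h := euler1 hr
  have h1 : Ar N r = ∑ m ∈ ((Icc 1 (N / r)).subtype (fun m => m ∈ Nat.factoredNumbers r.primeFactors)),
      ((m : ℕ) : ℝ)⁻¹ := by
    unfold Ar
    rw [Finset.sum_subtype_eq_sum_filter (f := fun m : ℕ => (m : ℝ)⁻¹)]
  rw [h1]
  exact sum_le_hasSum _ (fun m _ => by positivity) h

private theorem le_Ar {N r : ℕ} (hN : 1 ≤ N) (hr : Squarefree r) :
    (r : ℝ) / Nat.totient r ≤ Ar N r + (Real.sqrt r / Real.sqrt N) * GG r := by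
  classical
  have h := euler1 hr
  have h2 := euler2 r
  have hr0 : 0 < r := Nat.pos_of_ne_zero hr.ne_zero
  have hr1 : (0 : ℝ) < r := by exact_mod_cast hr0
  have hN1 : (0 : ℝ) < N := by exact_mod_cast hN
  refine hasSum_le_of_sum_le h fun t => ?_
  have h3 : ∑ m ∈ t, ((m : ℕ) : ℝ)⁻¹ ≤ ∑ m ∈ t.filter (fun m : Nat.factoredNumbers r.primeFactors => (m : ℕ) ≤ N / r), ((m : ℕ) : ℝ)⁻¹ +
      ∑ m ∈ t, (Real.sqrt r / Real.sqrt N) * (Real.sqrt ((m : ℕ) : ℝ))⁻¹ := by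
    rw [Finset.sum_filter, ← Finset.sum_add_distrib]
    refine Finset.sum_le_sum fun m _ => ?_
    have hm0 : (m : ℕ) ≠ 0 := m.2.1
    have hm1 : (0 : ℝ) < (m : ℕ) := by exact_mod_cast Nat.pos_of_ne_zero hm0
    split_ifs with h4
    · have : 0 ≤ (Real.sqrt r / Real.sqrt N) * (Real.sqrt ((m : ℕ) : ℝ))⁻¹ := by positivity
      linarith
    · rw [zero_add]
      have h5 : N < (m : ℕ) * r := by
        by_contra h6
        apply h4
        rw [Nat.le_div_iff_mul_le hr0]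
        omega
      have h6 : (N : ℝ) < (m : ℕ) * r := by exact_mod_cast h5
      have hsm : 0 < Real.sqrt ((m : ℕ) : ℝ) := Real.sqrt_pos.mpr hm1
      have hsN : 0 < Real.sqrt (N : ℝ) := Real.sqrt_pos.mpr hN1
      have h7 : Real.sqrt N ≤ Real.sqrt ((m : ℕ) : ℝ) * Real.sqrt r := by
        rw [← Real.sqrt_mul hm1.le]
        exact Real.sqrt_le_sqrt h6.le
      have h8 : ((m : ℕ) : ℝ) = Real.sqrt ((m : ℕ) : ℝ) * Real.sqrt ((m : ℕ) : ℝ) :=
        (Real.mul_self_sqrt hm1.le).symm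
      calc (((m : ℕ) : ℝ))⁻¹ = (Real.sqrt ((m : ℕ) : ℝ))⁻¹ * (Real.sqrt ((m : ℕ) : ℝ))⁻¹ := by
            conv_lhs => rw [h8]
            rw [mul_inv]
        _ ≤ (Real.sqrt r / Real.sqrt N) * (Real.sqrt ((m : ℕ) : ℝ))⁻¹ := by
            refine mul_le_mul_of_nonneg_right ?_ (by positivity)
            rw [le_div_iff₀ hsN, inv_mul_le_iff₀ hsm]
            exact h7
  refine h3.trans (add_le_add (Ar_sum N r t) ?_)
  rw [← Finset.mul_sum]
  refine mul_le_mul_of_nonneg_left ?_ (by positivity)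
  exact sum_le_hasSum t (fun m _ => by positivity) h2

private theorem Ar_total (N : ℕ) :
    ∑ r ∈ (Icc 1 N).filter Squarefree, (r : ℝ)⁻¹ * Ar N r = ∑ n ∈ Icc 1 N, (n : ℝ)⁻¹ := by
  classical
  have hR : ∀ n ∈ Icc 1 N, (∏ p ∈ n.primeFactors, p) ∈ (Icc 1 N).filter Squarefree := by
    intro n hn
    rw [mem_Icc] at hn
    rw [mem_filter, mem_Icc]
    have h1 : (∏ p ∈ n.primeFactors, p) ∣ n := Nat.prod_primeFactors_dvd n
    refine ⟨⟨Finset.prod_pos fun p hp => (Nat.prime_of_mem_primeFactors hp).pos,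
      (Nat.le_of_dvd (by omega) h1).trans hn.2⟩, ?_⟩
    exact (Nat.squarefree_iff_prime_squarefree).2 fun q hq hqq => by
      have h2 := Nat.primeFactors_prod_primeFactors n
      have h3 : q ∈ n.primeFactors := by
        rw [← h2]
        exact Nat.mem_primeFactors.2 ⟨hq, (dvd_mul_left q q).trans hqq,
          (Finset.prod_pos fun p hp => (Nat.prime_of_mem_primeFactors hp).pos).ne'⟩
      rw [← Finset.mul_prod_erase _ _ h3] at hqq
      have h4 : q ∣ ∏ p ∈ n.primeFactors.erase q, p := Nat.dvd_of_mul_dvd_mul_left hq.pos hqq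
      obtain ⟨p, hp, hqp⟩ := (Prime.dvd_finsetProd_iff (Nat.prime_iff.1 hq) _).1 h4
      rw [Finset.mem_erase] at hp
      exact hp.1 ((Nat.prime_dvd_prime_iff_eq hq (Nat.prime_of_mem_primeFactors hp.2)).1 hqp).symm
  rw [← Finset.sum_fiberwise_of_maps_to hR]
  refine Finset.sum_congr rfl fun r hr => ?_
  rw [mem_filter, mem_Icc] at hr
  have hr0 : 0 < r := hr.1.1
  unfold Ar
  rw [Finset.mul_sum]
  refine Finset.sum_nbij (fun m => r * m) ?_ ?_ ?_ ?_
  · intro m hm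
    rw [mem_filter, mem_Icc, Nat.le_div_iff_mul_le hr0] at hm
    rw [mem_filter, mem_Icc]
    refine ⟨⟨Nat.mul_pos hr0 hm.1.1, by rw [mul_comm]; exact hm.1.2⟩, ?_⟩
    have h1 : (r * m).primeFactors = r.primeFactors := by
      rw [Nat.primeFactors_mul hr0.ne' (by omega)]
      exact Finset.union_eq_left.mpr (Nat.primeFactors_subset_of_mem_factoredNumbers hm.2)
    rw [h1]
    exact Nat.prod_primeFactors_of_squarefree hr.2
  · intro a _ b _ h
    exact Nat.eq_of_mul_eq_mul_left hr0 h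
  · intro n hn
    rw [Finset.mem_coe, mem_filter, mem_Icc] at hn
    obtain ⟨⟨h1, h2⟩, h3⟩ := hn
    have h4 : r ∣ n := by rw [← h3]; exact Nat.prod_primeFactors_dvd n
    obtain ⟨m, rfl⟩ := h4
    have hm0 : m ≠ 0 := by rintro rfl; simp at h1
    refine ⟨m, ?_, rfl⟩
    rw [Finset.mem_coe, mem_filter, mem_Icc, Nat.le_div_iff_mul_le hr0]
    refine ⟨⟨Nat.pos_of_ne_zero hm0, by rw [mul_comm]; exact h2⟩, ?_⟩
    rw [Nat.mem_factoredNumbers_iff_primeFactors_subset]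
    refine ⟨hm0, ?_⟩
    have h5 := Nat.primeFactors_prod_primeFactors (r * m)
    rw [h3] at h5
    rw [h5]
    exact Nat.primeFactors_mono (dvd_mul_left m r) (by positivity)
  · intro m _
    push_cast
    rw [mul_inv]

theorem phi_sum : ∃ C : ℝ, 0 < C ∧ ∀ x : ℝ, 1 ≤ x →
    |(∑ r ∈ (Finset.Icc 1 ⌊x⌋₊).filter Squarefree, 1 / (Nat.totient r : ℝ)) - Real.log x| ≤ C := by
  have hK : 0 < K1 := Real.exp_pos _
  refine ⟨1 + 2 * K1, by positivity, fun x hx => ?_⟩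
  set N := ⌊x⌋₊ with hN
  have hN1 : 1 ≤ N := Nat.floor_pos.mpr hx
  have hNr : (0 : ℝ) < N := by exact_mod_cast hN1
  have hharm : ((harmonic N : ℚ) : ℝ) = ∑ n ∈ Icc 1 N, (n : ℝ)⁻¹ := by
    rw [harmonic_eq_sum_Icc]
    push_cast
    rfl
  have h1 : Real.log x ≤ ∑ n ∈ Icc 1 N, (n : ℝ)⁻¹ := by
    rw [← hharm]
    exact log_le_harmonic_floor x (by linarith)
  have h2 : ∑ n ∈ Icc 1 N, (n : ℝ)⁻¹ ≤ 1 + Real.log x := by
    rw [← hharm]
    exact harmonic_floor_le_one_add_log x hx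
  have hphi : ∀ r ∈ (Icc 1 N).filter Squarefree, 1 / (Nat.totient r : ℝ) =
      (r : ℝ)⁻¹ * ((r : ℝ) / Nat.totient r) := by
    intro r hr
    rw [mem_filter, mem_Icc] at hr
    have : (r : ℝ) ≠ 0 := by exact_mod_cast (by omega : r ≠ 0)
    field_simp
  rw [Finset.sum_congr rfl hphi, abs_le]
  constructor
  · have h3 : ∑ r ∈ (Icc 1 N).filter Squarefree, (r : ℝ)⁻¹ * Ar N r ≤
        ∑ r ∈ (Icc 1 N).filter Squarefree, (r : ℝ)⁻¹ * ((r : ℝ) / Nat.totient r) := by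
      refine Finset.sum_le_sum fun r hr => ?_
      exact mul_le_mul_of_nonneg_left (Ar_le (mem_filter.1 hr).2) (by positivity)
    rw [Ar_total] at h3
    linarith
  · have h3 : ∑ r ∈ (Icc 1 N).filter Squarefree, (r : ℝ)⁻¹ * ((r : ℝ) / Nat.totient r) ≤
        ∑ r ∈ (Icc 1 N).filter Squarefree, (r : ℝ)⁻¹ * Ar N r +
        (Real.sqrt N)⁻¹ * ∑ r ∈ (Icc 1 N).filter Squarefree, (Real.sqrt r)⁻¹ * GG r := by
      rw [Finset.mul_sum, ← Finset.sum_add_distrib]
      refine Finset.sum_le_sum fun r hr => ?_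
      have hr' := hr
      rw [mem_filter, mem_Icc] at hr'
      have hr1 : (0 : ℝ) < r := by exact_mod_cast hr'.1.1
      have h4 := mul_le_mul_of_nonneg_left (le_Ar hN1 (mem_filter.1 hr).2) (inv_nonneg.mpr hr1.le)
      refine h4.trans (le_of_eq ?_)
      have h5 : Real.sqrt r * Real.sqrt r = r := Real.mul_self_sqrt hr1.le
      have h6 : (0 : ℝ) < Real.sqrt r := Real.sqrt_pos.mpr hr1
      have h7 : (r : ℝ)⁻¹ * Real.sqrt r = (Real.sqrt r)⁻¹ := by
        rw [inv_mul_eq_div, div_eq_iff hr1.ne', ← div_eq_inv_mul, eq_div_iff h6.ne', h5]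
      calc (r : ℝ)⁻¹ * (Ar N r + Real.sqrt r / Real.sqrt N * GG r)
          = (r : ℝ)⁻¹ * Ar N r + ((r : ℝ)⁻¹ * Real.sqrt r) * (Real.sqrt N)⁻¹ * GG r := by ring
        _ = _ := by rw [h7]; ring
    rw [Ar_total] at h3
    have h8 : (Real.sqrt N)⁻¹ * ∑ r ∈ (Icc 1 N).filter Squarefree, (Real.sqrt r)⁻¹ * GG r ≤ 2 * K1 := by
      have h9 : (0 : ℝ) < Real.sqrt N := Real.sqrt_pos.mpr hNr
      rw [inv_mul_le_iff₀ h9]
      calc _ ≤ 2 * K1 * Real.sqrt N := sum_GG N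
        _ = Real.sqrt N * (2 * K1) := by ring
    linarith

end Pool.Agent.Helper69.FF
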