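import Pool.Agent.Helper69.FF.Lim

/-!
# FF-XCut: choice of the cut-offs for a general weight

As `cut` (FF.Lim) for a weight supported in `[a, b]` with arbitrary `b`: `w1 = χ2 w`, `w2 = (1 - χ2) w` with `χ2 = 1` for `x ≤ 3/2 - 2η`, `0` for `x ≥ 3/2 - η`; `w0 = χ0 w` as before, and
`v = χ1 χ3 w` with `χ3 = 1` for `x ≤ 3/2 - 4η`, `0` for `x ≥ 3/2 - 3η` (so `b' = 3/2 - 3η < a2 = 3/2 - 2η`). All changes cost at most `C η sup w²`. (Simplest: apply the estimates of FF.Lim, or redo them.)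
-/

open MeasureTheory Set Filter Topology
open Pool.Agent.Helper57.Zeta Pool.Agent.Helper57.PC Pool.Agent.Helper57.LH Pool.Agent.Helper78.SG
open Pool.Agent.Helper4.SH (om)
open scoped ContDiff

namespace Pool.Agent.Helper69.FF

private lemma intX40 {f : ℝ → ℝ} {a b : ℝ} (hf : Continuous f) (h : ∀ x, f x ≠ 0 → a ≤ x ∧ x ≤ b) :
    Integrable f :=
  hf.integrable_of_hasCompactSupport
    (HasCompactSupport.intro (isCompact_Icc (a := a) (b := b)) (fun x hx => by
      by_contra h'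
      exact hx (h x h')))

private lemma conX40 (c u v : ℝ) : IntegrableOn (fun _ : ℝ => c) (Ioc u v) :=
  continuous_const.integrableOn_Ioc

private lemma AX40 {w χ : ℝ → ℝ} {a b : ℝ} (hw : Continuous w) (hs : ∀ x, w x ≠ 0 → a ≤ x ∧ x ≤ b)
    (hχ : Continuous χ) (h0 : ∀ x, 0 ≤ χ x) (h1 : ∀ x, χ x ≤ 1) {η M : ℝ} (hη : 0 < η) (hη2 : 2 * η ≤ 1)
    (hχ1 : ∀ x, x ≤ 1 - 2 * η → χ x = 1) (hM : ∀ x, w x ^ 2 ≤ M) :
    (∫ x in (0:ℝ)..1, x * w x ^ 2) - 2 * η * M ≤
      2 * (∫ x in Ioi (0:ℝ), x * (w x * (χ x * w x))) - ∫ x in Ioi (0:ℝ), x * ((χ x * w x) * (χ x * w x)) := by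
  have hM0 : 0 ≤ M := (sq_nonneg _).trans (hM 0)
  have i1 : Integrable (fun x => x * (w x * (χ x * w x))) :=
    intX40 (by fun_prop) (fun x hx => hs x (fun h => hx (by rw [h]; ring)))
  have i2 : Integrable (fun x => x * ((χ x * w x) * (χ x * w x))) :=
    intX40 (by fun_prop) (fun x hx => hs x (fun h => hx (by rw [h]; ring)))
  have i3 : Integrable (fun x => x * w x ^ 2) :=
    intX40 (by fun_prop) (fun x hx => hs x (fun h => hx (by rw [h]; ring)))
  have e1 : 2 * (∫ x in Ioi (0:ℝ), x * (w x * (χ x * w x))) - ∫ x in Ioi (0:ℝ), x * ((χ x * w x) * (χ x * w x)) =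
      ∫ x in Ioi (0:ℝ), (2 * (x * (w x * (χ x * w x))) - x * ((χ x * w x) * (χ x * w x))) := by
    rw [integral_sub (i1.const_mul 2).integrableOn i2.integrableOn, integral_const_mul]
  have i4 : Integrable (fun x => 2 * (x * (w x * (χ x * w x))) - x * ((χ x * w x) * (χ x * w x))) :=
    (i1.const_mul 2).sub i2
  have hq : ∀ x, 2 * (x * (w x * (χ x * w x))) - x * ((χ x * w x) * (χ x * w x)) =
      x * w x ^ 2 - x * w x ^ 2 * (1 - χ x) ^ 2 := by
    intro x
    ring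
  have e2 : ∫ x in Ioc (0:ℝ) 1, (2 * (x * (w x * (χ x * w x))) - x * ((χ x * w x) * (χ x * w x))) ≤
      ∫ x in Ioi (0:ℝ), (2 * (x * (w x * (χ x * w x))) - x * ((χ x * w x) * (χ x * w x))) := by
    refine setIntegral_mono_set i4.integrableOn ?_ (HasSubset.Subset.eventuallyLE Ioc_subset_Ioi_self)
    refine (ae_restrict_mem measurableSet_Ioi).mono fun x hx => ?_
    have hx0 : (0:ℝ) < x := hx
    show (0:ℝ) ≤ 2 * (x * (w x * (χ x * w x))) - x * ((χ x * w x) * (χ x * w x))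
    rw [hq]
    have h2 : (1 - χ x) ^ 2 ≤ 1 := by nlinarith [h0 x, h1 x]
    nlinarith [mul_nonneg hx0.le (sq_nonneg (w x))]
  have e3 : (∫ x in (0:ℝ)..1, x * w x ^ 2) = ∫ x in Ioc (0:ℝ) 1, x * w x ^ 2 :=
    intervalIntegral.integral_of_le zero_le_one
  have hind : IntegrableOn (fun x : ℝ => indicator (Ioc (1 - 2 * η) 1) (fun _ => M) x) (Ioc (0:ℝ) 1) := by
    refine Integrable.integrableOn ?_
    rw [integrable_indicator_iff measurableSet_Ioc]
    exact conX40 _ _ _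
  have e4 : ∫ x in Ioc (0:ℝ) 1, indicator (Ioc (1 - 2 * η) 1) (fun _ => M) x = 2 * η * M := by
    rw [setIntegral_indicator measurableSet_Ioc]
    have : Ioc (0:ℝ) 1 ∩ Ioc (1 - 2 * η) 1 = Ioc (1 - 2 * η) 1 := by
      apply inter_eq_right.mpr
      exact Ioc_subset_Ioc_left (by linarith)
    rw [this, setIntegral_const]
    simp [Measure.real]
    left
    linarith
  have e5 : ∫ x in Ioc (0:ℝ) 1, (x * w x ^ 2 - indicator (Ioc (1 - 2 * η) 1) (fun _ => M) x) ≤
      ∫ x in Ioc (0:ℝ) 1, (2 * (x * (w x * (χ x * w x))) - x * ((χ x * w x) * (χ x * w x))) := by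
    refine setIntegral_mono_on (i3.integrableOn.sub hind) i4.integrableOn measurableSet_Ioc fun x hx => ?_
    rw [hq]
    have hx0 : 0 < x := hx.1
    by_cases hx1 : x ≤ 1 - 2 * η
    · rw [hχ1 x hx1, indicator_of_notMem (fun h => absurd h.1 (not_lt.mpr hx1))]
      simp
    · rw [indicator_of_mem (show x ∈ Ioc (1 - 2 * η) 1 from ⟨not_le.mp hx1, hx.2⟩)]
      have h2 : (1 - χ x) ^ 2 ≤ 1 := by nlinarith [h0 x, h1 x]
      have h3 : x * w x ^ 2 ≤ M := by nlinarith [hM x, sq_nonneg (w x), hx.2]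
      nlinarith [mul_nonneg hx0.le (sq_nonneg (w x)), sq_nonneg (1 - χ x)]
  rw [integral_sub i3.integrableOn hind, e4] at e5
  rw [e1, e3]
  linarith

private lemma BX40 {w χ : ℝ → ℝ} {a b : ℝ} (hw : Continuous w) (hs : ∀ x, w x ≠ 0 → a ≤ x ∧ x ≤ b)
    (hχ : Continuous χ) (h0 : ∀ x, 0 ≤ χ x) (h1 : ∀ x, χ x ≤ 1) {η M e : ℝ} (hη : 0 < η) (hη2 : 2 * η ≤ 1 / 2)
    (he : 0 < e) (hχ1 : ∀ x, 1 + 2 * η ≤ x → χ x = 1) (hM : ∀ x, w x ^ 2 ≤ M) :
    (∫ x in (1:ℝ)..(3 / 2), (3 / 2 - x) * w x ^ 2) - (e + 2 * η) * M ≤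
      2 * VE e (fun x => w x * (χ x * w x)) - VE e (fun x => (χ x * w x) ^ 2) := by
  have hM0 : 0 ≤ M := (sq_nonneg _).trans (hM 0)
  unfold VE
  have i1 : Integrable (fun x => max (3 / 2 - x - 2 * e) 0 * (w x * (χ x * w x))) :=
    intX40 (by fun_prop) (fun x hx => hs x (fun h => hx (by rw [h]; ring)))
  have i2 : Integrable (fun x => max (3 / 2 - x - 2 * e) 0 * (χ x * w x) ^ 2) :=
    intX40 (by fun_prop) (fun x hx => hs x (fun h => hx (by rw [h]; ring)))
  have i3 : Integrable (fun x => (3 / 2 - x) * w x ^ 2) :=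
    intX40 (by fun_prop) (fun x hx => hs x (fun h => hx (by rw [h]; ring)))
  have e1 : 2 * (∫ x in Ioi (1:ℝ), max (3 / 2 - x - 2 * e) 0 * (w x * (χ x * w x))) -
      ∫ x in Ioi (1:ℝ), max (3 / 2 - x - 2 * e) 0 * (χ x * w x) ^ 2 =
      ∫ x in Ioi (1:ℝ), (2 * (max (3 / 2 - x - 2 * e) 0 * (w x * (χ x * w x))) -
        max (3 / 2 - x - 2 * e) 0 * (χ x * w x) ^ 2) := by
    rw [integral_sub (i1.const_mul 2).integrableOn i2.integrableOn, integral_const_mul]
  have i4 : Integrable (fun x => 2 * (max (3 / 2 - x - 2 * e) 0 * (w x * (χ x * w x))) -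
      max (3 / 2 - x - 2 * e) 0 * (χ x * w x) ^ 2) :=
    (i1.const_mul 2).sub i2
  have hq : ∀ x, 2 * (max (3 / 2 - x - 2 * e) 0 * (w x * (χ x * w x))) -
      max (3 / 2 - x - 2 * e) 0 * (χ x * w x) ^ 2 =
      max (3 / 2 - x - 2 * e) 0 * w x ^ 2 - max (3 / 2 - x - 2 * e) 0 * w x ^ 2 * (1 - χ x) ^ 2 := by
    intro x
    ring
  have hm0 : ∀ x : ℝ, 0 ≤ max (3 / 2 - x - 2 * e) 0 := fun x => le_max_right _ _
  have e2 : ∫ x in Ioc (1:ℝ) (3 / 2), (2 * (max (3 / 2 - x - 2 * e) 0 * (w x * (χ x * w x))) -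
        max (3 / 2 - x - 2 * e) 0 * (χ x * w x) ^ 2) ≤
      ∫ x in Ioi (1:ℝ), (2 * (max (3 / 2 - x - 2 * e) 0 * (w x * (χ x * w x))) -
        max (3 / 2 - x - 2 * e) 0 * (χ x * w x) ^ 2) := by
    refine setIntegral_mono_set i4.integrableOn ?_ (HasSubset.Subset.eventuallyLE Ioc_subset_Ioi_self)
    refine Eventually.of_forall fun x => ?_
    show (0:ℝ) ≤ 2 * (max (3 / 2 - x - 2 * e) 0 * (w x * (χ x * w x))) -
        max (3 / 2 - x - 2 * e) 0 * (χ x * w x) ^ 2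
    rw [hq]
    have h2 : (1 - χ x) ^ 2 ≤ 1 := by nlinarith [h0 x, h1 x]
    nlinarith [mul_nonneg (hm0 x) (sq_nonneg (w x))]
  have e3 : (∫ x in (1:ℝ)..(3 / 2), (3 / 2 - x) * w x ^ 2) = ∫ x in Ioc (1:ℝ) (3 / 2), (3 / 2 - x) * w x ^ 2 :=
    intervalIntegral.integral_of_le (by norm_num)
  have hind : IntegrableOn (fun x : ℝ => indicator (Ioc (1:ℝ) (1 + 2 * η)) (fun _ => M) x) (Ioc (1:ℝ) (3 / 2)) := by
    refine Integrable.integrableOn ?_
    rw [integrable_indicator_iff measurableSet_Ioc]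
    exact conX40 _ _ _
  have hcon : IntegrableOn (fun _ : ℝ => 2 * e * M) (Ioc (1:ℝ) (3 / 2)) :=
    conX40 _ _ _
  have e4 : ∫ x in Ioc (1:ℝ) (3 / 2), indicator (Ioc (1:ℝ) (1 + 2 * η)) (fun _ => M) x = 2 * η * M := by
    rw [setIntegral_indicator measurableSet_Ioc]
    have : Ioc (1:ℝ) (3 / 2) ∩ Ioc (1:ℝ) (1 + 2 * η) = Ioc (1:ℝ) (1 + 2 * η) := by
      apply inter_eq_right.mpr
      exact Ioc_subset_Ioc_right (by linarith)
    rw [this, setIntegral_const]
    simp [Measure.real]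
    left
    linarith
  have hsum : IntegrableOn (fun x : ℝ => indicator (Ioc (1:ℝ) (1 + 2 * η)) (fun _ => M) x + 2 * e * M)
      (Ioc (1:ℝ) (3 / 2)) := hind.add hcon
  have e6 : ∫ x in Ioc (1:ℝ) (3 / 2), 2 * e * M = e * M := by
    rw [setIntegral_const]
    simp only [Measure.real, Real.volume_Ioc, smul_eq_mul]
    rw [ENNReal.toReal_ofReal (by norm_num)]
    ring
  have e5 : ∫ x in Ioc (1:ℝ) (3 / 2), ((3 / 2 - x) * w x ^ 2 - (indicator (Ioc (1:ℝ) (1 + 2 * η)) (fun _ => M) x + 2 * e * M)) ≤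
      ∫ x in Ioc (1:ℝ) (3 / 2), (2 * (max (3 / 2 - x - 2 * e) 0 * (w x * (χ x * w x))) -
        max (3 / 2 - x - 2 * e) 0 * (χ x * w x) ^ 2) := by
    refine setIntegral_mono_on (i3.integrableOn.sub hsum) i4.integrableOn measurableSet_Ioc fun x hx => ?_
    rw [hq]
    have hx0 : 1 < x := hx.1
    have hx3 : x ≤ 3 / 2 := hx.2
    have hm1 : 3 / 2 - x - 2 * e ≤ max (3 / 2 - x - 2 * e) 0 := le_max_left _ _
    have hm2 : max (3 / 2 - x - 2 * e) 0 ≤ 1 / 2 := max_le (by linarith) (by norm_num)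
    have hm3 := hm0 x
    generalize max (3 / 2 - x - 2 * e) 0 = m at hm1 hm2 hm3 ⊢
    have h5 : (3 / 2 - x) * w x ^ 2 ≤ m * w x ^ 2 + 2 * e * M := by
      have : (3 / 2 - x) * w x ^ 2 ≤ (m + 2 * e) * w x ^ 2 := mul_le_mul_of_nonneg_right (by linarith) (sq_nonneg _)
      have h6 : 2 * e * w x ^ 2 ≤ 2 * e * M := mul_le_mul_of_nonneg_left (hM x) (by linarith)
      linarith
    by_cases hx1 : 1 + 2 * η < x
    · rw [hχ1 x hx1.le, indicator_of_notMem (fun h => absurd h.2 (not_le.mpr hx1))]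
      simp only [sub_self, ne_eq, OfNat.ofNat_ne_zero, not_false_eq_true, zero_pow, mul_zero, sub_zero, zero_add]
      linarith
    · rw [indicator_of_mem (show x ∈ Ioc (1:ℝ) (1 + 2 * η) from ⟨hx0, not_lt.mp hx1⟩)]
      have h2 : (1 - χ x) ^ 2 ≤ 1 := by nlinarith [h0 x, h1 x]
      have h3 : m * w x ^ 2 ≤ M := by nlinarith [hM x, sq_nonneg (w x)]
      have h4 : m * w x ^ 2 * (1 - χ x) ^ 2 ≤ M := by
        calc m * w x ^ 2 * (1 - χ x) ^ 2 ≤ m * w x ^ 2 * 1 :=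
              mul_le_mul_of_nonneg_left h2 (mul_nonneg hm3 (sq_nonneg _))
          _ ≤ M := by linarith
      linarith
  rw [integral_sub i3.integrableOn hsum, integral_add hind hcon, e4, e6] at e5
  rw [e1, e3]
  linarith

private lemma VE_mono40 {e : ℝ} {f g : ℝ → ℝ} {a b : ℝ} (hf : Continuous f) (hg : Continuous g)
    (hsf : ∀ x, f x ≠ 0 → a ≤ x ∧ x ≤ b) (hsg : ∀ x, g x ≠ 0 → a ≤ x ∧ x ≤ b)
    (h : ∀ x, f x ≤ g x) : VE e f ≤ VE e g := by
  unfold VE
  have i1 : Integrable (fun x => max (3 / 2 - x - 2 * e) 0 * f x) :=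
    intX40 (by fun_prop) (fun x hx => hsf x (fun h => hx (by rw [h]; ring)))
  have i2 : Integrable (fun x => max (3 / 2 - x - 2 * e) 0 * g x) :=
    intX40 (by fun_prop) (fun x hx => hsg x (fun h => hx (by rw [h]; ring)))
  exact setIntegral_mono i1.integrableOn i2.integrableOn
    (fun x => mul_le_mul_of_nonneg_left (h x) (le_max_right _ _))

theorem cut_gen {w : ℝ → ℝ} {a b : ℝ} (hw : WR w a b) {ε : ℝ} (hε : 0 < ε) :
    ∃ (w1 w2 w0 v : ℝ → ℝ) (a1 b1 a2 b2 a0 b0 a' b' e : ℝ), (∀ x, w x = w1 x + w2 x) ∧ WR w1 a1 b1 ∧ b1 < 3 / 2 ∧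
      WR w2 a2 b2 ∧ 1 < a2 ∧ b2 ≤ b + 2 ∧ WR w0 a0 b0 ∧ b0 < 1 ∧ WR v a' b' ∧ 1 < a' ∧ b' < 3 / 2 ∧ b' < a2 ∧
      0 < e ∧ e < 1 / 4 ∧
      VV w - ε ≤ 2 * (∫ x in Ioi (0:ℝ), x * (w1 x * w0 x)) + 2 * VE e (fun x => w1 x * v x) -
        (∫ x in Ioi (0:ℝ), x * (w0 x * w0 x)) - VE e (fun x => v x ^ 2) := by
  obtain ⟨hws, ha, hab, hsupp⟩ := hw
  have hwc : Continuous w := hws.continuous
  have hcs : HasCompactSupport w := HasCompactSupport.intro (isCompact_Icc (a := a) (b := b)) (fun x hx => by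
    by_contra h
    exact hx (hsupp x h))
  obtain ⟨C, hC⟩ := hcs.exists_bound_of_continuous hwc
  have hM : ∀ x, w x ^ 2 ≤ C ^ 2 + 1 := by
    intro x
    have h1 := hC x
    rw [Real.norm_eq_abs] at h1
    have h2 : |w x| ^ 2 ≤ C ^ 2 := pow_le_pow_left₀ (abs_nonneg _) h1 2
    rw [sq_abs] at h2
    linarith
  set M : ℝ := C ^ 2 + 1 with hMdef
  have hMpos : 0 < M := by positivity
  set η : ℝ := min (1 / 8) (ε / (7 * M)) with hηdef
  have hη : 0 < η := lt_min (by norm_num) (by positivity)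
  have hη8 : η ≤ 1 / 8 := min_le_left _ _
  have hηε : 7 * η * M ≤ ε := by
    have h1 : η ≤ ε / (7 * M) := min_le_right _ _
    rw [le_div_iff₀ (by positivity)] at h1
    linarith
  set χ0 : ℝ → ℝ := fun x => Real.smoothTransition ((1 - η - x) / η) with hχ0
  set χ1 : ℝ → ℝ := fun x => Real.smoothTransition ((x - 1 - η) / η) with hχ1
  set χ2 : ℝ → ℝ := fun x => Real.smoothTransition ((3 / 2 - η - x) / η) with hχ2
  set χ3 : ℝ → ℝ := fun x => Real.smoothTransition ((3 / 2 - 3 * η - x) / η) with hχ3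
  have s0 : ContDiff ℝ ∞ χ0 := by
    refine Real.smoothTransition.contDiff.comp ?_
    exact (contDiff_const.sub contDiff_id).div_const _
  have s1 : ContDiff ℝ ∞ χ1 := by
    refine Real.smoothTransition.contDiff.comp ?_
    exact ((contDiff_id.sub contDiff_const).sub contDiff_const).div_const _
  have s2 : ContDiff ℝ ∞ χ2 := by
    refine Real.smoothTransition.contDiff.comp ?_
    exact (contDiff_const.sub contDiff_id).div_const _
  have s3 : ContDiff ℝ ∞ χ3 := by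
    refine Real.smoothTransition.contDiff.comp ?_
    exact (contDiff_const.sub contDiff_id).div_const _
  have n0 : ∀ x, 0 ≤ χ0 x ∧ χ0 x ≤ 1 := fun x =>
    ⟨Real.smoothTransition.nonneg _, Real.smoothTransition.le_one _⟩
  have n1 : ∀ x, 0 ≤ χ1 x ∧ χ1 x ≤ 1 := fun x =>
    ⟨Real.smoothTransition.nonneg _, Real.smoothTransition.le_one _⟩
  have n3 : ∀ x, 0 ≤ χ3 x ∧ χ3 x ≤ 1 := fun x =>
    ⟨Real.smoothTransition.nonneg _, Real.smoothTransition.le_one _⟩
  have z0 : ∀ x, χ0 x ≠ 0 → x ≤ 1 - η := by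
    intro x hx
    by_contra h
    exact hx (Real.smoothTransition.zero_of_nonpos
      (div_nonpos_of_nonpos_of_nonneg (by linarith) hη.le))
  have z1 : ∀ x, χ1 x ≠ 0 → 1 + η ≤ x := by
    intro x hx
    by_contra h
    exact hx (Real.smoothTransition.zero_of_nonpos
      (div_nonpos_of_nonpos_of_nonneg (by linarith) hη.le))
  have z2 : ∀ x, χ2 x ≠ 0 → x ≤ 3 / 2 - η := by
    intro x hx
    by_contra h
    exact hx (Real.smoothTransition.zero_of_nonpos
      (div_nonpos_of_nonpos_of_nonneg (by linarith) hη.le))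
  have z3 : ∀ x, χ3 x ≠ 0 → x ≤ 3 / 2 - 3 * η := by
    intro x hx
    by_contra h
    exact hx (Real.smoothTransition.zero_of_nonpos
      (div_nonpos_of_nonpos_of_nonneg (by linarith) hη.le))
  have o2 : ∀ x, x ≤ 3 / 2 - 2 * η → χ2 x = 1 := fun x hx =>
    Real.smoothTransition.one_of_one_le (by rw [le_div_iff₀ hη]; linarith)
  have o3 : ∀ x, x ≤ 3 / 2 - 4 * η → χ3 x = 1 := fun x hx =>
    Real.smoothTransition.one_of_one_le (by rw [le_div_iff₀ hη]; linarith)
  have h20 : ∀ x, χ2 x * χ0 x = χ0 x := by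
    intro x
    by_cases h : χ0 x = 0
    · rw [h, mul_zero]
    · rw [o2 x (by linarith [z0 x h]), one_mul]
  have h23 : ∀ x, χ2 x * χ3 x = χ3 x := by
    intro x
    by_cases h : χ3 x = 0
    · rw [h, mul_zero]
    · rw [o2 x (by linarith [z3 x h]), one_mul]
  refine ⟨fun x => χ2 x * w x, fun x => (1 - χ2 x) * w x, fun x => χ0 x * w x,
    fun x => χ1 x * (χ3 x * w x), min a (3 / 2 - η), 3 / 2 - η, 3 / 2 - 2 * η,
    max b (3 / 2 - 2 * η), min a (1 - η), 1 - η, 1 + η, 3 / 2 - 3 * η, η,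
    fun x => by ring, ⟨s2.mul hws, lt_min ha (by linarith), min_le_right _ _, ?_⟩, by linarith,
    ⟨(contDiff_const.sub s2).mul hws, by linarith, le_max_right _ _, ?_⟩, by linarith,
    max_le (by linarith) (by linarith),
    ⟨s0.mul hws, lt_min ha (by linarith), min_le_right _ _, ?_⟩, by linarith,
    ⟨s1.mul (s3.mul hws), by linarith, by linarith, ?_⟩, by linarith, by linarith, by linarith,
    hη, by linarith, ?_⟩
  · intro x hx
    exact ⟨(min_le_left _ _).trans (hsupp x (right_ne_zero_of_mul hx)).1,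
      z2 x (left_ne_zero_of_mul hx)⟩
  · intro x hx
    refine ⟨?_, (hsupp x (right_ne_zero_of_mul hx)).2.trans (le_max_left _ _)⟩
    by_contra h
    apply left_ne_zero_of_mul hx
    rw [o2 x (not_le.1 h).le, sub_self]
  · intro x hx
    exact ⟨(min_le_left _ _).trans (hsupp x (right_ne_zero_of_mul hx)).1,
      z0 x (left_ne_zero_of_mul hx)⟩
  · intro x hx
    exact ⟨z1 x (left_ne_zero_of_mul hx), z3 x (left_ne_zero_of_mul (right_ne_zero_of_mul hx))⟩
  · have h1 := AX40 hwc hsupp s0.continuous (fun x => (n0 x).1) (fun x => (n0 x).2) hη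
      (by linarith) (fun x hx =>
        Real.smoothTransition.one_of_one_le (by rw [le_div_iff₀ hη]; linarith)) hM
    have hw'c : Continuous (fun x => χ3 x * w x) := s3.continuous.mul hwc
    have hsq : ∀ x, χ3 x ^ 2 ≤ 1 := fun x => by nlinarith [(n3 x).1, (n3 x).2]
    have hM' : ∀ x, (χ3 x * w x) ^ 2 ≤ M := by
      intro x
      rw [mul_pow]
      calc χ3 x ^ 2 * w x ^ 2 ≤ 1 * w x ^ 2 := mul_le_mul_of_nonneg_right (hsq x) (sq_nonneg _)
        _ ≤ M := by rw [one_mul]; exact hM x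
    have h2 := BX40 hw'c (fun x hx => hsupp x (right_ne_zero_of_mul hx)) s1.continuous
      (fun x => (n1 x).1) (fun x => (n1 x).2) hη (by linarith) hη (fun x hx =>
        Real.smoothTransition.one_of_one_le (by rw [le_div_iff₀ hη]; linarith)) hM'
    have h3 : VE η (fun x => χ3 x * w x * (χ1 x * (χ3 x * w x))) ≤
        VE η (fun x => χ2 x * w x * (χ1 x * (χ3 x * w x))) := by
      refine VE_mono40 (a := a) (b := b) (by fun_prop) (by fun_prop) ?_ ?_ ?_
      · intro x hx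
        exact hsupp x (fun h => hx (by rw [h]; ring))
      · intro x hx
        exact hsupp x (fun h => hx (by rw [h]; ring))
      · intro x
        have h4 : χ2 x * w x * (χ1 x * (χ3 x * w x)) = (χ2 x * χ3 x) * (χ1 x * w x ^ 2) := by ring
        rw [h4, h23]
        have h5 : χ3 x * w x * (χ1 x * (χ3 x * w x)) = χ3 x * (χ3 x * (χ1 x * w x ^ 2)) := by ring
        rw [h5]
        refine mul_le_mul_of_nonneg_left ?_ (n3 x).1
        calc χ3 x * (χ1 x * w x ^ 2) ≤ 1 * (χ1 x * w x ^ 2) :=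
              mul_le_mul_of_nonneg_right (n3 x).2 (mul_nonneg (n1 x).1 (sq_nonneg _))
          _ = _ := one_mul _
    have h4 : (fun x => x * (χ2 x * w x * (χ0 x * w x))) = fun x => x * (w x * (χ0 x * w x)) := by
      funext x
      have : χ2 x * w x * (χ0 x * w x) = (χ2 x * χ0 x) * (w x * w x) := by ring
      rw [this, h20]
      ring
    have h5 : (∫ x in (1:ℝ)..(3 / 2), (3 / 2 - x) * w x ^ 2) ≤
        (∫ x in (1:ℝ)..(3 / 2), (3 / 2 - x) * (χ3 x * w x) ^ 2) + 2 * η * M := by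
      have h6 : (∫ _x in (1:ℝ)..(3 / 2), 4 * η * M) = 2 * η * M := by
        rw [intervalIntegral.integral_const, smul_eq_mul]
        ring
      rw [← h6, ← intervalIntegral.integral_add (Continuous.intervalIntegrable (by fun_prop) _ _)
        (Continuous.intervalIntegrable (by fun_prop) _ _)]
      refine intervalIntegral.integral_mono_on (by norm_num)
        (Continuous.intervalIntegrable (by fun_prop) _ _)
        (Continuous.intervalIntegrable (by fun_prop) _ _) (fun x hx => ?_)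
      by_cases h7 : x ≤ 3 / 2 - 4 * η
      · rw [o3 x h7, one_mul]
        have : 0 ≤ 4 * η * M := by positivity
        linarith
      · have h8 : 0 ≤ 3 / 2 - x := by linarith [hx.2]
        have h9 : 3 / 2 - x ≤ 4 * η := by linarith
        have h10 : (3 / 2 - x) * w x ^ 2 ≤ 4 * η * M :=
          mul_le_mul h9 (hM x) (sq_nonneg _) (by positivity)
        have h11 : 0 ≤ (3 / 2 - x) * (χ3 x * w x) ^ 2 := mul_nonneg h8 (sq_nonneg _)
        linarith
    unfold VV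
    rw [h4]
    linarith

end Pool.Agent.Helper69.FF
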