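import Pool.Agent.Helper69.FF.Defs

/-!
# FF-XDefs: prime sums of arbitrary length

Extension of the theorem to smooth weights with compact support in `(0, ∞)`: `AB B w` is the prime sum with `n ≤ T^B`; `AA = AB 2`.
`w (log n/L) ≠ 0` forces `a ≤ log n/L ≤ b`, so for `b ≤ 2 ≤ B` (`T > 1`) the terms with `n > T²` vanish.
-/

open MeasureTheory Set Filter Topology
open Pool.Agent.Helper57.Zeta Pool.Agent.Helper57.PC Pool.Agent.Helper57.LH Pool.Agent.Helper78.SG
open Pool.Agent.Helper4.SH (om)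
open scoped ContDiff

namespace Pool.Agent.Helper69.FF

/-- the prime sum of length `T^B` -/
noncomputable def AB (B : ℕ) (w : ℝ → ℝ) (T t : ℝ) : ℂ :=
  ∑ n ∈ Finset.Icc 1 ⌊T ^ B⌋₊,
    ((ArithmeticFunction.vonMangoldt n / Real.sqrt n * w (Real.log n / Real.log T) / Real.log T : ℝ) : ℂ) * xp t n

theorem AB_two (w : ℝ → ℝ) (T t : ℝ) : AB 2 w T t = AA w T t := rfl

theorem AB_add (B : ℕ) (w1 w2 : ℝ → ℝ) (T t : ℝ) : AB B (fun x => w1 x + w2 x) T t = AB B w1 T t + AB B w2 T t := by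
  unfold AB
  rw [← Finset.sum_add_distrib]
  refine Finset.sum_congr rfl fun n _ => ?_
  push_cast
  ring

theorem AB_eq {B : ℕ} (hB : 2 ≤ B) {w : ℝ → ℝ} {a b : ℝ} (hw : WR w a b) (hb : b ≤ 2) {T : ℝ} (hT : 1 < T) (t : ℝ) :
    AB B w T t = AA w T t := by
  have hT0 : 0 < T := by linarith
  have hL : 0 < Real.log T := Real.log_pos hT
  unfold AB AA
  have hsub : Finset.Icc 1 ⌊T ^ 2⌋₊ ⊆ Finset.Icc 1 ⌊T ^ B⌋₊ := by
    apply Finset.Icc_subset_Icc_right
    exact Nat.floor_le_floor (pow_le_pow_right₀ hT.le hB)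
  refine (Finset.sum_subset hsub fun n hn hn' => ?_).symm
  rw [Finset.mem_Icc] at hn
  rw [Finset.mem_Icc] at hn'
  have hn0 : (0 : ℝ) < n := by exact_mod_cast hn.1
  have hw0 : w (Real.log n / Real.log T) = 0 := by
    by_contra h
    have h1 := (hw.2.2.2 _ h).2
    rw [div_le_iff₀ hL] at h1
    apply hn'
    refine ⟨hn.1, (Nat.le_floor_iff (by positivity)).2 ?_⟩
    have h2 : Real.log n ≤ Real.log (T ^ 2) := by
      rw [Real.log_pow]
      push_cast
      nlinarith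
    exact (Real.log_le_log_iff hn0 (by positivity)).1 h2
  rw [hw0]
  simp

end Pool.Agent.Helper69.FF
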