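import Pool.Agent.Helper69.FF.XDefs
import Pool.Agent.Helper69.FF.HEq

/-!
# FF-XFarA: the long part is orthogonal to the short prime sum

`∫ om(t) (m/n)^(-it) dt`-type integrals: `∫ om g.h T t · exp(i t y) dt = T pc g(T y)`-like (`pc_decay`, FF.HEq, or `ker_decay`): `≤ C_N T/(1 + T|y|)^N` for every `N`. Here
`n ≥ T^(a2)` and `m ≤ T^(b0)`, `b0 < 1 < a2`, so `|y| = |log(n/m)| ≥ (a2 - b0) log T ≥ 1` for large `T`, and the coefficients are trivially bounded (`Λ(n) ≤ log n`, number of pairs `≤ T^(B+2)`):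
choose `N = B + 4`.
-/

open MeasureTheory Set Filter Topology
open Pool.Agent.Helper57.Zeta Pool.Agent.Helper57.PC Pool.Agent.Helper57.LH Pool.Agent.Helper78.SG
open Pool.Agent.Helper4.SH (om)
open scoped ContDiff

namespace Pool.Agent.Helper69.FF

private lemma h43_bdd {w : ℝ → ℝ} {a b : ℝ} (hw : WR w a b) : ∃ M : ℝ, 0 ≤ M ∧ ∀ x, |w x| ≤ M := by
  have hcs : HasCompactSupport w := by
    refine HasCompactSupport.of_support_subset_isCompact (isCompact_Icc (a := a) (b := b)) ?_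
    intro x hx
    exact hw.2.2.2 x hx
  obtain ⟨C, hC⟩ := hcs.exists_bound_of_continuous hw.1.continuous
  refine ⟨max C 0, le_max_right _ _, fun x => ?_⟩
  have := hC x
  rw [Real.norm_eq_abs] at this
  exact this.trans (le_max_left _ _)

/-- the coefficients -/
private noncomputable def h43_c (w : ℝ → ℝ) (T : ℝ) (n : ℕ) : ℝ :=
  ArithmeticFunction.vonMangoldt n / Real.sqrt n * w (Real.log n / Real.log T) / Real.log T

private lemma h43_c_le {w : ℝ → ℝ} {M : ℝ} (_hM0 : 0 ≤ M) (hM : ∀ x, |w x| ≤ M) {T : ℝ} (hT : 1 < T) {B : ℕ} {n : ℕ}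
    (hn : n ∈ Finset.Icc 1 ⌊T ^ B⌋₊) : |h43_c w T n| ≤ B * M := by
  rw [Finset.mem_Icc] at hn
  have hT0 : 0 < T := by linarith
  have hL : 0 < Real.log T := Real.log_pos hT
  have hn1 : (1 : ℝ) ≤ n := by exact_mod_cast hn.1
  have hn0 : (0 : ℝ) < n := by linarith
  have hnT : (n : ℝ) ≤ T ^ B := (Nat.le_floor_iff (by positivity)).1 hn.2
  have hlog : Real.log n ≤ B * Real.log T := by
    have := Real.log_le_log hn0 hnT
    rwa [Real.log_pow] at this
  have hΛ0 : (0:ℝ) ≤ ArithmeticFunction.vonMangoldt n := ArithmeticFunction.vonMangoldt_nonneg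
  have hΛ : (ArithmeticFunction.vonMangoldt n : ℝ) ≤ B * Real.log T := ArithmeticFunction.vonMangoldt_le_log.trans hlog
  have hs : 1 ≤ Real.sqrt n := by
    rw [← Real.sqrt_one]
    exact Real.sqrt_le_sqrt hn1
  have h1 : (ArithmeticFunction.vonMangoldt n : ℝ) / Real.sqrt n ≤ B * Real.log T := (div_le_self hΛ0 hs).trans hΛ
  unfold h43_c
  rw [abs_div, abs_mul, abs_of_pos hL, abs_of_nonneg (div_nonneg hΛ0 (Real.sqrt_nonneg _)), div_le_iff₀ hL]
  calc (ArithmeticFunction.vonMangoldt n : ℝ) / Real.sqrt n * |w (Real.log n / Real.log T)| ≤ (B * Real.log T) * M :=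
        mul_le_mul h1 (hM _) (abs_nonneg _) (by positivity)
    _ = B * M * Real.log T := by ring

private lemma h43_om_int (g : TF) {T : ℝ} (hT : 0 < T) (s : ℝ) :
    Integrable (fun t : ℝ => ((om g.h T t : ℝ) : ℂ) * Complex.exp (((t * s : ℝ) : ℂ) * Complex.I)) := by
  have h1 : Integrable (fun t : ℝ => om g.h T t) := by
    have := ((heq_gi g).comp_sub_right (1/2)).comp_div hT.ne'
    exact this
  have hc : Continuous (fun t : ℝ => om g.h T t) := by
    have := heq_gc g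
    unfold Pool.Agent.Helper4.SH.om
    fun_prop
  refine Integrable.mono' h1.norm (Continuous.aestronglyMeasurable (by fun_prop)) (Eventually.of_forall fun t => ?_)
  rw [norm_mul, heq_norm_exp, mul_one, Complex.norm_real]

private lemma h43_prod (w2 w0 : ℝ → ℝ) (T t : ℝ) (B : ℕ) (g : TF) :
    om g.h T t * (AB B w2 T t * (starRingEnd ℂ) (AA w0 T t)).re =
      (∑ n ∈ Finset.Icc 1 ⌊T ^ B⌋₊, ∑ m ∈ Finset.Icc 1 ⌊T ^ 2⌋₊, ((h43_c w2 T n * h43_c w0 T m : ℝ) : ℂ) *
        (((om g.h T t : ℝ) : ℂ) * Complex.exp (((t * (Real.log m - Real.log n) : ℝ) : ℂ) * Complex.I))).re := by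
  have e0 : om g.h T t * (AB B w2 T t * (starRingEnd ℂ) (AA w0 T t)).re =
      (((om g.h T t : ℝ) : ℂ) * (AB B w2 T t * (starRingEnd ℂ) (AA w0 T t))).re := by
    rw [Complex.re_ofReal_mul]
  rw [e0]
  congr 1
  unfold AB AA
  rw [map_sum, Finset.sum_mul_sum, Finset.mul_sum]
  refine Finset.sum_congr rfl fun n _ => ?_
  rw [Finset.mul_sum]
  refine Finset.sum_congr rfl fun m _ => ?_
  rw [map_mul, Complex.conj_ofReal]
  have c1 : (starRingEnd ℂ) (xp t m) = Complex.exp (((t * Real.log m : ℝ) : ℂ) * Complex.I) := by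
    rw [xp, ← Complex.exp_conj, map_neg, map_mul, Complex.conj_ofReal, Complex.conj_I]
    congr 1
    ring
  have c2 : Complex.exp (((t * (Real.log m - Real.log n) : ℝ) : ℂ) * Complex.I) =
      xp t n * Complex.exp (((t * Real.log m : ℝ) : ℂ) * Complex.I) := by
    rw [xp, ← Complex.exp_add]
    congr 1
    push_cast
    ring
  rw [c1, c2]
  unfold h43_c
  push_cast
  ring

private lemma h43_int (g : TF) (w2 w0 : ℝ → ℝ) {T : ℝ} (hT : 0 < T) (B : ℕ) :
    |∫ t, om g.h T t * (AB B w2 T t * (starRingEnd ℂ) (AA w0 T t)).re| ≤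
      ∑ n ∈ Finset.Icc 1 ⌊T ^ B⌋₊, ∑ m ∈ Finset.Icc 1 ⌊T ^ 2⌋₊, |h43_c w2 T n| * |h43_c w0 T m| *
        (T * ‖pc g (T * (Real.log m - Real.log n))‖) := by
  simp_rw [h43_prod]
  have hi : ∀ n ∈ Finset.Icc 1 ⌊T ^ B⌋₊, Integrable (fun t : ℝ => ∑ m ∈ Finset.Icc 1 ⌊T ^ 2⌋₊,
      ((h43_c w2 T n * h43_c w0 T m : ℝ) : ℂ) *
        (((om g.h T t : ℝ) : ℂ) * Complex.exp (((t * (Real.log m - Real.log n) : ℝ) : ℂ) * Complex.I))) := by
    intro n _
    exact integrable_finsetSum _ fun m _ => (h43_om_int g hT _).const_mul _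
  have h1 := Complex.reCLM.integral_comp_comm (integrable_finsetSum _ hi)
  have h2 : ∫ t : ℝ, (∑ n ∈ Finset.Icc 1 ⌊T ^ B⌋₊, ∑ m ∈ Finset.Icc 1 ⌊T ^ 2⌋₊, ((h43_c w2 T n * h43_c w0 T m : ℝ) : ℂ) *
        (((om g.h T t : ℝ) : ℂ) * Complex.exp (((t * (Real.log m - Real.log n) : ℝ) : ℂ) * Complex.I))).re =
      (∫ t : ℝ, ∑ n ∈ Finset.Icc 1 ⌊T ^ B⌋₊, ∑ m ∈ Finset.Icc 1 ⌊T ^ 2⌋₊, ((h43_c w2 T n * h43_c w0 T m : ℝ) : ℂ) *
        (((om g.h T t : ℝ) : ℂ) * Complex.exp (((t * (Real.log m - Real.log n) : ℝ) : ℂ) * Complex.I))).re := h1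
  rw [h2]
  refine (Complex.abs_re_le_norm _).trans ?_
  rw [integral_finsetSum _ hi]
  refine (norm_sum_le _ _).trans (Finset.sum_le_sum fun n _ => ?_)
  rw [integral_finsetSum _ fun m _ => (h43_om_int g hT _).const_mul _]
  refine (norm_sum_le _ _).trans (Finset.sum_le_sum fun m _ => ?_)
  rw [integral_const_mul, heq_om g hT, norm_mul, norm_mul, Complex.norm_real, Complex.norm_real, Real.norm_eq_abs,
    Real.norm_eq_abs, abs_mul, abs_of_pos hT]

theorem far_A (g : TF) {w2 w0 : ℝ → ℝ} {a2 b2 a0 b0 : ℝ} (h2 : WR w2 a2 b2) (ha2 : 1 < a2) (h0 : WR w0 a0 b0)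
    (hb0 : b0 < 1) (B : ℕ) :
    Tendsto (fun T : ℝ => (∫ t, om g.h T t * (AB B w2 T t * (starRingEnd ℂ) (AA w0 T t)).re) / T) atTop (𝓝 0) := by
  obtain ⟨M2, hM20, hM2⟩ := h43_bdd h2
  obtain ⟨M0, hM00, hM0⟩ := h43_bdd h0
  obtain ⟨C, hC, hdec⟩ := pc_decay g (B + 4)
  have hlim : Tendsto (fun T : ℝ => (B * M2) * (2 * M0) * C * T⁻¹) atTop (𝓝 0) := by
    have := tendsto_inv_atTop_zero.const_mul ((B * M2) * (2 * M0) * C)
    rwa [mul_zero] at this
  refine squeeze_zero_norm' ?_ hlim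
  have hL1 : ∀ᶠ T : ℝ in atTop, 1 ≤ (a2 - b0) * Real.log T := by
    have h1 : Tendsto (fun T : ℝ => (a2 - b0) * Real.log T) atTop atTop :=
      Real.tendsto_log_atTop.const_mul_atTop (by linarith)
    exact h1.eventually_ge_atTop 1
  filter_upwards [eventually_gt_atTop 1, hL1] with T hT hLT
  have hT0 : 0 < T := by linarith
  have hL : 0 < Real.log T := Real.log_pos hT
  rw [Real.norm_eq_abs, abs_div, abs_of_pos hT0, div_le_iff₀ hT0]
  refine (h43_int g w2 w0 hT0 B).trans ?_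
  have hterm : ∀ n ∈ Finset.Icc 1 ⌊T ^ B⌋₊, ∀ m ∈ Finset.Icc 1 ⌊T ^ 2⌋₊, |h43_c w2 T n| * |h43_c w0 T m| *
      (T * ‖pc g (T * (Real.log m - Real.log n))‖) ≤ (B * M2) * (2 * M0) * (T * (C / T ^ (B + 4))) := by
    intro n hn m hm
    have f2 := h43_c_le hM20 hM2 hT hn
    have f0 := h43_c_le hM00 hM0 hT hm
    push_cast at f0
    by_cases hz : w2 (Real.log n / Real.log T) = 0 ∨ w0 (Real.log m / Real.log T) = 0
    · have : |h43_c w2 T n| * |h43_c w0 T m| = 0 := by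
        rcases hz with hz | hz
        · have : h43_c w2 T n = 0 := by unfold h43_c; rw [hz]; simp
          rw [this]; simp
        · have : h43_c w0 T m = 0 := by unfold h43_c; rw [hz]; simp
          rw [this]; simp
      rw [this, zero_mul]
      positivity
    · push Not at hz
      have g2 := (h2.2.2.2 _ hz.1).1
      have g0 := (h0.2.2.2 _ hz.2).2
      rw [le_div_iff₀ hL] at g2
      rw [div_le_iff₀ hL] at g0
      have hfar : T ≤ |T * (Real.log m - Real.log n)| := by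
        rw [abs_mul, abs_of_pos hT0]
        apply le_mul_of_one_le_right hT0.le
        rw [abs_sub_comm]
        refine le_trans ?_ (le_abs_self _)
        nlinarith
      have h3 : ‖pc g (T * (Real.log m - Real.log n))‖ ≤ C / T ^ (B + 4) := by
        refine (hdec _).trans ?_
        apply div_le_div_of_nonneg_left hC.le (by positivity)
        exact pow_le_pow_left₀ hT0.le (by linarith) _
      exact mul_le_mul (mul_le_mul f2 f0 (abs_nonneg _) (by positivity))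
        (mul_le_mul_of_nonneg_left h3 hT0.le) (by positivity) (by positivity)
  refine (Finset.sum_le_sum fun n hn => Finset.sum_le_sum fun m hm => hterm n hn m hm).trans ?_
  rw [Finset.sum_const, Finset.sum_const, Nat.card_Icc, Nat.card_Icc, nsmul_eq_mul, nsmul_eq_mul,
    Nat.add_sub_cancel, Nat.add_sub_cancel]
  have n1 : (⌊T ^ B⌋₊ : ℝ) ≤ T ^ B := Nat.floor_le (by positivity)
  have n2 : (⌊T ^ 2⌋₊ : ℝ) ≤ T ^ 2 := Nat.floor_le (by positivity)
  have hpos : 0 ≤ (B * M2) * (2 * M0) * (T * (C / T ^ (B + 4))) := by positivity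
  calc (⌊T ^ B⌋₊ : ℝ) * ((⌊T ^ 2⌋₊ : ℝ) * ((B * M2) * (2 * M0) * (T * (C / T ^ (B + 4)))))
      ≤ T ^ B * (T ^ 2 * ((B * M2) * (2 * M0) * (T * (C / T ^ (B + 4))))) := by gcongr
    _ = (B * M2) * (2 * M0) * C * T⁻¹ := by
      rw [pow_add]
      field_simp
    _ ≤ (B * M2) * (2 * M0) * C * T⁻¹ * T := by
      apply le_mul_of_one_le_right (by positivity) hT.le

end Pool.Agent.Helper69.FF
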