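import Pool.Agent.Helper69.FF.XDefs
import Pool.Agent.Helper69.FF.HFar

/-!
# FF-XFarD: the long part is orthogonal to m D

`∫ om(t) n^(-it) conj(m(t)) (r/a)^(it) dt = HH g k T (n a/r)` (see FF.AmD for the same computation) and `n a/r ≥ T^(a2) / T^(b'-1) = T · T^(a2 - b')`, so `log (x/T) ≥ (a2 - b') log T ≥ c + 1`
for large `T`: `HH_far` (FF.HFar) with `N = B + 6`; the coefficients are trivially bounded (number of terms `≤ T^(B+2)`).
-/

open MeasureTheory Set Filter Topology
open Pool.Agent.Helper57.Zeta Pool.Agent.Helper57.PC Pool.Agent.Helper57.LH Pool.Agent.Helper78.SG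
open Pool.Agent.Helper4.SH (om)
open scoped ContDiff

namespace Pool.Agent.Helper69.FF

private lemma h36_wr_bdd {v : ℝ → ℝ} {a b : ℝ} (hv : WR v a b) : ∃ B : ℝ, 0 ≤ B ∧ ∀ x, |v x| ≤ B := by
  obtain ⟨hs, ha, hab, hsu⟩ := hv
  obtain ⟨B, hB⟩ := (isCompact_Icc (a := a) (b := b)).exists_bound_of_continuousOn hs.continuous.continuousOn
  refine ⟨B, (norm_nonneg _).trans (hB a ⟨le_rfl, hab⟩), fun x => ?_⟩
  by_cases h : v x = 0
  · rw [h, abs_zero]; exact (norm_nonneg _).trans (hB a ⟨le_rfl, hab⟩)
  · exact hB x ⟨(hsu x h).1, (hsu x h).2⟩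

private lemma h36_xp {n r a : ℕ} (hn : 1 ≤ n) (hr : 1 ≤ r) (ha : 1 ≤ a) (t : ℝ) :
    xp t n * (starRingEnd ℂ) (xp t ((r : ℝ) / a)) = xp t ((a : ℝ) * n / r) := by
  have h1 : (n : ℝ) ≠ 0 := by positivity
  have h2 : (r : ℝ) ≠ 0 := by positivity
  have h3 : (a : ℝ) ≠ 0 := by positivity
  unfold xp
  rw [← Complex.exp_conj, ← Complex.exp_add, Real.log_div h2 h3, Real.log_div (mul_ne_zero h3 h1) h2, Real.log_mul h3 h1]
  congr 1
  rw [map_neg, map_mul, Complex.conj_ofReal, Complex.conj_I]
  push_cast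
  ring

private lemma h36_mm_cont (g : TF) {k : ℝ → ℝ} {c : ℝ} (hk : KW g k c) (T : ℝ) : Continuous (fun t => mm k T t) := by
  unfold mm
  have h1 : Continuous (fun t : ℝ => xp t T) := by
    unfold xp
    fun_prop
  refine (continuous_const.mul h1).mul ?_
  have hkc := hk.smooth.continuous
  have hcs : HasCompactSupport k := by
    refine HasCompactSupport.intro (isCompact_Icc (a := -c) (b := c)) fun x hx => hk.supp x ?_
    by_contra h
    rw [not_le, abs_lt] at h
    exact hx ⟨h.1.le, h.2.le⟩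
  have hin : Integrable (fun y : ℝ => k y * Real.exp (y / 2)) := by
    have hc : Continuous (fun y : ℝ => k y * Real.exp (y / 2)) := hk.smooth.continuous.mul (by fun_prop)
    exact hc.integrable_of_hasCompactSupport (hcs.mul_right)
  refine continuous_of_dominated (bound := fun y => ‖k y * Real.exp (y / 2)‖) ?_ ?_ hin.norm ?_
  · intro t
    refine Continuous.aestronglyMeasurable ?_
    unfold ee
    fun_prop
  · intro t
    refine Eventually.of_forall fun y => ?_
    have e : ‖Complex.exp (-(((t * y : ℝ) : ℂ) * Complex.I))‖ = 1 := by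
      have : -(((t * y : ℝ) : ℂ) * Complex.I) = ((-(t * y) : ℝ) : ℂ) * Complex.I := by
        push_cast; ring
      rw [this]
      exact Complex.norm_exp_ofReal_mul_I _
    rw [norm_mul, norm_mul, h46_norm_ee, e, Complex.norm_real, mul_one, mul_one]
  · refine Eventually.of_forall fun y => ?_
    unfold ee
    fun_prop

private lemma h36_int (g : TF) {k : ℝ → ℝ} {c : ℝ} (hk : KW g k c) {T : ℝ} (hT : 0 < T) (x : ℝ) :
    Integrable (fun t : ℝ => ((om g.h T t : ℝ) : ℂ) * ((starRingEnd ℂ) (mm k T t) * xp t x)) := by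
  have h1 := h36_mm_cont g hk T
  have h2 : Continuous (fun t : ℝ => xp t x) := by
    unfold xp
    fun_prop
  have h3 : Continuous (fun t : ℝ => (starRingEnd ℂ) (mm k T t) * xp t x) := (Complex.continuous_conj.comp h1).mul h2
  have h4 : HasCompactSupport (fun t => om g.h T t) := by
    refine HasCompactSupport.intro (isCompact_Icc (a := 0) (b := T)) fun t ht => ?_
    unfold Pool.Agent.Helper4.SH.om
    apply g.supp
    by_contra hcon
    rw [not_le] at hcon
    have hcon' := hcon.trans g.th1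
    rw [abs_lt] at hcon'
    apply ht
    constructor
    · have : 0 < t / T := by linarith [hcon'.1]
      have := (div_pos_iff_of_pos_right hT).1 this
      exact this.le
    · have : t / T < 1 := by linarith [hcon'.2]
      rw [div_lt_one hT] at this
      exact this.le
  have h5 : Continuous (fun t => om g.h T t) := by
    unfold Pool.Agent.Helper4.SH.om
    exact g.smooth.continuous.comp (by fun_prop)
  have h6 : Continuous (fun t => ((om g.h T t : ℝ) : ℂ)) := Complex.continuous_ofReal.comp h5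
  apply (h6.mul h3).integrable_of_hasCompactSupport
  apply HasCompactSupport.mul_right
  exact h4.comp_left (g := fun x : ℝ => (x : ℂ)) Complex.ofReal_zero

theorem far_D (g : TF) {k : ℝ → ℝ} {c : ℝ} (hk : KW g k c) {w2 v : ℝ → ℝ} {a2 b2 a' b' e : ℝ} (h2 : WR w2 a2 b2)
    (hv : WR v a' b') (ha' : 1 < a') (hb' : b' < a2) (he : 0 < e) (he1 : e < 1 / 4) (B : ℕ) :
    Tendsto (fun T : ℝ => (∫ t, om g.h T t * (AB B w2 T t * (starRingEnd ℂ) (mm k T t * DD v e T t)).re) / T) atTop
      (𝓝 0) := by
  obtain ⟨Bw, hBw0, hBw⟩ := h36_wr_bdd h2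
  obtain ⟨Bv, hBv0, hBv⟩ := h36_wr_bdd hv
  obtain ⟨C, hC, hfar⟩ := HH_far g hk (B + 6)
  have h2' : ∀ x, w2 x ≠ 0 → a2 ≤ x := fun x hx => (h2.2.2.2 x hx).1
  have hv' : ∀ x, v x ≠ 0 → x ≤ b' := fun x hx => (hv.2.2.2 x hx).2
  set K : ℝ := B * Bw * Bv * C with hK
  have hK0 : 0 ≤ K := by positivity
  -- the bound
  have key : ∀ᶠ T : ℝ in atTop, ‖(∫ t, om g.h T t * (AB B w2 T t * (starRingEnd ℂ) (mm k T t * DD v e T t)).re) / T‖ ≤
      K / T := by
    have hlogT : ∀ᶠ T : ℝ in atTop, (c + 1) / (a2 - b') ≤ Real.log T :=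
      Real.tendsto_log_atTop.eventually_ge_atTop _
    filter_upwards [eventually_ge_atTop (Real.exp 1), hlogT] with T hT hTc
    have hT1 : 1 ≤ T := (Real.one_le_exp (by norm_num)).trans hT
    have hT0 : 0 < T := by linarith
    have hL : 1 ≤ Real.log T := by
      rw [Real.le_log_iff_exp_le hT0]; exact hT
    have hL0 : 0 < Real.log T := by linarith
    have hTc' : c + 1 ≤ (a2 - b') * Real.log T := by
      rw [div_le_iff₀ (by linarith)] at hTc
      linarith
    have hmem : ∀ x ∈ RA e T, 1 ≤ x.1 ∧ 1 ≤ x.2 ∧ (x.1 : ℝ) ≤ T ∧ x.2 ≤ x.1 := by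
      intro x hx
      unfold RA at hx
      simp only [Finset.mem_filter, Finset.mem_product, Finset.mem_Icc] at hx
      refine ⟨hx.1.1.1, hx.1.2.1, ?_, hx.2.2.2.2.1⟩
      exact (Nat.le_floor_iff hT0.le).1 hx.1.1.2
    have hcard : ((RA e T).card : ℝ) ≤ T * T := by
      unfold RA
      refine (Nat.cast_le.2 (Finset.card_filter_le _ _)).trans ?_
      rw [Finset.card_product, Nat.card_Icc, Nat.add_sub_cancel, Nat.cast_mul]
      have := Nat.floor_le hT0.le
      gcongr
    set N := ⌊T ^ B⌋₊ with hN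
    have hNT : (N : ℝ) ≤ T ^ B := Nat.floor_le (by positivity)
    set A : ℕ → ℝ := fun n => ArithmeticFunction.vonMangoldt n / Real.sqrt n * w2 (Real.log n / Real.log T) / Real.log T with hA
    set cx : ℕ × ℕ → ℝ := fun x => mf x.1 * Real.sqrt ((x.1 : ℝ) / x.2) * v (lr T x) / Real.log T with hcx
    have hpt : ∀ t, ((om g.h T t : ℝ) : ℂ) * (AB B w2 T t * (starRingEnd ℂ) (mm k T t * DD v e T t)) =
        ∑ x ∈ RA e T, ∑ n ∈ Finset.Icc 1 N, ((A n * cx x : ℝ) : ℂ) *
          (((om g.h T t : ℝ) : ℂ) * ((starRingEnd ℂ) (mm k T t) * xp t ((x.2 : ℝ) * n / x.1))) := by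
      intro t
      have e1 : (starRingEnd ℂ) (DD v e T t) = ∑ x ∈ RA e T, ((cx x : ℝ) : ℂ) * (starRingEnd ℂ) (xp t ((x.1 : ℝ) / x.2)) := by
        unfold DD
        rw [map_sum]
        refine Finset.sum_congr rfl fun x _ => ?_
        rw [map_mul, Complex.conj_ofReal]
      have e2 : AB B w2 T t = ∑ n ∈ Finset.Icc 1 N, ((A n : ℝ) : ℂ) * xp t n := rfl
      rw [map_mul, e1, e2]
      rw [show ((om g.h T t : ℝ) : ℂ) * ((∑ n ∈ Finset.Icc 1 N, ((A n : ℝ) : ℂ) * xp t n) * ((starRingEnd ℂ) (mm k T t) *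
          ∑ x ∈ RA e T, ((cx x : ℝ) : ℂ) * (starRingEnd ℂ) (xp t ((x.1 : ℝ) / x.2)))) =
          (((om g.h T t : ℝ) : ℂ) * (starRingEnd ℂ) (mm k T t)) * ((∑ x ∈ RA e T, ((cx x : ℝ) : ℂ) * (starRingEnd ℂ) (xp t ((x.1 : ℝ) / x.2))) *
            (∑ n ∈ Finset.Icc 1 N, ((A n : ℝ) : ℂ) * xp t n)) by ring]
      rw [Finset.sum_mul_sum, Finset.mul_sum]
      refine Finset.sum_congr rfl fun x hx => ?_
      rw [Finset.mul_sum]
      refine Finset.sum_congr rfl fun n hn => ?_
      obtain ⟨h1, h2, -, -⟩ := hmem x hx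
      rw [Finset.mem_Icc] at hn
      rw [← h36_xp hn.1 h1 h2 t]
      push_cast
      ring
    have hintg : Integrable (fun t => ((om g.h T t : ℝ) : ℂ) * (AB B w2 T t * (starRingEnd ℂ) (mm k T t * DD v e T t))) := by
      rw [funext hpt]
      refine integrable_finsetSum _ fun x _ => integrable_finsetSum _ fun n _ => ?_
      exact (h36_int g hk hT0 _).const_mul _
    have hI : (∫ t, ((om g.h T t : ℝ) : ℂ) * (AB B w2 T t * (starRingEnd ℂ) (mm k T t * DD v e T t))) =
        ∑ x ∈ RA e T, ∑ n ∈ Finset.Icc 1 N, ((A n * cx x : ℝ) : ℂ) * HH g k T ((x.2 : ℝ) * n / x.1) := by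
      rw [funext hpt, integral_finsetSum]
      · refine Finset.sum_congr rfl fun x _ => ?_
        rw [integral_finsetSum]
        · refine Finset.sum_congr rfl fun n _ => ?_
          rw [integral_const_mul]
          rfl
        · intro n _
          exact (h36_int g hk hT0 _).const_mul _
      · intro x _
        apply integrable_finsetSum
        intro n _
        exact (h36_int g hk hT0 _).const_mul _
    have hre : (∫ t, om g.h T t * (AB B w2 T t * (starRingEnd ℂ) (mm k T t * DD v e T t)).re) =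
        (∫ t, ((om g.h T t : ℝ) : ℂ) * (AB B w2 T t * (starRingEnd ℂ) (mm k T t * DD v e T t))).re := by
      have := integral_re (𝕜 := ℂ) hintg
      simp only [RCLike.re_to_complex] at this
      rw [← this]
      refine integral_congr_ae (Eventually.of_forall fun t => ?_)
      simp only [Complex.re_ofReal_mul]
    have hterm : ∀ x ∈ RA e T, ∀ n ∈ Finset.Icc 1 N,
        ‖((A n * cx x : ℝ) : ℂ) * HH g k T ((x.2 : ℝ) * n / x.1)‖ ≤ K / T ^ (B + 5) := by
      intro x hx n hn
      obtain ⟨h1, h2x, h3, h4⟩ := hmem x hx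
      rw [Finset.mem_Icc] at hn
      have h1' : (1 : ℝ) ≤ (x.1 : ℝ) := by exact_mod_cast h1
      have h2x' : (1 : ℝ) ≤ (x.2 : ℝ) := by exact_mod_cast h2x
      have hx1 : (0 : ℝ) < (x.1 : ℝ) := by linarith
      have hx2 : (0 : ℝ) < (x.2 : ℝ) := by linarith
      have hn1 : (1 : ℝ) ≤ (n : ℝ) := by exact_mod_cast hn.1
      have hn0 : (0 : ℝ) < (n : ℝ) := by linarith
      by_cases hw0 : w2 (Real.log n / Real.log T) = 0
      · have : A n = 0 := by rw [hA]; simp only; rw [hw0]; simp
        rw [this]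
        simp only [zero_mul, Complex.ofReal_zero, norm_zero]
        positivity
      by_cases hv0 : v (lr T x) = 0
      · have : cx x = 0 := by rw [hcx]; simp only; rw [hv0]; simp
        rw [this]
        simp only [mul_zero, Complex.ofReal_zero, zero_mul, norm_zero]
        positivity
      have g1 : a2 * Real.log T ≤ Real.log n := by
        have := h2' _ hw0
        rwa [le_div_iff₀ hL0] at this
      have g2 : Real.log x.1 - Real.log x.2 ≤ (b' - 1) * Real.log T := by
        have := hv' _ hv0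
        unfold lr at this
        have h5 : (Real.log x.1 - Real.log x.2) / Real.log T ≤ b' - 1 := by linarith
        rwa [div_le_iff₀ hL0] at h5
      have g3 : Real.log ((x.2 : ℝ) * n / x.1 / T) = Real.log n - (Real.log x.1 - Real.log x.2) - Real.log T := by
        rw [Real.log_div (by positivity) hT0.ne', Real.log_div (by positivity) hx1.ne', Real.log_mul hx2.ne' hn0.ne']
        ring
      have g4 : c + 1 ≤ |Real.log ((x.2 : ℝ) * n / x.1 / T)| := by
        refine le_trans ?_ (le_abs_self _)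
        rw [g3]
        linarith
      have g5 := hfar T ((x.2 : ℝ) * n / x.1) hT1 (by positivity) g4
      have f1 : |A n| ≤ B * Bw := by
        rw [hA]
        simp only
        rw [abs_div, abs_mul, abs_div, abs_of_pos hL0, abs_of_nonneg ArithmeticFunction.vonMangoldt_nonneg,
          abs_of_nonneg (Real.sqrt_nonneg _), div_le_iff₀ hL0]
        have f2 : ArithmeticFunction.vonMangoldt n ≤ B * Real.log T := by
          refine ArithmeticFunction.vonMangoldt_le_log.trans ?_
          have : (n : ℝ) ≤ T ^ B := (Nat.le_floor_iff (by positivity)).1 hn.2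
          calc Real.log n ≤ Real.log (T ^ B) := Real.log_le_log hn0 this
            _ = B * Real.log T := by rw [Real.log_pow]
        have f3 : 1 ≤ Real.sqrt n := by rw [Real.one_le_sqrt]; exact hn1
        have f4 : ArithmeticFunction.vonMangoldt n / Real.sqrt n ≤ B * Real.log T :=
          (div_le_self ArithmeticFunction.vonMangoldt_nonneg f3).trans f2
        calc ArithmeticFunction.vonMangoldt n / Real.sqrt n * |w2 (Real.log n / Real.log T)| ≤
              (B * Real.log T) * Bw := mul_le_mul f4 (hBw _) (abs_nonneg _) (by positivity)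
          _ = B * Bw * Real.log T := by ring
      have f5 : |cx x| ≤ T * Bv := by
        rw [hcx]
        simp only
        rw [abs_div, abs_mul, abs_mul, abs_of_pos hL0, abs_of_nonneg (Real.sqrt_nonneg _)]
        refine (div_le_self (by positivity) hL).trans ?_
        have f6 : |mf x.1| ≤ 1 := by
          unfold mf
          have h3 : (1 : ℝ) ≤ (Nat.totient x.1 : ℝ) := by
            exact_mod_cast Nat.totient_pos.2 (Nat.pos_of_ne_zero (by omega))
          have h4 : |((ArithmeticFunction.moebius x.1 : ℤ) : ℝ)| ≤ 1 := by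
            have := ArithmeticFunction.abs_moebius_le_one (n := x.1)
            exact_mod_cast this
          rw [abs_div, abs_of_pos (by linarith : (0:ℝ) < (Nat.totient x.1 : ℝ)), div_le_iff₀ (by linarith)]
          linarith
        have f7 : Real.sqrt ((x.1 : ℝ) / x.2) ≤ T := by
          rw [Real.sqrt_le_left hT0.le]
          calc (x.1 : ℝ) / x.2 ≤ (x.1 : ℝ) := div_le_self hx1.le h2x'
            _ ≤ T := h3
            _ ≤ T ^ 2 := by nlinarith
        calc |mf x.1| * Real.sqrt ((x.1 : ℝ) / x.2) * |v (lr T x)| ≤ 1 * T * Bv := by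
              gcongr
              exact hBv _
          _ = T * Bv := by ring
      rw [norm_mul, Complex.norm_real, Real.norm_eq_abs, abs_mul]
      calc |A n| * |cx x| * ‖HH g k T ((x.2 : ℝ) * n / x.1)‖ ≤ (B * Bw) * (T * Bv) * (C / T ^ (B + 6)) := by gcongr
        _ = K / T ^ (B + 5) := by
          rw [hK, show B + 6 = (B + 5) + 1 by ring, pow_succ T (B + 5)]
          field_simp
    have hsum : ‖∫ t, ((om g.h T t : ℝ) : ℂ) * (AB B w2 T t * (starRingEnd ℂ) (mm k T t * DD v e T t))‖ ≤
        (T * T) * (T ^ B * (K / T ^ (B + 5))) := by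
      rw [hI]
      refine (norm_sum_le _ _).trans ?_
      have h5 : ∀ x ∈ RA e T, ‖∑ n ∈ Finset.Icc 1 N, ((A n * cx x : ℝ) : ℂ) * HH g k T ((x.2 : ℝ) * n / x.1)‖ ≤
          T ^ B * (K / T ^ (B + 5)) := by
        intro x hx
        refine (norm_sum_le _ _).trans ((Finset.sum_le_sum (hterm x hx)).trans ?_)
        rw [Finset.sum_const, Nat.card_Icc, Nat.add_sub_cancel, nsmul_eq_mul]
        gcongr
      refine (Finset.sum_le_sum h5).trans ?_
      rw [Finset.sum_const, nsmul_eq_mul]
      gcongr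
    have hfin : (T * T) * (T ^ B * (K / T ^ (B + 5))) ≤ K := by
      have : (T * T) * (T ^ B * (K / T ^ (B + 5))) = K / T ^ 3 := by
        rw [pow_add]
        field_simp
      rw [this]
      exact div_le_self hK0 (one_le_pow₀ hT1)
    rw [hre, norm_div, Real.norm_eq_abs, Real.norm_eq_abs, abs_of_pos hT0]
    gcongr
    exact (Complex.abs_re_le_norm _).trans (hsum.trans hfin)
  have hlim : Tendsto (fun T : ℝ => K / T) atTop (𝓝 0) := tendsto_const_nhds.div_atTop tendsto_id
  exact squeeze_zero_norm' key hlim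

end Pool.Agent.Helper69.FF
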