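import Pool.Agent.Helper69.FF.XFarA
import Pool.Agent.Helper69.FF.XFarD
import Pool.Agent.Helper69.FF.Ineq

/-!
# FF-XLow: the lower bound for a general weight

As `lower` (FF.Ineq) with `AA w` replaced by `AB B (w1 + w2) = AA w1 + AB B w2` (FF.XDefs): two more cross terms, which tend to 0 (`far_A`, `far_D`).
-/

open MeasureTheory Set Filter Topology
open Pool.Agent.Helper57.Zeta Pool.Agent.Helper57.PC Pool.Agent.Helper57.LH Pool.Agent.Helper78.SG
open Pool.Agent.Helper4.SH (om)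
open scoped ContDiff

namespace Pool.Agent.Helper69.FF

private theorem x5_xp (x : ℝ) : Continuous (fun t : ℝ => xp t x) := by
  unfold xp
  fun_prop

private theorem x5_AA (w : ℝ → ℝ) (T : ℝ) : Continuous (fun t : ℝ => AA w T t) := by
  unfold AA
  exact continuous_finsetSum _ fun n _ => continuous_const.mul (x5_xp _)

private theorem x5_DD (v : ℝ → ℝ) (e T : ℝ) : Continuous (fun t : ℝ => DD v e T t) := by
  unfold DD
  exact continuous_finsetSum _ fun x _ => continuous_const.mul (x5_xp _)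

private theorem x5_om (g : TF) (T : ℝ) : Continuous (fun t : ℝ => om g.h T t) := by
  unfold Pool.Agent.Helper4.SH.om
  have := g.smooth.continuous
  fun_prop

private theorem x5_om_cs (g : TF) {T : ℝ} (hT : 0 < T) : HasCompactSupport (fun t : ℝ => om g.h T t) := by
  refine HasCompactSupport.intro (isCompact_Icc (a := T * (1 / 2 - g.th)) (b := T * (1 / 2 + g.th))) fun t ht => ?_
  show om g.h T t = 0
  unfold Pool.Agent.Helper4.SH.om
  refine g.supp _ ?_
  by_contra h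
  rw [not_le, abs_lt] at h
  apply ht
  have h1 : t = T * (t / T) := by field_simp
  constructor
  · rw [h1]; exact mul_le_mul_of_nonneg_left (by linarith [h.1]) hT.le
  · rw [h1]; exact mul_le_mul_of_nonneg_left (by linarith [h.2]) hT.le

private theorem x5_int (g : TF) {T : ℝ} (hT : 0 < T) {F : ℝ → ℝ} (hF : Continuous F) :
    Integrable (fun t : ℝ => om g.h T t * F t) := by
  have hc : Continuous (fun t : ℝ => om g.h T t * F t) := (x5_om g T).mul hF
  have hs : HasCompactSupport (fun t : ℝ => om g.h T t * F t) := (x5_om_cs g hT).mul_right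
  exact hc.integrable_of_hasCompactSupport hs

private theorem x5_re (A B : ℂ) : 0 ≤ ‖A‖ ^ 2 - 2 * (A * (starRingEnd ℂ) B).re + ‖B‖ ^ 2 := by
  have h1 : ‖A - B‖ ^ 2 = ‖A‖ ^ 2 - 2 * (A * (starRingEnd ℂ) B).re + ‖B‖ ^ 2 := by
    simp only [← Complex.normSq_eq_norm_sq, Complex.normSq_apply, Complex.sub_re, Complex.sub_im,
      Complex.mul_re, Complex.conj_re, Complex.conj_im]
    ring
  rw [← h1]
  positivity

private theorem x5_add (A M : ℂ) : ‖A + M‖ ^ 2 = (A * (starRingEnd ℂ) A).re + 2 * (A * (starRingEnd ℂ) M).re + ‖M‖ ^ 2 := by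
  simp only [← Complex.normSq_eq_norm_sq, Complex.normSq_apply, Complex.add_re, Complex.add_im,
    Complex.mul_re, Complex.conj_re, Complex.conj_im]
  ring

private theorem x5_ptw (A A0 m D : ℂ) {q : ℝ} (hq : ‖m‖ ≤ q) :
    2 * (A * (starRingEnd ℂ) A0).re + 2 * (A * (starRingEnd ℂ) (m * D)).re - (A0 * (starRingEnd ℂ) A0).re -
      2 * (A0 * (starRingEnd ℂ) (m * D)).re - q ^ 2 * ‖D‖ ^ 2 ≤ ‖A‖ ^ 2 := by
  have h1 := x5_re A (A0 + m * D)
  rw [x5_add, map_add, mul_add, Complex.add_re] at h1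
  have h2 : ‖m * D‖ ^ 2 ≤ q ^ 2 * ‖D‖ ^ 2 := by
    rw [norm_mul, mul_pow]
    exact mul_le_mul_of_nonneg_right (pow_le_pow_left₀ (norm_nonneg _) hq 2) (by positivity)
  linarith

private theorem x5_lin {f1 f2 f3 f4 f5 : ℝ → ℝ} (h1 : Integrable f1) (h2 : Integrable f2) (h3 : Integrable f3)
    (h4 : Integrable f4) (h5 : Integrable f5) (q : ℝ) :
    (∫ t, (2 * f1 t + 2 * f2 t - f3 t - 2 * f4 t - q * f5 t)) =
      2 * (∫ t, f1 t) + 2 * (∫ t, f2 t) - (∫ t, f3 t) - 2 * (∫ t, f4 t) - q * (∫ t, f5 t) := by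
  have k1 : Integrable (fun t => 2 * f1 t + 2 * f2 t) := (h1.const_mul 2).add (h2.const_mul 2)
  have k2 : Integrable (fun t => 2 * f1 t + 2 * f2 t - f3 t) := k1.sub h3
  have k3 : Integrable (fun t => 2 * f1 t + 2 * f2 t - f3 t - 2 * f4 t) := k2.sub (h4.const_mul 2)
  rw [integral_sub k3 (h5.const_mul q), integral_sub k2 (h4.const_mul 2), integral_sub k1 h3,
    integral_add (h1.const_mul 2) (h2.const_mul 2), integral_const_mul, integral_const_mul, integral_const_mul,
    integral_const_mul]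

private theorem x5_AB (B : ℕ) (w : ℝ → ℝ) (T : ℝ) : Continuous (fun t : ℝ => AB B w T t) := by
  unfold AB
  exact continuous_finsetSum _ fun n _ => continuous_const.mul (x5_xp _)

private theorem x5_split (g : TF) {w1 w2 : ℝ → ℝ} {a b : ℝ} (hw : WR w1 a b) (hb : b < 3 / 2) {B : ℕ} (hB : 2 ≤ B)
    {T : ℝ} (hT : 1 < T) {F : ℝ → ℂ} (hF : Continuous F) :
    (∫ t, om g.h T t * (AA w1 T t * (starRingEnd ℂ) (F t)).re) / T +
      (∫ t, om g.h T t * (AB B w2 T t * (starRingEnd ℂ) (F t)).re) / T =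
      (∫ t, om g.h T t * (AB B (fun x => w1 x + w2 x) T t * (starRingEnd ℂ) (F t)).re) / T := by
  have hT0 : 0 < T := by linarith
  have j1 := x5_int g hT0 (F := fun t => (AA w1 T t * (starRingEnd ℂ) (F t)).re)
    (Complex.continuous_re.comp ((x5_AA w1 T).mul (Complex.continuous_conj.comp hF)))
  have j2 := x5_int g hT0 (F := fun t => (AB B w2 T t * (starRingEnd ℂ) (F t)).re)
    (Complex.continuous_re.comp ((x5_AB B w2 T).mul (Complex.continuous_conj.comp hF)))
  rw [← add_div, ← integral_add j1 j2]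
  congr 1
  refine integral_congr_ae (Eventually.of_forall fun t => ?_)
  show om g.h T t * (AA w1 T t * (starRingEnd ℂ) (F t)).re + om g.h T t * (AB B w2 T t * (starRingEnd ℂ) (F t)).re =
    om g.h T t * (AB B (fun x => w1 x + w2 x) T t * (starRingEnd ℂ) (F t)).re
  rw [AB_add, AB_eq hB hw (by linarith) hT, ← mul_add, ← Complex.add_re, ← add_mul]

theorem lower_gen (g : TF) (hg0 : ∀ x, 0 ≤ g.h x) {w1 w2 w0 v : ℝ → ℝ} {a b a2 b2 a0 b0 a' b' e : ℝ} (hw : WR w1 a b)
    (hb : b < 3 / 2) (hw2 : WR w2 a2 b2) (ha2 : 1 < a2)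
    (hw0 : WR w0 a0 b0) (hb0 : b0 < 1) (hv : WR v a' b') (ha' : 1 < a') (hb' : b' < 3 / 2) (hba : b' < a2)
    (he : 0 < e) (he1 : e < 1 / 4) {B : ℕ} (hB : 2 ≤ B)
    {ε : ℝ} (hε : 0 < ε) : ∀ᶠ T : ℝ in atTop,
    (∫ x, g.h x) * (2 * (∫ x in Ioi (0:ℝ), x * (w1 x * w0 x)) + 2 * VE e (fun x => w1 x * v x) -
      (∫ x in Ioi (0:ℝ), x * (w0 x * w0 x)) - VE e (fun x => v x ^ 2)) - ε ≤
      (∫ t, om g.h T t * ‖AB B (fun x => w1 x + w2 x) T t‖ ^ 2) / T := by
  obtain ⟨k, c, hk⟩ := KW_exists g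
  obtain ⟨C, hC, hm⟩ := mm_le g hk
  set w : ℝ → ℝ := fun x => w1 x + w2 x with hwd
  have l1 : Tendsto (fun T : ℝ => (∫ t, om g.h T t * (AB B w T t * (starRingEnd ℂ) (AA w0 T t)).re) / T) atTop
      (𝓝 ((∫ x, g.h x) * (∫ x in Ioi (0:ℝ), x * (w1 x * w0 x)) + 0)) := by
    refine ((A00 g hw hb hw0 hb0).add (far_A g hw2 ha2 hw0 hb0 B)).congr' ?_
    filter_upwards [eventually_gt_atTop 1] with T hT
    exact x5_split g hw hb hB hT (x5_AA w0 T)
  have l2 : Tendsto (fun T : ℝ => (∫ t, om g.h T t * (AB B w T t * (starRingEnd ℂ) (mm k T t * DD v e T t)).re) / T)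
      atTop (𝓝 ((∫ x, g.h x) * VE e (fun x => w1 x * v x) + 0)) := by
    refine ((corr_v g hk hw hb hv ha' hb' he he1).add (far_D g hk hw2 hv ha' hba he he1 B)).congr' ?_
    filter_upwards [eventually_gt_atTop 1] with T hT
    exact x5_split g hw hb hB hT ((mm_cont g hk T).mul (x5_DD v e T))
  rw [add_zero] at l1 l2
  have l3 := A00 g hw0 (by linarith : b0 < 3 / 2) hw0 hb0
  have l4 := corr_0 g hk hw0 hb0 hv ha' hb' he he1
  have l5 := DD_sq g hv ha' hb' he he1
  have l6 : Tendsto (fun T : ℝ => (1 + C / Real.sqrt T) ^ 2) atTop (𝓝 1) := by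
    have h1 : Tendsto (fun T : ℝ => C / Real.sqrt T) atTop (𝓝 0) :=
      tendsto_const_nhds.div_atTop Real.tendsto_sqrt_atTop
    have h2 := (h1.const_add 1).pow 2
    simpa using h2
  have L := ((((l1.const_mul 2).add (l2.const_mul 2)).sub l3).sub (l4.const_mul 2)).sub (l6.mul l5)
  have hev := (tendsto_order.1 L).1 ((∫ x, g.h x) * (2 * (∫ x in Ioi (0:ℝ), x * (w1 x * w0 x)) + 2 * VE e (fun x => w1 x * v x) -
      (∫ x in Ioi (0:ℝ), x * (w0 x * w0 x)) - VE e (fun x => v x ^ 2)) - ε) (by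
        have h9 : ∀ G I1 V1 I2 V2 : ℝ, G * (2 * I1 + 2 * V1 - I2 - V2) - ε < 2 * (G * I1) + 2 * (G * V1) - G * I2 - 2 * 0 - 1 * (G * V2) := by
          intro G I1 V1 I2 V2
          have : 2 * (G * I1) + 2 * (G * V1) - G * I2 - 2 * 0 - 1 * (G * V2) = G * (2 * I1 + 2 * V1 - I2 - V2) := by ring
          rw [this]
          linarith
        exact h9 _ _ _ _ _)
  filter_upwards [hev, eventually_ge_atTop 1] with T h1 hT
  refine h1.le.trans ?_
  have hT0 : 0 < T := by linarith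
  have cA := x5_AB B w T
  have cA0 := x5_AA w0 T
  have cM : Continuous (fun t => mm k T t * DD v e T t) := (mm_cont g hk T).mul (x5_DD v e T)
  have cD := x5_DD v e T
  have j1 := x5_int g hT0 (F := fun t => (AB B w T t * (starRingEnd ℂ) (AA w0 T t)).re)
    (Complex.continuous_re.comp (cA.mul (Complex.continuous_conj.comp cA0)))
  have j2 := x5_int g hT0 (F := fun t => (AB B w T t * (starRingEnd ℂ) (mm k T t * DD v e T t)).re)
    (Complex.continuous_re.comp (cA.mul (Complex.continuous_conj.comp cM)))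
  have j3 := x5_int g hT0 (F := fun t => (AA w0 T t * (starRingEnd ℂ) (AA w0 T t)).re)
    (Complex.continuous_re.comp (cA0.mul (Complex.continuous_conj.comp cA0)))
  have j4 := x5_int g hT0 (F := fun t => (AA w0 T t * (starRingEnd ℂ) (mm k T t * DD v e T t)).re)
    (Complex.continuous_re.comp (cA0.mul (Complex.continuous_conj.comp cM)))
  have j5 := x5_int g hT0 (F := fun t => ‖DD v e T t‖ ^ 2) (cD.norm.pow 2)
  have j6 := x5_int g hT0 (F := fun t => ‖AB B w T t‖ ^ 2) (cA.norm.pow 2)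
  have hle : (∫ t, (2 * (om g.h T t * (AB B w T t * (starRingEnd ℂ) (AA w0 T t)).re) +
      2 * (om g.h T t * (AB B w T t * (starRingEnd ℂ) (mm k T t * DD v e T t)).re) -
      om g.h T t * (AA w0 T t * (starRingEnd ℂ) (AA w0 T t)).re -
      2 * (om g.h T t * (AA w0 T t * (starRingEnd ℂ) (mm k T t * DD v e T t)).re) -
      (1 + C / Real.sqrt T) ^ 2 * (om g.h T t * ‖DD v e T t‖ ^ 2))) ≤ ∫ t, om g.h T t * ‖AB B w T t‖ ^ 2 := by
    refine integral_mono (((((j1.const_mul 2).add (j2.const_mul 2)).sub j3).sub (j4.const_mul 2)).sub (j5.const_mul _)) j6 ?_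
    intro t
    show 2 * (om g.h T t * (AB B w T t * (starRingEnd ℂ) (AA w0 T t)).re) +
      2 * (om g.h T t * (AB B w T t * (starRingEnd ℂ) (mm k T t * DD v e T t)).re) -
      om g.h T t * (AA w0 T t * (starRingEnd ℂ) (AA w0 T t)).re -
      2 * (om g.h T t * (AA w0 T t * (starRingEnd ℂ) (mm k T t * DD v e T t)).re) -
      (1 + C / Real.sqrt T) ^ 2 * (om g.h T t * ‖DD v e T t‖ ^ 2) ≤ om g.h T t * ‖AB B w T t‖ ^ 2
    by_cases h0 : om g.h T t = 0
    · rw [h0]; simp
    · have hq := hm T t hT h0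
      have h2 := x5_ptw (AB B w T t) (AA w0 T t) (mm k T t) (DD v e T t) hq
      have h3 : 0 ≤ om g.h T t := hg0 _
      have h4 := mul_le_mul_of_nonneg_left h2 h3
      refine le_trans (le_of_eq ?_) h4
      ring
  rw [x5_lin j1 j2 j3 j4 j5] at hle
  have h5 := div_le_div_of_nonneg_right hle hT0.le
  refine le_trans (le_of_eq ?_) h5
  ring

end Pool.Agent.Helper69.FF
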