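import Pool.Agent.Helper69.FF.XLow
import Pool.Agent.Helper69.FF.XCut
import Pool.Agent.Helper69.FF.Main

/-!
# FF-XMain: the theorem for smooth weights with compact support in (0, ∞)

As FF.Main (the argument of helper9) with `lower_gen`, `cut_gen`; `PP T w t = AB B w T t` for `b ≤ B` (`B = ⌈b⌉₊ + 4`).
-/

open MeasureTheory Set Filter Topology
open Pool.Agent.Helper57.Zeta Pool.Agent.Helper57.PC Pool.Agent.Helper57.LH Pool.Agent.Helper78.SG
open Pool.Agent.Helper4.SH (om)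
open scoped ContDiff

namespace Pool.Agent.Helper69.FF

open Pool.Agent.Helper93.LP (PP GG)

private theorem h32_PP_AB {w : ℝ → ℝ} {a b : ℝ} (hw : WR w a b) {B : ℕ} (hb : b < B) {T : ℝ} (hT : 1 < T) (t : ℝ) :
    PP T (fun x => (w x : ℂ)) t = AB B w T t := by
  have hT0 : 0 < T := by linarith
  have hL : 0 < Real.log T := Real.log_pos hT
  have h1 := Pool.Agent.Helper93.LP.MVs.PP_eq hw (β := B) hb hT t
  have hN : NX ((B : ℝ) * Real.log T) = ⌊T ^ B⌋₊ := by
    unfold NX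
    congr 1
    rw [Real.exp_nat_mul, Real.exp_log hT0]
  rw [h1, hN]
  unfold AB
  have hsub : Finset.Icc 1 ⌊T ^ B⌋₊ ⊆ Finset.range (⌊T ^ B⌋₊ + 1) := by
    intro n hn
    rw [Finset.mem_Icc] at hn
    rw [Finset.mem_range]
    omega
  rw [Complex.ofReal_sum, Complex.ofReal_sum, Finset.sum_mul, ← Finset.sum_sub_distrib]
  symm
  rw [← Finset.sum_subset hsub (f := fun n => ((Pool.Agent.Helper93.LP.MVs.cc w (Real.log T) n * Real.cos (Real.log n * t) : ℝ) : ℂ) -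
      ((Pool.Agent.Helper93.LP.MVs.cc w (Real.log T) n * Real.sin (Real.log n * t) : ℝ) : ℂ) * Complex.I)]
  · refine Finset.sum_congr rfl fun n hn => ?_
    rw [Finset.mem_Icc] at hn
    have hn0 : (0 : ℝ) < n := by exact_mod_cast hn.1
    have hs : Real.sqrt n ≠ 0 := (Real.sqrt_pos.mpr hn0).ne'
    unfold Pool.Agent.Helper93.LP.MVs.cc xp
    have h2 : -(((t * Real.log n : ℝ) : ℂ) * Complex.I) = ((-(Real.log n * t) : ℝ) : ℂ) * Complex.I := by
      push_cast; ring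
    rw [h2, Complex.exp_mul_I, ← Complex.ofReal_cos, ← Complex.ofReal_sin, Real.cos_neg, Real.sin_neg]
    have h3 : ArithmeticFunction.vonMangoldt n * w (Real.log n / Real.log T) / (Real.log T * Real.sqrt n) =
        ArithmeticFunction.vonMangoldt n / Real.sqrt n * w (Real.log n / Real.log T) / Real.log T := by
      field_simp
    rw [h3]
    push_cast
    ring
  · intro n hn hn'
    rw [Finset.mem_range] at hn
    rw [Finset.mem_Icc] at hn'
    have : n = 0 := by omega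
    subst this
    rw [Pool.Agent.Helper93.LP.MVs.cc_zero]
    simp

private theorem h32_bump {κ : ℝ} (hκ : 0 < κ) (hκ1 : κ < 1 / 4) :
    ∃ g : TF, (∀ x, 0 ≤ g.h x) ∧ (∀ x, g.h x ≤ 1) ∧ 1 - 4 * κ ≤ ∫ x, g.h x := by
  let f : ContDiffBump (0 : ℝ) :=
    { rIn := 1 / 2 - 2 * κ
      rOut := 1 / 2 - κ
      rIn_pos := by linarith
      rIn_lt_rOut := by linarith }
  let g : TF :=
    { h := fun x => f x
      th := 1 / 2 - κ
      smooth := f.contDiff
      even := fun x => f.neg x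
      th0 := by linarith
      th1 := by linarith
      supp := fun x hx => f.zero_of_le_dist (by
        rw [Real.dist_eq, sub_zero]
        exact hx) }
  refine ⟨g, fun x => f.nonneg, fun x => f.le_one, ?_⟩
  have h1 := f.measure_closedBall_le_integral volume
  have h2 : volume.real (Metric.closedBall (0 : ℝ) f.rIn) = 1 - 4 * κ := by
    rw [Measure.real, Real.volume_closedBall, ENNReal.toReal_ofReal]
    · show 2 * (1 / 2 - 2 * κ) = 1 - 4 * κ
      ring
    · show 0 ≤ 2 * (1 / 2 - 2 * κ)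
      linarith
  rw [h2] at h1
  exact h1

private theorem h32_om_supp (g : TF) {T t : ℝ} (hT : 0 < T) (h : om g.h T t ≠ 0) :
    (1 / 2 - g.th) * T ≤ t ∧ t ≤ (1 - (1 / 2 - g.th)) * T := by
  unfold Pool.Agent.Helper4.SH.om at h
  have h1 : |t / T - 1 / 2| < g.th := by
    by_contra h2
    rw [not_lt] at h2
    exact h (g.supp _ h2)
  rw [abs_lt] at h1
  have h3 : t = t / T * T := by field_simp
  constructor
  · rw [h3]
    exact mul_le_mul_of_nonneg_right (by linarith [h1.1]) hT.le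
  · rw [h3]
    exact mul_le_mul_of_nonneg_right (by linarith [h1.2]) hT.le

private theorem h32_om_cont (g : TF) (T : ℝ) : Continuous (fun t : ℝ => om g.h T t) := by
  unfold Pool.Agent.Helper4.SH.om
  have := g.smooth.continuous
  fun_prop

private theorem h32_om_set (g : TF) {T : ℝ} (hT : 0 < T) (F : ℝ → ℝ) :
    (∫ t, om g.h T t * F t) = ∫ t in Ioc 0 T, om g.h T t * F t := by
  symm
  apply setIntegral_eq_integral_of_forall_compl_eq_zero
  intro t ht
  have h0 : om g.h T t = 0 := by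
    by_contra h
    obtain ⟨h1, h2⟩ := h32_om_supp g hT h
    have h3 : 0 < (1 / 2 - g.th) * T := mul_pos (by linarith [g.th1]) hT
    apply ht
    refine ⟨by linarith, ?_⟩
    nlinarith
  rw [h0, zero_mul]

private theorem h32_om_le (g : TF) (_hg0 : ∀ x, 0 ≤ g.h x) (hg1 : ∀ x, g.h x ≤ 1) {T : ℝ} (hT : 0 < T) {F : ℝ → ℝ}
    (hF : Continuous F) (hF0 : ∀ t, 0 ≤ F t) : (∫ t, om g.h T t * F t) ≤ ∫ t in (0:ℝ)..T, F t := by
  rw [h32_om_set g hT F, intervalIntegral.integral_of_le hT.le]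
  refine setIntegral_mono_on ?_ ?_ measurableSet_Ioc ?_
  · exact (((h32_om_cont g T).mul hF).continuousOn.integrableOn_Icc).mono_set Ioc_subset_Icc_self
  · exact (hF.continuousOn.integrableOn_Icc).mono_set Ioc_subset_Icc_self
  · intro t _
    have h1 : om g.h T t ≤ 1 := hg1 _
    exact mul_le_of_le_one_left (hF0 t) h1

private theorem h32_om_mono (g : TF) (hg0 : ∀ x, 0 ≤ g.h x) {T : ℝ} (hT : 0 < T) {F H : ℝ → ℝ}
    (hF : Continuous F) (hH : Continuous H) (h : ∀ t, om g.h T t ≠ 0 → F t ≤ H t) :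
    (∫ t, om g.h T t * F t) ≤ ∫ t, om g.h T t * H t := by
  rw [h32_om_set g hT F, h32_om_set g hT H]
  refine setIntegral_mono_on ?_ ?_ measurableSet_Ioc ?_
  · exact (((h32_om_cont g T).mul hF).continuousOn.integrableOn_Icc).mono_set Ioc_subset_Icc_self
  · exact (((h32_om_cont g T).mul hH).continuousOn.integrableOn_Icc).mono_set Ioc_subset_Icc_self
  · intro t _
    by_cases h0 : om g.h T t = 0
    · rw [h0, zero_mul, zero_mul]
    · exact mul_le_mul_of_nonneg_left (h t h0) (hg0 _)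

private theorem h32_main {w : ℝ → ℝ} {a b : ℝ} (hw : WR w a b) {B : ℕ} (hB : 2 ≤ B) {ε : ℝ} (hε : 0 < ε) :
    ∃ g : TF, (∀ x, 0 ≤ g.h x) ∧ (∀ x, g.h x ≤ 1) ∧ ∀ᶠ T : ℝ in atTop,
      VV w - ε ≤ (∫ t, om g.h T t * ‖AB B w T t‖ ^ 2) / T := by
  obtain ⟨w1, w2, w0, v, a1, b1, a2, b2, a0, b0, a', b', e, hsum, hw1, hb1, hw2, ha2, -, hw0, hb0, hv, ha', hb', hba,
    he, he1, hcut⟩ := cut_gen hw (ε := ε / 4) (by linarith)
  have hww : (fun x => w1 x + w2 x) = w := by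
    funext x
    exact (hsum x).symm
  obtain ⟨κ, hκd⟩ : ∃ κ : ℝ, κ = min (1 / 8) (ε / (16 * (|VV w| + 1))) := ⟨_, rfl⟩
  have hV : 0 < |VV w| + 1 := by positivity
  have hκ : 0 < κ := by rw [hκd]; positivity
  have hκ1 : κ < 1 / 4 := by
    rw [hκd]
    exact lt_of_le_of_lt (min_le_left _ _) (by norm_num)
  have hκ2 : 4 * κ * |VV w| ≤ ε / 4 := by
    have h1 : κ ≤ ε / (16 * (|VV w| + 1)) := by rw [hκd]; exact min_le_right _ _
    rw [le_div_iff₀ (by positivity)] at h1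
    nlinarith [abs_nonneg (VV w)]
  obtain ⟨g, hg0, hg1, hgI⟩ := h32_bump hκ hκ1
  refine ⟨g, hg0, hg1, ?_⟩
  have hl := lower_gen g hg0 hw1 hb1 hw2 ha2 hw0 hb0 hv ha' hb' hba he he1 hB (ε := ε / 4) (by linarith)
  rw [hww] at hl
  filter_upwards [hl] with T hT
  refine le_trans ?_ hT
  have hGle : ∫ x, g.h x ≤ 1 := by
    have h1 : (∫ x, g.h x) = ∫ x in Icc (-(1 / 2) : ℝ) (1 / 2), g.h x := by
      symm
      apply setIntegral_eq_integral_of_forall_compl_eq_zero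
      intro x hx
      apply g.supp
      by_contra h
      rw [not_le, abs_lt] at h
      exact hx ⟨by linarith [h.1, g.th1], by linarith [h.2, g.th1]⟩
    rw [h1]
    have h2 : ∫ x in Icc (-(1 / 2) : ℝ) (1 / 2), g.h x ≤ ∫ x in Icc (-(1 / 2) : ℝ) (1 / 2), (1 : ℝ) := by
      refine setIntegral_mono_on ?_ ?_ measurableSet_Icc fun x _ => hg1 x
      · exact g.smooth.continuous.continuousOn.integrableOn_Icc
      · exact continuousOn_const.integrableOn_Icc
    refine h2.trans ?_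
    rw [setIntegral_const, Measure.real, Real.volume_Icc, smul_eq_mul, mul_one, ENNReal.toReal_ofReal (by norm_num)]
    norm_num
  obtain ⟨G, hG⟩ : ∃ G : ℝ, G = ∫ x, g.h x := ⟨_, rfl⟩
  rw [← hG] at hgI hGle ⊢
  have hG0 : 0 ≤ G := by linarith
  have h3 := mul_le_mul_of_nonneg_left hcut hG0
  have h4 : (1 - G) * VV w ≤ ε / 4 := by
    calc (1 - G) * VV w ≤ (1 - G) * |VV w| := mul_le_mul_of_nonneg_left (le_abs_self _) (by linarith)
      _ ≤ 4 * κ * |VV w| := mul_le_mul_of_nonneg_right (by linarith) (abs_nonneg _)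
      _ ≤ ε / 4 := hκ2
  have h5 : G * (ε / 4) ≤ ε / 4 := mul_le_of_le_one_left (by linarith) hGle
  have h6 : VV w - ε ≤ G * (VV w - ε / 4) - ε / 4 := by nlinarith
  linarith

private theorem h32_AB_cont (B : ℕ) (w : ℝ → ℝ) (T : ℝ) : Continuous (fun t : ℝ => AB B w T t) := by
  unfold AB
  refine continuous_finsetSum _ fun n _ => continuous_const.mul ?_
  unfold xp
  fun_prop

/-- primes -/
theorem main_primes_gen {w : ℝ → ℝ} {a b : ℝ} (hw : WR w a b) {ε : ℝ} (hε : 0 < ε) : ∀ᶠ T : ℝ in atTop,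
    VV w - ε ≤ (1 / T) * ∫ t in (0:ℝ)..T, ‖PP T (fun x => (w x : ℂ)) t‖ ^ 2 := by
  obtain ⟨B, hB2, hbB⟩ : ∃ B : ℕ, 2 ≤ B ∧ b < B := by
    refine ⟨⌈b⌉₊ + 4, by omega, ?_⟩
    push_cast
    linarith [Nat.le_ceil b]
  obtain ⟨g, hg0, hg1, h⟩ := h32_main hw hB2 hε
  filter_upwards [h, eventually_gt_atTop 1] with T hT hT1
  have hT0 : 0 < T := by linarith
  refine hT.trans ?_
  have h1 := h32_om_le g hg0 hg1 hT0 (F := fun t => ‖AB B w T t‖ ^ 2) ((h32_AB_cont B w T).norm.pow 2) (fun t => by positivity)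
  have h2 : (∫ t in (0:ℝ)..T, ‖PP T (fun x => (w x : ℂ)) t‖ ^ 2) = ∫ t in (0:ℝ)..T, ‖AB B w T t‖ ^ 2 := by
    congr 1
    funext t
    rw [h32_PP_AB hw hbB hT1]
  rw [h2, one_div, inv_mul_eq_div]
  exact div_le_div_of_nonneg_right h1 hT0.le

/-- zeros -/
theorem main_zeros_gen {w : ℝ → ℝ} {a b : ℝ} (hw : WR w a b) {ε : ℝ} (hε : 0 < ε) : ∀ᶠ T : ℝ in atTop,
    VV w - ε ≤ (1 / T) * ∫ t in (0:ℝ)..T, ‖GG T (fun x => (w x : ℂ)) t‖ ^ 2 := by
  obtain ⟨B, hB2, hbB⟩ : ∃ B : ℕ, 2 ≤ B ∧ b < B := by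
    refine ⟨⌈b⌉₊ + 4, by omega, ?_⟩
    push_cast
    linarith [Nat.le_ceil b]
  obtain ⟨g, hg0, hg1, h⟩ := h32_main hw hB2 (ε := ε / 2) (by linarith)
  obtain ⟨κ, hκd⟩ : ∃ κ : ℝ, κ = ε / (4 * (|VV w| + 1)) := ⟨_, rfl⟩
  have hV : 0 < |VV w| + 1 := by positivity
  have hκ : 0 < κ := by rw [hκd]; positivity
  have hκV : κ * (|VV w| + 1) = ε / 4 := by
    rw [hκd]
    field_simp
  obtain ⟨η, hηd⟩ : ∃ η : ℝ, η = Real.sqrt (ε / 4 / (1 + 1 / κ)) := ⟨_, rfl⟩
  have hη : 0 < η := by rw [hηd]; positivity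
  have hη2 : (1 + 1 / κ) * η ^ 2 = ε / 4 := by
    rw [hηd, Real.sq_sqrt (by positivity)]
    field_simp
  have hδ : 0 < 1 / 2 - g.th := by linarith [g.th1]
  have hδ2 : 1 / 2 - g.th < 1 / 2 := by linarith [g.th0]
  have hWC := Pool.Agent.Helper93.LP.WR.toWC hw
  have hef := Pool.Agent.Helper93.LP.ef_scaled hWC hδ hδ2 hη
  filter_upwards [h, hef, eventually_gt_atTop 1] with T hT hE hT1
  have hT0 : 0 < T := by linarith
  have hAc := h32_AB_cont B w T
  have hGc : Continuous (GG T (fun x => (w x : ℂ))) := Pool.Agent.Helper93.LP.GG_cont hWC T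
  have hGc2 : Continuous (fun t => ‖GG T (fun x => (w x : ℂ)) t‖ ^ 2) := hGc.norm.pow 2
  have h1 : (∫ t, om g.h T t * ‖AB B w T t‖ ^ 2) ≤
      ∫ t, om g.h T t * ((1 + κ) * ‖GG T (fun x => (w x : ℂ)) t‖ ^ 2 + (1 + 1 / κ) * η ^ 2) := by
    refine h32_om_mono g hg0 hT0 (hAc.norm.pow 2) ((continuous_const.mul hGc2).add continuous_const) ?_
    intro t ht
    obtain ⟨ht1, ht2⟩ := h32_om_supp g hT0 ht
    have h2 := hE t ht1 ht2
    rw [h32_PP_AB hw hbB hT1] at h2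
    have h3 : ‖AB B w T t‖ ≤ ‖GG T (fun x => (w x : ℂ)) t‖ + η := by
      have h4 : AB B w T t = (AB B w T t + GG T (fun x => (w x : ℂ)) t) - GG T (fun x => (w x : ℂ)) t := by ring
      rw [h4]
      refine (norm_sub_le _ _).trans ?_
      linarith
    obtain ⟨x, hx⟩ : ∃ x : ℝ, x = ‖GG T (fun x => (w x : ℂ)) t‖ := ⟨_, rfl⟩
    rw [← hx] at h3 ⊢
    have h5 : ‖AB B w T t‖ ^ 2 ≤ (x + η) ^ 2 := pow_le_pow_left₀ (norm_nonneg _) h3 2
    refine h5.trans ?_
    have h6 : 0 ≤ κ * (x - η / κ) ^ 2 := by positivity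
    have h7 : κ * (x - η / κ) ^ 2 = κ * x ^ 2 - 2 * x * η + 1 / κ * η ^ 2 := by
      field_simp
      ring
    nlinarith
  have h8 : (∫ t, om g.h T t * ((1 + κ) * ‖GG T (fun x => (w x : ℂ)) t‖ ^ 2 + (1 + 1 / κ) * η ^ 2)) ≤
      ∫ t in (0:ℝ)..T, ((1 + κ) * ‖GG T (fun x => (w x : ℂ)) t‖ ^ 2 + (1 + 1 / κ) * η ^ 2) :=
    h32_om_le g hg0 hg1 hT0 ((continuous_const.mul hGc2).add continuous_const) (fun t => by positivity)
  have h9 : (∫ t in (0:ℝ)..T, ((1 + κ) * ‖GG T (fun x => (w x : ℂ)) t‖ ^ 2 + (1 + 1 / κ) * η ^ 2)) =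
      (1 + κ) * (∫ t in (0:ℝ)..T, ‖GG T (fun x => (w x : ℂ)) t‖ ^ 2) + T * (ε / 4) := by
    have c1 : Continuous (fun t => (1 + κ) * ‖GG T (fun x => (w x : ℂ)) t‖ ^ 2) := continuous_const.mul hGc2
    rw [intervalIntegral.integral_add (c1.intervalIntegrable _ _)
      (continuous_const.intervalIntegrable _ _), intervalIntegral.integral_const_mul, intervalIntegral.integral_const,
      hη2, smul_eq_mul, sub_zero]
  obtain ⟨Y, hY⟩ : ∃ Y : ℝ, Y = (1 / T) * ∫ t in (0:ℝ)..T, ‖GG T (fun x => (w x : ℂ)) t‖ ^ 2 := ⟨_, rfl⟩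
  have hY0 : 0 ≤ Y := by
    rw [hY]
    refine mul_nonneg (by positivity) (intervalIntegral.integral_nonneg hT0.le fun t _ => by positivity)
  rw [← hY]
  have h10 : VV w - ε / 2 ≤ (1 + κ) * Y + ε / 4 := by
    refine hT.trans ?_
    rw [div_le_iff₀ hT0]
    refine (h1.trans h8).trans (le_of_eq ?_)
    rw [h9, hY]
    field_simp
  by_cases hneg : VV w - ε ≤ 0
  · linarith
  · push Not at hneg
    have h11 : κ * (VV w - ε) ≤ ε / 4 := by
      rw [← hκV]
      refine mul_le_mul_of_nonneg_left ?_ hκ.le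
      linarith [le_abs_self (VV w)]
    have h12 : (1 + κ) * (VV w - ε) ≤ (1 + κ) * Y := by nlinarith
    exact le_of_mul_le_mul_left h12 (by linarith)

end Pool.Agent.Helper69.FF
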